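import Pool.Agent.Lib.MP_629a14_nt.Kp.MeanD

/-! The normalised number of representations is bounded. -/

set_option autoImplicit false

namespace Pool.Agent.Lib.MP_629a14_nt.Kp

open Finset Pool.Agent.Lib.MP_629a14_nt Pool.Agent.Lib.MP_629a14_nt.Rob

theorem rho_zero (A B : Set ℕ) : rho A B 0 = 0 := by
  unfold rho En.HL
  simp

theorem rho_le' : ∃ C : ℝ, 0 < C ∧ ∀ (A B : Set ℕ) (n : ℕ), rho A B n ≤ C := by
  have h := En.tw_pos
  refine ⟨18480 / En.tw, by positivity, fun A B n => ?_⟩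
  rcases Nat.eq_zero_or_pos n with h0 | h0
  · rw [h0, rho_zero]
    positivity
  · exact rho_le A B n h0

theorem rho_bdd : ∃ C : ℝ, 0 < C ∧ ∀ (A B : Set ℕ) (n : ℕ), rho A B n ≤ C := rho_le'

end Pool.Agent.Lib.MP_629a14_nt.Kp
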