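import Mathlib

/-! Weyl's criterion for the averages of a sequence over finite sets of indices. -/

set_option autoImplicit false

namespace Pool.Agent.Lib.MP_629a14_nt.Kp

open Finset Filter Topology MeasureTheory

/-- Average of a function on the circle over the points `x p`, `p ∈ S`. -/
noncomputable def wavg (S : Finset ℕ) (x : ℕ → ℝ) (f : UnitAddCircle → ℂ) : ℂ :=
  (∑ p ∈ S, f (x p : UnitAddCircle)) / (S.card : ℂ)

theorem wavg_sub_le (S : Finset ℕ) (x : ℕ → ℝ) (f g : C(UnitAddCircle, ℂ)) :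
    ‖wavg S x f - wavg S x g‖ ≤ ‖f - g‖ := by
  unfold wavg
  rw [← sub_div, ← Finset.sum_sub_distrib, norm_div, Complex.norm_natCast]
  refine div_le_of_le_mul₀ (by positivity) (norm_nonneg _) ?_
  refine (norm_sum_le _ _).trans ?_
  rw [mul_comm, ← nsmul_eq_mul]
  refine Finset.sum_le_card_nsmul _ _ _ fun p _ => ?_
  exact ContinuousMap.norm_coe_le_norm (f - g) _

theorem fourierCoeff_sub_le (f g : C(UnitAddCircle, ℂ)) :
    ‖fourierCoeff f 0 - fourierCoeff g 0‖ ≤ ‖f - g‖ := by
  have hf : Integrable f (AddCircle.haarAddCircle (T := 1)) :=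
    f.continuous.integrable_of_hasCompactSupport (HasCompactSupport.of_compactSpace _)
  have hg : Integrable g (AddCircle.haarAddCircle (T := 1)) :=
    g.continuous.integrable_of_hasCompactSupport (HasCompactSupport.of_compactSpace _)
  unfold fourierCoeff
  simp only [neg_zero, fourier_zero, one_smul]
  rw [← integral_sub hf hg]
  refine (norm_integral_le_of_norm_le_const (C := ‖f - g‖) ?_).trans ?_
  · exact ae_of_all _ fun t => ContinuousMap.norm_coe_le_norm (f - g) t
  · simp

theorem weyl (S : ℕ → Finset ℕ) (x : ℕ → ℝ) (h0 : ∀ᶠ N in atTop, (S N).Nonempty)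
    (h : ∀ n : ℤ, n ≠ 0 → Tendsto (fun N => wavg (S N) x (fourier n)) atTop (𝓝 0))
    (f : C(UnitAddCircle, ℂ)) :
    Tendsto (fun N => wavg (S N) x f) atTop (𝓝 (fourierCoeff f 0)) := by
  -- trigonometric polynomials
  have hspan : ∀ g ∈ Submodule.span ℂ (Set.range (@fourier (1 : ℝ))),
      Tendsto (fun N => wavg (S N) x g) atTop (𝓝 (fourierCoeff g 0)) := by
    intro g hg
    induction hg using Submodule.span_induction with
    | mem g hg =>
      obtain ⟨n, rfl⟩ := hg
      rw [fourierCoeff_fourier]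
      by_cases hn : n = 0
      · subst hn
        rw [Pi.single_eq_same]
        refine tendsto_const_nhds.congr' ?_
        filter_upwards [h0] with N hN
        unfold wavg
        have : ((S N).card : ℂ) ≠ 0 := by
          have := hN.card_pos
          exact_mod_cast this.ne'
        simp [this]
      · rw [Pi.single_eq_of_ne' hn]
        exact h n hn
    | zero =>
      have h1 : fourierCoeff (⇑(0 : C(UnitAddCircle, ℂ))) 0 = 0 := by
        unfold fourierCoeff
        simp
      rw [h1]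
      refine tendsto_const_nhds.congr fun N => ?_
      simp [wavg]
    | add g₁ g₂ _ _ h1 h2 =>
      have hf : Integrable g₁ (AddCircle.haarAddCircle (T := 1)) :=
        g₁.continuous.integrable_of_hasCompactSupport (HasCompactSupport.of_compactSpace _)
      have hg : Integrable g₂ (AddCircle.haarAddCircle (T := 1)) :=
        g₂.continuous.integrable_of_hasCompactSupport (HasCompactSupport.of_compactSpace _)
      have h3 : fourierCoeff (⇑(g₁ + g₂)) 0 = fourierCoeff g₁ 0 + fourierCoeff g₂ 0 := by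
        unfold fourierCoeff
        simp only [neg_zero, fourier_zero, one_smul]
        rw [← integral_add hf hg]
        rfl
      rw [h3]
      refine (h1.add h2).congr fun N => ?_
      unfold wavg
      rw [← add_div, ← Finset.sum_add_distrib]
      rfl
    | smul c g _ h1 =>
      have h3 : fourierCoeff (⇑(c • g)) 0 = c * fourierCoeff g 0 := by
        rw [ContinuousMap.coe_smul]
        exact fourierCoeff.const_smul _ c 0
      rw [h3]
      refine (h1.const_mul c).congr fun N => ?_
      unfold wavg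
      rw [mul_div_assoc', Finset.mul_sum]
      rfl
  have hcl : f ∈ closure ((Submodule.span ℂ (Set.range (@fourier (1 : ℝ))) :
      Submodule ℂ C(AddCircle (1 : ℝ), ℂ)) : Set C(AddCircle (1 : ℝ), ℂ)) := by
    have := (span_fourier_closure_eq_top (T := (1 : ℝ)))
    rw [← Submodule.topologicalClosure_coe, this]
    trivial
  rw [Metric.tendsto_atTop]
  intro ε hε
  obtain ⟨g, hg, hfg⟩ := Metric.mem_closure_iff.1 hcl (ε / 3) (by positivity)
  obtain ⟨N₀, hN₀⟩ := Metric.tendsto_atTop.1 (hspan g hg) (ε / 3) (by positivity)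
  refine ⟨N₀, fun N hN => ?_⟩
  have h1 := hN₀ N hN
  rw [dist_eq_norm] at h1 hfg ⊢
  have h2 := wavg_sub_le (S N) x f g
  have h3 := fourierCoeff_sub_le g f
  rw [norm_sub_rev g f] at h3
  have h4 : wavg (S N) x f - fourierCoeff f 0 = (wavg (S N) x f - wavg (S N) x g) +
      (wavg (S N) x g - fourierCoeff g 0) + (fourierCoeff g 0 - fourierCoeff f 0) := by ring
  rw [h4]
  refine (norm_add₃_le).trans_lt ?_
  linarith

/-- The trapezoidal function. -/
noncomputable def trpz (a b δ t : ℝ) : ℝ := max 0 (min 1 (min ((t - a) / δ) ((b - t) / δ)))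

theorem trpz_nonneg (a b δ t : ℝ) : 0 ≤ trpz a b δ t := le_max_left _ _

theorem trpz_le_one (a b δ t : ℝ) : trpz a b δ t ≤ 1 := by
  unfold trpz
  exact max_le zero_le_one (min_le_left _ _)

theorem trpz_zero {a b δ t : ℝ} (hδ : 0 < δ) (h : t ≤ a ∨ b ≤ t) : trpz a b δ t = 0 := by
  unfold trpz
  refine max_eq_left ?_
  rcases h with h | h
  · exact (min_le_right _ _).trans ((min_le_left _ _).trans
      (div_nonpos_of_nonpos_of_nonneg (by linarith) hδ.le))
  · exact (min_le_right _ _).trans ((min_le_right _ _).trans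
      (div_nonpos_of_nonpos_of_nonneg (by linarith) hδ.le))

theorem trpz_one {a b δ t : ℝ} (hδ : 0 < δ) (h1 : a + δ ≤ t) (h2 : t ≤ b - δ) :
    trpz a b δ t = 1 := by
  unfold trpz
  have e1 : 1 ≤ (t - a) / δ := by rw [le_div_iff₀ hδ]; linarith
  have e2 : 1 ≤ (b - t) / δ := by rw [le_div_iff₀ hδ]; linarith
  rw [min_eq_left (le_min e1 e2)]
  exact max_eq_right zero_le_one

theorem trpz_continuous (a b δ : ℝ) : Continuous (trpz a b δ) := by
  unfold trpz
  fun_prop

theorem trpz_integral {a b δ : ℝ} (hδ : 0 < δ) (ha : 0 ≤ a) (hb : b ≤ 1) (hab : 2 * δ ≤ b - a) :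
    b - a - 2 * δ ≤ ∫ t in (0 : ℝ)..1, trpz a b δ t := by
  have h1 : ∫ t in (a + δ)..(b - δ), trpz a b δ t = b - a - 2 * δ := by
    have : ∫ t in (a + δ)..(b - δ), trpz a b δ t = ∫ t in (a + δ)..(b - δ), (1 : ℝ) := by
      refine intervalIntegral.integral_congr fun t ht => ?_
      rw [Set.uIcc_of_le (by linarith)] at ht
      exact trpz_one hδ ht.1 ht.2
    rw [this]
    simp
    ring
  rw [← h1]
  refine intervalIntegral.integral_mono_interval (by linarith) (by linarith) (by linarith) ?_ ?_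
  · exact ae_of_all _ fun t => trpz_nonneg a b δ t
  · exact (trpz_continuous a b δ).intervalIntegrable _ _

/-- The trapezoidal function on the circle. -/
noncomputable def trpzC {a b δ : ℝ} (hδ : 0 < δ) (ha : 0 ≤ a) (hb : b ≤ 1) :
    C(UnitAddCircle, ℂ) where
  toFun := AddCircle.liftIco 1 0 (fun t => (trpz a b δ t : ℂ))
  continuous_toFun := by
    refine AddCircle.liftIco_continuous ?_ ?_
    · rw [zero_add, trpz_zero hδ (Or.inl ha), trpz_zero hδ (Or.inr hb)]
    · exact (Complex.continuous_ofReal.comp (trpz_continuous a b δ)).continuousOn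

theorem trpzC_apply {a b δ : ℝ} (hδ : 0 < δ) (ha : 0 ≤ a) (hb : b ≤ 1) (t : ℝ) :
    trpzC hδ ha hb (t : UnitAddCircle) = (trpz a b δ (Int.fract t) : ℂ) := by
  have h1 : (t : UnitAddCircle) = ((Int.fract t : ℝ) : UnitAddCircle) := by
    have h2 : t = Int.fract t + ⌊t⌋ := (Int.fract_add_floor t).symm
    conv_lhs => rw [h2]
    rw [AddCircle.coe_add]
    have h3 : (((⌊t⌋ : ℤ) : ℝ) : UnitAddCircle) = 0 := by
      have := AddCircle.coe_period (1 : ℝ)
      have h4 : (((⌊t⌋ : ℤ) : ℝ) : UnitAddCircle) = (⌊t⌋ : ℤ) • ((1 : ℝ) : UnitAddCircle) := by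
        rw [← AddCircle.coe_zsmul]
        simp
      rw [h4, this, smul_zero]
    rw [h3, add_zero]
  rw [h1]
  show AddCircle.liftIco 1 0 (fun t => (trpz a b δ t : ℂ)) _ = _
  rw [AddCircle.liftIco_zero_coe_apply ⟨Int.fract_nonneg t, Int.fract_lt_one t⟩]

theorem trpzC_coeff {a b δ : ℝ} (hδ : 0 < δ) (ha : 0 ≤ a) (hb : b ≤ 1) :
    fourierCoeff (trpzC hδ ha hb) 0 = ((∫ t in (0 : ℝ)..1, trpz a b δ t : ℝ) : ℂ) := by
  have h1 : fourierCoeff (trpzC hδ ha hb) 0 =
      fourierCoeff (AddCircle.liftIco (1 : ℝ) 0 (fun t => (trpz a b δ t : ℂ))) 0 := rfl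
  rw [h1, fourierCoeff_liftIco_eq, fourierCoeffOn_eq_integral]
  simp only [neg_zero, fourier_zero, one_smul, zero_add, sub_zero, div_one]
  rw [intervalIntegral.integral_ofReal]

theorem arc_lower (S : ℕ → Finset ℕ) (x : ℕ → ℝ) (h0 : ∀ᶠ N in atTop, (S N).Nonempty)
    (h : ∀ n : ℤ, n ≠ 0 → Tendsto (fun N => wavg (S N) x (fourier n)) atTop (𝓝 0))
    {a b : ℝ} (ha : 0 ≤ a) (_hab : a ≤ b) (hb : b ≤ 1) {ε : ℝ} (hε : 0 < ε) :
    ∀ᶠ N in atTop, (b - a - ε) * ((S N).card : ℝ) ≤
      (((S N).filter (fun p => a ≤ Int.fract (x p) ∧ Int.fract (x p) < b)).card : ℝ) := by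
  classical
  by_cases hc : b - a ≤ ε
  · refine Eventually.of_forall fun N => ?_
    have h1 : (0 : ℝ) ≤ ((S N).card : ℝ) := Nat.cast_nonneg _
    have h2 : (0 : ℝ) ≤ (((S N).filter
      (fun p => a ≤ Int.fract (x p) ∧ Int.fract (x p) < b)).card : ℝ) := Nat.cast_nonneg _
    nlinarith
  rw [not_le] at hc
  set δ : ℝ := ε / 4 with hδ'
  have hδ : 0 < δ := by positivity
  have h1 := weyl S x h0 h (trpzC hδ ha hb)
  rw [trpzC_coeff] at h1
  have h2 := trpz_integral hδ ha hb (by linarith : 2 * δ ≤ b - a)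
  have h3 := (Complex.continuous_re.tendsto _).comp h1
  rw [Complex.ofReal_re] at h3
  have h4 : b - a - ε < ∫ t in (0 : ℝ)..1, trpz a b δ t := by linarith
  filter_upwards [h0, (tendsto_order.1 h3).1 _ h4] with N hN h5
  have hcard : (0 : ℝ) < ((S N).card : ℝ) := by exact_mod_cast hN.card_pos
  have h6 : (wavg (S N) x (trpzC hδ ha hb)).re =
      (∑ p ∈ S N, trpz a b δ (Int.fract (x p))) / (S N).card := by
    unfold wavg
    have : (∑ p ∈ S N, (trpzC hδ ha hb) (x p : UnitAddCircle)) / ((S N).card : ℂ) =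
        (((∑ p ∈ S N, trpz a b δ (Int.fract (x p))) / (S N).card : ℝ) : ℂ) := by
      push_cast
      congr 1
      exact Finset.sum_congr rfl fun p _ => trpzC_apply hδ ha hb (x p)
    rw [this, Complex.ofReal_re]
  rw [Function.comp_apply, h6, lt_div_iff₀ hcard] at h5
  refine h5.le.trans ?_
  rw [Finset.card_filter, Nat.cast_sum]
  refine Finset.sum_le_sum fun p _ => ?_
  split_ifs with hp
  · rw [Nat.cast_one]
    exact trpz_le_one _ _ _ _
  · rw [Nat.cast_zero, trpz_zero hδ]
    rw [not_and_or, not_le, not_lt] at hp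
    exact hp.imp le_of_lt id

/-- Weyl's criterion for arcs. -/
theorem arc (S : ℕ → Finset ℕ) (x : ℕ → ℝ) (h0 : ∀ᶠ N in atTop, (S N).Nonempty)
    (h : ∀ n : ℤ, n ≠ 0 → Tendsto (fun N => wavg (S N) x (fourier n)) atTop (𝓝 0))
    {a b : ℝ} (ha : 0 ≤ a) (hab : a ≤ b) (hb : b ≤ 1) :
    Tendsto (fun N => (((S N).filter
      (fun p => a ≤ Int.fract (x p) ∧ Int.fract (x p) < b)).card : ℝ) / (S N).card) atTop
      (𝓝 (b - a)) := by
  classical
  rw [Metric.tendsto_atTop']
  intro ε hε
  have e1 := arc_lower S x h0 h ha hab hb (ε := ε / 4) (by positivity)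
  have e2 := arc_lower S x h0 h le_rfl ha (hab.trans hb) (ε := ε / 4) (by positivity)
  have e3 := arc_lower S x h0 h (ha.trans hab) hb le_rfl (ε := ε / 4) (by positivity)
  have key : ∀ᶠ N in atTop, dist ((((S N).filter
      (fun p => a ≤ Int.fract (x p) ∧ Int.fract (x p) < b)).card : ℝ) / (S N).card) (b - a) < ε := by
    filter_upwards [h0, e1, e2, e3] with N hN h1 h2 h3
    have hcard : (0 : ℝ) < ((S N).card : ℝ) := by exact_mod_cast hN.card_pos
    have hsum : ((S N).filter (fun p => a ≤ Int.fract (x p) ∧ Int.fract (x p) < b)).card +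
        ((S N).filter (fun p => 0 ≤ Int.fract (x p) ∧ Int.fract (x p) < a)).card +
        ((S N).filter (fun p => b ≤ Int.fract (x p) ∧ Int.fract (x p) < 1)).card = (S N).card := by
      rw [Finset.card_filter, Finset.card_filter, Finset.card_filter, Finset.card_eq_sum_ones,
        ← Finset.sum_add_distrib, ← Finset.sum_add_distrib]
      refine Finset.sum_congr rfl fun p _ => ?_
      have p0 := Int.fract_nonneg (x p)
      have p1 := Int.fract_lt_one (x p)
      rcases lt_or_ge (Int.fract (x p)) a with c1 | c1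
      · rw [if_neg (fun c => absurd c.1 (not_le.2 c1)), if_pos ⟨p0, c1⟩,
          if_neg (fun c => absurd c.1 (not_le.2 (c1.trans_le hab)))]
      · rcases lt_or_ge (Int.fract (x p)) b with c2 | c2
        · rw [if_pos ⟨c1, c2⟩, if_neg (fun c => absurd c.2 (not_lt.2 c1)),
            if_neg (fun c => absurd c.1 (not_le.2 c2))]
        · rw [if_neg (fun c => absurd c.2 (not_lt.2 c2)), if_neg (fun c => absurd c.2 (not_lt.2 c1)),
            if_pos ⟨c2, p1⟩]
    have hsum' : (((S N).filter (fun p => a ≤ Int.fract (x p) ∧ Int.fract (x p) < b)).card : ℝ) +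
        ((S N).filter (fun p => 0 ≤ Int.fract (x p) ∧ Int.fract (x p) < a)).card +
        ((S N).filter (fun p => b ≤ Int.fract (x p) ∧ Int.fract (x p) < 1)).card =
        ((S N).card : ℝ) := by exact_mod_cast hsum
    rw [Real.dist_eq, abs_lt]
    constructor
    · have : b - a - ε / 4 ≤ (((S N).filter
        (fun p => a ≤ Int.fract (x p) ∧ Int.fract (x p) < b)).card : ℝ) / (S N).card := by
        rw [le_div_iff₀ hcard]
        exact h1
      linarith
    · have : (((S N).filter
        (fun p => a ≤ Int.fract (x p) ∧ Int.fract (x p) < b)).card : ℝ) / (S N).card ≤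
          b - a + ε / 2 := by
        rw [div_le_iff₀ hcard]
        nlinarith
      linarith
  obtain ⟨N₀, hN₀⟩ := eventually_atTop.1 key
  exact ⟨N₀, fun n hn => hN₀ n (le_of_lt hn)⟩

end Pool.Agent.Lib.MP_629a14_nt.Kp
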