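import Pool.Agent.Lib.MP_629a14_nt.Kp.Defs
import Pool.Agent.Lib.MP_629a14_nt.Kp.Weyl
import Pool.Agent.Lib.MP_629a14_nt.Rob.Minor
import Pool.Agent.Lib.MP_629a14_nt.Rob.PiAP

/-! Equidistribution of `√2 * p` modulo one for the primes `p` in a residue class. -/

set_option autoImplicit false

namespace Pool.Agent.Lib.MP_629a14_nt.Kp

open Finset Filter Topology Pool.Agent.Lib.MP_629a14_nt Pool.Agent.Lib.MP_629a14_nt.Rob

/-- An irrational number is far from the rational numbers with small denominator. -/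
theorem irr_dist (α : ℝ) (hα : Irrational α) (Q : ℕ) : ∃ δ : ℝ, 0 < δ ∧
    ∀ (q : ℕ) (a : ℤ), 1 ≤ q → q ≤ Q → δ < |α - a / q| := by
  induction Q with
  | zero => exact ⟨1, one_pos, fun q a h1 h2 => by omega⟩
  | succ Q ih =>
    obtain ⟨δ, hδ, h⟩ := ih
    set q₀ : ℝ := ((Q + 1 : ℕ) : ℝ) with hq₀
    have hq0 : 0 < q₀ := by rw [hq₀]; positivity
    set η : ℝ := |q₀ * α - round (q₀ * α)| with hη
    have hη0 : 0 < η := by
      rw [hη, abs_pos]
      intro h0
      have hirr : Irrational (q₀ * α) := by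
        rw [hq₀]
        exact_mod_cast hα.natCast_mul (by omega : Q + 1 ≠ 0)
      exact hirr.ne_int _ (sub_eq_zero.1 h0)
    refine ⟨min δ (η / (2 * q₀)), lt_min hδ (by positivity), fun q a h1 h2 => ?_⟩
    rcases Nat.lt_or_ge q (Q + 1) with hlt | hge
    · exact (min_le_left _ _).trans_lt (h q a h1 (by omega))
    · have hq : q = Q + 1 := by omega
      subst hq
      refine (min_le_right _ _).trans_lt ?_
      have h3 : η ≤ |q₀ * α - a| := round_le (q₀ * α) a
      have h4 : |α - a / ((Q + 1 : ℕ) : ℝ)| = |q₀ * α - a| / q₀ := by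
        rw [← hq₀]
        have : α - a / q₀ = (q₀ * α - a) / q₀ := by field_simp
        rw [this, abs_div, abs_of_pos hq0]
      rw [h4, lt_div_iff₀ hq0]
      have : η / (2 * q₀) * q₀ = η / 2 := by field_simp
      rw [this]
      linarith

/-- The exponential sum over the primes at an irrational frequency. -/
theorem SP_irr (α : ℝ) (hα : Irrational α) :
    Tendsto (fun N : ℕ => ‖SP N α‖ * Real.log N / (N : ℝ)) atTop (𝓝 0) := by
  rw [Metric.tendsto_atTop]
  intro ε hε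
  obtain ⟨Q, K, N₀, _, h⟩ := minor (ε / 2) (by positivity)
  obtain ⟨δ, hδ, hd⟩ := irr_dist α hα Q
  obtain ⟨N₁, hN₁⟩ := exists_nat_gt ((K : ℝ) / δ)
  refine ⟨max (max N₀ N₁) 3, fun N hN => ?_⟩
  have hN0 : N₀ ≤ N := le_trans (le_trans (le_max_left _ _) (le_max_left _ _)) hN
  have hN1 : N₁ ≤ N := le_trans (le_trans (le_max_right _ _) (le_max_left _ _)) hN
  have hN3 : 3 ≤ N := le_trans (le_max_right _ _) hN
  have hNr : (3 : ℝ) ≤ N := by exact_mod_cast hN3
  have hNpos : (0 : ℝ) < N := by linarith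
  have hlog : 0 < Real.log N := Real.log_pos (by linarith)
  rcases h N hN0 α with h1 | ⟨q, a, h1, h2, _, h4⟩
  · rw [Real.dist_eq, sub_zero, abs_of_nonneg (by positivity)]
    rw [div_lt_iff₀ hNpos]
    have h5 : ‖SP N α‖ * Real.log N ≤ ε / 2 * (N / Real.log N) * Real.log N :=
      mul_le_mul_of_nonneg_right h1 hlog.le
    have h6 : ε / 2 * (N / Real.log N) * Real.log N = ε / 2 * N := by field_simp
    rw [h6] at h5
    nlinarith
  · exfalso
    have h5 := hd q a h1 h2
    have h6 : (K : ℝ) / N < δ := by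
      rw [div_lt_iff₀ hNpos]
      rw [div_lt_iff₀ hδ] at hN₁
      have : (N₁ : ℝ) ≤ N := by exact_mod_cast hN1
      nlinarith
    linarith

/-- Detection of a residue class. -/
theorem detect (q : ℕ) (hq : 1 ≤ q) (m c : ℕ) :
    (∑ k ∈ range q, ee (((k : ℝ) / q) * ((m : ℝ) - c))) = if m ≡ c [MOD q] then (q : ℂ) else 0 := by
  have hq0 : (q : ℂ) ≠ 0 := by exact_mod_cast (by omega : q ≠ 0)
  have hpow : ∀ k : ℕ, ee (((k : ℝ) / q) * ((m : ℝ) - c)) = ee (((m : ℝ) - c) / q) ^ k := by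
    intro k
    unfold ee
    rw [← Complex.exp_nat_mul]
    congr 1
    push_cast
    ring
  simp_rw [hpow]
  have hone : ee (((m : ℝ) - c) / q) = 1 ↔ m ≡ c [MOD q] := by
    unfold ee
    rw [Complex.exp_eq_one_iff]
    constructor
    · rintro ⟨n, hn⟩
      have h1 : (2 * Real.pi * Complex.I : ℂ) ≠ 0 := Complex.two_pi_I_ne_zero
      have h2 : (((m : ℂ) - c) / q) = n := by
        apply mul_right_cancel₀ h1
        rw [← hn]
        push_cast
        ring
      rw [div_eq_iff hq0] at h2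
      have h3 : (m : ℤ) - c = n * q := by exact_mod_cast h2
      rw [Nat.modEq_iff_dvd]
      exact ⟨-n, by linarith⟩
    · intro h
      obtain ⟨n, hn⟩ := Nat.modEq_iff_dvd.1 h
      refine ⟨-n, ?_⟩
      have h3 : ((c : ℂ) - m) = q * n := by exact_mod_cast hn
      have h4 : ((((m : ℝ) - c) / q : ℝ) : ℂ) = -n := by
        push_cast
        rw [div_eq_iff hq0]
        linear_combination -h3
      rw [h4]
      push_cast
      ring
  split_ifs with h
  · rw [hone.2 h]
    simp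
  · have h1 : ee (((m : ℝ) - c) / q) ≠ 1 := fun h2 => h (hone.1 h2)
    have h2 : ee (((m : ℝ) - c) / q) ^ q = 1 := by
      unfold ee
      rw [← Complex.exp_nat_mul, Complex.exp_eq_one_iff]
      refine ⟨(m : ℤ) - c, ?_⟩
      push_cast
      field_simp
    have h3 := geom_sum_mul (ee (((m : ℝ) - c) / q)) q
    rw [h2, sub_self] at h3
    exact (mul_eq_zero.1 h3).resolve_right (sub_ne_zero.2 h1)

theorem arc_class_sum (q : ℕ) (hq : 1 ≤ q) (c N : ℕ) (α : ℝ) :
    (q : ℂ) * ∑ p ∈ (Icc 1 N).filter (fun n => n.Prime ∧ n ≡ c [MOD q]), ee (p * α) =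
      ∑ k ∈ range q, ee (-((k : ℝ) / q * c)) * SP N (α + (k : ℝ) / q) := by
  unfold SP
  rw [Finset.mul_sum, ← Finset.filter_filter, Finset.sum_filter]
  simp_rw [Finset.mul_sum]
  rw [Finset.sum_comm]
  refine Finset.sum_congr rfl fun p _ => ?_
  have h1 := detect q hq p c
  have h2 : ∀ k ∈ range q, ee (-((k : ℝ) / q * c)) * ee (p * (α + (k : ℝ) / q)) =
      ee (p * α) * ee (((k : ℝ) / q) * ((p : ℝ) - c)) := by
    intro k _
    rw [← ee_add, ← ee_add]
    congr 1
    ring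
  rw [Finset.sum_congr rfl h2, ← Finset.mul_sum, h1]
  split_ifs
  · ring
  · simp

/-- The primes up to `N` in a residue class. -/
noncomputable def PC (q c N : ℕ) : Finset ℕ := (Icc 1 N).filter (fun n => n.Prime ∧ n ≡ c [MOD q])

theorem PC_tendsto (q c : ℕ) (hq : 1 ≤ q) (hc : c.Coprime q) :
    Tendsto (fun N : ℕ => ((PC q c N).card : ℝ) * Real.log N / (N : ℝ)) atTop
      (𝓝 (1 / (q.totient : ℝ))) := pi_ap q c hq hc

theorem PC_nonempty (q c : ℕ) (hq : 1 ≤ q) (hc : c.Coprime q) :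
    ∀ᶠ N in atTop, (PC q c N).Nonempty := by
  have h1 := PC_tendsto q c hq hc
  have h2 : (0 : ℝ) < 1 / (q.totient : ℝ) := by
    have := Nat.totient_pos.2 hq
    positivity
  filter_upwards [(tendsto_order.1 h1).1 _ h2] with N hN
  rw [← Finset.card_pos]
  by_contra h3
  have : (PC q c N).card = 0 := by omega
  rw [this] at hN
  simp at hN

theorem PC_weyl (q c : ℕ) (hq : 1 ≤ q) (hc : c.Coprime q) (β : ℝ) (hβ : Irrational β) (n : ℤ)
    (hn : n ≠ 0) :
    Tendsto (fun N => wavg (PC q c N) (fun p => β * p) (fourier n)) atTop (𝓝 0) := by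
  have h1 : ∀ k : ℕ, Irrational (n * β + (k : ℝ) / q) := by
    intro k
    have h2 : Irrational ((n : ℝ) * β) := hβ.intCast_mul hn
    have h3 : (k : ℝ) / q = ((k / q : ℚ) : ℝ) := by push_cast; ring
    rw [h3]
    exact h2.add_ratCast _
  have h2 : Tendsto (fun N : ℕ => ∑ k ∈ range q, ‖SP N (n * β + (k : ℝ) / q)‖ * Real.log N / (N : ℝ))
      atTop (𝓝 0) := by
    have := tendsto_finsetSum (range q) (fun k _ => SP_irr _ (h1 k))
    simpa using this
  have h3 := PC_tendsto q c hq hc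
  have h4 : (0 : ℝ) < 1 / (q.totient : ℝ) := by
    have := Nat.totient_pos.2 hq
    positivity
  have h5 := h2.div h3 h4.ne'
  rw [zero_div] at h5
  rw [tendsto_zero_iff_norm_tendsto_zero]
  refine squeeze_zero' (Eventually.of_forall fun N => norm_nonneg _) ?_ h5
  filter_upwards [PC_nonempty q c hq hc, eventually_ge_atTop 3] with N hN hN3
  have hNr : (3 : ℝ) ≤ N := by exact_mod_cast hN3
  have hNpos : (0 : ℝ) < N := by linarith
  have hlog : 0 < Real.log N := Real.log_pos (by linarith)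
  have hcard : (0 : ℝ) < ((PC q c N).card : ℝ) := by exact_mod_cast hN.card_pos
  have hqr : (1 : ℝ) ≤ q := by exact_mod_cast hq
  have h6 : ∑ p ∈ PC q c N, (fourier n) (((β * p : ℝ)) : UnitAddCircle) =
      ∑ p ∈ PC q c N, ee (p * (n * β)) := by
    refine Finset.sum_congr rfl fun p _ => ?_
    rw [fourier_coe_apply]
    unfold ee
    congr 1
    push_cast
    ring
  unfold wavg
  rw [norm_div, Complex.norm_natCast]
  show ‖∑ p ∈ PC q c N, (fourier n) (((β * p : ℝ)) : UnitAddCircle)‖ / _ ≤ _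
  rw [h6]
  have h7 := arc_class_sum q hq c N (n * β)
  have h8 : (q : ℝ) * ‖∑ p ∈ PC q c N, ee (p * (n * β))‖ ≤
      ∑ k ∈ range q, ‖SP N (n * β + (k : ℝ) / q)‖ := by
    have h9 : (q : ℝ) * ‖∑ p ∈ PC q c N, ee (p * (n * β))‖ =
        ‖(q : ℂ) * ∑ p ∈ PC q c N, ee (p * (n * β))‖ := by
      rw [norm_mul, Complex.norm_natCast]
    rw [h9]
    unfold PC
    rw [h7]
    refine (norm_sum_le _ _).trans (Finset.sum_le_sum fun k _ => ?_)
    rw [norm_mul, norm_ee, one_mul]
  have h9 : ‖∑ p ∈ PC q c N, ee (p * (n * β))‖ ≤ ∑ k ∈ range q, ‖SP N (n * β + (k : ℝ) / q)‖ := by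
    have := norm_nonneg (∑ p ∈ PC q c N, ee (p * (n * β)))
    nlinarith
  have h10 : (∑ k ∈ range q, ‖SP N (n * β + (k : ℝ) / q)‖ * Real.log N / (N : ℝ)) /
      (((PC q c N).card : ℝ) * Real.log N / (N : ℝ)) =
      (∑ k ∈ range q, ‖SP N (n * β + (k : ℝ) / q)‖) / ((PC q c N).card : ℝ) := by
    rw [← Finset.sum_div, ← Finset.sum_mul]
    field_simp
  show _ ≤ (∑ k ∈ range q, ‖SP N (n * β + (k : ℝ) / q)‖ * Real.log N / (N : ℝ)) /
      (((PC q c N).card : ℝ) * Real.log N / (N : ℝ))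
  rw [h10]
  exact div_le_div_of_nonneg_right h9 hcard.le

theorem arc_primesIn_eq (A : Set ℕ) (q a x : ℕ) [DecidablePred (· ∈ A)] :
    primesIn A q a x = ((PC q a x).filter (fun p => p ∈ A)).card := by
  unfold primesIn PC
  rw [← Set.ncard_coe_finset]
  congr 1
  ext p
  simp only [Set.mem_ofPred_eq, coe_filter, mem_filter, mem_Icc]
  constructor
  · rintro ⟨h1, h2, h3, h4⟩
    exact ⟨⟨⟨h2.one_le, h1⟩, h2, h4⟩, h3⟩
  · rintro ⟨⟨⟨_, h1⟩, h2, h4⟩, h3⟩
    exact ⟨h1, h2, h3, h4⟩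

/-- The primes `p` with `β p` modulo one in an arc, for irrational `β`. -/
theorem arc_density_irr (β : ℝ) (hβ : Irrational β) (a b : ℝ) (ha : 0 ≤ a) (hab : a ≤ b)
    (hb : b ≤ 1) :
    HasDensity {p : ℕ | a ≤ Int.fract (β * p) ∧ Int.fract (β * p) < b} (b - a) := by
  classical
  intro q c hq hc
  have h1 := arc (PC q c) (fun p => β * p) (PC_nonempty q c hq hc)
    (fun n hn => PC_weyl q c hq hc β hβ n hn) ha hab hb
  refine h1.congr fun N => ?_
  rw [arc_primesIn_eq, arc_primesIn_eq]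
  congr 2
  rw [Finset.filter_true_of_mem (fun p _ => Set.mem_univ p)]

theorem arc_density (a b : ℝ) (ha : 0 ≤ a) (hab : a ≤ b) (hb : b ≤ 1) :
    HasDensity {p : ℕ | a ≤ Int.fract (Real.sqrt 2 * p) ∧ Int.fract (Real.sqrt 2 * p) < b}
      (b - a) :=
  arc_density_irr _ irrational_sqrt_two a b ha hab hb

end Pool.Agent.Lib.MP_629a14_nt.Kp
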