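import Pool.Agent.Lib.MP_629a14_nt.Kp.Weyl
import Pool.Agent.Lib.MP_629a14_nt.Fourier

/-! Equidistribution of `β n` modulo one for the even numbers `n` and irrational `β`. -/

set_option autoImplicit false

namespace Pool.Agent.Lib.MP_629a14_nt.Kp

open Finset Filter Topology Pool.Agent.Lib.MP_629a14_nt

theorem even_filter_eq (N : ℕ) : (Icc 1 N).filter (fun n => Even n) =
    (Icc 1 (N / 2)).image (fun m => 2 * m) := by
  ext n
  simp only [mem_filter, mem_Icc, Finset.mem_image]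
  constructor
  · rintro ⟨⟨h1, h2⟩, m, rfl⟩
    exact ⟨m, ⟨by omega, by omega⟩, by omega⟩
  · rintro ⟨m, ⟨h1, h2⟩, rfl⟩
    exact ⟨⟨by omega, by omega⟩, m, by ring⟩

theorem even_card (N : ℕ) : ((Icc 1 N).filter (fun n => Even n)).card = N / 2 := by
  rw [even_filter_eq, card_image_of_injective _ (fun a b h => by simpa using h), Nat.card_Icc,
    Nat.add_sub_cancel]

theorem even_sum_le (β : ℝ) (hβ : Irrational β) (n : ℤ) (hn : n ≠ 0) : ∃ C : ℝ, ∀ N : ℕ,
    ‖∑ m ∈ (Icc 1 N).filter (fun n => Even n), ee (m * (n * β))‖ ≤ C := by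
  set ζ : ℂ := ee (2 * (n * β)) with hζ
  have hirr : Irrational (2 * (n * β)) := by
    have h1 : Irrational ((n : ℝ) * β) := hβ.intCast_mul hn
    exact_mod_cast h1.natCast_mul (by norm_num : (2 : ℕ) ≠ 0)
  have h1 : ζ ≠ 1 := by
    rw [hζ]
    intro h
    obtain ⟨k, hk⟩ := (ee_eq_one_iff _).1 h
    exact hirr.ne_int k hk
  refine ⟨2 / ‖ζ - 1‖, fun N => ?_⟩
  have h2 : ∑ m ∈ (Icc 1 N).filter (fun n => Even n), ee (m * (n * β)) =
      ∑ m ∈ range (N / 2), ζ ^ (m + 1) := by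
    rw [even_filter_eq, sum_image (fun a _ b _ h => by simpa using h)]
    have h3 : Icc 1 (N / 2) = (range (N / 2)).image (fun m => m + 1) := by
      ext k
      simp only [mem_Icc, Finset.mem_image, mem_range]
      constructor
      · rintro ⟨a, b⟩
        exact ⟨k - 1, by omega, by omega⟩
      · rintro ⟨a, b, rfl⟩
        omega
    rw [h3, sum_image (fun a _ b _ h => by simpa using h)]
    refine sum_congr rfl fun m _ => ?_
    rw [hζ, ← ee_nat_mul]
    congr 1
    push_cast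
    ring
  rw [h2]
  have h4 : ∑ m ∈ range (N / 2), ζ ^ (m + 1) = ζ * ((ζ ^ (N / 2) - 1) / (ζ - 1)) := by
    rw [← geom_sum_eq h1, mul_sum]
    exact sum_congr rfl fun m _ => by rw [pow_succ]; ring
  rw [h4, norm_mul, norm_div]
  have h5 : ‖ζ‖ = 1 := norm_ee _
  rw [h5, one_mul]
  refine div_le_div_of_nonneg_right ?_ (norm_nonneg _)
  refine (norm_sub_le _ _).trans ?_
  rw [norm_pow, h5]
  norm_num

theorem half_div (N : ℕ) (hN : 1 ≤ N) : |((N / 2 : ℕ) : ℝ) / N - 1 / 2| ≤ 1 / N := by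
  have hNr : (0 : ℝ) < N := by exact_mod_cast hN
  have h1 : (N : ℝ) - 1 ≤ 2 * ((N / 2 : ℕ) : ℝ) := by
    have : N ≤ 2 * (N / 2) + 1 := by omega
    have : (N : ℝ) ≤ 2 * ((N / 2 : ℕ) : ℝ) + 1 := by exact_mod_cast this
    linarith
  have h2 : 2 * ((N / 2 : ℕ) : ℝ) ≤ N := by
    have : 2 * (N / 2) ≤ N := by omega
    exact_mod_cast this
  have h3 : ((N / 2 : ℕ) : ℝ) / N - 1 / 2 = (2 * ((N / 2 : ℕ) : ℝ) - N) / (2 * N) := by
    field_simp
  rw [h3, abs_div, abs_of_pos (by positivity : (0 : ℝ) < 2 * N), div_le_div_iff₀ (by positivity)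
    hNr]
  have h4 : |2 * ((N / 2 : ℕ) : ℝ) - N| ≤ 1 := by
    rw [abs_le]
    constructor <;> linarith
  nlinarith

theorem half_tendsto : Tendsto (fun N : ℕ => ((N / 2 : ℕ) : ℝ) / N) atTop (𝓝 (1 / 2)) := by
  rw [tendsto_iff_dist_tendsto_zero]
  refine squeeze_zero' (Eventually.of_forall fun N => dist_nonneg) ?_
    (tendsto_one_div_atTop_nhds_zero_nat)
  filter_upwards [eventually_ge_atTop 1] with N hN
  rw [Real.dist_eq]
  exact half_div N hN

theorem even_weyl (β : ℝ) (hβ : Irrational β) (n : ℤ) (hn : n ≠ 0) :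
    Tendsto (fun N => wavg ((Icc 1 N).filter (fun n => Even n)) (fun p => β * p) (fourier n)) atTop
      (𝓝 0) := by
  obtain ⟨C, hC⟩ := even_sum_le β hβ n hn
  have hC0 : 0 ≤ C := (norm_nonneg _).trans (hC 0)
  have h1 : Tendsto (fun N : ℕ => (C * (1 / (N : ℝ))) / (((N / 2 : ℕ) : ℝ) / N)) atTop
      (𝓝 ((C * 0) / (1 / 2))) :=
    (tendsto_one_div_atTop_nhds_zero_nat.const_mul C).div half_tendsto (by norm_num)
  rw [mul_zero, zero_div] at h1
  rw [tendsto_zero_iff_norm_tendsto_zero]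
  refine squeeze_zero' (Eventually.of_forall fun N => norm_nonneg _) ?_ h1
  filter_upwards [eventually_ge_atTop 2] with N hN
  have hN2 : (0 : ℝ) < ((N / 2 : ℕ) : ℝ) := by
    have : 0 < N / 2 := by omega
    exact_mod_cast this
  have hNr : (0 : ℝ) < N := by
    have : 0 < N := by omega
    exact_mod_cast this
  unfold wavg
  rw [norm_div, Complex.norm_natCast, even_card]
  have h2 : ∑ p ∈ (Icc 1 N).filter (fun n => Even n), (fourier n) (((β * p : ℝ)) : UnitAddCircle) =
      ∑ p ∈ (Icc 1 N).filter (fun n => Even n), ee (p * (n * β)) := by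
    refine Finset.sum_congr rfl fun p _ => ?_
    rw [fourier_coe_apply]
    unfold ee
    congr 1
    push_cast
    ring
  rw [h2]
  have h3 : (C * (1 / (N : ℝ))) / (((N / 2 : ℕ) : ℝ) / N) = C / ((N / 2 : ℕ) : ℝ) := by
    field_simp
  rw [h3]
  exact div_le_div_of_nonneg_right (hC N) hN2.le

/-- The even numbers `n` with `β n` modulo one in an arc, for irrational `β`. -/
theorem even_arc (β : ℝ) (hβ : Irrational β) (a b : ℝ) (ha : 0 ≤ a) (hab : a ≤ b) (hb : b ≤ 1) :
    Tendsto (fun N : ℕ => (((Icc 1 N).filter (fun n : ℕ => Even n ∧ a ≤ Int.fract (β * n) ∧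
      Int.fract (β * n) < b)).card : ℝ) / N) atTop (𝓝 ((b - a) / 2)) := by
  have h0 : ∀ᶠ N : ℕ in atTop, ((Icc 1 N).filter (fun n => Even n)).Nonempty := by
    filter_upwards [eventually_ge_atTop 2] with N hN
    rw [← card_pos, even_card]
    omega
  have h1 := arc (fun N => (Icc 1 N).filter (fun n => Even n)) (fun p => β * p) h0
    (fun n hn => even_weyl β hβ n hn) ha hab hb
  have h2 := h1.mul half_tendsto
  rw [mul_one_div] at h2
  refine h2.congr' ?_
  filter_upwards [eventually_ge_atTop 2] with N hN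
  have hN2 : (0 : ℝ) < ((N / 2 : ℕ) : ℝ) := by
    have : 0 < N / 2 := by omega
    exact_mod_cast this
  rw [even_card, Finset.filter_filter]
  field_simp

end Pool.Agent.Lib.MP_629a14_nt.Kp
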