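import Pool.Agent.Lib.MP_629a14_nt.Kp.Ker

/-! The local model in a block, as an average of convolutions on a cyclic group. -/

set_option autoImplicit false

namespace Pool.Agent.Lib.MP_629a14_nt.Kp

open Finset Pool.Agent.Lib.MP_629a14_nt Pool.Agent.Lib.MP_629a14_nt.Rob

/-- Sums over consecutive blocks. -/
theorem sum_blocks (F : ℕ → ℝ) (s a : ℕ) : ∀ b : ℕ, a ≤ b →
    ∑ i ∈ Ico a b, ∑ x ∈ Ico (i * s) (i * s + s), F x = ∑ x ∈ Ico (a * s) (b * s), F x := by
  intro b hab
  induction b, hab using Nat.le_induction with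
  | base => simp
  | succ b hab ih =>
    rw [sum_Ico_succ_top hab, ih, sum_Ico_consecutive F (Nat.mul_le_mul_right s hab) (by omega)]
    congr 2
    ring

/-- The classes coprime to `W`. -/
def Uc (W R : ℕ) [NeZero R] : Finset (ZMod R) := univ.filter (fun b => b.val.Coprime W)

/-- The classes in `Uc` whose difference from `κ` is in `Uc`. -/
def Uk (W R : ℕ) [NeZero R] (κ : ZMod R) : Finset (ZMod R) :=
  (Uc W R).filter (fun b => κ - b ∈ Uc W R)

theorem cnt_eq (W R n : ℕ) [NeZero R] : cnt W R n = (Uk W R (n : ZMod R)).card := by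
  unfold cnt Uk Uc
  congr 1
  ext b
  simp [mem_filter]

section

variable (W R Q : ℕ) [NeZero R] [NeZero Q]

/-- The convolution in two blocks. -/
noncomputable def cvb (f g : ℕ → ℝ) (i j : ℕ) (k : ZMod (R * Q)) : ℝ :=
  ∑ y : ZMod (R * Q), f (i * (R * Q) + y.val) * g (j * (R * Q) + (k - y).val)

/-- The number of `y` such that `y` and `k - y` are coprime to `W`. -/
theorem card_pairs (k : ZMod (R * Q)) :
    ((univ.filter (fun y : ZMod (R * Q) => red R Q y ∈ Uk W R (red R Q k))).card : ℝ) =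
      (Uk W R (red R Q k)).card * Q := by
  classical
  have h1 := card_eq_sum_card_fiberwise (s := univ.filter
    (fun y : ZMod (R * Q) => red R Q y ∈ Uk W R (red R Q k))) (f := fun y => red R Q y)
    (t := Uk W R (red R Q k)) (fun y hy => by
      have := (mem_filter.1 (mem_coe.1 hy)).2
      exact mem_coe.2 this)
  rw [h1]
  have h2 : ∀ b ∈ Uk W R (red R Q k),
      ((univ.filter (fun y : ZMod (R * Q) => red R Q y ∈ Uk W R (red R Q k))).filter
        (fun y => red R Q y = b)).card = Q := by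
    intro b hb
    rw [filter_filter]
    refine Eq.trans ?_ (card_fibre R Q b)
    congr 1
    ext y
    simp only [mem_filter, mem_univ, true_and]
    constructor
    · exact fun h => h.2
    · exact fun h => ⟨by rw [h]; exact hb, h⟩
  rw [sum_congr rfl h2, sum_const, smul_eq_mul]
  push_cast
  ring

theorem mem_Uk_red {k y : ZMod (R * Q)} : red R Q y ∈ Uk W R (red R Q k) ↔
    (red R Q y).val.Coprime W ∧ (red R Q (k - y)).val.Coprime W := by
  unfold Uk Uc
  rw [mem_filter, mem_filter, mem_filter, map_sub]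
  simp

/-- One block of the convolution. -/
theorem block_ge {f g : ℕ → ℝ} {ε : ℝ} (hW : W ∣ R) (hε : 0 ≤ ε) (hε1 : ε ≤ 1)
    (hf0 : ∀ x, 0 ≤ f x) (hf1 : ∀ x, f x ≤ 1 + ε) (hfs : ∀ x, ¬ x.Coprime W → f x = 0)
    (hg0 : ∀ x, 0 ≤ g x) (hgs : ∀ x, ¬ x.Coprime W → g x = 0)
    (hper : ∀ x, |g (x + R * Q) - g x| ≤ ε) {i m k : ℕ} (him : i < m) (hk : k < R * Q) :
    cvb R Q f g i (m - i) (k : ZMod (R * Q)) -
        2 * ε * ((Uk W R (red R Q (k : ZMod (R * Q)))).card * Q) ≤
      ∑ x ∈ Ico (i * (R * Q)) (i * (R * Q) + R * Q), f x * g (m * (R * Q) + k - x) := by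
  rw [sum_block R Q (fun x => f x * g (m * (R * Q) + k - x)), ← card_pairs W R Q,
    card_eq_sum_ones, Nat.cast_sum, mul_sum]
  unfold cvb
  have e1 : ∑ y ∈ univ.filter (fun y : ZMod (R * Q) => red R Q y ∈
      Uk W R (red R Q (k : ZMod (R * Q)))), 2 * ε * ((1 : ℕ) : ℝ) =
      ∑ y : ZMod (R * Q), if red R Q y ∈ Uk W R (red R Q (k : ZMod (R * Q))) then 2 * ε else 0 := by
    rw [sum_filter]
    simp
  rw [e1, ← sum_sub_distrib]
  refine sum_le_sum fun y _ => ?_
  have hy : y.val < R * Q := ZMod.val_lt y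
  have hkv : ((k : ZMod (R * Q))).val = k := by rw [ZMod.val_natCast, Nat.mod_eq_of_lt hk]
  have hf0' := hf0 (i * (R * Q) + y.val)
  have hmi : m * (R * Q) = (m - i) * (R * Q) + i * (R * Q) := by
    rw [← add_mul, Nat.sub_add_cancel him.le]
  rcases le_or_gt y.val k with h | h
  · have h1 : ((k : ZMod (R * Q)) - y).val = k - y.val := by
      rw [ZMod.val_sub (by rw [hkv]; exact h), hkv]
    have h2 : m * (R * Q) + k - (i * (R * Q) + y.val) = (m - i) * (R * Q) + (k - y.val) := by
      omega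
    rw [h1, h2]
    have : (0 : ℝ) ≤ if red R Q y ∈ Uk W R (red R Q (k : ZMod (R * Q))) then 2 * ε else 0 := by
      split_ifs <;> linarith
    linarith
  · have h1 : ((k : ZMod (R * Q)) - y).val = R * Q + k - y.val := by
      have h3 : (k : ZMod (R * Q)) - y = ((R * Q + k - y.val : ℕ) : ZMod (R * Q)) := by
        rw [Nat.cast_sub (by omega), Nat.cast_add, ZMod.natCast_self, zero_add,
          ZMod.natCast_zmod_val]
      rw [h3, ZMod.val_natCast, Nat.mod_eq_of_lt (by omega)]
    have hm1 : (m - i) * (R * Q) = (m - i - 1) * (R * Q) + R * Q := by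
      obtain ⟨c, hc⟩ : ∃ c, m - i = c + 1 := ⟨m - i - 1, by omega⟩
      rw [hc, Nat.add_sub_cancel]
      ring
    have h2 : m * (R * Q) + k - (i * (R * Q) + y.val) =
        (m - i - 1) * (R * Q) + (R * Q + k - y.val) := by omega
    have h4 : (m - i) * (R * Q) + (R * Q + k - y.val) =
        (m - i - 1) * (R * Q) + (R * Q + k - y.val) + R * Q := by omega
    rw [h1, h2, h4]
    have h5 := (abs_le.1 (hper ((m - i - 1) * (R * Q) + (R * Q + k - y.val)))).2
    have hg0' := hg0 ((m - i - 1) * (R * Q) + (R * Q + k - y.val))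
    by_cases hu : red R Q y ∈ Uk W R (red R Q (k : ZMod (R * Q)))
    · rw [if_pos hu]
      have hf1' := hf1 (i * (R * Q) + y.val)
      nlinarith [mul_le_mul_of_nonneg_left h5 hf0', mul_le_mul_of_nonneg_right hf1' hε]
    · rw [if_neg hu, sub_zero]
      rw [mem_Uk_red, not_and_or] at hu
      rcases hu with hu | hu
      · rw [hfs (i * (R * Q) + y.val) (fun h => hu ((cop_iff R Q hW i y).1 h))]
        simp
      · rw [hgs ((m - i - 1) * (R * Q) + (R * Q + k - y.val) + R * Q) (fun h => hu (by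
          refine (cop_iff R Q hW (m - i) ((k : ZMod (R * Q)) - y)).1 ?_
          rw [h1, h4]
          exact h)), mul_zero]
        exact mul_nonneg hf0' hg0'

end

end Pool.Agent.Lib.MP_629a14_nt.Kp
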