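import Pool.Agent.Lib.MP_629a14_nt.Kp.Block

/-! Truncated sums of the local model over a block. -/

set_option autoImplicit false

namespace Pool.Agent.Lib.MP_629a14_nt.Kp

open Finset Pool.Agent.Lib.MP_629a14_nt Pool.Agent.Lib.MP_629a14_nt.Rob

theorem sig_pos' (v n : ℕ) : 0 < sig v n := by
  unfold sig
  refine mul_pos (div_pos ?_ ?_) (prod_pos fun p hp => ?_)
  · exact_mod_cast primorial_pos v
  · exact_mod_cast Nat.totient_pos.2 (primorial_pos v)
  · rw [mem_filter, mem_Icc] at hp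
    have : (3 : ℝ) ≤ p := by exact_mod_cast hp.1.1
    exact div_pos (by linarith) (by linarith)

theorem kap_pos' (v : ℕ) : 0 < En.kap v := by
  unfold En.kap
  refine div_pos ?_ ?_
  · exact_mod_cast primorial_pos v
  · exact_mod_cast Nat.totient_pos.2 (primorial_pos v)

section

variable (R Q : ℕ) [NeZero R] [NeZero Q]

theorem cvb_nonneg {f g : ℕ → ℝ} (hf0 : ∀ x, 0 ≤ f x) (hg0 : ∀ x, 0 ≤ g x) (i j : ℕ)
    (k : ZMod (R * Q)) : 0 ≤ cvb R Q f g i j k :=
  sum_nonneg fun y _ => mul_nonneg (hf0 _) (hg0 _)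

/-- The local model is at least an average of convolutions. -/
theorem model_ge {v N : ℕ} {α β ε : ℝ} {f g : ℕ → ℝ} (hv : 2 ≤ v) (hR : primorial v ∣ R)
    (hε : 0 ≤ ε) (hε1 : ε ≤ 1) (hf : Loc (primorial v) R Q N α ε f)
    (hg : Loc (primorial v) R Q N β ε g) {m k i₀ i₁ : ℕ} (hi : i₀ ≤ i₁) (hi1 : i₁ ≤ m)
    (hm : 1 ≤ m) (hk : k < R * Q) (hk2 : 2 ∣ m * (R * Q) + k) :
    ∑ i ∈ Ico i₀ i₁, 1 / ((m : ℝ) + 1) * (cvb R Q f g i (m - i) (k : ZMod (R * Q)) /
        ((Uk (primorial v) R (red R Q (k : ZMod (R * Q)))).card * Q)) - 2 * ε ≤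
      model v f g (m * (R * Q) + k) := by
  have hRQ : 0 < R * Q := Nat.pos_of_ne_zero (NeZero.ne _)
  have hR0 : (0 : ℝ) < R := by exact_mod_cast Nat.pos_of_ne_zero (NeZero.ne R)
  have hQ0 : (0 : ℝ) < Q := by exact_mod_cast Nat.pos_of_ne_zero (NeZero.ne Q)
  have hn0 : 0 < m * (R * Q) + k := by
    have := Nat.mul_le_mul_right (R * Q) hm
    omega
  have hn : (0 : ℝ) < ((m * (R * Q) + k : ℕ) : ℝ) := by exact_mod_cast hn0
  have hκ : ((m * (R * Q) + k : ℕ) : ZMod R) = red R Q (k : ZMod (R * Q)) := by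
    rw [red_natCast]
    push_cast
    simp
  have hcs := cnt_sig v R (m * (R * Q) + k) hv hR hk2
  rw [cnt_eq, hκ] at hcs
  obtain ⟨c, hc⟩ : ∃ c : ℝ, c = ((Uk (primorial v) R (red R Q (k : ZMod (R * Q)))).card : ℝ) :=
    ⟨_, rfl⟩
  rw [← hc] at hcs ⊢
  have hsig := sig_pos' v (m * (R * Q) + k)
  have hkap := kap_pos' v
  have hc0 : 0 < c := by
    have h1 : 0 < c * En.kap v ^ 2 := by rw [hcs]; positivity
    exact pos_of_mul_pos_left h1 (by positivity)
  have hcoef : En.kap v ^ 2 / (((m * (R * Q) + k : ℕ) : ℝ) * sig v (m * (R * Q) + k)) =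
      R / (((m * (R * Q) + k : ℕ) : ℝ) * c) := by
    rw [div_eq_div_iff (by positivity) (by positivity)]
    linear_combination ((m * (R * Q) + k : ℕ) : ℝ) * hcs
  have hS : ∑ i ∈ Ico i₀ i₁, (cvb R Q f g i (m - i) (k : ZMod (R * Q)) - 2 * ε * (c * Q)) ≤
      ∑ x ∈ range (m * (R * Q) + k + 1), f x * g (m * (R * Q) + k - x) := by
    calc ∑ i ∈ Ico i₀ i₁, (cvb R Q f g i (m - i) (k : ZMod (R * Q)) - 2 * ε * (c * Q))
        ≤ ∑ i ∈ Ico i₀ i₁, ∑ x ∈ Ico (i * (R * Q)) (i * (R * Q) + R * Q),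
            f x * g (m * (R * Q) + k - x) := by
          refine sum_le_sum fun i hi' => ?_
          rw [mem_Ico] at hi'
          rw [hc]
          exact block_ge (primorial v) R Q hR hε hε1 hf.nonneg hf.le hf.supp hg.nonneg hg.supp
            hg.per (by omega) hk
      _ = ∑ x ∈ Ico (i₀ * (R * Q)) (i₁ * (R * Q)), f x * g (m * (R * Q) + k - x) :=
          sum_blocks (fun x => f x * g (m * (R * Q) + k - x)) (R * Q) i₀ i₁ hi
      _ ≤ _ := by
          refine sum_le_sum_of_subset_of_nonneg ?_ fun x _ _ => mul_nonneg (hf.nonneg _) (hg.nonneg _)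
          intro x hx
          rw [mem_Ico] at hx
          rw [mem_range]
          have := Nat.mul_le_mul_right (R * Q) hi1
          omega
  unfold model
  rw [hcoef]
  have h1 := mul_le_mul_of_nonneg_left hS
    (show 0 ≤ (R : ℝ) / (((m * (R * Q) + k : ℕ) : ℝ) * c) by positivity)
  refine le_trans ?_ h1
  rw [mul_sum]
  have h2 : ∀ i ∈ Ico i₀ i₁, (R : ℝ) / (((m * (R * Q) + k : ℕ) : ℝ) * c) *
      (cvb R Q f g i (m - i) (k : ZMod (R * Q)) - 2 * ε * (c * Q)) =
      (R * Q : ℝ) / ((m * (R * Q) + k : ℕ) : ℝ) *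
        (cvb R Q f g i (m - i) (k : ZMod (R * Q)) / (c * Q)) -
      (R * Q : ℝ) / ((m * (R * Q) + k : ℕ) : ℝ) * (2 * ε) := by
    intro i _
    field_simp
  rw [sum_congr rfl h2, sum_sub_distrib, sum_const, nsmul_eq_mul, Nat.card_Ico]
  have h3 : ∑ i ∈ Ico i₀ i₁, 1 / ((m : ℝ) + 1) * (cvb R Q f g i (m - i) (k : ZMod (R * Q)) /
      (c * Q)) ≤ ∑ i ∈ Ico i₀ i₁, (R * Q : ℝ) / ((m * (R * Q) + k : ℕ) : ℝ) *
        (cvb R Q f g i (m - i) (k : ZMod (R * Q)) / (c * Q)) := by
    refine sum_le_sum fun i _ => mul_le_mul_of_nonneg_right ?_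
      (div_nonneg (cvb_nonneg R Q hf.nonneg hg.nonneg _ _ _) (by positivity))
    rw [div_le_div_iff₀ (by positivity) hn, one_mul]
    have h4 : ((m * (R * Q) + k : ℕ) : ℝ) ≤ ((m + 1) * (R * Q) : ℕ) := by
      exact_mod_cast (by nlinarith : m * (R * Q) + k ≤ (m + 1) * (R * Q))
    refine h4.trans (le_of_eq ?_)
    push_cast
    ring
  have h5 : ((i₁ - i₀ : ℕ) : ℝ) * ((R * Q : ℝ) / ((m * (R * Q) + k : ℕ) : ℝ) * (2 * ε)) ≤ 2 * ε := by
    have h6 : ((i₁ - i₀ : ℕ) : ℝ) * ((R * Q : ℝ) / ((m * (R * Q) + k : ℕ) : ℝ)) ≤ 1 := by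
      rw [← mul_div_assoc, div_le_one hn]
      have h7 : (i₁ - i₀) * (R * Q) ≤ m * (R * Q) + k :=
        (Nat.mul_le_mul_right _ (by omega : i₁ - i₀ ≤ m)).trans (Nat.le_add_right _ _)
      exact_mod_cast h7
    calc ((i₁ - i₀ : ℕ) : ℝ) * ((R * Q : ℝ) / ((m * (R * Q) + k : ℕ) : ℝ) * (2 * ε))
        = ((i₁ - i₀ : ℕ) : ℝ) * ((R * Q : ℝ) / ((m * (R * Q) + k : ℕ) : ℝ)) * (2 * ε) := by ring
      _ ≤ 1 * (2 * ε) := mul_le_mul_of_nonneg_right h6 (by linarith)
      _ = 2 * ε := one_mul _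
  linarith

theorem min_model_ge {v N : ℕ} {α β ε t : ℝ} {f g : ℕ → ℝ} (hv : 2 ≤ v) (hR : primorial v ∣ R)
    (hε : 0 ≤ ε) (hε1 : ε ≤ 1) (hf : Loc (primorial v) R Q N α ε f)
    (hg : Loc (primorial v) R Q N β ε g) (ht : 0 ≤ t) {m k i₀ i₁ : ℕ} (hi : i₀ ≤ i₁)
    (hi1 : i₁ ≤ m) (hm : 1 ≤ m) (hk : k < R * Q) (hk2 : 2 ∣ m * (R * Q) + k) :
    ∑ i ∈ Ico i₀ i₁, 1 / ((m : ℝ) + 1) * min (cvb R Q f g i (m - i) (k : ZMod (R * Q)) /
        ((Uk (primorial v) R (red R Q (k : ZMod (R * Q)))).card * Q)) t - 2 * ε ≤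
      min (model v f g (m * (R * Q) + k)) t := by
  have h1 := model_ge R Q hv hR hε hε1 hf hg hi hi1 hm hk hk2
  have h2 := min_avg (Ico i₀ i₁) (fun _ => 1 / ((m : ℝ) + 1))
    (fun i => cvb R Q f g i (m - i) (k : ZMod (R * Q)) /
        ((Uk (primorial v) R (red R Q (k : ZMod (R * Q)))).card * Q)) t ht
    (fun _ _ => by positivity) (by
      rw [sum_const, nsmul_eq_mul, Nat.card_Ico, mul_one_div, div_le_one (by positivity)]
      have : ((i₁ - i₀ : ℕ) : ℝ) ≤ m := by exact_mod_cast (by omega : i₁ - i₀ ≤ m)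
      linarith)
  refine le_min ?_ ?_
  · exact (sub_le_sub_right (h2.trans (min_le_left _ _)) _).trans h1
  · have h3 := h2.trans (min_le_right _ _)
    linarith

theorem card_evens (c : ℕ) : ((range (2 * c)).filter (fun n => Even n)).card = c := by
  induction c with
  | zero => simp
  | succ c ih =>
    have : 2 * (c + 1) = 2 * c + 1 + 1 := by ring
    rw [this, range_add_one, range_add_one, filter_insert, filter_insert, if_neg (by
      rw [Nat.even_add_one]
      simp), if_pos (by simp), card_insert_of_notMem (by simp), ih]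

/-- The even classes. -/
def Ev (R : ℕ) [NeZero R] : Finset (ZMod R) := univ.filter (fun b => Even b.val)

theorem card_Ev (hR : 2 ∣ R) : 2 * ((Ev R).card : ℝ) = R := by
  obtain ⟨c, hc⟩ := hR
  have h1 : (Ev R).card = ((range R).filter (fun n => Even n)).card := by
    refine card_bij (fun b _ => b.val) ?_ ?_ ?_
    · intro b hb
      unfold Ev at hb
      rw [mem_filter] at hb ⊢
      exact ⟨mem_range.2 (ZMod.val_lt b), hb.2⟩
    · intro b _ b' _ h
      exact ZMod.val_injective _ h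
    · intro n hn
      rw [mem_filter, mem_range] at hn
      refine ⟨(n : ZMod R), ?_, ?_⟩
      · unfold Ev
        rw [mem_filter, ZMod.val_natCast, Nat.mod_eq_of_lt hn.1]
        exact ⟨mem_univ _, hn.2⟩
      · rw [ZMod.val_natCast, Nat.mod_eq_of_lt hn.1]
  have h2 : 2 * (Ev R).card = R := by
    rw [h1, hc, card_evens]
  exact_mod_cast h2

theorem sum_even (hR : 2 ∣ R) (F : ZMod (R * Q) → ℝ) :
    ∑ y ∈ univ.filter (fun y : ZMod (R * Q) => Even y.val), F y =
      ∑ κ ∈ Ev R, ∑ y ∈ univ.filter (fun y : ZMod (R * Q) => red R Q y = κ), F y := by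
  classical
  have h1 : ∀ y : ZMod (R * Q), Even y.val ↔ red R Q y ∈ Ev R := by
    intro y
    unfold Ev
    rw [mem_filter, red_val]
    obtain ⟨c, hc⟩ := hR
    have h2 : Even (y.val % R) ↔ Even y.val := by
      rw [Nat.even_iff, Nat.even_iff, Nat.mod_mod_of_dvd _ ⟨c, hc⟩]
    simp [h2]
  rw [← sum_fiberwise_of_maps_to (s := univ.filter (fun y : ZMod (R * Q) => Even y.val))
    (t := Ev R) (g := fun y => red R Q y) (fun y hy => (h1 y).1 (mem_filter.1 hy).2)]
  refine sum_congr rfl fun κ hκ => ?_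
  refine sum_congr ?_ fun _ _ => rfl
  ext y
  simp only [mem_filter, mem_univ, true_and]
  constructor
  · exact fun h => h.2
  · exact fun h => ⟨(h1 y).2 (by rw [h]; exact hκ), h⟩

/-- The truncated sum over a block. -/
theorem block_sum {v N : ℕ} {α β ε t : ℝ} {f g : ℕ → ℝ} (hv : 2 ≤ v) (hvε : 1 / ε ≤ v)
    (hR : primorial v ∣ R) (hQ : ∀ p : ℕ, p.Prime → p ∣ Q → v < p)
    (hε : 0 < ε) (hε1 : ε ≤ 1) (hf : Loc (primorial v) R Q N α ε f)
    (hg : Loc (primorial v) R Q N β ε g) (hα1 : α ≤ 1) (hβ1 : β ≤ 1) (ht : 0 ≤ t)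
    (h1 : t ≤ α) (h2 : t ≤ β) {m i₀ i₁ : ℕ} (hi : i₀ ≤ i₁) (hi1 : i₁ ≤ m) (hm : 1 ≤ m)
    (hb0 : ∀ i ∈ Ico i₀ i₁, ε * N ≤ (i : ℝ) * (R * Q) ∧
      (i : ℝ) * (R * Q) + R * Q ≤ (1 - ε) * N)
    (hb1 : ∀ i ∈ Ico i₀ i₁, ε * N ≤ ((m : ℝ) - i) * (R * Q) ∧
      ((m : ℝ) - i) * (R * Q) + R * Q ≤ (1 - ε) * N) :
    (R * Q : ℝ) / 2 * (((i₁ : ℝ) - i₀) / (m + 1) * (t * min 1 (α + β - t) - 7 * ε) - 2 * ε) ≤
      ∑ n ∈ (Ico (m * (R * Q)) (m * (R * Q) + R * Q)).filter (fun n => Even n),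
        min (model v f g n) t := by
  classical
  have hR0 : (0 : ℝ) < R := by exact_mod_cast Nat.pos_of_ne_zero (NeZero.ne R)
  have hQ0 : (0 : ℝ) < Q := by exact_mod_cast Nat.pos_of_ne_zero (NeZero.ne Q)
  have hv0 : (0 : ℝ) < v := by
    have : (2 : ℝ) ≤ v := by exact_mod_cast hv
    linarith
  have h2R : 2 ∣ R := by
    refine dvd_trans ?_ hR
    rw [primorial]
    exact dvd_prod_of_mem _ (mem_filter.2 ⟨mem_range.2 (by omega), Nat.prime_two⟩)
  have h2s : ∀ m : ℕ, 2 ∣ m * (R * Q) := fun m => (h2R.mul_right Q).mul_left m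
  have hQv : (Q : ℝ) / v ≤ ε * Q := by
    rw [div_le_iff₀ hv0]
    rw [div_le_iff₀ hε] at hvε
    nlinarith
  -- one convolution
  have hconv : ∀ i ∈ Ico i₀ i₁, (R * Q : ℝ) / 2 * (t * min 1 (α + β - t) - 7 * ε) ≤
      ∑ k ∈ univ.filter (fun y : ZMod (R * Q) => Even y.val),
        min (cvb R Q f g i (m - i) k / ((Uk (primorial v) R (red R Q k)).card * Q)) t := by
    intro i hi'
    rw [sum_even R Q h2R]
    have him : i < m := by
      rw [mem_Ico] at hi'
      omega
    have hmi : ((m - i : ℕ) : ℝ) = (m : ℝ) - i := by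
      rw [Nat.cast_sub him.le]
    calc (R * Q : ℝ) / 2 * (t * min 1 (α + β - t) - 7 * ε)
        = ∑ _κ ∈ Ev R, ((Q : ℝ) * (t * min 1 (α + β - t) - 7 * ε)) := by
          rw [sum_const, nsmul_eq_mul, ← card_Ev R h2R]
          ring
      _ ≤ _ := by
          refine sum_le_sum fun κ hκ => ?_
          have hU : 0 < (Uk (primorial v) R κ).card := by
            have hcs := cnt_sig v R κ.val hv hR (by
              unfold Ev at hκ
              exact (mem_filter.1 hκ).2.two_dvd)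
            rw [cnt_eq, ZMod.natCast_zmod_val] at hcs
            have h3 : 0 < ((Uk (primorial v) R κ).card : ℝ) * En.kap v ^ 2 := by
              rw [hcs]
              exact mul_pos hR0 (sig_pos' _ _)
            have h4 := pos_of_mul_pos_left h3 (sq_nonneg _)
            exact_mod_cast h4
          have h3 := coset_trunc (red R Q) (red_surj R Q) (K := (Q : ℝ) / v) (by positivity)
            (fun S hS => ker_sub R Q (by omega) hQ S hS) (Q := (Q : ℝ))
            (by rw [card_ker]) (fun y => f (i * (R * Q) + y.val))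
            (fun y => g ((m - i) * (R * Q) + y.val)) (Uc (primorial v) R) (ε := ε) (α := α)
            (β := β) (t := t) hε.le (fun _ => hf.nonneg _) (fun _ => hf.le _)
            (fun _ => hg.nonneg _) (fun _ => hg.le _)
            (fun y hy => hf.supp _ fun h => hy (by
              unfold Uc
              rw [mem_filter]
              exact ⟨mem_univ _, (cop_iff R Q hR i y).1 h⟩))
            (fun y hy => hg.supp _ fun h => hy (by
              unfold Uc
              rw [mem_filter]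
              exact ⟨mem_univ _, (cop_iff R Q hR (m - i) y).1 h⟩))
            (fun b hb => by
              rw [sum_class R Q f i b]
              unfold Uc at hb
              refine hf.mean _ _ ?_ ?_ (mem_filter.1 hb).2
              · push_cast
                exact (hb0 i hi').1
              · push_cast
                exact (hb0 i hi').2)
            (fun b hb => by
              rw [sum_class R Q g (m - i) b]
              unfold Uc at hb
              refine hg.mean _ _ ?_ ?_ (mem_filter.1 hb).2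
              · rw [Nat.cast_mul, hmi]
                push_cast
                exact (hb1 i hi').1
              · rw [Nat.cast_mul, hmi]
                push_cast
                exact (hb1 i hi').2) hα1 hβ1 ht h1 h2 κ hU
          have h4 : (Q : ℝ) * (t * min 1 (α + β - t) - 7 * ε) ≤
              (Q : ℝ) * (t * min 1 (α + β - t) - 6 * ε) - (Q : ℝ) / v := by
            nlinarith
          refine (h4.trans h3).trans (le_of_eq ?_)
          refine sum_congr rfl fun k hk => ?_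
          rw [mem_filter] at hk
          rw [hk.2]
          rfl
  have hterm : ∀ k ∈ univ.filter (fun y : ZMod (R * Q) => Even y.val),
      ∑ i ∈ Ico i₀ i₁, 1 / ((m : ℝ) + 1) * min (cvb R Q f g i (m - i) k /
        ((Uk (primorial v) R (red R Q k)).card * Q)) t - 2 * ε ≤
      min (model v f g (m * (R * Q) + k.val)) t := by
    intro k hk
    have h3 := min_model_ge R Q hv hR hε.le hε1 hf hg ht hi hi1 hm (ZMod.val_lt k)
      (Nat.dvd_add (h2s m) (mem_filter.1 hk).2.two_dvd)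
    rw [ZMod.natCast_zmod_val] at h3
    exact h3
  have hblock : ∑ n ∈ (Ico (m * (R * Q)) (m * (R * Q) + R * Q)).filter (fun n => Even n),
        min (model v f g n) t =
      ∑ k ∈ univ.filter (fun y : ZMod (R * Q) => Even y.val),
        min (model v f g (m * (R * Q) + k.val)) t := by
    rw [sum_filter, sum_filter, sum_block R Q (fun n => if Even n then min (model v f g n) t else 0)]
    refine sum_congr rfl fun y _ => ?_
    have : Even (m * (R * Q) + y.val) ↔ Even y.val := by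
      rw [Nat.even_add]
      have := (h2s m).even
      tauto
    by_cases h : Even y.val
    · rw [if_pos h, if_pos (this.2 h)]
    · rw [if_neg h, if_neg fun h' => h (this.1 h')]
  have hcard : ((univ.filter (fun y : ZMod (R * Q) => Even y.val)).card : ℝ) = (R * Q : ℝ) / 2 := by
    have h3 := sum_even R Q h2R (fun _ => (1 : ℝ))
    simp only [sum_const, nsmul_eq_mul, mul_one] at h3
    rw [h3]
    have h4 : ∀ κ ∈ Ev R, ((univ.filter (fun y : ZMod (R * Q) => red R Q y = κ)).card : ℝ) = Q :=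
      fun κ _ => by exact_mod_cast card_fibre R Q κ
    rw [sum_congr rfl h4, sum_const, nsmul_eq_mul, ← card_Ev R h2R]
    ring
  rw [hblock]
  refine le_trans ?_ (sum_le_sum hterm)
  rw [sum_sub_distrib, sum_const, nsmul_eq_mul, hcard, sum_comm]
  have h5 : (R * Q : ℝ) / 2 * (((i₁ : ℝ) - i₀) / (m + 1) * (t * min 1 (α + β - t) - 7 * ε)) ≤
      ∑ i ∈ Ico i₀ i₁, ∑ k ∈ univ.filter (fun y : ZMod (R * Q) => Even y.val),
        1 / ((m : ℝ) + 1) * min (cvb R Q f g i (m - i) k /
          ((Uk (primorial v) R (red R Q k)).card * Q)) t := by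
    calc (R * Q : ℝ) / 2 * (((i₁ : ℝ) - i₀) / (m + 1) * (t * min 1 (α + β - t) - 7 * ε))
        = ∑ _i ∈ Ico i₀ i₁, 1 / ((m : ℝ) + 1) *
            ((R * Q : ℝ) / 2 * (t * min 1 (α + β - t) - 7 * ε)) := by
          rw [sum_const, nsmul_eq_mul, Nat.card_Ico, Nat.cast_sub hi]
          field_simp
      _ ≤ _ := by
          refine sum_le_sum fun i hi' => ?_
          rw [← mul_sum]
          exact mul_le_mul_of_nonneg_left (hconv i hi') (by positivity)
  linarith

end

end Pool.Agent.Lib.MP_629a14_nt.Kp
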