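import Pool.Agent.Lib.MP_629a14_nt.Kp.Defs
import Pool.Agent.Lib.MP_629a14_nt.Rob.NuNu

/-! The number of pairs of reduced classes with a given sum. -/

set_option autoImplicit false

namespace Pool.Agent.Lib.MP_629a14_nt.Kp

open Finset Pool.Agent.Lib.MP_629a14_nt Pool.Agent.Lib.MP_629a14_nt.Rob

/-- The number of classes `b` modulo `R` with `b` and `n - b` coprime to `W`. -/
noncomputable def cnt (W R n : ℕ) [NeZero R] : ℕ :=
  ((univ : Finset (ZMod R)).filter
    (fun b => b.val.Coprime W ∧ ((n : ZMod R) - b).val.Coprime W)).card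

private theorem cop_mod {W R : ℕ} (hR : W ∣ R) (x : ℕ) : (x % R).Coprime W ↔ x.Coprime W := by
  obtain ⟨k, rfl⟩ := hR
  constructor
  · intro h
    have h1 : (x % (W * k) % W).Coprime W := by
      unfold Nat.Coprime at *
      rw [← Nat.gcd_rec, Nat.gcd_comm]
      exact h
    rw [Nat.mod_mul_right_mod] at h1
    unfold Nat.Coprime at *
    rw [← Nat.gcd_rec, Nat.gcd_comm] at h1
    exact h1
  · intro h
    have h1 : (x % W).Coprime W := by
      unfold Nat.Coprime at *
      rw [← Nat.gcd_rec, Nat.gcd_comm]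
      exact h
    rw [← Nat.mod_mul_right_mod x W k] at h1
    unfold Nat.Coprime at *
    rw [← Nat.gcd_rec, Nat.gcd_comm] at h1
    exact h1

private def QQ (W R n : ℕ) (m : ℕ) : Prop :=
  m.Coprime W ∧ ((n : ZMod R) - (m : ZMod R)).val.Coprime W

private theorem QQ_period {W R : ℕ} [NeZero R] (hR : W ∣ R) (n m k : ℕ) :
    QQ W R n (k * R + m) ↔ QQ W R n m := by
  unfold QQ
  have h1 : ((k * R + m : ℕ) : ZMod R) = m := by
    push_cast
    simp
  rw [h1]
  have h2 : (k * R + m).Coprime W ↔ m.Coprime W := by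
    rw [← cop_mod hR (k * R + m), ← cop_mod hR m]
    rw [Nat.mul_add_mod']
  rw [h2]

open Classical in
private theorem count_QQ {W R : ℕ} [NeZero R] (hR : W ∣ R) (n j : ℕ) :
    Nat.count (QQ W R n) (j * R) = j * Nat.count (QQ W R n) R := by
  induction j with
  | zero => simp
  | succ j ih =>
    rw [Nat.succ_mul, Nat.count_add, ih, Nat.succ_mul]
    congr 2
    funext m
    exact propext (QQ_period hR n m j)

open Classical in
private theorem count_cnt {W R : ℕ} [NeZero R] (n : ℕ) :
    Nat.count (QQ W R n) R = cnt W R n := by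
  rw [Nat.count_eq_card_filter_range]
  unfold cnt
  refine Finset.card_bij (fun (m : ℕ) _ => ((m : ℕ) : ZMod R)) ?_ ?_ ?_
  · intro m hm
    rw [mem_filter, mem_range] at hm
    rw [mem_filter]
    refine ⟨mem_univ _, ?_, hm.2.2⟩
    rw [ZMod.val_natCast, Nat.mod_eq_of_lt hm.1]
    exact hm.2.1
  · intro a ha b hb hab
    rw [mem_filter, mem_range] at ha hb
    have := congrArg ZMod.val hab
    rwa [ZMod.val_natCast, ZMod.val_natCast, Nat.mod_eq_of_lt ha.1, Nat.mod_eq_of_lt hb.1] at this
  · intro b hb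
    rw [mem_filter] at hb
    refine ⟨b.val, ?_, ?_⟩
    · rw [mem_filter, mem_range]
      refine ⟨ZMod.val_lt b, hb.2.1, ?_⟩
      rw [ZMod.natCast_zmod_val]
      exact hb.2.2
    · exact ZMod.natCast_zmod_val b

open Classical in
private theorem sum_nunu {v R : ℕ} [NeZero R] (hv : 2 ≤ v) (hR : primorial v ∣ R) (n j : ℕ) :
    ∑ m ∈ Ico 1 (j * R + n), nu v m * nu v (j * R + n - m) =
      En.kap v ^ 2 * (Nat.count (QQ (primorial v) R n) (j * R + n) : ℝ) := by
  have hW2 : ¬ (0 : ℕ).Coprime (primorial v) := by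
    intro h
    rw [Nat.coprime_zero_left] at h
    have h2 : 2 ∣ primorial v := by
      unfold primorial
      apply Finset.dvd_prod_of_mem
      rw [mem_filter, mem_range]
      exact ⟨by omega, Nat.prime_two⟩
    rw [h] at h2
    omega
  rw [Nat.count_eq_card_filter_range]
  have h1 : (range (j * R + n)).filter (QQ (primorial v) R n) =
      (Ico 1 (j * R + n)).filter (QQ (primorial v) R n) := by
    ext m
    rw [mem_filter, mem_filter, mem_range, mem_Ico]
    constructor
    · rintro ⟨h2, h3⟩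
      refine ⟨⟨?_, h2⟩, h3⟩
      rcases Nat.eq_zero_or_pos m with h4 | h4
      · rw [h4] at h3
        exact absurd h3.1 hW2
      · exact h4
    · rintro ⟨⟨-, h2⟩, h3⟩
      exact ⟨h2, h3⟩
  rw [h1, Finset.card_filter]
  push_cast
  rw [Finset.mul_sum]
  refine Finset.sum_congr rfl fun m hm => ?_
  rw [mem_Ico] at hm
  have h2 : (j * R + n - m).Coprime (primorial v) ↔
      ((n : ZMod R) - (m : ZMod R)).val.Coprime (primorial v) := by
    have h3 : ((j * R + n - m : ℕ) : ZMod R) = (n : ZMod R) - m := by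
      rw [Nat.cast_sub hm.2.le]
      push_cast
      simp
    rw [← h3, ZMod.val_natCast, cop_mod hR]
  unfold nu En.kap QQ
  by_cases h3 : m.Coprime (primorial v)
  · by_cases h4 : (j * R + n - m).Coprime (primorial v)
    · rw [if_pos h3, if_pos h4, if_pos ⟨h3, h2.1 h4⟩]
      ring
    · have h5 : ¬ (m.Coprime (primorial v) ∧
          ((n : ZMod R) - (m : ZMod R)).val.Coprime (primorial v)) := fun h => h4 (h2.2 h.2)
      rw [if_neg h4, if_neg h5]
      ring
  · have h5 : ¬ (m.Coprime (primorial v) ∧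
        ((n : ZMod R) - (m : ZMod R)).val.Coprime (primorial v)) := fun h => h3 h.1
    rw [if_neg h3, if_neg h5]
    ring

private theorem sig_shift {v R : ℕ} (hR : primorial v ∣ R) (n j : ℕ) :
    sig v (j * R + n) = sig v n := by
  unfold sig
  congr 1
  apply Finset.prod_congr _ (fun _ _ => rfl)
  ext p
  rw [mem_filter, mem_filter, mem_Icc]
  constructor
  · rintro ⟨h1, h2, h3⟩
    refine ⟨h1, h2, fun h => h3 ?_⟩
    have h4 : p ∣ R := ((Finset.dvd_prod_of_mem _ (by
      rw [mem_filter, mem_range]; exact ⟨by omega, h2⟩)).trans hR)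
    exact (Nat.dvd_add_right (h4.mul_left j)).2 h
  · rintro ⟨h1, h2, h3⟩
    refine ⟨h1, h2, fun h => h3 ?_⟩
    have h4 : p ∣ R := ((Finset.dvd_prod_of_mem _ (by
      rw [mem_filter, mem_range]; exact ⟨by omega, h2⟩)).trans hR)
    exact (Nat.dvd_add_right (h4.mul_left j)).1 h

/-- Proof: for `n' = n + j R` (`sig v n' = sig v n`) the sum in `nunu` is
`kap v ^ 2 * #{1 ≤ m < n' : m and n' - m coprime to W}`, which is
`kap v ^ 2 * (cnt * n' / R + O(R))`; divide by `n'` and let `j → ∞`. -/
theorem cnt_sig (v R n : ℕ) [NeZero R] (hv : 2 ≤ v) (hR : primorial v ∣ R) (hn : 2 ∣ n) :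
    (cnt (primorial v) R n : ℝ) * En.kap v ^ 2 = R * sig v n := by
  classical
  obtain ⟨C, hC0, hC⟩ := nunu v hv
  set K : ℝ := En.kap v ^ 2 with hK
  have hK0 : 0 ≤ K := by positivity
  have h2R : 2 ∣ R := by
    refine dvd_trans ?_ hR
    unfold primorial
    apply Finset.dvd_prod_of_mem
    rw [mem_filter, mem_range]
    exact ⟨by omega, Nat.prime_two⟩
  have key : ∀ j : ℕ, (j : ℝ) * |(cnt (primorial v) R n : ℝ) * K - R * sig v n| ≤
      C + K * n + |(n : ℝ) * sig v n| := by
    intro j
    have h1 := hC (j * R + n) ((h2R.mul_left j).add hn)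
    rw [sum_nunu hv hR, sig_shift hR, Nat.count_add, count_QQ hR, count_cnt] at h1
    set e := Nat.count (fun k => QQ (primorial v) R n (j * R + k)) n with he
    have he1 : (e : ℝ) ≤ n := by
      exact_mod_cast (Nat.count_le (p := fun k => QQ (primorial v) R n (j * R + k)) (n := n))
    have he0 : (0 : ℝ) ≤ e := by positivity
    push_cast at h1
    rw [← hK] at h1
    have h2 : (j : ℝ) * ((cnt (primorial v) R n : ℝ) * K - R * sig v n) =
        (K * (j * (cnt (primorial v) R n : ℝ) + e) - (j * R + n) * sig v n) - K * e +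
          n * sig v n := by ring
    have h3 : (j : ℝ) * |(cnt (primorial v) R n : ℝ) * K - R * sig v n| =
        |(j : ℝ) * ((cnt (primorial v) R n : ℝ) * K - R * sig v n)| := by
      rw [abs_mul, abs_of_nonneg (by positivity : (0 : ℝ) ≤ (j : ℝ))]
    rw [h3, h2]
    calc _ ≤ |(K * (j * (cnt (primorial v) R n : ℝ) + e) - (j * R + n) * sig v n) - K * e| +
          |(n : ℝ) * sig v n| := abs_add_le _ _
      _ ≤ |(K * (j * (cnt (primorial v) R n : ℝ) + e) - (j * R + n) * sig v n)| + |K * e| +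
          |(n : ℝ) * sig v n| := by
          gcongr
          exact abs_sub _ _
      _ ≤ C + K * n + |(n : ℝ) * sig v n| := by
          rw [abs_of_nonneg (by positivity : (0 : ℝ) ≤ K * e)]
          gcongr
  by_contra hne
  have hpos : 0 < |(cnt (primorial v) R n : ℝ) * K - R * sig v n| :=
    abs_pos.2 (sub_ne_zero.2 hne)
  obtain ⟨j, hj⟩ := exists_nat_gt ((C + K * n + |(n : ℝ) * sig v n|) /
    |(cnt (primorial v) R n : ℝ) * K - R * sig v n|)
  rw [div_lt_iff₀ hpos] at hj
  exact absurd (key j) (not_le.2 hj)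

end Pool.Agent.Lib.MP_629a14_nt.Kp
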