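import Mathlib

/-! Convolutions of functions with values in `[0, 1]` on a finite abelian group. -/

set_option autoImplicit false

namespace Pool.Agent.Lib.MP_629a14_nt.Kp

open Finset

variable {G : Type} [AddCommGroup G] [Fintype G]

/-- Convolution. -/
noncomputable def cv (f g : G → ℝ) (x : G) : ℝ := ∑ y, f y * g (x - y)

/-- The sum of the values. -/
noncomputable def sm (f : G → ℝ) : ℝ := ∑ x, f x

/-- The part below `t` of a convolution. -/
noncomputable def tr (f g : G → ℝ) (t : ℝ) : ℝ := ∑ x, min (cv f g x) t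

/-- Translation. -/
def sh (e : G) (g : G → ℝ) (x : G) : ℝ := g (x - e)

theorem sm_sub_left (g : G → ℝ) (x : G) : ∑ y, g (x - y) = sm g := by
  unfold sm
  exact Fintype.sum_equiv (Equiv.subLeft x) _ _ (fun y => rfl)

theorem sm_sh (e : G) (g : G → ℝ) : sm (sh e g) = sm g := by
  unfold sm sh
  exact Fintype.sum_equiv (Equiv.subRight e) _ _ (fun y => rfl)

theorem cv_comm (f g : G → ℝ) (x : G) : cv f g x = cv g f x := by
  unfold cv
  refine Fintype.sum_equiv (Equiv.subLeft x) _ _ (fun y => ?_)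
  simp only [Equiv.subLeft_apply, sub_sub_cancel]
  ring

theorem cv_add_left (f f' g : G → ℝ) (x : G) :
    cv (fun y => f y + f' y) g x = cv f g x + cv f' g x := by
  unfold cv
  rw [← sum_add_distrib]
  exact sum_congr rfl fun y _ => by ring

theorem cv_add_right (f g g' : G → ℝ) (x : G) :
    cv f (fun y => g y + g' y) x = cv f g x + cv f g' x := by
  unfold cv
  rw [← sum_add_distrib]
  exact sum_congr rfl fun y _ => by ring

theorem cv_mul_left (c : ℝ) (f g : G → ℝ) (x : G) :
    cv (fun y => c * f y) g x = c * cv f g x := by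
  unfold cv
  rw [mul_sum]
  exact sum_congr rfl fun y _ => by ring

theorem cv_mul_right (c : ℝ) (f g : G → ℝ) (x : G) :
    cv f (fun y => c * g y) x = c * cv f g x := by
  unfold cv
  rw [mul_sum]
  exact sum_congr rfl fun y _ => by ring

theorem cv_const_left (c : ℝ) (g : G → ℝ) (x : G) : cv (fun _ => c) g x = c * sm g := by
  unfold cv
  rw [← mul_sum, sm_sub_left]

theorem cv_mono {f f' g g' : G → ℝ} (hf : ∀ x, 0 ≤ f' x) (hg : ∀ x, 0 ≤ g x)
    (h1 : ∀ x, f x ≤ f' x) (h2 : ∀ x, g x ≤ g' x) (x : G) : cv f g x ≤ cv f' g' x := by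
  unfold cv
  exact sum_le_sum fun y _ => mul_le_mul (h1 y) (h2 _) (hg _) (hf _)

theorem cv_nonneg {f g : G → ℝ} (hf : ∀ x, 0 ≤ f x) (hg : ∀ x, 0 ≤ g x) (x : G) :
    0 ≤ cv f g x := by
  unfold cv
  exact sum_nonneg fun y _ => mul_nonneg (hf y) (hg _)

theorem cv_le_sm_left {f g : G → ℝ} (hf : ∀ x, 0 ≤ f x) (hg : ∀ x, g x ≤ 1) (x : G) :
    cv f g x ≤ sm f := by
  unfold cv sm
  refine sum_le_sum fun y _ => ?_
  calc f y * g (x - y) ≤ f y * 1 := mul_le_mul_of_nonneg_left (hg _) (hf y)
    _ = f y := mul_one _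

theorem cv_le_sm_right {f g : G → ℝ} (hf : ∀ x, f x ≤ 1) (hg : ∀ x, 0 ≤ g x) (x : G) :
    cv f g x ≤ sm g := by
  rw [cv_comm]
  exact cv_le_sm_left hg hf x

theorem sum_cv (f g : G → ℝ) : ∑ x, cv f g x = sm f * sm g := by
  unfold cv
  rw [sum_comm]
  unfold sm
  rw [sum_mul]
  refine sum_congr rfl fun y _ => ?_
  rw [← mul_sum]
  congr 1
  exact Fintype.sum_equiv (Equiv.subRight y) _ _ (fun y => rfl)

theorem cv_sh (e : G) (f g : G → ℝ) (x : G) : cv f (sh e g) x = cv f g (x - e) := by
  unfold cv sh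
  refine sum_congr rfl fun y _ => ?_
  congr 2
  abel

theorem tr_sh (e : G) (f g : G → ℝ) (t : ℝ) : tr f (sh e g) t = tr f g t := by
  unfold tr
  simp_rw [cv_sh]
  exact Fintype.sum_equiv (Equiv.subRight e) _ _ (fun y => rfl)

theorem tr_comm (f g : G → ℝ) (t : ℝ) : tr f g t = tr g f t := by
  unfold tr
  simp_rw [cv_comm f g]

theorem tr_mono {f f' g g' : G → ℝ} (hf : ∀ x, 0 ≤ f' x) (hg : ∀ x, 0 ≤ g x)
    (h1 : ∀ x, f x ≤ f' x) (h2 : ∀ x, g x ≤ g' x) (t : ℝ) : tr f g t ≤ tr f' g' t := by
  unfold tr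
  exact sum_le_sum fun x _ => min_le_min (cv_mono hf hg h1 h2 x) le_rfl

/-- Splitting off the common part. -/
theorem cv_split (f h : G → ℝ) (x : G) :
    cv f h x = cv (fun y => min (f y) (h y)) (fun y => max (f y) (h y)) x +
      cv (fun y => f y - min (f y) (h y)) (fun y => h y - min (f y) (h y)) x := by
  set I : G → ℝ := fun y => min (f y) (h y) with hI
  set f1 : G → ℝ := fun y => f y - I y with hf1
  set h1 : G → ℝ := fun y => h y - I y with hh1
  have e1 : f = fun y => I y + f1 y := by
    funext y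
    simp [hf1]
  have e2 : h = fun y => I y + h1 y := by
    funext y
    simp [hh1]
  have e3 : (fun y => max (f y) (h y)) = fun y => I y + (f1 y + h1 y) := by
    funext y
    have := min_add_max (f y) (h y)
    simp only [hf1, hh1, hI]
    linarith
  rw [e3]
  have e4 : cv f h x = cv (fun y => I y + f1 y) (fun y => I y + h1 y) x := by
    rw [← e1, ← e2]
  rw [e4, cv_add_left, cv_add_right, cv_add_right, cv_add_right, cv_add_right,
    cv_comm f1 I]
  ring

/-- The transform does not increase the convolution. -/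
theorem cv_trans_le (f h : G → ℝ) (x : G) :
    cv (fun y => max (f y) (h y)) (fun y => min (f y) (h y)) x ≤ cv f h x := by
  have h1 : ∀ F H : G → ℝ, 2 * cv F H x = ∑ y, (F y * H (x - y) + F (x - y) * H y) := by
    intro F H
    rw [sum_add_distrib, two_mul]
    congr 1
    rw [cv_comm]
    unfold cv
    exact sum_congr rfl fun y _ => by ring
  have h2 := h1 (fun y => max (f y) (h y)) (fun y => min (f y) (h y))
  have h3 := h1 f h
  have h4 : ∑ y, (max (f y) (h y) * min (f (x - y)) (h (x - y)) +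
      max (f (x - y)) (h (x - y)) * min (f y) (h y)) ≤
      ∑ y, (f y * h (x - y) + f (x - y) * h y) := by
    refine sum_le_sum fun y _ => ?_
    generalize f y = p
    generalize h y = q
    generalize f (x - y) = r
    generalize h (x - y) = s
    rcases le_total p q with hpq | hpq <;> rcases le_total r s with hrs | hrs
    · rw [max_eq_right hpq, min_eq_left hrs, max_eq_right hrs, min_eq_left hpq]
      linarith
    · rw [max_eq_right hpq, min_eq_right hrs, max_eq_left hrs, min_eq_left hpq]
      nlinarith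
    · rw [max_eq_left hpq, min_eq_left hrs, max_eq_right hrs, min_eq_right hpq]
      nlinarith
    · rw [max_eq_left hpq, min_eq_right hrs, max_eq_left hrs, min_eq_right hpq]
  linarith

end Pool.Agent.Lib.MP_629a14_nt.Kp
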