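import Pool.Agent.Lib.MP_629a14_nt.Kp.Trunc

/-! Consequences of the lower bound for the truncated means. -/

set_option autoImplicit false

namespace Pool.Agent.Lib.MP_629a14_nt.Kp

open Finset Filter Topology Pool.Agent.Lib.MP_629a14_nt Pool.Agent.Lib.MP_629a14_nt.Rob

private theorem cor_card (N : ℕ) :
    ((((Icc 1 N).filter (fun n => Even n)).card : ℕ) : ℝ) ≤ N / 2 := by
  have h : ((Icc 1 N).filter (fun n => Even n)).card ≤ N / 2 := by
    have : ((Icc 1 N).filter (fun n => Even n)).card ≤ (Icc 1 (N / 2)).card := by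
      apply Finset.card_le_card_of_injOn (fun n => n / 2)
      · intro n hn
        rw [Finset.coe_filter] at hn
        obtain ⟨k, hk⟩ := hn.2
        have := Finset.mem_Icc.1 hn.1
        rw [Finset.coe_Icc, Set.mem_Icc]
        simp only
        omega
      · intro x hx y hy hxy
        rw [Finset.coe_filter] at hx hy
        obtain ⟨k, hk⟩ := hx.2
        obtain ⟨l, hl⟩ := hy.2
        simp only at hxy
        omega
    simpa using this
  exact le_trans (by exact_mod_cast h) Nat.cast_div_le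

open Classical in
/-- If `α + β > 1` then almost all even `n` have `rho n ≥ α + β - 1 - ε`. -/
theorem almost_all {A B : Set ℕ} {α β : ℝ} (hα1 : α ≤ 1) (hβ1 : β ≤ 1) (hA : HasDensity A α)
    (hB : HasDensity B β) (hαβ : 1 ≤ α + β) {ε : ℝ} (hε : 0 < ε) : ∃ N₀ : ℕ, ∀ N : ℕ, N₀ ≤ N →
      (((Icc 1 N).filter (fun n => Even n ∧ rho A B n < α + β - 1 - ε)).card : ℝ) ≤ ε * N := by
  set t : ℝ := α + β - 1 with ht
  have ht0 : 0 ≤ t := by linarith
  obtain ⟨N₀, hN₀⟩ := trunc_low hα1 hβ1 hA hB ht0 (by linarith) (by linarith) (ε ^ 2)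
    (by positivity)
  refine ⟨max N₀ 1, fun N hN => ?_⟩
  have hN1 : 1 ≤ N := le_trans (le_max_right _ _) hN
  have hN' : (0 : ℝ) < N := by exact_mod_cast hN1
  have h1 := hN₀ N (le_trans (le_max_left _ _) hN)
  have h2 : min 1 (α + β - t) = 1 := by
    rw [ht]; rw [min_eq_left]; linarith
  rw [h2, mul_one] at h1
  unfold avg at h1
  set E := (Icc 1 N).filter (fun n => Even n) with hE
  have h3 : (Icc 1 N).filter (fun n => Even n ∧ rho A B n < t - ε) =
      E.filter (fun n => rho A B n < t - ε) := by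
    rw [hE, Finset.filter_filter]
  rw [h3]
  have h4 : ∑ n ∈ E, min (rho A B n) t ≤
      E.card * t - (E.filter (fun n => rho A B n < t - ε)).card * ε := by
    have h5 : ∀ n ∈ E, min (rho A B n) t ≤ t - (if rho A B n < t - ε then ε else 0) := by
      intro n _
      split_ifs with h6
      · exact (min_le_left _ _).trans h6.le
      · rw [sub_zero]; exact min_le_right _ _
    refine (Finset.sum_le_sum h5).trans (le_of_eq ?_)
    rw [Finset.sum_sub_distrib, Finset.sum_const, nsmul_eq_mul, ← Finset.sum_filter,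
      Finset.sum_const, nsmul_eq_mul]
  have h5 := cor_card N
  rw [← hE] at h5
  have h6 : t - ε ^ 2 ≤ 2 / (N : ℝ) *
      (E.card * t - (E.filter (fun n => rho A B n < t - ε)).card * ε) :=
    h1.trans (mul_le_mul_of_nonneg_left h4 (by positivity))
  rw [div_mul_eq_mul_div, le_div_iff₀ hN'] at h6
  have h7 : (E.card : ℝ) * t ≤ N / 2 * t := mul_le_mul_of_nonneg_right h5 ht0
  have h8 : 2 * ((E.filter (fun n => rho A B n < t - ε)).card : ℝ) * ε ≤ ε ^ 2 * N := by
    nlinarith
  have h9 : ε * (2 * ((E.filter (fun n => rho A B n < t - ε)).card : ℝ)) ≤ ε * (ε * N) := by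
    nlinarith
  have h10 := le_of_mul_le_mul_left h9 hε
  have h11 : (0 : ℝ) ≤ ((E.filter (fun n => rho A B n < t - ε)).card : ℝ) := by positivity
  linarith

open Classical in
/-- A proportion at least `min 1 (α + β) - ε` of the even numbers have `rho n ≥ c`, where `c > 0`
depends only on `α, β, ε`. -/
theorem many_sums {α β : ℝ} (hα0 : 0 < α) (hα1 : α ≤ 1) (hβ0 : 0 < β) (hβ1 : β ≤ 1) {ε : ℝ}
    (hε : 0 < ε) : ∃ c : ℝ, 0 < c ∧ ∀ A B : Set ℕ, HasDensity A α → HasDensity B β →
      ∃ N₀ : ℕ, ∀ N : ℕ, N₀ ≤ N → (min 1 (α + β) - ε) * (N / 2) ≤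
        (((Icc 1 N).filter (fun n => Even n ∧ c ≤ rho A B n)).card : ℝ) := by
  set t : ℝ := min (ε / 3) (min α β) with ht
  have ht0 : 0 < t := lt_min (by positivity) (lt_min hα0 hβ0)
  have ht1 : t ≤ ε / 3 := min_le_left _ _
  have ht2 : t ≤ α := (min_le_right _ _).trans (min_le_left _ _)
  have ht3 : t ≤ β := (min_le_right _ _).trans (min_le_right _ _)
  refine ⟨ε / 3 * t, by positivity, fun A B hA hB => ?_⟩
  obtain ⟨N₀, hN₀⟩ := trunc_low hα1 hβ1 hA hB ht0.le ht2 ht3 (ε / 3 * t) (by positivity)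
  refine ⟨max N₀ 1, fun N hN => ?_⟩
  have hN1 : 1 ≤ N := le_trans (le_max_right _ _) hN
  have hN' : (0 : ℝ) < N := by exact_mod_cast hN1
  have h1 := hN₀ N (le_trans (le_max_left _ _) hN)
  unfold avg at h1
  set E := (Icc 1 N).filter (fun n => Even n) with hE
  have h3 : (Icc 1 N).filter (fun n => Even n ∧ ε / 3 * t ≤ rho A B n) =
      E.filter (fun n => ε / 3 * t ≤ rho A B n) := by
    rw [hE, Finset.filter_filter]
  rw [h3]
  set F : ℝ := ((E.filter (fun n => ε / 3 * t ≤ rho A B n)).card : ℝ) with hF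
  have h4 : ∑ n ∈ E, min (rho A B n) t ≤ F * t + E.card * (ε / 3 * t) := by
    have h5 : ∀ n ∈ E, min (rho A B n) t ≤
        (if ε / 3 * t ≤ rho A B n then t else 0) + ε / 3 * t := by
      intro n _
      split_ifs with h6
      · have : 0 ≤ ε / 3 * t := by positivity
        linarith [min_le_right (rho A B n) t]
      · rw [zero_add]; exact (min_le_left _ _).trans (not_le.1 h6).le
    refine (Finset.sum_le_sum h5).trans (le_of_eq ?_)
    rw [Finset.sum_add_distrib, Finset.sum_const, nsmul_eq_mul, ← Finset.sum_filter,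
      Finset.sum_const, nsmul_eq_mul]
  have h5 := cor_card N
  rw [← hE] at h5
  have h6 : t * min 1 (α + β - t) - ε / 3 * t ≤
      2 / (N : ℝ) * (F * t + E.card * (ε / 3 * t)) :=
    h1.trans (mul_le_mul_of_nonneg_left h4 (by positivity))
  have h6' : 2 / (N : ℝ) * (F * t + E.card * (ε / 3 * t)) =
      (2 * (F * t + E.card * (ε / 3 * t))) / N := by ring
  rw [h6', le_div_iff₀ hN'] at h6
  have h7 : (E.card : ℝ) * (ε / 3 * t) ≤ N / 2 * (ε / 3 * t) :=
    mul_le_mul_of_nonneg_right h5 (by positivity)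
  have h8 : min 1 (α + β) - ε / 3 ≤ min 1 (α + β - t) := by
    rw [le_min_iff]
    constructor
    · linarith [min_le_left (1 : ℝ) (α + β)]
    · linarith [min_le_right (1 : ℝ) (α + β)]
  have h9 : t * ((min 1 (α + β) - ε) * N) ≤ t * (2 * F) := by
    have h10 : t * (min 1 (α + β) - ε / 3) * N ≤ t * min 1 (α + β - t) * N := by
      gcongr
    nlinarith
  have h10 := le_of_mul_le_mul_left h9 ht0
  linarith

end Pool.Agent.Lib.MP_629a14_nt.Kp
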