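import Pool.Agent.Lib.MP_629a14_nt.Kp.Pollard2

/-! Pollard's theorem for functions on a finite abelian group, class by class modulo a subgroup
without large proper subgroups. -/

set_option autoImplicit false

namespace Pool.Agent.Lib.MP_629a14_nt.Kp

open Finset

/-- A sum over a fibre is a sum over the kernel. -/
theorem fibre_sum {Γ C : Type} [AddCommGroup Γ] [Fintype Γ] [AddCommGroup C] [DecidableEq C]
    (π : Γ →+ C) [Fintype π.ker] (b0 : Γ) (F : Γ → ℝ) :
    ∑ y ∈ univ.filter (fun y => π y = π b0), F y = ∑ h : π.ker, F (b0 + h) := by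
  refine (sum_bij (fun (h : π.ker) _ => b0 + (h : Γ)) ?_ ?_ ?_ ?_).symm
  · intro h _
    rw [mem_filter]
    refine ⟨mem_univ _, ?_⟩
    have := h.2
    rw [AddMonoidHom.mem_ker] at this
    rw [map_add, this, add_zero]
  · intro h _ h' _ hh
    exact Subtype.ext (add_left_cancel hh)
  · intro y hy
    rw [mem_filter] at hy
    refine ⟨⟨y - b0, ?_⟩, mem_univ _, ?_⟩
    · rw [AddMonoidHom.mem_ker, map_sub, hy.2, sub_self]
    · simp
  · intro h _
    rfl

/-- A full sum is the sum over the fibres. -/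
theorem sum_fibres {Γ C : Type} [Fintype Γ] [Fintype C] [DecidableEq C]
    (π : Γ → C) (F : Γ → ℝ) :
    ∑ y, F y = ∑ b, ∑ y ∈ univ.filter (fun y => π y = b), F y := by
  rw [sum_fiberwise]

theorem min_avg {ι : Type} (s : Finset ι) (w z : ι → ℝ) (t : ℝ) (ht : 0 ≤ t)
    (hw : ∀ i ∈ s, 0 ≤ w i) (hw1 : ∑ i ∈ s, w i ≤ 1) :
    ∑ i ∈ s, w i * min (z i) t ≤ min (∑ i ∈ s, w i * z i) t := by
  refine le_min (sum_le_sum fun i hi => mul_le_mul_of_nonneg_left (min_le_left _ _) (hw i hi)) ?_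
  calc ∑ i ∈ s, w i * min (z i) t ≤ ∑ i ∈ s, w i * t :=
        sum_le_sum fun i hi => mul_le_mul_of_nonneg_left (min_le_right _ _) (hw i hi)
    _ = (∑ i ∈ s, w i) * t := by rw [sum_mul]
    _ ≤ 1 * t := mul_le_mul_of_nonneg_right hw1 ht
    _ = t := one_mul t

/-- The numerical inequality. -/
theorem num_ineq {t t' m α β ε : ℝ} (hε : 0 ≤ ε) (hα1 : α ≤ 1) (hβ1 : β ≤ 1) (ht : 0 ≤ t)
    (h1 : t ≤ α) (h2 : t ≤ β) (ht' : t' = max 0 (t - 2 * ε))
    (hm : min 1 (α + β - t) - 4 * ε ≤ m) :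
    t * min 1 (α + β - t) - 6 * ε ≤ t' * m := by
  set m0 : ℝ := min 1 (α + β - t) with hm0
  have hm1 : m0 ≤ 1 := min_le_left _ _
  have hm2 : 0 ≤ m0 := le_min zero_le_one (by linarith)
  have ht1 : t ≤ 1 := h1.trans hα1
  have ha : 0 ≤ t' := by rw [ht']; exact le_max_left _ _
  have hb : t - 2 * ε ≤ t' := by rw [ht']; exact le_max_right _ _
  have hc : t' ≤ t := by rw [ht']; exact max_le ht (by linarith)
  have h3 : t' * (m0 - 4 * ε) ≤ t' * m := mul_le_mul_of_nonneg_left hm ha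
  have h4 : (t - 2 * ε) * m0 ≤ t' * m0 := mul_le_mul_of_nonneg_right hb hm2
  have h5 : t' * ε ≤ 1 * ε := mul_le_mul_of_nonneg_right (hc.trans ht1) hε
  have h6 : ε * m0 ≤ ε * 1 := mul_le_mul_of_nonneg_left hm1 hε
  nlinarith

/-- One pair of classes. -/
theorem class_trunc {H : Type} [AddCommGroup H] [Fintype H] {K : ℝ} (hK0 : 0 ≤ K)
    (hK : ∀ S : AddSubgroup H, S ≠ ⊤ → (Nat.card S : ℝ) ≤ K) {Q : ℝ}
    (hQ : Q = (Fintype.card H : ℝ)) (f g : H → ℝ) {ε α β t : ℝ} (hε : 0 ≤ ε)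
    (hf0 : ∀ x, 0 ≤ f x) (hf1 : ∀ x, f x ≤ 1 + ε) (hg0 : ∀ x, 0 ≤ g x) (hg1 : ∀ x, g x ≤ 1 + ε)
    (hfm : |∑ x, f x - α * Q| ≤ ε * Q) (hgm : |∑ x, g x - β * Q| ≤ ε * Q)
    (hα1 : α ≤ 1) (hβ1 : β ≤ 1) (ht : 0 ≤ t) (h1 : t ≤ α) (h2 : t ≤ β) :
    Q * (t * min 1 (α + β - t) - 6 * ε) - K ≤ ∑ x, min ((∑ y, f y * g (x - y)) / Q) t := by
  have hQ0 : 0 < Q := by
    rw [hQ]
    exact_mod_cast Fintype.card_pos
  have he : (0 : ℝ) < 1 + ε := by linarith
  obtain ⟨t', ht'⟩ : ∃ t' : ℝ, t' = max 0 (t - 2 * ε) := ⟨_, rfl⟩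
  have ha : 0 ≤ t' := by rw [ht']; exact le_max_left _ _
  have hc : t' ≤ t := by rw [ht']; exact max_le ht (by linarith)
  set F : H → ℝ := fun x => f x / (1 + ε) with hF
  set G : H → ℝ := fun x => g x / (1 + ε) with hG
  have hsum : ∀ (u : H → ℝ) (a : ℝ), |∑ x, u x - a * Q| ≤ ε * Q → a ≤ 1 →
      (a - 2 * ε) * Q ≤ ∑ x, u x / (1 + ε) := by
    intro u a h ha1
    rw [← sum_div, le_div_iff₀ he]
    have h3 := (abs_le.1 h).1
    have h4 : (a - 2 * ε) * (1 + ε) ≤ a - ε := by nlinarith [sq_nonneg ε]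
    have h5 : (a - 2 * ε) * (1 + ε) * Q ≤ (a - ε) * Q := mul_le_mul_of_nonneg_right h4 hQ0.le
    nlinarith
  have hF1 := hsum f α hfm hα1
  have hG1 := hsum g β hgm hβ1
  have hF0 : (∀ x, 0 ≤ F x) ∧ ∀ x, F x ≤ 1 :=
    ⟨fun x => div_nonneg (hf0 x) he.le, fun x => by
      simp only [hF]
      rw [div_le_one he]
      exact hf1 x⟩
  have hG0 : (∀ x, 0 ≤ G x) ∧ ∀ x, G x ≤ 1 :=
    ⟨fun x => div_nonneg (hg0 x) he.le, fun x => by
      simp only [hG]
      rw [div_le_one he]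
      exact hg1 x⟩
  have hle : ∀ a : ℝ, t ≤ a → ∀ u : H → ℝ, (∀ x, 0 ≤ u x) → (a - 2 * ε) * Q ≤ ∑ x, u x →
      t' * Q ≤ ∑ x, u x := by
    intro a hta u hu h
    rw [ht']
    rcases le_total 0 (t - 2 * ε) with h0 | h0
    · rw [max_eq_right h0]
      refine le_trans ?_ h
      exact mul_le_mul_of_nonneg_right (by linarith) hQ0.le
    · rw [max_eq_left h0, zero_mul]
      exact sum_nonneg fun x _ => hu x
  have hP := pollard K hK0 hK hF0 hG0 (mul_nonneg ha hQ0.le)
    (hle α h1 F hF0.1 hF1) (hle β h2 G hG0.1 hG1)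
  rw [← hQ] at hP
  -- compare
  have hm : (min 1 (α + β - t) - 4 * ε) * Q ≤ min Q (∑ x, F x + ∑ x, G x - t' * Q) := by
    refine le_min ?_ ?_
    · have h3 : min 1 (α + β - t) ≤ 1 := min_le_left _ _
      calc (min 1 (α + β - t) - 4 * ε) * Q ≤ 1 * Q :=
            mul_le_mul_of_nonneg_right (by linarith) hQ0.le
        _ = Q := one_mul Q
    · have h3 : min 1 (α + β - t) ≤ α + β - t := min_le_right _ _
      have h4 : (min 1 (α + β - t) - 4 * ε) * Q ≤ (α + β - t - 4 * ε) * Q :=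
        mul_le_mul_of_nonneg_right (by linarith) hQ0.le
      have h5 : t' * Q ≤ t * Q := mul_le_mul_of_nonneg_right hc hQ0.le
      nlinarith
  have hn := num_ineq (m := min Q (∑ x, F x + ∑ x, G x - t' * Q) / Q) hε hα1 hβ1 ht h1 h2 ht'
    (by rw [le_div_iff₀ hQ0]; exact hm)
  have hP2 : Q * (t * min 1 (α + β - t) - 6 * ε) - K ≤
      (∑ x, min (∑ y, F y * G (x - y)) (t' * Q)) / Q := by
    rw [le_div_iff₀ hQ0]
    have h6 : Q * (t * min 1 (α + β - t) - 6 * ε) ≤
        Q * (t' * (min Q (∑ x, F x + ∑ x, G x - t' * Q) / Q)) :=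
      mul_le_mul_of_nonneg_left hn hQ0.le
    have h7 : Q * (t' * (min Q (∑ x, F x + ∑ x, G x - t' * Q) / Q)) =
        t' * min Q (∑ x, F x + ∑ x, G x - t' * Q) := by
      field_simp
    rw [h7] at h6
    have h8 := mul_le_mul_of_nonneg_right h6 hQ0.le
    nlinarith
  refine hP2.trans ?_
  rw [sum_div]
  refine sum_le_sum fun x _ => ?_
  rw [div_le_iff₀ hQ0]
  have h9 : ∑ y, F y * G (x - y) ≤ ∑ y, f y * g (x - y) := by
    refine sum_le_sum fun y _ => ?_
    have h10 : F y ≤ f y := by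
      simp only [hF]
      exact div_le_self (hf0 y) (by linarith)
    have h11 : G (x - y) ≤ g (x - y) := by
      simp only [hG]
      exact div_le_self (hg0 _) (by linarith)
    exact mul_le_mul h10 h11 (hG0.1 _) (hf0 y)
  rcases le_total ((∑ y, f y * g (x - y)) / Q) t with h | h
  · rw [min_eq_left h, div_mul_cancel₀ _ hQ0.ne']
    exact (min_le_left _ _).trans h9
  · rw [min_eq_right h]
    exact (min_le_right _ _).trans (mul_le_mul_of_nonneg_right hc hQ0.le)

/-- The truncated convolution on one class. -/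
theorem coset_trunc {Γ C : Type} [AddCommGroup Γ] [Fintype Γ] [AddCommGroup C] [Fintype C]
    [DecidableEq C] (π : Γ →+ C) (hπ : Function.Surjective π) {K : ℝ} (hK0 : 0 ≤ K)
    (hK : ∀ S : AddSubgroup π.ker, S ≠ ⊤ → (Nat.card S : ℝ) ≤ K) {Q : ℝ}
    (hQ : Q = (Nat.card π.ker : ℝ)) (φ ψ : Γ → ℝ) (U : Finset C) {ε α β t : ℝ} (hε : 0 ≤ ε)
    (hf0 : ∀ x, 0 ≤ φ x) (hf1 : ∀ x, φ x ≤ 1 + ε) (hg0 : ∀ x, 0 ≤ ψ x) (hg1 : ∀ x, ψ x ≤ 1 + ε)
    (hfs : ∀ x, π x ∉ U → φ x = 0) (hgs : ∀ x, π x ∉ U → ψ x = 0)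
    (hfm : ∀ b ∈ U, |∑ y ∈ univ.filter (fun y => π y = b), φ y - α * Q| ≤ ε * Q)
    (hgm : ∀ b ∈ U, |∑ y ∈ univ.filter (fun y => π y = b), ψ y - β * Q| ≤ ε * Q)
    (hα1 : α ≤ 1) (hβ1 : β ≤ 1) (ht : 0 ≤ t) (h1 : t ≤ α) (h2 : t ≤ β) (κ : C)
    (hU : 0 < (U.filter (fun b => κ - b ∈ U)).card) :
    Q * (t * min 1 (α + β - t) - 6 * ε) - K ≤ ∑ k ∈ univ.filter (fun k => π k = κ),
      min ((∑ y, φ y * ψ (k - y)) / ((U.filter (fun b => κ - b ∈ U)).card * Q)) t := by
  classical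
  have hQ' : Q = (Fintype.card π.ker : ℝ) := by rw [hQ, Nat.card_eq_fintype_card]
  have hQ0 : 0 < Q := by
    rw [hQ']
    exact_mod_cast Fintype.card_pos
  set UK : Finset C := U.filter (fun b => κ - b ∈ U) with hUK
  have hc0 : (0 : ℝ) < (UK.card : ℝ) := by exact_mod_cast hU
  choose lift hlift using hπ
  -- the convolution as a sum over the classes
  have hconv : ∀ k, π k = κ → ∑ y, φ y * ψ (k - y) =
      ∑ b ∈ UK, ∑ h : π.ker, φ (lift b + h) * ψ (k - (lift b + h)) := by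
    intro k hk
    rw [sum_fibres (fun y => π y), ← sum_subset (subset_univ UK)]
    · refine sum_congr rfl fun b _ => ?_
      have := fibre_sum π (lift b) (fun y => φ y * ψ (k - y))
      rw [hlift] at this
      exact this
    · intro b _ hb
      refine sum_eq_zero fun y hy => ?_
      rw [mem_filter] at hy
      rw [hUK, mem_filter] at hb
      push Not at hb
      by_cases hbU : b ∈ U
      · have h3 := hb hbU
        rw [hgs (k - y), mul_zero]
        rw [map_sub, hk, hy.2]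
        exact h3
      · rw [hfs y, zero_mul]
        rw [hy.2]
        exact hbU
  have hmain : ∀ b ∈ UK, Q * (t * min 1 (α + β - t) - 6 * ε) - K ≤
      ∑ x : π.ker, min ((∑ h : π.ker, φ (lift b + h) * ψ (lift κ + x - (lift b + h))) / Q) t := by
    intro b hb
    rw [hUK, mem_filter] at hb
    have e1 : ∀ x h : π.ker, ψ (lift κ + x - (lift b + h)) =
        (fun z : π.ker => ψ (lift κ - lift b + z)) (x - h) := by
      intro x h
      simp only [AddSubgroup.coe_sub]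
      congr 1
      abel
    simp_rw [e1]
    refine class_trunc hK0 hK hQ' (fun h : π.ker => φ (lift b + h))
      (fun z : π.ker => ψ (lift κ - lift b + z)) hε (fun _ => hf0 _) (fun _ => hf1 _)
      (fun _ => hg0 _) (fun _ => hg1 _) ?_ ?_ hα1 hβ1 ht h1 h2
    · rw [← fibre_sum, hlift]
      exact hfm b hb.1
    · rw [← fibre_sum π (lift κ - lift b) ψ, map_sub, hlift, hlift]
      exact hgm _ hb.2
  have e2 : ∑ k ∈ univ.filter (fun k => π k = κ),
      min ((∑ y, φ y * ψ (k - y)) / (UK.card * Q)) t =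
      ∑ x : π.ker, min ((∑ y, φ y * ψ (lift κ + x - y)) / (UK.card * Q)) t := by
    have := fibre_sum π (lift κ) (fun k => min ((∑ y, φ y * ψ (k - y)) / (UK.card * Q)) t)
    rw [hlift] at this
    exact this
  rw [e2]
  calc Q * (t * min 1 (α + β - t) - 6 * ε) - K
      = ∑ _b ∈ UK, (1 / (UK.card : ℝ)) * (Q * (t * min 1 (α + β - t) - 6 * ε) - K) := by
        rw [sum_const, nsmul_eq_mul]
        field_simp
    _ ≤ ∑ b ∈ UK, (1 / (UK.card : ℝ)) * ∑ x : π.ker,
          min ((∑ h : π.ker, φ (lift b + h) * ψ (lift κ + x - (lift b + h))) / Q) t :=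
        sum_le_sum fun b hb => mul_le_mul_of_nonneg_left (hmain b hb) (by positivity)
    _ = ∑ x : π.ker, ∑ b ∈ UK, (1 / (UK.card : ℝ)) *
          min ((∑ h : π.ker, φ (lift b + h) * ψ (lift κ + x - (lift b + h))) / Q) t := by
        simp_rw [mul_sum]
        rw [sum_comm]
    _ ≤ _ := by
        refine sum_le_sum fun x _ => ?_
        have h3 := min_avg UK (fun _ => 1 / (UK.card : ℝ))
          (fun b => (∑ h : π.ker, φ (lift b + h) * ψ (lift κ + x - (lift b + h))) / Q) t ht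
          (fun _ _ => by positivity) (by
            rw [sum_const, nsmul_eq_mul]
            rw [mul_one_div_cancel hc0.ne'])
        refine h3.trans (le_of_eq ?_)
        congr 1
        have hk : π (lift κ + x) = κ := by
          have := x.2
          rw [AddMonoidHom.mem_ker] at this
          rw [map_add, this, add_zero, hlift]
        rw [hconv _ hk, sum_div]
        refine sum_congr rfl fun b _ => ?_
        field_simp

/-- The sum of the convolution over one class. -/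
theorem coset_mean {Γ C : Type} [AddCommGroup Γ] [Fintype Γ] [AddCommGroup C] [Fintype C]
    [DecidableEq C] (π : Γ →+ C) (φ ψ : Γ → ℝ) (U : Finset C)
    (hfs : ∀ x, π x ∉ U → φ x = 0) (hgs : ∀ x, π x ∉ U → ψ x = 0) (κ : C) :
    ∑ k ∈ univ.filter (fun k => π k = κ), ∑ y, φ y * ψ (k - y) =
      ∑ b ∈ U.filter (fun b => κ - b ∈ U), (∑ y ∈ univ.filter (fun y => π y = b), φ y) *
        ∑ z ∈ univ.filter (fun z => π z = κ - b), ψ z := by
  classical
  rw [sum_comm, sum_fibres (fun y => π y),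
    ← sum_subset (subset_univ (U.filter (fun b => κ - b ∈ U)))]
  · refine sum_congr rfl fun b _ => ?_
    rw [sum_mul]
    refine sum_congr rfl fun y hy => ?_
    rw [mem_filter] at hy
    rw [← mul_sum]
    congr 1
    refine sum_bij (fun k _ => k - y) ?_ ?_ ?_ ?_
    · intro k hk
      rw [mem_filter] at hk ⊢
      exact ⟨mem_univ _, by rw [map_sub, hk.2, hy.2]⟩
    · intro k _ k' _ h
      exact sub_left_injective h
    · intro z hz
      rw [mem_filter] at hz
      refine ⟨z + y, ?_, by simp⟩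
      rw [mem_filter]
      refine ⟨mem_univ _, ?_⟩
      rw [map_add, hz.2, hy.2]
      abel
    · intro k _
      rfl
  · intro b _ hb
    refine sum_eq_zero fun y hy => ?_
    rw [mem_filter] at hy hb
    push Not at hb
    by_cases hbU : b ∈ U
    · refine sum_eq_zero fun k hk => ?_
      rw [mem_filter] at hk
      rw [hgs (k - y), mul_zero]
      rw [map_sub, hk.2, hy.2]
      exact hb hbU
    · refine sum_eq_zero fun k _ => ?_
      rw [hfs y, zero_mul]
      rw [hy.2]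
      exact hbU

end Pool.Agent.Lib.MP_629a14_nt.Kp
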