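import Pool.Agent.Lib.MP_629a14_nt.En.Defs
import Pool.Agent.Lib.MP_629a14_nt.Sm.Defs

/-! Definitions for the Kneser-Pollard theorem for the primes. -/

set_option autoImplicit false

namespace Pool.Agent.Lib.MP_629a14_nt.Kp

open Finset Filter Topology Pool.Agent.Lib.MP_629a14_nt Pool.Agent.Lib.MP_629a14_nt.Rob

/-- The number of primes `p ≤ x` in `A` with `p ≡ a` modulo `q`. -/
noncomputable def primesIn (A : Set ℕ) (q a x : ℕ) : ℕ :=
  Set.ncard {p : ℕ | p ≤ x ∧ p.Prime ∧ p ∈ A ∧ p ≡ a [MOD q]}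

/-- `A` has relative density `α` in every reduced residue class of primes. -/
def HasDensity (A : Set ℕ) (α : ℝ) : Prop :=
  ∀ q a : ℕ, 1 ≤ q → a.Coprime q →
    Tendsto (fun x : ℕ => (primesIn A q a x : ℝ) / primesIn Set.univ q a x) atTop (𝓝 α)

/-- The number of representations `n = p + q` with primes `p ∈ A`, `q ∈ B`, divided by its value
`HL n` predicted for the set of all primes. -/
noncomputable def rho (A B : Set ℕ) (n : ℕ) : ℝ := (Sm.repsIn A B n : ℝ) / En.HL n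

/-- A function on the integers which is nearly `R * Q`-periodic, supported on the integers coprime
to `W`, at most `1 + ε`, with mean `α` up to `ε` on the reduced classes modulo `R` in the blocks of
length `R * Q` inside `[ε N, (1 - ε) N]`. -/
structure Loc (W R Q N : ℕ) (α ε : ℝ) (f : ℕ → ℝ) : Prop where
  nonneg : ∀ x, 0 ≤ f x
  le : ∀ x, f x ≤ 1 + ε
  supp : ∀ x, ¬ x.Coprime W → f x = 0
  per : ∀ x, |f (x + R * Q) - f x| ≤ ε
  mean : ∀ x₀ b : ℕ, ε * N ≤ x₀ → (x₀ : ℝ) + R * Q ≤ (1 - ε) * N → b.Coprime W →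
    |∑ x ∈ (Ico x₀ (x₀ + R * Q)).filter (fun x => x ≡ b [MOD R]), f x - α * Q| ≤ ε * Q

/-- The local model of `rho`. -/
noncomputable def model (v : ℕ) (f g : ℕ → ℝ) (n : ℕ) : ℝ :=
  En.kap v ^ 2 / (n * sig v n) * ∑ x ∈ range (n + 1), f x * g (n - x)

/-- The conclusion of the structure theorem for one `N`. -/
def Struc (v N : ℕ) (A B : Set ℕ) (α β ε : ℝ) : Prop :=
  ∃ R Q : ℕ, primorial v ∣ R ∧ 1 ≤ R ∧ 1 ≤ Q ∧ (∀ p : ℕ, p.Prime → p ∣ Q → v < p) ∧
    (R : ℝ) * Q ≤ ε * N ∧ ∃ f g : ℕ → ℝ,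
      Loc (primorial v) R Q N α ε f ∧ Loc (primorial v) R Q N β ε g ∧
      (((Icc 1 N).filter (fun n => Even n ∧ ε < |rho A B n - model v f g n|)).card : ℝ) ≤ ε * N

end Pool.Agent.Lib.MP_629a14_nt.Kp
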