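import Mathlib

/-! Averages over the even numbers and convex functions. -/

set_option autoImplicit false

namespace Pool.Agent.Lib.MP_629a14_nt.Kp

open Finset Filter Topology

/-- `2 / N` times the sum over the even `n ≤ N`. -/
noncomputable def avg (N : ℕ) (h : ℕ → ℝ) : ℝ :=
  2 / (N : ℝ) * ∑ n ∈ (Icc 1 N).filter (fun n => Even n), h n

/-- The extremal mean value of `φ`. -/
noncomputable def extremal (φ : ℝ → ℝ) (α β : ℝ) : ℝ :=
  |1 - α - β| * φ (max 0 (α + β - 1)) + |α - β| * φ (min α β) +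
    2 * ∫ x in (max 0 (α + β - 1))..(min α β), φ x

/-! ### Interpolation -/

/-- Slope of the chord of `φ` over `[k h, (k + 1) h]`. -/
noncomputable def slp (φ : ℝ → ℝ) (h : ℝ) (k : ℕ) : ℝ :=
  (φ ((k + 1 : ℕ) * h) - φ (k * h)) / h

/-- Piecewise linear interpolation. -/
noncomputable def itp (φ : ℝ → ℝ) (h : ℝ) (K : ℕ) (x : ℝ) : ℝ :=
  φ 0 + ∑ k ∈ range K, slp φ h k * (min x ((k + 1 : ℕ) * h) - min x (k * h))

theorem itp_spec {φ : ℝ → ℝ} (hφ : ConvexOn ℝ Set.univ φ) {h C ε : ℝ} (hh : 0 < h) (hε : 0 ≤ ε)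
    (hu : ∀ x y : ℝ, 0 ≤ x → x ≤ C → 0 ≤ y → y ≤ C → |x - y| ≤ h → |φ x - φ y| ≤ ε) (K : ℕ)
    (hK : (K : ℝ) * h ≤ C) (x : ℝ) (hx : 0 ≤ x) :
    (x ≤ K * h → φ x ≤ itp φ h K x ∧ itp φ h K x ≤ φ x + ε) ∧
      (K * h ≤ x → itp φ h K x = φ (K * h)) := by
  induction K with
  | zero =>
    constructor
    · intro h1
      have : x = 0 := le_antisymm (by simpa using h1) hx
      subst this
      simp [itp, hε]
    · intro _
      simp [itp]
  | succ K ih =>
    have hK' : (K : ℝ) * h ≤ C := by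
      push_cast at hK
      nlinarith
    obtain ⟨ih1, ih2⟩ := ih hK'
    have hstep : itp φ h (K + 1) x = itp φ h K x +
        slp φ h K * (min x ((K + 1 : ℕ) * h) - min x (K * h)) := by
      unfold itp
      rw [sum_range_succ]
      ring
    have hKh : (0 : ℝ) ≤ K * h := by positivity
    have hK1 : ((K + 1 : ℕ) : ℝ) * h = K * h + h := by push_cast; ring
    have hslp : slp φ h K * h = φ ((K + 1 : ℕ) * h) - φ (K * h) := by
      unfold slp
      field_simp
    rw [hstep]
    rcases le_total x (K * h) with hx1 | hx1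
    · have e : min x ((K + 1 : ℕ) * h) - min x (K * h) = 0 := by
        rw [min_eq_left hx1, min_eq_left (by rw [hK1]; linarith), sub_self]
      rw [e, mul_zero, add_zero]
      refine ⟨fun _ => ih1 hx1, fun h2 => ?_⟩
      rw [hK1] at h2
      linarith
    · rw [ih2 hx1, min_eq_right hx1]
      rcases le_total x ((K + 1 : ℕ) * h) with hx2 | hx2
      · rw [min_eq_left hx2]
        have hx2' := hx2
        rw [hK1] at hx2'
        -- the weight
        set w : ℝ := (x - K * h) / h with hw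
        have hw0 : 0 ≤ w := div_nonneg (by linarith) hh.le
        have hw1 : w ≤ 1 := by
          rw [hw, div_le_one hh]
          linarith
        have hval : φ (K * h) + slp φ h K * (x - K * h) =
            (1 - w) * φ (K * h) + w * φ ((K + 1 : ℕ) * h) := by
          have : x - K * h = w * h := by rw [hw]; field_simp
          rw [this]
          have : slp φ h K * (w * h) = w * (slp φ h K * h) := by ring
          rw [this, hslp]
          ring
        have hxw : x = (1 - w) * (K * h) + w * ((K + 1 : ℕ) * h) := by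
          rw [hK1]
          have : w * h = x - K * h := by rw [hw]; field_simp
          linear_combination -this
        refine ⟨fun _ => ?_, fun h2 => ?_⟩
        · rw [hval]
          constructor
          · have := hφ.2 (Set.mem_univ (K * h)) (Set.mem_univ (((K + 1 : ℕ) : ℝ) * h))
              (sub_nonneg.2 hw1) hw0 (by ring)
            simp only [smul_eq_mul] at this
            rw [← hxw] at this
            exact this
          · have h3 : |φ (K * h) - φ x| ≤ ε := by
              refine hu _ _ hKh hK' hx (by linarith) ?_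
              rw [abs_le]
              constructor <;> linarith
            have h4 : |φ ((K + 1 : ℕ) * h) - φ x| ≤ ε := by
              refine hu _ _ (by positivity) hK hx (by linarith) ?_
              rw [abs_le, hK1]
              constructor <;> linarith
            have h5 := (abs_le.1 h3).2
            have h6 := (abs_le.1 h4).2
            nlinarith
        · have h3 : x = (K + 1 : ℕ) * h := le_antisymm hx2 h2
          rw [← h3]
          have h4 : x - K * h = h := by rw [h3, hK1]; ring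
          rw [h4, hslp, ← h3]
          ring
      · rw [min_eq_right hx2]
        refine ⟨fun h2 => ?_, fun _ => ?_⟩
        · have h3 : x = (K + 1 : ℕ) * h := le_antisymm h2 hx2
          have h4 : ((K + 1 : ℕ) : ℝ) * h - K * h = h := by rw [hK1]; ring
          rw [h4, hslp, h3]
          constructor <;> linarith
        · have h4 : ((K + 1 : ℕ) : ℝ) * h - K * h = h := by rw [hK1]; ring
          rw [h4, hslp]
          ring

/-- Abel summation. -/
theorem itp_abel (φ : ℝ → ℝ) {h : ℝ} (n : ℕ) (x : ℝ) (hx : 0 ≤ x) :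
    itp φ h (n + 1) x = φ 0 + slp φ h n * min x ((n + 1 : ℕ) * h) -
      ∑ k ∈ range n, (slp φ h (k + 1) - slp φ h k) * min x ((k + 1 : ℕ) * h) := by
  induction n with
  | zero =>
    unfold itp
    have : min x (((0 : ℕ) : ℝ) * h) = 0 := by
      rw [Nat.cast_zero, zero_mul]
      exact min_eq_right hx
    rw [sum_range_succ, sum_range_zero, this]
    simp
  | succ n ih =>
    have hstep : itp φ h (n + 1 + 1) x = itp φ h (n + 1) x +
        slp φ h (n + 1) * (min x ((n + 1 + 1 : ℕ) * h) - min x ((n + 1 : ℕ) * h)) := by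
      unfold itp
      rw [sum_range_succ _ (n + 1)]
      ring
    rw [hstep, ih, sum_range_succ]
    ring

theorem slp_mono {φ : ℝ → ℝ} (hφ : ConvexOn ℝ Set.univ φ) {h : ℝ} (hh : 0 < h) (k : ℕ) :
    slp φ h k ≤ slp φ h (k + 1) := by
  unfold slp
  refine div_le_div_of_nonneg_right ?_ hh.le
  have h1 := hφ.2 (Set.mem_univ ((k : ℝ) * h)) (Set.mem_univ (((k + 1 + 1 : ℕ) : ℝ) * h))
    (by norm_num : (0 : ℝ) ≤ 1 / 2) (by norm_num : (0 : ℝ) ≤ 1 / 2) (by norm_num)
  simp only [smul_eq_mul] at h1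
  have h2 : 1 / 2 * ((k : ℝ) * h) + 1 / 2 * (((k + 1 + 1 : ℕ) : ℝ) * h) = ((k + 1 : ℕ) : ℝ) * h := by
    push_cast
    ring
  rw [h2] at h1
  linarith

/-! ### The extremal value -/

/-- The limit of the truncated means. -/
noncomputable def TT (α β t : ℝ) : ℝ := min t (min α β) * min 1 (α + β - min t (min α β))

theorem extremal_symm (φ : ℝ → ℝ) (α β : ℝ) : extremal φ α β = extremal φ β α := by
  unfold extremal
  rw [min_comm β α, abs_sub_comm β α, add_comm β α]
  congr 3
  rw [sub_sub, sub_sub, add_comm]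

theorem extremal_add {φ ψ : ℝ → ℝ} (hφ : Continuous φ) (hψ : Continuous ψ) (α β : ℝ) :
    extremal (fun x => φ x + ψ x) α β = extremal φ α β + extremal ψ α β := by
  unfold extremal
  rw [intervalIntegral.integral_add (hφ.intervalIntegrable _ _) (hψ.intervalIntegrable _ _)]
  ring

theorem extremal_mul (φ : ℝ → ℝ) (c α β : ℝ) :
    extremal (fun x => c * φ x) α β = c * extremal φ α β := by
  unfold extremal
  rw [intervalIntegral.integral_const_mul]
  ring

theorem extremal_sum {ι : Type*} (s : Finset ι) (φ : ι → ℝ → ℝ) (hφ : ∀ i, Continuous (φ i))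
    (α β : ℝ) : extremal (fun x => ∑ i ∈ s, φ i x) α β = ∑ i ∈ s, extremal (φ i) α β := by
  classical
  induction s using Finset.induction_on with
  | empty => simp [extremal]
  | insert a s ha ih =>
    simp only [sum_insert ha]
    rw [extremal_add (hφ a) (continuous_finsetSum _ fun i _ => hφ i), ih]

theorem lo_le_hi {α β : ℝ} (hα0 : 0 ≤ α) (hα1 : α ≤ 1) (hβ0 : 0 ≤ β) (hβ1 : β ≤ 1) :
    max 0 (α + β - 1) ≤ min α β :=
  max_le (le_min hα0 hβ0) (le_min (by linarith) (by linarith))

theorem extremal_mono {φ ψ : ℝ → ℝ} (hφ : Continuous φ) (hψ : Continuous ψ) {α β : ℝ}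
    (hα0 : 0 ≤ α) (hα1 : α ≤ 1) (hβ0 : 0 ≤ β) (hβ1 : β ≤ 1)
    (h : ∀ x, 0 ≤ x → x ≤ 1 → φ x ≤ ψ x) : extremal φ α β ≤ extremal ψ α β := by
  have hlh := lo_le_hi hα0 hα1 hβ0 hβ1
  have hl0 : 0 ≤ max 0 (α + β - 1) := le_max_left _ _
  have hh1 : min α β ≤ 1 := (min_le_left _ _).trans hα1
  unfold extremal
  have h1 := h _ hl0 (hlh.trans hh1)
  have h2 := h _ (hl0.trans hlh) hh1
  have h3 : ∫ x in (max 0 (α + β - 1))..(min α β), φ x ≤
      ∫ x in (max 0 (α + β - 1))..(min α β), ψ x := by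
    refine intervalIntegral.integral_mono_on hlh (hφ.intervalIntegrable _ _)
      (hψ.intervalIntegrable _ _) fun x hx => ?_
    exact h x (hl0.trans hx.1) (hx.2.trans hh1)
  have h4 := mul_le_mul_of_nonneg_left h1 (abs_nonneg (1 - α - β))
  have h5 := mul_le_mul_of_nonneg_left h2 (abs_nonneg (α - β))
  linarith

theorem extremal_const (c : ℝ) {α β : ℝ} : extremal (fun _ => c) α β = c := by
  unfold extremal
  rw [intervalIntegral.integral_const, smul_eq_mul]
  rcases le_total α β with h | h <;> rcases le_total (α + β) 1 with h' | h'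
  · rw [min_eq_left h, max_eq_left (by linarith), abs_of_nonneg (by linarith : 0 ≤ 1 - α - β),
      abs_of_nonpos (by linarith : α - β ≤ 0)]
    ring
  · rw [min_eq_left h, max_eq_right (by linarith), abs_of_nonpos (by linarith : 1 - α - β ≤ 0),
      abs_of_nonpos (by linarith : α - β ≤ 0)]
    ring
  · rw [min_eq_right h, max_eq_left (by linarith), abs_of_nonneg (by linarith : 0 ≤ 1 - α - β),
      abs_of_nonneg (by linarith : 0 ≤ α - β)]
    ring
  · rw [min_eq_right h, max_eq_right (by linarith), abs_of_nonpos (by linarith : 1 - α - β ≤ 0),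
      abs_of_nonneg (by linarith : 0 ≤ α - β)]
    ring

theorem integral_id' (a b : ℝ) : ∫ x in a..b, x = (b ^ 2 - a ^ 2) / 2 := by
  simp

theorem integral_min {l m : ℝ} (hlm : l ≤ m) (t : ℝ) :
    ∫ x in l..m, min x t = ((min (max l t) m) ^ 2 - l ^ 2) / 2 + t * (m - min (max l t) m) := by
  set u : ℝ := min (max l t) m with hu
  have hlu : l ≤ u := le_min (le_max_left _ _) hlm
  have hum : u ≤ m := min_le_right _ _
  have hc : Continuous (fun x : ℝ => min x t) := by fun_prop
  rw [← intervalIntegral.integral_add_adjacent_intervals (b := u) (hc.intervalIntegrable _ _)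
    (hc.intervalIntegrable _ _)]
  congr 1
  · rw [← integral_id']
    rcases le_total t l with h | h
    · have : u = l := by rw [hu, max_eq_left h, min_eq_left hlm]
      rw [this]
      simp
    · refine intervalIntegral.integral_congr fun x hx => ?_
      rw [Set.uIcc_of_le hlu] at hx
      have : u ≤ t := by
        rw [hu, max_eq_right h]
        exact min_le_left _ _
      exact min_eq_left (hx.2.trans this)
  · have h1 : ∫ x in u..m, min x t = ∫ x in u..m, t := by
      rcases le_total (max l t) m with h | h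
      · refine intervalIntegral.integral_congr fun x hx => ?_
        rw [Set.uIcc_of_le hum] at hx
        have : t ≤ u := by
          rw [hu, min_eq_left h]
          exact le_max_right _ _
        exact min_eq_right (this.trans hx.1)
      · have : u = m := by rw [hu, min_eq_right h]
        rw [this]
        simp
    rw [h1, intervalIntegral.integral_const, smul_eq_mul]
    ring

theorem extremal_min {α β : ℝ} (hα0 : 0 ≤ α) (hα1 : α ≤ 1) (hβ0 : 0 ≤ β) (hβ1 : β ≤ 1) {t : ℝ}
    (ht : 0 ≤ t) : extremal (fun x => min x t) α β = TT α β t := by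
  have key : ∀ α β : ℝ, 0 ≤ α → α ≤ β → β ≤ 1 →
      extremal (fun x => min x t) α β = TT α β t := by
    intro α β h0 hab h1
    have hlh := lo_le_hi h0 (hab.trans h1) (h0.trans hab) h1
    unfold extremal TT
    rw [integral_min hlh]
    rw [min_eq_left hab] at hlh ⊢
    beta_reduce
    rw [abs_of_nonpos (by linarith : α - β ≤ 0)]
    rcases le_total (α + β) 1 with h' | h'
    · rw [max_eq_left (by linarith : α + β - 1 ≤ 0), abs_of_nonneg (by linarith : 0 ≤ 1 - α - β),
        min_eq_left ht, max_eq_right ht]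
      rcases le_total t α with h2 | h2
      · rw [min_eq_left h2, min_eq_right h2, min_eq_right (by linarith)]
        ring
      · rw [min_eq_right h2, min_eq_left h2, min_eq_right (by linarith)]
        ring
    · rw [max_eq_right (by linarith : 0 ≤ α + β - 1), abs_of_nonpos (by linarith : 1 - α - β ≤ 0)]
      rcases le_total t α with h2 | h2
      · rw [min_eq_left h2, min_eq_right h2]
        rcases le_total t (α + β - 1) with h3 | h3
        · rw [min_eq_right h3, max_eq_left h3, min_eq_left (by linarith), min_eq_left (by linarith)]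
          ring
        · rw [min_eq_left h3, max_eq_right h3, min_eq_left h2, min_eq_right (by linarith)]
          ring
      · rw [min_eq_right h2, min_eq_left h2, min_eq_left (by linarith : α + β - 1 ≤ t),
          max_eq_right (by linarith : α + β - 1 ≤ t), min_eq_right h2]
        have : min 1 (α + β - α) = β := by rw [min_eq_right (by linarith)]; ring
        rw [this]
        ring
  rcases le_total α β with h | h
  · exact key α β hα0 h hβ1
  · rw [extremal_symm, key β α hβ0 h hα1]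
    unfold TT
    rw [min_comm β α, add_comm β α]

theorem TT_large {α β : ℝ} (hα1 : α ≤ 1) (hβ1 : β ≤ 1) {t : ℝ}
    (ht : min α β ≤ t) : TT α β t = α * β := by
  unfold TT
  rw [min_eq_right ht]
  rcases le_total α β with h | h
  · rw [min_eq_left h, min_eq_right (by linarith)]
    ring
  · rw [min_eq_right h, min_eq_right (by linarith)]
    ring

/-! ### Averages -/

theorem avg_mono (N : ℕ) {f g : ℕ → ℝ} (h : ∀ n, f n ≤ g n) : avg N f ≤ avg N g := by
  unfold avg
  exact mul_le_mul_of_nonneg_left (sum_le_sum fun n _ => h n) (by positivity)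

theorem avg_add (N : ℕ) (f g : ℕ → ℝ) : avg N (fun n => f n + g n) = avg N f + avg N g := by
  unfold avg
  rw [sum_add_distrib, mul_add]

theorem avg_sub (N : ℕ) (f g : ℕ → ℝ) : avg N (fun n => f n - g n) = avg N f - avg N g := by
  unfold avg
  rw [sum_sub_distrib, mul_sub]

theorem avg_mul (N : ℕ) (c : ℝ) (f : ℕ → ℝ) : avg N (fun n => c * f n) = c * avg N f := by
  unfold avg
  rw [← mul_sum]
  ring

theorem avg_sum {ι : Type*} (N : ℕ) (s : Finset ι) (f : ι → ℕ → ℝ) :
    avg N (fun n => ∑ i ∈ s, f i n) = ∑ i ∈ s, avg N (f i) := by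
  unfold avg
  rw [sum_comm, mul_sum]

theorem avg_one (N : ℕ) (hN : 1 ≤ N) : |avg N (fun _ => 1) - 1| ≤ 1 / N := by
  have hNr : (0 : ℝ) < N := by exact_mod_cast hN
  have hcard : ((Icc 1 N).filter (fun n => Even n)).card = N / 2 := by
    have : (Icc 1 N).filter (fun n => Even n) = (Icc 1 (N / 2)).image (fun m => 2 * m) := by
      ext n
      simp only [mem_filter, mem_Icc, Finset.mem_image]
      constructor
      · rintro ⟨⟨h1, h2⟩, m, rfl⟩
        exact ⟨m, ⟨by omega, by omega⟩, by omega⟩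
      · rintro ⟨m, ⟨h1, h2⟩, rfl⟩
        exact ⟨⟨by omega, by omega⟩, m, by ring⟩
    rw [this, card_image_of_injective _ (fun a b h => by simpa using h), Nat.card_Icc,
      Nat.add_sub_cancel]
  unfold avg
  rw [sum_const, hcard, nsmul_eq_mul, mul_one]
  have h1 : (N : ℝ) - 1 ≤ 2 * ((N / 2 : ℕ) : ℝ) := by
    have : N ≤ 2 * (N / 2) + 1 := by omega
    have : (N : ℝ) ≤ 2 * ((N / 2 : ℕ) : ℝ) + 1 := by exact_mod_cast this
    linarith
  have h2 : 2 * ((N / 2 : ℕ) : ℝ) ≤ N := by
    have : 2 * (N / 2) ≤ N := by omega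
    exact_mod_cast this
  have h3 : 2 / (N : ℝ) * ((N / 2 : ℕ) : ℝ) - 1 = (2 * ((N / 2 : ℕ) : ℝ) - N) / N := by
    field_simp
  rw [h3, abs_div, abs_of_pos hNr]
  refine div_le_div_of_nonneg_right ?_ hNr.le
  rw [abs_le]
  constructor <;> linarith

theorem avg_one_ev (η : ℝ) (hη : 0 < η) : ∀ᶠ N : ℕ in atTop, |avg N (fun _ => 1) - 1| ≤ η := by
  obtain ⟨N₀, hN₀⟩ := exists_nat_gt (1 / η)
  filter_upwards [eventually_ge_atTop (max N₀ 1)] with N hN
  have hN1 : 1 ≤ N := le_trans (le_max_right _ _) hN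
  have hNr : (0 : ℝ) < N := by exact_mod_cast hN1
  refine (avg_one N hN1).trans ?_
  rw [div_le_iff₀ hNr]
  rw [div_lt_iff₀ hη] at hN₀
  have : (N₀ : ℝ) ≤ N := by exact_mod_cast (le_trans (le_max_left _ _) hN)
  nlinarith

/-! ### The two bounds -/

/-- Approximation of a convex function by a combination of truncations. -/
theorem approx (C : ℝ) {φ : ℝ → ℝ} (hφ : ConvexOn ℝ Set.univ φ) {ε : ℝ} (hε : 0 < ε) :
    ∃ (n : ℕ) (s D : ℝ) (c t : ℕ → ℝ), 1 ≤ D ∧ C ≤ D ∧ (∀ k, 0 ≤ c k) ∧ (∀ k, 0 ≤ t k) ∧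
      ∀ x, 0 ≤ x → x ≤ D →
        φ x ≤ φ 0 + s * min x D - ∑ k ∈ range n, c k * min x (t k) ∧
        φ 0 + s * min x D - ∑ k ∈ range n, c k * min x (t k) ≤ φ x + ε := by
  set D : ℝ := max C 1 with hD
  have hD1 : 1 ≤ D := le_max_right _ _
  have hcont : Continuous φ := by
    rw [← continuousOn_univ]
    exact hφ.continuousOn isOpen_univ
  have hun : UniformContinuousOn φ (Set.Icc 0 D) :=
    isCompact_Icc.uniformContinuousOn_of_continuous hcont.continuousOn
  rw [Metric.uniformContinuousOn_iff] at hun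
  obtain ⟨δ, hδ, hun⟩ := hun ε hε
  obtain ⟨n, hn⟩ := exists_nat_gt (D / δ)
  have hn0 : (0 : ℝ) < ((n + 1 : ℕ) : ℝ) := by positivity
  set h : ℝ := D / ((n + 1 : ℕ) : ℝ) with hh
  have hh0 : 0 < h := by positivity
  have hhδ : h < δ := by
    rw [hh, div_lt_iff₀ hn0]
    rw [div_lt_iff₀ hδ] at hn
    push_cast
    nlinarith
  have hKD : ((n + 1 : ℕ) : ℝ) * h = D := by
    rw [hh]
    field_simp
  have hu : ∀ x y : ℝ, 0 ≤ x → x ≤ D → 0 ≤ y → y ≤ D → |x - y| ≤ h → |φ x - φ y| ≤ ε := by
    intro x y hx0 hx1 hy0 hy1 hxy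
    have := hun x ⟨hx0, hx1⟩ y ⟨hy0, hy1⟩ (by rw [Real.dist_eq]; linarith)
    rw [Real.dist_eq] at this
    exact this.le
  refine ⟨n, slp φ h n, D, fun k => slp φ h (k + 1) - slp φ h k, fun k => ((k + 1 : ℕ) : ℝ) * h,
    hD1, le_max_left _ _, fun k => sub_nonneg.2 (slp_mono hφ hh0 k), fun k => by positivity,
    fun x hx0 hx1 => ?_⟩
  have h1 := (itp_spec hφ hh0 hε.le hu (n + 1) (by rw [hKD]) x hx0).1 (by rw [hKD]; exact hx1)
  rw [itp_abel φ n x hx0, hKD] at h1
  exact h1

theorem extremal_comb {α β : ℝ} (hα0 : 0 ≤ α) (hα1 : α ≤ 1) (hβ0 : 0 ≤ β) (hβ1 : β ≤ 1)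
    (a s D : ℝ) (n : ℕ) (c t : ℕ → ℝ) (hD : 1 ≤ D) (ht : ∀ k, 0 ≤ t k) :
    extremal (fun x => a + s * min x D - ∑ k ∈ range n, c k * min x (t k)) α β =
      a + s * (α * β) - ∑ k ∈ range n, c k * TT α β (t k) := by
  have h1 : (fun x : ℝ => a + s * min x D - ∑ k ∈ range n, c k * min x (t k)) =
      fun x => (a + s * min x D) + (-1) * ∑ k ∈ range n, c k * min x (t k) := by
    funext x
    ring
  have h2 : Continuous (fun x : ℝ => ∑ k ∈ range n, c k * min x (t k)) :=
    continuous_finsetSum _ fun k _ => by fun_prop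
  rw [h1, extremal_add (by fun_prop) (by fun_prop), extremal_mul, extremal_add (by fun_prop)
    (by fun_prop), extremal_const, extremal_mul, extremal_min hα0 hα1 hβ0 hβ1 (by linarith),
    TT_large hα1 hβ1 ((min_le_left _ _).trans (hα1.trans hD)),
    extremal_sum _ _ (fun k => by fun_prop)]
  have h3 : ∀ k ∈ range n, extremal (fun x => c k * min x (t k)) α β = c k * TT α β (t k) := by
    intro k _
    rw [extremal_mul, extremal_min hα0 hα1 hβ0 hβ1 (ht k)]
  rw [sum_congr rfl h3]
  ring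

theorem avg_comb (N : ℕ) (ρ : ℕ → ℝ) (a s D : ℝ) (n : ℕ) (c t : ℕ → ℝ) :
    avg N (fun m => a + s * min (ρ m) D - ∑ k ∈ range n, c k * min (ρ m) (t k)) =
      a * avg N (fun _ => 1) + s * avg N (fun m => min (ρ m) D) -
        ∑ k ∈ range n, c k * avg N (fun m => min (ρ m) (t k)) := by
  rw [avg_sub, avg_add, avg_mul, avg_sum]
  congr 1
  · congr 1
    rw [← avg_mul]
    simp
  · exact sum_congr rfl fun k _ => avg_mul N _ _

/-- The upper bound for convex functions. Proof: on `[0, C]` bound `φ` from above by its piecewise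
linear interpolation at the points `t_k = k C / K`, which is within `ε` of `φ` for large `K`:
`φ 0 + s_0 x + ∑_{1 ≤ k < K} (s_k - s_{k-1}) (x - min x t_k)` with `s_k ≥ s_{k-1}`. The mean of
`ρ` tends to `α β` (lower bound: `ρ ≥ min ρ t` with `t = min α β`), `htr` bounds the mean of
`min ρ t_k` from below for `t_k ≤ min α β`, and for larger `t_k` use `t = min α β`. Finally
`extremal` is linear and monotone in `φ` (on `[0, 1]`), with values `1`, `α β` at `1`, `x` and
`α β - t * min 1 (α + β - t)` at `x - min x t`, `0 ≤ t ≤ min α β` (and `0` for larger `t`). -/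
theorem convex_upper {ρ : ℕ → ℝ} {C α β : ℝ} (h0 : ∀ n, 0 ≤ ρ n) (hC : ∀ n, ρ n ≤ C)
    (hα0 : 0 ≤ α) (hα1 : α ≤ 1) (hβ0 : 0 ≤ β) (hβ1 : β ≤ 1)
    (hmean : ∀ ε : ℝ, 0 < ε → ∃ N₀ : ℕ, ∀ N : ℕ, N₀ ≤ N → avg N ρ ≤ α * β + ε)
    (htr : ∀ t : ℝ, 0 ≤ t → t ≤ α → t ≤ β → ∀ ε : ℝ, 0 < ε → ∃ N₀ : ℕ, ∀ N : ℕ, N₀ ≤ N →
      t * min 1 (α + β - t) - ε ≤ avg N (fun n => min (ρ n) t))
    (φ : ℝ → ℝ) (hφ : ConvexOn ℝ Set.univ φ) (ε : ℝ) (hε : 0 < ε) :
    ∃ N₀ : ℕ, ∀ N : ℕ, N₀ ≤ N → avg N (fun n => φ (ρ n)) ≤ extremal φ α β + ε := by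
  obtain ⟨n, s, D, c, t, hD1, hCD, hc, ht, happ⟩ := approx C hφ (ε := ε / 2) (by positivity)
  have hcont : Continuous φ := by
    rw [← continuousOn_univ]
    exact hφ.continuousOn isOpen_univ
  have hlow : ∀ u : ℝ, 0 ≤ u → ∀ η : ℝ, 0 < η → ∀ᶠ N : ℕ in atTop,
      TT α β u - η ≤ avg N (fun m => min (ρ m) u) := by
    intro u hu η hη
    have hm0 : 0 ≤ min u (min α β) := le_min hu (le_min hα0 hβ0)
    obtain ⟨N₀, hN₀⟩ := htr (min u (min α β)) hm0 ((min_le_right _ _).trans (min_le_left _ _))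
      ((min_le_right _ _).trans (min_le_right _ _)) η hη
    filter_upwards [eventually_ge_atTop N₀] with N hN
    refine (hN₀ N hN).trans (avg_mono N fun m => ?_)
    exact min_le_min_left _ (min_le_left _ _)
  set B : ℝ := |φ 0| + |s| + ∑ k ∈ range n, c k + 1 with hB
  have hsum0 : 0 ≤ ∑ k ∈ range n, c k := sum_nonneg fun k _ => hc k
  have hB0 : 0 < B := by
    have := abs_nonneg (φ 0)
    have := abs_nonneg s
    linarith
  set η : ℝ := ε / (2 * B) with hη'
  have hη : 0 < η := by positivity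
  have hηB : η * B = ε / 2 := by rw [hη']; field_simp
  have hkk : ∀ᶠ N : ℕ in atTop, ∀ k ∈ range n, TT α β (t k) - η ≤ avg N (fun m => min (ρ m) (t k)) :=
    (Filter.eventually_all_finset (range n)).2 fun k _ => hlow (t k) (ht k) η hη
  obtain ⟨N₁, hN₁⟩ := hmean η hη
  have hev := (avg_one_ev η hη).and (hkk.and ((hlow D (by linarith) η hη).and
    (eventually_ge_atTop N₁)))
  obtain ⟨N₀, hN₀⟩ := eventually_atTop.1 hev
  refine ⟨N₀, fun N hN => ?_⟩
  obtain ⟨g1, g2, g3, g4⟩ := hN₀ N hN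
  have hmD : min α β ≤ D := (min_le_left _ _).trans (hα1.trans hD1)
  rw [TT_large hα1 hβ1 hmD] at g3
  have g5 : avg N (fun m => min (ρ m) D) ≤ α * β + η :=
    (avg_mono N fun m => min_le_left _ _).trans (hN₁ N g4)
  have e1 : avg N (fun m => φ (ρ m)) ≤
      avg N (fun m => φ 0 + s * min (ρ m) D - ∑ k ∈ range n, c k * min (ρ m) (t k)) :=
    avg_mono N fun m => (happ (ρ m) (h0 m) ((hC m).trans hCD)).1
  rw [avg_comb] at e1
  have e2 : φ 0 * avg N (fun _ => 1) ≤ φ 0 + |φ 0| * η := by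
    have : φ 0 * (avg N (fun _ => 1) - 1) ≤ |φ 0| * η := by
      refine (le_abs_self _).trans ?_
      rw [abs_mul]
      exact mul_le_mul_of_nonneg_left g1 (abs_nonneg _)
    linarith
  have e3 : s * avg N (fun m => min (ρ m) D) ≤ s * (α * β) + |s| * η := by
    have : s * (avg N (fun m => min (ρ m) D) - α * β) ≤ |s| * η := by
      refine (le_abs_self _).trans ?_
      rw [abs_mul]
      refine mul_le_mul_of_nonneg_left ?_ (abs_nonneg _)
      rw [abs_le]
      constructor <;> linarith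
    linarith
  have e4 : ∑ k ∈ range n, c k * TT α β (t k) - (∑ k ∈ range n, c k) * η ≤
      ∑ k ∈ range n, c k * avg N (fun m => min (ρ m) (t k)) := by
    rw [sum_mul, ← sum_sub_distrib]
    refine sum_le_sum fun k hk => ?_
    have := mul_le_mul_of_nonneg_left (g2 k hk) (hc k)
    linarith
  have e5 := extremal_comb hα0 hα1 hβ0 hβ1 (φ 0) s D n c t hD1 ht
  have e6 : extremal (fun x => φ 0 + s * min x D - ∑ k ∈ range n, c k * min x (t k)) α β ≤
      extremal (fun x => φ x + ε / 2) α β := by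
    have h2 : Continuous (fun x : ℝ => ∑ k ∈ range n, c k * min x (t k)) :=
      continuous_finsetSum _ fun k _ => by fun_prop
    refine extremal_mono (by fun_prop) (by fun_prop) hα0 hα1 hβ0 hβ1 fun x hx0 hx1 => ?_
    exact (happ x hx0 (hx1.trans hD1)).2
  have e7 : extremal (fun x => φ x + ε / 2) α β = extremal φ α β + ε / 2 := by
    rw [extremal_add hcont continuous_const, extremal_const]
  rw [e5, e7] at e6
  have e8 : |φ 0| * η + |s| * η + (∑ k ∈ range n, c k) * η ≤ ε / 2 := by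
    rw [← hηB, hB]
    nlinarith
  linarith

/-- The lower bound for convex functions, when the truncated means are as small as possible. The
same proof, with `φ ≥` the interpolation minus `ε`. -/
theorem convex_lower {ρ : ℕ → ℝ} {C α β : ℝ} (h0 : ∀ n, 0 ≤ ρ n) (hC : ∀ n, ρ n ≤ C)
    (hα0 : 0 ≤ α) (hα1 : α ≤ 1) (hβ0 : 0 ≤ β) (hβ1 : β ≤ 1)
    (hmean : ∀ ε : ℝ, 0 < ε → ∃ N₀ : ℕ, ∀ N : ℕ, N₀ ≤ N → |avg N ρ - α * β| ≤ ε)
    (htr : ∀ t : ℝ, 0 ≤ t → t ≤ α → t ≤ β → ∀ ε : ℝ, 0 < ε → ∃ N₀ : ℕ, ∀ N : ℕ, N₀ ≤ N →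
      avg N (fun n => min (ρ n) t) ≤ t * min 1 (α + β - t) + ε)
    (φ : ℝ → ℝ) (hφ : ConvexOn ℝ Set.univ φ) (ε : ℝ) (hε : 0 < ε) :
    ∃ N₀ : ℕ, ∀ N : ℕ, N₀ ≤ N → extremal φ α β - ε ≤ avg N (fun n => φ (ρ n)) := by
  obtain ⟨n, s, D, c, t, hD1, hCD, hc, ht, happ⟩ := approx C hφ (ε := ε / 4) (by positivity)
  have hcont : Continuous φ := by
    rw [← continuousOn_univ]
    exact hφ.continuousOn isOpen_univ
  have hup : ∀ u : ℝ, 0 ≤ u → ∀ η : ℝ, 0 < η → ∀ᶠ N : ℕ in atTop,
      avg N (fun m => min (ρ m) u) ≤ TT α β u + η := by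
    intro u hu η hη
    rcases le_total u (min α β) with hum | hum
    · obtain ⟨N₀, hN₀⟩ := htr u hu (hum.trans (min_le_left _ _)) (hum.trans (min_le_right _ _)) η hη
      filter_upwards [eventually_ge_atTop N₀] with N hN
      have := hN₀ N hN
      unfold TT
      rw [min_eq_left hum]
      exact this
    · obtain ⟨N₀, hN₀⟩ := hmean η hη
      filter_upwards [eventually_ge_atTop N₀] with N hN
      rw [TT_large hα1 hβ1 hum]
      have h1 := (abs_le.1 (hN₀ N hN)).2
      have h2 : avg N (fun m => min (ρ m) u) ≤ avg N ρ := avg_mono N fun m => min_le_left _ _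
      linarith
  set B : ℝ := |φ 0| + |s| + ∑ k ∈ range n, c k + 1 with hB
  have hsum0 : 0 ≤ ∑ k ∈ range n, c k := sum_nonneg fun k _ => hc k
  have hB0 : 0 < B := by
    have := abs_nonneg (φ 0)
    have := abs_nonneg s
    linarith
  set η : ℝ := ε / (4 * B) with hη'
  have hη : 0 < η := by positivity
  have hηB : η * B = ε / 4 := by rw [hη']; field_simp
  have hkk : ∀ᶠ N : ℕ in atTop, ∀ k ∈ range n, avg N (fun m => min (ρ m) (t k)) ≤ TT α β (t k) + η :=
    (Filter.eventually_all_finset (range n)).2 fun k _ => hup (t k) (ht k) η hη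
  obtain ⟨N₁, hN₁⟩ := hmean η hη
  have hev := (avg_one_ev η hη).and ((avg_one_ev 1 one_pos).and
    (hkk.and (eventually_ge_atTop N₁)))
  obtain ⟨N₀, hN₀⟩ := eventually_atTop.1 hev
  refine ⟨N₀, fun N hN => ?_⟩
  obtain ⟨g1, g1', g2, g4⟩ := hN₀ N hN
  have hDρ : avg N (fun m => min (ρ m) D) = avg N ρ := by
    congr 1
    funext m
    exact min_eq_left ((hC m).trans hCD)
  have e1 : avg N (fun m => φ 0 + s * min (ρ m) D - ∑ k ∈ range n, c k * min (ρ m) (t k)) ≤
      avg N (fun m => φ (ρ m) + ε / 4) :=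
    avg_mono N fun m => (happ (ρ m) (h0 m) ((hC m).trans hCD)).2
  rw [avg_comb] at e1
  have e1' : avg N (fun m => φ (ρ m) + ε / 4) ≤ avg N (fun m => φ (ρ m)) + ε / 2 := by
    rw [avg_add]
    have h1 : avg N (fun _ => ε / 4) = ε / 4 * avg N (fun _ => 1) := by
      rw [← avg_mul]
      simp
    rw [h1]
    have h2 := (abs_le.1 g1').2
    nlinarith
  have e2 : φ 0 - |φ 0| * η ≤ φ 0 * avg N (fun _ => 1) := by
    have : -(|φ 0| * η) ≤ φ 0 * (avg N (fun _ => 1) - 1) := by
      refine le_trans ?_ (neg_abs_le _)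
      rw [abs_mul, neg_le_neg_iff]
      exact mul_le_mul_of_nonneg_left g1 (abs_nonneg _)
    linarith
  have e3 : s * (α * β) - |s| * η ≤ s * avg N (fun m => min (ρ m) D) := by
    rw [hDρ]
    have : -(|s| * η) ≤ s * (avg N ρ - α * β) := by
      refine le_trans ?_ (neg_abs_le _)
      rw [abs_mul, neg_le_neg_iff]
      exact mul_le_mul_of_nonneg_left (hN₁ N g4) (abs_nonneg _)
    linarith
  have e4 : ∑ k ∈ range n, c k * avg N (fun m => min (ρ m) (t k)) ≤
      ∑ k ∈ range n, c k * TT α β (t k) + (∑ k ∈ range n, c k) * η := by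
    rw [sum_mul, ← sum_add_distrib]
    refine sum_le_sum fun k hk => ?_
    have := mul_le_mul_of_nonneg_left (g2 k hk) (hc k)
    linarith
  have e5 := extremal_comb hα0 hα1 hβ0 hβ1 (φ 0) s D n c t hD1 ht
  have e6 : extremal φ α β ≤
      extremal (fun x => φ 0 + s * min x D - ∑ k ∈ range n, c k * min x (t k)) α β := by
    have h2 : Continuous (fun x : ℝ => ∑ k ∈ range n, c k * min x (t k)) :=
      continuous_finsetSum _ fun k _ => by fun_prop
    refine extremal_mono (by fun_prop) (by fun_prop) hα0 hα1 hβ0 hβ1 fun x hx0 hx1 => ?_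
    exact (happ x hx0 (hx1.trans hD1)).1
  rw [e5] at e6
  have e8 : |φ 0| * η + |s| * η + (∑ k ∈ range n, c k) * η ≤ ε / 4 := by
    rw [← hηB, hB]
    nlinarith
  linarith

end Pool.Agent.Lib.MP_629a14_nt.Kp
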