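import Pool.Agent.Lib.MP_629a14_nt.Kp.Ext

/-! Convex functions on `[0, ∞)`, possibly with a jump at `0`. -/

set_option autoImplicit false

namespace Pool.Agent.Lib.MP_629a14_nt.Kp

open Finset Filter Topology

/-- The indicator function of `0`. It is convex on `[0, ∞)`. -/
noncomputable def z0 (x : ℝ) : ℝ := if x = 0 then 1 else 0

/-! ### Extension of a convex function on `[0, ∞)` to the real line -/

/-- `φ` on `[δ, ∞)`, continued by a linear function with slope `s`. -/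
noncomputable def glue (φ : ℝ → ℝ) (δ s x : ℝ) : ℝ := φ (max x δ) + s * (min x δ - δ)

theorem glue_right (φ : ℝ → ℝ) {δ s x : ℝ} (h : δ ≤ x) : glue φ δ s x = φ x := by
  unfold glue
  rw [max_eq_left h, min_eq_right h]
  ring

theorem glue_left (φ : ℝ → ℝ) {δ s x : ℝ} (h : x ≤ δ) : glue φ δ s x = φ δ + s * (x - δ) := by
  unfold glue
  rw [max_eq_right h, min_eq_left h]

/-- Three points. -/
theorem three {φ : ℝ → ℝ} (hφ : ConvexOn ℝ (Set.Ici 0) φ) {x y z : ℝ} (hx : 0 ≤ x) (hxy : x ≤ y)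
    (hyz : y ≤ z) : (z - x) * φ y ≤ (z - y) * φ x + (y - x) * φ z := by
  rcases eq_or_lt_of_le (hxy.trans hyz) with h | h
  · have h1 : y = x := by linarith
    have h2 : z = x := h.symm
    rw [h1, h2]
    linarith
  · have hzx : 0 < z - x := sub_pos.2 h
    have := hφ.2 (Set.mem_Ici.2 hx) (Set.mem_Ici.2 (hx.trans (hxy.trans hyz)))
      (div_nonneg (sub_nonneg.2 hyz) hzx.le) (div_nonneg (sub_nonneg.2 hxy) hzx.le)
      (by field_simp; ring)
    simp only [smul_eq_mul] at this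
    have e : (z - y) / (z - x) * x + (y - x) / (z - x) * z = y := by
      field_simp
      ring
    rw [e] at this
    have := mul_le_mul_of_nonneg_left this hzx.le
    have e2 : (z - x) * ((z - y) / (z - x) * φ x + (y - x) / (z - x) * φ z) =
        (z - y) * φ x + (y - x) * φ z := by
      field_simp
    rw [e2] at this
    exact this

theorem glue_convex {φ : ℝ → ℝ} (hφ : ConvexOn ℝ (Set.Ici 0) φ) {δ s : ℝ} (hδ : 0 < δ)
    (hs : ∀ y, δ ≤ y → φ δ + s * (y - δ) ≤ φ y) : ConvexOn ℝ Set.univ (glue φ δ s) := by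
  have hmono : ∀ y z, δ ≤ y → y ≤ z → φ y - s * y ≤ φ z - s * z := by
    intro y z hy hyz
    rcases eq_or_lt_of_le hy with h | h
    · have := hs z (hy.trans hyz)
      rw [← h]
      linarith
    · have h1 := three hφ hδ.le hy hyz
      have h2 := hs y hy
      -- (z - δ) φ y ≤ (z - y) φ δ + (y - δ) φ z
      have h3 : (y - δ) * (φ y - s * y) ≤ (y - δ) * (φ z - s * z) := by
        have h4 := mul_le_mul_of_nonneg_left h2 (sub_nonneg.2 hyz)
        nlinarith
      exact le_of_mul_le_mul_left h3 (sub_pos.2 h)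
  have hrep : ∀ x, glue φ δ s x = (φ (max x δ) - s * max x δ) + s * x := by
    intro x
    unfold glue
    rcases le_total x δ with h | h
    · rw [max_eq_right h, min_eq_left h]
      ring
    · rw [max_eq_left h, min_eq_right h]
      ring
  refine ⟨convex_univ, fun x _ y _ a b ha hb hab => ?_⟩
  simp only [smul_eq_mul]
  rw [hrep, hrep x, hrep y]
  have hm : max (a * x + b * y) δ ≤ a * max x δ + b * max y δ := by
    refine max_le ?_ ?_
    · exact add_le_add (mul_le_mul_of_nonneg_left (le_max_left _ _) ha)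
        (mul_le_mul_of_nonneg_left (le_max_left _ _) hb)
    · calc δ = a * δ + b * δ := by rw [← add_mul, hab, one_mul]
        _ ≤ _ := add_le_add (mul_le_mul_of_nonneg_left (le_max_right _ _) ha)
          (mul_le_mul_of_nonneg_left (le_max_right _ _) hb)
  have h1 := hmono _ _ (le_max_right (a * x + b * y) δ) hm
  have h2 := hφ.2 (Set.mem_Ici.2 (hδ.le.trans (le_max_right x δ)))
    (Set.mem_Ici.2 (hδ.le.trans (le_max_right y δ))) ha hb hab
  simp only [smul_eq_mul] at h2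
  nlinarith

/-- The chord over `[0, δ]`. -/
theorem chord_spec {φ : ℝ → ℝ} (hφ : ConvexOn ℝ (Set.Ici 0) φ) {δ : ℝ} (hδ : 0 < δ) :
    (∀ y, δ ≤ y → φ δ + (φ δ - φ 0) / δ * (y - δ) ≤ φ y) ∧
      (∀ y, 0 ≤ y → φ y ≤ glue φ δ ((φ δ - φ 0) / δ) y) ∧
      glue φ δ ((φ δ - φ 0) / δ) 0 = φ 0 := by
  have hd : (φ δ - φ 0) / δ * δ = φ δ - φ 0 := by field_simp
  refine ⟨fun y hy => ?_, fun y hy => ?_, ?_⟩
  · have h1 := three hφ le_rfl hδ.le hy
    have h3 : δ * (φ δ + (φ δ - φ 0) / δ * (y - δ)) ≤ δ * φ y := by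
      have : δ * (φ δ + (φ δ - φ 0) / δ * (y - δ)) =
          δ * φ δ + ((φ δ - φ 0) / δ * δ) * (y - δ) := by ring
      rw [this, hd]
      nlinarith
    exact le_of_mul_le_mul_left h3 hδ
  · rcases le_total δ y with h | h
    · rw [glue_right φ h]
    · rw [glue_left φ h]
      have h1 := three hφ le_rfl hy h
      have h3 : δ * φ y ≤ δ * (φ δ + (φ δ - φ 0) / δ * (y - δ)) := by
        have : δ * (φ δ + (φ δ - φ 0) / δ * (y - δ)) =
            δ * φ δ + ((φ δ - φ 0) / δ * δ) * (y - δ) := by ring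
        rw [this, hd]
        nlinarith
      exact le_of_mul_le_mul_left h3 hδ
  · rw [glue_left φ hδ.le]
    have : φ δ + (φ δ - φ 0) / δ * (0 - δ) = φ δ - (φ δ - φ 0) / δ * δ := by ring
    rw [this, hd]
    ring

/-- A supporting line at `δ`. -/
theorem tangent {φ : ℝ → ℝ} (hφ : ConvexOn ℝ (Set.Ici 0) φ) {δ : ℝ} (hδ : 0 < δ) :
    ∃ s : ℝ, (∀ y, 0 ≤ y → φ δ + s * (y - δ) ≤ φ y) := by
  set S : Set ℝ := {r | ∃ y, δ < y ∧ r = (φ y - φ δ) / (y - δ)} with hS
  have hSne : S.Nonempty := ⟨_, δ + 1, by linarith, rfl⟩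
  have hlow : ∀ x, 0 ≤ x → x < δ → ∀ r ∈ S, (φ δ - φ x) / (δ - x) ≤ r := by
    rintro x hx hxδ r ⟨y, hy, rfl⟩
    rw [div_le_div_iff₀ (by linarith) (by linarith)]
    have := three hφ hx hxδ.le hy.le
    nlinarith
  have hbdd : BddBelow S := ⟨_, fun r hr => hlow 0 le_rfl hδ r hr⟩
  refine ⟨sInf S, fun y hy => ?_⟩
  rcases lt_trichotomy y δ with h | h | h
  · have h1 : (φ δ - φ y) / (δ - y) ≤ sInf S := le_csInf hSne fun r hr => hlow y hy h r hr
    rw [div_le_iff₀ (by linarith)] at h1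
    linarith
  · rw [h]
    simp
  · have h1 : sInf S ≤ (φ y - φ δ) / (y - δ) := csInf_le hbdd ⟨y, h, rfl⟩
    rw [le_div_iff₀ (by linarith)] at h1
    linarith

/-- Bounds on `[0, 1]`. -/
theorem convex_bdd {φ : ℝ → ℝ} (hφ : ConvexOn ℝ (Set.Ici 0) φ) :
    ∃ M : ℝ, 0 ≤ M ∧ ∀ x, 0 ≤ x → x ≤ 1 → |φ x| ≤ M := by
  refine ⟨2 * |φ (1 / 2)| + |φ 0| + |φ 1|, by positivity, fun x hx0 hx1 => ?_⟩
  have hup : ∀ y, 0 ≤ y → y ≤ 1 → φ y ≤ |φ 0| + |φ 1| := by
    intro y h0 h1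
    have := three hφ le_rfl h0 h1
    have h2 := le_abs_self (φ 0)
    have h3 := le_abs_self (φ 1)
    have h4 := abs_nonneg (φ 0)
    have h5 := abs_nonneg (φ 1)
    nlinarith
  have h1 := hup x hx0 hx1
  have h2 := hup (1 - x) (by linarith) (by linarith)
  have h3 : φ (1 / 2) ≤ (φ x + φ (1 - x)) / 2 := by
    have := hφ.2 (Set.mem_Ici.2 hx0) (Set.mem_Ici.2 (by linarith : (0 : ℝ) ≤ 1 - x))
      (by norm_num : (0 : ℝ) ≤ 1 / 2) (by norm_num : (0 : ℝ) ≤ 1 / 2) (by norm_num)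
    simp only [smul_eq_mul] at this
    have e : 1 / 2 * x + 1 / 2 * (1 - x) = (1 / 2 : ℝ) := by ring
    rw [e] at this
    linarith
  have h4 := neg_abs_le (φ (1 / 2))
  have h5 := abs_nonneg (φ (1 / 2))
  rw [abs_le]
  constructor <;> linarith

theorem convex_contOn {φ : ℝ → ℝ} (hφ : ConvexOn ℝ (Set.Ici 0) φ) : ContinuousOn φ (Set.Ioi 0) := by
  have := (hφ.subset Set.Ioi_subset_Ici_self (convex_Ioi 0)).continuousOn isOpen_Ioi
  exact this

/-- Interval integrability in `[0, 1]` for functions which are continuous on `(0, ∞)` and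
bounded on `[0, 1]`. -/
theorem convex_intble {φ : ℝ → ℝ} (hc : ContinuousOn φ (Set.Ioi 0)) {M : ℝ}
    (hM : ∀ x, 0 ≤ x → x ≤ 1 → |φ x| ≤ M) {l m : ℝ} (hl : 0 ≤ l) (hlm : l ≤ m) (hm : m ≤ 1) :
    IntervalIntegrable φ MeasureTheory.volume l m := by
  rw [intervalIntegrable_iff_integrableOn_Ioc_of_le hlm]
  have hsub : Set.Ioc l m ⊆ Set.Ioi 0 := fun x hx => lt_of_le_of_lt hl hx.1
  have hmeas : MeasureTheory.AEStronglyMeasurable φ
      (MeasureTheory.volume.restrict (Set.Ioc l m)) :=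
    (hc.mono hsub).aestronglyMeasurable measurableSet_Ioc
  have hfin : MeasureTheory.IsFiniteMeasure (MeasureTheory.volume.restrict (Set.Ioc l m)) :=
    ⟨by simp⟩
  refine MeasureTheory.Integrable.of_bound hmeas M ?_
  rw [MeasureTheory.ae_restrict_iff' measurableSet_Ioc]
  refine Filter.Eventually.of_forall fun x hx => ?_
  rw [Real.norm_eq_abs]
  exact hM x (hl.trans hx.1.le) (hx.2.trans hm)

/-- Two functions which differ only on `(0, δ)`, and there by at most `M`. -/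
theorem extremal_close {φ χ : ℝ → ℝ} {M M' α β δ : ℝ} (hα0 : 0 ≤ α) (hα1 : α ≤ 1) (hβ0 : 0 ≤ β)
    (hβ1 : β ≤ 1) (hφc : ContinuousOn φ (Set.Ioi 0)) (hχc : ContinuousOn χ (Set.Ioi 0))
    (hφM : ∀ x, 0 ≤ x → x ≤ 1 → |φ x| ≤ M') (hχM : ∀ x, 0 ≤ x → x ≤ 1 → |χ x| ≤ M')
    (hδ : 0 < δ) (hM0 : 0 ≤ M)
    (h0 : χ 0 = φ 0) (hr : ∀ x, δ ≤ x → x ≤ 1 → χ x = φ x)
    (hM : ∀ x, 0 ≤ x → x ≤ 1 → |χ x - φ x| ≤ M)
    (hl : 0 < max 0 (α + β - 1) → δ ≤ max 0 (α + β - 1)) (hm : 0 < min α β → δ ≤ min α β) :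
    |extremal χ α β - extremal φ α β| ≤ 2 * M * δ := by
  have hlh := lo_le_hi hα0 hα1 hβ0 hβ1
  have hl0 : 0 ≤ max 0 (α + β - 1) := le_max_left _ _
  have hh1 : min α β ≤ 1 := (min_le_left _ _).trans hα1
  have e1 : χ (max 0 (α + β - 1)) = φ (max 0 (α + β - 1)) := by
    rcases eq_or_lt_of_le hl0 with h | h
    · rw [← h, h0]
    · exact hr _ (hl h) (hlh.trans hh1)
  have e2 : χ (min α β) = φ (min α β) := by
    rcases eq_or_lt_of_le (le_min hα0 hβ0) with h | h
    · rw [← h, h0]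
    · exact hr _ (hm h) hh1
  unfold extremal
  rw [e1, e2]
  set l : ℝ := max 0 (α + β - 1)
  set m : ℝ := min α β
  have i1 : IntervalIntegrable χ MeasureTheory.volume l m := convex_intble hχc hχM hl0 hlh hh1
  have i2 : IntervalIntegrable φ MeasureTheory.volume l m := convex_intble hφc hφM hl0 hlh hh1
  have key : |∫ x in l..m, (χ x - φ x)| ≤ M * δ := by
    rcases lt_or_ge l δ with hlδ | hlδ
    · set u : ℝ := min (max l δ) m with hu
      have hlu : l ≤ u := le_min (le_max_left _ _) hlh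
      have hum : u ≤ m := min_le_right _ _
      have j1 : IntervalIntegrable (fun x => χ x - φ x) MeasureTheory.volume l u :=
        (convex_intble hχc hχM hl0 hlu (hum.trans hh1)).sub
          (convex_intble hφc hφM hl0 hlu (hum.trans hh1))
      have j2 : IntervalIntegrable (fun x => χ x - φ x) MeasureTheory.volume u m :=
        (convex_intble hχc hχM (hl0.trans hlu) hum hh1).sub
          (convex_intble hφc hφM (hl0.trans hlu) hum hh1)
      rw [← intervalIntegral.integral_add_adjacent_intervals j1 j2]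
      have z : ∫ x in u..m, (χ x - φ x) = 0 := by
        rcases le_total (max l δ) m with h | h
        · have hz : ∀ x ∈ Set.uIcc u m, χ x - φ x = 0 := by
            intro x hx
            rw [Set.uIcc_of_le hum] at hx
            have : δ ≤ u := by
              rw [hu, min_eq_left h]
              exact le_max_right _ _
            rw [hr x (this.trans hx.1) (hx.2.trans hh1), sub_self]
          rw [intervalIntegral.integral_congr hz]
          simp
        · have : u = m := by rw [hu, min_eq_right h]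
          rw [this]
          simp
      rw [z, add_zero]
      have := intervalIntegral.norm_integral_le_of_norm_le_const (a := l) (b := u)
        (f := fun x => χ x - φ x) (C := M) (fun x hx => by
          rw [Set.uIoc_of_le hlu] at hx
          rw [Real.norm_eq_abs]
          exact hM x (hl0.trans hx.1.le) (hx.2.trans (hum.trans hh1)))
      rw [Real.norm_eq_abs] at this
      refine this.trans ?_
      rw [abs_of_nonneg (sub_nonneg.2 hlu)]
      refine mul_le_mul_of_nonneg_left ?_ hM0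
      have : u ≤ max l δ := min_le_left _ _
      rw [max_eq_right hlδ.le] at this
      linarith
    · have hz : ∀ x ∈ Set.uIcc l m, χ x - φ x = 0 := by
        intro x hx
        rw [Set.uIcc_of_le hlh] at hx
        rw [hr x (hlδ.trans hx.1) (hx.2.trans hh1), sub_self]
      rw [intervalIntegral.integral_congr hz]
      simp only [intervalIntegral.integral_zero, abs_zero]
      positivity
  rw [intervalIntegral.integral_sub i1 i2] at key
  have e4 : |1 - α - β| * φ l + |α - β| * φ m + 2 * (∫ x in l..m, χ x) -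
      (|1 - α - β| * φ l + |α - β| * φ m + 2 * ∫ x in l..m, φ x) =
      2 * ((∫ x in l..m, χ x) - ∫ x in l..m, φ x) := by ring
  rw [e4, abs_mul, abs_of_pos (by norm_num : (0 : ℝ) < 2)]
  linarith

/-- A choice of `δ`. -/
theorem choose_delta {α β M ε : ℝ} (hM : 0 ≤ M) (hε : 0 < ε) :
    ∃ δ : ℝ, 0 < δ ∧ δ ≤ 1 / 2 ∧ 2 * M * δ ≤ ε ∧
      (0 < max 0 (α + β - 1) → δ ≤ max 0 (α + β - 1)) ∧ (0 < min α β → δ ≤ min α β) := by
  have h1 : ∀ᶠ δ : ℝ in 𝓝[>] (0 : ℝ), 0 < δ := eventually_mem_nhdsWithin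
  have hlt : ∀ c : ℝ, 0 < c → ∀ᶠ δ : ℝ in 𝓝[>] (0 : ℝ), δ ≤ c := fun c hc =>
    (eventually_le_nhds hc).filter_mono nhdsWithin_le_nhds
  have h2 := hlt (1 / 2) (by norm_num)
  have h3 := hlt (ε / (2 * M + 1)) (by positivity)
  have h4 : ∀ᶠ δ : ℝ in 𝓝[>] (0 : ℝ), 0 < max 0 (α + β - 1) → δ ≤ max 0 (α + β - 1) := by
    by_cases h : 0 < max 0 (α + β - 1)
    · exact (hlt _ h).mono fun δ hδ _ => hδ
    · exact Eventually.of_forall fun δ hδ => absurd hδ h
  have h5 : ∀ᶠ δ : ℝ in 𝓝[>] (0 : ℝ), 0 < min α β → δ ≤ min α β := by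
    by_cases h : 0 < min α β
    · exact (hlt _ h).mono fun δ hδ _ => hδ
    · exact Eventually.of_forall fun δ hδ => absurd hδ h
  obtain ⟨δ, g1, g2, g3, g4, g5⟩ := (h1.and (h2.and (h3.and (h4.and h5)))).exists
  refine ⟨δ, g1, g2, ?_, g4, g5⟩
  rw [le_div_iff₀ (by positivity)] at g3
  nlinarith

theorem glue_contOn {φ : ℝ → ℝ} (hφ : ConvexOn ℝ (Set.Ici 0) φ) {δ s : ℝ} (hδ : 0 < δ)
    (hs : ∀ y, δ ≤ y → φ δ + s * (y - δ) ≤ φ y) : Continuous (glue φ δ s) := by
  rw [← continuousOn_univ]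
  exact (glue_convex hφ hδ hs).continuousOn isOpen_univ

/-- Proof. On `[0, ∞)` we have `φ ≤ glue φ δ s` with the chord slope `s` over `[0, δ]`, with equality
at `0` and on `[δ, ∞)`; use `convex_upper` for this function and let `δ → 0`. -/
theorem convex_upper0 {ρ : ℕ → ℝ} {C α β : ℝ} (h0 : ∀ n, 0 ≤ ρ n) (hC : ∀ n, ρ n ≤ C)
    (hα0 : 0 ≤ α) (hα1 : α ≤ 1) (hβ0 : 0 ≤ β) (hβ1 : β ≤ 1)
    (hmean : ∀ ε : ℝ, 0 < ε → ∃ N₀ : ℕ, ∀ N : ℕ, N₀ ≤ N → avg N ρ ≤ α * β + ε)
    (htr : ∀ t : ℝ, 0 ≤ t → t ≤ α → t ≤ β → ∀ ε : ℝ, 0 < ε → ∃ N₀ : ℕ, ∀ N : ℕ, N₀ ≤ N →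
      t * min 1 (α + β - t) - ε ≤ avg N (fun n => min (ρ n) t))
    (φ : ℝ → ℝ) (hφ : ConvexOn ℝ (Set.Ici 0) φ) (ε : ℝ) (hε : 0 < ε) :
    ∃ N₀ : ℕ, ∀ N : ℕ, N₀ ≤ N → avg N (fun n => φ (ρ n)) ≤ extremal φ α β + ε := by
  obtain ⟨M, hM0, hM⟩ := convex_bdd hφ
  obtain ⟨δ, hδ, hδ1, hδε, hl, hm⟩ :=
    choose_delta (α := α) (β := β) (M := 2 * M) (ε := ε / 2) (by positivity) (by positivity)
  obtain ⟨c1, c2, c3⟩ := chord_spec hφ hδ
  set s : ℝ := (φ δ - φ 0) / δ with hs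
  have hgM : ∀ x, 0 ≤ x → x ≤ 1 → |glue φ δ s x| ≤ M := by
    intro x hx0 hx1
    rcases le_total δ x with h | h
    · rw [glue_right φ h]
      exact hM x hx0 hx1
    · rw [glue_left φ h]
      have e : φ δ + s * (x - δ) = (1 - x / δ) * φ 0 + x / δ * φ δ := by
        rw [hs]
        field_simp
        ring
      have hxd0 : 0 ≤ x / δ := by positivity
      have hxd1 : x / δ ≤ 1 := (div_le_one hδ).2 h
      have b0 := abs_le.1 (hM 0 le_rfl zero_le_one)
      have b1 := abs_le.1 (hM δ hδ.le (by linarith))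
      rw [e, abs_le]
      constructor <;> nlinarith
  have hclose := extremal_close (M := 2 * M) (M' := M) hα0 hα1 hβ0 hβ1 (convex_contOn hφ)
    (glue_contOn hφ hδ c1).continuousOn hM hgM hδ (by positivity) c3
    (fun x hx _ => glue_right φ hx) (fun x hx0 hx1 => by
      refine (abs_sub _ _).trans ?_
      have := hM x hx0 hx1
      have := hgM x hx0 hx1
      linarith) hl hm
  obtain ⟨N₀, hN₀⟩ := convex_upper h0 hC hα0 hα1 hβ0 hβ1 hmean htr (glue φ δ s)
    (glue_convex hφ hδ c1) (ε / 2) (by positivity)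
  refine ⟨N₀, fun N hN => ?_⟩
  have h1 := hN₀ N hN
  have h2 : avg N (fun n => φ (ρ n)) ≤ avg N (fun n => glue φ δ s (ρ n)) :=
    avg_mono N fun n => c2 _ (h0 n)
  have h3 := (abs_le.1 hclose).2
  linarith

/-- The same proof, with a supporting line at `δ`, and `hz`. -/
theorem convex_lower0 {ρ : ℕ → ℝ} {C α β : ℝ} (h0 : ∀ n, 0 ≤ ρ n) (hC : ∀ n, ρ n ≤ C)
    (hα0 : 0 ≤ α) (hα1 : α ≤ 1) (hβ0 : 0 ≤ β) (hβ1 : β ≤ 1)
    (hmean : ∀ ε : ℝ, 0 < ε → ∃ N₀ : ℕ, ∀ N : ℕ, N₀ ≤ N → |avg N ρ - α * β| ≤ ε)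
    (htr : ∀ t : ℝ, 0 ≤ t → t ≤ α → t ≤ β → ∀ ε : ℝ, 0 < ε → ∃ N₀ : ℕ, ∀ N : ℕ, N₀ ≤ N →
      avg N (fun n => min (ρ n) t) ≤ t * min 1 (α + β - t) + ε)
    (hz : ∀ ε : ℝ, 0 < ε → ∃ N₀ : ℕ, ∀ N : ℕ, N₀ ≤ N →
      extremal z0 α β - ε ≤ avg N (fun n => z0 (ρ n)))
    (φ : ℝ → ℝ) (hφ : ConvexOn ℝ (Set.Ici 0) φ) (ε : ℝ) (hε : 0 < ε) :
    ∃ N₀ : ℕ, ∀ N : ℕ, N₀ ≤ N → extremal φ α β - ε ≤ avg N (fun n => φ (ρ n)) := by
  obtain ⟨M, hM0, hM⟩ := convex_bdd hφ
  obtain ⟨δ, hδ, hδ1, hδε, hl, hm⟩ :=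
    choose_delta (α := α) (β := β) (M := 8 * M) (ε := ε / 4) (by positivity) (by positivity)
  obtain ⟨s, hs⟩ := tangent hφ hδ
  have hs' : ∀ y, δ ≤ y → φ δ + s * (y - δ) ≤ φ y := fun y hy => hs y (hδ.le.trans hy)
  set J : ℝ := φ 0 - glue φ δ s 0 with hJ
  have hg0 : glue φ δ s 0 = φ δ + s * (0 - δ) := glue_left φ hδ.le
  have hJ0 : 0 ≤ J := by
    rw [hJ, hg0]
    linarith [hs 0 le_rfl]
  -- bound of the slope
  have hs2 : s ≤ 4 * M := by
    have h1 := hs 1 zero_le_one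
    have b0 := abs_le.1 (hM 1 zero_le_one le_rfl)
    have b1 := abs_le.1 (hM δ hδ.le (by linarith))
    by_contra hcon
    push Not at hcon
    nlinarith
  have hgM : ∀ x, 0 ≤ x → x ≤ 1 → |glue φ δ s x| ≤ 3 * M := by
    intro x hx0 hx1
    rcases le_total δ x with h | h
    · rw [glue_right φ h]
      linarith [hM x hx0 hx1]
    · rw [glue_left φ h]
      have b0 := abs_le.1 (hM x hx0 hx1)
      have b1 := abs_le.1 (hM δ hδ.le (by linarith))
      have h1 := hs x hx0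
      rw [abs_le]
      constructor
      · have : s * (δ - x) ≤ 4 * M * (δ - x) := mul_le_mul_of_nonneg_right hs2 (by linarith)
        nlinarith
      · linarith
  have hJM : J ≤ 4 * M := by
    have b0 := abs_le.1 (hM 0 le_rfl zero_le_one)
    have b1 := abs_le.1 (hgM 0 le_rfl zero_le_one)
    linarith
  set χ : ℝ → ℝ := fun x => glue φ δ s x + J * z0 x with hχ
  have hz0 : ∀ x, x ≠ 0 → z0 x = 0 := fun x hx => by simp [z0, hx]
  have hzz : z0 0 = 1 := by simp [z0]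
  have hχc : ContinuousOn χ (Set.Ioi 0) := by
    refine (glue_contOn hφ hδ hs').continuousOn.congr fun x hx => ?_
    simp only [hχ]
    rw [hz0 x (ne_of_gt hx), mul_zero, add_zero]
  have hzb : ∀ x, 0 ≤ z0 x ∧ z0 x ≤ 1 := by
    intro x
    unfold z0
    split_ifs <;> norm_num
  have hχM : ∀ x, 0 ≤ x → x ≤ 1 → |χ x| ≤ 7 * M := by
    intro x hx0 hx1
    have b1 := abs_le.1 (hgM x hx0 hx1)
    have b2 := hzb x
    have b3 : 0 ≤ J * z0 x := mul_nonneg hJ0 b2.1
    have b4 : J * z0 x ≤ 4 * M := by nlinarith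
    simp only [hχ]
    rw [abs_le]
    constructor <;> linarith
  have hχ0 : χ 0 = φ 0 := by
    simp only [hχ]
    rw [hzz, hJ]
    ring
  have hclose := extremal_close (M := 8 * M) (M' := 7 * M) hα0 hα1 hβ0 hβ1 (convex_contOn hφ)
    hχc (fun x hx0 hx1 => by linarith [hM x hx0 hx1]) hχM hδ (by positivity) hχ0
    (fun x hx _ => by
      simp only [hχ]
      rw [glue_right φ hx, hz0 x (ne_of_gt (hδ.trans_le hx)), mul_zero, add_zero])
    (fun x hx0 hx1 => by
      refine (abs_sub _ _).trans ?_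
      have := hM x hx0 hx1
      have := hχM x hx0 hx1
      linarith) hl hm
  have hadd : extremal χ α β = extremal (glue φ δ s) α β + J * extremal z0 α β := by
    have hlh := lo_le_hi hα0 hα1 hβ0 hβ1
    have hl0 : 0 ≤ max 0 (α + β - 1) := le_max_left _ _
    have hh1 : min α β ≤ 1 := (min_le_left _ _).trans hα1
    have i1 : IntervalIntegrable (glue φ δ s) MeasureTheory.volume (max 0 (α + β - 1)) (min α β) :=
      (glue_contOn hφ hδ hs').intervalIntegrable _ _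
    have i2 : IntervalIntegrable z0 MeasureTheory.volume (max 0 (α + β - 1)) (min α β) := by
      refine convex_intble (M := 1) ?_ (fun x _ _ => ?_) hl0 hlh hh1
      · refine (continuousOn_const (c := (0 : ℝ))).congr fun x hx => hz0 x (ne_of_gt hx)
      · have := hzb x
        rw [abs_le]
        constructor <;> linarith
    unfold extremal
    simp only [hχ]
    rw [intervalIntegral.integral_add i1 (i2.const_mul J), intervalIntegral.integral_const_mul]
    ring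
  obtain ⟨N₁, hN₁⟩ := convex_lower h0 hC hα0 hα1 hβ0 hβ1 hmean htr (glue φ δ s)
    (glue_convex hφ hδ hs') (ε / 4) (by positivity)
  obtain ⟨N₂, hN₂⟩ := hz (ε / (4 * (4 * M + 1))) (by positivity)
  refine ⟨max N₁ N₂, fun N hN => ?_⟩
  have h1 := hN₁ N ((le_max_left _ _).trans hN)
  have h2 := hN₂ N ((le_max_right _ _).trans hN)
  have h3 : avg N (fun n => glue φ δ s (ρ n)) + J * avg N (fun n => z0 (ρ n)) ≤
      avg N (fun n => φ (ρ n)) := by
    rw [← avg_mul, ← avg_add]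
    refine avg_mono N fun n => ?_
    rcases eq_or_lt_of_le (h0 n) with h | h
    · rw [← h]
      change χ 0 ≤ φ 0
      rw [hχ0]
    · rw [hz0 _ (ne_of_gt h), mul_zero, add_zero]
      rcases le_total δ (ρ n) with h' | h'
      · rw [glue_right φ h']
      · rw [glue_left φ h']
        exact hs _ (h0 n)
  have h4 := (abs_le.1 hclose).1
  rw [hadd] at h4
  have h5 : J * (extremal z0 α β - ε / (4 * (4 * M + 1))) ≤ J * avg N (fun n => z0 (ρ n)) :=
    mul_le_mul_of_nonneg_left h2 hJ0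
  have h6 : J * (ε / (4 * (4 * M + 1))) ≤ ε / 4 := by
    have h7 : J * (ε / (4 * (4 * M + 1))) ≤ (4 * M + 1) * (ε / (4 * (4 * M + 1))) :=
      mul_le_mul_of_nonneg_right (by linarith) (by positivity)
    have h8 : (4 * M + 1) * (ε / (4 * (4 * M + 1))) = ε / 4 := by
      have : (4 * M + 1) ≠ 0 := by positivity
      field_simp
    linarith
  linarith

end Pool.Agent.Lib.MP_629a14_nt.Kp
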