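import Pool.Agent.Lib.MP_629a14_nt.Kp.SArch

/-! The localisation of the kernel at the multiples of `W`. -/

set_option autoImplicit false

namespace Pool.Agent.Lib.MP_629a14_nt.Kp

open Finset Pool.Agent.Lib.MP_629a14_nt Pool.Agent.Lib.MP_629a14_nt.Ml

private theorem GArch2_cos (x d : ℝ) (hd : 0 ≤ d) (h1 : d ≤ x) (h2 : x ≤ 1 - d) :
    8 * d ^ 2 ≤ 1 - (ee x).re := by
  have h3 : (ee x).re = Real.cos (2 * (Real.pi * x)) := by
    unfold ee
    have h4 : (2 * Real.pi * x * Complex.I : ℂ) = ((2 * (Real.pi * x) : ℝ) : ℂ) * Complex.I := by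
      push_cast
      ring
    rw [h4, Complex.exp_ofReal_mul_I_re]
  have hpi := Real.pi_pos
  have h5 : 2 * d ≤ Real.sin (Real.pi * x) := by
    rcases le_total x (1 / 2) with h | h
    · have a1 : 0 ≤ Real.pi * x := mul_nonneg hpi.le (by linarith)
      have a2 : Real.pi * x ≤ Real.pi * (1 / 2) := mul_le_mul_of_nonneg_left h hpi.le
      have h6 := Real.mul_le_sin (x := Real.pi * x) a1 (by linarith)
      have h7 : 2 / Real.pi * (Real.pi * x) = 2 * x := by field_simp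
      rw [h7] at h6
      linarith
    · have a1 : 0 ≤ Real.pi * (1 - x) := mul_nonneg hpi.le (by linarith)
      have a2 : Real.pi * (1 - x) ≤ Real.pi * (1 / 2) :=
        mul_le_mul_of_nonneg_left (by linarith) hpi.le
      have h6 := Real.mul_le_sin (x := Real.pi * (1 - x)) a1 (by linarith)
      have h7 : 2 / Real.pi * (Real.pi * (1 - x)) = 2 * (1 - x) := by field_simp
      have h8 : Real.pi * (1 - x) = Real.pi - Real.pi * x := by ring
      rw [h7, h8, Real.sin_pi_sub] at h6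
      linarith
  rw [h3, Real.cos_two_mul]
  have h9 := Real.sin_sq_add_cos_sq (Real.pi * x)
  have h10 := mul_self_le_mul_self (by linarith : (0 : ℝ) ≤ 2 * d) h5
  linarith [sq (Real.sin (Real.pi * x)), sq d]

/-- A real number at distance `≥ d` from the integers. -/
private theorem GArch2_dist (x d : ℝ) (hd : 0 ≤ d) (h : ∀ n : ℤ, d ≤ |x - n|) :
    8 * d ^ 2 ≤ 1 - (ee x).re := by
  have e : ee x = ee (Int.fract x) := by
    have h := Int.floor_add_fract x
    conv_lhs => rw [← h]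
    rw [ee_add, ee_int, one_mul]
  rw [e]
  have h0 := Int.fract_nonneg x
  have h1 := (Int.fract_lt_one x).le
  have hf := Int.floor_add_fract x
  refine GArch2_cos _ d hd ?_ ?_
  · have h2 := h ⌊x⌋
    have e1 : x - (⌊x⌋ : ℝ) = Int.fract x := by linarith
    rwa [e1, abs_of_nonneg h0] at h2
  · have h2 := h (⌊x⌋ + 1)
    have e1 : x - ((⌊x⌋ + 1 : ℤ) : ℝ) = -(1 - Int.fract x) := by push_cast; linarith
    rw [e1, abs_neg, abs_of_nonneg (by linarith)] at h2
    linarith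

/-- The distance from the integers of `j u / X` if `W` does not divide `u` and `u < ζ X`. -/
private theorem GArch2_u (X W j u : ℕ) (hX : 0 < X) (hW : 1 ≤ W)
    (hj : |(j : ℝ) - (X : ℝ) / W| ≤ 1 / 2) (ζ : ℝ) (hζ' : ζ ≤ 1 / W)
    (hu : (u : ℝ) < ζ * X) (hWu : ¬ W ∣ u) (n : ℤ) :
    1 / (2 * (W : ℝ)) ≤ |(j : ℝ) * u / X - n| := by
  have hXr : (0 : ℝ) < X := by exact_mod_cast hX
  have hWr : (0 : ℝ) < W := by exact_mod_cast hW
  have h1 : |(j : ℝ) * u / X - u / W| ≤ 1 / (2 * (W : ℝ)) := by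
    have e1 : (j : ℝ) * u / X - u / W = ((j : ℝ) - (X : ℝ) / W) * (u / X) := by
      field_simp
    have hu0 : (0 : ℝ) ≤ u := Nat.cast_nonneg u
    rw [e1, abs_mul, abs_of_nonneg (div_nonneg hu0 hXr.le)]
    have h2 : (u : ℝ) / X ≤ 1 / W := by
      rw [div_le_iff₀ hXr]
      exact hu.le.trans (mul_le_mul_of_nonneg_right hζ' hXr.le)
    calc |(j : ℝ) - (X : ℝ) / W| * (u / X) ≤ 1 / 2 * (1 / W) :=
          mul_le_mul hj h2 (div_nonneg hu0 hXr.le) (by norm_num)
      _ = 1 / (2 * (W : ℝ)) := by rw [div_mul_div_comm, one_mul]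
  have h3 : 1 / (W : ℝ) ≤ |(u : ℝ) / W - n| := by
    have e2 : (u : ℝ) / W - n = (((u : ℤ) - n * W : ℤ) : ℝ) / W := by
      push_cast
      field_simp
    rw [e2, abs_div, abs_of_pos hWr]
    refine div_le_div_of_nonneg_right ?_ hWr.le
    have h4 : (u : ℤ) - n * W ≠ 0 := by
      intro h5
      apply hWu
      have h6 : (W : ℤ) ∣ (u : ℤ) := ⟨n, by rw [mul_comm]; linarith⟩
      exact_mod_cast h6
    have h7 := Int.one_le_abs h4
    rw [← Int.cast_abs]
    exact_mod_cast h7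
  have h8 : |(u : ℝ) / W - n| ≤ |(u : ℝ) / W - (j : ℝ) * u / X| + |(j : ℝ) * u / X - n| :=
    abs_sub_le _ _ _
  rw [abs_sub_comm ((u : ℝ) / W) ((j : ℝ) * u / X)] at h8
  have e3 : 1 / (W : ℝ) = 1 / (2 * (W : ℝ)) + 1 / (2 * (W : ℝ)) := by
    field_simp
    norm_num
  linarith

/-- Compare `far_mass`. If `t < ζ X` and `W` does not divide `t` then `j t / X` differs from `t / W`
by at most `ζ / 2 ≤ 1 / (2 W)`, so that its distance from the integers is at least `1 / (2 W)` and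
`1 - cos (2 π j t / X) ≥ 8 (1 / (2 W)) ^ 2 = 2 / W ^ 2`. If `t > (1 - ζ) X` use
`j t / X = j - j (X - t) / X`. -/
theorem near_mass (v w M : ℕ) [NeZero M] (hvw : v ≤ w) (hM : M.Coprime (primorial w)) {J : ℕ}
    (a : Fin J → Gp (mo v w M)) (lam : ℝ) (hlam : 0 < lam) (E : Finset (Ix v w)) (i : Fin J)
    (W j : ℕ) (hW : 1 ≤ W) (hj : |(j : ℝ) - (XX w M : ℝ) / W| ≤ 1 / 2)
    (hi : ∀ t : ℕ, primorial v ∣ t →
      psi (a i * red v w M t) = ee ((j : ℝ) * t / (XX w M : ℝ)))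
    (ζ : ℝ) (hζ : 0 ≤ ζ) (hζ' : ζ ≤ 1 / W) :
    ∑ t ∈ (fib v w M 0).filter (fun t : ℕ => ((t : ℝ) < ζ * XX w M ∧ ¬ W ∣ t) ∨
        ((1 - ζ) * XX w M < t ∧ ¬ W ∣ XX w M - t)),
      ka a lam E (red v w M t) ≤ Real.log (1 / ZZ a lam E) / lam * ((W : ℝ) ^ 2 / 2) := by
  have hXpos : 0 < XX w M := by
    unfold XX
    exact Nat.mul_pos (primorial_pos w) (NeZero.pos M)
  have hX : (0 : ℝ) < (XX w M : ℝ) := by exact_mod_cast hXpos
  have hWr : (0 : ℝ) < W := by exact_mod_cast hW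
  have h1 : ∑ t ∈ fib v w M 0, ka a lam E (red v w M t) * (1 - (psi (a i * red v w M t)).re) =
      ∑ g, ka a lam E g * (1 - (psi (a i * g)).re) := by
    have h := sum_fib v w M 0 hvw hM
      (fun g => ((ka a lam E g * (1 - (psi (a i * g)).re) : ℝ) : ℂ))
    rw [← Complex.ofReal_sum, ← Complex.ofReal_sum] at h
    exact_mod_cast h
  have h2 : ∑ g, ka a lam E g * (1 - (psi (a i * g)).re) ≤ Real.log (1 / ZZ a lam E) / lam := by
    refine le_trans (sum_le_sum (g := fun s => ka a lam E s * QQ a s) fun s _ => ?_)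
      (EQ_le a lam hlam E)
    refine mul_le_mul_of_nonneg_left ?_ (ka_nonneg a lam E s)
    unfold QQ
    exact single_le_sum (f := fun j => 1 - (psi (a j * s)).re)
      (fun i _ => sub_nonneg.2 (re_psi_le _)) (mem_univ i)
  have h3 : (∑ t ∈ (fib v w M 0).filter (fun t : ℕ => ((t : ℝ) < ζ * XX w M ∧ ¬ W ∣ t) ∨
        ((1 - ζ) * XX w M < t ∧ ¬ W ∣ XX w M - t)),
      ka a lam E (red v w M t)) * (2 / (W : ℝ) ^ 2) ≤ Real.log (1 / ZZ a lam E) / lam := by
    rw [sum_mul]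
    refine le_trans ?_ (h1.le.trans h2)
    refine (sum_le_sum (g := fun t => ka a lam E (red v w M t) *
      (1 - (psi (a i * red v w M t)).re)) fun t ht => ?_).trans
      (sum_le_sum_of_subset_of_nonneg (filter_subset _ _) fun t _ _ =>
        mul_nonneg (ka_nonneg a lam E _) (sub_nonneg.2 (re_psi_le _)))
    rw [mem_filter] at ht
    obtain ⟨ht0, ht1⟩ := ht
    refine mul_le_mul_of_nonneg_left ?_ (ka_nonneg a lam E _)
    unfold fib at ht0
    rw [mem_filter] at ht0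
    rw [hi t ((Nat.modEq_zero_iff_dvd).1 ht0.2)]
    have e1 : 2 / (W : ℝ) ^ 2 = 8 * (1 / (2 * (W : ℝ))) ^ 2 := by
      field_simp
      norm_num
    rw [e1]
    refine GArch2_dist _ _ (by positivity) fun n => ?_
    rcases ht1 with ⟨a1, a2⟩ | ⟨a1, a2⟩
    · exact GArch2_u (XX w M) W j t hXpos hW hj ζ hζ' a1 a2 n
    · have htX : t ≤ XX w M := by
        have := ht0.1
        simp only [mem_Icc] at this
        omega
      have hu : ((XX w M - t : ℕ) : ℝ) < ζ * XX w M := by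
        rw [Nat.cast_sub htX]
        linarith
      have h4 := GArch2_u (XX w M) W j (XX w M - t) hXpos hW hj ζ hζ' hu a2 ((j : ℤ) - n)
      rw [Nat.cast_sub htX] at h4
      have e2 : (j : ℝ) * ((XX w M : ℝ) - t) / (XX w M : ℝ) - (((j : ℤ) - n : ℤ) : ℝ) =
          -((j : ℝ) * t / (XX w M : ℝ) - n) := by
        push_cast
        field_simp
        ring
      rwa [e2, abs_neg] at h4
  have h5 : (∑ t ∈ (fib v w M 0).filter (fun t : ℕ => ((t : ℝ) < ζ * XX w M ∧ ¬ W ∣ t) ∨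
        ((1 - ζ) * XX w M < t ∧ ¬ W ∣ XX w M - t)),
      ka a lam E (red v w M t)) ≤ Real.log (1 / ZZ a lam E) / lam / (2 / (W : ℝ) ^ 2) := by
    rw [le_div_iff₀ (by positivity)]
    exact h3
  refine h5.trans (le_of_eq ?_)
  rw [div_div_eq_mul_div, mul_div_assoc]

end Pool.Agent.Lib.MP_629a14_nt.Kp
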