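import Pool.Agent.Lib.MP_629a14_nt.Kp.SArch
import Pool.Agent.Lib.MP_629a14_nt.Kp.GArch2

/-! A second character (the localisation of the kernel at the multiples of `W` is in `GArch2`). -/

set_option autoImplicit false

namespace Pool.Agent.Lib.MP_629a14_nt.Kp

open Finset Pool.Agent.Lib.MP_629a14_nt Pool.Agent.Lib.MP_629a14_nt.Ml

/-- Take `b1` from `arch_char`, `j` the integer next to `X / W` (`≥ 0`), `b2 = j • b1`. -/
theorem rat_char (v w M : ℕ) [NeZero M] (hvw : v ≤ w) (hM : M.Coprime (primorial w)) (W : ℕ)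
    (hW : 1 ≤ W) : ∃ (b2 : Gp (mo v w M)) (j : ℕ), |(j : ℝ) - (XX w M : ℝ) / W| ≤ 1 / 2 ∧
      ∀ t : ℕ, primorial v ∣ t →
        psi (b2 * red v w M t) = ee ((j : ℝ) * t / (XX w M : ℝ)) := by
  obtain ⟨b1, hb1⟩ := arch_char v w M hvw hM
  have hx0 : (0 : ℝ) ≤ (XX w M : ℝ) / W := by positivity
  refine ⟨(⌊(XX w M : ℝ) / W + 1 / 2⌋₊ : ℕ) • b1, ⌊(XX w M : ℝ) / W + 1 / 2⌋₊, ?_,
    fun t ht => ?_⟩
  · have h1 := Nat.floor_le (a := (XX w M : ℝ) / W + 1 / 2) (by linarith)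
    have h2 := Nat.lt_floor_add_one ((XX w M : ℝ) / W + 1 / 2)
    rw [abs_le]
    constructor <;> linarith
  · rw [smul_mul_assoc]
    generalize ⌊(XX w M : ℝ) / W + 1 / 2⌋₊ = j
    induction j with
    | zero => simp [psi_zero, ee]
    | succ j ih =>
      rw [succ_nsmul, psi_add, ih, hb1 t ht, ← ee_add]
      congr 1
      push_cast
      ring

end Pool.Agent.Lib.MP_629a14_nt.Kp
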