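import Pool.Agent.Lib.MP_629a14_nt.Kp.Defs
import Pool.Agent.Lib.MP_629a14_nt.Kp.Ext

/-! Definitions for the rearrangement inequality for Goldbach counts: sets of primes with given
relative densities in the residue classes. -/

set_option autoImplicit false

namespace Pool.Agent.Lib.MP_629a14_nt.Kp

open Finset Filter Topology Pool.Agent.Lib.MP_629a14_nt Pool.Agent.Lib.MP_629a14_nt.Rob

/-- `A` has relative density `al (a % W)` in every reduced residue class `a` modulo every multiple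
`q` of `W`. -/
def HasProfile (A : Set ℕ) (W : ℕ) (al : ℕ → ℝ) : Prop :=
  ∀ q a : ℕ, 1 ≤ q → W ∣ q → a.Coprime q →
    Tendsto (fun x : ℕ => (primesIn A q a x : ℝ) / primesIn Set.univ q a x) atTop (𝓝 (al (a % W)))

/-- Compare `Loc`: the mean on the class `b` is `al (b % W)`. -/
structure LocP (W V R Q N : ℕ) (al : ℕ → ℝ) (ε : ℝ) (f : ℕ → ℝ) : Prop where
  nonneg : ∀ x, 0 ≤ f x
  le : ∀ x, f x ≤ 1 + ε
  supp : ∀ x, ¬ x.Coprime V → f x = 0
  per : ∀ x, |f (x + R * Q) - f x| ≤ ε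
  mean : ∀ x₀ b : ℕ, ε * N ≤ x₀ → (x₀ : ℝ) + R * Q ≤ (1 - ε) * N → b.Coprime V → b.Coprime W →
    |∑ x ∈ (Ico x₀ (x₀ + R * Q)).filter (fun x => x ≡ b [MOD R]), f x - al (b % W) * Q| ≤ ε * Q

/-- Compare `Struc`. -/
def StrucP (W v N : ℕ) (A B : Set ℕ) (al be : ℕ → ℝ) (ε : ℝ) : Prop :=
  ∃ R Q : ℕ, primorial v ∣ R ∧ W ∣ R ∧ 1 ≤ R ∧ 1 ≤ Q ∧ (∀ p : ℕ, p.Prime → p ∣ Q → v < p) ∧
    (R : ℝ) * Q ≤ ε * N ∧ ∃ f g : ℕ → ℝ,
      LocP W (primorial v) R Q N al ε f ∧ LocP W (primorial v) R Q N be ε g ∧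
      (((Icc 1 N).filter (fun n => Even n ∧ ε < |rho A B n - model v f g n|)).card : ℝ) ≤ ε * N

/-- The classes `r` modulo `W` with `r` and `c - r` coprime to `W`. -/
def adm (W c : ℕ) : Finset ℕ := (range W).filter (fun r => r.Coprime W ∧ (c + W - r).Coprime W)

/-- The mean value over the `n ≤ N` in the class `c` modulo `W`. -/
noncomputable def avgc (W c N : ℕ) (h : ℕ → ℝ) : ℝ :=
  (W : ℝ) / N * ∑ n ∈ (Icc 1 N).filter (fun n => n ≡ c [MOD W]), h n

/-- The mean of `G r (al r) (be (c - r))` over the admissible classes `r`. -/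
noncomputable def prs (W c : ℕ) (al be : ℕ → ℝ) (G : ℕ → ℝ → ℝ → ℝ) : ℝ :=
  (∑ r ∈ adm W c, G r (al r) (be ((c + W - r) % W))) / (adm W c).card

/-- The convolution of the indicator functions of the centred arcs of lengths `a`, `b` of the circle
of length one, at a point of absolute value `x ≤ 1 / 2`. -/
noncomputable def trap (a b x : ℝ) : ℝ := min (min a b) (max (max 0 (a + b - 1)) ((a + b) / 2 - x))

/-- The law of the counts for centred arcs. -/
noncomputable def rearr (W c : ℕ) (al be : ℕ → ℝ) (φ : ℝ → ℝ) : ℝ :=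
  2 * ∫ x in (0 : ℝ)..(1 / 2), φ (prs W c al be (fun _ a b => trap a b x))

/-- The set of the `p` with `√2 p` at distance less than `al (p mod W) / 2` from the integers. -/
def star (W : ℕ) (al : ℕ → ℝ) : Set ℕ :=
  {p : ℕ | |Real.sqrt 2 * p - round (Real.sqrt 2 * p)| < al (p % W) / 2}

end Pool.Agent.Lib.MP_629a14_nt.Kp
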