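import Pool.Agent.Lib.MP_629a14_nt.Kp.SDefs
import Pool.Agent.Lib.MP_629a14_nt.Kp.PfDefs

/-! Definitions for the structure theorem for arbitrary sets of primes. -/

set_option autoImplicit false

namespace Pool.Agent.Lib.MP_629a14_nt.Kp

open Finset Filter Topology Pool.Agent.Lib.MP_629a14_nt Pool.Agent.Lib.MP_629a14_nt.Rob
open Pool.Agent.Lib.MP_629a14_nt.Ml

open Classical in
/-- The number of primes `p ∈ A` with `x ≤ p < y` in the class `b` modulo `R`. -/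
noncomputable def cntI (A : Set ℕ) (R : ℕ) (x y b : ℤ) : ℕ :=
  ((range y.toNat).filter (fun p : ℕ => p.Prime ∧ p ∈ A ∧ x ≤ (p : ℤ) ∧ (p : ℤ) ≡ b [ZMOD R])).card

/-- The function `f` is nonnegative, at most `1 + ε`, supported on the integers coprime to `V`,
nearly periodic with period `R * Q`, and its mean on a class modulo `R` in a block of length `R * Q`
is an average over shifts of the normalised numbers of primes `p ∈ A`. -/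
structure LocG (V R Q N : ℕ) (T : Finset ℕ) (κ : ℕ → ℝ) (τ : ℕ → ℤ) (A : Set ℕ) (k ε : ℝ)
    (f : ℕ → ℝ) : Prop where
  nonneg : ∀ x, 0 ≤ f x
  le : ∀ x, f x ≤ 1 + ε
  supp : ∀ x, ¬ x.Coprime V → f x = 0
  per : ∀ x, |f (x + R * Q) - f x| ≤ ε
  mean : ∀ x₀ b : ℕ, ε * N ≤ x₀ → (x₀ : ℝ) + R * Q ≤ (1 - ε) * N → b.Coprime V →
    |∑ x ∈ (Ico x₀ (x₀ + R * Q)).filter (fun x => x ≡ b [MOD R]), f x -
      Real.log N / k * ∑ t ∈ T, κ t *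
        (cntI A R (x₀ + τ t) (x₀ + τ t + R * Q) (b + τ t) : ℝ)| ≤ ε * Q

/-- The conclusion of the structure theorem for one `N`, for arbitrary sets `A`, `B`. -/
def StrucG (W v R₀ : ℕ) (c : ℝ) (N : ℕ) (A B : Set ℕ) (ε : ℝ) : Prop :=
  ∃ R Q : ℕ, primorial v ∣ R ∧ W ∣ R ∧ 1 ≤ R ∧ R ≤ R₀ ∧ (∀ p : ℕ, p.Prime → p ∣ R → p ≤ v) ∧
    1 ≤ Q ∧ (∀ p : ℕ, p.Prime → p ∣ Q → v < p) ∧ (R : ℝ) * Q ≤ ε * N ∧ c * N ≤ Q ∧
    ∃ (T : Finset ℕ) (κ : ℕ → ℝ) (τ : ℕ → ℤ),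
      (∀ t ∈ T, (W : ℤ) ∣ τ t ∧ (primorial v : ℤ) ∣ τ t ∧ |(τ t : ℝ)| ≤ ε * N ∧ 0 ≤ κ t) ∧
      ∑ t ∈ T, κ t ≤ 1 ∧ 1 - ε ≤ ∑ t ∈ T, κ t ∧ ∃ f g : ℕ → ℝ,
      LocG (primorial v) R Q N T κ τ A (En.kap v) ε f ∧
      LocG (primorial v) R Q N T κ τ B (En.kap v) ε g ∧
      (((Icc 1 N).filter (fun n => Even n ∧ ε < |rho A B n - model v f g n|)).card : ℝ) ≤ ε * N

end Pool.Agent.Lib.MP_629a14_nt.Kp
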