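import Pool.Agent.Lib.MP_629a14_nt.Kp.SSum

/-! Sums of `uA` over shifted blocks. -/

set_option autoImplicit false

namespace Pool.Agent.Lib.MP_629a14_nt.Kp

open Finset Filter Topology Pool.Agent.Lib.MP_629a14_nt Pool.Agent.Lib.MP_629a14_nt.Rob
open Pool.Agent.Lib.MP_629a14_nt.Ml

private theorem SInner_bij (f : ℕ → ℝ) (R b b' x₁ x₂ t X : ℕ) (h1 : X ≤ x₁ + t)
    (hb : ∀ y, (y ≡ b' [MOD R] ↔ y + X ≡ b + t [MOD R])) :
    ∑ x ∈ (Ico x₁ x₂).filter (fun x => x ≡ b [MOD R]), f (x + t - X) =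
      ∑ y ∈ (Ico (x₁ + t - X) (x₂ + t - X)).filter (fun y => y ≡ b' [MOD R]), f y := by
  apply Finset.sum_nbij' (fun x => x + t - X) (fun y => y + X - t)
  · intro x hx
    simp only [mem_filter, mem_Ico] at hx ⊢
    refine ⟨⟨by omega, by omega⟩, ?_⟩
    rw [hb]
    have h2 : x + t - X + X = x + t := by omega
    rw [h2]
    exact Nat.ModEq.add_right t hx.2
  · intro y hy
    simp only [mem_filter, mem_Ico] at hy ⊢
    refine ⟨⟨by omega, by omega⟩, ?_⟩
    have h2 := (hb y).1 hy.2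
    have h3 : y + X = (y + X - t) + t := by omega
    rw [h3] at h2
    exact Nat.ModEq.add_right_cancel' t h2
  · intro x hx
    simp only [mem_filter, mem_Ico] at hx
    omega
  · intro y hy
    simp only [mem_filter, mem_Ico] at hy
    omega
  · intro x hx
    rfl

private theorem SInner_cop (V R b c : ℕ) (hRp : ∀ p : ℕ, p.Prime → p ∣ R → p ≤ V)
    (hb : b.Coprime (primorial V)) (hc : primorial V ∣ c) : (b + c).Coprime R := by
  have h1 : (b + c).Coprime (primorial V) := by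
    obtain ⟨k, rfl⟩ := hc
    rw [Nat.coprime_add_mul_left_left]
    exact hb
  by_contra h
  obtain ⟨p, hp, h2, h3⟩ := Nat.Prime.not_coprime_iff_dvd.1 h
  have h4 := hRp p hp h3
  have h5 : p ∣ primorial V := hp.dvd_primorial_iff.2 h4
  exact hp.one_lt.ne' (Nat.dvd_one.1 (h1 ▸ Nat.dvd_gcd h2 h5))

private theorem SInner_one {A : Set ℕ} {α : ℝ} (v V R : ℕ) (ε : ℝ) (X : ℕ)
    (hRp : ∀ p : ℕ, p.Prime → p ∣ R → p ≤ V) (hR : 1 ≤ R)
    (N : ℕ) (hXV : primorial V ∣ X)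
    (h : ∀ b : ℕ, b.Coprime R → ∀ x₁ x₂ : ℕ, x₁ ≤ x₂ → x₂ ≤ N + 1 →
      |∑ x ∈ (Ico x₁ x₂).filter (fun x => x ≡ b [MOD R]), uA v X N A x -
        den v * α * ((x₂ : ℝ) - x₁) / R.totient| ≤ ε * X)
    (x₁ x₂ b t : ℕ) (hb : b.Coprime (primorial V)) (ht : primorial V ∣ t) (h12 : x₁ ≤ x₂)
    (hN : N < X)
    (hc : x₂ + t ≤ N + 1 ∨ (X ≤ x₁ + t ∧ x₂ + t ≤ N + 1 + X)) :
    |∑ x ∈ (Ico x₁ x₂).filter (fun x => x ≡ b [MOD R]), uA v X N A ((x + t) % X) -
        den v * α * ((x₂ : ℝ) - x₁) / R.totient| ≤ ε * X := by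
  rcases hc with hc | ⟨hc1, hc2⟩
  · have h1 := SInner_bij (uA v X N A) R b (b + t) x₁ x₂ t 0 (Nat.zero_le _)
      (fun y => by rw [add_zero])
    have h2 : ∑ x ∈ (Ico x₁ x₂).filter (fun x => x ≡ b [MOD R]), uA v X N A ((x + t) % X) =
        ∑ x ∈ (Ico x₁ x₂).filter (fun x => x ≡ b [MOD R]), uA v X N A (x + t - 0) := by
      apply sum_congr rfl
      intro x hx
      simp only [mem_filter, mem_Ico] at hx
      rw [Nat.mod_eq_of_lt (by omega), Nat.sub_zero]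
    rw [h2, h1]
    have h3 := h (b + t) (SInner_cop V R b t hRp hb ht) (x₁ + t - 0) (x₂ + t - 0) (by omega)
      (by omega)
    have h4 : (((x₂ + t - 0 : ℕ) : ℝ) - ((x₁ + t - 0 : ℕ) : ℝ)) = (x₂ : ℝ) - x₁ := by
      rw [Nat.sub_zero, Nat.sub_zero]
      push_cast
      ring
    rw [h4] at h3
    exact h3
  · have h1 := SInner_bij (uA v X N A) R b (b + (t + (R - 1) * X)) x₁ x₂ t X hc1 (fun y => by
      have h5 : b + (t + (R - 1) * X) + X = (b + t) + R * X := by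
        obtain ⟨r, rfl⟩ : ∃ r, R = r + 1 := ⟨R - 1, by omega⟩
        simp only [Nat.add_sub_cancel]
        ring
      have h6 : b + (t + (R - 1) * X) + X ≡ b + t [MOD R] := by
        rw [h5]
        have h7 : (b + t) + R * X ≡ (b + t) + 0 [MOD R] :=
          Nat.ModEq.add_left _ ((Nat.modEq_zero_iff_dvd).2 (dvd_mul_right R X))
        simpa using h7
      constructor
      · intro h8
        exact (Nat.ModEq.add_right X h8).trans h6
      · intro h8
        exact Nat.ModEq.add_right_cancel' X (h8.trans h6.symm))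
    have h2 : ∑ x ∈ (Ico x₁ x₂).filter (fun x => x ≡ b [MOD R]), uA v X N A ((x + t) % X) =
        ∑ x ∈ (Ico x₁ x₂).filter (fun x => x ≡ b [MOD R]), uA v X N A (x + t - X) := by
      apply sum_congr rfl
      intro x hx
      simp only [mem_filter, mem_Ico] at hx
      rw [Nat.mod_eq_sub_mod (by omega), Nat.mod_eq_of_lt (by omega)]
    rw [h2, h1]
    have hcop : (b + (t + (R - 1) * X)).Coprime R :=
      SInner_cop V R b _ hRp hb (dvd_add ht (hXV.mul_left _))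
    have h3 := h (b + (t + (R - 1) * X)) hcop (x₁ + t - X) (x₂ + t - X) (by omega)
      (by omega)
    have h4 : (((x₂ + t - X : ℕ) : ℝ) - ((x₁ + t - X : ℕ) : ℝ)) = (x₂ : ℝ) - x₁ := by
      rw [Nat.cast_sub (by omega), Nat.cast_sub (by omega)]
      push_cast
      ring
    rw [h4] at h3
    exact h3

/-- For `x ∈ [x₀, x₀ + R Q)` the numbers `(x + t) % X` run through the interval
`[x₀ + t, x₀ + t + R Q)` or `[x₀ + t - X, x₀ + t - X + R Q)`; the class `b` becomes `b + t` (or a class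
`b'` with `b' + X ≡ b + t`), which is coprime to `primorial V`, hence to `R` (`X` and `t` are multiples of
`primorial V`). -/
theorem inner_near {A : Set ℕ} {α : ℝ} (hA : HasDensity A α) (v V R : ℕ) (hR : 1 ≤ R)
    (hRV : primorial V ∣ R) (hRp : ∀ p : ℕ, p.Prime → p ∣ R → p ≤ V) (ε : ℝ) (hε : 0 < ε) :
    ∃ X₀ : ℕ, ∀ X : ℕ, X₀ ≤ X → primorial V ∣ X → ∀ N : ℕ, N < X → ∀ x₀ Q b t : ℕ,
      b.Coprime (primorial V) → primorial V ∣ t → t ≤ X →
      (x₀ + t + R * Q ≤ N + 1 ∨ (X ≤ x₀ + t ∧ x₀ + t + R * Q ≤ N + 1 + X)) →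
      |∑ x ∈ (Ico x₀ (x₀ + R * Q)).filter (fun x => x ≡ b [MOD R]), uA v X N A ((x + t) % X) -
        den v * α * ((R : ℝ) * Q) / R.totient| ≤ ε * X := by
  obtain ⟨X₀, hX₀⟩ := uA_class hA v R hR ε hε
  refine ⟨X₀, fun X hX hXV N hN x₀ Q b t hb ht htX hc => ?_⟩
  have h := SInner_one (A := A) (α := α) v V R ε X hRp hR N hXV
    (fun b hb x₁ x₂ => hX₀ X hX N hN.le b hb x₁ x₂) x₀ (x₀ + R * Q) b t hb ht (by omega) hN
    (by omega)
  have h4 : (((x₀ + R * Q : ℕ) : ℝ) - (x₀ : ℝ)) = (R : ℝ) * Q := by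
    push_cast
    ring
  rw [h4] at h
  exact h

/-- The interval `[x₀ + t, x₀ + t + R Q)` is cut into at most two pieces by the multiples of `X` (it
lies in `[0, 2 X)`); `uA v X N A ≤ uA v X (X - 1) univ` and `uA_class` for `Set.univ`. -/
theorem inner_far (v V R : ℕ) (hR : 1 ≤ R)
    (hRV : primorial V ∣ R) (hRp : ∀ p : ℕ, p.Prime → p ∣ R → p ≤ V) (ε : ℝ) (hε : 0 < ε) :
    ∃ X₀ : ℕ, ∀ X : ℕ, X₀ ≤ X → primorial V ∣ X → ∀ N : ℕ, N < X → ∀ A : Set ℕ, ∀ x₀ Q b t : ℕ,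
      b.Coprime (primorial V) → primorial V ∣ t → t ≤ X → x₀ + R * Q ≤ X →
      ∑ x ∈ (Ico x₀ (x₀ + R * Q)).filter (fun x => x ≡ b [MOD R]), uA v X N A ((x + t) % X) ≤
        2 * (den v * ((R : ℝ) * Q) / R.totient) + ε * X := by
  obtain ⟨X₀, hX₀⟩ := uA_class hasDensity_univ v R hR (ε / 2) (by positivity)
  refine ⟨max X₀ 1, fun X hX hXV N hN A x₀ Q b t hb ht htX hc => ?_⟩
  have hX1 : 1 ≤ X := le_trans (le_max_right _ _) hX
  have hden : 0 ≤ den v := by
    unfold den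
    positivity
  have hlog : 0 ≤ Real.log X := Real.log_nonneg (by exact_mod_cast hX1)
  have hle : ∀ y, uA v X N A y ≤ uA v X (X - 1) Set.univ y := by
    intro y
    unfold uA
    split_ifs with h1 h2 h2
    · exact le_rfl
    · exact absurd ⟨h1.1, h1.2.1, by omega, Set.mem_univ _⟩ h2
    · positivity
    · exact le_rfl
  have hpiece : ∀ x₁ x₂ : ℕ, x₁ ≤ x₂ → (x₂ + t ≤ X ∨ (X ≤ x₁ + t ∧ x₂ + t ≤ X + X)) →
      ∑ x ∈ (Ico x₁ x₂).filter (fun x => x ≡ b [MOD R]), uA v X N A ((x + t) % X) ≤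
        den v * ((x₂ : ℝ) - x₁) / R.totient + ε / 2 * X := by
    intro x₁ x₂ h12 hcc
    have h := SInner_one (A := Set.univ) (α := 1) v V R (ε / 2) X hRp hR (X - 1) hXV
      (fun b hb x₁ x₂ => hX₀ X (le_trans (le_max_left _ _) hX) (X - 1) (by omega) b hb x₁ x₂)
      x₁ x₂ b t hb ht h12 (by omega) (by omega)
    rw [mul_one] at h
    have h1 := (abs_le.1 h).2
    have h2 : ∑ x ∈ (Ico x₁ x₂).filter (fun x => x ≡ b [MOD R]), uA v X N A ((x + t) % X) ≤
        ∑ x ∈ (Ico x₁ x₂).filter (fun x => x ≡ b [MOD R]), uA v X (X - 1) Set.univ ((x + t) % X) :=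
      sum_le_sum (fun x _ => hle _)
    linarith
  have hcast : (((x₀ + R * Q : ℕ) : ℝ) - (x₀ : ℝ)) = (R : ℝ) * Q := by
    push_cast
    ring
  have hpos : 0 ≤ den v * ((R : ℝ) * Q) / R.totient := by positivity
  have hposX : 0 ≤ ε / 2 * X := by positivity
  by_cases c1 : x₀ + R * Q + t ≤ X
  · have h := hpiece x₀ (x₀ + R * Q) (by omega) (Or.inl c1)
    rw [hcast] at h
    linarith
  · by_cases c2 : X ≤ x₀ + t
    · have h := hpiece x₀ (x₀ + R * Q) (by omega) (Or.inr ⟨c2, by omega⟩)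
      rw [hcast] at h
      linarith
    · have h1 := hpiece x₀ (X - t) (by omega) (Or.inl (by omega))
      have h2 := hpiece (X - t) (x₀ + R * Q) (by omega) (Or.inr ⟨by omega, by omega⟩)
      have h3 : ∑ x ∈ (Ico x₀ (x₀ + R * Q)).filter (fun x => x ≡ b [MOD R]),
          uA v X N A ((x + t) % X) =
          ∑ x ∈ (Ico x₀ (X - t)).filter (fun x => x ≡ b [MOD R]), uA v X N A ((x + t) % X) +
          ∑ x ∈ (Ico (X - t) (x₀ + R * Q)).filter (fun x => x ≡ b [MOD R]),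
            uA v X N A ((x + t) % X) := by
        rw [sum_filter, sum_filter, sum_filter, sum_Ico_consecutive _ (by omega) (by omega)]
      have h4 : den v * (((X - t : ℕ) : ℝ) - x₀) / R.totient +
          den v * (((x₀ + R * Q : ℕ) : ℝ) - ((X - t : ℕ) : ℝ)) / R.totient =
          den v * ((R : ℝ) * Q) / R.totient := by
        rw [← add_div, ← mul_add]
        congr 2
        push_cast
        ring
      rw [h3]
      linarith

end Pool.Agent.Lib.MP_629a14_nt.Kp
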