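import Pool.Agent.Lib.MP_629a14_nt.Kp.GDefs
import Pool.Agent.Lib.MP_629a14_nt.Kp.SInner

/-! Sums of `uA` over shifted blocks, for arbitrary sets. -/

set_option autoImplicit false

namespace Pool.Agent.Lib.MP_629a14_nt.Kp

open Finset Filter Topology Pool.Agent.Lib.MP_629a14_nt Pool.Agent.Lib.MP_629a14_nt.Rob
open Pool.Agent.Lib.MP_629a14_nt.Ml

/-- The map `x ↦ p = x + τ = (x + t) % X` is a bijection of `[x₀, x₀ + L)` and
`[x₀ + τ, x₀ + τ + L) ⊆ (X ^ (1/4), N]`, and `x ≡ b` becomes `p ≡ b + τ`. -/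
theorem inner_cnt (v X N : ℕ) (A : Set ℕ) (R b x₀ L t : ℕ) (τ : ℤ) (hN : N < X)
    (hlow : (⌊(X : ℝ) ^ (1 / 4 : ℝ)⌋₊ : ℤ) < x₀ + τ) (hup : (x₀ : ℤ) + τ + L ≤ N + 1)
    (hτ : τ = t ∨ τ = (t : ℤ) - X) :
    ∑ x ∈ (Ico x₀ (x₀ + L)).filter (fun x => x ≡ b [MOD R]), uA v X N A ((x + t) % X) =
      den v * Real.log X * (cntI A R (x₀ + τ) (x₀ + τ + L) (b + τ) : ℝ) := by
  classical
  set y : ℕ := ⌊(X : ℝ) ^ (1 / 4 : ℝ)⌋₊ with hy
  have hmod : ∀ x : ℕ, x₀ ≤ x → x < x₀ + L → (((x + t) % X : ℕ) : ℤ) = x + τ := by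
    intro x h1 h2
    rcases hτ with h | h
    · have h3 : x + t < X := by omega
      rw [Nat.mod_eq_of_lt h3, h]
      push_cast
      ring
    · have h3 : X ≤ x + t := by omega
      have h4 : x + t - X < X := by omega
      rw [Nat.mod_eq_sub_mod h3, Nat.mod_eq_of_lt h4, Nat.cast_sub h3, h]
      push_cast
      ring
  have h1 : ∑ x ∈ (Ico x₀ (x₀ + L)).filter (fun x => x ≡ b [MOD R]),
      uA v X N A ((x + t) % X) = ∑ p ∈ (range (x₀ + τ + L).toNat).filter
        (fun p : ℕ => p.Prime ∧ p ∈ A ∧ x₀ + τ ≤ (p : ℤ) ∧ (p : ℤ) ≡ b + τ [ZMOD R]),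
        den v * Real.log X := by
    have h2 : ∑ x ∈ (Ico x₀ (x₀ + L)).filter (fun x => x ≡ b [MOD R]),
        uA v X N A ((x + t) % X) = ∑ x ∈ ((Ico x₀ (x₀ + L)).filter (fun x => x ≡ b [MOD R])).filter
          (fun x => ((x + t) % X).Prime ∧ (x + t) % X ∈ A), den v * Real.log X := by
      rw [sum_filter (s := (Ico x₀ (x₀ + L)).filter (fun x => x ≡ b [MOD R]))]
      refine sum_congr rfl fun x hx => ?_
      rw [mem_filter, mem_Ico] at hx
      have h3 := hmod x hx.1.1 hx.1.2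
      unfold uA
      rw [← hy]
      by_cases h4 : ((x + t) % X).Prime ∧ (x + t) % X ∈ A
      · rw [if_pos h4, if_pos ⟨h4.1, by omega, by omega, h4.2⟩]
      · rw [if_neg h4, if_neg fun h5 => h4 ⟨h5.1, h5.2.2.2⟩]
    rw [h2]
    refine sum_nbij' (fun x => (x + t) % X) (fun p => ((p : ℤ) - τ).toNat) ?_ ?_ ?_ ?_ ?_
    · intro x hx
      rw [mem_filter, mem_filter, mem_Ico] at hx
      obtain ⟨⟨⟨h3, h4⟩, h5⟩, h6, h7⟩ := hx
      have h8 := hmod x h3 h4
      rw [mem_filter, mem_range]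
      refine ⟨by omega, h6, h7, by omega, ?_⟩
      rw [h8]
      exact Int.ModEq.add_right _ ((Int.natCast_modEq_iff).2 h5)
    · intro p hp
      rw [mem_filter, mem_range] at hp
      obtain ⟨h3, h4, h5, h6, h7⟩ := hp
      have h8 : ((((p : ℤ) - τ).toNat : ℕ) : ℤ) = p - τ := Int.toNat_of_nonneg (by omega)
      have h9 : x₀ ≤ ((p : ℤ) - τ).toNat := by omega
      have h10 : ((p : ℤ) - τ).toNat < x₀ + L := by omega
      have h11 := hmod _ h9 h10
      rw [h8] at h11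
      have h12 : ((((p : ℤ) - τ).toNat + t) % X : ℕ) = p := by
        have : ((((((p : ℤ) - τ).toNat + t) % X : ℕ)) : ℤ) = (p : ℤ) := by
          rw [h11]
          ring
        exact_mod_cast this
      rw [mem_filter, mem_filter, mem_Ico, h12]
      refine ⟨⟨⟨h9, h10⟩, ?_⟩, h4, h5⟩
      rw [← Int.natCast_modEq_iff, h8]
      have h13 := Int.ModEq.sub_right τ h7
      rwa [add_sub_cancel_right] at h13
    · intro x hx
      rw [mem_filter, mem_filter, mem_Ico] at hx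
      have h8 := hmod x hx.1.1.1 hx.1.1.2
      simp only [h8, add_sub_cancel_right, Int.toNat_natCast]
    · intro p hp
      rw [mem_filter, mem_range] at hp
      obtain ⟨h3, h4, h5, h6, h7⟩ := hp
      have h8 : ((((p : ℤ) - τ).toNat : ℕ) : ℤ) = p - τ := Int.toNat_of_nonneg (by omega)
      have h9 : x₀ ≤ ((p : ℤ) - τ).toNat := by omega
      have h10 : ((p : ℤ) - τ).toNat < x₀ + L := by omega
      have h11 := hmod _ h9 h10
      rw [h8] at h11
      have : ((((((p : ℤ) - τ).toNat + t) % X : ℕ)) : ℤ) = (p : ℤ) := by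
        rw [h11]
        ring
      exact_mod_cast this
    · intro x _
      rfl
  rw [h1, sum_const, nsmul_eq_mul, mul_comm]
  rfl

end Pool.Agent.Lib.MP_629a14_nt.Kp
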