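import Pool.Agent.Lib.MP_629a14_nt.Kp.SInt
import Pool.Agent.Lib.MP_629a14_nt.Ml.TKer

/-! The upper bound for the smoothed function. -/

set_option autoImplicit false

namespace Pool.Agent.Lib.MP_629a14_nt.Kp

open Finset Pool.Agent.Lib.MP_629a14_nt Pool.Agent.Lib.MP_629a14_nt.Ml

/-- `uA ≤ ua`, and `t_point` (`Ml/TKer.lean`) for `Λ = push v w M x (ua v X)`, `g = red v w M x`;
`nuS (svE v w V) (red x) = mE` as `x` is coprime to `primorial V` (`red x i ≠ 0`). -/
theorem Ft_le (v w M V N : ℕ) [NeZero M] (hv : 8 ≤ v) (hvV : v ≤ V) (hVw : V ≤ w) {J : ℕ}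
    (a : Fin J → Gp (mo v w M)) (lam rho eps : ℝ) (hlam : 0 ≤ lam) (heps : 0 ≤ eps)
    (hG : GoodK (cw (mo v w M) (svE v w w)) a lam (svE v w V) rho)
    (hΛ : ∀ r : ℕ, r.Coprime (primorial v) → ∀ b,
      ‖ft (fun g => push v w M r (ua v (XX w M)) g - nuS (svE v w w) g) b‖ ≤ eps)
    (A : Set ℕ) (x : ℕ) (hx : x.Coprime (primorial V)) :
    Ft v w M V N a lam A x ≤ (1 + rho) * mE (mo v w M) (svE v w V) +
      eps * (primorial V / ZZ a lam (svE v w V)) := by
  classical
  have hdvd : primorial v ∣ primorial V := by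
    rw [primorial_split v V hvV]
    exact dvd_mul_right _ _
  have hg : ∀ i ∈ svE v w V, red v w M x i ≠ 0 := by
    intro i hi h0
    unfold svE at hi
    rw [mem_filter] at hi
    obtain ⟨-, p, rfl, hp⟩ := hi
    have h2 := p.2
    unfold PR at h2
    rw [mem_filter, mem_Ioc] at h2
    have h3 : p.1 ∣ x := by
      have h4 : ((x : ℕ) : ZMod p.1) = 0 := h0
      exact (ZMod.natCast_eq_zero_iff x p.1).1 h4
    have h5 : p.1 ∣ primorial V := by
      unfold primorial
      refine dvd_prod_of_mem _ ?_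
      rw [mem_filter, mem_range]
      exact ⟨by omega, h2.2⟩
    have h6 := Nat.dvd_gcd h3 h5
    rw [hx] at h6
    exact h2.2.one_lt.ne' (Nat.dvd_one.1 h6)
  have h1 := t_point v w V M hv hvV hVw a lam rho eps hlam heps hG
    (push v w M x (ua v (XX w M))) (hΛ x (hx.coprime_dvd_right hdvd)) (red v w M x) hg
  have hm : nuS (svE v w V) (red v w M x) = mE (mo v w M) (svE v w V) := by
    unfold nuS mE
    exact prod_congr rfl fun i hi => if_neg (hg i hi)
  rw [hm] at h1
  have h2 : Ft v w M V N a lam A x ≤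
      av (ka a lam (svE v w V)) (push v w M x (ua v (XX w M))) (red v w M x) := by
    unfold Ft av
    refine sum_le_sum fun s _ => mul_le_mul_of_nonneg_left ?_ (ka_nonneg a lam _ s)
    unfold push
    refine sum_le_sum fun y _ => ?_
    unfold uA ua
    have hd : 0 ≤ den v * Real.log (XX w M : ℕ) := by
      refine mul_nonneg ?_ (Real.log_natCast_nonneg _)
      unfold den
      positivity
    by_cases h : y.Prime ∧ ⌊((XX w M : ℕ) : ℝ) ^ (1 / 4 : ℝ)⌋₊ < y ∧ y ≤ N ∧ y ∈ A
    · rw [if_pos h, if_pos ⟨h.1, h.2.1⟩]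
    · rw [if_neg h]
      split_ifs
      · exact hd
      · exact le_rfl
  have h3 := (abs_le.1 h1).2
  linarith

private theorem SLe_tot (s : Finset ℕ) (hs : ∀ p ∈ s, p.Prime) :
    (∏ p ∈ s, p).totient = ∏ p ∈ s, (p - 1) := by
  classical
  induction s using Finset.induction_on with
  | empty => simp
  | insert a s ha ih =>
    rw [prod_insert ha, prod_insert ha, Nat.totient_mul, ih (fun p hp => hs p (mem_insert_of_mem hp)),
      Nat.totient_prime (hs a (mem_insert_self a s))]
    refine Nat.Coprime.prod_right fun p hp => ?_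
    rw [Nat.coprime_primes (hs a (mem_insert_self a s)) (hs p (mem_insert_of_mem hp))]
    rintro rfl
    exact ha hp

private theorem SLe_cop (v w : ℕ) : (primorial v).Coprime (∏ p ∈ PR v w, p) := by
  refine Nat.Coprime.prod_right fun p hp => ?_
  unfold primorial
  refine Nat.Coprime.prod_left fun q hq => ?_
  unfold PR at hp
  rw [mem_filter, mem_Ioc] at hp
  rw [mem_filter, mem_range] at hq
  rw [Nat.coprime_primes hq.2 hp.2]
  omega

/-- `∏_{v < p ≤ V} p / (p - 1)` (compare `nuS_red` in `Ml/TSup.lean`). -/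
theorem mE_eq (v w M V : ℕ) [NeZero M] (hvV : v ≤ V) (hVw : V ≤ w) :
    mE (mo v w M) (svE v w V) = den v * En.kap V := by
  classical
  have hPR : ∀ p ∈ PR v V, p.Prime := fun p hp => by
    unfold PR at hp
    exact (mem_filter.1 hp).2
  have h1 : mE (mo v w M) (svE v w V) = ∏ p ∈ PR v V, ((p : ℝ) / ((p : ℝ) - 1)) := by
    unfold mE
    refine prod_bij (fun i _ => mo v w M i) ?_ ?_ ?_ ?_
    · intro i hi
      unfold svE at hi
      rw [mem_filter] at hi
      obtain ⟨-, p, rfl, hp⟩ := hi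
      have h2 := p.2
      unfold PR at h2 ⊢
      rw [mem_filter, mem_Ioc] at h2 ⊢
      exact ⟨⟨h2.1.1, hp⟩, h2.2⟩
    · intro i hi j hj hij
      unfold svE at hi hj
      rw [mem_filter] at hi hj
      obtain ⟨-, p, rfl, -⟩ := hi
      obtain ⟨-, q, rfl, -⟩ := hj
      have h : p.1 = q.1 := hij
      rw [Subtype.ext h]
    · intro p hp
      have h2 := hp
      unfold PR at h2
      rw [mem_filter, mem_Ioc] at h2
      have hmem : p ∈ PR v w := by
        unfold PR
        rw [mem_filter, mem_Ioc]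
        exact ⟨⟨h2.1.1, by omega⟩, h2.2⟩
      refine ⟨some ⟨p, hmem⟩, ?_, rfl⟩
      unfold svE
      rw [mem_filter]
      exact ⟨mem_univ _, ⟨p, hmem⟩, rfl, h2.1.2⟩
    · intro i _
      rfl
  rw [h1]
  unfold den En.kap
  rw [primorial_split v V hvV, Nat.totient_mul (SLe_cop v V), SLe_tot _ hPR, prod_div_distrib]
  have h5 : ((∏ p ∈ PR v V, (p - 1) : ℕ) : ℝ) = ∏ p ∈ PR v V, ((p : ℝ) - 1) := by
    rw [Nat.cast_prod]
    refine prod_congr rfl fun p hp => ?_
    rw [Nat.cast_sub (hPR p hp).one_lt.le, Nat.cast_one]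
  have hpos : (0 : ℝ) < ∏ p ∈ PR v V, ((p : ℝ) - 1) := by
    refine prod_pos fun p hp => ?_
    have : (1 : ℝ) < p := by exact_mod_cast (hPR p hp).one_lt
    linarith
  have hP : (0 : ℝ) < (primorial v : ℝ) := by exact_mod_cast primorial_pos v
  have hφ : (0 : ℝ) < ((primorial v).totient : ℝ) := by
    exact_mod_cast Nat.totient_pos.2 (primorial_pos v)
  push_cast [h5]
  rw [← h5]
  have h6 : (0 : ℝ) < ((∏ p ∈ PR v V, (p - 1) : ℕ) : ℝ) := by rw [h5]; exact hpos
  push_cast at h6 ⊢
  field_simp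

end Pool.Agent.Lib.MP_629a14_nt.Kp
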