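import Pool.Agent.Lib.MP_629a14_nt.Kp.SInner
import Pool.Agent.Lib.MP_629a14_nt.Kp.SLe

/-! The mean of the smoothed function over residue classes in blocks. -/

set_option autoImplicit false

namespace Pool.Agent.Lib.MP_629a14_nt.Kp

open Finset Filter Topology Pool.Agent.Lib.MP_629a14_nt Pool.Agent.Lib.MP_629a14_nt.Rob
open Pool.Agent.Lib.MP_629a14_nt.Ml

theorem HasDensity.bounds {A : Set ℕ} {α : ℝ} (hA : HasDensity A α) : 0 ≤ α ∧ α ≤ 1 := by
  have h := hA 1 0 le_rfl (by norm_num)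
  constructor
  · exact ge_of_tendsto' h fun x => by positivity
  · refine le_of_tendsto' h fun x => ?_
    refine div_le_one_of_le₀ ?_ (by positivity)
    unfold primesIn
    have : Set.ncard {p : ℕ | p ≤ x ∧ p.Prime ∧ p ∈ A ∧ p ≡ 0 [MOD 1]} ≤
        Set.ncard {p : ℕ | p ≤ x ∧ p.Prime ∧ p ∈ Set.univ ∧ p ≡ 0 [MOD 1]} := by
      refine Set.ncard_le_ncard ?_ ?_
      · rintro p ⟨h1, h2, -, h3⟩
        exact ⟨h1, h2, Set.mem_univ _, h3⟩
      · exact (Set.finite_Iic x).subset fun p hp => hp.1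
    exact_mod_cast this

/-- The total mass of the kernel. -/
theorem ka_total (v w M : ℕ) [NeZero M] (hvw : v ≤ w) (hM : M.Coprime (primorial w)) {J : ℕ}
    (a : Fin J → Gp (mo v w M)) (lam : ℝ) (E : Finset (Ix v w)) :
    ∑ t ∈ fib v w M 0, ka a lam E (red v w M t) = 1 := by
  have h1 := sum_fib v w M 0 hvw hM (fun g => ((ka a lam E g : ℝ) : ℂ))
  have h2 := ka_sum a lam E
  have h3 : ((∑ t ∈ fib v w M 0, ka a lam E (red v w M t) : ℝ) : ℂ) = 1 := by
    push_cast
    rw [h1]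
    exact_mod_cast h2
  exact_mod_cast h3

theorem totient_ratio (V R : ℕ) (hR : 1 ≤ R) (hRV : primorial V ∣ R)
    (hRp : ∀ p : ℕ, p.Prime → p ∣ R → p ≤ V) : (R : ℝ) / R.totient = En.kap V := by
  have hf : R.primeFactors = (primorial V).primeFactors := by
    ext p
    simp only [Nat.mem_primeFactors]
    constructor
    · rintro ⟨hp, hd, -⟩
      refine ⟨hp, ?_, (primorial_pos V).ne'⟩
      unfold primorial
      refine dvd_prod_of_mem _ ?_
      rw [mem_filter, mem_range]
      exact ⟨Nat.lt_succ_of_le (hRp p hp hd), hp⟩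
    · rintro ⟨hp, hd, -⟩
      exact ⟨hp, hd.trans hRV, by omega⟩
  have e1 := Nat.totient_eq_mul_prod_factors R
  have e2 := Nat.totient_eq_mul_prod_factors (primorial V)
  rw [hf] at e1
  have h1 : ((R.totient : ℕ) : ℝ) = R * ∏ p ∈ (primorial V).primeFactors, (1 - (p : ℝ)⁻¹) := by
    have := congrArg (fun q : ℚ => (q : ℝ)) e1
    push_cast at this
    exact this
  have h2 : (((primorial V).totient : ℕ) : ℝ) =
      primorial V * ∏ p ∈ (primorial V).primeFactors, (1 - (p : ℝ)⁻¹) := by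
    have := congrArg (fun q : ℚ => (q : ℝ)) e2
    push_cast at this
    exact this
  have hpos : (0 : ℝ) < ((primorial V).totient : ℕ) := by
    exact_mod_cast Nat.totient_pos.2 (primorial_pos V)
  have hP : (0 : ℝ) < (primorial V : ℝ) := by exact_mod_cast primorial_pos V
  have hprod : 0 < ∏ p ∈ (primorial V).primeFactors, (1 - (p : ℝ)⁻¹) := by
    by_contra h
    have := mul_nonpos_of_nonneg_of_nonpos hP.le (not_lt.1 h)
    rw [← h2] at this
    linarith
  have hR0 : (R : ℝ) ≠ 0 := by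
    have : R ≠ 0 := by omega
    exact_mod_cast this
  unfold En.kap
  rw [h1, h2]
  field_simp

theorem Ft_mean {A : Set ℕ} {α : ℝ} (hA : HasDensity A α) (v V R : ℕ) (hvV : v ≤ V)
    (hR : 1 ≤ R) (hRV : primorial V ∣ R) (hRp : ∀ p : ℕ, p.Prime → p ∣ R → p ≤ V) (ε : ℝ)
    (hε : 0 < ε) : ∃ X₀ : ℕ, ∀ (w M : ℕ) [NeZero M], V ≤ w → M.Coprime (primorial w) →
      X₀ ≤ XX w M → ∀ N : ℕ, N < XX w M → ∀ (J : ℕ) (a : Fin J → Gp (mo v w M)) (lam ζ η : ℝ),
      0 ≤ ζ → ∑ t ∈ (fib v w M 0).filter (fun t : ℕ => ζ * XX w M ≤ t ∧ (t : ℝ) ≤ (1 - ζ) * XX w M),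
        ka a lam (svE v w V) (red v w M t) ≤ η →
      ∀ x₀ Q b : ℕ, b.Coprime (primorial V) → ζ * XX w M ≤ x₀ →
        (x₀ : ℝ) + R * Q + ζ * XX w M ≤ N →
      |∑ x ∈ (Ico x₀ (x₀ + R * Q)).filter (fun x => x ≡ b [MOD R]), Ft v w M V N a lam A x -
        den v * α * ((R : ℝ) * Q) / R.totient| ≤
        ε * XX w M + η * (2 * (den v * ((R : ℝ) * Q) / R.totient) + ε * XX w M) := by
  obtain ⟨X₁, h1⟩ := inner_near hA v V R hR hRV hRp ε hε
  obtain ⟨X₂, h2⟩ := inner_far v V R hR hRV hRp ε hε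
  obtain ⟨hα0, hα1⟩ := hA.bounds
  refine ⟨max X₁ X₂, fun w M _ hVw hM hX N hN J a lam ζ η hζ hη x₀ Q b hb hx1 hx2 => ?_⟩
  have hvw := hvV.trans hVw
  have hX1 := h1 (XX w M) ((le_max_left _ _).trans hX)
  have hX2 := h2 (XX w M) ((le_max_right _ _).trans hX)
  have hVX : primorial V ∣ XX w M := by
    unfold XX
    rw [primorial_split V w hVw, mul_assoc]
    exact dvd_mul_right _ _
  have hX1' := hX1 hVX N hN x₀ Q b
  have hX2' := hX2 hVX N hN A x₀ Q b
  obtain ⟨X, hXd⟩ : ∃ X : ℕ, X = XX w M := ⟨_, rfl⟩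
  rw [← hXd] at hN hη hx1 hx2 hX1' hX2' hVX ⊢
  have hX0 : (0 : ℝ) < X := by
    have : 0 < X := by omega
    exact_mod_cast this
  set S := (Ico x₀ (x₀ + R * Q)).filter (fun x => x ≡ b [MOD R]) with hS
  set c1 : ℝ := den v * ((R : ℝ) * Q) / R.totient with hc1
  have hden : 0 ≤ den v := by unfold den; positivity
  have hc10 : 0 ≤ c1 := by
    rw [hc1]
    have := Nat.cast_nonneg (α := ℝ) R.totient
    positivity
  have hc0 : den v * α * ((R : ℝ) * Q) / R.totient = α * c1 := by rw [hc1]; ring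
  rw [hc0] at hX1' ⊢
  set κ : ℕ → ℝ := fun t => ka a lam (svE v w V) (red v w M t) with hκ
  have hκ0 : ∀ t, 0 ≤ κ t := fun t => ka_nonneg _ _ _ _
  have htot : ∑ t ∈ fib v w M 0, κ t = 1 := ka_total v w M hvw hM a lam _
  set inner : ℕ → ℝ := fun t => ∑ x ∈ S, uA v X N A ((x + t) % X) with hinner
  have hsum : ∑ x ∈ S, Ft v w M V N a lam A x = ∑ t ∈ fib v w M 0, κ t * inner t := by
    rw [sum_congr rfl fun x _ => Ft_int v w M V N hvw hM (by rw [← hXd]; exact hN) a lam A x,
      sum_comm]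
    refine sum_congr rfl fun t _ => ?_
    simp only [hκ, hinner]
    rw [mul_sum, hXd]
  have hdiff : ∑ x ∈ S, Ft v w M V N a lam A x - α * c1 =
      ∑ t ∈ fib v w M 0, κ t * (inner t - α * c1) := by
    rw [hsum]
    simp only [mul_sub, sum_sub_distrib]
    rw [← sum_mul, htot, one_mul]
  rw [hdiff]
  have hterm : ∀ t ∈ fib v w M 0, |κ t * (inner t - α * c1)| ≤ ε * X * κ t +
      (2 * c1 + ε * X) * (if ζ * X ≤ t ∧ (t : ℝ) ≤ (1 - ζ) * X then κ t else 0) := by
    intro t ht
    rw [abs_mul, abs_of_nonneg (hκ0 t)]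
    by_cases h0 : κ t = 0
    · rw [h0]
      simp
    have htV : primorial V ∣ t := by
      refine ka_dvd v w M V hvV hVw a lam t ?_ h0
      unfold fib at ht
      exact (Nat.modEq_zero_iff_dvd).1 (mem_filter.1 ht).2
    have htX : t ≤ X := by
      unfold fib at ht
      have := (mem_filter.1 ht).1
      rw [mem_Icc, ← hXd] at this
      exact this.2
    have htXr : (t : ℝ) ≤ X := by exact_mod_cast htX
    have hRQ : ((x₀ + t + R * Q : ℕ) : ℝ) = (x₀ : ℝ) + t + R * Q := by push_cast; ring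
    have hεX : 0 ≤ ε * X := by positivity
    split_ifs with hfar
    · have hle : x₀ + R * Q ≤ X := by
        have e1 : ((x₀ + R * Q : ℕ) : ℝ) ≤ (N : ℝ) := by
          push_cast
          have : 0 ≤ ζ * X := by positivity
          linarith
        have e2 : x₀ + R * Q ≤ N := by exact_mod_cast e1
        omega
      have hf := hX2' t hb htV htX hle
      have hin0 : 0 ≤ inner t := sum_nonneg fun x _ => uA_nonneg v X N A _
      have h3 : |inner t - α * c1| ≤ 2 * c1 + ε * X := by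
        rw [abs_le]
        have : α * c1 ≤ c1 := by nlinarith
        have : 0 ≤ α * c1 := mul_nonneg hα0 hc10
        constructor <;> linarith
      have h4 := mul_le_mul_of_nonneg_left h3 (hκ0 t)
      have h5 : 0 ≤ ε * X * κ t := mul_nonneg hεX (hκ0 t)
      linarith
    · rw [mul_zero, add_zero]
      have h3 : |inner t - α * c1| ≤ ε * X := by
        refine hX1' t hb htV htX ?_
        by_cases h4 : (t : ℝ) < ζ * X
        · left
          have e1 : ((x₀ + t + R * Q : ℕ) : ℝ) ≤ (N : ℝ) := by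
            rw [hRQ]
            linarith
          have e2 : x₀ + t + R * Q ≤ N := by exact_mod_cast e1
          omega
        · right
          have h5 : (1 - ζ) * X < t := by
            by_contra h5
            exact hfar ⟨not_lt.1 h4, not_lt.1 h5⟩
          have e1 : (X : ℝ) ≤ ((x₀ + t : ℕ) : ℝ) := by
            push_cast
            linarith
          have e2 : X ≤ x₀ + t := by exact_mod_cast e1
          have e3 : ((x₀ + t + R * Q : ℕ) : ℝ) ≤ ((N + X : ℕ) : ℝ) := by
            rw [hRQ]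
            push_cast
            have : 0 ≤ ζ * X := by positivity
            linarith
          have e4 : x₀ + t + R * Q ≤ N + X := by exact_mod_cast e3
          exact ⟨e2, by omega⟩
      have h4 := mul_le_mul_of_nonneg_left h3 (hκ0 t)
      linarith
  calc |∑ t ∈ fib v w M 0, κ t * (inner t - α * c1)|
      ≤ ∑ t ∈ fib v w M 0, |κ t * (inner t - α * c1)| := abs_sum_le_sum_abs _ _
    _ ≤ ∑ t ∈ fib v w M 0, (ε * X * κ t +
        (2 * c1 + ε * X) * (if ζ * X ≤ t ∧ (t : ℝ) ≤ (1 - ζ) * X then κ t else 0)) :=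
        sum_le_sum hterm
    _ = ε * X + (2 * c1 + ε * X) * ∑ t ∈ (fib v w M 0).filter
        (fun t : ℕ => ζ * X ≤ t ∧ (t : ℝ) ≤ (1 - ζ) * X), κ t := by
        rw [sum_add_distrib, ← mul_sum, htot, mul_one, ← mul_sum, sum_filter]
    _ ≤ ε * X + (2 * c1 + ε * X) * η := by
        have : 0 ≤ 2 * c1 + ε * X := by positivity
        have := mul_le_mul_of_nonneg_left hη this
        linarith
    _ = _ := by ring

end Pool.Agent.Lib.MP_629a14_nt.Kp
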