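import Pool.Agent.Lib.MP_629a14_nt.Kp.GInner
import Pool.Agent.Lib.MP_629a14_nt.Kp.SMean

/-! The mean of the smoothed function over residue classes in blocks, for arbitrary sets. -/

set_option autoImplicit false

namespace Pool.Agent.Lib.MP_629a14_nt.Kp

open Finset Filter Topology Pool.Agent.Lib.MP_629a14_nt Pool.Agent.Lib.MP_629a14_nt.Rob
open Pool.Agent.Lib.MP_629a14_nt.Ml

/-- Compare `Ft_mean` (its proof can be adapted). As there, the sum of `Ft` is
`∑ t ∈ fib v w M 0, κ t * inner t`. For `t ∈ Tg` use `inner_cnt` (and `inner_far` for the second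
conclusion), for the other `t` use `κ t = 0` or `inner_far`. -/
theorem Ft_mean_gen (v V R : ℕ) (hvV : v ≤ V)
    (hR : 1 ≤ R) (hRV : primorial V ∣ R) (hRp : ∀ p : ℕ, p.Prime → p ∣ R → p ≤ V) (ε : ℝ)
    (hε : 0 < ε) : ∃ X₀ : ℕ, ∀ (w M : ℕ) [NeZero M], V ≤ w → M.Coprime (primorial w) →
      X₀ ≤ XX w M → ∀ N : ℕ, N < XX w M → ∀ (A : Set ℕ) (J : ℕ) (a : Fin J → Gp (mo v w M))
      (lam ζ η : ℝ), 0 ≤ ζ → ∀ (Tg : Finset ℕ) (τ : ℕ → ℤ), Tg ⊆ fib v w M 0 →
      (∀ t ∈ Tg, (τ t = t ∧ (t : ℝ) < ζ * XX w M) ∨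
        (τ t = (t : ℤ) - XX w M ∧ (1 - ζ) * XX w M < t)) →
      ∑ t ∈ (fib v w M 0).filter (fun t => t ∉ Tg), ka a lam (svE v w V) (red v w M t) ≤ η →
      ∀ x₀ Q b : ℕ, b.Coprime (primorial V) →
        (⌊(XX w M : ℝ) ^ (1 / 4 : ℝ)⌋₊ : ℝ) + ζ * XX w M < x₀ →
        (x₀ : ℝ) + R * Q + ζ * XX w M ≤ N →
      |∑ x ∈ (Ico x₀ (x₀ + R * Q)).filter (fun x => x ≡ b [MOD R]), Ft v w M V N a lam A x -
        den v * Real.log (XX w M) * ∑ t ∈ Tg, ka a lam (svE v w V) (red v w M t) *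
          (cntI A R (x₀ + τ t) (x₀ + τ t + R * Q) (b + τ t) : ℝ)| ≤
        η * (2 * (den v * ((R : ℝ) * Q) / R.totient) + ε * XX w M) ∧
      den v * Real.log (XX w M) * ∑ t ∈ Tg, ka a lam (svE v w V) (red v w M t) *
          (cntI A R (x₀ + τ t) (x₀ + τ t + R * Q) (b + τ t) : ℝ) ≤
        2 * (den v * ((R : ℝ) * Q) / R.totient) + ε * XX w M := by
  obtain ⟨X₂, h2⟩ := inner_far v V R hR hRV hRp ε hε
  refine ⟨X₂, fun w M _ hVw hM hX N hN A J a lam ζ η hζ Tg τ hTg hτ hη x₀ Q b hb hx1 hx2 => ?_⟩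
  have hvw := hvV.trans hVw
  have hX2 := h2 (XX w M) hX
  have hVX : primorial V ∣ XX w M := by
    unfold XX
    rw [primorial_split V w hVw, mul_assoc]
    exact dvd_mul_right _ _
  have hX2' := hX2 hVX N hN A x₀ Q b
  have hcnt : ∀ t ∈ Tg, t ≤ XX w M := by
    intro t ht
    have h := hTg ht
    unfold fib at h
    have := (mem_filter.1 h).1
    rw [mem_Icc] at this
    exact this.2
  obtain ⟨X, hXd⟩ : ∃ X : ℕ, X = XX w M := ⟨_, rfl⟩
  rw [← hXd] at hN hx1 hx2 hX2' hVX hcnt hτ ⊢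
  have hX0 : (0 : ℝ) < X := by
    have : 0 < X := by omega
    exact_mod_cast this
  set S := (Ico x₀ (x₀ + R * Q)).filter (fun x => x ≡ b [MOD R]) with hS
  set c1 : ℝ := den v * ((R : ℝ) * Q) / R.totient with hc1
  have hden : 0 ≤ den v := by unfold den; positivity
  have hc10 : 0 ≤ c1 := by
    rw [hc1]
    have := Nat.cast_nonneg (α := ℝ) R.totient
    positivity
  have hζX : 0 ≤ ζ * X := by positivity
  have hεX : 0 ≤ ε * X := by positivity
  set κ : ℕ → ℝ := fun t => ka a lam (svE v w V) (red v w M t) with hκ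
  have hκ0 : ∀ t, 0 ≤ κ t := fun t => ka_nonneg _ _ _ _
  have htot : ∑ t ∈ fib v w M 0, κ t = 1 := ka_total v w M hvw hM a lam _
  set inner : ℕ → ℝ := fun t => ∑ x ∈ S, uA v X N A ((x + t) % X) with hinner
  have hin0 : ∀ t, 0 ≤ inner t := fun t => sum_nonneg fun x _ => uA_nonneg v X N A _
  have hsum : ∑ x ∈ S, Ft v w M V N a lam A x = ∑ t ∈ fib v w M 0, κ t * inner t := by
    rw [sum_congr rfl fun x _ => Ft_int v w M V N hvw hM (by rw [← hXd]; exact hN) a lam A x,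
      sum_comm]
    refine sum_congr rfl fun t _ => ?_
    simp only [hκ, hinner]
    rw [mul_sum, hXd]
  have hle : x₀ + R * Q ≤ X := by
    have e1 : ((x₀ + R * Q : ℕ) : ℝ) ≤ (N : ℝ) := by
      push_cast
      linarith
    have e2 : x₀ + R * Q ≤ N := by exact_mod_cast e1
    omega
  -- the bound of all terms
  have hterm : ∀ t ∈ fib v w M 0, κ t * inner t ≤ κ t * (2 * c1 + ε * X) := by
    intro t ht
    by_cases h0 : κ t = 0
    · rw [h0, zero_mul, zero_mul]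
    have htV : primorial V ∣ t := by
      refine ka_dvd v w M V hvV hVw a lam t ?_ h0
      unfold fib at ht
      exact (Nat.modEq_zero_iff_dvd).1 (mem_filter.1 ht).2
    have htX : t ≤ X := by
      unfold fib at ht
      have := (mem_filter.1 ht).1
      rw [mem_Icc, ← hXd] at this
      exact this.2
    exact mul_le_mul_of_nonneg_left (hX2' t hb htV htX hle) (hκ0 t)
  -- the exact values
  have hmain : ∀ t ∈ Tg, inner t = den v * Real.log X *
      (cntI A R (x₀ + τ t) (x₀ + τ t + R * Q) (b + τ t) : ℝ) := by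
    intro t ht
    have htX := hcnt t ht
    have htXr : (t : ℝ) ≤ X := by exact_mod_cast htX
    have key : |(τ t : ℝ)| ≤ ζ * X ∧ (τ t = t ∨ τ t = (t : ℤ) - X) := by
      rcases hτ t ht with ⟨h3, h4⟩ | ⟨h3, h4⟩
      · refine ⟨?_, Or.inl h3⟩
        rw [h3]
        push_cast
        rw [abs_of_nonneg (Nat.cast_nonneg _)]
        exact h4.le
      · refine ⟨?_, Or.inr h3⟩
        rw [h3]
        push_cast
        rw [abs_le]
        constructor <;> linarith
    have hab := abs_le.1 key.1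
    have hlow : (⌊(X : ℝ) ^ (1 / 4 : ℝ)⌋₊ : ℤ) < x₀ + τ t := by
      have : ((⌊(X : ℝ) ^ (1 / 4 : ℝ)⌋₊ : ℤ) : ℝ) < ((x₀ + τ t : ℤ) : ℝ) := by
        push_cast
        linarith [hab.1]
      exact_mod_cast this
    have hup : (x₀ : ℤ) + τ t + ((R * Q : ℕ) : ℤ) ≤ N + 1 := by
      have : (((x₀ : ℤ) + τ t + ((R * Q : ℕ) : ℤ) : ℤ) : ℝ) ≤ ((N + 1 : ℤ) : ℝ) := by
        push_cast
        linarith [hab.2]
      exact_mod_cast this
    have h5 := inner_cnt v X N A R b x₀ (R * Q) t (τ t) hN hlow hup key.2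
    rw [Nat.cast_mul] at h5
    exact h5
  have hgood : den v * Real.log X * ∑ t ∈ Tg, κ t *
      (cntI A R (x₀ + τ t) (x₀ + τ t + R * Q) (b + τ t) : ℝ) = ∑ t ∈ Tg, κ t * inner t := by
    rw [mul_sum]
    refine sum_congr rfl fun t ht => ?_
    rw [hmain t ht]
    ring
  have hsplit : ∑ t ∈ fib v w M 0, κ t * inner t = ∑ t ∈ Tg, κ t * inner t +
      ∑ t ∈ (fib v w M 0).filter (fun t => t ∉ Tg), κ t * inner t := by
    rw [← sum_filter_add_sum_filter_not (fib v w M 0) (fun t => t ∈ Tg)]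
    congr 1
    refine sum_congr ?_ fun _ _ => rfl
    ext t
    rw [mem_filter]
    exact ⟨fun h => h.2, fun h => ⟨hTg h, h⟩⟩
  constructor
  · rw [hsum, hgood, hsplit, add_sub_cancel_left]
    have h6 : 0 ≤ ∑ t ∈ (fib v w M 0).filter (fun t => t ∉ Tg), κ t * inner t :=
      sum_nonneg fun t _ => mul_nonneg (hκ0 t) (hin0 t)
    rw [abs_of_nonneg h6]
    have h7 : ∑ t ∈ (fib v w M 0).filter (fun t => t ∉ Tg), κ t * inner t ≤
        (∑ t ∈ (fib v w M 0).filter (fun t => t ∉ Tg), κ t) * (2 * c1 + ε * X) := by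
      rw [sum_mul]
      exact sum_le_sum fun t ht => hterm t (mem_filter.1 ht).1
    exact h7.trans (mul_le_mul_of_nonneg_right hη (by positivity))
  · rw [hgood]
    have h8 : ∑ t ∈ Tg, κ t * inner t ≤ ∑ t ∈ Tg, κ t * (2 * c1 + ε * X) :=
      sum_le_sum fun t ht => hterm t (hTg ht)
    have h9 : ∑ t ∈ Tg, κ t * (2 * c1 + ε * X) ≤ ∑ t ∈ fib v w M 0, κ t * (2 * c1 + ε * X) :=
      sum_le_sum_of_subset_of_nonneg hTg fun t _ _ => mul_nonneg (hκ0 t) (by positivity)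
    have h10 : ∑ t ∈ fib v w M 0, κ t * (2 * c1 + ε * X) = 2 * c1 + ε * X := by
      rw [← sum_mul, htot, one_mul]
    rw [h10] at h9
    exact h8.trans h9

end Pool.Agent.Lib.MP_629a14_nt.Kp
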