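import Pool.Agent.Lib.MP_629a14_nt.Kp.SBas

/-! Convolutions in the product group and convolutions of functions on the integers. -/

set_option autoImplicit false

namespace Pool.Agent.Lib.MP_629a14_nt.Kp

open Finset Pool.Agent.Lib.MP_629a14_nt Pool.Agent.Lib.MP_629a14_nt.Ml

private theorem scvm_even (v : ℕ) (hv : 2 ≤ v) : 2 ∣ primorial v := by
  unfold primorial
  apply dvd_prod_of_mem
  rw [mem_filter, mem_range]
  exact ⟨by omega, Nat.prime_two⟩

private theorem scvm_odd (v w M : ℕ) (hv : 2 ≤ v) (hvw : v ≤ w)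
    (hM : M.Coprime (primorial w)) : ∀ i, Odd (mo v w M i) := by
  intro i
  cases i with
  | none =>
    change Odd M
    have h1 : M.Coprime 2 := hM.coprime_dvd_right (scvm_even w (hv.trans hvw))
    exact (Nat.coprime_two_right).1 h1
  | some p =>
    obtain ⟨p, hp⟩ := p
    change Odd p
    unfold PR at hp
    rw [mem_filter, mem_Ioc] at hp
    exact hp.2.odd_of_ne_two (by omega)

private theorem scvm_dvd (v w M : ℕ) (i : Ix v w) : mo v w M i ∣ XX w M := by
  cases i with
  | none => exact dvd_mul_left _ _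
  | some p =>
    obtain ⟨p, hp⟩ := p
    change p ∣ primorial w * M
    apply Dvd.dvd.mul_right
    unfold PR at hp
    rw [mem_filter, mem_Ioc] at hp
    unfold primorial
    apply dvd_prod_of_mem
    rw [mem_filter, mem_range]
    exact ⟨by omega, hp.2⟩

private theorem scvm_redX (v w M a : ℕ) : red v w M (a + XX w M) = red v w M a := by
  funext i
  unfold red
  have h : ((XX w M : ℕ) : ZMod (mo v w M i)) = 0 := by
    rw [ZMod.natCast_eq_zero_iff]
    exact scvm_dvd v w M i
  rw [Nat.cast_add, h, add_zero]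

private theorem scvm_red_add (v w M a b : ℕ) :
    red v w M (a + b) = red v w M a + red v w M b := by
  funext i
  rw [Pi.add_apply]
  unfold red
  rw [Nat.cast_add]

private theorem scvm_PX (v w M : ℕ) (hvw : v ≤ w) : primorial v ∣ XX w M := by
  unfold XX
  rw [primorial_split v w hvw, mul_assoc]
  exact dvd_mul_right _ _

/-- Real version of `sum_fib`. -/
private theorem scvm_sum (v w M r : ℕ) [NeZero M] (hvw : v ≤ w) (hM : M.Coprime (primorial w))
    (f : Gp (mo v w M) → ℝ) : ∑ g, f g = ∑ x ∈ fib v w M r, f (red v w M x) := by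
  symm
  refine sum_bij (fun x _ => red v w M x) (fun _ _ => mem_univ _) ?_ ?_ (fun _ _ => rfl)
  · intro x hx y hy hxy
    obtain ⟨z, _, hz⟩ := crt_unique v w M r hvw hM (red v w M y)
    rw [hz x ⟨hx, hxy⟩, hz y ⟨hy, rfl⟩]
  · intro g _
    obtain ⟨z, hz, _⟩ := crt_unique v w M r hvw hM g
    exact ⟨z, hz.1, hz.2⟩

/-- The fibres partition `[1, X]`. -/
private theorem scvm_fibs (v w M : ℕ) (f : ℕ → ℝ) :
    ∑ i : Fin (primorial v), ∑ x ∈ fib v w M i, f x = ∑ x ∈ Icc 1 (XX w M), f x := by
  have hP : 0 < primorial v := primorial_pos v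
  rw [← sum_fiberwise_of_maps_to (s := Icc 1 (XX w M)) (t := (univ : Finset (Fin (primorial v))))
    (g := fun x => (⟨x % primorial v, Nat.mod_lt _ hP⟩ : Fin (primorial v)))
    (fun _ _ => mem_univ _)]
  refine sum_congr rfl fun i _ => ?_
  unfold fib
  refine sum_congr ?_ fun _ _ => rfl
  ext x
  rw [mem_filter, mem_filter]
  refine and_congr_right fun _ => ?_
  rw [Fin.ext_iff]
  unfold Nat.ModEq
  rw [Nat.mod_eq_of_lt i.2]


/-- Substitute `g = m + δ` in `cvm`, so that `m - δ = red n - g` (`half_add_half`, odd moduli); sum over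
`x ∈ fib v w M i` (`sum_fib`), `g = red x`: then `red n - red x = red y` with `y = n - x` for `x < n` and
`y = n + X - x` for `x ≥ n`, an element of `fib v w M (σ i)`; the sets `fib v w M i` partition `[1, X]`. -/
theorem cvm_int (v w M : ℕ) [NeZero M] (hv : 2 ≤ v) (hvw : v ≤ w)
    (hM : M.Coprime (primorial w)) (φ ψ : ℕ → ℝ) (G H : ℕ → Gp (mo v w M) → ℝ)
    (hG : ∀ i x : ℕ, x ∈ fib v w M i → G i (red v w M x) = φ x)
    (hH : ∀ i x : ℕ, x ∈ fib v w M i → H i (red v w M x) = ψ x)
    (σ : Fin (primorial v) → Fin (primorial v)) (n : ℕ) (hn : 1 ≤ n) (hn' : n ≤ XX w M)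
    (hσ : ∀ i : Fin (primorial v), (i : ℕ) + (σ i : ℕ) ≡ n [MOD primorial v]) :
    ∑ i : Fin (primorial v), cvm (G i) (H (σ i)) (half * red v w M n) =
      (∑ x ∈ Ico 1 n, φ x * ψ (n - x) + ∑ x ∈ Icc n (XX w M), φ x * ψ (n + XX w M - x)) /
        (Fintype.card (Gp (mo v w M)) : ℝ) := by
  have hodd := scvm_odd v w M hv hvw hM
  have hsub : ∀ i : Fin (primorial v), cvm (G i) (H (σ i)) (half * red v w M n) =
      (∑ x ∈ fib v w M i, φ x * (if x < n then ψ (n - x) else ψ (n + XX w M - x))) /
        (Fintype.card (Gp (mo v w M)) : ℝ) := by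
    intro i
    unfold cvm
    congr 1
    have h1 : ∑ δ, G i (half * red v w M n + δ) * H (σ i) (half * red v w M n - δ) =
        ∑ g, G i g * H (σ i) (red v w M n - g) := by
      refine Fintype.sum_equiv (Equiv.addLeft (half * red v w M n)) _ _ fun δ => ?_
      rw [Equiv.coe_addLeft]
      congr 2
      have h2 := half_add_half hodd (red v w M n)
      calc half * red v w M n - δ
          = (half * red v w M n + half * red v w M n) - (half * red v w M n + δ) := by abel
        _ = red v w M n - (half * red v w M n + δ) := by rw [h2]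
    rw [h1, scvm_sum v w M i hvw hM (fun g => G i g * H (σ i) (red v w M n - g))]
    refine sum_congr rfl fun x hx => ?_
    have hx' := hx
    unfold fib at hx'
    rw [mem_filter, mem_Icc] at hx'
    obtain ⟨⟨hx1, hx2⟩, hx3⟩ := hx'
    rw [hG i x hx]
    congr 1
    have key : ∀ y : ℕ, 1 ≤ y → y ≤ XX w M → (x + y = n ∨ x + y = n + XX w M) →
        H (σ i) (red v w M n - red v w M x) = ψ y := by
      intro y hy1 hy2 hy
      have hy3 : y ≡ (σ i : ℕ) [MOD primorial v] := by
        have e1 : x + y ≡ n [MOD primorial v] := by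
          rcases hy with h | h
          · rw [h]
          · rw [h]
            have := (Nat.ModEq.refl n : n ≡ n [MOD primorial v]).add
              ((Nat.modEq_zero_iff_dvd).2 (scvm_PX v w M hvw))
            simpa using this
        have e2 : (i : ℕ) + y ≡ (i : ℕ) + (σ i : ℕ) [MOD primorial v] :=
          ((hx3.symm.add_right y).trans e1).trans (hσ i).symm
        exact Nat.ModEq.add_left_cancel' _ e2
      have hy4 : y ∈ fib v w M (σ i) := by
        unfold fib
        rw [mem_filter, mem_Icc]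
        exact ⟨⟨hy1, hy2⟩, hy3⟩
      have hy5 : red v w M n - red v w M x = red v w M y := by
        rw [sub_eq_iff_eq_add']
        rw [← scvm_red_add]
        rcases hy with h | h
        · rw [h]
        · rw [h, scvm_redX]
      rw [hy5]
      exact hH (σ i) y hy4
    split_ifs with hxn
    · exact key (n - x) (by omega) (by omega) (Or.inl (by omega))
    · exact key (n + XX w M - x) (by omega) (by omega) (Or.inr (by omega))
  rw [sum_congr rfl fun i _ => hsub i, ← sum_div]
  congr 1
  rw [scvm_fibs v w M (fun x => φ x * (if x < n then ψ (n - x) else ψ (n + XX w M - x)))]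
  have hun : Icc 1 (XX w M) = Ico 1 n ∪ Icc n (XX w M) := by
    ext x
    rw [mem_union, mem_Icc, mem_Ico, mem_Icc]
    omega
  have hdis : Disjoint (Ico 1 n) (Icc n (XX w M)) := by
    rw [disjoint_left]
    intro x h1 h2
    rw [mem_Ico] at h1
    rw [mem_Icc] at h2
    omega
  rw [hun, sum_union hdis]
  congr 1
  · refine sum_congr rfl fun x hx => ?_
    rw [mem_Ico] at hx
    rw [if_pos hx.2]
  · refine sum_congr rfl fun x hx => ?_
    rw [mem_Icc] at hx
    rw [if_neg (by omega)]

/-- `cvm_int` with `push_red`; as `2 N ≤ X` the second sum vanishes. The number of pairs of primes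
`> X ^ (1/4)` differs from `repsIn A B n` by at most `2 X ^ (1/4) + 2`. -/
theorem cvm_prime (v w M N : ℕ) [NeZero M] (hv : 2 ≤ v) (hvw : v ≤ w)
    (hM : M.Coprime (primorial w)) (hN : 2 * N ≤ XX w M) (A B : Set ℕ)
    (σ : Fin (primorial v) → Fin (primorial v)) (n : ℕ) (hn : 1 ≤ n) (hn' : n ≤ N)
    (hσ : ∀ i : Fin (primorial v), (i : ℕ) + (σ i : ℕ) ≡ n [MOD primorial v]) :
    ∃ r' : ℝ, (Sm.repsIn A B n : ℝ) - 2 * (XX w M : ℝ) ^ (1 / 4 : ℝ) - 2 ≤ r' ∧
      0 ≤ r' ∧ r' ≤ (Sm.repsIn A B n : ℝ) ∧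
      (∑ i : Fin (primorial v), cvm (push v w M i (uA v (XX w M) N A))
        (push v w M (σ i : ℕ) (uA v (XX w M) N B)) (half * red v w M n)) *
          (Fintype.card (Gp (mo v w M)) : ℝ) = (den v * Real.log (XX w M)) ^ 2 * r' := by
  classical
  obtain ⟨T, hT⟩ : ∃ T, T = ⌊((XX w M : ℕ) : ℝ) ^ (1 / 4 : ℝ)⌋₊ := ⟨_, rfl⟩
  obtain ⟨X, hX⟩ : ∃ X, X = XX w M := ⟨_, rfl⟩
  have hcard : (0 : ℝ) < (Fintype.card (Gp (mo v w M)) : ℝ) := by
    exact_mod_cast Fintype.card_pos
  set S : Finset ℕ := (Ico 1 n).filter (fun x => (x.Prime ∧ T < x ∧ x ≤ N ∧ x ∈ A) ∧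
    ((n - x).Prime ∧ T < n - x ∧ n - x ≤ N ∧ n - x ∈ B)) with hS
  set S' : Finset ℕ := (range (n + 1)).filter
    (fun p => p.Prime ∧ (n - p).Prime ∧ p ∈ A ∧ n - p ∈ B) with hS'
  have hreps : Sm.repsIn A B n = S'.card := by
    unfold Sm.repsIn
    rw [hS']
  have hSS' : S ⊆ S' := by
    intro x hx
    rw [hS, mem_filter, mem_Ico] at hx
    rw [hS', mem_filter, mem_range]
    exact ⟨by omega, hx.2.1.1, hx.2.2.1, hx.2.1.2.2.2, hx.2.2.2.2.2⟩
  have hS'S : S' ⊆ S ∪ (range (T + 1) ∪ (range (T + 1)).image (fun t => n - t)) := by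
    intro x hx
    rw [hS', mem_filter, mem_range] at hx
    obtain ⟨hx1, hx2, hx3, hx4, hx5⟩ := hx
    have hx6 : 0 < x := hx2.pos
    have hx7 : 0 < n - x := hx3.pos
    rw [mem_union, mem_union, mem_image]
    by_cases h1 : T < x
    · by_cases h2 : T < n - x
      · left
        rw [hS, mem_filter, mem_Ico]
        exact ⟨by omega, ⟨hx2, h1, by omega, hx4⟩, ⟨hx3, h2, by omega, hx5⟩⟩
      · right
        right
        refine ⟨n - x, ?_, by omega⟩
        rw [mem_range]
        omega
    · right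
      left
      rw [mem_range]
      omega
  have hTle : (T : ℝ) ≤ ((XX w M : ℕ) : ℝ) ^ (1 / 4 : ℝ) := by
    rw [hT]
    exact Nat.floor_le (by positivity)
  refine ⟨(S.card : ℝ), ?_, Nat.cast_nonneg _, ?_, ?_⟩
  · rw [hreps]
    have h1 := card_le_card hS'S
    have h2 := card_union_le S (range (T + 1) ∪ (range (T + 1)).image (fun t => n - t))
    have h3 := card_union_le (range (T + 1)) ((range (T + 1)).image (fun t => n - t))
    have h4 := card_image_le (s := range (T + 1)) (f := fun t => n - t)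
    rw [card_range] at h3 h4
    have h5 : S'.card ≤ S.card + 2 * T + 2 := by omega
    have h6 : (S'.card : ℝ) ≤ S.card + 2 * T + 2 := by exact_mod_cast h5
    linarith
  · rw [hreps]
    exact_mod_cast card_le_card hSS'
  · have hint := cvm_int v w M hv hvw hM (uA v (XX w M) N A) (uA v (XX w M) N B)
      (fun i => push v w M i (uA v (XX w M) N A)) (fun i => push v w M i (uA v (XX w M) N B))
      (fun i x hx => push_red v w M i hvw hM _ hx) (fun i x hx => push_red v w M i hvw hM _ hx)
      σ n hn (by omega) hσ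
    rw [hint, div_mul_cancel₀ _ hcard.ne']
    have h2 : ∑ x ∈ Icc n (XX w M), uA v (XX w M) N A x * uA v (XX w M) N B (n + XX w M - x) = 0 := by
      refine sum_eq_zero fun x hx => ?_
      rw [mem_Icc] at hx
      by_cases hxN : x ≤ N
      · have : uA v (XX w M) N B (n + XX w M - x) = 0 := by
          unfold uA
          rw [if_neg]
          rintro ⟨_, _, h, _⟩
          omega
        rw [this, mul_zero]
      · have : uA v (XX w M) N A x = 0 := by
          unfold uA
          rw [if_neg]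
          rintro ⟨_, _, h, _⟩
          exact hxN h
        rw [this, zero_mul]
    rw [h2, add_zero]
    have h3 : ∀ x ∈ Ico 1 n, uA v (XX w M) N A x * uA v (XX w M) N B (n - x) =
        if ((x.Prime ∧ T < x ∧ x ≤ N ∧ x ∈ A) ∧
          ((n - x).Prime ∧ T < n - x ∧ n - x ≤ N ∧ n - x ∈ B)) then
            (den v * Real.log (XX w M)) ^ 2 else 0 := by
      intro x _
      unfold uA
      rw [← hT]
      by_cases ha : x.Prime ∧ T < x ∧ x ≤ N ∧ x ∈ A
      · rw [if_pos ha]
        by_cases hb : (n - x).Prime ∧ T < n - x ∧ n - x ≤ N ∧ n - x ∈ B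
        · rw [if_pos hb, if_pos ⟨ha, hb⟩, sq]
        · rw [if_neg hb, mul_zero, if_neg (fun h => hb h.2)]
      · rw [if_neg ha, zero_mul, if_neg (fun h => ha h.1)]
    rw [sum_congr rfl h3, ← sum_filter, sum_const, nsmul_eq_mul, mul_comm]

/-- `cvm_int` for the smoothed functions (`Ft`, `push_congr`). -/
theorem cvm_Ft (v w M V N : ℕ) [NeZero M] (hv : 2 ≤ v) (hvw : v ≤ w)
    (hM : M.Coprime (primorial w)) {J : ℕ} (a : Fin J → Gp (mo v w M)) (lam : ℝ) (A B : Set ℕ)
    (σ : Fin (primorial v) → Fin (primorial v)) (n : ℕ) (hn : 1 ≤ n) (hn' : n ≤ XX w M)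
    (hσ : ∀ i : Fin (primorial v), (i : ℕ) + (σ i : ℕ) ≡ n [MOD primorial v]) :
    (∑ i : Fin (primorial v),
      cvm (av (ka a lam (svE v w V)) (push v w M i (uA v (XX w M) N A)))
        (av (ka a lam (svE v w V)) (push v w M (σ i : ℕ) (uA v (XX w M) N B)))
        (half * red v w M n)) * (Fintype.card (Gp (mo v w M)) : ℝ) =
      ∑ x ∈ Ico 1 n, Ft v w M V N a lam A x * Ft v w M V N a lam B (n - x) +
      ∑ x ∈ Icc n (XX w M), Ft v w M V N a lam A x *
        Ft v w M V N a lam B (n + XX w M - x) := by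
  have hcard : (0 : ℝ) < (Fintype.card (Gp (mo v w M)) : ℝ) := by
    exact_mod_cast Fintype.card_pos
  have hG : ∀ (C : Set ℕ) (i x : ℕ), x ∈ fib v w M i →
      av (ka a lam (svE v w V)) (push v w M i (uA v (XX w M) N C)) (red v w M x) =
        Ft v w M V N a lam C x := by
    intro C i x hx
    unfold fib at hx
    rw [mem_filter] at hx
    unfold Ft
    rw [push_congr v w M hx.2]
  have hint := cvm_int v w M hv hvw hM (Ft v w M V N a lam A) (Ft v w M V N a lam B)
      (fun i => av (ka a lam (svE v w V)) (push v w M i (uA v (XX w M) N A)))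
      (fun i => av (ka a lam (svE v w V)) (push v w M i (uA v (XX w M) N B)))
      (hG A) (hG B) σ n hn hn' hσ
  rw [hint, div_mul_cancel₀ _ hcard.ne']

end Pool.Agent.Lib.MP_629a14_nt.Kp
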