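import Pool.Agent.Lib.MP_629a14_nt.Ml.TCount
import Pool.Agent.Lib.MP_629a14_nt.Ml.TKer

/-! From the mean square over the product group to the mean square over the integers. -/

set_option autoImplicit false

namespace Pool.Agent.Lib.MP_629a14_nt.Kp

open Finset Pool.Agent.Lib.MP_629a14_nt Pool.Agent.Lib.MP_629a14_nt.Ml

/-- The map `n ↦ (n % primorial v, half * red n)` is injective on `[1, X]` (`crt_unique`; `half` is
invertible: `half_add_half`, `mo_odd`), and `card * primorial v = X` (`card_Gp_mul`). -/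
theorem D_sum (v w M : ℕ) [NeZero M] (hv : 2 ≤ v) (hvw : v ≤ w) (hM : M.Coprime (primorial w))
    (F : ℕ → Gp (mo v w M) → ℝ) (η : ℝ)
    (h : ∀ c < primorial v, (∑ m, F c m ^ 2) / (Fintype.card (Gp (mo v w M)) : ℝ) ≤ η)
    (N : ℕ) (hN : N ≤ XX w M) :
    ∑ n ∈ Icc 1 N, F (n % primorial v) (half * red v w M n) ^ 2 ≤ η * XX w M := by
  classical
  have hodd : ∀ i, Odd (mo v w M i) := mo_odd v w M hv (by omega) hM
  have hK : (0 : ℝ) < (Fintype.card (Gp (mo v w M)) : ℝ) := by
    exact_mod_cast Fintype.card_pos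
  have h1 : ∀ c ∈ range (primorial v), ∑ m, F c m ^ 2 ≤
      η * (Fintype.card (Gp (mo v w M)) : ℝ) :=
    fun c hc => (div_le_iff₀ hK).1 (h c (mem_range.1 hc))
  have hinj : Set.InjOn (fun n : ℕ => (n % primorial v, half * red v w M n))
      (Icc 1 N : Finset ℕ) := by
    intro x hx y hy hxy
    rw [mem_coe, mem_Icc] at hx hy
    rw [Prod.mk.injEq] at hxy
    have h2 : red v w M x = red v w M y := by
      rw [← half_add_half hodd (red v w M x), ← half_add_half hodd (red v w M y), hxy.2]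
    have h3 : x ≡ y [MOD primorial v] := hxy.1
    obtain ⟨z, _, hz⟩ := crt_unique v w M y hvw hM (red v w M y)
    have h4 : x ∈ fib v w M y := by
      unfold fib
      rw [mem_filter, mem_Icc]
      exact ⟨⟨hx.1, hx.2.trans hN⟩, h3⟩
    have h5 : y ∈ fib v w M y := by
      unfold fib
      rw [mem_filter, mem_Icc]
      exact ⟨⟨hy.1, hy.2.trans hN⟩, rfl⟩
    rw [hz x ⟨h4, h2⟩, hz y ⟨h5, rfl⟩]
  have hcard : (primorial v : ℝ) * (Fintype.card (Gp (mo v w M)) : ℝ) = (XX w M : ℝ) := by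
    rw [← card_Gp_mul v w M hvw]
    push_cast
    ring
  calc ∑ n ∈ Icc 1 N, F (n % primorial v) (half * red v w M n) ^ 2
      = ∑ q ∈ (Icc 1 N).image (fun n : ℕ => (n % primorial v, half * red v w M n)),
          F q.1 q.2 ^ 2 := (sum_image (f := fun q => F q.1 q.2 ^ 2) hinj).symm
    _ ≤ ∑ q ∈ (range (primorial v)) ×ˢ (univ : Finset (Gp (mo v w M))), F q.1 q.2 ^ 2 := by
        refine sum_le_sum_of_subset_of_nonneg ?_ fun q _ _ => sq_nonneg _
        intro q hq
        rw [mem_image] at hq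
        obtain ⟨n, _, rfl⟩ := hq
        rw [mem_product, mem_range]
        exact ⟨Nat.mod_lt _ (primorial_pos v), mem_univ _⟩
    _ = ∑ c ∈ range (primorial v), ∑ m, F c m ^ 2 :=
        sum_product (range (primorial v)) univ (fun q => F q.1 q.2 ^ 2)
    _ ≤ ∑ _c ∈ range (primorial v), η * (Fintype.card (Gp (mo v w M)) : ℝ) := sum_le_sum h1
    _ = η * XX w M := by
        rw [sum_const, card_range, nsmul_eq_mul, ← hcard]
        ring

end Pool.Agent.Lib.MP_629a14_nt.Kp
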