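import Pool.Agent.Lib.MP_629a14_nt.Ml.TFreq
import Pool.Agent.Lib.MP_629a14_nt.Ml.TKer

/-! The archimedean character and the localisation of the kernel. -/

set_option autoImplicit false

namespace Pool.Agent.Lib.MP_629a14_nt.Kp

open Finset Pool.Agent.Lib.MP_629a14_nt Pool.Agent.Lib.MP_629a14_nt.Ml

private theorem arch_cop (v w M : ℕ) [NeZero M] (hvw : v ≤ w) (hM : M.Coprime (primorial w)) :
    (primorial v).Coprime (Fintype.card (Gp (mo v w M))) := by
  rw [Fintype.card_pi]
  apply Nat.Coprime.prod_right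
  intro i _
  rw [ZMod.card]
  cases i with
  | none =>
    change (primorial v).Coprime M
    have h : primorial v ∣ primorial w := by
      rw [primorial_split v w hvw]
      exact dvd_mul_right _ _
    exact (hM.coprime_dvd_right h).symm
  | some p =>
    change (primorial v).Coprime p.1
    have h := p.2
    unfold PR at h
    rw [mem_filter, mem_Ioc] at h
    rw [Nat.coprime_comm, Nat.Prime.coprime_iff_not_dvd h.2]
    intro h1
    unfold primorial at h1
    rw [Prime.dvd_finsetProd_iff h.2.prime] at h1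
    obtain ⟨q, hq, hd⟩ := h1
    rw [mem_filter, mem_range] at hq
    have h2 := (Nat.prime_dvd_prime_iff_eq h.2 hq.2).1 hd
    omega

private theorem arch_dvd (v w M : ℕ) [NeZero M] (i : Ix v w) :
    mo v w M i ∣ Fintype.card (Gp (mo v w M)) := by
  rw [Fintype.card_pi]
  simp only [ZMod.card]
  exact dvd_prod_of_mem _ (mem_univ i)

/-- Let `N' = card (Gp (mo v w M)) = X / primorial v` and `φ b = ∑ i, (b i).val * (N' / mo i)` in
`ZMod N'`, so that `theta b = φ b / N'` modulo `1` (`N' = M * ∏ p ∈ PR v w, p`, compare `card_Gp_mul`,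
`tfreq_int`). By `theta_sep` the map `φ` is injective, hence bijective (equal cardinalities); choose
`b1` with `primorial v * φ b1 = 1` in `ZMod N'` and use `psi_red`. -/
theorem arch_char (v w M : ℕ) [NeZero M] (hvw : v ≤ w) (hM : M.Coprime (primorial w)) :
    ∃ b1 : Gp (mo v w M), ∀ t : ℕ, primorial v ∣ t →
      psi (b1 * red v w M t) = ee (t / (XX w M : ℝ)) := by
  classical
  set N' := Fintype.card (Gp (mo v w M)) with hN'
  have hN0 : 0 < N' := Fintype.card_pos
  have : NeZero N' := ⟨hN0.ne'⟩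
  have hX := card_Gp_mul v w M hvw
  rw [← hN'] at hX
  have hP : 0 < primorial v := primorial_pos v
  have hNr : (0 : ℝ) < (N' : ℝ) := by exact_mod_cast hN0
  have hPr : (0 : ℝ) < (primorial v : ℝ) := by exact_mod_cast hP
  have hXr : (XX w M : ℝ) = (N' : ℝ) * (primorial v : ℝ) := by
    rw [← hX]; push_cast; ring
  let φ : Gp (mo v w M) → ℕ := fun b => ∑ i, (b i).val * (N' / mo v w M i)
  have hφ : ∀ b, (N' : ℝ) * theta v w M b = (φ b : ℝ) := by
    intro b
    unfold theta
    rw [mul_sum]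
    change _ = ((∑ i, (b i).val * (N' / mo v w M i) : ℕ) : ℝ)
    push_cast
    refine sum_congr rfl fun i _ => ?_
    obtain ⟨c, hc⟩ := arch_dvd v w M i
    rw [← hN'] at hc
    have hne : ((mo v w M i : ℕ) : ℝ) ≠ 0 := by
      exact_mod_cast (mo_neZero v w M i).out
    rw [hc, Nat.mul_div_cancel_left _ (Nat.pos_of_ne_zero (mo_neZero v w M i).out)]
    push_cast
    field_simp
  have hinj : Function.Injective (fun b => (φ b : ZMod N')) := by
    intro b b' hbb
    by_contra hne
    have h1 : ((φ b : ℤ) : ZMod N') = ((φ b' : ℤ) : ZMod N') := by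
      push_cast
      exact hbb
    rw [ZMod.intCast_eq_intCast_iff, Int.modEq_iff_dvd] at h1
    obtain ⟨m, hm⟩ := h1
    have h2 := theta_sep v w M hvw hM b b' hne (-m)
    have h3 : theta v w M b - theta v w M b' - ((-m : ℤ) : ℝ) = 0 := by
      have h4 : ((φ b' : ℝ) - φ b) = (N' : ℝ) * m := by exact_mod_cast hm
      rw [← hφ, ← hφ, ← mul_sub] at h4
      have h5 := mul_left_cancel₀ hNr.ne' h4
      push_cast
      linarith
    rw [h3, abs_zero] at h2
    have h4 : (0 : ℝ) < 1 / (XX w M : ℝ) := by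
      rw [hXr]; positivity
    linarith
  have hbij : Function.Bijective (fun b => (φ b : ZMod N')) :=
    (Fintype.bijective_iff_injective_and_card _).2 ⟨hinj, by rw [ZMod.card]⟩
  obtain ⟨b1, hb1⟩ := hbij.2 ((primorial v : ZMod N')⁻¹)
  refine ⟨b1, fun t ht => ?_⟩
  have hb2 : (((primorial v * φ b1 : ℕ) : ℤ) : ZMod N') = ((1 : ℤ) : ZMod N') := by
    push_cast
    have h5 : (φ b1 : ZMod N') = ((primorial v : ZMod N')⁻¹) := hb1
    rw [h5]
    exact ZMod.coe_mul_inv_eq_one _ (by rw [hN']; exact arch_cop v w M hvw hM)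
  rw [ZMod.intCast_eq_intCast_iff, Int.modEq_iff_dvd] at hb2
  obtain ⟨k, hk⟩ := hb2
  obtain ⟨s, hs⟩ := ht
  rw [psi_red]
  have h6 : (1 : ℝ) - (primorial v : ℝ) * φ b1 = (N' : ℝ) * k := by exact_mod_cast hk
  rw [← hφ] at h6
  have h7 : (t : ℝ) * theta v w M b1 = t / (XX w M : ℝ) + (((-(s * k)) : ℤ) : ℝ) := by
    rw [hs, hXr]
    push_cast
    have h8 : (primorial v : ℝ) * s / ((N' : ℝ) * primorial v) = s / N' := by
      field_simp
    rw [h8]
    have h9 : (primorial v : ℝ) * theta v w M b1 = 1 / N' - k := by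
      field_simp
      linarith
    calc (primorial v : ℝ) * s * theta v w M b1 = s * ((primorial v : ℝ) * theta v w M b1) := by ring
      _ = s * (1 / N' - k) := by rw [h9]
      _ = s / N' + -(s * k) := by ring
  rw [h7, ee_add, ee_int, mul_one]

private theorem far_cos (x ζ : ℝ) (hζ : 0 < ζ) (hζ' : ζ ≤ 1 / 2) (h1 : ζ ≤ x) (h2 : x ≤ 1 - ζ) :
    8 * ζ ^ 2 ≤ 1 - (ee x).re := by
  have h3 : (ee x).re = Real.cos (2 * (Real.pi * x)) := by
    unfold ee
    have h4 : (2 * Real.pi * x * Complex.I : ℂ) = ((2 * (Real.pi * x) : ℝ) : ℂ) * Complex.I := by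
      push_cast
      ring
    rw [h4, Complex.exp_ofReal_mul_I_re]
  have h5 : 2 * ζ ≤ Real.sin (Real.pi * x) := by
    have hpi := Real.pi_pos
    rcases le_total x (1 / 2) with h | h
    · have h6 := Real.mul_le_sin (x := Real.pi * x) (by nlinarith) (by nlinarith)
      have h7 : 2 / Real.pi * (Real.pi * x) = 2 * x := by field_simp
      rw [h7] at h6
      linarith
    · have h6 := Real.mul_le_sin (x := Real.pi * (1 - x)) (by nlinarith) (by nlinarith)
      have h7 : 2 / Real.pi * (Real.pi * (1 - x)) = 2 * (1 - x) := by field_simp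
      have h8 : Real.pi * (1 - x) = Real.pi - Real.pi * x := by ring
      rw [h7, h8, Real.sin_pi_sub] at h6
      linarith
  rw [h3, Real.cos_two_mul, ]
  have h9 := Real.sin_sq_add_cos_sq (Real.pi * x)
  nlinarith [mul_self_le_mul_self (by linarith : (0 : ℝ) ≤ 2 * ζ) h5]

/-- The kernel is concentrated near `0`: `∑ s, ka s * (1 - Re psi (a j * s)) ≤ log (1 / ZZ) / lam`
(`EQ_le`, `QQ`), and `1 - cos (2 π t / X) ≥ 8 ζ ^ 2` if `ζ X ≤ t ≤ (1 - ζ) X`; `red` is injective on `fib`
(`sum_fib`). -/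
theorem far_mass (v w M : ℕ) [NeZero M] (hvw : v ≤ w) (hM : M.Coprime (primorial w)) {J : ℕ}
    (a : Fin J → Gp (mo v w M)) (lam : ℝ) (hlam : 0 < lam) (E : Finset (Ix v w)) (j : Fin J)
    (hj : ∀ t : ℕ, primorial v ∣ t → psi (a j * red v w M t) = ee (t / (XX w M : ℝ)))
    (ζ : ℝ) (hζ : 0 < ζ) (hζ' : ζ ≤ 1 / 2) :
    ∑ t ∈ (fib v w M 0).filter (fun t : ℕ => ζ * XX w M ≤ t ∧ (t : ℝ) ≤ (1 - ζ) * XX w M),
      ka a lam E (red v w M t) ≤ Real.log (1 / ZZ a lam E) / lam / (8 * ζ ^ 2) := by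
  have hXpos : 0 < XX w M := by
    unfold XX
    exact Nat.mul_pos (primorial_pos w) (NeZero.pos M)
  have hX : (0 : ℝ) < (XX w M : ℝ) := by exact_mod_cast hXpos
  rw [le_div_iff₀ (by positivity), sum_mul]
  have h1 : ∑ t ∈ fib v w M 0, ka a lam E (red v w M t) * (1 - (psi (a j * red v w M t)).re) =
      ∑ g, ka a lam E g * (1 - (psi (a j * g)).re) := by
    have h := sum_fib v w M 0 hvw hM
      (fun g => ((ka a lam E g * (1 - (psi (a j * g)).re) : ℝ) : ℂ))
    rw [← Complex.ofReal_sum, ← Complex.ofReal_sum] at h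
    exact_mod_cast h
  have h2 : ∑ g, ka a lam E g * (1 - (psi (a j * g)).re) ≤ Real.log (1 / ZZ a lam E) / lam := by
    refine le_trans (sum_le_sum (g := fun s => ka a lam E s * QQ a s) fun s _ => ?_)
      (EQ_le a lam hlam E)
    refine mul_le_mul_of_nonneg_left ?_ (ka_nonneg a lam E s)
    unfold QQ
    exact single_le_sum (f := fun j => 1 - (psi (a j * s)).re)
      (fun i _ => sub_nonneg.2 (re_psi_le _)) (mem_univ j)
  refine le_trans ?_ (h1.le.trans h2)
  refine (sum_le_sum (g := fun t => ka a lam E (red v w M t) *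
    (1 - (psi (a j * red v w M t)).re)) fun t ht => ?_).trans
    (sum_le_sum_of_subset_of_nonneg (filter_subset _ _) fun t _ _ =>
      mul_nonneg (ka_nonneg a lam E _) (sub_nonneg.2 (re_psi_le _)))
  rw [mem_filter] at ht
  obtain ⟨ht0, ht1, ht2⟩ := ht
  refine mul_le_mul_of_nonneg_left ?_ (ka_nonneg a lam E _)
  unfold fib at ht0
  rw [mem_filter] at ht0
  rw [hj t ((Nat.modEq_zero_iff_dvd).1 ht0.2)]
  refine far_cos _ ζ hζ hζ' ?_ ?_
  · rw [le_div_iff₀ hX]; exact ht1
  · rw [div_le_iff₀ hX]; exact ht2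

end Pool.Agent.Lib.MP_629a14_nt.Kp
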