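import Pool.Agent.Lib.MP_629a14_nt.Kp.SMean
import Pool.Agent.Lib.MP_629a14_nt.Kp.SArch

/-! The smoothed function satisfies `Loc`. -/

set_option autoImplicit false

namespace Pool.Agent.Lib.MP_629a14_nt.Kp

open Finset Filter Topology Pool.Agent.Lib.MP_629a14_nt Pool.Agent.Lib.MP_629a14_nt.Rob
open Pool.Agent.Lib.MP_629a14_nt.Ml

theorem one_le_kap (V : ℕ) : 1 ≤ En.kap V := by
  unfold En.kap
  have h2 : (0 : ℝ) < ((primorial V).totient : ℝ) := by
    exact_mod_cast Nat.totient_pos.2 (primorial_pos V)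
  rw [le_div_iff₀ h2, one_mul]
  exact_mod_cast Nat.totient_le _

theorem den_pos (v : ℕ) : 0 < den v := by
  unfold den
  have h1 : (0 : ℝ) < (primorial v : ℝ) := by exact_mod_cast primorial_pos _
  have h2 : (0 : ℝ) < ((primorial v).totient : ℝ) := by
    exact_mod_cast Nat.totient_pos.2 (primorial_pos _)
  positivity

theorem loc_one {A : Set ℕ} {α ε : ℝ} (hε : 0 < ε) (hε1 : ε ≤ 1) (w M V N R Q : ℕ) [NeZero M]
    {J : ℕ} (a : Fin J → Gp (mo 8 w M)) (lam δ : ℝ) (hlam : 0 ≤ lam) (h8V : 8 ≤ V) (hVw : V ≤ w)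
    (hM : M.Coprime (primorial w)) (hN : N < XX w M)
    (hVX : V ≤ ⌊(XX w M : ℝ) ^ (1 / 4 : ℝ)⌋₊) (κ : ℝ) (hκ : 0 < κ)
    (hle : ∀ x : ℕ, x.Coprime (primorial V) → Ft 8 w M V N a lam A x ≤ (1 + ε / 2) * κ)
    (hRV : primorial V ∣ R) (hper : Real.exp (lam * (J * δ)) - 1 ≤ ε / 2)
    (hδ : ∀ j, ‖psi (a j * red 8 w M (R * Q)) - 1‖ ≤ δ)
    (hmean : ∀ x₀ b : ℕ, ε * N ≤ x₀ → (x₀ : ℝ) + R * Q ≤ (1 - ε) * N →
      b.Coprime (primorial V) →
      |∑ x ∈ (Ico x₀ (x₀ + R * Q)).filter (fun x => x ≡ b [MOD R]), Ft 8 w M V N a lam A x -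
        κ * α * Q| ≤ κ * (ε * Q)) :
    Loc (primorial V) R Q N α ε (fun x => Ft 8 w M V N a lam A x / κ) := by
  have h0 : ∀ x, 0 ≤ Ft 8 w M V N a lam A x := Ft_nonneg 8 w M V N a lam A
  have hz : ∀ x : ℕ, ¬ x.Coprime (primorial V) → Ft 8 w M V N a lam A x = 0 :=
    Ft_zero 8 w M V N h8V hVw hM hN hVX a lam A
  have hall : ∀ x, Ft 8 w M V N a lam A x / κ ≤ 1 + ε / 2 := by
    intro x
    rw [div_le_iff₀ hκ]
    by_cases hx : x.Coprime (primorial V)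
    · exact hle x hx
    · rw [hz x hx]
      positivity
  refine ⟨fun x => div_nonneg (h0 x) hκ.le, fun x => (hall x).trans (by linarith),
    fun x hx => by rw [hz x hx, zero_div], fun x => ?_, fun x₀ b h1 h2 hb => ?_⟩
  · have h1 := Ft_per 8 w M V N h8V hVw a lam hlam A (R * Q) (hRV.mul_right Q) δ hδ x
    rw [← sub_div, abs_div, abs_of_pos hκ, div_le_iff₀ hκ]
    refine h1.trans ?_
    calc (Real.exp (lam * (J * δ)) - 1) * Ft 8 w M V N a lam A x
        ≤ ε / 2 * Ft 8 w M V N a lam A x := mul_le_mul_of_nonneg_right hper (h0 x)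
      _ ≤ ε / 2 * ((1 + ε / 2) * κ) := by
        refine mul_le_mul_of_nonneg_left ?_ (by positivity)
        have := hall x
        rwa [div_le_iff₀ hκ] at this
      _ ≤ ε * κ := by
        have h5 : 0 ≤ ε * κ := by positivity
        have h6 : ε / 2 * ((1 + ε / 2) * κ) = (ε * κ) * ((1 + ε / 2) / 2) := by ring
        rw [h6]
        exact mul_le_of_le_one_right h5 (by linarith)
  · have h3 := hmean x₀ b h1 h2 hb
    rw [← sum_div]
    have e : (∑ x ∈ (Ico x₀ (x₀ + R * Q)).filter (fun x => x ≡ b [MOD R]),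
        Ft 8 w M V N a lam A x) / κ - α * Q =
        (∑ x ∈ (Ico x₀ (x₀ + R * Q)).filter (fun x => x ≡ b [MOD R]),
          Ft 8 w M V N a lam A x - κ * α * Q) / κ := by
      field_simp
    rw [e, abs_div, abs_of_pos hκ, div_le_iff₀ hκ]
    linarith

open Classical in
/-- `uA` as a colour class. -/
theorem uA_eq_uc (v X N : ℕ) (A : Set ℕ) : uA v X N A =
    uc v X (fun x => if x ≤ N ∧ x ∈ A then (0 : Fin 2) else 1) 0 := by
  funext x
  unfold uA uc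
  by_cases h : x ≤ N ∧ x ∈ A
  · by_cases h' : x.Prime ∧ ⌊(X : ℝ) ^ (1 / 4 : ℝ)⌋₊ < x
    · rw [if_pos ⟨h'.1, h'.2, h.1, h.2⟩, if_pos ⟨h'.1, h'.2, if_pos h⟩]
    · rw [if_neg (fun g => h' ⟨g.1, g.2.1⟩), if_neg (fun g => h' ⟨g.1, g.2.1⟩)]
  · rw [if_neg (fun g => h ⟨g.2.2.1, g.2.2.2⟩), if_neg]
    rintro ⟨-, -, g⟩
    simp only [if_neg h] at g
    exact absurd g (by decide)

/-- The choice of `σ`. -/
theorem sig_mod (P c : ℕ) (n : ℕ) (hc : c = n % P) (i : ℕ) (hi : i < P) :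
    i + (c + (P - i)) % P ≡ n [MOD P] := by
  have h1 : (c + (P - i)) % P ≡ c + (P - i) [MOD P] := Nat.mod_modEq _ _
  have h2 := h1.add_left i
  have h3 : i + (c + (P - i)) = c + P := by omega
  rw [h3] at h2
  have h4 : c + P ≡ c [MOD P] := by
    unfold Nat.ModEq
    rw [Nat.add_mod_right]
  have h5 : c ≡ n [MOD P] := by
    rw [hc]
    exact Nat.mod_modEq _ _
  exact h2.trans (h4.trans h5)

end Pool.Agent.Lib.MP_629a14_nt.Kp
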