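import Pool.Agent.Lib.MP_629a14_nt.Fourier

/-! Choice of the period. -/

set_option autoImplicit false

namespace Pool.Agent.Lib.MP_629a14_nt.Kp

open Finset Pool.Agent.Lib.MP_629a14_nt

private theorem norm_ee_sub_one_le (t : ℝ) : ‖ee t - 1‖ ≤ 2 * Real.pi * |t| := by
  have h := Real.norm_exp_I_mul_ofReal_sub_one_le (x := 2 * Real.pi * t)
  have e : ee t = Complex.exp (Complex.I * ((2 * Real.pi * t : ℝ) : ℂ)) := by
    unfold ee
    congr 1
    push_cast
    ring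
  rw [e]
  refine h.trans ?_
  rw [Real.norm_eq_abs, abs_mul, abs_of_pos (by positivity : (0 : ℝ) < 2 * Real.pi)]

private theorem ee_fract (t : ℝ) : ee (Int.fract t) = ee t := by
  have h : t = Int.fract t + (⌊t⌋ : ℤ) := by
    have := Int.fract_add_floor t
    linarith
  conv_rhs => rw [h, ee_add, ee_int, mul_one]

/-- two elements of a cell -/
private theorem cell_norm {L : ℕ} (hL : 0 < L) {δ : ℝ} (hLδ : 2 * Real.pi / L ≤ δ) {y z : ℕ}
    (hzy : z ≤ y) (t : ℝ)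
    (h : ⌊(L : ℝ) * Int.fract ((y : ℝ) * t)⌋₊ = ⌊(L : ℝ) * Int.fract ((z : ℝ) * t)⌋₊) :
    ‖ee (((y - z : ℕ) : ℝ) * t) - 1‖ ≤ δ := by
  have hL' : (0 : ℝ) < L := by exact_mod_cast hL
  have e1 : ee (((y - z : ℕ) : ℝ) * t) =
      ee (Int.fract ((y : ℝ) * t) - Int.fract ((z : ℝ) * t)) := by
    have h1 : ((y - z : ℕ) : ℝ) * t = (Int.fract ((y : ℝ) * t) - Int.fract ((z : ℝ) * t)) +
        ((⌊(y : ℝ) * t⌋ - ⌊(z : ℝ) * t⌋ : ℤ) : ℝ) := by
      have hy := Int.fract_add_floor ((y : ℝ) * t)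
      have hz := Int.fract_add_floor ((z : ℝ) * t)
      push_cast [Nat.cast_sub hzy]
      linarith
    rw [h1, ee_add, ee_int, mul_one]
  rw [e1]
  refine (norm_ee_sub_one_le _).trans ?_
  have ha := Nat.floor_le (mul_nonneg hL'.le (Int.fract_nonneg ((y : ℝ) * t)))
  have hb := Nat.lt_floor_add_one ((L : ℝ) * Int.fract ((y : ℝ) * t))
  have hc := Nat.floor_le (mul_nonneg hL'.le (Int.fract_nonneg ((z : ℝ) * t)))
  have hd := Nat.lt_floor_add_one ((L : ℝ) * Int.fract ((z : ℝ) * t))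
  rw [h] at ha hb
  have h3 : |(L : ℝ) * (Int.fract ((y : ℝ) * t) - Int.fract ((z : ℝ) * t))| ≤ 1 := by
    rw [abs_le]
    constructor <;> nlinarith
  rw [abs_mul, abs_of_pos hL'] at h3
  have h4 : |Int.fract ((y : ℝ) * t) - Int.fract ((z : ℝ) * t)| ≤ 1 / L := by
    rw [le_div_iff₀ hL']
    linarith
  calc 2 * Real.pi * |Int.fract ((y : ℝ) * t) - Int.fract ((z : ℝ) * t)|
      ≤ 2 * Real.pi * (1 / L) := by gcongr
    _ = 2 * Real.pi / L := by ring
    _ ≤ δ := hLδ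

/-- Pigeonhole principle for the vectors `(y * θ j mod 1)_j`, `1 ≤ y ≤ Y`, with cells of side
`1 / L`, `2 π / L ≤ δ`: some cell contains at least `Y / L ^ J` of the `y`, and the differences with the
smallest of them are at least `Y / L ^ J - 1` integers `y ≤ Y` with `‖ee (y θ j) - 1‖ ≤ δ`. At most
`Y / (4 L ^ J)` of these are `< Y / (4 L ^ J)`, and at most `V * Y / 2 ^ (e₀ + 1) ≤ Y / (4 L ^ J)` are divisible by
`p ^ (e₀ + 1)` for some prime `p ≤ V`. -/
theorem pig (J V : ℕ) (δ : ℝ) (hδ : 0 < δ) : ∃ (c : ℝ) (e₀ Y₀ : ℕ), 0 < c ∧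
    ∀ Y : ℕ, Y₀ ≤ Y → ∀ θ : Fin J → ℝ, ∃ y : ℕ, 1 ≤ y ∧ y ≤ Y ∧ c * Y ≤ y ∧
      (∀ p : ℕ, p.Prime → p ≤ V → ¬ p ^ (e₀ + 1) ∣ y) ∧ ∀ j, ‖ee (y * θ j) - 1‖ ≤ δ := by
  obtain ⟨L, hL⟩ := exists_nat_gt (2 * Real.pi / δ)
  have hL0 : (0 : ℝ) < L := lt_of_le_of_lt (by positivity) hL
  have hLn : 0 < L := by exact_mod_cast hL0
  have hLδ : 2 * Real.pi / L ≤ δ := by
    rw [div_le_iff₀ hL0]
    rw [div_lt_iff₀ hδ] at hL
    linarith
  set M : ℕ := L ^ J with hM
  have hMn : 0 < M := pow_pos hLn J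
  have hM0 : (0 : ℝ) < M := by exact_mod_cast hMn
  obtain ⟨e₀, he⟩ := exists_nat_gt ((4 * M * V : ℝ))
  have he2 : (4 * M * V : ℝ) ≤ 2 ^ (e₀ + 1) := by
    have h1 : ((e₀ + 1 : ℕ) : ℝ) < 2 ^ (e₀ + 1) := by exact_mod_cast Nat.lt_two_pow_self
    push_cast at h1
    linarith
  refine ⟨1 / (4 * M), e₀, 2 * M + 1, by positivity, ?_⟩
  intro Y hY θ
  have hYM : (2 * M + 1 : ℝ) ≤ Y := by exact_mod_cast hY
  have hY0 : (0 : ℝ) < Y := by linarith
  -- the cells
  let F : ℕ → (Fin J → ℕ) := fun y j => ⌊(L : ℝ) * Int.fract ((y : ℝ) * θ j)⌋₊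
  let T : Finset (Fin J → ℕ) := Fintype.piFinset (fun _ => Finset.range L)
  have hTc : T.card = M := by
    simp [T, hM]
  have hmaps : ∀ y ∈ Ioc 0 Y, F y ∈ T := by
    intro y _
    rw [Fintype.mem_piFinset]
    intro j
    rw [Finset.mem_range, Nat.floor_lt (mul_nonneg hL0.le (Int.fract_nonneg _))]
    have := Int.fract_lt_one ((y : ℝ) * θ j)
    nlinarith
  have hTne : T.Nonempty := by
    rw [← Finset.card_pos, hTc]
    exact hMn
  obtain ⟨cell, -, hcell⟩ := Finset.exists_le_card_fiber_of_nsmul_le_card_of_maps_to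
    (s := Ioc 0 Y) (t := T) (f := F) (b := (Y : ℝ) / M) hmaps hTne (by
      rw [hTc, nsmul_eq_mul, Nat.card_Ioc, Nat.sub_zero]
      rw [mul_div_cancel₀ _ hM0.ne'])
  set S : Finset ℕ := (Ioc 0 Y).filter (fun x => F x = cell) with hS
  have hSne : S.Nonempty := by
    rw [← Finset.card_pos]
    have : (0 : ℝ) < (S.card : ℝ) := lt_of_lt_of_le (by positivity) hcell
    exact_mod_cast this
  set y0 := S.min' hSne with hy0
  have hy0S : y0 ∈ S := S.min'_mem hSne
  set D : Finset ℕ := (S.erase y0).image (fun y => y - y0) with hD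
  have hlt : ∀ y ∈ S.erase y0, y0 < y := by
    intro y hy
    rw [Finset.mem_erase] at hy
    exact lt_of_le_of_ne (S.min'_le y hy.2) (Ne.symm hy.1)
  have hDc : D.card = S.card - 1 := by
    rw [hD, Finset.card_image_of_injOn, Finset.card_erase_of_mem hy0S]
    intro a ha b hb hab
    have h1 := hlt a ha
    have h2 := hlt b hb
    simp only at hab
    omega
  -- the bad ones
  set B1 : Finset ℕ := Ioc 0 ⌊(1 / (4 * M) : ℝ) * Y⌋₊ with hB1
  set B2 : Finset ℕ := ((Finset.range (V + 1)).filter Nat.Prime).biUnion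
    (fun p => (Ioc 0 Y).filter (fun y => p ^ (e₀ + 1) ∣ y)) with hB2
  have hB1c : (B1.card : ℝ) ≤ (1 / (4 * M) : ℝ) * Y := by
    rw [hB1, Nat.card_Ioc, Nat.sub_zero]
    exact Nat.floor_le (by positivity)
  have hB2c : (B2.card : ℝ) ≤ (1 / (4 * M) : ℝ) * Y := by
    have h1 : B2.card ≤ ∑ p ∈ (Finset.range (V + 1)).filter Nat.Prime,
        ((Ioc 0 Y).filter (fun y => p ^ (e₀ + 1) ∣ y)).card := Finset.card_biUnion_le
    have h2 : (∑ p ∈ (Finset.range (V + 1)).filter Nat.Prime,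
        (((Ioc 0 Y).filter (fun y => p ^ (e₀ + 1) ∣ y)).card : ℝ)) ≤
        ∑ p ∈ (Finset.range (V + 1)).filter Nat.Prime, (Y : ℝ) / 2 ^ (e₀ + 1) := by
      refine Finset.sum_le_sum ?_
      intro p hp
      have hp2 : 2 ≤ p := (Finset.mem_filter.1 hp).2.two_le
      rw [Nat.Ioc_filter_dvd_card_eq_div]
      refine Nat.cast_div_le.trans ?_
      push_cast
      have : (2 : ℝ) ≤ p := by exact_mod_cast hp2
      gcongr
    have h3 : ((Finset.range (V + 1)).filter Nat.Prime).card ≤ V := by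
      have h4 : (Finset.range (V + 1)).filter Nat.Prime ⊆ Ioc 0 V := by
        intro p hp
        rw [Finset.mem_filter, Finset.mem_range] at hp
        rw [Finset.mem_Ioc]
        exact ⟨hp.2.pos, by omega⟩
      have := Finset.card_le_card h4
      rwa [Nat.card_Ioc, Nat.sub_zero] at this
    rw [Finset.sum_const, nsmul_eq_mul] at h2
    have h5 : (B2.card : ℝ) ≤ V * ((Y : ℝ) / 2 ^ (e₀ + 1)) := by
      have h6 : (B2.card : ℝ) ≤ ∑ p ∈ (Finset.range (V + 1)).filter Nat.Prime,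
        (((Ioc 0 Y).filter (fun y => p ^ (e₀ + 1) ∣ y)).card : ℝ) := by exact_mod_cast h1
      refine h6.trans (h2.trans ?_)
      have : (((Finset.range (V + 1)).filter Nat.Prime).card : ℝ) ≤ V := by exact_mod_cast h3
      gcongr
    refine h5.trans ?_
    have h7 : (0 : ℝ) < 2 ^ (e₀ + 1) := by positivity
    rw [← mul_div_assoc, div_le_iff₀ h7]
    have h8 : (1 / (4 * M) : ℝ) * Y * (4 * M * V) ≤ 1 / (4 * M) * Y * 2 ^ (e₀ + 1) := by
      gcongr
    have h9 : (1 / (4 * M) : ℝ) * Y * (4 * M * V) = V * Y := by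
      field_simp
    linarith
  have hcard : (B1 ∪ B2).card < D.card := by
    have h1 : ((B1 ∪ B2).card : ℝ) ≤ B1.card + B2.card := by
      exact_mod_cast Finset.card_union_le B1 B2
    have h2 : (1 : ℕ) ≤ S.card := Finset.card_pos.2 hSne
    have h3 : (D.card : ℝ) = S.card - 1 := by
      rw [hDc]
      push_cast [Nat.cast_sub h2]
      ring
    have h4 : (Y : ℝ) / M = 4 * ((1 / (4 * M) : ℝ) * Y) := by
      field_simp
    have h5 : (1 : ℝ) < 2 * ((1 / (4 * M) : ℝ) * Y) := by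
      have : 2 * ((1 / (4 * M) : ℝ) * Y) = Y / (2 * M) := by
        field_simp
        norm_num
      rw [this, one_lt_div (by positivity)]
      linarith
    have h6 : ((B1 ∪ B2).card : ℝ) < D.card := by
      rw [h3]
      have h7 : (Y : ℝ) / M ≤ S.card := hcell
      linarith
    exact_mod_cast h6
  obtain ⟨y, hyD, hyB⟩ := Finset.exists_mem_notMem_of_card_lt_card hcard
  rw [hD, Finset.mem_image] at hyD
  obtain ⟨z, hz, hzy⟩ := hyD
  have hz0 := hlt z hz
  have hzS : z ∈ S := Finset.mem_of_mem_erase hz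
  have hzY : z ≤ Y := by
    rw [hS, Finset.mem_filter, Finset.mem_Ioc] at hzS
    exact hzS.1.2
  have hy1 : 1 ≤ y := by omega
  have hyY : y ≤ Y := by omega
  rw [Finset.mem_union, not_or] at hyB
  refine ⟨y, hy1, hyY, ?_, ?_, ?_⟩
  · by_contra hlt'
    rw [not_le] at hlt'
    apply hyB.1
    rw [hB1, Finset.mem_Ioc]
    exact ⟨hy1, Nat.le_floor hlt'.le⟩
  · intro p hp hpV hdvd
    apply hyB.2
    rw [hB2, Finset.mem_biUnion]
    refine ⟨p, ?_, ?_⟩
    · rw [Finset.mem_filter, Finset.mem_range]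
      exact ⟨by omega, hp⟩
    · rw [Finset.mem_filter, Finset.mem_Ioc]
      exact ⟨⟨hy1, hyY⟩, hdvd⟩
  · intro j
    rw [← hzy]
    refine cell_norm hLn hLδ hz0.le (θ j) ?_
    rw [hS, Finset.mem_filter] at hzS hy0S
    have h1 : F z j = F y0 j := by rw [hzS.2, hy0S.2]
    exact h1

/-- The part of `y` composed of the primes `p ≤ V` divides `(∏_{p ≤ V} p) ^ e₀`. -/
theorem smooth_split (V e₀ : ℕ) : ∃ q₀ : ℕ, ∀ y : ℕ, 1 ≤ y →
    (∀ p : ℕ, p.Prime → p ≤ V → ¬ p ^ (e₀ + 1) ∣ y) →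
    ∃ q Q : ℕ, y = q * Q ∧ 1 ≤ q ∧ q ≤ q₀ ∧ 1 ≤ Q ∧ (∀ p : ℕ, p.Prime → p ∣ q → p ≤ V) ∧
      (∀ p : ℕ, p.Prime → p ∣ Q → V < p) := by
  refine ⟨((V + 1) ^ e₀) ^ (V + 1), ?_⟩
  intro y hy hdiv
  have hy0 : y ≠ 0 := by omega
  have hprod : (∏ p ∈ y.primeFactors.filter (fun p => p ≤ V), p ^ (y.factorization p)) *
      (∏ p ∈ y.primeFactors.filter (fun p => ¬ p ≤ V), p ^ (y.factorization p)) = y := by
    rw [Finset.prod_filter_mul_prod_filter_not]
    exact Nat.prod_factorization_pow_eq_self hy0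
  refine ⟨_, _, hprod.symm, ?_, ?_, ?_, ?_, ?_⟩
  · refine Finset.one_le_prod' ?_
    intro p hp
    exact Nat.one_le_pow _ _ (Nat.pos_of_mem_primeFactors (Finset.mem_filter.1 hp).1)
  · refine (Finset.prod_le_pow_card _ _ ((V + 1) ^ e₀) ?_).trans ?_
    · intro p hp
      rw [Finset.mem_filter] at hp
      have hpp := Nat.prime_of_mem_primeFactors hp.1
      have h1 : y.factorization p ≤ e₀ := by
        by_contra h
        rw [not_le] at h
        exact hdiv p hpp hp.2 ((hpp.pow_dvd_iff_le_factorization hy0).2 h)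
      calc p ^ (y.factorization p) ≤ (V + 1) ^ (y.factorization p) :=
            Nat.pow_le_pow_left (by omega) _
        _ ≤ (V + 1) ^ e₀ := Nat.pow_le_pow_right (by omega) h1
    · refine Nat.pow_le_pow_right (Nat.pos_of_ne_zero (by positivity)) ?_
      have h4 : y.primeFactors.filter (fun p => p ≤ V) ⊆ Finset.range (V + 1) := by
        intro p hp
        rw [Finset.mem_filter] at hp
        rw [Finset.mem_range]
        omega
      have := Finset.card_le_card h4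
      rwa [Finset.card_range] at this
  · refine Finset.one_le_prod' ?_
    intro p hp
    exact Nat.one_le_pow _ _ (Nat.pos_of_mem_primeFactors (Finset.mem_filter.1 hp).1)
  · intro p hp hd
    obtain ⟨r, hr, hpr⟩ := (Nat.Prime.prime hp).exists_mem_finset_dvd hd
    rw [Finset.mem_filter] at hr
    have hrr := Nat.prime_of_mem_primeFactors hr.1
    have := (Nat.prime_dvd_prime_iff_eq hp hrr).1 (hp.dvd_of_dvd_pow hpr)
    rw [this]
    exact hr.2
  · intro p hp hd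
    obtain ⟨r, hr, hpr⟩ := (Nat.Prime.prime hp).exists_mem_finset_dvd hd
    rw [Finset.mem_filter] at hr
    have hrr := Nat.prime_of_mem_primeFactors hr.1
    have := (Nat.prime_dvd_prime_iff_eq hp hrr).1 (hp.dvd_of_dvd_pow hpr)
    rw [this]
    exact not_le.1 hr.2

end Pool.Agent.Lib.MP_629a14_nt.Kp
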