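import Pool.Agent.Lib.MP_629a14_nt.Kp.SDefs

/-! Inequalities for large `N`. -/

set_option autoImplicit false

namespace Pool.Agent.Lib.MP_629a14_nt.Kp

open Finset Filter Topology Pool.Agent.Lib.MP_629a14_nt Pool.Agent.Lib.MP_629a14_nt.Rob
open Pool.Agent.Lib.MP_629a14_nt.Ml

theorem scales (V n₀ X₀ : ℕ) (c ε₁ ρ : ℝ) (hc : 0 < c) (hε₁ : 0 < ε₁) (hρ : 0 < ρ)
    (hρ1 : ρ ≤ 1) : ∃ N₀ : ℕ, ∀ N : ℕ, N₀ ≤ N → ∀ X : ℕ, 2 * N ≤ X → X ≤ 4 * N →
      2 ≤ N ∧ V ≤ ⌊(X : ℝ) ^ (1 / 4 : ℝ)⌋₊ ∧ 1 ≤ c * X ∧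
      (2 * (X : ℝ) ^ (1 / 4 : ℝ) + 2) * Real.log X ^ 2 ≤ c * N ∧ (n₀ : ℝ) ≤ ε₁ * N ∧ X₀ ≤ X ∧
      (∀ n : ℕ, ε₁ * N ≤ n → (1 - ρ) * Real.log X ^ 2 ≤ Real.log n ^ 2) := by
  have h0 : Tendsto (fun N : ℕ => (N : ℝ)) atTop atTop := tendsto_natCast_atTop_atTop
  have h1 : ∀ᶠ N : ℕ in atTop, (V : ℝ) ^ 4 ≤ N := h0.eventually_ge_atTop _
  have h2 : ∀ᶠ N : ℕ in atTop, 1 / c ≤ (N : ℝ) := h0.eventually_ge_atTop _
  have h3 : ∀ᶠ N : ℕ in atTop, (512 / c) ^ 2 ≤ (N : ℝ) := h0.eventually_ge_atTop _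
  have h4 : ∀ᶠ N : ℕ in atTop, (n₀ : ℝ) / ε₁ ≤ (N : ℝ) := h0.eventually_ge_atTop _
  have h5 : ∀ᶠ N : ℕ in atTop, Real.exp (2 / ρ * |Real.log (4 / ε₁)| + |Real.log (4 / ε₁)|) ≤
    (N : ℝ) := h0.eventually_ge_atTop _
  obtain ⟨N₀, hN₀⟩ := eventually_atTop.1
    (h1.and (h2.and (h3.and (h4.and (h5.and ((eventually_ge_atTop (max 2 X₀))))))))
  refine ⟨N₀, fun N hN X hX1 hX2 => ?_⟩
  obtain ⟨g1, g2, g3, g4, g5, g6⟩ := hN₀ N hN
  have hN2 : 2 ≤ N := (le_max_left _ _).trans g6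
  have hNX : X₀ ≤ N := (le_max_right _ _).trans g6
  have hN0 : (0 : ℝ) < N := by exact_mod_cast (by omega : 0 < N)
  have hNr : (2 : ℝ) ≤ N := by exact_mod_cast hN2
  have hXN : (N : ℝ) ≤ X := by exact_mod_cast (by omega : N ≤ X)
  have hX4 : (X : ℝ) ≤ 4 * N := by exact_mod_cast hX2
  have hX0 : (0 : ℝ) < X := by linarith
  have hX1r : (1 : ℝ) ≤ X := by linarith
  refine ⟨hN2, ?_, ?_, ?_, ?_, by omega, ?_⟩
  · refine Nat.le_floor ?_
    have e1 : ((V : ℝ) ^ 4) ^ (1 / 4 : ℝ) = V := by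
      rw [← Real.rpow_natCast, ← Real.rpow_mul (Nat.cast_nonneg V)]
      norm_num
    rw [← e1]
    exact Real.rpow_le_rpow (by positivity) (g1.trans hXN) (by norm_num)
  · rw [div_le_iff₀ hc] at g2
    nlinarith
  · have e1 := Real.log_le_rpow_div hX0.le (by norm_num : (0 : ℝ) < 1 / 8)
    have hlog : 0 ≤ Real.log X := Real.log_nonneg hX1r
    have e2 : Real.log X ^ 2 ≤ 64 * (X : ℝ) ^ (1 / 4 : ℝ) := by
      have e3 := pow_le_pow_left₀ hlog e1 2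
      have e4 : ((X : ℝ) ^ (1 / 8 : ℝ) / (1 / 8)) ^ 2 = 64 * (X : ℝ) ^ (1 / 4 : ℝ) := by
        rw [div_pow, ← Real.rpow_natCast, ← Real.rpow_mul hX0.le]
        norm_num
        ring
      rwa [e4] at e3
    have e5 : 1 ≤ (X : ℝ) ^ (1 / 4 : ℝ) := Real.one_le_rpow hX1r (by norm_num)
    have e6 : (X : ℝ) ^ (1 / 4 : ℝ) * (X : ℝ) ^ (1 / 4 : ℝ) = Real.sqrt X := by
      rw [← Real.rpow_add hX0, Real.sqrt_eq_rpow]
      norm_num
    have e7 : Real.sqrt X ≤ 2 * Real.sqrt N := by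
      have : Real.sqrt (4 * N) = 2 * Real.sqrt N := by
        rw [Real.sqrt_mul (by norm_num)]
        congr 1
        rw [show (4 : ℝ) = 2 ^ 2 by norm_num, Real.sqrt_sq (by norm_num)]
      rw [← this]
      exact Real.sqrt_le_sqrt hX4
    have e8 : 512 / c ≤ Real.sqrt N := Real.le_sqrt_of_sq_le g3
    have e9 : Real.sqrt N * Real.sqrt N = N := Real.mul_self_sqrt hN0.le
    have e10 : 0 ≤ Real.sqrt N := Real.sqrt_nonneg _
    rw [div_le_iff₀ hc] at e8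
    calc (2 * (X : ℝ) ^ (1 / 4 : ℝ) + 2) * Real.log X ^ 2
        ≤ (4 * (X : ℝ) ^ (1 / 4 : ℝ)) * (64 * (X : ℝ) ^ (1 / 4 : ℝ)) :=
          mul_le_mul (by linarith) e2 (by positivity) (by positivity)
      _ = 256 * Real.sqrt X := by rw [← e6]; ring
      _ ≤ 512 * Real.sqrt N := by linarith
      _ ≤ (Real.sqrt N * c) * Real.sqrt N := mul_le_mul_of_nonneg_right e8 e10
      _ = c * N := by rw [mul_right_comm, e9]; ring
  · rw [div_le_iff₀ hε₁] at g4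
    linarith
  · intro n hn
    set T := |Real.log (4 / ε₁)| with hT
    have hT0 : 0 ≤ T := abs_nonneg _
    have e1 : Real.log (4 / ε₁) ≤ T := le_abs_self _
    have e2 : 2 / ρ * T + T ≤ Real.log N := by
      have := Real.log_le_log (Real.exp_pos _) g5
      rwa [Real.log_exp] at this
    have e3 : Real.log X ≤ Real.log 4 + Real.log N := by
      rw [← Real.log_mul (by norm_num) hN0.ne']
      exact Real.log_le_log hX0 hX4
    have e4 : Real.log ε₁ + Real.log N ≤ Real.log n := by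
      rw [← Real.log_mul hε₁.ne' hN0.ne']
      exact Real.log_le_log (by positivity) hn
    rw [Real.log_div (by norm_num) hε₁.ne'] at e1
    have e5 : Real.log X - T ≤ Real.log n := by linarith
    have e6 : Real.log N ≤ Real.log X := Real.log_le_log hN0 hXN
    have e7 : T ≤ ρ / 2 * Real.log X := by
      have h6 : 2 / ρ * T ≤ Real.log X := by linarith
      have h7 := mul_le_mul_of_nonneg_left h6 (by positivity : 0 ≤ ρ / 2)
      have h8 : ρ / 2 * (2 / ρ * T) = T := by field_simp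
      linarith
    have hlX : 0 ≤ Real.log X := Real.log_nonneg hX1r
    have e8 : (1 - ρ / 2) * Real.log X ≤ Real.log n := by linarith
    have e9 : 0 ≤ (1 - ρ / 2) * Real.log X := mul_nonneg (by linarith) hlX
    have e10 := pow_le_pow_left₀ e9 e8 2
    refine le_trans ?_ e10
    have : 0 ≤ ρ ^ 2 / 4 * Real.log X ^ 2 := by positivity
    nlinarith

end Pool.Agent.Lib.MP_629a14_nt.Kp
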