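import Pool.Agent.Lib.MP_629a14_nt.Kp.SBas
import Pool.Agent.Lib.MP_629a14_nt.Kp.SArch

/-! The mass of the smoothed function. -/

set_option autoImplicit false

namespace Pool.Agent.Lib.MP_629a14_nt.Kp

open Finset Pool.Agent.Lib.MP_629a14_nt Pool.Agent.Lib.MP_629a14_nt.Ml

private theorem shift_inj (X t : ℕ) {x y : ℕ} (hx : x ∈ Icc 1 X) (hy : y ∈ Icc 1 X)
    (h : (x + t) % X = (y + t) % X) : x = y := by
  rw [mem_Icc] at hx hy
  have h1 : x ≡ y [MOD X] := Nat.ModEq.add_right_cancel' t h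
  rcases le_total x y with hxy | hxy
  · have h2 := (Nat.modEq_iff_dvd' hxy).1 h1
    by_contra hne
    have h3 := Nat.le_of_dvd (by omega) h2
    omega
  · have h2 := (Nat.modEq_iff_dvd' hxy).1 h1.symm
    by_contra hne
    have h3 := Nat.le_of_dvd (by omega) h2
    omega

private theorem shift_le (X t : ℕ) (f : ℕ → ℝ) (hf : ∀ x, 0 ≤ f x) (s T : Finset ℕ)
    (hs : s ⊆ Icc 1 X) (h : ∀ x ∈ s, f ((x + t) % X) ≠ 0 → (x + t) % X ∈ T) :
    ∑ x ∈ s, f ((x + t) % X) ≤ ∑ y ∈ T, f y := by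
  classical
  rw [← sum_filter_ne_zero]
  have h1 : ∑ x ∈ s.filter (fun x => f ((x + t) % X) ≠ 0), f ((x + t) % X) =
      ∑ y ∈ (s.filter (fun x => f ((x + t) % X) ≠ 0)).image (fun x => (x + t) % X), f y := by
    rw [sum_image]
    intro x hx y hy hxy
    exact shift_inj X t (hs (mem_filter.1 hx).1) (hs (mem_filter.1 hy).1) hxy
  rw [h1]
  refine sum_le_sum_of_subset_of_nonneg ?_ fun y _ _ => hf y
  intro y hy
  rw [mem_image] at hy
  obtain ⟨x, hx, rfl⟩ := hy
  rw [mem_filter] at hx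
  exact h x hx.1 hx.2

private theorem shift_eq (X t : ℕ) (hX : 0 < X) (f : ℕ → ℝ) :
    ∑ x ∈ Icc 1 X, f ((x + t) % X) = ∑ y ∈ range X, f y := by
  classical
  have h1 : (Icc 1 X).image (fun x => (x + t) % X) = range X := by
    apply eq_of_subset_of_card_le
    · intro y hy
      rw [mem_image] at hy
      obtain ⟨x, _, rfl⟩ := hy
      exact mem_range.2 (Nat.mod_lt _ hX)
    · rw [card_image_of_injOn, Nat.card_Icc, card_range]
      · omega
      · intro x hx y hy hxy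
        exact shift_inj X t hx hy hxy
  rw [← h1, sum_image]
  intro x hx y hy hxy
  exact shift_inj X t hx hy hxy

private theorem XX_pos (w M : ℕ) [NeZero M] : 0 < XX w M := by
  unfold XX
  exact Nat.mul_pos (primorial_pos w) (NeZero.pos M)

private theorem ka_fib (v w M : ℕ) [NeZero M] (hvw : v ≤ w) (hM : M.Coprime (primorial w))
    {J : ℕ} (a : Fin J → Gp (mo v w M)) (lam : ℝ) (E : Finset (Ix v w)) :
    ∑ t ∈ fib v w M 0, ka a lam E (red v w M t) = 1 := by
  have h := sum_fib v w M 0 hvw hM (fun g => ((ka a lam E g : ℝ) : ℂ))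
  rw [← Complex.ofReal_sum, ← Complex.ofReal_sum, ka_sum] at h
  exact_mod_cast h

private theorem uA_gt (v X N : ℕ) (A : Set ℕ) {x : ℕ} (h : uA v X N A x ≠ 0) :
    1 ≤ x ∧ x ≤ N := by
  unfold uA at h
  split_ifs at h with h1
  · exact ⟨h1.1.one_lt.le, h1.2.2.1⟩
  · exact absurd rfl h

/-- `Ft_int`, and for fixed `t` the map `x ↦ (x + t) % X` is a bijection of the residues; the kernel
has total mass `1` (`ka_sum`, `sum_fib`). -/
theorem Ft_total (v w M V N : ℕ) [NeZero M] (hvw : v ≤ w) (hM : M.Coprime (primorial w))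
    (hN : N < XX w M) {J : ℕ} (a : Fin J → Gp (mo v w M)) (lam : ℝ) (A : Set ℕ) :
    ∑ x ∈ Icc 1 (XX w M), Ft v w M V N a lam A x = ∑ x ∈ Icc 1 N, uA v (XX w M) N A x := by
  rw [sum_congr rfl fun x _ => Ft_int v w M V N hvw hM hN a lam A x, sum_comm]
  have h1 : ∀ t ∈ fib v w M 0, ∑ x ∈ Icc 1 (XX w M),
      ka a lam (svE v w V) (red v w M t) * uA v (XX w M) N A ((x + t) % XX w M) =
      ka a lam (svE v w V) (red v w M t) * ∑ x ∈ Icc 1 N, uA v (XX w M) N A x := by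
    intro t _
    rw [← mul_sum, shift_eq _ _ (XX_pos w M)]
    congr 1
    symm
    apply sum_subset_zero_on_sdiff
    · intro x hx
      rw [mem_Icc] at hx
      rw [mem_range]
      omega
    · intro x hx
      rw [mem_sdiff, mem_Icc] at hx
      by_contra h
      exact hx.2 (uA_gt v _ N A h)
    · intro x _
      rfl
  rw [sum_congr rfl h1, ← sum_mul, ka_fib v w M hvw hM, one_mul]

/-- The mass outside `[1, N]`: for `t ≤ ζ X` the elements `(x + t) % X ≤ N`, `N < x ≤ X`, are `≤ ζ X`, for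
`t ≥ (1 - ζ) X` they lie in `(N - ζ X, N]`; the other `t` have mass at most `η` and contribute at most
the total mass. -/
theorem Ft_tail (v w M V N : ℕ) [NeZero M] (hvw : v ≤ w) (hM : M.Coprime (primorial w))
    (hN : N < XX w M) {J : ℕ} (a : Fin J → Gp (mo v w M)) (lam : ℝ) (A : Set ℕ) (ζ η : ℝ)
    (hζ : 0 < ζ) (hζN : ζ * XX w M ≤ N)
    (hη : ∑ t ∈ (fib v w M 0).filter (fun t : ℕ => ζ * XX w M ≤ t ∧ (t : ℝ) ≤ (1 - ζ) * XX w M),
      ka a lam (svE v w V) (red v w M t) ≤ η) :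
    ∑ x ∈ Ioc N (XX w M), Ft v w M V N a lam A x ≤
      ∑ x ∈ Ico 0 (⌊ζ * XX w M⌋₊ + 1), uA v (XX w M) N A x +
      ∑ x ∈ Ico (N - ⌊ζ * XX w M⌋₊) (N + 1), uA v (XX w M) N A x +
      η * ∑ x ∈ Icc 1 N, uA v (XX w M) N A x := by
  classical
  have hXp := XX_pos w M
  set X := XX w M with hX
  set Z := ⌊ζ * X⌋₊ with hZ
  set u := uA v X N A with hu
  have hu0 : ∀ x, 0 ≤ u x := uA_nonneg v X N A
  have hXr : (0 : ℝ) < X := by exact_mod_cast hXp
  have hζX : 0 ≤ ζ * X := by positivity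
  have hZle : (Z : ℝ) ≤ ζ * X := Nat.floor_le hζX
  have hZN : Z ≤ N := by exact_mod_cast hZle.trans hζN
  rw [sum_congr rfl fun x _ => Ft_int v w M V N hvw hM hN a lam A x, sum_comm]
  simp_rw [← mul_sum]
  set S1 := ∑ x ∈ Ico 0 (Z + 1), u x with hS1
  set S2 := ∑ x ∈ Ico (N - Z) (N + 1), u x with hS2
  set T := ∑ x ∈ Icc 1 N, u x with hT
  have hS1n : 0 ≤ S1 := sum_nonneg fun x _ => hu0 x
  have hS2n : 0 ≤ S2 := sum_nonneg fun x _ => hu0 x
  have hTn : 0 ≤ T := sum_nonneg fun x _ => hu0 x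
  have hsub : Ioc N X ⊆ Icc 1 X := by
    intro x hx
    rw [mem_Ioc] at hx
    rw [mem_Icc]
    omega
  have key : ∀ t ∈ fib v w M 0, ∑ x ∈ Ioc N X, u ((x + t) % X) ≤
      S1 + S2 + if ζ * X ≤ (t : ℝ) ∧ (t : ℝ) ≤ (1 - ζ) * X then T else 0 := by
    intro t ht
    unfold fib at ht
    rw [mem_filter, mem_Icc] at ht
    obtain ⟨⟨ht1, ht2⟩, -⟩ := ht
    by_cases hc : ζ * X ≤ (t : ℝ) ∧ (t : ℝ) ≤ (1 - ζ) * X
    · rw [if_pos hc]
      have h1 : ∑ x ∈ Ioc N X, u ((x + t) % X) ≤ T := by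
        refine shift_le X t u hu0 _ _ hsub fun x _ h => ?_
        rw [mem_Icc]
        exact uA_gt v X N A h
      linarith
    · rw [if_neg hc, add_zero]
      rcases lt_or_ge (t : ℝ) (ζ * X) with h1 | h1
      · have htZ : t ≤ Z := Nat.le_floor h1.le
        have h2 : ∑ x ∈ Ioc N X, u ((x + t) % X) ≤ S1 := by
          refine shift_le X t u hu0 _ _ hsub fun x hx h => ?_
          rw [mem_Ioc] at hx
          rw [mem_Ico]
          refine ⟨Nat.zero_le _, ?_⟩
          have h3 := (uA_gt v X N A h).2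
          rcases lt_or_ge (x + t) X with h4 | h4
          · rw [Nat.mod_eq_of_lt h4] at h3
            omega
          · rw [Nat.mod_eq_sub_mod h4]
            have h5 := Nat.mod_le (x + t - X) X
            omega
        linarith
      · have h2 : (1 - ζ) * X < t := by
          by_contra h
          exact hc ⟨h1, not_lt.1 h⟩
        have h2' : ∑ x ∈ Ioc N X, u ((x + t) % X) ≤ S2 := by
          refine shift_le X t u hu0 _ _ hsub fun x hx h => ?_
          rw [mem_Ioc] at hx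
          rw [mem_Ico]
          have h3 := uA_gt v X N A h
          refine ⟨?_, by omega⟩
          have h6 : X ≤ x + t := by
            have h7 : (X : ℝ) < (x : ℝ) + t := by
              have h8 : (N : ℝ) < x := by exact_mod_cast hx.1
              linarith
            exact_mod_cast h7.le
          have h9 : X - t ≤ Z := by
            apply Nat.le_floor
            rw [Nat.cast_sub ht2]
            linarith
          rcases eq_or_lt_of_le (by omega : x + t ≤ 2 * X) with h10 | h10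
          · rw [h10, Nat.mul_mod_left] at h3
            omega
          · rw [Nat.mod_eq_sub_mod h6, Nat.mod_eq_of_lt (by omega)]
            omega
        linarith
  have hka := ka_fib v w M hvw hM a lam (svE v w V)
  calc ∑ t ∈ fib v w M 0, ka a lam (svE v w V) (red v w M t) * ∑ x ∈ Ioc N X, u ((x + t) % X)
      ≤ ∑ t ∈ fib v w M 0, ka a lam (svE v w V) (red v w M t) *
        (S1 + S2 + if ζ * X ≤ (t : ℝ) ∧ (t : ℝ) ≤ (1 - ζ) * X then T else 0) :=
        sum_le_sum fun t ht => mul_le_mul_of_nonneg_left (key t ht) (ka_nonneg a lam _ _)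
    _ = (∑ t ∈ fib v w M 0, ka a lam (svE v w V) (red v w M t)) * (S1 + S2) +
        (∑ t ∈ (fib v w M 0).filter (fun t : ℕ => ζ * X ≤ (t : ℝ) ∧ (t : ℝ) ≤ (1 - ζ) * X),
          ka a lam (svE v w V) (red v w M t)) * T := by
        rw [sum_mul, sum_mul, sum_filter, ← sum_add_distrib]
        refine sum_congr rfl fun t _ => ?_
        split_ifs <;> ring
    _ ≤ S1 + S2 + η * T := by
        rw [hka, one_mul]
        have := mul_le_mul_of_nonneg_right hη hTn
        linarith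

/-- The second sums of `cvm_Ft`: in each term `x > N` or `n + X - x > N` (as `2 N ≤ X`). -/
theorem wrap_sum (X N : ℕ) (hN : 2 * N ≤ X) (φ ψ : ℕ → ℝ) (hφ : ∀ x, 0 ≤ φ x)
    (hψ : ∀ x, 0 ≤ ψ x) :
    ∑ n ∈ Icc 1 N, ∑ x ∈ Icc n X, φ x * ψ (n + X - x) ≤
      (∑ x ∈ Ioc N X, φ x) * (∑ y ∈ Icc 1 X, ψ y) +
      (∑ x ∈ Icc 1 X, φ x) * (∑ y ∈ Ioc N X, ψ y) := by
  classical
  rw [sum_mul_sum, sum_mul_sum, ← sum_product', ← sum_product']
  rw [sum_sigma']
  have h1 : ∑ p ∈ (Icc 1 N).sigma (fun n => Icc n X), φ p.2 * ψ (p.1 + X - p.2) =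
      ∑ q ∈ ((Icc 1 N).sigma (fun n => Icc n X)).image
        (fun p => ((p.2, p.1 + X - p.2) : ℕ × ℕ)), φ q.1 * ψ q.2 := by
    rw [sum_image]
    rintro ⟨n, x⟩ hp ⟨n', x'⟩ hp' h
    rw [mem_coe, mem_sigma, mem_Icc, mem_Icc] at hp hp'
    simp only [Prod.mk.injEq] at h hp hp'
    obtain ⟨h2, h3⟩ := h
    subst h2
    have h4 : n = n' := by omega
    subst h4
    rfl
  rw [h1]
  have h2 : ((Icc 1 N).sigma (fun n => Icc n X)).image
      (fun p => ((p.2, p.1 + X - p.2) : ℕ × ℕ)) ⊆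
      (Ioc N X ×ˢ Icc 1 X) ∪ (Icc 1 X ×ˢ Ioc N X) := by
    intro q hq
    rw [mem_image] at hq
    obtain ⟨⟨n, x⟩, hp, rfl⟩ := hq
    rw [mem_sigma, mem_Icc, mem_Icc] at hp
    simp only at hp
    rw [mem_union, mem_product, mem_product, mem_Ioc, mem_Icc, mem_Ioc, mem_Icc]
    simp only
    omega
  have hnn : ∀ q : ℕ × ℕ, 0 ≤ φ q.1 * ψ q.2 := fun q => mul_nonneg (hφ _) (hψ _)
  refine (sum_le_sum_of_subset_of_nonneg h2 fun q _ _ => hnn q).trans ?_
  have h3 := sum_union_inter (s₁ := Ioc N X ×ˢ Icc 1 X) (s₂ := Icc 1 X ×ˢ Ioc N X)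
    (f := fun q : ℕ × ℕ => φ q.1 * ψ q.2)
  have h4 : 0 ≤ ∑ q ∈ (Ioc N X ×ˢ Icc 1 X) ∩ (Icc 1 X ×ˢ Ioc N X), φ q.1 * ψ q.2 :=
    sum_nonneg fun q _ => hnn q
  linarith

end Pool.Agent.Lib.MP_629a14_nt.Kp
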