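import Pool.Agent.Lib.MP_629a14_nt.Kp.SExc
import Pool.Agent.Lib.MP_629a14_nt.Kp.SLoc
import Pool.Agent.Lib.MP_629a14_nt.Kp.GArch
import Pool.Agent.Lib.MP_629a14_nt.Kp.GMean
import Pool.Agent.Lib.MP_629a14_nt.Kp.GSL
import Pool.Agent.Lib.MP_629a14_nt.Kp.SScale
import Pool.Agent.Lib.MP_629a14_nt.Kp.SDsum
import Pool.Agent.Lib.MP_629a14_nt.Kp.SCvm
import Pool.Agent.Lib.MP_629a14_nt.Kp.SWrap
import Pool.Agent.Lib.MP_629a14_nt.Kp.SPig
import Pool.Agent.Lib.MP_629a14_nt.Ml.TRes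
import Pool.Agent.Lib.MP_629a14_nt.Ml.TSup

/-! The structure theorem for arbitrary sets of primes. -/

set_option autoImplicit false

namespace Pool.Agent.Lib.MP_629a14_nt.Kp

open Finset Filter Topology Pool.Agent.Lib.MP_629a14_nt Pool.Agent.Lib.MP_629a14_nt.Rob
open Pool.Agent.Lib.MP_629a14_nt.Ml

theorem StrucG.mono {W v R₀ N : ℕ} {c : ℝ} {A B : Set ℕ} {ε ε' : ℝ}
    (h : StrucG W v R₀ c N A B ε) (hε : ε ≤ ε') : StrucG W v R₀ c N A B ε' := by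
  obtain ⟨R, Q, h1, h2, h3, h4, h5, h6, h7, h8, h9, T, κ, τ, h10, h11, h12, f, g, hf, hg, h13⟩ := h
  have hN : (0 : ℝ) ≤ N := Nat.cast_nonneg N
  have hmul : ε * N ≤ ε' * N := mul_le_mul_of_nonneg_right hε hN
  have hQ : (0 : ℝ) ≤ Q := Nat.cast_nonneg Q
  have key : ∀ (f : ℕ → ℝ) (D : Set ℕ), LocG (primorial v) R Q N T κ τ D (En.kap v) ε f →
      LocG (primorial v) R Q N T κ τ D (En.kap v) ε' f := by
    intro f D hf
    refine ⟨hf.nonneg, fun x => (hf.le x).trans (by linarith), hf.supp,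
      fun x => (hf.per x).trans hε, fun x₀ b hx hx' hb => ?_⟩
    refine (hf.mean x₀ b (hmul.trans hx) (hx'.trans ?_) hb).trans
      (mul_le_mul_of_nonneg_right hε hQ)
    linarith
  refine ⟨R, Q, h1, h2, h3, h4, h5, h6, h7, h8.trans hmul, h9, T, κ, τ,
    fun t ht => ⟨(h10 t ht).1, (h10 t ht).2.1, (h10 t ht).2.2.1.trans hmul, (h10 t ht).2.2.2⟩,
    h11, le_trans (by linarith) h12, f, g, key f A hf, key g B hg, ?_⟩
  refine le_trans ?_ (h13.trans hmul)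
  have : (Icc 1 N).filter (fun n => Even n ∧ ε' < |rho A B n - model v f g n|) ⊆
      (Icc 1 N).filter (fun n => Even n ∧ ε < |rho A B n - model v f g n|) := by
    intro n hn
    rw [mem_filter] at hn ⊢
    exact ⟨hn.1, hn.2.1, lt_of_le_of_lt hε hn.2.2⟩
  exact_mod_cast card_le_card this

/-- The bound of the mean. -/
private theorem mean_real {S T κ kap d L l e0 e2 X N Q ε ρ c' : ℝ}
    (h1 : |S - d * L * T| ≤ e0 * (2 * (κ * Q) + e2 * X)) (h2 : d * L * T ≤ 2 * (κ * Q) + e2 * X)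
    (hT : 0 ≤ T) (hκ' : κ = d * kap) (hkap : 0 < kap)
    (he0 : e0 ≤ ε / 16) (he00 : 0 ≤ e0) (hε : 0 < ε) (hε1 : ε ≤ 1) (hρ : ρ = ε / 40)
    (hl : (1 - ρ) * L ≤ l) (hlL : l ≤ L) (hL : 0 < L)
    (hX : X ≤ 4 * N) (he2 : e2 = ε * d * c' / 16)
    (hd : 0 < d) (hκ : d ≤ κ) (hc' : 0 < c') (hQ : c' * N ≤ Q) (hN : 0 < N) :
    |S / κ - l / kap * T| ≤ ε * Q := by
  have hκ0 : 0 < κ := lt_of_lt_of_le hd hκ
  have hQ0 : 0 < Q := lt_of_lt_of_le (by positivity) hQ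
  have he20 : 0 < e2 := by rw [he2]; positivity
  have h3 : e2 * X ≤ ε / 4 * (κ * Q) := by
    calc e2 * X ≤ e2 * (4 * N) := mul_le_mul_of_nonneg_left hX he20.le
      _ = ε / 4 * (d * (c' * N)) := by rw [he2]; ring
      _ ≤ ε / 4 * (κ * Q) := by
        refine mul_le_mul_of_nonneg_left ?_ (by positivity)
        exact mul_le_mul hκ hQ (by positivity) hκ0.le
  have hκQ : 0 < κ * Q := by positivity
  have h4 : 2 * (κ * Q) + e2 * X ≤ 9 / 4 * (κ * Q) := by nlinarith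
  have h5 : |S / κ - L / kap * T| ≤ e0 * (9 / 4) * Q := by
    have e : S / κ - L / kap * T = (S - d * L * T) / κ := by
      rw [hκ']
      field_simp
    rw [e, abs_div, abs_of_pos hκ0, div_le_iff₀ hκ0]
    refine h1.trans ?_
    calc e0 * (2 * (κ * Q) + e2 * X) ≤ e0 * (9 / 4 * (κ * Q)) := mul_le_mul_of_nonneg_left h4 he00
      _ = _ := by ring
  have h6 : |L / kap * T - l / kap * T| ≤ ρ * (9 / 4) * Q := by
    have e : L / kap * T - l / kap * T = (L - l) / kap * T := by ring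
    rw [e, abs_of_nonneg (mul_nonneg (div_nonneg (by linarith) hkap.le) hT)]
    have h7 : (L - l) / kap * T ≤ ρ * L / kap * T := by
      refine mul_le_mul_of_nonneg_right (div_le_div_of_nonneg_right ?_ hkap.le) hT
      linarith
    refine h7.trans ?_
    have h8 : ρ * L / kap * T = ρ * (d * L * T) / κ := by
      rw [hκ']
      field_simp
    have hρ0 : 0 ≤ ρ := by rw [hρ]; positivity
    rw [h8, div_le_iff₀ hκ0]
    calc ρ * (d * L * T) ≤ ρ * (9 / 4 * (κ * Q)) := mul_le_mul_of_nonneg_left (h2.trans h4) hρ0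
      _ = _ := by ring
  have h9 := abs_sub_le (S / κ) (L / kap * T) (l / kap * T)
  have h10 : e0 * (9 / 4) * Q ≤ ε / 16 * (9 / 4) * Q := by
    refine mul_le_mul_of_nonneg_right ?_ hQ0.le
    linarith
  have h11 : 0 < ε * Q := by positivity
  rw [hρ] at h6
  nlinarith

private theorem mass_aux {T : Finset ℕ} {X P W : ℕ} {ζ e0 : ℝ} {kt : ℕ → ℝ} (hk : ∀ t, 0 ≤ kt t)
    (hP : ∀ t ∈ T, kt t ≠ 0 → P ∣ t)
    (h1 : ∑ t ∈ T.filter (fun t : ℕ => ζ * X ≤ t ∧ (t : ℝ) ≤ (1 - ζ) * X), kt t ≤ e0 / 2)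
    (h2 : ∑ t ∈ T.filter (fun t : ℕ => ((t : ℝ) < ζ * X ∧ ¬ W ∣ t) ∨
      ((1 - ζ) * X < t ∧ ¬ W ∣ X - t)), kt t ≤ e0 / 2) :
    ∑ t ∈ T.filter (fun t => t ∉ T.filter (fun t : ℕ => P ∣ t ∧
    (((t : ℝ) < ζ * X ∧ W ∣ t) ∨ ((1 - ζ) * X < t ∧ W ∣ X - t)))), kt t ≤ e0 := by
  have hsub : ∑ t ∈ T.filter (fun t => t ∉ T.filter (fun t : ℕ => P ∣ t ∧
    (((t : ℝ) < ζ * X ∧ W ∣ t) ∨ ((1 - ζ) * X < t ∧ W ∣ X - t)))), kt t ≤
      ∑ t ∈ T.filter (fun t : ℕ => ζ * X ≤ t ∧ (t : ℝ) ≤ (1 - ζ) * X), kt t +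
      ∑ t ∈ T.filter (fun t : ℕ => ((t : ℝ) < ζ * X ∧ ¬ W ∣ t) ∨
        ((1 - ζ) * X < t ∧ ¬ W ∣ X - t)), kt t := by
    rw [sum_filter, sum_filter, sum_filter, ← sum_add_distrib]
    refine sum_le_sum fun t ht => ?_
    have hk := hk t
    by_cases h1 : t ∈ T.filter (fun t : ℕ => P ∣ t ∧
      (((t : ℝ) < ζ * X ∧ W ∣ t) ∨ ((1 - ζ) * X < t ∧ W ∣ X - t)))
    · rw [if_neg (not_not.2 h1)]
      refine add_nonneg ?_ ?_ <;> split_ifs <;> first | exact hk | exact le_rfl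
    · rw [if_pos h1]
      by_cases h0 : kt t = 0
      · rw [h0]
        simp
      have hdv : P ∣ t := hP t ht h0
      by_cases h2 : ζ * X ≤ t ∧ (t : ℝ) ≤ (1 - ζ) * X
      · rw [if_pos h2]
        have : 0 ≤ (if ((t : ℝ) < ζ * X ∧ ¬ W ∣ t) ∨
          ((1 - ζ) * X < t ∧ ¬ W ∣ X - t) then kt t else 0) := by
          split_ifs <;> first | exact hk | exact le_rfl
        linarith
      · rw [if_neg h2, if_pos, zero_add]
        have h3 : ¬ (((t : ℝ) < ζ * X ∧ W ∣ t) ∨ ((1 - ζ) * X < t ∧ W ∣ X - t)) := by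
          intro h3
          exact h1 (by rw [mem_filter]; exact ⟨ht, hdv, h3⟩)
        push Not at h3
        rcases lt_or_ge (t : ℝ) (ζ * X) with h4 | h4
        · exact Or.inl ⟨h4, h3.1 h4⟩
        · have h5 : (1 - ζ) * X < t := by
            by_contra h5
            exact h2 ⟨h4, not_lt.1 h5⟩
          exact Or.inr ⟨h5, h3.2 h5⟩
  linarith

private theorem scale_aux {X N : ℕ} {ε ρ ζ cs : ℝ} (hε : 0 < ε) (hρ : ρ = ε / 40) (hε1 : ε ≤ 1)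
    (hζε : ζ ≤ ε / 8) (hX4 : (X : ℝ) ≤ 4 * N) (hX2 : 2 * (N : ℝ) ≤ X) (hNX : N ≤ X)
    (hN2 : 2 ≤ N) (hcs : cs ≤ ε / 8)
    (hr4 : (2 * (X : ℝ) ^ (1 / 4 : ℝ) + 2) * Real.log X ^ 2 ≤ cs * N)
    (hL : (1 - ρ) * Real.log X ^ 2 ≤ Real.log N ^ 2) :
    (⌊(X : ℝ) ^ (1 / 4 : ℝ)⌋₊ : ℝ) + ζ * X < ε * N ∧ (1 - ρ) * Real.log X ≤ Real.log N ∧
      Real.log N ≤ Real.log X ∧ 0 < Real.log X := by
  have hNr : (2 : ℝ) ≤ N := by exact_mod_cast hN2
  have hXr : (0 : ℝ) < X := by linarith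
  have h3 : 1 ≤ Real.log X := by
    rw [Real.le_log_iff_exp_le hXr]
    have h4 := Real.exp_one_lt_d9
    linarith
  refine ⟨?_, ?_, Real.log_le_log (by linarith) (by exact_mod_cast hNX), by linarith⟩
  · have h1 : (⌊(X : ℝ) ^ (1 / 4 : ℝ)⌋₊ : ℝ) ≤ (X : ℝ) ^ (1 / 4 : ℝ) :=
      Nat.floor_le (by positivity)
    have h2 : ζ * X ≤ ε / 2 * N := by
      calc ζ * X ≤ ε / 8 * (4 * N) := mul_le_mul hζε hX4 hXr.le (by positivity)
        _ = _ := by ring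
    have h4 : (X : ℝ) ^ (1 / 4 : ℝ) ≤ ε / 8 * N := by
      have h5 : 0 ≤ (X : ℝ) ^ (1 / 4 : ℝ) := by positivity
      have h6 : (2 * (X : ℝ) ^ (1 / 4 : ℝ) + 2) * 1 ≤
          (2 * (X : ℝ) ^ (1 / 4 : ℝ) + 2) * Real.log X ^ 2 :=
        mul_le_mul_of_nonneg_left (one_le_pow₀ h3) (by positivity)
      have h7 : cs * (N : ℝ) ≤ ε / 8 * N := mul_le_mul_of_nonneg_right hcs (by linarith)
      linarith
    have h8 : 0 < ε * N := by positivity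
    linarith
  · have h4 : 0 ≤ Real.log N := Real.log_natCast_nonneg N
    refine le_of_sq_le_sq ?_ h4
    calc ((1 - ρ) * Real.log X) ^ 2 = (1 - ρ) * ((1 - ρ) * Real.log X ^ 2) := by ring
      _ ≤ 1 * ((1 - ρ) * Real.log X ^ 2) :=
        mul_le_mul_of_nonneg_right (by rw [hρ]; linarith) (mul_nonneg (by rw [hρ]; linarith)
          (sq_nonneg _))
      _ ≤ Real.log N ^ 2 := by rw [one_mul]; exact hL

private theorem dvd_XX (w M V : ℕ) (hVw : V ≤ w) : primorial V ∣ Ml.XX w M := by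
  unfold Ml.XX
  rw [primorial_split V w hVw, mul_assoc]
  exact dvd_mul_right _ _

private theorem tau_props {X P W t N : ℕ} {ζ ε : ℝ} {τ : ℤ} (hζ : ζ ≤ 1 / 2)
    (hζX : ζ * X ≤ ε * N) (htX : t ≤ X) (hPX : P ∣ X) (htP : P ∣ t)
    (htc : ((t : ℝ) < ζ * X ∧ W ∣ t) ∨ ((1 - ζ) * X < t ∧ W ∣ X - t)) (hX : (0 : ℝ) < X)
    (hτ : (τ = t ∧ (t : ℝ) < ζ * X) ∨ (τ = (t : ℤ) - X ∧ (1 - ζ) * X < t)) :
    (W : ℤ) ∣ τ ∧ (P : ℤ) ∣ τ ∧ |(τ : ℝ)| ≤ ε * N := by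
  have hh : ¬ ((t : ℝ) < ζ * X ∧ (1 - ζ) * X < t) := by
    rintro ⟨h1, h2⟩
    nlinarith
  rcases hτ with ⟨h1, h2⟩ | ⟨h1, h2⟩
  · rw [h1]
    have hWt : W ∣ t := by
      rcases htc with h | h
      · exact h.2
      · exact absurd ⟨h2, h.1⟩ hh
    refine ⟨Int.natCast_dvd_natCast.2 hWt, Int.natCast_dvd_natCast.2 htP, ?_⟩
    rw [Int.cast_natCast, abs_of_nonneg (Nat.cast_nonneg t)]
    exact h2.le.trans hζX
  · have hWt : W ∣ X - t := by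
      rcases htc with h | h
      · exact absurd ⟨h.1, h2⟩ hh
      · exact h.2
    have e : τ = -((X - t : ℕ) : ℤ) := by
      rw [h1, Nat.cast_sub htX]
      ring
    rw [e]
    refine ⟨(dvd_neg).2 (Int.natCast_dvd_natCast.2 hWt),
      (dvd_neg).2 (Int.natCast_dvd_natCast.2 (Nat.dvd_sub hPX htP)), ?_⟩
    rw [Int.cast_neg, abs_neg, Int.cast_natCast, abs_of_nonneg (Nat.cast_nonneg _),
      Nat.cast_sub htX]
    linarith

/-- The smoothed function satisfies `LocG`. -/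
theorem locG_one {A : Set ℕ} {ε : ℝ} (hε : 0 < ε) (hε1 : ε ≤ 1) (w M V N R Q : ℕ) [NeZero M]
    {J : ℕ} (a : Fin J → Gp (mo 8 w M)) (lam δ : ℝ) (hlam : 0 ≤ lam) (h8V : 8 ≤ V) (hVw : V ≤ w)
    (hM : M.Coprime (primorial w)) (hN : N < XX w M)
    (hVX : V ≤ ⌊(XX w M : ℝ) ^ (1 / 4 : ℝ)⌋₊) (κ : ℝ) (hκ : 0 < κ)
    (hle : ∀ x : ℕ, x.Coprime (primorial V) → Ft 8 w M V N a lam A x ≤ (1 + ε / 2) * κ)
    (hRV : primorial V ∣ R) (hper : Real.exp (lam * (J * δ)) - 1 ≤ ε / 2)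
    (hδ : ∀ j, ‖psi (a j * red 8 w M (R * Q)) - 1‖ ≤ δ) (T : Finset ℕ) (ka' : ℕ → ℝ) (τ : ℕ → ℤ)
    (k : ℝ) (hmean : ∀ x₀ b : ℕ, ε * N ≤ x₀ → (x₀ : ℝ) + R * Q ≤ (1 - ε) * N →
      b.Coprime (primorial V) →
      |(∑ x ∈ (Ico x₀ (x₀ + R * Q)).filter (fun x => x ≡ b [MOD R]),
        Ft 8 w M V N a lam A x) / κ - Real.log N / k * ∑ t ∈ T, ka' t *
          (cntI A R (x₀ + τ t) (x₀ + τ t + R * Q) (b + τ t) : ℝ)| ≤ ε * Q) :
    LocG (primorial V) R Q N T ka' τ A k ε (fun x => Ft 8 w M V N a lam A x / κ) := by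
  have h0 : ∀ x, 0 ≤ Ft 8 w M V N a lam A x := Ft_nonneg 8 w M V N a lam A
  have hz : ∀ x : ℕ, ¬ x.Coprime (primorial V) → Ft 8 w M V N a lam A x = 0 :=
    Ft_zero 8 w M V N h8V hVw hM hN hVX a lam A
  have hall : ∀ x, Ft 8 w M V N a lam A x / κ ≤ 1 + ε / 2 := by
    intro x
    rw [div_le_iff₀ hκ]
    by_cases hx : x.Coprime (primorial V)
    · exact hle x hx
    · rw [hz x hx]
      positivity
  refine ⟨fun x => div_nonneg (h0 x) hκ.le, fun x => (hall x).trans (by linarith),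
    fun x hx => by rw [hz x hx, zero_div], fun x => ?_, fun x₀ b h1 h2 hb => ?_⟩
  · have h1 := Ft_per 8 w M V N h8V hVw a lam hlam A (R * Q) (hRV.mul_right Q) δ hδ x
    rw [← sub_div, abs_div, abs_of_pos hκ, div_le_iff₀ hκ]
    refine h1.trans ?_
    calc (Real.exp (lam * (J * δ)) - 1) * Ft 8 w M V N a lam A x
        ≤ ε / 2 * Ft 8 w M V N a lam A x := mul_le_mul_of_nonneg_right hper (h0 x)
      _ ≤ ε / 2 * ((1 + ε / 2) * κ) := by
        refine mul_le_mul_of_nonneg_left ?_ (by positivity)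
        have := hall x
        rwa [div_le_iff₀ hκ] at this
      _ ≤ ε * κ := by
        have h5 : 0 ≤ ε * κ := by positivity
        have h6 : ε / 2 * ((1 + ε / 2) * κ) = (ε * κ) * ((1 + ε / 2) / 2) := by ring
        rw [h6]
        exact mul_le_of_le_one_right h5 (by linarith)
  · rw [← sum_div]
    exact hmean x₀ b h1 h2 hb

theorem struct_gen_one (W : ℕ) (hW : 1 ≤ W)
    {ε : ℝ} (hε : 0 < ε) (hε1 : ε ≤ 1) : ∃ v : ℕ, 2 ≤ v ∧ W ≤ v ∧ 1 / ε ≤ v ∧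
      ∃ (R₀ : ℕ) (c : ℝ), 0 < c ∧ ∃ N₀ : ℕ, ∀ N : ℕ, N₀ ≤ N → ∀ A B : Set ℕ,
      StrucG W v R₀ c N A B ε := by
  classical
  obtain ⟨C, X₁, hC, hyp⟩ := t_hyp
  have htw := En.tw_pos
  obtain ⟨φ, hφ⟩ : ∃ φ : ℝ, φ = ((primorial 8).totient : ℝ) := ⟨_, rfl⟩
  have hφ1 : 1 ≤ φ := by
    rw [hφ]
    have h1 : 0 < (primorial 8).totient := Nat.totient_pos.2 (primorial_pos 8)
    exact_mod_cast h1
  obtain ⟨ρ, hρ⟩ : ∃ ρ : ℝ, ρ = ε / 40 := ⟨_, rfl⟩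
  have hρ0 : 0 < ρ := by rw [hρ]; positivity
  have hρ1 : ρ ≤ 1 := by rw [hρ]; linarith
  obtain ⟨τ, hτ, v₀, hsig⟩ := En.sig_sing ρ hρ0
  obtain ⟨d, hd⟩ : ∃ d : ℝ, d = den 8 := ⟨_, rfl⟩
  have hd0 : 0 < d := by rw [hd]; exact den_pos 8
  obtain ⟨θ, hθ⟩ : ∃ θ : ℝ, θ = (ε / 8) ^ 2 * d ^ 2 * En.tw := ⟨_, rfl⟩
  have hθ0 : 0 < θ := by rw [hθ]; positivity
  obtain ⟨k0, hk0⟩ : ∃ k0 : ℝ, k0 = θ * ε / 512 := ⟨_, rfl⟩
  have hk00 : 0 < k0 := by rw [hk0]; positivity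
  have hWr : (1 : ℝ) ≤ W := by exact_mod_cast hW
  have hW0 : (0 : ℝ) < W := by linarith
  obtain ⟨ζ, hζ⟩ : ∃ ζ : ℝ, ζ = min (k0 / 8) (min (ε / 8) (1 / W)) := ⟨_, rfl⟩
  have hζ0 : 0 < ζ := by rw [hζ]; positivity
  have hζk : ζ ≤ k0 / 8 := by rw [hζ]; exact min_le_left _ _
  have hζε : ζ ≤ ε / 8 := by rw [hζ]; exact (min_le_right _ _).trans (min_le_left _ _)
  have hζW : ζ ≤ 1 / W := by rw [hζ]; exact (min_le_right _ _).trans (min_le_right _ _)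
  obtain ⟨e0, he0⟩ : ∃ e0 : ℝ, e0 = min (k0 / 8) (ε / 16) := ⟨_, rfl⟩
  have he00 : 0 < e0 := by rw [he0]; positivity
  have he0k : e0 ≤ k0 / 8 := by rw [he0]; exact min_le_left _ _
  have he0ε : e0 ≤ ε / 16 := by rw [he0]; exact min_le_right _ _
  obtain ⟨η, hη⟩ : ∃ η : ℝ, η = min (ε * θ ^ 2 / 512)
    (min (e0 / 2 * (8 * ζ ^ 2)) (e0 / W ^ 2)) := ⟨_, rfl⟩
  have hη0 : 0 < η := by rw [hη]; positivity
  have hηθ : η ≤ ε * θ ^ 2 / 512 := by rw [hη]; exact min_le_left _ _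
  have hηe : η / (8 * ζ ^ 2) ≤ e0 / 2 := by
    rw [div_le_iff₀ (by positivity), hη]
    exact (min_le_right _ _).trans (min_le_left _ _)
  have hηW : η * ((W : ℝ) ^ 2 / 2) ≤ e0 / 2 := by
    have h1 : η ≤ e0 / W ^ 2 := by
      rw [hη]
      exact (min_le_right _ _).trans (min_le_right _ _)
    calc η * ((W : ℝ) ^ 2 / 2) ≤ e0 / W ^ 2 * ((W : ℝ) ^ 2 / 2) :=
          mul_le_mul_of_nonneg_right h1 (by positivity)
      _ = e0 / 2 := by field_simp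
  have hK : 1 ≤ C * φ := by nlinarith
  obtain ⟨J, lam, hlam, hl2⟩ := kp_two_pair (primorial 8) (C * φ) η hK hη0
  have hlam0 : 0 < lam := by linarith
  obtain ⟨Zm, hZm⟩ : ∃ Zm : ℝ, Zm = (1 / (⌈Real.sqrt lam⌉₊ : ℝ)) ^ J *
    Real.exp (-(20 * (J : ℝ))) := ⟨_, rfl⟩
  have hZm0 : 0 < Zm := by
    rw [hZm]
    have h1 : 0 < ⌈Real.sqrt lam⌉₊ := Nat.ceil_pos.2 (Real.sqrt_pos.2 (by linarith))
    have h2 : (0 : ℝ) < (⌈Real.sqrt lam⌉₊ : ℝ) := by exact_mod_cast h1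
    positivity
  -- the level `V`
  obtain ⟨V, hV8, hVv, hVW, hVε, hVτ, hVZ⟩ : ∃ V : ℕ, 8 ≤ V ∧ v₀ ≤ V ∧ W ≤ V ∧ 1 / ε ≤ V ∧
      8 / (τ * ε) ≤ V ∧ 8 / (V : ℝ) < ε / 8 * Zm := by
    obtain ⟨V₁, hV₁⟩ := exists_nat_gt (1 / ε + 8 / (τ * ε) + 64 / (ε * Zm))
    refine ⟨8 + v₀ + V₁ + W, by omega, by omega, by omega, ?_, ?_, ?_⟩
    · push_cast
      have h1 : 0 < 8 / (τ * ε) := by positivity
      have h2 : 0 < 64 / (ε * Zm) := by positivity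
      have h3 : (0 : ℝ) ≤ v₀ := Nat.cast_nonneg _
      linarith
    · push_cast
      have h1 : 0 < 1 / ε := by positivity
      have h2 : 0 < 64 / (ε * Zm) := by positivity
      have h3 : (0 : ℝ) ≤ v₀ := Nat.cast_nonneg _
      linarith
    · have h1 : 0 < 1 / ε := by positivity
      have h2 : 0 < 8 / (τ * ε) := by positivity
      have h3 : (0 : ℝ) ≤ v₀ := Nat.cast_nonneg _
      have h4 : 64 / (ε * Zm) < ((8 + v₀ + V₁ + W : ℕ) : ℝ) := by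
        push_cast
        linarith
      have h5 : (0 : ℝ) < ((8 + v₀ + V₁ + W : ℕ) : ℝ) := lt_trans (by positivity) h4
      rw [div_lt_iff₀ (by positivity)] at h4
      rw [div_lt_iff₀ h5]
      nlinarith
  have hV2 : 2 ≤ V := by omega
  refine ⟨V, hV2, hVW, hVε, ?_⟩
  obtain ⟨PV, hPV⟩ : ∃ PV : ℕ, PV = primorial V := ⟨_, rfl⟩
  have hPV0 : 0 < PV := by rw [hPV]; exact primorial_pos V
  have hPVr : (0 : ℝ) < PV := by exact_mod_cast hPV0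
  obtain ⟨PW, hPW⟩ : ∃ PW : ℕ, PW = PV * W := ⟨_, rfl⟩
  have hPW0 : 0 < PW := by rw [hPW]; exact Nat.mul_pos hPV0 hW
  have hPWr : (0 : ℝ) < PW := by exact_mod_cast hPW0
  obtain ⟨n₀, hmod⟩ := model_le V hV2
  obtain ⟨κ, hκ⟩ : ∃ κ : ℝ, κ = d * En.kap V := ⟨_, rfl⟩
  have hκd : d ≤ κ := by
    rw [hκ]
    have := one_le_kap V
    nlinarith
  have hκ0 : 0 < κ := lt_of_lt_of_le hd0 hκd
  -- the period
  obtain ⟨δ, hδ⟩ : ∃ δ : ℝ, δ = Real.log (1 + ε / 2) / (lam * (J + 1)) := ⟨_, rfl⟩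
  have hlog : 0 < Real.log (1 + ε / 2) := Real.log_pos (by linarith)
  have hδ0 : 0 < δ := by rw [hδ]; positivity
  have hper : Real.exp (lam * (J * δ)) - 1 ≤ ε / 2 := by
    have h1 : lam * (J * δ) ≤ Real.log (1 + ε / 2) := by
      rw [hδ]
      have h2 : lam * (J * (Real.log (1 + ε / 2) / (lam * (J + 1)))) =
          Real.log (1 + ε / 2) * (J / (J + 1)) := by field_simp
      rw [h2]
      refine mul_le_of_le_one_right hlog.le ?_
      rw [div_le_one (by positivity)]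
      linarith
    have h3 := Real.exp_le_exp.2 h1
    rw [Real.exp_log (by positivity)] at h3
    linarith
  obtain ⟨c, e₀, Y₀, hc, hpig⟩ := pig J V δ hδ0
  obtain ⟨q₀, hq₀⟩ := smooth_split V e₀
  obtain ⟨c', hc'⟩ : ∃ c' : ℝ, c' = c * ε / (2 * PW * (q₀ + 1)) := ⟨_, rfl⟩
  have hc'0 : 0 < c' := by rw [hc']; positivity
  obtain ⟨e2, he2⟩ : ∃ e2 : ℝ, e2 = ε * d * c' / 16 := ⟨_, rfl⟩
  have he20 : 0 < e2 := by rw [he2]; positivity
  -- the thresholds for the means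
  have hmeanT : ∀ q : ℕ, ∃ X₀ : ℕ, 1 ≤ q →
      (∀ p : ℕ, p.Prime → p ∣ q → p ≤ V) →
      ∀ (w M : ℕ) [NeZero M], V ≤ w → M.Coprime (primorial w) →
      X₀ ≤ XX w M → ∀ N : ℕ, N < XX w M → ∀ (A : Set ℕ) (J : ℕ) (a : Fin J → Gp (mo 8 w M))
      (lam ζ η : ℝ), 0 ≤ ζ → ∀ (Tg : Finset ℕ) (τ : ℕ → ℤ), Tg ⊆ fib 8 w M 0 →
      (∀ t ∈ Tg, (τ t = t ∧ (t : ℝ) < ζ * XX w M) ∨
        (τ t = (t : ℤ) - XX w M ∧ (1 - ζ) * XX w M < t)) →
      ∑ t ∈ (fib 8 w M 0).filter (fun t => t ∉ Tg), ka a lam (svE 8 w V) (red 8 w M t) ≤ η →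
      ∀ x₀ Q b : ℕ, b.Coprime (primorial V) →
        (⌊(XX w M : ℝ) ^ (1 / 4 : ℝ)⌋₊ : ℝ) + ζ * XX w M < x₀ →
        (x₀ : ℝ) + ((PW * q : ℕ) : ℝ) * Q + ζ * XX w M ≤ N →
      |∑ x ∈ (Ico x₀ (x₀ + (PW * q) * Q)).filter (fun x => x ≡ b [MOD (PW * q)]),
        Ft 8 w M V N a lam A x -
        den 8 * Real.log (XX w M) * ∑ t ∈ Tg, ka a lam (svE 8 w V) (red 8 w M t) *
          (cntI A (PW * q) (x₀ + τ t) (x₀ + τ t + (PW * q : ℕ) * Q) (b + τ t) : ℝ)| ≤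
        η * (2 * (den 8 * (((PW * q : ℕ) : ℝ) * Q) / (PW * q).totient) + e2 * XX w M) ∧
      den 8 * Real.log (XX w M) * ∑ t ∈ Tg, ka a lam (svE 8 w V) (red 8 w M t) *
          (cntI A (PW * q) (x₀ + τ t) (x₀ + τ t + (PW * q : ℕ) * Q) (b + τ t) : ℝ) ≤
        2 * (den 8 * (((PW * q : ℕ) : ℝ) * Q) / (PW * q).totient) + e2 * XX w M := by
    intro q
    by_cases hq : 1 ≤ q ∧ (∀ p : ℕ, p.Prime → p ∣ q → p ≤ V)
    · have hRV : primorial V ∣ PW * q := by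
        rw [hPW, hPV, mul_assoc]
        exact dvd_mul_right _ _
      have hRp : ∀ p : ℕ, p.Prime → p ∣ PW * q → p ≤ V := by
        intro p hp hdv
        rcases (hp.dvd_mul).1 hdv with h | h
        · rw [hPW, hPV] at h
          rcases (hp.dvd_mul).1 h with h | h
          · exact (hp.dvd_primorial_iff).1 h
          · exact (Nat.le_of_dvd hW h).trans hVW
        · exact hq.2 p hp h
      obtain ⟨X₀, hX₀⟩ := Ft_mean_gen 8 V (PW * q) hV8 (Nat.mul_pos hPW0 hq.1) hRV hRp e2 he20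
      exact ⟨X₀, fun _ _ => hX₀⟩
    · exact ⟨0, fun h1 h2 => absurd ⟨h1, h2⟩ hq⟩
  choose XA hXA using hmeanT
  -- the level `w`
  obtain ⟨w, hVw, hw⟩ : ∃ w : ℕ, V ≤ w ∧ 3 * φ / (w : ℝ) * (PV / Zm) ≤ ε / 8 * d := by
    obtain ⟨w₁, hw₁⟩ := exists_nat_gt (3 * φ * (PV / Zm) / (ε / 8 * d))
    refine ⟨V + w₁ + 1, by omega, ?_⟩
    have h1 : (0 : ℝ) < ((V + w₁ + 1 : ℕ) : ℝ) := by positivity
    rw [div_mul_eq_mul_div, div_le_iff₀ h1]
    rw [div_lt_iff₀ (by positivity)] at hw₁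
    have h2 : (w₁ : ℝ) ≤ ((V + w₁ + 1 : ℕ) : ℝ) := by
      push_cast
      have : (0 : ℝ) ≤ V := Nat.cast_nonneg _
      linarith
    have h3 := mul_le_mul_of_nonneg_right h2 (by positivity : 0 ≤ ε / 8 * d)
    linarith
  have h8w : 8 ≤ w := hV8.trans hVw
  obtain ⟨X₃, hsup⟩ := t_sup 8 w (by omega) h8w
  obtain ⟨e5, he5⟩ : ∃ e5 : ℝ, e5 = min (k0 / 16) 1 := ⟨_, rfl⟩
  have he50 : 0 < e5 := by rw [he5]; positivity
  have he5k : e5 ≤ k0 / 16 := by rw [he5]; exact min_le_left _ _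
  have he51 : e5 ≤ 1 := by rw [he5]; exact min_le_right _ _
  obtain ⟨X₄, huA⟩ := uA_sum 8 e5 he50
  obtain ⟨X₀, hX₀⟩ : ∃ X₀ : ℕ, X₀ = max (max X₁ X₃)
    (max X₄ ((range (q₀ + 1)).sup XA)) := ⟨_, rfl⟩
  obtain ⟨cs, hcs⟩ : ∃ cs : ℝ, cs = min (min e5 (ε / 8)) ((ε / 8) ^ 2 * (2 * En.tw)) := ⟨_, rfl⟩
  have hcs0 : 0 < cs := by rw [hcs]; positivity
  have hcs1 : cs ≤ e5 := by rw [hcs]; exact (min_le_left _ _).trans (min_le_left _ _)
  have hcs3 : cs ≤ ε / 8 := by rw [hcs]; exact (min_le_left _ _).trans (min_le_right _ _)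
  have hcs2 : cs ≤ (ε / 8) ^ 2 * (2 * En.tw) := by rw [hcs]; exact min_le_right _ _
  obtain ⟨n₁, hn₁⟩ : ∃ n₁ : ℕ, n₁ = n₀ + PW * (Y₀ + 1) := ⟨_, rfl⟩
  obtain ⟨N₁, hscale⟩ := scales V n₁ X₀ cs (ε / 8) ρ hcs0 (by positivity) hρ0 hρ1
  obtain ⟨N₂, hexM⟩ := exists_M w 0 (by omega)
  refine ⟨PW * q₀, c', hc'0, max N₁ (max N₂ 1), fun N hN A B => ?_⟩
  have hN1 : N₁ ≤ N := (le_max_left _ _).trans hN
  have hN2 : N₂ ≤ N := ((le_max_left _ _).trans (le_max_right _ _)).trans hN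
  have hN3 : 1 ≤ N := ((le_max_right _ _).trans (le_max_right _ _)).trans hN
  obtain ⟨M, hM0, hM, -, hXM1, hXM2⟩ := hexM (8 * N) (by omega)
  have : NeZero M := ⟨hM0⟩
  have hXle : XX w M ≤ 4 * N := by omega
  have hXge : 2 * N ≤ XX w M := by
    have h1 : ((2 * N : ℕ) : ℝ) ≤ (XX w M : ℝ) := by
      refine le_trans ?_ hXM2
      push_cast
      have : (0 : ℝ) ≤ N := Nat.cast_nonneg _
      linarith
    exact_mod_cast h1
  obtain ⟨hNtwo, hVX, hc1X, hr4, hn1N, hX0X, hL2⟩ := hscale N hN1 (XX w M) hXge hXle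
  have hNX : N < XX w M := by omega
  have hXr : (XX w M : ℝ) ≤ 4 * N := by exact_mod_cast hXle
  have hXr2 : 2 * (N : ℝ) ≤ XX w M := by exact_mod_cast hXge
  have hNr : (0 : ℝ) < N := by exact_mod_cast hN3
  have hX0r : (0 : ℝ) < XX w M := by linarith
  have hodd : ∀ i, Odd (mo 8 w M i) := fun i => mo_odd 8 w M (by norm_num) (by omega) hM i
  have hXX1 : X₁ ≤ XX w M := by
    refine le_trans ?_ hX0X
    rw [hX₀]
    exact (le_max_left _ _).trans (le_max_left _ _)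
  have hXX3 : X₃ ≤ XX w M := by
    refine le_trans ?_ hX0X
    rw [hX₀]
    exact (le_max_right _ _).trans (le_max_left _ _)
  have hXX4 : X₄ ≤ XX w M := by
    refine le_trans ?_ hX0X
    rw [hX₀]
    exact (le_max_left _ _).trans (le_max_right _ _)
  have hXXA : ∀ q ≤ q₀, XA q ≤ XX w M := by
    intro q hq
    refine le_trans ?_ hX0X
    rw [hX₀]
    refine le_trans ?_ ((le_max_right _ _))
    refine le_trans ?_ ((le_max_right _ _))
    exact le_sup (f := XA) (mem_range.2 (by omega))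
  -- the frequencies
  have hypA : ∀ (D : Set ℕ) (i : Fin (primorial 8)), ∀ R : Finset (Gp (mo 8 w M)),
      ∑ b ∈ R, ‖ft (push 8 w M (i : ℕ) (uA 8 (XX w M) N D)) b‖ ^ 2 ≤
        (C * φ) ^ 2 * (R.card : ℝ) ^ (1 / 3 : ℝ) := by
    intro D i R
    rw [uA_eq_uc, hφ]
    exact hyp 8 w M i h8w hM hXX1 2 _ 0 R
  obtain ⟨b1, hb1⟩ := arch_char 8 w M h8w hM
  obtain ⟨b2, jW, hjW, hb2⟩ := rat_char 8 w M h8w hM W hW
  obtain ⟨a, ⟨j1, hj1⟩, ⟨j2, hj2⟩, ha⟩ := hl2 (Ix 8 w) (mo 8 w M) hodd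
    (fun i => push 8 w M (i : ℕ) (uA 8 (XX w M) N A))
    (fun i => push 8 w M (i : ℕ) (uA 8 (XX w M) N B)) (hypA A) (hypA B) b1 b2
  obtain ⟨hZlog, hcvm⟩ := ha (svE 8 w V)
  have hZ : Zm ≤ ZZ a lam (svE 8 w V) := by
    rw [hZm]
    exact ZZ_lower a lam hlam _
  have hZ0 : 0 < ZZ a lam (svE 8 w V) := ZZ_pos a lam _
  -- localisation
  obtain ⟨kt, hkt⟩ : ∃ kt : ℕ → ℝ, kt = fun t => ka a lam (svE 8 w V) (red 8 w M t) := ⟨_, rfl⟩
  have hkt0 : ∀ t, 0 ≤ kt t := fun t => by rw [hkt]; exact ka_nonneg _ _ _ _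
  have hfar2 : ∑ t ∈ (fib 8 w M 0).filter
      (fun t : ℕ => ζ * XX w M ≤ t ∧ (t : ℝ) ≤ (1 - ζ) * XX w M), kt t ≤ e0 / 2 := by
    rw [hkt]
    refine (far_mass 8 w M h8w hM a lam hlam0 (svE 8 w V) j1 ?_ ζ hζ0 ?_).trans ?_
    · rw [hj1]
      exact hb1
    · linarith
    · refine le_trans ?_ hηe
      exact div_le_div_of_nonneg_right hZlog (by positivity)
  have hnear2 : ∑ t ∈ (fib 8 w M 0).filter (fun t : ℕ => ((t : ℝ) < ζ * XX w M ∧ ¬ W ∣ t) ∨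
        ((1 - ζ) * XX w M < t ∧ ¬ W ∣ XX w M - t)), kt t ≤ e0 / 2 := by
    rw [hkt]
    refine (near_mass 8 w M h8w hM a lam hlam0 (svE 8 w V) j2 W jW hW hjW ?_ ζ hζ0.le
      hζW).trans ?_
    · rw [hj2]
      exact hb2
    · refine le_trans ?_ hηW
      exact mul_le_mul_of_nonneg_right hZlog (by positivity)
  have hfar : ∑ t ∈ (fib 8 w M 0).filter
      (fun t : ℕ => ζ * XX w M ≤ t ∧ (t : ℝ) ≤ (1 - ζ) * XX w M),
      ka a lam (svE 8 w V) (red 8 w M t) ≤ e0 := by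
    rw [hkt] at hfar2
    linarith
  obtain ⟨Tg, hTg⟩ : ∃ Tg : Finset ℕ, Tg = (fib 8 w M 0).filter (fun t : ℕ => primorial V ∣ t ∧
    (((t : ℝ) < ζ * XX w M ∧ W ∣ t) ∨ ((1 - ζ) * XX w M < t ∧ W ∣ XX w M - t))) := ⟨_, rfl⟩
  have hTgs : Tg ⊆ fib 8 w M 0 := by rw [hTg]; exact filter_subset _ _
  obtain ⟨ta, hta⟩ : ∃ ta : ℕ → ℤ, ta = fun t : ℕ => if (t : ℝ) < ζ * XX w M then (t : ℤ) else
    (t : ℤ) - XX w M := ⟨_, rfl⟩
  have htX : ∀ t ∈ fib 8 w M 0, t ≤ XX w M := by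
    intro t ht
    unfold fib at ht
    have := (mem_filter.1 ht).1
    rw [mem_Icc] at this
    exact this.2
  have hta1 : ∀ t ∈ Tg, (ta t = t ∧ (t : ℝ) < ζ * XX w M) ∨
      (ta t = (t : ℤ) - XX w M ∧ (1 - ζ) * XX w M < t) := by
    intro t ht
    rw [hTg, mem_filter] at ht
    rw [hta]
    by_cases h : (t : ℝ) < ζ * XX w M
    · left
      simp only [if_pos h]
      exact ⟨trivial, h⟩
    · right
      simp only [if_neg h]
      refine ⟨trivial, ?_⟩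
      rcases ht.2.2 with h' | h'
      · exact absurd h'.1 h
      · exact h'.1
  have hTmass : ∑ t ∈ (fib 8 w M 0).filter (fun t => t ∉ Tg), kt t ≤ e0 := by
    rw [hTg]
    refine mass_aux hkt0 (fun t ht h0 => ?_) hfar2 hnear2
    refine ka_dvd 8 w M V hV8 hVw a lam t ?_ (by rw [hkt] at h0; exact h0)
    unfold fib at ht
    exact (Nat.modEq_zero_iff_dvd).1 (mem_filter.1 ht).2
  have htotal : ∑ t ∈ fib 8 w M 0, kt t = 1 := by
    rw [hkt]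
    exact ka_total 8 w M h8w hM a lam _
  have hT1 : ∑ t ∈ Tg, kt t ≤ 1 := by
    rw [← htotal]
    exact sum_le_sum_of_subset_of_nonneg hTgs fun t _ _ => hkt0 t
  have hT2 : 1 - ε ≤ ∑ t ∈ Tg, kt t := by
    have h1 := sum_filter_add_sum_filter_not (fib 8 w M 0) (fun t => t ∉ Tg) kt
    have h2 : ((fib 8 w M 0).filter (fun t => ¬ t ∉ Tg)) = Tg := by
      ext t
      rw [mem_filter]
      constructor
      · exact fun h => not_not.1 h.2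
      · exact fun h => ⟨hTgs h, not_not.2 h⟩
    rw [h2, htotal] at h1
    linarith
  -- the upper bound
  have hG : GoodK (cw (mo 8 w M) (svE 8 w w)) a lam (svE 8 w V) (ε / 8) := by
    refine t_good 8 w V M le_rfl hV8 hVw a lam (ε / 8) hlam0.le ?_
    refine lt_of_lt_of_le hVZ ?_
    exact mul_le_mul_of_nonneg_left hZ (by positivity)
  have hle : ∀ (D : Set ℕ) (x : ℕ), x.Coprime (primorial V) →
      Ft 8 w M V N a lam D x ≤ (1 + ε / 2) * κ := by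
    intro D x hx
    have h1 := Ft_le 8 w M V N le_rfl hV8 hVw a lam (ε / 8) (3 * φ / w) hlam0.le (by positivity)
      hG (fun r hr b => by
        have := hsup M hM hXX3 r hr b
        rwa [← hφ] at this) D x hx
    rw [mE_eq 8 w M V hV8 hVw, ← hd, ← hκ] at h1
    have h2 : 3 * φ / (w : ℝ) * (primorial V / ZZ a lam (svE 8 w V)) ≤ ε / 8 * κ := by
      calc 3 * φ / (w : ℝ) * (primorial V / ZZ a lam (svE 8 w V))
          ≤ 3 * φ / (w : ℝ) * (PV / Zm) := by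
            refine mul_le_mul_of_nonneg_left ?_ (by positivity)
            rw [hPV]
            exact div_le_div_of_nonneg_left (by positivity) hZm0 hZ
        _ ≤ ε / 8 * d := hw
        _ ≤ ε / 8 * κ := mul_le_mul_of_nonneg_left hκd (by positivity)
    have h3 : 0 < ε * κ := by positivity
    linarith
  -- the period
  obtain ⟨Y, hY⟩ : ∃ Y : ℕ, Y = ⌊ε * N / PW⌋₊ := ⟨_, rfl⟩
  have hYN : ((Y₀ : ℝ) + 1) * 8 ≤ ε * N / PW := by
    rw [le_div_iff₀ hPWr]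
    have h1 : (PW : ℝ) * (Y₀ + 1) ≤ n₁ := by
      rw [hn₁]
      push_cast
      have : (0 : ℝ) ≤ n₀ := Nat.cast_nonneg _
      linarith
    have h2 : ((Y₀ : ℝ) + 1) * 8 * PW = 8 * ((PW : ℝ) * (Y₀ + 1)) := by ring
    linarith only [h1, h2, hn1N]
  have hYfl : (Y : ℝ) ≤ ε * N / PW := by
    rw [hY]
    exact Nat.floor_le (by positivity)
  have hYfl2 : ε * N / PW < Y + 1 := by
    rw [hY]
    exact Nat.lt_floor_add_one _
  have hY0' : Y₀ ≤ Y := by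
    have h1 : (Y₀ : ℝ) ≤ Y := by
      have : (0 : ℝ) ≤ Y₀ := Nat.cast_nonneg _
      linarith
    exact_mod_cast h1
  have hYhalf : ε * N / PW / 2 ≤ Y := by
    have : (0 : ℝ) ≤ Y₀ := Nat.cast_nonneg _
    linarith
  obtain ⟨y, hy1, hyY, hcy, hyp', hyθ⟩ := hpig Y hY0' (fun j => (PW : ℝ) * theta 8 w M (a j))
  obtain ⟨q, Q, hyq, hq1, hqq, hQ1, hqp, hQp⟩ := hq₀ y hy1 hyp'
  have hqr : (0 : ℝ) < q := by exact_mod_cast hq1
  have hRQ : PW * q * Q = PW * y := by rw [hyq]; ring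
  have hRV : primorial V ∣ PW * q := by
    rw [hPW, hPV, mul_assoc]
    exact dvd_mul_right _ _
  have hRW : W ∣ PW * q := by
    rw [hPW, mul_assoc]
    exact (dvd_mul_right W q).mul_left PV
  have hRp : ∀ p : ℕ, p.Prime → p ∣ PW * q → p ≤ V := by
    intro p hp hdv
    rcases (hp.dvd_mul).1 hdv with h | h
    · rw [hPW, hPV] at h
      rcases (hp.dvd_mul).1 h with h | h
      · exact (hp.dvd_primorial_iff).1 h
      · exact (Nat.le_of_dvd hW h).trans hVW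
    · exact hqp p hp h
  have hδa : ∀ j, ‖psi (a j * red 8 w M (PW * q * Q)) - 1‖ ≤ δ := by
    intro j
    rw [hRQ, psi_red]
    have h1 := hyθ j
    have h2 : ((PW * y : ℕ) : ℝ) * theta 8 w M (a j) = (y : ℝ) * ((PW : ℝ) * theta 8 w M (a j)) := by
      push_cast
      ring
    rw [h2]
    exact h1
  have hQc : c' * N ≤ Q := by
    have h1 : (y : ℝ) = q * Q := by exact_mod_cast hyq
    have h2 : c * (ε * N / PW / 2) ≤ q * Q := by
      rw [← h1]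
      exact (mul_le_mul_of_nonneg_left hYhalf hc.le).trans hcy
    have h3 : (q : ℝ) * Q ≤ (q₀ + 1) * Q := by
      refine mul_le_mul_of_nonneg_right ?_ (Nat.cast_nonneg _)
      have : (q : ℝ) ≤ q₀ := by exact_mod_cast hqq
      linarith
    have h4 : c' * N * (q₀ + 1) = c * (ε * N / PW / 2) := by
      rw [hc']
      field_simp
    have h5 : c' * N * (q₀ + 1) ≤ Q * (q₀ + 1) := by
      rw [h4]
      linarith
    exact le_of_mul_le_mul_right h5 (by positivity)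
  have hRtot : (((PW * q : ℕ) : ℝ)) / (PW * q).totient = En.kap V :=
    totient_ratio V (PW * q) (Nat.mul_pos hPW0 hq1) hRV hRp
  have hRQr : ((PW * q : ℕ) : ℝ) * Q ≤ ε * N := by
    have h1 : ((PW * q : ℕ) : ℝ) * Q = PW * y := by exact_mod_cast hRQ
    rw [h1]
    have h2 : (y : ℝ) ≤ Y := by exact_mod_cast hyY
    have h3 : (y : ℝ) ≤ ε * N / PW := h2.trans hYfl
    rw [le_div_iff₀ hPWr] at h3
    linarith
  obtain ⟨hXY, hLlog, hlogNX, hlogX⟩ := scale_aux hε hρ hε1 hζε hXr hXr2 hNX.le hNtwo hcs3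
    hr4 (hL2 N (by nlinarith only [hNr, hε1, hε]))
  have hloc : ∀ D : Set ℕ, LocG (primorial V) (PW * q) Q N Tg kt ta D (En.kap V) ε
      (fun x => Ft 8 w M V N a lam D x / κ) := by
    intro D
    refine locG_one hε hε1 w M V N (PW * q) Q a lam δ hlam0.le hV8 hVw hM hNX hVX κ hκ0 (hle D)
      hRV hper hδa Tg kt ta (En.kap V) ?_
    intro x₀ b h1 h2 hb
    have e1 : ζ * XX w M ≤ ε / 2 * N := by
      calc ζ * XX w M ≤ ε / 8 * (4 * N) := mul_le_mul hζε hXr hX0r.le (by positivity)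
        _ = _ := by ring
    have hT' : ∑ t ∈ (fib 8 w M 0).filter (fun t => t ∉ Tg),
        ka a lam (svE 8 w V) (red 8 w M t) ≤ e0 := by
      rw [hkt] at hTmass
      exact hTmass
    have h3 := hXA q hq1 hqp w M hVw hM (hXXA q hqq) N hNX D J a lam ζ e0 hζ0.le Tg ta hTgs hta1
      hT' x₀ Q b hb (hXY.trans_le h1) (by
        have h8 := mul_pos hε hNr
        linarith only [h2, e1, h8])
    have e3 : den 8 * (((PW * q : ℕ) : ℝ) * Q) / (PW * q).totient = κ * Q := by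
      rw [hκ, ← hRtot, hd]
      ring
    rw [e3, ← hd] at h3
    have hkap0 : 0 < En.kap V := by
      have := one_le_kap V
      linarith
    have hTn : 0 ≤ ∑ t ∈ Tg, kt t * (cntI D (PW * q) (x₀ + ta t)
        (x₀ + ta t + (PW * q : ℕ) * Q) (b + ta t) : ℝ) :=
      sum_nonneg fun t _ => mul_nonneg (hkt0 t) (Nat.cast_nonneg _)
    have h4 := mean_real (S := ∑ x ∈ (Ico x₀ (x₀ + (PW * q) * Q)).filter
      (fun x => x ≡ b [MOD (PW * q)]), Ft 8 w M V N a lam D x) (T := ∑ t ∈ Tg, kt t *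
      (cntI D (PW * q) (x₀ + ta t) (x₀ + ta t + (PW * q : ℕ) * Q) (b + ta t) : ℝ))
      (kap := En.kap V) (by rw [hkt]; exact h3.1) (by rw [hkt]; exact h3.2) hTn hκ hkap0
      he0ε he00.le hε hε1 hρ hLlog hlogNX hlogX hXr he2 hd0 hκd hc'0 hQc hNr
    exact h4
  have hlocA := hloc A
  have hlocB := hloc B
  refine ⟨PW * q, Q, hRV, hRW, Nat.mul_pos hPW0 hq1, Nat.mul_le_mul_left _ hqq, hRp, hQ1, hQp,
    hRQr, hQc, Tg, kt, ta, ?_, hT1, hT2,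
    fun x => Ft 8 w M V N a lam A x / κ, fun x => Ft 8 w M V N a lam B x / κ, hlocA, hlocB, ?_⟩
  · intro t ht
    have hζX4 : ζ * XX w M ≤ ε * N := by
      have h2 : ζ * XX w M ≤ ε / 2 * N := by
        calc ζ * XX w M ≤ ε / 8 * (4 * N) := mul_le_mul hζε hXr hX0r.le (by positivity)
          _ = _ := by ring
      have h8 := mul_pos hε hNr
      linarith
    have ht' := ht
    rw [hTg, mem_filter] at ht'
    obtain ⟨h1, h2, h3⟩ := tau_props (by linarith) hζX4 (htX t ht'.1) (dvd_XX w M V hVw) ht'.2.1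
      ht'.2.2 hX0r (hta1 t ht)
    exact ⟨h1, h2, h3, hkt0 t⟩
  -- the exceptions
  obtain ⟨P, hP⟩ : ∃ P : ℕ, P = primorial 8 := ⟨_, rfl⟩
  have hP0 : 0 < primorial 8 := primorial_pos 8
  set σ : ℕ → Fin (primorial 8) → Fin (primorial 8) := fun c i =>
    ⟨(c + (primorial 8 - (i : ℕ))) % primorial 8, Nat.mod_lt _ hP0⟩ with hσ
  have hσn : ∀ n : ℕ, ∀ i : Fin (primorial 8),
      ((i : ℕ) + (σ (n % primorial 8) i : ℕ) ≡ n [MOD primorial 8]) := by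
    intro n i
    exact sig_mod (primorial 8) (n % primorial 8) n rfl i i.2
  set DD : ℕ → Gp (mo 8 w M) → ℝ := fun c m => ∑ i : Fin (primorial 8),
    (cvm (push 8 w M (i : ℕ) (uA 8 (XX w M) N A))
      (push 8 w M (σ c i : ℕ) (uA 8 (XX w M) N B)) m -
    cvm (av (ka a lam (svE 8 w V)) (push 8 w M (i : ℕ) (uA 8 (XX w M) N A)))
      (av (ka a lam (svE 8 w V)) (push 8 w M (σ c i : ℕ) (uA 8 (XX w M) N B))) m) with hDD
  set cardG : ℝ := (Fintype.card (Gp (mo 8 w M)) : ℝ) with hcardG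
  have hcardG0 : 0 ≤ cardG := by positivity
  have hcardX : cardG ≤ XX w M := by
    have h1 := card_Gp_mul 8 w M h8w
    have h2 : Fintype.card (Gp (mo 8 w M)) ≤ XX w M := by
      rw [← h1]
      exact Nat.le_mul_of_pos_right _ hP0
    rw [hcardG]
    exact_mod_cast h2
  have hDsum := D_sum 8 w M (by norm_num) h8w hM DD η (fun c _ => hcvm (σ c)) N hNX.le
  set cD : ℕ → ℝ := fun n => cardG * DD (n % primorial 8) (half * red 8 w M n) with hcD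
  set WW : ℕ → ℝ := fun n => ∑ x ∈ Icc n (XX w M), Ft 8 w M V N a lam A x *
    Ft 8 w M V N a lam B (n + XX w M - x) with hWW
  have hFA0 : ∀ x, 0 ≤ Ft 8 w M V N a lam A x := Ft_nonneg 8 w M V N a lam A
  have hFB0 : ∀ x, 0 ≤ Ft 8 w M V N a lam B x := Ft_nonneg 8 w M V N a lam B
  have hcvp : ∀ n : ℕ, ∃ r' : ℝ, 1 ≤ n → n ≤ N →
      ((Sm.repsIn A B n : ℝ) - 2 * (XX w M : ℝ) ^ (1 / 4 : ℝ) - 2 ≤ r' ∧
      0 ≤ r' ∧ r' ≤ (Sm.repsIn A B n : ℝ) ∧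
      (∑ i : Fin (primorial 8), cvm (push 8 w M i (uA 8 (XX w M) N A))
        (push 8 w M (σ (n % primorial 8) i : ℕ) (uA 8 (XX w M) N B)) (half * red 8 w M n)) *
          cardG = (d * Real.log (XX w M)) ^ 2 * r') := by
    intro n
    by_cases hn : 1 ≤ n ∧ n ≤ N
    · obtain ⟨r', h1, h2, h3, h4⟩ := cvm_prime 8 w M N (by norm_num) h8w hM hXge A B
        (σ (n % primorial 8)) n hn.1 hn.2 (hσn n)
      rw [← hd] at h4
      exact ⟨r', fun _ _ => ⟨h1, h2, h3, h4⟩⟩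
    · exact ⟨0, fun h1 h2 => absurd ⟨h1, h2⟩ hn⟩
  choose r' hr' using hcvp
  have hz0 : ¬ Nat.Coprime 0 (primorial V) := by
    rw [Nat.coprime_zero_left]
    intro h
    have h1 : 2 ∣ primorial V := (Nat.prime_two.dvd_primorial_iff).2 hV2
    rw [h] at h1
    omega
  have htot : ∀ D : Set ℕ, ∑ x ∈ Icc 1 N, uA 8 (XX w M) N D x ≤ 2 * XX w M := by
    intro D
    have h1 := huA (XX w M) hXX4 N hNX.le D 1 (N + 1) (by omega) le_rfl
    have h2 : Ico 1 (N + 1) = Icc 1 N := by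
      ext x
      rw [mem_Ico, mem_Icc]
      omega
    rw [h2] at h1
    refine h1.trans ?_
    push_cast
    have h4 : e5 * (XX w M : ℝ) ≤ 1 * XX w M := mul_le_mul_of_nonneg_right he51 hX0r.le
    linarith
  have htotF : ∀ D : Set ℕ, ∑ x ∈ Icc 1 (XX w M), Ft 8 w M V N a lam D x ≤ 2 * XX w M := by
    intro D
    rw [Ft_total 8 w M V N h8w hM hNX a lam D]
    exact htot D
  have hζX : ζ * XX w M ≤ N := by
    calc ζ * XX w M ≤ ε / 8 * (4 * N) := mul_le_mul hζε hXr hX0r.le (by positivity)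
      _ ≤ N := by nlinarith only [hNr, hε1, hε]
  have htail : ∀ D : Set ℕ, ∑ x ∈ Ioc N (XX w M), Ft 8 w M V N a lam D x ≤ k0 * XX w M := by
    intro D
    have h1 := Ft_tail 8 w M V N h8w hM hNX a lam D ζ e0 hζ0 hζX hfar
    have hfl : (⌊ζ * XX w M⌋₊ : ℝ) ≤ ζ * XX w M := Nat.floor_le (by positivity)
    have hflN : ⌊ζ * XX w M⌋₊ ≤ N := by
      have : (⌊ζ * XX w M⌋₊ : ℝ) ≤ N := hfl.trans hζX
      exact_mod_cast this
    have h2 := huA (XX w M) hXX4 N hNX.le D 0 (⌊ζ * XX w M⌋₊ + 1) (by omega) (by omega)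
    have h3 := huA (XX w M) hXX4 N hNX.le D (N - ⌊ζ * XX w M⌋₊) (N + 1) (by omega) le_rfl
    have h4 := htot D
    have h5 : ((N - ⌊ζ * XX w M⌋₊ : ℕ) : ℝ) = (N : ℝ) - ⌊ζ * XX w M⌋₊ := by
      rw [Nat.cast_sub hflN]
    rw [h5] at h3
    push_cast at h2 h3
    have h6 : e0 * ∑ x ∈ Icc 1 N, uA 8 (XX w M) N D x ≤ e0 * (2 * XX w M) :=
      mul_le_mul_of_nonneg_left h4 he00.le
    have h7 : e0 * (2 * (XX w M : ℝ)) ≤ k0 / 8 * (2 * XX w M) :=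
      mul_le_mul_of_nonneg_right he0k (by positivity)
    have h8 : ζ * XX w M ≤ k0 / 8 * XX w M := mul_le_mul_of_nonneg_right hζk hX0r.le
    have h9 : (1 : ℝ) ≤ k0 / 16 * XX w M :=
      hc1X.trans (mul_le_mul_of_nonneg_right (hcs1.trans he5k) hX0r.le)
    have h10 : e5 * XX w M ≤ k0 / 16 * XX w M := mul_le_mul_of_nonneg_right he5k hX0r.le
    linarith
  refine exc_one (V := V) (N := N) (n₀ := n₀) (A := A) (B := B)
    (F := Ft 8 w M V N a lam A) (G := Ft 8 w M V N a lam B) (cD := cD) (W := WW) (r' := r')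
    (ε := ε) (ρ := ρ) (d := d) (L := Real.log (XX w M)) (κ := κ) (τ := τ) (θ := θ)
    (S1 := 64 * k0 * N ^ 2) (S2 := η * (XX w M : ℝ) ^ 3)
    hε hρ hε1 hd0 hτ hκ hV2 hNtwo (fun n hn h => hsig V hVv n hn h) hVτ ?_ ?_ ?_ ?_ ?_ ?_ hL2
    (fun n h1 h2 => (hr' n h1 h2).2.1) (fun n h1 h2 => (hr' n h1 h2).2.2.1) ?_ ?_ hθ ?_ ?_ ?_ ?_
  · refine le_trans ?_ hn1N
    rw [hn₁]
    exact_mod_cast (Nat.le_add_right _ _)
  · intro n hn hev
    have hfle : ∀ D : Set ℕ, ∀ x, Ft 8 w M V N a lam D x / κ ≤ 2 :=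
      fun D x => ((hloc D).le x).trans (by linarith)
    exact hmod n hn hev _ _ hlocA.nonneg hlocB.nonneg (hfle A) (hfle B)
      hlocA.supp hlocB.supp
  · exact Ft_zero 8 w M V N hV8 hVw hM hNX hVX a lam A 0 hz0
  · exact Ft_zero 8 w M V N hV8 hVw hM hNX hVX a lam B 0 hz0
  · intro n
    exact sum_nonneg fun x _ => mul_nonneg (hFA0 x) (hFB0 _)
  · intro n h1 h2
    refine Real.log_le_log (by exact_mod_cast h1) ?_
    exact_mod_cast h2.trans hNX.le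
  · intro n h1 h2
    have h3 := (hr' n h1 h2).1
    have h4 : (Sm.repsIn A B n : ℝ) - r' n ≤ 2 * (XX w M : ℝ) ^ (1 / 4 : ℝ) + 2 := by linarith
    calc ((Sm.repsIn A B n : ℝ) - r' n) * Real.log (XX w M) ^ 2
        ≤ (2 * (XX w M : ℝ) ^ (1 / 4 : ℝ) + 2) * Real.log (XX w M) ^ 2 :=
          mul_le_mul_of_nonneg_right h4 (sq_nonneg _)
      _ ≤ cs * N := hr4
      _ ≤ (ε / 8) ^ 2 * (2 * En.tw) * N := mul_le_mul_of_nonneg_right hcs2 hNr.le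
  · intro n h1 h2
    have h3 := (hr' n h1 h2).2.2.2
    have h4 := cvm_Ft 8 w M V N (by norm_num) h8w hM a lam A B (σ (n % primorial 8)) n h1
      (h2.trans hNX.le) (hσn n)
    rw [← h3]
    simp only [hcD, hDD, hWW]
    rw [sum_sub_distrib]
    linarith
  · have h1 : ∑ n ∈ Icc 1 N, cD n ^ 2 = cardG ^ 2 *
        ∑ n ∈ Icc 1 N, DD (n % primorial 8) (half * red 8 w M n) ^ 2 := by
      rw [mul_sum]
      refine sum_congr rfl fun n _ => ?_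
      simp only [hcD]
      ring
    rw [h1]
    have h2 : 0 ≤ η * (XX w M : ℝ) := by positivity
    calc cardG ^ 2 * ∑ n ∈ Icc 1 N, DD (n % primorial 8) (half * red 8 w M n) ^ 2
        ≤ cardG ^ 2 * (η * XX w M) := mul_le_mul_of_nonneg_left hDsum (sq_nonneg _)
      _ ≤ (XX w M : ℝ) ^ 2 * (η * XX w M) :=
        mul_le_mul_of_nonneg_right (pow_le_pow_left₀ hcardG0 hcardX 2) h2
      _ = _ := by ring
  · have h1 := wrap_sum (XX w M) N hXge (Ft 8 w M V N a lam A) (Ft 8 w M V N a lam B) hFA0 hFB0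
    refine h1.trans ?_
    have h2 : (∑ x ∈ Ioc N (XX w M), Ft 8 w M V N a lam A x) *
        (∑ y ∈ Icc 1 (XX w M), Ft 8 w M V N a lam B y) ≤ (k0 * XX w M) * (2 * XX w M) :=
      mul_le_mul (htail A) (htotF B) (sum_nonneg fun x _ => hFB0 x) (by positivity)
    have h3 : (∑ x ∈ Icc 1 (XX w M), Ft 8 w M V N a lam A x) *
        (∑ y ∈ Ioc N (XX w M), Ft 8 w M V N a lam B y) ≤ (2 * XX w M) * (k0 * XX w M) :=
      mul_le_mul (htotF A) (htail B) (sum_nonneg fun x _ => hFB0 x) (by positivity)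
    have h4 : (XX w M : ℝ) ^ 2 ≤ (4 * N) ^ 2 := pow_le_pow_left₀ hX0r.le hXr 2
    have h5 := mul_le_mul_of_nonneg_left h4 (by positivity : 0 ≤ 4 * k0)
    have h6 : (k0 * XX w M) * (2 * XX w M) + (2 * XX w M) * (k0 * XX w M) =
        4 * k0 * (XX w M : ℝ) ^ 2 := by ring
    have h7 : 4 * k0 * (4 * (N : ℝ)) ^ 2 = 64 * k0 * N ^ 2 := by ring
    linarith only [h2, h3, h5, h6, h7]
  · rw [div_le_iff₀ (by positivity)]
    have h4 : (XX w M : ℝ) ^ 3 ≤ (4 * N) ^ 3 := pow_le_pow_left₀ hX0r.le hXr 3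
    calc η * (XX w M : ℝ) ^ 3 ≤ ε * θ ^ 2 / 512 * (4 * N) ^ 3 :=
          mul_le_mul hηθ h4 (by positivity) (by positivity)
      _ = ε / 8 * N * (θ * N) ^ 2 := by ring
  · rw [div_le_iff₀ (by positivity), hk0]
    refine le_of_eq ?_
    ring

/-- The structure theorem for arbitrary sets of primes. -/
theorem struct_gen (W : ℕ) (hW : 1 ≤ W) {ε : ℝ} (hε : 0 < ε) :
    ∃ v : ℕ, 2 ≤ v ∧ W ≤ v ∧ 1 / ε ≤ v ∧
      ∃ (R₀ : ℕ) (c : ℝ), 0 < c ∧ ∃ N₀ : ℕ, ∀ N : ℕ, N₀ ≤ N → ∀ A B : Set ℕ,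
      StrucG W v R₀ c N A B ε := by
  obtain ⟨v, h1, h2, h3, R₀, c, hc, N₀, h4⟩ := struct_gen_one W hW (ε := min ε 1)
    (by positivity) (min_le_right _ _)
  refine ⟨v, h1, h2, le_trans ?_ h3, R₀, c, hc, N₀,
    fun N hN A B => (h4 N hN A B).mono (min_le_left _ _)⟩
  exact one_div_le_one_div_of_le (by positivity) (min_le_left _ _)

end Pool.Agent.Lib.MP_629a14_nt.Kp
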