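import Pool.Agent.Lib.MP_629a14_nt.Kp.Coset
import Pool.Agent.Lib.MP_629a14_nt.Kp.Defs
import Pool.Agent.Lib.MP_629a14_nt.Kp.Cnt

/-! Reduction from `ZMod (R * Q)` to `ZMod R` and its kernel. -/

set_option autoImplicit false

namespace Pool.Agent.Lib.MP_629a14_nt.Kp

open Finset Pool.Agent.Lib.MP_629a14_nt Pool.Agent.Lib.MP_629a14_nt.Rob

/-- Reduction modulo `R`. -/
noncomputable def red (R Q : ℕ) : ZMod (R * Q) →+ ZMod R :=
  (ZMod.castHom (dvd_mul_right R Q) (ZMod R)).toAddMonoidHom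

section

variable (R Q : ℕ) [NeZero R] [NeZero Q]

instance neZeroMul : NeZero (R * Q) := ⟨mul_ne_zero (NeZero.ne R) (NeZero.ne Q)⟩

theorem red_surj : Function.Surjective (red R Q) := by
  intro b
  refine ⟨((b.val : ℕ) : ZMod (R * Q)), ?_⟩
  simp [red]

theorem red_apply (y : ZMod (R * Q)) : red R Q y = ((y.val : ℕ) : ZMod R) := by
  have h : y = ((y.val : ℕ) : ZMod (R * Q)) := (ZMod.natCast_zmod_val y).symm
  conv_lhs => rw [h]
  simp [red]

theorem red_natCast (k : ℕ) : red R Q ((k : ℕ) : ZMod (R * Q)) = (k : ZMod R) := by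
  simp [red]

theorem red_val (y : ZMod (R * Q)) : (red R Q y).val = y.val % R := by
  rw [red_apply, ZMod.val_natCast]

theorem card_ker : Nat.card (red R Q).ker = Q := by
  have h1 : Nat.card (red R Q).ker * (red R Q).ker.index = Nat.card (ZMod (R * Q)) :=
    AddSubgroup.card_mul_index _
  have h2 : (red R Q).ker.index = R := by
    rw [AddSubgroup.index_ker, AddMonoidHom.range_eq_top.2 (red_surj R Q)]
    simp
  rw [h2, Nat.card_zmod, mul_comm] at h1
  exact Nat.eq_of_mul_eq_mul_left (Nat.pos_of_ne_zero (NeZero.ne R)) h1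

/-- Proper subgroups of the kernel are small. -/
theorem ker_sub {v : ℕ} (hv : 1 ≤ v) (hQ : ∀ p : ℕ, p.Prime → p ∣ Q → v < p)
    (S : AddSubgroup (red R Q).ker) (hS : S ≠ ⊤) : (Nat.card S : ℝ) ≤ (Q : ℝ) / v := by
  have h1 : Nat.card S * S.index = Q := by
    rw [AddSubgroup.card_mul_index, card_ker]
  have h2 : S.index ≠ 1 := by
    rw [Ne, AddSubgroup.index_eq_one]
    exact hS
  obtain ⟨p, hp, hpd⟩ := Nat.exists_prime_and_dvd h2
  have h3 : v < p := hQ p hp (hpd.trans (Dvd.intro_left _ h1))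
  have h4 : 0 < S.index := Nat.pos_of_ne_zero fun h => by
    rw [h, mul_zero] at h1
    exact NeZero.ne Q h1.symm
  have h5 : v ≤ S.index := h3.le.trans (Nat.le_of_dvd h4 hpd)
  have hv0 : (0 : ℝ) < v := by exact_mod_cast hv
  rw [le_div_iff₀ hv0]
  have h6 : Nat.card S * v ≤ Q := by
    calc Nat.card S * v ≤ Nat.card S * S.index := Nat.mul_le_mul_left _ h5
      _ = Q := h1
  exact_mod_cast h6

theorem card_fibre (b : ZMod R) :
    (univ.filter (fun y : ZMod (R * Q) => red R Q y = b)).card = Q := by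
  classical
  obtain ⟨b0, hb0⟩ := red_surj R Q b
  have h1 := fibre_sum (red R Q) b0 (fun _ => (1 : ℝ))
  rw [hb0] at h1
  simp only [sum_const, nsmul_eq_mul, mul_one] at h1
  have h2 : (univ.filter (fun y : ZMod (R * Q) => red R Q y = b)).card =
      Fintype.card (red R Q).ker := by
    exact_mod_cast h1
  rw [h2, ← Nat.card_eq_fintype_card, card_ker]

/-- A sum over a block of integers. -/
theorem sum_block (F : ℕ → ℝ) (x₀ : ℕ) :
    ∑ x ∈ Ico x₀ (x₀ + R * Q), F x = ∑ y : ZMod (R * Q), F (x₀ + y.val) := by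
  refine (sum_bij (fun (y : ZMod (R * Q)) _ => x₀ + y.val) ?_ ?_ ?_ ?_).symm
  · intro y _
    rw [mem_Ico]
    exact ⟨Nat.le_add_right _ _, Nat.add_lt_add_left (ZMod.val_lt y) _⟩
  · intro y _ y' _ h
    exact ZMod.val_injective _ (Nat.add_left_cancel h)
  · intro x hx
    rw [mem_Ico] at hx
    refine ⟨((x - x₀ : ℕ) : ZMod (R * Q)), mem_univ _, ?_⟩
    rw [ZMod.val_natCast, Nat.mod_eq_of_lt (by omega)]
    omega
  · intro y _
    rfl

/-- A sum over a class in a block which starts at a multiple of the length. -/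
theorem sum_class (F : ℕ → ℝ) (i : ℕ) (b : ZMod R) :
    ∑ y ∈ univ.filter (fun y : ZMod (R * Q) => red R Q y = b), F (i * (R * Q) + y.val) =
      ∑ x ∈ (Ico (i * (R * Q)) (i * (R * Q) + R * Q)).filter (fun x => x ≡ b.val [MOD R]),
        F x := by
  rw [sum_filter, sum_filter]
  rw [sum_block R Q (fun x => if x ≡ b.val [MOD R] then F x else 0) (i * (R * Q))]
  refine sum_congr rfl fun y _ => ?_
  have : red R Q y = b ↔ i * (R * Q) + y.val ≡ b.val [MOD R] := by
    rw [red_apply, ← ZMod.natCast_eq_natCast_iff, Nat.cast_add, Nat.cast_mul, Nat.cast_mul]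
    simp
  by_cases h : red R Q y = b
  · rw [if_pos h, if_pos (this.1 h)]
  · rw [if_neg h, if_neg fun h' => h (this.2 h')]

theorem cop_iff {W : ℕ} (hW : W ∣ R) (i : ℕ) (y : ZMod (R * Q)) :
    (i * (R * Q) + y.val).Coprime W ↔ (red R Q y).val.Coprime W := by
  rw [red_val]
  obtain ⟨c, rfl⟩ := hW
  have h1 : (i * (W * c * Q) + y.val).Coprime W ↔ y.val.Coprime W := by
    have : i * (W * c * Q) + y.val = y.val + (i * c * Q) * W := by ring
    rw [this]
    exact Nat.coprime_add_mul_right_left _ _ _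
  have h2 : (y.val % (W * c)).Coprime W ↔ y.val.Coprime W := by
    have h3 : y.val % (W * c) ≡ y.val [MOD W] := (Nat.mod_modEq y.val (W * c)).of_mul_right c
    unfold Nat.Coprime
    rw [h3.gcd_eq]
  rw [h1, h2]

end

end Pool.Agent.Lib.MP_629a14_nt.Kp
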