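import Pool.Agent.Lib.MP_629a14_nt.Kp.MeanD

/-! The mean value of the Goldbach counts of two sets of primes with densities in all reduced residue
classes. -/

set_option autoImplicit false

namespace Pool.Agent.Lib.MP_629a14_nt.Kp

open Finset Filter Topology Pool.Agent.Lib.MP_629a14_nt Pool.Agent.Lib.MP_629a14_nt.Rob

/-- The bound for one `N`. -/
theorem mean_one {A B : Set ℕ} {α β ε η : ℝ} (h0 : 0 ≤ α) (h1 : α ≤ 1) (h0' : 0 ≤ β)
    (h1' : β ≤ 1) (hε : 0 < ε) (hε1 : ε ≤ 1) (hη : 0 < η) (v L N : ℕ) (hv : 2 ≤ v) (hL : 1 ≤ L)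
    (hN : 1 ≤ N) (hη1 : η ≤ 1) (hLη : (1 + Real.log L) / L ≤ η)
    (hvη : twv v ≤ En.tw * (1 + η)) (hεη : 3 * (L : ℝ) ^ 2 * ε * (primorial v : ℝ) ^ 2 / En.tw ≤ η)
    (hKη : 4 * (18480 / En.tw) / L ≤ η)
    (hcA : ∀ i < L, ∀ c < primorial v,
      Real.log N * cl A (primorial v) L N i c ≤ (α * dl (primorial v) c / L + ε) * N)
    (hcB : ∀ i < L, ∀ c < primorial v,
      Real.log N * cl B (primorial v) L N i c ≤ (β * dl (primorial v) c / L + ε) * N) :
    ∑ n ∈ (Icc 1 N).filter (fun n => Even n), rho A B n ≤ (α * β / 2 + 4 * η) * N := by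
  classical
  have htw := En.tw_pos
  have hN' : (1 : ℝ) ≤ N := by exact_mod_cast hN
  have hL' : (1 : ℝ) ≤ L := by exact_mod_cast hL
  have hlog : 0 ≤ Real.log N := Real.log_natCast_nonneg N
  -- all `n`
  have s1 : ∑ n ∈ (Icc 1 N).filter (fun n => Even n), rho A B n ≤ ∑ n ∈ Icc 1 N, rho A B n :=
    sum_le_sum_of_subset_of_nonneg (filter_subset _ _) fun n _ _ => rho_nonneg A B n
  have s2 := sum_filter_add_sum_filter_not (Icc 1 N) (fun n => n * L < 2 * (N + 1))
    (fun n => rho A B n)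
  -- small `n`
  have s3 : ∑ n ∈ (Icc 1 N).filter (fun n => n * L < 2 * (N + 1)), rho A B n ≤ η * N := by
    have e1 : ∑ n ∈ (Icc 1 N).filter (fun n => n * L < 2 * (N + 1)), rho A B n ≤
        ∑ n ∈ (Icc 1 N).filter (fun n => n * L < 2 * (N + 1)), 18480 / En.tw :=
      sum_le_sum fun n hn => rho_le A B n (mem_Icc.1 (mem_filter.1 hn).1).1
    rw [sum_const, nsmul_eq_mul] at e1
    have e2 : (((Icc 1 N).filter (fun n => n * L < 2 * (N + 1))).card : ℝ) ≤ 4 * N / L := by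
      have e3 : (Icc 1 N).filter (fun n => n * L < 2 * (N + 1)) ⊆ Icc 1 (2 * (N + 1) / L) := by
        intro n hn
        rw [mem_filter, mem_Icc] at hn
        rw [mem_Icc]
        exact ⟨hn.1.1, (Nat.le_div_iff_mul_le (by omega)).2 hn.2.le⟩
      have e4 := card_le_card e3
      rw [Nat.card_Icc, Nat.add_sub_cancel] at e4
      have e5 : ((2 * (N + 1) / L : ℕ) : ℝ) ≤ ((2 * (N + 1) : ℕ) : ℝ) / L := Nat.cast_div_le
      have e6 : ((2 * (N + 1) : ℕ) : ℝ) / L ≤ 4 * N / L := by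
        refine div_le_div_of_nonneg_right ?_ (by linarith)
        push_cast
        linarith
      have e7 : (((Icc 1 N).filter (fun n => n * L < 2 * (N + 1))).card : ℝ) ≤
          ((2 * (N + 1) / L : ℕ) : ℝ) := by exact_mod_cast e4
      linarith
    have e8 : 0 ≤ 18480 / En.tw := by positivity
    calc ∑ n ∈ (Icc 1 N).filter (fun n => n * L < 2 * (N + 1)), rho A B n
        ≤ 4 * N / L * (18480 / En.tw) := e1.trans (mul_le_mul_of_nonneg_right e2 e8)
      _ = 4 * (18480 / En.tw) / L * N := by ring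
      _ ≤ η * N := mul_le_mul_of_nonneg_right hKη (by linarith)
  -- large `n`
  have s4 : ∑ n ∈ (Icc 1 N).filter (fun n => ¬ n * L < 2 * (N + 1)), rho A B n ≤
      (Real.log N) ^ 2 / (2 * En.tw * N) * ∑ n ∈ Icc 1 N,
        ∑ x ∈ (pA A N ×ˢ pA B N).filter (fun x => x.1 + x.2 = n), GG v L N x.1 x.2 := by
    rw [mul_sum]
    refine le_trans (sum_le_sum fun n hn => ?_)
      (sum_le_sum_of_subset_of_nonneg (filter_subset _ _) fun n _ _ => ?_)
    · rw [mem_filter, mem_Icc] at hn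
      exact rho_le_pairs A B v L N n hv hL hn.1.1 hn.1.2 (not_lt.1 hn.2)
    · exact mul_nonneg (by positivity) (sum_nonneg fun x _ => GG_nonneg v L N x.1 x.2)
  obtain ⟨C, hC⟩ : ∃ C : ℝ, C = α * β * twv v / (L : ℝ) ^ 2 + 3 * ε * (primorial v : ℝ) ^ 2 :=
    ⟨_, rfl⟩
  have s5 : (Real.log N) ^ 2 * ∑ n ∈ Icc 1 N,
        ∑ x ∈ (pA A N ×ˢ pA B N).filter (fun x => x.1 + x.2 = n), GG v L N x.1 x.2 ≤
      (L : ℝ) ^ 2 * (1 + (1 + Real.log L) / L) * ((N : ℝ) ^ 2 * C) := by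
    have e1 := mul_le_mul_of_nonneg_left (pairs_sum A B v L N hL) (sq_nonneg (Real.log N))
    refine e1.trans ?_
    have e2 : ∀ i ∈ range L, ∀ j ∈ range L, (Real.log N) ^ 2 *
        ((if i + j < L then (L : ℝ) / ((i + j : ℕ) : ℝ) else 0) *
        ∑ c ∈ range (primorial v), ∑ d ∈ range (primorial v),
          cl A (primorial v) L N i c * cl B (primorial v) L N j d * Fc.tv v (c + d)) ≤
        (if i + j < L then (L : ℝ) / ((i + j : ℕ) : ℝ) else 0) * ((N : ℝ) ^ 2 * C) := by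
      intro i hi j hj
      have w0 : 0 ≤ (if i + j < L then (L : ℝ) / ((i + j : ℕ) : ℝ) else 0) := by
        split_ifs <;> positivity
      have e3 : (Real.log N) ^ 2 * ∑ c ∈ range (primorial v), ∑ d ∈ range (primorial v),
          cl A (primorial v) L N i c * cl B (primorial v) L N j d * Fc.tv v (c + d) ≤
          (N : ℝ) ^ 2 * C := by
        rw [hC]
        refine le_trans ?_ (mul_le_mul_of_nonneg_left
          (class_sum h0 h1 h0' h1' hε hε1 v L hv hL) (sq_nonneg (N : ℝ)))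
        rw [mul_sum, mul_sum]
        refine sum_le_sum fun c hc => ?_
        rw [mul_sum, mul_sum]
        refine sum_le_sum fun d hd => ?_
        have a1 := hcA i (mem_range.1 hi) c (mem_range.1 hc)
        have b1 := hcB j (mem_range.1 hj) d (mem_range.1 hd)
        have a0 : 0 ≤ Real.log N * cl A (primorial v) L N i c :=
          mul_nonneg hlog (cl_nonneg _ _ _ _ _ _)
        have b0 : 0 ≤ Real.log N * cl B (primorial v) L N j d :=
          mul_nonneg hlog (cl_nonneg _ _ _ _ _ _)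
        have t0 := Fc.tv_nonneg v (c + d)
        have e4 := mul_le_mul a1 b1 b0 (a0.trans a1)
        have e5 := mul_le_mul_of_nonneg_right e4 t0
        calc Real.log N ^ 2 * (cl A (primorial v) L N i c * cl B (primorial v) L N j d *
              Fc.tv v (c + d)) = Real.log N * cl A (primorial v) L N i c *
              (Real.log N * cl B (primorial v) L N j d) * Fc.tv v (c + d) := by ring
          _ ≤ _ := e5
          _ = _ := by ring
      calc _ = (if i + j < L then (L : ℝ) / ((i + j : ℕ) : ℝ) else 0) * ((Real.log N) ^ 2 *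
            ∑ c ∈ range (primorial v), ∑ d ∈ range (primorial v),
          cl A (primorial v) L N i c * cl B (primorial v) L N j d * Fc.tv v (c + d)) := by ring
        _ ≤ _ := mul_le_mul_of_nonneg_left e3 w0
    rw [mul_sum]
    have e6 : ∀ i ∈ range L, (Real.log N) ^ 2 * ∑ j ∈ range L,
        (if i + j < L then (L : ℝ) / ((i + j : ℕ) : ℝ) else 0) *
        ∑ c ∈ range (primorial v), ∑ d ∈ range (primorial v),
          cl A (primorial v) L N i c * cl B (primorial v) L N j d * Fc.tv v (c + d) ≤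
        (∑ j ∈ range L, (if i + j < L then (L : ℝ) / ((i + j : ℕ) : ℝ) else 0)) *
          ((N : ℝ) ^ 2 * C) := by
      intro i hi
      rw [mul_sum, sum_mul]
      exact sum_le_sum fun j hj => e2 i hi j hj
    refine (sum_le_sum e6).trans ?_
    rw [← sum_mul]
    refine mul_le_mul_of_nonneg_right (harm L hL) ?_
    have e7 : 0 ≤ twv v := by
      unfold twv
      refine prod_nonneg fun p hp => ?_
      have h3 : (3 : ℝ) ≤ p := by exact_mod_cast (mem_filter.1 hp).2.2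
      have : 1 / ((p : ℝ) - 1) ^ 2 ≤ 1 / 4 :=
        one_div_le_one_div_of_le (by norm_num) (by nlinarith)
      linarith
    rw [hC]
    positivity
  have s6 : (Real.log N) ^ 2 / (2 * En.tw * N) * ∑ n ∈ Icc 1 N,
        ∑ x ∈ (pA A N ×ˢ pA B N).filter (fun x => x.1 + x.2 = n), GG v L N x.1 x.2 ≤
      (α * β / 2 + 3 * η) * N := by
    have e7 : 0 ≤ twv v := by
      unfold twv
      refine prod_nonneg fun p hp => ?_
      have h3 : (3 : ℝ) ≤ p := by exact_mod_cast (mem_filter.1 hp).2.2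
      have : 1 / ((p : ℝ) - 1) ^ 2 ≤ 1 / 4 :=
        one_div_le_one_div_of_le (by norm_num) (by nlinarith)
      linarith
    have e1 : (L : ℝ) ^ 2 * (1 + (1 + Real.log L) / L) * ((N : ℝ) ^ 2 * C) ≤
        (L : ℝ) ^ 2 * (1 + η) * ((N : ℝ) ^ 2 * C) := by
      have : 0 ≤ C := by rw [hC]; positivity
      gcongr
    have e2 : (L : ℝ) ^ 2 * (1 + η) * ((N : ℝ) ^ 2 * C) =
        (1 + η) * (N : ℝ) ^ 2 * (α * β * twv v) +
          (1 + η) * (N : ℝ) ^ 2 * (3 * (L : ℝ) ^ 2 * ε * (primorial v : ℝ) ^ 2) := by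
      rw [hC]
      field_simp
    have hab : 0 ≤ α * β := mul_nonneg h0 h0'
    have hab1 : α * β ≤ 1 := mul_le_one₀ h1 h0' h1'
    have e3 : (1 + η) * (N : ℝ) ^ 2 * (α * β * twv v) ≤
        (1 + η) * (N : ℝ) ^ 2 * (α * β * (En.tw * (1 + η))) := by gcongr
    have e4 : (1 + η) * (N : ℝ) ^ 2 * (3 * (L : ℝ) ^ 2 * ε * (primorial v : ℝ) ^ 2) ≤
        (1 + η) * (N : ℝ) ^ 2 * (η * En.tw) := by
      rw [div_le_iff₀ htw] at hεη
      gcongr
    have e5 : (Real.log N) ^ 2 / (2 * En.tw * N) * ∑ n ∈ Icc 1 N,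
        ∑ x ∈ (pA A N ×ˢ pA B N).filter (fun x => x.1 + x.2 = n), GG v L N x.1 x.2 =
        ((Real.log N) ^ 2 * ∑ n ∈ Icc 1 N,
        ∑ x ∈ (pA A N ×ˢ pA B N).filter (fun x => x.1 + x.2 = n), GG v L N x.1 x.2) /
          (2 * En.tw * N) := by ring
    rw [e5, div_le_iff₀ (by positivity)]
    have e6 : (1 + η) * (N : ℝ) ^ 2 * (α * β * (En.tw * (1 + η))) +
        (1 + η) * (N : ℝ) ^ 2 * (η * En.tw) ≤ (α * β / 2 + 3 * η) * N * (2 * En.tw * N) := by
      have e8 : (α * β / 2 + 3 * η) * N * (2 * En.tw * N) -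
          ((1 + η) * (N : ℝ) ^ 2 * (α * β * (En.tw * (1 + η))) +
          (1 + η) * (N : ℝ) ^ 2 * (η * En.tw)) =
          (N : ℝ) ^ 2 * En.tw * (6 * η - α * β * (2 * η + η ^ 2) - (1 + η) * η) := by ring
      have e9 : 0 ≤ 6 * η - α * β * (2 * η + η ^ 2) - (1 + η) * η := by
        have : α * β * (2 * η + η ^ 2) ≤ 1 * (2 * η + η ^ 2) :=
          mul_le_mul_of_nonneg_right hab1 (by positivity)
        nlinarith
      have : 0 ≤ (N : ℝ) ^ 2 * En.tw * (6 * η - α * β * (2 * η + η ^ 2) - (1 + η) * η) := by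
        positivity
      linarith
    linarith
  have s7 : (α * β / 2 + 4 * η) * N = (α * β / 2 + 3 * η) * N + η * N := by ring
  linarith

/-- The upper bound. -/
theorem mean_upper {A B : Set ℕ} {α β : ℝ} (hA : HasDensity A α) (hB : HasDensity B β) {η : ℝ}
    (hη : 0 < η) : ∃ N₀ : ℕ, ∀ N : ℕ, N₀ ≤ N →
      ∑ n ∈ (Icc 1 N).filter (fun n => Even n), rho A B n ≤ (α * β / 2 + η) * N := by
  have htw := En.tw_pos
  obtain ⟨h0, h1⟩ := dens_mem hA
  obtain ⟨h0', h1'⟩ := dens_mem hB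
  obtain ⟨η₁, hη₁, hη₁1, hη₁η⟩ : ∃ η₁ : ℝ, 0 < η₁ ∧ η₁ ≤ 1 ∧ 4 * η₁ ≤ η :=
    ⟨min 1 (η / 4), lt_min one_pos (by positivity), min_le_left _ _, by
      have := min_le_right 1 (η / 4)
      linarith⟩
  -- the number of cells
  have t1 : Tendsto (fun L : ℕ => (1 + Real.log L) / (L : ℝ)) atTop (𝓝 0) := by
    have e1 := (tendsto_const_div_atTop_nhds_zero_nat (1 : ℝ)).add (PiAP.log_pow_div 1)
    rw [add_zero] at e1
    refine e1.congr fun L => ?_
    rw [pow_one, ← add_div]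
  have t2 : Tendsto (fun L : ℕ => 4 * (18480 / En.tw) / (L : ℝ)) atTop (𝓝 0) :=
    tendsto_const_div_atTop_nhds_zero_nat _
  obtain ⟨L, hL1, hL2, hL⟩ := ((t1.eventually_le_const hη₁).and
    ((t2.eventually_le_const hη₁).and (eventually_ge_atTop 1))).exists
  -- the level
  have t3 : ∀ᶠ v in atTop, twv v ≤ En.tw * (1 + η₁) :=
    twv_lim.eventually_le_const (by nlinarith)
  obtain ⟨v, hv1, hv⟩ := (t3.and (eventually_ge_atTop 2)).exists
  have hL' : (1 : ℝ) ≤ L := by exact_mod_cast hL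
  have hW : (0 : ℝ) < primorial v := by exact_mod_cast primorial_pos v
  obtain ⟨ε, hε, hε1, hεη⟩ : ∃ ε : ℝ, 0 < ε ∧ ε ≤ 1 ∧
      3 * (L : ℝ) ^ 2 * ε * (primorial v : ℝ) ^ 2 / En.tw ≤ η₁ := by
    refine ⟨min 1 (η₁ * En.tw / (3 * (L : ℝ) ^ 2 * (primorial v : ℝ) ^ 2)),
      lt_min one_pos (by positivity), min_le_left _ _, ?_⟩
    have e1 := min_le_right 1 (η₁ * En.tw / (3 * (L : ℝ) ^ 2 * (primorial v : ℝ) ^ 2))
    have e2 : 3 * (L : ℝ) ^ 2 * min 1 (η₁ * En.tw / (3 * (L : ℝ) ^ 2 * (primorial v : ℝ) ^ 2)) *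
        (primorial v : ℝ) ^ 2 ≤ 3 * (L : ℝ) ^ 2 *
        (η₁ * En.tw / (3 * (L : ℝ) ^ 2 * (primorial v : ℝ) ^ 2)) * (primorial v : ℝ) ^ 2 := by
      gcongr
    rw [div_le_iff₀ htw]
    refine e2.trans (le_of_eq ?_)
    field_simp
  obtain ⟨N₁, hN₁⟩ := cl_le hA (primorial v) L (primorial_pos v) hL ε hε
  obtain ⟨N₂, hN₂⟩ := cl_le hB (primorial v) L (primorial_pos v) hL ε hε
  refine ⟨max 1 (max N₁ N₂), fun N hN => ?_⟩
  have a1 : 1 ≤ N := (le_max_left _ _).trans hN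
  have a2 : N₁ ≤ N := ((le_max_left _ _).trans (le_max_right _ _)).trans hN
  have a3 : N₂ ≤ N := ((le_max_right _ _).trans (le_max_right _ _)).trans hN
  refine (mean_one h0 h1 h0' h1' hε hε1 hη₁ v L N hv hL a1 hη₁1 hL1 hv1 hεη hL2
    (hN₁ N a2) (hN₂ N a3)).trans ?_
  have : (0 : ℝ) ≤ N := Nat.cast_nonneg N
  nlinarith

theorem univ_pos (q a : ℕ) (hq : 1 ≤ q) (ha : a.Coprime q) :
    ∀ᶠ x : ℕ in atTop, (primesIn Set.univ q a x : ℝ) ≠ 0 := by
  have h1 := lim_univ q a hq ha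
  have h2 : (0 : ℝ) < 1 / (q.totient : ℝ) := by
    have := Nat.totient_pos.2 (show 0 < q by omega)
    positivity
  filter_upwards [(tendsto_order.1 h1).1 0 h2] with x hx h0
  rw [h0] at hx
  simp at hx

theorem dens_univ : HasDensity Set.univ 1 := by
  intro q a hq ha
  refine (tendsto_const_nhds (x := (1 : ℝ))).congr' ?_
  filter_upwards [univ_pos q a hq ha] with x hx
  rw [div_self hx]

theorem primesIn_compl (A : Set ℕ) (q a x : ℕ) :
    (primesIn Aᶜ q a x : ℝ) = primesIn Set.univ q a x - primesIn A q a x := by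
  have hfin : ∀ B : Set ℕ, {p : ℕ | p ≤ x ∧ p.Prime ∧ p ∈ B ∧ p ≡ a [MOD q]}.Finite :=
    fun B => (Set.finite_Iic x).subset fun p hp => hp.1
  have hdis : Disjoint {p : ℕ | p ≤ x ∧ p.Prime ∧ p ∈ Aᶜ ∧ p ≡ a [MOD q]}
      {p : ℕ | p ≤ x ∧ p.Prime ∧ p ∈ A ∧ p ≡ a [MOD q]} := by
    rw [Set.disjoint_left]
    intro p hp hp'
    exact hp.2.2.1 hp'.2.2.1
  unfold primesIn
  rw [eq_sub_iff_add_eq, ← Nat.cast_add, ← Set.ncard_union_eq hdis (hfin _) (hfin _)]
  congr 2
  ext p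
  simp only [Set.mem_union, Set.mem_ofPred_eq, Set.mem_compl_iff, Set.mem_univ, true_and]
  tauto

theorem dens_compl {A : Set ℕ} {α : ℝ} (hA : HasDensity A α) : HasDensity Aᶜ (1 - α) := by
  intro q a hq ha
  refine ((hA q a hq ha).const_sub 1).congr' ?_
  filter_upwards [univ_pos q a hq ha] with x hx
  rw [primesIn_compl, sub_div, div_self hx]

theorem repsIn_split (A B A' B' U : Set ℕ) (hA : ∀ p, p ∈ A' ↔ p ∉ A) (hB : ∀ p, p ∈ B' ↔ p ∉ B)
    (hU : ∀ p, p ∈ U) (n : ℕ) : Sm.repsIn U U n =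
    Sm.repsIn A B n + Sm.repsIn A' U n + Sm.repsIn A B' n := by
  classical
  rw [repsIn_eq, repsIn_eq, repsIn_eq, repsIn_eq, ← card_union_of_disjoint,
    ← card_union_of_disjoint]
  · congr 1
    ext p
    simp only [mem_union, mem_filter, hA, hB, hU, and_true]
    tauto
  · rw [disjoint_left]
    intro p hp hp'
    rw [mem_filter] at hp'
    rw [mem_union, mem_filter, mem_filter] at hp
    rcases hp with hp | hp
    · exact (hB _).1 hp'.2.2.2.2 hp.2.2.2.2
    · exact (hA _).1 hp.2.2.2.1 hp'.2.2.2.1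
  · rw [disjoint_left]
    intro p hp hp'
    exact (hA _).1 (mem_filter.1 hp').2.2.2.1 (mem_filter.1 hp).2.2.2.1

theorem rho_split (A B : Set ℕ) (n : ℕ) : rho Set.univ Set.univ n =
    rho A B n + rho Aᶜ Set.univ n + rho A Bᶜ n := by
  unfold rho
  rw [repsIn_split A B Aᶜ Bᶜ Set.univ (fun p => Set.mem_compl_iff A p)
    (fun p => Set.mem_compl_iff B p) (fun p => Set.mem_univ p) n]
  push_cast
  ring

/-- The lower bound for the set of all primes. -/
theorem mean_all {η : ℝ} (hη : 0 < η) : ∃ N₀ : ℕ, ∀ N : ℕ, N₀ ≤ N →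
    (1 / 2 - η) * N ≤ ∑ n ∈ (Icc 1 N).filter (fun n => Even n), rho Set.univ Set.univ n := by
  classical
  obtain ⟨ε, hε, hε1, hεη⟩ : ∃ ε : ℝ, 0 < ε ∧ ε ≤ 1 ∧ 2 * ε ≤ η :=
    ⟨min 1 (η / 2), lt_min one_pos (by positivity), min_le_left _ _, by
      have := min_le_right 1 (η / 2)
      linarith⟩
  obtain ⟨N₁, hN₁⟩ := En.main 1 le_rfl 3 ε (by norm_num) hε
  obtain ⟨N₂, hN₂⟩ := exists_nat_ge (2 / η)
  refine ⟨max 3 (max N₁ N₂), fun N hN => ?_⟩
  have a1 : 3 ≤ N := (le_max_left _ _).trans hN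
  have a2 : N₁ ≤ N := ((le_max_left _ _).trans (le_max_right _ _)).trans hN
  have a3 : N₂ ≤ N := ((le_max_right _ _).trans (le_max_right _ _)).trans hN
  obtain ⟨k, hk⟩ : ∃ k : ℕ, k = N / 2 := ⟨_, rfl⟩
  have hkN : 2 * k ≤ N := by omega
  have hkN' : N ≤ 2 * k + 1 := by omega
  have hfam : En.Fam 1 3 N k (fun i : Fin k => 2 * ((i : ℕ) + 1)) := by
    refine ⟨fun i => ⟨?_, ?_⟩, ?_⟩
    · show 1 ≤ 2 * ((i : ℕ) + 1)
      omega
    · show 2 * ((i : ℕ) + 1) ≤ N
      have := i.2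
      omega
    have e1 : En.energy (fun i : Fin k => 2 * ((i : ℕ) + 1)) 1 ≤ k := by
      unfold En.energy
      have e2 : ((univ : Finset ((Fin 1 → Fin k) × (Fin 1 → Fin k))).filter
          (fun xy => ∑ j, 2 * (((xy.1 j : Fin k) : ℕ) + 1) =
            ∑ j, 2 * (((xy.2 j : Fin k) : ℕ) + 1))).card ≤ (univ : Finset (Fin k)).card := by
        refine card_le_card_of_injOn (fun xy => xy.1 0) (fun _ _ => mem_coe.2 (mem_univ _)) ?_
        rintro ⟨x, y⟩ hx ⟨x', y'⟩ hx' h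
        simp only [coe_filter, mem_univ, true_and, Set.mem_ofPred_eq, Fin.sum_univ_one] at hx hx'
        simp only at h
        have e3 : x 0 = y 0 := by
          apply Fin.ext
          omega
        have e4 : x' 0 = y' 0 := by
          apply Fin.ext
          omega
        have e5 : x = x' := by
          funext j
          rw [Subsingleton.elim j 0]
          exact h
        have e6 : y = y' := by
          funext j
          rw [Subsingleton.elim j 0, ← e3, ← e4]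
          exact h
        rw [e5, e6]
      rw [card_univ, Fintype.card_fin] at e2
      exact e2
    have e7 : (En.energy (fun i : Fin k => 2 * ((i : ℕ) + 1)) 1 : ℝ) ≤ k := by exact_mod_cast e1
    have e8 : (N : ℝ) ≤ 3 * k := by
      have : N ≤ 3 * k := by omega
      exact_mod_cast this
    have e9 : (0 : ℝ) ≤ k := Nat.cast_nonneg k
    calc (N : ℝ) * (En.energy (fun i : Fin k => 2 * ((i : ℕ) + 1)) 1 : ℝ) ≤ (3 * k) * k := by
          gcongr
      _ = 3 * (k : ℝ) ^ (2 * 1) := by ring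
  have hmain := hN₁ N a2 k _ hfam (fun i => even_two_mul _)
  obtain ⟨Bd, hBd⟩ : ∃ Bd : Finset (Fin k), Bd = (univ : Finset (Fin k)).filter
    (fun i : Fin k => ε * En.HL (2 * ((i : ℕ) + 1)) <
      |(En.r2 (2 * ((i : ℕ) + 1)) : ℝ) - En.HL (2 * ((i : ℕ) + 1))|) := ⟨_, rfl⟩
  rw [← hBd] at hmain
  have b1 : ∀ i ∈ (univ : Finset (Fin k)) \ Bd, 1 - ε ≤ rho Set.univ Set.univ (2 * ((i : ℕ) + 1)) := by
    intro i hi
    rw [Finset.mem_sdiff, hBd, mem_filter, not_and, not_lt] at hi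
    have e1 := hi.2 (mem_univ _)
    have e2 : Sm.repsIn Set.univ Set.univ (2 * ((i : ℕ) + 1)) = En.r2 (2 * ((i : ℕ) + 1)) := by
      rw [repsIn_eq]
      unfold En.r2
      congr 1
      ext p
      simp
    have hpos : 0 < En.HL (2 * ((i : ℕ) + 1)) := by
      have h2 := En.sing_ge (2 * ((i : ℕ) + 1))
      have h3 := En.tw_pos
      have h4 : (1 : ℝ) < ((2 * ((i : ℕ) + 1) : ℕ) : ℝ) := by
        exact_mod_cast (by omega : 1 < 2 * ((i : ℕ) + 1))
      have h5 := Real.log_pos h4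
      unfold En.HL
      have h6 : 0 < En.sing (2 * ((i : ℕ) + 1)) := by linarith
      positivity
    unfold rho
    rw [e2, le_div_iff₀ hpos]
    have := (abs_le.1 e1).1
    linarith
  have b2 : ∑ i ∈ (univ : Finset (Fin k)) \ Bd, (1 - ε) ≤
      ∑ i ∈ (univ : Finset (Fin k)), rho Set.univ Set.univ (2 * ((i : ℕ) + 1)) :=
    (sum_le_sum b1).trans (sum_le_sum_of_subset_of_nonneg sdiff_subset
      fun i _ _ => rho_nonneg _ _ _)
  have b3 : ∑ i ∈ (univ : Finset (Fin k)), rho Set.univ Set.univ (2 * ((i : ℕ) + 1)) ≤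
      ∑ n ∈ (Icc 1 N).filter (fun n => Even n), rho Set.univ Set.univ n := by
    have e1 : ∑ i ∈ (univ : Finset (Fin k)), rho Set.univ Set.univ (2 * ((i : ℕ) + 1)) =
        ∑ n ∈ (univ : Finset (Fin k)).image (fun i : Fin k => 2 * ((i : ℕ) + 1)),
          rho Set.univ Set.univ n := by
      rw [sum_image]
      intro i _ j _ h
      apply Fin.ext
      simp only at h
      omega
    rw [e1]
    refine sum_le_sum_of_subset_of_nonneg ?_ fun n _ _ => rho_nonneg _ _ _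
    intro n hn
    obtain ⟨i, _, hi⟩ := mem_image.1 hn
    rw [mem_filter, mem_Icc, ← hi]
    have := i.2
    exact ⟨⟨by omega, by omega⟩, even_two_mul _⟩
  have b4 : ((((univ : Finset (Fin k)) \ Bd).card : ℕ) : ℝ) = k - Bd.card := by
    rw [card_sdiff_of_subset (subset_univ _), card_univ, Fintype.card_fin, Nat.cast_sub]
    have := card_le_card (subset_univ Bd)
    rwa [card_univ, Fintype.card_fin] at this
  rw [sum_const, nsmul_eq_mul, b4] at b2
  have hk0 : (0 : ℝ) ≤ k := Nat.cast_nonneg k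
  have hkr : (N : ℝ) ≤ 2 * k + 1 := by exact_mod_cast hkN'
  have hkr' : 2 * (k : ℝ) ≤ N := by exact_mod_cast hkN
  have b5 : (k - (Bd.card : ℝ)) * (1 - ε) ≥ k - 2 * ε * k := by
    have e1 : (0 : ℝ) ≤ Bd.card := Nat.cast_nonneg _
    have e2 : (k - (Bd.card : ℝ)) * (1 - ε) ≥ (k - ε * k) * (1 - ε) :=
      mul_le_mul_of_nonneg_right (by linarith) (by linarith)
    nlinarith
  have b6 : 2 ≤ η * N := by
    have h2 : (2 : ℝ) / η ≤ N := hN₂.trans (by exact_mod_cast a3)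
    rw [div_le_iff₀ hη] at h2
    linarith
  have b7 : 2 * ε * k ≤ η * N / 2 := by
    have : 2 * ε * k ≤ η * k := mul_le_mul_of_nonneg_right hεη hk0
    nlinarith
  nlinarith

/-- The mean value of the counts of two sets of primes with densities in all reduced residue
classes. -/
theorem tendsto_mean {A B : Set ℕ} {α β : ℝ} (hA : HasDensity A α) (hB : HasDensity B β) :
    Tendsto (fun N : ℕ => 2 / (N : ℝ) * ∑ n ∈ (Icc 1 N).filter (fun n => Even n), rho A B n) atTop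
      (𝓝 (α * β)) := by
  rw [Metric.tendsto_atTop]
  intro ε hε
  obtain ⟨N₁, hN₁⟩ := mean_upper hA hB (η := ε / 16) (by positivity)
  obtain ⟨N₂, hN₂⟩ := mean_upper (dens_compl hA) dens_univ (η := ε / 16) (by positivity)
  obtain ⟨N₃, hN₃⟩ := mean_upper hA (dens_compl hB) (η := ε / 16) (by positivity)
  obtain ⟨N₄, hN₄⟩ := mean_all (η := ε / 16) (by positivity)
  refine ⟨1 + N₁ + N₂ + N₃ + N₄, fun N hN => ?_⟩
  have c1 := hN₁ N (by omega)
  have c2 := hN₂ N (by omega)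
  have c3 := hN₃ N (by omega)
  have c4 := hN₄ N (by omega)
  have hN' : (0 : ℝ) < N := by exact_mod_cast (by omega : 0 < N)
  have c5 : ∑ n ∈ (Icc 1 N).filter (fun n => Even n), rho Set.univ Set.univ n =
      ∑ n ∈ (Icc 1 N).filter (fun n => Even n), rho A B n +
      ∑ n ∈ (Icc 1 N).filter (fun n => Even n), rho Aᶜ Set.univ n +
      ∑ n ∈ (Icc 1 N).filter (fun n => Even n), rho A Bᶜ n := by
    rw [← sum_add_distrib, ← sum_add_distrib]
    exact sum_congr rfl fun n _ => rho_split A B n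
  rw [c5] at c4
  obtain ⟨S, hS⟩ : ∃ S : ℝ, S = ∑ n ∈ (Icc 1 N).filter (fun n => Even n), rho A B n := ⟨_, rfl⟩
  rw [← hS] at c1 c4 ⊢
  have d1 : 2 / (N : ℝ) * S ≤ α * β + ε / 8 := by
    rw [div_mul_eq_mul_div, div_le_iff₀ hN']
    nlinarith
  have d2 : α * β - 3 * (ε / 8) - ε / 8 ≤ 2 / (N : ℝ) * S := by
    rw [div_mul_eq_mul_div, le_div_iff₀ hN']
    nlinarith
  rw [Real.dist_eq, abs_lt]
  constructor
  · linarith
  · linarith

end Pool.Agent.Lib.MP_629a14_nt.Kp
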