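import Mathlib

/-! An upper bound for the number of points of a rotation of the circle in an interval. -/

set_option autoImplicit false

namespace Pool.Agent.Lib.MP_629a14_nt.Kp

open Finset Filter Topology

open Classical in
theorem rot_block {α : ℝ} {p : ℤ} {q : ℕ} (hq : 0 < q) (hpq : IsCoprime p (q : ℤ))
    (hα : |α - p / q| ≤ 1 / (q : ℝ) ^ 2) (x₀ u v : ℝ) :
    (((range q).filter (fun j : ℕ => u ≤ Int.fract (x₀ + α * j) ∧
      Int.fract (x₀ + α * j) < v)).card : ℝ) ≤ max 0 (q * (v - u) + 4) := by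
  have hq' : (0 : ℝ) < q := by exact_mod_cast hq
  have : NeZero q := ⟨hq.ne'⟩
  set S := (range q).filter (fun j : ℕ => u ≤ Int.fract (x₀ + α * j) ∧
      Int.fract (x₀ + α * j) < v) with hS
  set f : ℕ → ZMod q := fun j => ((⌊(q : ℝ) * x₀⌋ + p * j : ℤ) : ZMod q) with hf
  set T : Finset (ZMod q) := (Finset.Icc ⌈(q : ℝ) * u - 2⌉ ⌊(q : ℝ) * v + 1⌋).image
    (fun z : ℤ => (z : ZMod q)) with hT
  have h1 : S.card ≤ T.card := by
    apply Finset.card_le_card_of_injOn f
    · intro j hj
      rw [hS, Finset.coe_filter] at hj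
      obtain ⟨hjq, h2, h3⟩ := hj
      have hjq' : (j : ℝ) < q := by exact_mod_cast Finset.mem_range.1 hjq
      have hj0 : (0 : ℝ) ≤ j := by positivity
      rw [hT, Finset.coe_image]
      refine ⟨⌊(q : ℝ) * x₀⌋ + p * j - q * ⌊x₀ + α * j⌋, ?_, ?_⟩
      · have h4 := Int.floor_le ((q : ℝ) * x₀)
        have h5 := Int.lt_floor_add_one ((q : ℝ) * x₀)
        have h6 := Int.self_sub_floor (x₀ + α * j)
        have h7 : |(q : ℝ) * α * j - p * j| < 1 := by
          have : (q : ℝ) * α * j - p * j = (α - p / q) * (q * j) := by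
            field_simp
          rw [this, abs_mul, abs_of_nonneg (by positivity : (0 : ℝ) ≤ q * j)]
          calc |α - p / q| * (q * j) ≤ 1 / (q : ℝ) ^ 2 * (q * j) := by gcongr
            _ = j / q := by field_simp
            _ < 1 := by rw [div_lt_one hq']; exact hjq'
        rw [abs_lt] at h7
        have h8 : (q : ℝ) * u ≤ q * (x₀ + α * j - ⌊x₀ + α * j⌋) := by
          rw [h6]; gcongr
        have h9 : (q : ℝ) * (x₀ + α * j - ⌊x₀ + α * j⌋) ≤ q * v := by
          rw [h6]; gcongr
        rw [Finset.coe_Icc, Set.mem_Icc]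
        constructor
        · rw [Int.ceil_le]
          push_cast
          nlinarith [h7.1, h7.2]
        · rw [Int.le_floor]
          push_cast
          nlinarith [h7.1, h7.2]
      · simp only [hf]
        push_cast
        simp
    · intro i hi j hj hij
      rw [hS, Finset.coe_filter] at hi hj
      have hi' := Finset.mem_range.1 hi.1
      have hj' := Finset.mem_range.1 hj.1
      simp only [hf] at hij
      push_cast at hij
      have h2 : ((p : ZMod q)) * (i : ZMod q) = p * j := by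
        simpa using hij
      have h3 : IsUnit (p : ZMod q) := by
        obtain ⟨s, r, hsr⟩ := hpq
        refine IsUnit.of_mul_eq_one (s : ZMod q) ?_
        have := congrArg (fun z : ℤ => (z : ZMod q)) hsr
        push_cast at this
        simp at this
        rw [mul_comm]; exact this
      have h4 := h3.mul_left_cancel h2
      rw [ZMod.natCast_eq_natCast_iff] at h4
      exact Nat.ModEq.eq_of_lt_of_lt h4 hi' hj'
  have h2 : T.card ≤ (⌊(q : ℝ) * v + 1⌋ + 1 - ⌈(q : ℝ) * u - 2⌉).toNat := by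
    refine Finset.card_image_le.trans ?_
    rw [Int.card_Icc]
  have h3 : ((S.card : ℕ) : ℝ) ≤ ((⌊(q : ℝ) * v + 1⌋ + 1 - ⌈(q : ℝ) * u - 2⌉).toNat : ℝ) := by
    exact_mod_cast h1.trans h2
  refine h3.trans ?_
  have h4 : (((⌊(q : ℝ) * v + 1⌋ + 1 - ⌈(q : ℝ) * u - 2⌉).toNat : ℤ) : ℝ) =
      max (((⌊(q : ℝ) * v + 1⌋ + 1 - ⌈(q : ℝ) * u - 2⌉ : ℤ) : ℝ)) 0 := by
    rw [Int.toNat_eq_max]
    push_cast
    rfl
  have h5 : ((⌊(q : ℝ) * v + 1⌋ + 1 - ⌈(q : ℝ) * u - 2⌉).toNat : ℝ) =
      (((⌊(q : ℝ) * v + 1⌋ + 1 - ⌈(q : ℝ) * u - 2⌉).toNat : ℤ) : ℝ) := by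
    norm_cast
  rw [h5, h4, max_comm]
  apply max_le_max le_rfl
  push_cast
  have h6 := Int.floor_le ((q : ℝ) * v + 1)
  have h7 := Int.le_ceil ((q : ℝ) * u - 2)
  nlinarith

open Classical in
theorem rot_upper {α : ℝ} (hα : Irrational α) {u v : ℝ} (huv : u ≤ v) {ε : ℝ} (hε : 0 < ε) :
    ∀ᶠ X : ℕ in atTop, (((range X).filter (fun m : ℕ => u ≤ Int.fract (α * m) ∧
      Int.fract (α * m) < v)).card : ℝ) ≤ (v - u + ε) * X := by
  obtain ⟨r, hr1, hr2⟩ : ∃ r : ℚ, |α - r| < 1 / (r.den : ℝ) ^ 2 ∧ 8 / ε < r.den := by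
    by_contra hcon
    push Not at hcon
    have hinf := Real.infinite_rat_abs_sub_lt_one_div_den_sq_of_irrational hα
    apply hinf
    -- bounded denominators
    set D : ℕ := ⌈8 / ε⌉₊ with hD
    set C : ℤ := ⌈(D : ℝ) * (|α| + 1)⌉ with hC
    have : {q : ℚ | |α - (q : ℝ)| < 1 / (q.den : ℝ) ^ 2} ⊆
        ((Finset.Icc (-C) C ×ˢ Finset.Icc (1 : ℕ) D).image
          (fun z : ℤ × ℕ => ((z.1 : ℚ) / (z.2 : ℚ))) : Finset ℚ) := by
      intro q hq
      have h1 := hcon q hq
      have hden : q.den ≤ D := by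
        have : (q.den : ℝ) ≤ D := h1.trans (Nat.le_ceil _)
        exact_mod_cast this
      have hpos : 1 ≤ q.den := q.den_pos
      have hpos' : (1 : ℝ) ≤ q.den := by exact_mod_cast hpos
      rw [Finset.coe_image]
      refine ⟨(q.num, q.den), ?_, ?_⟩
      · rw [Finset.coe_product, Set.mem_prod, Finset.coe_Icc, Finset.coe_Icc]
        refine ⟨?_, hpos, hden⟩
        have h2 : |(q : ℝ)| ≤ |α| + 1 := by
          have h3 : |α - (q : ℝ)| < 1 := lt_of_lt_of_le hq (by
            rw [div_le_one (by positivity)]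
            nlinarith)
          have := abs_sub_abs_le_abs_sub (q : ℝ) α
          rw [abs_sub_comm] at this
          linarith
        have h3 : |(q.num : ℝ)| ≤ C := by
          have h4 : (q.num : ℝ) = q * q.den := by
            have := Rat.mul_den_eq_num q
            exact_mod_cast this.symm
          rw [h4, abs_mul, abs_of_pos (by linarith : (0 : ℝ) < (q.den : ℝ))]
          calc |(q : ℝ)| * q.den ≤ (|α| + 1) * D := by gcongr
            _ = D * (|α| + 1) := mul_comm _ _
            _ ≤ C := Int.le_ceil _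
        rw [abs_le] at h3
        constructor
        · have := h3.1
          exact_mod_cast this
        · have := h3.2
          exact_mod_cast this
      · simp [Rat.num_div_den]
    exact Set.Finite.subset (Finset.finite_toSet _) this
  set q : ℕ := r.den with hqdef
  have hq : 0 < q := r.den_pos
  have hq' : (0 : ℝ) < q := by exact_mod_cast hq
  have hpq : IsCoprime r.num (q : ℤ) := by
    have := r.reduced
    rw [Int.isCoprime_iff_gcd_eq_one]
    simpa [Int.gcd, Int.natAbs_natCast] using this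
  have hr1' : |α - (r.num : ℝ) / q| ≤ 1 / (q : ℝ) ^ 2 := by
    have : (r : ℝ) = (r.num : ℝ) / q := by
      rw [hqdef]; exact_mod_cast (Rat.num_div_den r).symm
    rw [← this]; exact hr1.le
  have hblock : ∀ d : ℕ, ((Nat.count (fun m : ℕ => u ≤ Int.fract (α * m) ∧
      Int.fract (α * m) < v) (q * d) : ℕ) : ℝ) ≤ d * (q * (v - u) + 4) := by
    intro d
    induction d with
    | zero => simp
    | succ d ih =>
      rw [Nat.mul_succ, Nat.count_add]
      push_cast
      have h1 := rot_block hq hpq hr1' (α * (q * d)) u v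
      rw [max_eq_right (by nlinarith)] at h1
      have h2 : Nat.count (fun k : ℕ => u ≤ Int.fract (α * ((q : ℝ) * d + k)) ∧
          Int.fract (α * ((q : ℝ) * d + k)) < v) q =
          ((range q).filter (fun j : ℕ => u ≤ Int.fract (α * (q * d) + α * j) ∧
            Int.fract (α * (q * d) + α * j) < v)).card := by
        rw [Nat.count_eq_card_filter_range]
        congr 1
        ext j
        simp only [mul_add]
      rw [h2]
      linarith
  filter_upwards [eventually_ge_atTop (⌈2 * q * (v - u + ε / 2) / ε⌉₊)] with X hX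
  have hX' : 2 * q * (v - u + ε / 2) / ε ≤ X := by
    exact (Nat.le_ceil _).trans (by exact_mod_cast hX)
  rw [← Nat.count_eq_card_filter_range]
  have h1 : Nat.count (fun m : ℕ => u ≤ Int.fract (α * m) ∧ Int.fract (α * m) < v) X ≤
      Nat.count (fun m : ℕ => u ≤ Int.fract (α * m) ∧ Int.fract (α * m) < v)
        (q * (X / q + 1)) := by
    apply Nat.count_monotone
    have := Nat.lt_mul_div_succ X hq
    exact this.le
  have h2 : ((Nat.count (fun m : ℕ => u ≤ Int.fract (α * m) ∧ Int.fract (α * m) < v) X : ℕ) : ℝ) ≤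
      ((X / q + 1 : ℕ) : ℝ) * (q * (v - u) + 4) :=
    le_trans (by exact_mod_cast h1) (hblock _)
  have h3 : ((X / q + 1 : ℕ) : ℝ) * q ≤ X + q := by
    have : (X / q + 1) * q ≤ X + q := by
      rw [add_mul, one_mul]
      exact Nat.add_le_add_right (Nat.div_mul_le_self X q) q
    exact_mod_cast this
  have h4 : (q : ℝ) * (v - u) + 4 ≤ q * (v - u + ε / 2) := by
    rw [div_lt_iff₀ hε] at hr2
    nlinarith
  calc _ ≤ ((X / q + 1 : ℕ) : ℝ) * (q * (v - u) + 4) := h2
    _ ≤ ((X / q + 1 : ℕ) : ℝ) * (q * (v - u + ε / 2)) := by gcongr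
    _ = ((X / q + 1 : ℕ) : ℝ) * q * (v - u + ε / 2) := by ring
    _ ≤ (X + q) * (v - u + ε / 2) := by
      apply mul_le_mul_of_nonneg_right h3
      linarith
    _ ≤ (v - u + ε) * X := by
      rw [div_le_iff₀ hε] at hX'
      nlinarith

end Pool.Agent.Lib.MP_629a14_nt.Kp
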