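import Pool.Agent.Lib.MP_629a14_nt.Kp.Defs
import Pool.Agent.Lib.MP_629a14_nt.Kp.Rot
import Pool.Agent.Lib.MP_629a14_nt.En.Sing

/-! The theorem on truncated means is sharp: the sets of primes with `√2 p` in an interval. -/

set_option autoImplicit false

namespace Pool.Agent.Lib.MP_629a14_nt.Kp

open Finset Filter Topology Pool.Agent.Lib.MP_629a14_nt Pool.Agent.Lib.MP_629a14_nt.Rob

/-- The set of the natural numbers `p` with fractional part of `√2 p` in `[u, v)`. -/
def arcS (u v : ℝ) : Set ℕ :=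
  {p : ℕ | u ≤ Int.fract (Real.sqrt 2 * p) ∧ Int.fract (Real.sqrt 2 * p) < v}

theorem shHL_nonneg (n : ℕ) : 0 ≤ En.HL n := by
  have h1 := En.tw_pos
  have h2 := En.sing_ge n
  have h3 : 0 ≤ En.sing n := by linarith
  unfold En.HL
  positivity

theorem shrho_nonneg (A B : Set ℕ) (n : ℕ) : 0 ≤ rho A B n := by
  unfold rho
  have := shHL_nonneg n
  positivity

/-- The cells of the grid which meet the two corner triangles. -/
noncomputable def cells (M : ℕ) (a b t : ℝ) : Finset (ℕ × ℕ) := by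
  classical exact (range M ×ˢ range M).filter (fun ij => ((ij.1 : ℝ) + ij.2 < t * M) ∨
    ((ij.1 : ℝ) < M * a ∧ (ij.2 : ℝ) < M * b ∧ M * (a + b - t) - 2 < ij.1 + ij.2))

theorem card_lt (T : ℕ) (S : Finset (ℕ × ℕ)) (h : ∀ ij ∈ S, ij.1 + ij.2 < T) :
    2 * S.card ≤ T * (T + 1) := by
  have h1 : S ⊆ (range T).biUnion (fun s => Finset.HasAntidiagonal.antidiagonal s) := by
    intro ij hij
    rw [Finset.mem_biUnion]
    exact ⟨ij.1 + ij.2, Finset.mem_range.2 (h ij hij), by simp⟩
  have h2 : S.card ≤ ∑ s ∈ range T, (s + 1) := by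
    refine (Finset.card_le_card h1).trans (Finset.card_biUnion_le.trans ?_)
    apply Finset.sum_le_sum
    intro s _
    rw [Finset.Nat.card_antidiagonal]
  have h3 : ∑ s ∈ range T, (s + 1) * 2 = T * (T + 1) := by
    clear h1 h2 h
    induction T with
    | zero => simp
    | succ T ih => rw [Finset.sum_range_succ, ih]; ring
  rw [← Finset.sum_mul] at h3
  omega

theorem card_cells {M : ℕ} (hM : 0 < M) {a b t : ℝ} (ht0 : 0 ≤ t) (ht1 : t ≤ 1) :
    ((cells M a b t).card : ℝ) ≤ t ^ 2 * M ^ 2 + 12 * M := by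
  classical
  have hM' : (1 : ℝ) ≤ M := by exact_mod_cast hM
  set T : ℕ := ⌈t * M⌉₊ with hT
  have hT1 : (T : ℝ) < t * M + 1 := Nat.ceil_lt_add_one (by positivity)
  have hT2 : t * M ≤ T := Nat.le_ceil _
  set S₁ := (cells M a b t).filter (fun ij => (ij.1 : ℝ) + ij.2 < t * M) with hS1
  set S₂ := (cells M a b t).filter (fun ij => ¬ ((ij.1 : ℝ) + ij.2 < t * M)) with hS2
  have hcard : (cells M a b t).card = S₁.card + S₂.card := by
    rw [hS1, hS2, Finset.card_filter_add_card_filter_not]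
  have h1 : 2 * S₁.card ≤ T * (T + 1) := by
    apply card_lt
    intro ij hij
    rw [hS1, Finset.mem_filter] at hij
    have : ((ij.1 + ij.2 : ℕ) : ℝ) < T := by push_cast; linarith [hij.2]
    exact_mod_cast this
  set a' : ℕ := ⌈(M : ℝ) * a⌉₊ with ha'
  set b' : ℕ := ⌈(M : ℝ) * b⌉₊ with hb'
  have h2 : 2 * S₂.card ≤ (T + 2) * (T + 2 + 1) := by
    have hmem : ∀ ij ∈ S₂, ij.1 < a' ∧ ij.2 < b' ∧ (M : ℝ) * (a + b - t) - 2 < ij.1 + ij.2 ∧
        0 < M * a ∧ 0 < M * b := by
      intro ij hij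
      rw [hS2, Finset.mem_filter] at hij
      obtain ⟨h3, h4⟩ := hij
      unfold cells at h3
      rw [Finset.mem_filter] at h3
      rcases h3.2 with h5 | ⟨h5, h6, h7⟩
      · exact absurd h5 h4
      · exact ⟨Nat.lt_ceil.2 h5, Nat.lt_ceil.2 h6, h7, lt_of_le_of_lt (by positivity) h5,
          lt_of_le_of_lt (by positivity) h6⟩
    have h3 : S₂.card = (S₂.image (fun ij => (a' - 1 - ij.1, b' - 1 - ij.2))).card := by
      rw [Finset.card_image_of_injOn]
      intro x hx y hy hxy
      obtain ⟨h4, h5, -⟩ := hmem x hx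
      obtain ⟨h6, h7, -⟩ := hmem y hy
      simp only [Prod.mk.injEq] at hxy
      ext <;> omega
    rw [h3]
    apply card_lt
    intro ij hij
    rw [Finset.mem_image] at hij
    obtain ⟨kl, hkl, rfl⟩ := hij
    obtain ⟨h4, h5, h6, h7, h8⟩ := hmem kl hkl
    have h9 : (a' : ℝ) < M * a + 1 := Nat.ceil_lt_add_one h7.le
    have h10 : (b' : ℝ) < M * b + 1 := Nat.ceil_lt_add_one h8.le
    have h11 : (((a' - 1 - kl.1) + (b' - 1 - kl.2) : ℕ) : ℝ) = a' - 1 - kl.1 + (b' - 1 - kl.2) := by
      rw [Nat.cast_add, Nat.cast_sub (by omega), Nat.cast_sub (by omega), Nat.cast_sub (by omega),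
        Nat.cast_sub (by omega)]
      simp
    have h12 : (((a' - 1 - kl.1) + (b' - 1 - kl.2) : ℕ) : ℝ) < ((T + 2 : ℕ) : ℝ) := by
      rw [h11]; push_cast
      nlinarith
    exact_mod_cast h12
  have h3 : (2 : ℝ) * (cells M a b t).card ≤ T * (T + 1) + (T + 2) * (T + 2 + 1) := by
    have : 2 * (cells M a b t).card ≤ T * (T + 1) + (T + 2) * (T + 2 + 1) := by omega
    exact_mod_cast this
  nlinarith [mul_nonneg ht0 (by linarith : (0 : ℝ) ≤ M), Nat.cast_nonneg (α := ℝ) T,
    mul_le_mul_of_nonneg_right ht1 (by linarith : (0 : ℝ) ≤ M)]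

theorem mem_arc {M : ℕ} (hM : 0 < M) (n : ℕ) :
    ∃ i < M, n ∈ arcS (i / M) ((i + 1) / M) ∧ (i : ℝ) ≤ M * Int.fract (Real.sqrt 2 * n) ∧
      M * Int.fract (Real.sqrt 2 * n) < i + 1 := by
  have hM' : (0 : ℝ) < M := by exact_mod_cast hM
  set x := Int.fract (Real.sqrt 2 * n) with hx
  have hx0 : 0 ≤ x := Int.fract_nonneg _
  have hx1 : x < 1 := Int.fract_lt_one _
  refine ⟨⌊M * x⌋₊, ?_, ⟨?_, ?_⟩, ?_, ?_⟩
  · rw [Nat.floor_lt (by positivity)]
    nlinarith
  · rw [div_le_iff₀ hM', mul_comm]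
    exact Nat.floor_le (by positivity)
  · rw [lt_div_iff₀ hM', mul_comm]
    exact Nat.lt_floor_add_one _
  · exact Nat.floor_le (by positivity)
  · exact Nat.lt_floor_add_one _

/-- Outside the middle interval, the representations come from the two corners. -/
theorem rho_le_cells {M : ℕ} (hM : 0 < M) {a b t : ℝ} (ht : a + b - t < 1) {n : ℕ}
    (hn : n ∉ arcS t (a + b - t)) :
    rho (arcS 0 a) (arcS 0 b) n ≤ ∑ ij ∈ cells M a b t,
      rho (arcS (ij.1 / M) ((ij.1 + 1) / M)) (arcS (ij.2 / M) ((ij.2 + 1) / M)) n := by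
  classical
  unfold rho
  rw [← Finset.sum_div]
  apply div_le_div_of_nonneg_right _ (shHL_nonneg n)
  rw [← Nat.cast_sum]
  have hM' : (0 : ℝ) < M := by exact_mod_cast hM
  have h : Sm.repsIn (arcS 0 a) (arcS 0 b) n ≤ ∑ ij ∈ cells M a b t,
      Sm.repsIn (arcS (ij.1 / M) ((ij.1 + 1) / M)) (arcS (ij.2 / M) ((ij.2 + 1) / M)) n := by
    unfold Sm.repsIn
    refine le_trans (Finset.card_le_card ?_) Finset.card_biUnion_le
    intro p hp
    rw [Finset.mem_filter, Finset.mem_range] at hp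
    obtain ⟨hpn, hp1, hp2, hpA, hpB⟩ := hp
    rw [Finset.mem_biUnion]
    obtain ⟨i, hiM, hi1, hi2, hi3⟩ := mem_arc hM p
    obtain ⟨j, hjM, hj1, hj2, hj3⟩ := mem_arc hM (n - p)
    refine ⟨(i, j), ?_, ?_⟩
    · unfold cells
      rw [Finset.mem_filter, Finset.mem_product, Finset.mem_range, Finset.mem_range]
      refine ⟨⟨hiM, hjM⟩, ?_⟩
      set x := Int.fract (Real.sqrt 2 * (p : ℕ)) with hx
      set y := Int.fract (Real.sqrt 2 * ((n - p : ℕ) : ℝ)) with hy
      have hxa : x < a := hpA.2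
      have hyb : y < b := hpB.2
      have hx0 : 0 ≤ x := Int.fract_nonneg _
      have hy0 : 0 ≤ y := Int.fract_nonneg _
      by_cases hc : x + y < t
      · left
        show (i : ℝ) + j < t * M
        nlinarith
      · right
        have hc2 : a + b - t ≤ x + y := by
          by_contra hc2
          push Not at hc hc2
          apply hn
          have hs : Int.fract (Real.sqrt 2 * n) = x + y := by
            have hnp : (n : ℝ) = p + ((n - p : ℕ) : ℝ) := by
              rw [Nat.cast_sub (by omega)]; ring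
            rw [Int.fract_eq_iff]
            refine ⟨by linarith, by linarith, ⌊Real.sqrt 2 * (p : ℕ)⌋ +
              ⌊Real.sqrt 2 * ((n - p : ℕ) : ℝ)⌋, ?_⟩
            have e1 := Int.self_sub_floor (Real.sqrt 2 * (p : ℕ))
            have e2 := Int.self_sub_floor (Real.sqrt 2 * ((n - p : ℕ) : ℝ))
            rw [← hx] at e1
            rw [← hy] at e2
            rw [hnp]
            push_cast
            rw [← e1, ← e2]
            ring
          exact ⟨by rw [hs]; exact hc, by rw [hs]; exact hc2⟩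
        refine ⟨?_, ?_, ?_⟩
        · show (i : ℝ) < M * a
          nlinarith
        · show (j : ℝ) < M * b
          nlinarith
        · show (M : ℝ) * (a + b - t) - 2 < i + j
          nlinarith
    · rw [Finset.mem_filter, Finset.mem_range]
      exact ⟨hpn, hp1, hp2, hi1, hj1⟩
  exact_mod_cast h

theorem irr_two_sqrt : Irrational (2 * Real.sqrt 2) := by
  have := irrational_sqrt_two
  have h := this.natCast_mul (m := 2) (by norm_num)
  simpa using h

open Classical in
/-- Even integers in an interval of the rotation. -/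
theorem even_arc_le {u v : ℝ} (huv : u ≤ v) {ε : ℝ} (hε : 0 < ε) :
    ∀ᶠ N : ℕ in atTop, (2 / (N : ℝ)) * (((Icc 1 N).filter (fun n => Even n)).filter
      (fun n => n ∈ arcS u v)).card ≤ v - u + ε := by
  have h := rot_upper irr_two_sqrt huv (half_pos hε)
  rw [eventually_atTop] at h
  obtain ⟨X₀, hX₀⟩ := h
  filter_upwards [eventually_ge_atTop (2 * X₀ + 1),
    eventually_ge_atTop (⌈4 * (v - u + ε / 2) / ε⌉₊ + 1)] with N hN1 hN2
  have hN : (0 : ℝ) < N := by
    have : 0 < N := by omega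
    exact_mod_cast this
  have h1 := hX₀ (N / 2 + 1) (by omega)
  have h2 : (((Icc 1 N).filter (fun n => Even n)).filter (fun n => n ∈ arcS u v)).card ≤
      ((range (N / 2 + 1)).filter (fun m : ℕ => u ≤ Int.fract (2 * Real.sqrt 2 * m) ∧
      Int.fract (2 * Real.sqrt 2 * m) < v)).card := by
    apply Finset.card_le_card_of_injOn (fun n => n / 2)
    · intro n hn
      rw [Finset.coe_filter] at hn
      obtain ⟨hn1, hn2⟩ := hn
      rw [Finset.mem_filter, Finset.mem_Icc] at hn1
      obtain ⟨k, hk⟩ := hn1.2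
      rw [Finset.coe_filter]
      have hk2 : n / 2 = k := by omega
      have e : 2 * Real.sqrt 2 * ((n / 2 : ℕ) : ℝ) = Real.sqrt 2 * n := by
        rw [hk2, hk]; push_cast; ring
      refine ⟨Finset.mem_range.2 ?_, ?_⟩
      · show n / 2 < N / 2 + 1
        omega
      · show u ≤ Int.fract (2 * Real.sqrt 2 * ((n / 2 : ℕ) : ℝ)) ∧
          Int.fract (2 * Real.sqrt 2 * ((n / 2 : ℕ) : ℝ)) < v
        rw [e]; exact hn2
    · intro x hx y hy hxy
      rw [Finset.coe_filter] at hx hy
      obtain ⟨k, hk⟩ := (Finset.mem_filter.1 hx.1).2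
      obtain ⟨l, hl⟩ := (Finset.mem_filter.1 hy.1).2
      simp only at hxy
      omega
  have h3 : ((((Icc 1 N).filter (fun n => Even n)).filter (fun n => n ∈ arcS u v)).card : ℝ) ≤
      (v - u + ε / 2) * ((N / 2 + 1 : ℕ) : ℝ) := le_trans (by exact_mod_cast h2) h1
  have h4 : ((N / 2 + 1 : ℕ) : ℝ) ≤ N / 2 + 1 := by
    push_cast
    have : ((N / 2 : ℕ) : ℝ) ≤ N / 2 := Nat.cast_div_le
    linarith
  have h5 : 4 * (v - u + ε / 2) / ε ≤ N := by
    refine (Nat.le_ceil _).trans ?_
    have : ⌈4 * (v - u + ε / 2) / ε⌉₊ ≤ N := by omega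
    exact_mod_cast this
  rw [div_le_iff₀ hε] at h5
  rw [div_mul_eq_mul_div, div_le_iff₀ hN]
  have h6 : (v - u + ε / 2) * ((N / 2 + 1 : ℕ) : ℝ) ≤ (v - u + ε / 2) * (N / 2 + 1) := by
    apply mul_le_mul_of_nonneg_left h4; linarith
  nlinarith

theorem card_even (N : ℕ) : ((((Icc 1 N).filter (fun n => Even n)).card : ℕ) : ℝ) ≤ N / 2 := by
  have h : ((Icc 1 N).filter (fun n => Even n)).card ≤ N / 2 := by
    have : ((Icc 1 N).filter (fun n => Even n)).card ≤ (Icc 1 (N / 2)).card := by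
      apply Finset.card_le_card_of_injOn (fun n => n / 2)
      · intro n hn
        rw [Finset.coe_filter] at hn
        obtain ⟨k, hk⟩ := hn.2
        have := Finset.mem_Icc.1 hn.1
        rw [Finset.coe_Icc, Set.mem_Icc]
        simp only
        omega
      · intro x hx y hy hxy
        rw [Finset.coe_filter] at hx hy
        obtain ⟨k, hk⟩ := hx.2
        obtain ⟨l, hl⟩ := hy.2
        simp only at hxy
        omega
    simpa using this
  exact le_trans (by exact_mod_cast h) Nat.cast_div_le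

open Classical in
theorem sharp_upper
    (harc : ∀ u v : ℝ, 0 ≤ u → u ≤ v → v ≤ 1 → HasDensity (arcS u v) (v - u))
    (hmean : ∀ (A B : Set ℕ) (a b : ℝ), HasDensity A a → HasDensity B b → ∀ ε : ℝ, 0 < ε →
      ∀ᶠ N : ℕ in atTop, (2 / (N : ℝ)) * ∑ n ∈ (Icc 1 N).filter (fun n => Even n), rho A B n ≤
        a * b + ε)
    {a b : ℝ} (ha1 : a ≤ 1) {t : ℝ} (ht0 : 0 ≤ t) (hta : t ≤ a)
    (htb : t ≤ b) {ε : ℝ} (hε : 0 < ε) :
    ∀ᶠ N : ℕ in atTop, (2 / (N : ℝ)) * ∑ n ∈ (Icc 1 N).filter (fun n => Even n),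
      min (rho (arcS 0 a) (arcS 0 b) n) t ≤ t * min 1 (a + b - t) + ε := by
  rcases le_or_gt 1 (a + b - t) with h1 | h1
  · -- trivial bound
    filter_upwards [eventually_gt_atTop 0] with N hN
    have hN' : (0 : ℝ) < N := by exact_mod_cast hN
    rw [min_eq_left h1, mul_one]
    calc _ ≤ (2 / (N : ℝ)) * ∑ n ∈ (Icc 1 N).filter (fun n => Even n), t := by
          gcongr with n _
          exact min_le_right _ _
      _ = (2 / (N : ℝ)) * ((((Icc 1 N).filter (fun n => Even n)).card : ℕ) * t) := by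
          rw [Finset.sum_const, nsmul_eq_mul]
      _ ≤ (2 / (N : ℝ)) * ((N / 2) * t) := by
          gcongr
          exact card_even N
      _ = t := by field_simp
      _ ≤ t + ε := by linarith
  · rw [min_eq_right h1.le]
    -- the parameters
    obtain ⟨M, hM0, hM⟩ : ∃ M : ℕ, 0 < M ∧ 12 / (M : ℝ) ≤ ε / 3 := by
      refine ⟨⌈36 / ε⌉₊ + 1, Nat.succ_pos _, ?_⟩
      have h2 : 36 / ε ≤ (⌈36 / ε⌉₊ : ℝ) := Nat.le_ceil _
      have h3 : (0 : ℝ) ≤ (⌈36 / ε⌉₊ : ℝ) := by positivity
      push_cast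
      rw [div_le_iff₀ (by positivity)]
      rw [div_le_iff₀ hε] at h2
      nlinarith
    have hM' : (0 : ℝ) < M := by exact_mod_cast hM0
    set G := cells M a b t with hG
    set ε₂ : ℝ := ε / (3 * ((M : ℝ) ^ 2 + 1)) with hε₂
    have hε₂0 : 0 < ε₂ := by positivity
    have hGM : ∀ ij ∈ G, ij.1 < M ∧ ij.2 < M := by
      intro ij hij
      rw [hG] at hij
      unfold cells at hij
      rw [Finset.mem_filter, Finset.mem_product, Finset.mem_range, Finset.mem_range] at hij
      exact hij.1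
    have harc' : ∀ i : ℕ, i < M → HasDensity (arcS (i / M) ((i + 1) / M)) (1 / M) := by
      intro i hi
      have hi' : (i : ℝ) + 1 ≤ M := by exact_mod_cast hi
      have := harc (i / M) ((i + 1) / M) (by positivity) (by gcongr; linarith)
        (by rw [div_le_one hM']; exact hi')
      have e : ((i : ℝ) + 1) / M - i / M = 1 / M := by ring
      rwa [e] at this
    have hall : ∀ᶠ N : ℕ in atTop, ∀ ij ∈ G, (2 / (N : ℝ)) *
        ∑ n ∈ (Icc 1 N).filter (fun n => Even n),
          rho (arcS (ij.1 / M) ((ij.1 + 1) / M)) (arcS (ij.2 / M) ((ij.2 + 1) / M)) n ≤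
        1 / M * (1 / M) + ε₂ := by
      rw [Filter.eventually_all_finset]
      intro ij hij
      exact hmean _ _ _ _ (harc' _ (hGM ij hij).1) (harc' _ (hGM ij hij).2) ε₂ hε₂0
    have heven := even_arc_le (u := t) (v := a + b - t) (by linarith)
      (ε := ε / (3 * (t + 1))) (by positivity)
    filter_upwards [hall, heven, eventually_gt_atTop 0] with N hN1 hN2 hN3
    have hN' : (0 : ℝ) < N := by exact_mod_cast hN3
    set E := (Icc 1 N).filter (fun n => Even n) with hE
    have hs : ∑ n ∈ E, min (rho (arcS 0 a) (arcS 0 b) n) t ≤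
        (E.filter (fun n => n ∈ arcS t (a + b - t))).card * t +
        ∑ ij ∈ G, ∑ n ∈ E,
          rho (arcS (ij.1 / M) ((ij.1 + 1) / M)) (arcS (ij.2 / M) ((ij.2 + 1) / M)) n := by
      rw [← Finset.sum_filter_add_sum_filter_not E (fun n => n ∈ arcS t (a + b - t))]
      apply add_le_add
      · rw [← nsmul_eq_mul, ← Finset.sum_const]
        apply Finset.sum_le_sum
        intro n _
        exact min_le_right _ _
      · rw [Finset.sum_comm]
        refine le_trans (Finset.sum_le_sum (g := fun n => ∑ ij ∈ G,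
          rho (arcS (ij.1 / M) ((ij.1 + 1) / M)) (arcS (ij.2 / M) ((ij.2 + 1) / M)) n) ?_) ?_
        · intro n hn
          exact (min_le_left _ _).trans (rho_le_cells hM0 h1 (Finset.mem_filter.1 hn).2)
        · apply Finset.sum_le_sum_of_subset_of_nonneg (Finset.filter_subset _ _)
          intro n _ _
          apply Finset.sum_nonneg
          intro ij _
          exact shrho_nonneg _ _ _
    have hcG : (G.card : ℝ) ≤ t ^ 2 * M ^ 2 + 12 * M :=
      card_cells hM0 ht0 (by linarith)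
    have hcG2 : (G.card : ℝ) ≤ (M : ℝ) ^ 2 := by
      have : G.card ≤ M * M := by
        rw [hG]; unfold cells
        refine (Finset.card_filter_le _ _).trans ?_
        simp
      calc (G.card : ℝ) ≤ ((M * M : ℕ) : ℝ) := by exact_mod_cast this
        _ = (M : ℝ) ^ 2 := by push_cast; ring
    calc (2 / (N : ℝ)) * ∑ n ∈ E, min (rho (arcS 0 a) (arcS 0 b) n) t
        ≤ (2 / (N : ℝ)) * ((E.filter (fun n => n ∈ arcS t (a + b - t))).card * t +
        ∑ ij ∈ G, ∑ n ∈ E,
          rho (arcS (ij.1 / M) ((ij.1 + 1) / M)) (arcS (ij.2 / M) ((ij.2 + 1) / M)) n) := by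
          gcongr
      _ = ((2 / (N : ℝ)) * (E.filter (fun n => n ∈ arcS t (a + b - t))).card) * t +
        ∑ ij ∈ G, (2 / (N : ℝ)) * ∑ n ∈ E,
          rho (arcS (ij.1 / M) ((ij.1 + 1) / M)) (arcS (ij.2 / M) ((ij.2 + 1) / M)) n := by
          rw [← Finset.mul_sum]; ring
      _ ≤ (a + b - t - t + ε / (3 * (t + 1))) * t + ∑ ij ∈ G, (1 / M * (1 / M) + ε₂) := by
          gcongr with ij hij
          exact hN1 ij hij
      _ = (a + b - t - t + ε / (3 * (t + 1))) * t + G.card * (1 / M * (1 / M)) + G.card * ε₂ := by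
          rw [Finset.sum_const, nsmul_eq_mul]; ring
      _ ≤ t * (a + b - t) + ε := by
          have e1 : ε / (3 * (t + 1)) * t ≤ ε / 3 := by
            rw [div_mul_eq_mul_div, div_le_iff₀ (by positivity)]
            nlinarith
          have e2 : (G.card : ℝ) * (1 / M * (1 / M)) ≤ t ^ 2 + ε / 3 := by
            calc (G.card : ℝ) * (1 / M * (1 / M)) ≤
                (t ^ 2 * M ^ 2 + 12 * M) * (1 / M * (1 / M)) := by gcongr
              _ = t ^ 2 + 12 / M := by field_simp
              _ ≤ _ := by linarith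
          have e3 : (G.card : ℝ) * ε₂ ≤ ε / 3 := by
            calc (G.card : ℝ) * ε₂ ≤ (M : ℝ) ^ 2 * ε₂ := by gcongr
              _ = ε / 3 * ((M : ℝ) ^ 2 / ((M : ℝ) ^ 2 + 1)) := by rw [hε₂]; field_simp
              _ ≤ ε / 3 * 1 := by
                gcongr
                rw [div_le_one (by positivity)]
                linarith
              _ = ε / 3 := by ring
          nlinarith

end Pool.Agent.Lib.MP_629a14_nt.Kp
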