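import Pool.Agent.Lib.MP_629a14_nt.Kp.Ext2
import Pool.Agent.Lib.MP_629a14_nt.Kp.Sharp
import Pool.Agent.Lib.MP_629a14_nt.Kp.ArcEven

/-! The numbers without representations in the example. -/

set_option autoImplicit false

namespace Pool.Agent.Lib.MP_629a14_nt.Kp

open Finset Filter Topology

theorem z0_nonneg (x : ℝ) : 0 ≤ z0 x := by
  unfold z0
  split_ifs <;> norm_num

theorem rho_zero_of {A B : Set ℕ} {n : ℕ}
    (h : ∀ p : ℕ, p ≤ n → p ∈ A → n - p ∈ B → False) : rho A B n = 0 := by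
  classical
  unfold rho
  have : Sm.repsIn A B n = 0 := by
    unfold Sm.repsIn
    rw [card_eq_zero, filter_eq_empty_iff]
    intro p hp
    rw [mem_range] at hp
    rintro ⟨_, _, h1, h2⟩
    exact h p (by omega) h1 h2
  rw [this]
  simp

theorem avg_of_zero {f : ℕ → ℝ} (h : ∀ n, f n = 0) (ε : ℝ) (hε : 0 < ε) :
    ∃ N₀ : ℕ, ∀ N : ℕ, N₀ ≤ N → 1 - ε ≤ avg N (fun n => z0 (f n)) := by
  have h1 := avg_one_ev ε hε
  obtain ⟨N₀, hN⟩ := eventually_atTop.1 h1
  refine ⟨N₀, fun N hN' => ?_⟩
  have h2 := (abs_le.1 (hN N hN')).1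
  have h3 : avg N (fun n => z0 (f n)) = avg N (fun _ => 1) := by
    unfold avg
    congr 1
    refine sum_congr rfl fun n _ => ?_
    simp [h n, z0]
  rw [h3]
  linarith

/-- Proof. `extremal z0 α β` is `1` if `min α β = 0` (then one of the sets is empty), and otherwise
`max 0 (1 - α - β)`. If `α + β < 1` and `p ∈ arcS 0 α`, `q ∈ arcS 0 β` then
`Int.fract (√2 (p + q)) < α + β`, so `ρ n = 0` for all `n ∈ arcS (α + β) 1`; use the theorem
`even_arc` of `Kp/ArcEven.lean` (or Weyl) for the number of even `n ≤ N` in this arc. -/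
theorem ex_zero {α β : ℝ} (hα0 : 0 ≤ α) (hα1 : α ≤ 1) (hβ0 : 0 ≤ β) (hβ1 : β ≤ 1)
    (ε : ℝ) (hε : 0 < ε) : ∃ N₀ : ℕ, ∀ N : ℕ, N₀ ≤ N →
      extremal z0 α β - ε ≤ avg N (fun n => z0 (rho (arcS 0 α) (arcS 0 β) n)) := by
  classical
  have hempty : ∀ p : ℕ, p ∉ arcS 0 0 := by
    intro p hp
    exact absurd hp.2 (not_lt.2 hp.1)
  rcases eq_or_lt_of_le hα0 with h0 | hα
  · have h1 : extremal z0 α β = 1 := by
      rw [← h0]
      unfold extremal
      rw [max_eq_left (by linarith), min_eq_left hβ0]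
      rw [abs_of_nonneg (by linarith), abs_of_nonpos (by linarith)]
      simp [z0]
    rw [h1, ← h0]
    exact avg_of_zero (fun n => rho_zero_of fun p _ h _ => hempty p h) ε hε
  rcases eq_or_lt_of_le hβ0 with h0 | hβ
  · have h1 : extremal z0 α β = 1 := by
      rw [← h0]
      unfold extremal
      rw [max_eq_left (by linarith), min_eq_right hα0]
      rw [abs_of_nonneg (by linarith), abs_of_nonneg (by linarith)]
      simp [z0]
    rw [h1, ← h0]
    exact avg_of_zero (fun n => rho_zero_of fun p _ _ h => hempty _ h) ε hε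
  have hmin : 0 < min α β := lt_min hα hβ
  have hint : ∫ x in (max 0 (α + β - 1))..(min α β), z0 x = 0 := by
    have h1 : ∀ᵐ x : ℝ ∂MeasureTheory.volume, x ≠ 0 := by
      have : MeasureTheory.volume ({0} : Set ℝ) = 0 := Real.volume_singleton
      rw [MeasureTheory.ae_iff]
      simpa using this
    rw [intervalIntegral.integral_congr_ae (g := fun _ => (0 : ℝ))]
    · simp
    · filter_upwards [h1] with x hx _
      simp [z0, hx]
  have hnn : ∀ N : ℕ, 0 ≤ avg N (fun n => z0 (rho (arcS 0 α) (arcS 0 β) n)) := by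
    intro N
    unfold avg
    exact mul_nonneg (by positivity) (sum_nonneg fun n _ => z0_nonneg _)
  rcases le_or_gt 1 (α + β) with hab | hab
  · refine ⟨0, fun N _ => ?_⟩
    have h1 : extremal z0 α β = 0 := by
      unfold extremal
      rw [hint]
      rcases eq_or_lt_of_le hab with h2 | h2
      · rw [show 1 - α - β = 0 by linarith]
        simp [z0, hmin.ne']
      · have h3 : 0 < max 0 (α + β - 1) := lt_max_of_lt_right (by linarith)
        simp [z0, hmin.ne', h3.ne']
    rw [h1]
    linarith [hnn N]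
  · have h1 : extremal z0 α β = 1 - α - β := by
      unfold extremal
      rw [hint, max_eq_left (by linarith), abs_of_pos (by linarith)]
      simp [z0, hmin.ne']
    rw [h1]
    have h2 := even_arc (Real.sqrt 2) irrational_sqrt_two (α + β) 1 (by linarith) (by linarith)
      le_rfl
    obtain ⟨N₀, hN⟩ := Metric.tendsto_atTop.1 h2 (ε / 2) (by positivity)
    refine ⟨max N₀ 1, fun N hN' => ?_⟩
    have h3 := hN N (le_trans (le_max_left _ _) hN')
    have hN1 : 1 ≤ N := le_trans (le_max_right _ _) hN'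
    have hN0 : (0 : ℝ) < N := by exact_mod_cast hN1
    rw [Real.dist_eq] at h3
    have h4 := (abs_lt.1 h3).1
    have h5 : (((Icc 1 N).filter (fun n : ℕ => Even n ∧ α + β ≤ Int.fract (Real.sqrt 2 * n) ∧
        Int.fract (Real.sqrt 2 * n) < 1)).card : ℝ) ≤
        ∑ n ∈ (Icc 1 N).filter (fun n => Even n), z0 (rho (arcS 0 α) (arcS 0 β) n) := by
      have h6 : (Icc 1 N).filter (fun n : ℕ => Even n ∧ α + β ≤ Int.fract (Real.sqrt 2 * n) ∧
          Int.fract (Real.sqrt 2 * n) < 1) ⊆ (Icc 1 N).filter (fun n => Even n) := by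
        intro n hn
        rw [mem_filter] at hn ⊢
        exact ⟨hn.1, hn.2.1⟩
      refine le_trans ?_ (sum_le_sum_of_subset_of_nonneg h6 fun n _ _ => z0_nonneg _)
      rw [card_eq_sum_ones, Nat.cast_sum]
      refine sum_le_sum fun n hn => ?_
      rw [mem_filter] at hn
      rw [rho_zero_of]
      · simp [z0]
      · intro p hp h7 h8
        have h9 := h7.2
        have h10 := h8.2
        have h11 : Real.sqrt 2 * (n : ℝ) = Real.sqrt 2 * p + Real.sqrt 2 * ((n - p : ℕ) : ℝ) := by
          rw [Nat.cast_sub hp]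
          ring
        have h12 : Int.fract (Real.sqrt 2 * (n : ℝ)) ≤
            Int.fract (Real.sqrt 2 * p) + Int.fract (Real.sqrt 2 * ((n - p : ℕ) : ℝ)) := by
          rw [h11]
          exact Int.fract_add_le _ _
        have := hn.2.2.1
        linarith
    unfold avg
    rw [div_mul_eq_mul_div, le_div_iff₀ hN0]
    have h6 : ((1 - (α + β)) / 2 - ε / 2) * N < (((Icc 1 N).filter (fun n : ℕ => Even n ∧
        α + β ≤ Int.fract (Real.sqrt 2 * n) ∧ Int.fract (Real.sqrt 2 * n) < 1)).card : ℝ) := by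
      rw [← lt_div_iff₀ hN0]
      linarith
    nlinarith

end Pool.Agent.Lib.MP_629a14_nt.Kp
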