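import Pool.Agent.Lib.MP_629a14_nt.Kp.Trunc
import Pool.Agent.Lib.MP_629a14_nt.Kp.Zero
import Pool.Agent.Lib.MP_629a14_nt.Kp.Arc
import Pool.Agent.Lib.MP_629a14_nt.Kp.Mean

/-! The Kneser-Pollard theorem for the primes. -/

set_option autoImplicit false

namespace Pool.Agent.Lib.MP_629a14_nt.Kp

open Finset Filter Topology Pool.Agent.Lib.MP_629a14_nt Pool.Agent.Lib.MP_629a14_nt.Rob

theorem main_mean {A B : Set ℕ} {α β : ℝ} (hA : HasDensity A α) (hB : HasDensity B β)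
    (ε : ℝ) (hε : 0 < ε) : ∃ N₀ : ℕ, ∀ N : ℕ, N₀ ≤ N → |avg N (rho A B) - α * β| ≤ ε := by
  obtain ⟨N₀, h⟩ := Metric.tendsto_atTop.1 (tendsto_mean hA hB) ε hε
  refine ⟨N₀, fun N hN => ?_⟩
  have := h N hN
  rw [Real.dist_eq] at this
  exact this.le

theorem main_upper {A B : Set ℕ} {α β : ℝ} (hA : HasDensity A α) (hB : HasDensity B β)
    (φ : ℝ → ℝ) (hφ : ConvexOn ℝ (Set.Ici 0) φ) (ε : ℝ) (hε : 0 < ε) :
    ∃ N₀ : ℕ, ∀ N : ℕ, N₀ ≤ N → avg N (fun n => φ (rho A B n)) ≤ extremal φ α β + ε := by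
  obtain ⟨C, _, hC⟩ := rho_le'
  have ha := dens_mem hA
  have hb := dens_mem hB
  exact convex_upper0 (rho_nonneg A B) (hC A B) ha.1 ha.2 hb.1 hb.2
    (fun ε hε => by
      obtain ⟨N₀, h⟩ := main_mean hA hB ε hε
      exact ⟨N₀, fun N hN => by have := (abs_le.1 (h N hN)).2; linarith⟩)
    (fun t ht h1 h2 => trunc_low ha.2 hb.2 hA hB ht h1 h2)
    φ hφ ε hε

theorem main_example {α β : ℝ} (hα0 : 0 ≤ α) (hα1 : α ≤ 1) (hβ0 : 0 ≤ β) (hβ1 : β ≤ 1)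
    (φ : ℝ → ℝ) (hφ : ConvexOn ℝ (Set.Ici 0) φ) :
    Tendsto (fun N : ℕ => avg N (fun n => φ (rho (arcS 0 α) (arcS 0 β) n))) atTop
      (𝓝 (extremal φ α β)) := by
  have harc : ∀ u v : ℝ, 0 ≤ u → u ≤ v → v ≤ 1 → HasDensity (arcS u v) (v - u) :=
    fun u v h1 h2 h3 => arc_density u v h1 h2 h3
  have hA : HasDensity (arcS 0 α) α := by simpa using harc 0 α le_rfl hα0 hα1
  have hB : HasDensity (arcS 0 β) β := by simpa using harc 0 β le_rfl hβ0 hβ1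
  obtain ⟨C, _, hC⟩ := rho_le'
  rw [Metric.tendsto_atTop]
  intro ε hε
  obtain ⟨N1, h1⟩ := main_upper hA hB φ hφ (ε / 2) (by positivity)
  obtain ⟨N2, h2⟩ := convex_lower0 (rho_nonneg (arcS 0 α) (arcS 0 β)) (hC _ _) hα0 hα1 hβ0 hβ1
    (main_mean hA hB)
    (fun t ht h1 h2 ε hε => by
      have h3 := sharp_upper harc (fun A B a b hA hB ε hε => by
        obtain ⟨N₀, h⟩ := main_mean hA hB ε hε
        filter_upwards [eventually_ge_atTop N₀] with N hN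
        have := (abs_le.1 (h N hN)).2
        unfold avg at this
        linarith) hα1 ht h1 h2 hε
      obtain ⟨N₀, h⟩ := eventually_atTop.1 h3
      exact ⟨N₀, fun N hN => h N hN⟩) (ex_zero hα0 hα1 hβ0 hβ1) φ hφ (ε / 4) (by positivity)
  refine ⟨max N1 N2, fun N hN => ?_⟩
  have g1 := h1 N (le_trans (le_max_left _ _) hN)
  have g2 := h2 N (le_trans (le_max_right _ _) hN)
  rw [Real.dist_eq, abs_lt]
  constructor <;> linarith

end Pool.Agent.Lib.MP_629a14_nt.Kp
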