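import Pool.Agent.Lib.MP_629a14_nt.Kp.Defs
import Pool.Agent.Lib.MP_629a14_nt.Fc.TFun
import Pool.Agent.Lib.MP_629a14_nt.En.Main
import Pool.Agent.Lib.MP_629a14_nt.Rob.PiAP
import Pool.Agent.Lib.MP_629a14_nt.Col.Crtp

/-! Counting the primes of a set with a density in every reduced residue class. -/

set_option autoImplicit false

namespace Pool.Agent.Lib.MP_629a14_nt.Kp

open Finset Filter Topology Pool.Agent.Lib.MP_629a14_nt Pool.Agent.Lib.MP_629a14_nt.Rob

/-- Uniform version of an asymptotic formula `f N ~ c N / log N`. -/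
theorem unif_of_lim (f : ℕ → ℝ) (c : ℝ) (hf0 : ∀ x, 0 ≤ f x) (hfx : ∀ x : ℕ, f x ≤ x)
    (hc0 : 0 ≤ c) (hc1 : c ≤ 1)
    (hlim : Tendsto (fun N : ℕ => f N * Real.log N / (N : ℝ)) atTop (𝓝 c)) (ε : ℝ) (hε : 0 < ε) :
    ∃ N₀ : ℕ, ∀ N : ℕ, N₀ ≤ N → ∀ x : ℕ, x ≤ N → |Real.log N * f x - c * x| ≤ ε * N := by
  obtain ⟨ε₁, hε₁, hε₁0, hε₁1⟩ : ∃ ε₁ : ℝ, 2 * ε₁ ≤ ε ∧ 0 < ε₁ ∧ ε₁ ≤ 1 :=
    ⟨min (ε / 2) 1, by have := min_le_left (ε / 2) 1; linarith, by positivity, min_le_right _ _⟩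
  have hev1 : ∀ᶠ x : ℕ in atTop, |f x * Real.log x / (x : ℝ) - c| < ε₁ := by
    have h1 := Metric.tendsto_nhds.1 hlim ε₁ hε₁0
    simpa only [Real.dist_eq] using h1
  have hev2 : ∀ᶠ x : ℕ in atTop, 2 / ε₁ ≤ Real.log x :=
    (Real.tendsto_log_atTop.comp tendsto_natCast_atTop_atTop).eventually_ge_atTop _
  obtain ⟨x₁, hx₁⟩ := eventually_atTop.1 (hev1.and (hev2.and (eventually_ge_atTop 2)))
  have hev3 : ∀ᶠ N : ℕ in atTop, (x₁ : ℝ) * (Real.log N ^ 1 / (N : ℝ)) < ε₁ := by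
    have h1 := (PiAP.log_pow_div 1).const_mul (x₁ : ℝ)
    rw [mul_zero] at h1
    exact (tendsto_order.1 h1).2 _ hε₁0
  have hev4 : ∀ᶠ N : ℕ in atTop, (x₁ : ℝ) / ε₁ ≤ (N : ℝ) :=
    tendsto_natCast_atTop_atTop.eventually_ge_atTop _
  obtain ⟨N₀, hN₀⟩ := eventually_atTop.1 (hev3.and (hev4.and (eventually_ge_atTop 1)))
  refine ⟨N₀, fun N hN x hx => ?_⟩
  obtain ⟨hN3, hN4, hN1⟩ := hN₀ N hN
  have hN' : (0 : ℝ) < N := by exact_mod_cast hN1
  have hlogN : 0 ≤ Real.log N := Real.log_natCast_nonneg N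
  have hxN : (x : ℝ) ≤ N := by exact_mod_cast hx
  rcases lt_or_ge x x₁ with hlt | hge
  · have h1 : (x : ℝ) ≤ x₁ := by exact_mod_cast hlt.le
    rw [pow_one, ← mul_div_assoc, div_lt_iff₀ hN'] at hN3
    rw [div_le_iff₀ hε₁0] at hN4
    have h2 : f x * Real.log N ≤ x₁ * Real.log N :=
      mul_le_mul_of_nonneg_right ((hfx x).trans h1) hlogN
    have h3 : 0 ≤ Real.log N * f x := mul_nonneg hlogN (hf0 x)
    have h4 : 0 ≤ c * x := by positivity
    have h5 : c * x ≤ x₁ := by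
      calc c * x ≤ 1 * x := mul_le_mul_of_nonneg_right hc1 (Nat.cast_nonneg x)
        _ ≤ x₁ := by rw [one_mul]; exact h1
    have h6 : 2 * ε₁ * N ≤ ε * N := mul_le_mul_of_nonneg_right hε₁ hN'.le
    rw [abs_le]
    constructor
    · nlinarith
    · nlinarith
  · obtain ⟨h1, h2, h3⟩ := hx₁ x hge
    have hx0 : (0 : ℝ) < x := by
      have : 0 < x := by omega
      exact_mod_cast this
    have hlx : 0 < Real.log x := lt_of_lt_of_le (by positivity) h2
    have h4 : |f x * Real.log x - c * x| ≤ ε₁ * x := by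
      have h5 : f x * Real.log x / (x : ℝ) - c = (f x * Real.log x - c * x) / x := by
        field_simp
      rw [h5, abs_div, abs_of_pos hx0, div_lt_iff₀ hx0] at h1
      exact h1.le
    have h5 : f x * Real.log x ≤ 2 * x := by
      have := (abs_le.1 h4).2
      nlinarith
    have h6 : x * (Real.log N - Real.log x) ≤ N := by
      have h7 := Real.log_le_sub_one_of_pos (show 0 < (N : ℝ) / x by positivity)
      rw [Real.log_div hN'.ne' hx0.ne'] at h7
      have h8 := mul_le_mul_of_nonneg_left h7 hx0.le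
      have h9 : (x : ℝ) * ((N : ℝ) / x - 1) = N - x := by
        field_simp
      linarith
    have h7 : 0 ≤ Real.log N - Real.log x := by
      have := Real.log_le_log hx0 hxN
      linarith
    have h8 : f x * (Real.log N - Real.log x) ≤ ε₁ * N := by
      have h9 : f x ≤ ε₁ * x := by
        have h10 : f x * (2 / ε₁) ≤ 2 * x := (mul_le_mul_of_nonneg_left h2 (hf0 x)).trans h5
        rw [← mul_div_assoc, div_le_iff₀ hε₁0] at h10
        linarith
      calc f x * (Real.log N - Real.log x) ≤ ε₁ * x * (Real.log N - Real.log x) :=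
            mul_le_mul_of_nonneg_right h9 h7
        _ = ε₁ * (x * (Real.log N - Real.log x)) := by ring
        _ ≤ ε₁ * N := mul_le_mul_of_nonneg_left h6 hε₁0.le
    have h9 : 0 ≤ f x * (Real.log N - Real.log x) := mul_nonneg (hf0 x) h7
    have h10 : ε₁ * x ≤ ε₁ * N := mul_le_mul_of_nonneg_left hxN hε₁0.le
    have h11 : 2 * ε₁ * N ≤ ε * N := mul_le_mul_of_nonneg_right hε₁ hN'.le
    obtain ⟨h12, h13⟩ := abs_le.1 h4
    rw [abs_le]
    constructor
    · nlinarith
    · nlinarith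

open Classical in
theorem primesIn_eq (A : Set ℕ) (q a x : ℕ) : primesIn A q a x =
    ((Icc 1 x).filter (fun p => p.Prime ∧ p ∈ A ∧ p ≡ a [MOD q])).card := by
  unfold primesIn
  rw [← Set.ncard_coe_finset]
  congr 1
  ext p
  simp only [Set.mem_ofPred_eq, Finset.coe_filter, Finset.mem_Icc]
  constructor
  · rintro ⟨h1, h2, h3, h4⟩
    exact ⟨⟨h2.one_le, h1⟩, h2, h3, h4⟩
  · rintro ⟨⟨_, h1⟩, h2, h3, h4⟩
    exact ⟨h1, h2, h3, h4⟩

theorem primesIn_mono {A B : Set ℕ} (h : A ⊆ B) (q a x : ℕ) :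
    primesIn A q a x ≤ primesIn B q a x := by
  classical
  rw [primesIn_eq, primesIn_eq]
  refine card_le_card fun p hp => ?_
  rw [mem_filter] at hp ⊢
  exact ⟨hp.1, hp.2.1, h hp.2.2.1, hp.2.2.2⟩

theorem primesIn_le (A : Set ℕ) (q a x : ℕ) : (primesIn A q a x : ℝ) ≤ x := by
  classical
  rw [primesIn_eq]
  have h1 := Finset.card_filter_le (Icc 1 x) (fun p => p.Prime ∧ p ∈ A ∧ p ≡ a [MOD q])
  rw [Nat.card_Icc, Nat.add_sub_cancel] at h1
  exact_mod_cast h1

/-- The density of the primes in a residue class. -/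
noncomputable def dl (q c : ℕ) : ℝ := if c.Coprime q then 1 / (q.totient : ℝ) else 0

theorem dl_nonneg (q c : ℕ) : 0 ≤ dl q c := by
  unfold dl
  split_ifs
  · positivity
  · exact le_rfl

theorem dl_le_one (q c : ℕ) (hq : 1 ≤ q) : dl q c ≤ 1 := by
  have hφ : (1 : ℝ) ≤ q.totient := by
    have := Nat.totient_pos.2 (show 0 < q by omega)
    exact_mod_cast this
  unfold dl
  split_ifs
  · rw [div_le_one (by linarith)]
    exact hφ
  · exact zero_le_one

theorem lim_univ (q a : ℕ) (hq : 1 ≤ q) (ha : a.Coprime q) :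
    Tendsto (fun N : ℕ => (primesIn Set.univ q a N : ℝ) * Real.log N / (N : ℝ)) atTop
      (𝓝 (1 / (q.totient : ℝ))) := by
  classical
  refine (pi_ap q a hq ha).congr fun N => ?_
  rw [primesIn_eq]
  congr 4
  ext p
  simp

theorem dens_mem {A : Set ℕ} {α : ℝ} (hA : HasDensity A α) : 0 ≤ α ∧ α ≤ 1 := by
  have h := hA 1 1 le_rfl (Nat.coprime_one_left 1)
  constructor
  · exact ge_of_tendsto' h fun x => by positivity
  · refine le_of_tendsto' h fun x => ?_
    have h1 : (primesIn A 1 1 x : ℝ) ≤ primesIn Set.univ 1 1 x := by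
      exact_mod_cast primesIn_mono (Set.subset_univ A) 1 1 x
    exact div_le_one_of_le₀ h1 (Nat.cast_nonneg _)

theorem lim_cop {A : Set ℕ} {α : ℝ} (hA : HasDensity A α) (q a : ℕ) (hq : 1 ≤ q)
    (ha : a.Coprime q) :
    Tendsto (fun N : ℕ => (primesIn A q a N : ℝ) * Real.log N / (N : ℝ)) atTop
      (𝓝 (α * dl q a)) := by
  have h1 := (hA q a hq ha).mul (lim_univ q a hq ha)
  have h2 : dl q a = 1 / (q.totient : ℝ) := by
    unfold dl
    rw [if_pos ha]
  rw [h2]
  refine h1.congr fun N => ?_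
  rcases Nat.eq_zero_or_pos (primesIn Set.univ q a N) with h0 | h0
  · have h3 : primesIn A q a N = 0 :=
      Nat.le_zero.1 ((primesIn_mono (Set.subset_univ A) q a N).trans h0.le)
    rw [h0, h3]
    simp
  · have h4 : (primesIn Set.univ q a N : ℝ) ≠ 0 := by exact_mod_cast h0.ne'
    field_simp

theorem small_of_not_cop (A : Set ℕ) (q a x : ℕ) (hq : 1 ≤ q) (ha : ¬ a.Coprime q) :
    primesIn A q a x ≤ q := by
  classical
  rw [primesIn_eq]
  have h1 : (Icc 1 x).filter (fun p => p.Prime ∧ p ∈ A ∧ p ≡ a [MOD q]) ⊆ Icc 1 q := by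
    intro p hp
    rw [mem_filter] at hp
    obtain ⟨_, hp, _, h2⟩ := hp
    rw [mem_Icc]
    refine ⟨hp.one_le, ?_⟩
    by_contra h3
    have h4 : p.Coprime q := by
      rw [hp.coprime_iff_not_dvd]
      intro h5
      exact h3 (Nat.le_of_dvd (by omega) h5)
    have h6 : a.Coprime q := by
      have := h2.gcd_eq
      unfold Nat.Coprime at h4 ⊢
      rw [← this, h4]
    exact ha h6
  refine (card_le_card h1).trans ?_
  rw [Nat.card_Icc, Nat.add_sub_cancel]

theorem lim_all {A : Set ℕ} {α : ℝ} (hA : HasDensity A α) (q a : ℕ) (hq : 1 ≤ q) :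
    Tendsto (fun N : ℕ => (primesIn A q a N : ℝ) * Real.log N / (N : ℝ)) atTop
      (𝓝 (α * dl q a)) := by
  by_cases ha : a.Coprime q
  · exact lim_cop hA q a hq ha
  · have h2 : dl q a = 0 := by
      unfold dl
      rw [if_neg ha]
    rw [h2, mul_zero]
    have h3 := (PiAP.log_pow_div 1).const_mul (q : ℝ)
    rw [mul_zero] at h3
    refine squeeze_zero (fun N => ?_) (fun N => ?_) h3
    · have := Real.log_natCast_nonneg N
      positivity
    · rw [pow_one, ← mul_div_assoc]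
      have h4 : (primesIn A q a N : ℝ) ≤ q := by exact_mod_cast small_of_not_cop A q a N hq ha
      have := Real.log_natCast_nonneg N
      gcongr

/-- Uniform asymptotic formula for the primes of `A` in all residue classes. -/
theorem unif_all {A : Set ℕ} {α : ℝ} (hA : HasDensity A α) (q : ℕ) (hq : 1 ≤ q) (ε : ℝ)
    (hε : 0 < ε) : ∃ N₀ : ℕ, ∀ N : ℕ, N₀ ≤ N → ∀ c < q, ∀ x : ℕ, x ≤ N →
      |Real.log N * primesIn A q c x - α * dl q c * x| ≤ ε * N := by
  obtain ⟨h0, h1⟩ := dens_mem hA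
  have key : ∀ c : ℕ, ∃ N₀ : ℕ, ∀ N : ℕ, N₀ ≤ N → ∀ x : ℕ, x ≤ N →
      |Real.log N * primesIn A q c x - α * dl q c * x| ≤ ε * N := by
    intro c
    refine unif_of_lim (fun x => (primesIn A q c x : ℝ)) (α * dl q c) (fun x => by positivity)
      (fun x => primesIn_le A q c x) (mul_nonneg h0 (dl_nonneg q c)) ?_ (lim_all hA q c hq) ε hε
    exact mul_le_one₀ h1 (dl_nonneg q c) (dl_le_one q c hq)
  choose f hf using key
  refine ⟨∑ c ∈ range q, f c, fun N hN c hc x hx => hf c N (le_trans ?_ hN) x hx⟩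
  exact single_le_sum (f := f) (fun _ _ => Nat.zero_le _) (mem_range.2 hc)

end Pool.Agent.Lib.MP_629a14_nt.Kp
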