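import Pool.Agent.Lib.MP_629a14_nt.Kp.MeanA

/-! The factors at the primes of the mean value of the Goldbach counts. -/

set_option autoImplicit false

namespace Pool.Agent.Lib.MP_629a14_nt.Kp

open Finset Filter Topology Pool.Agent.Lib.MP_629a14_nt Pool.Agent.Lib.MP_629a14_nt.Rob

/-- The truncated twin prime product. -/
noncomputable def twv (v : ℕ) : ℝ := ∏ p ∈ Fc.odp v, (1 - 1 / ((p : ℝ) - 1) ^ 2)

theorem primesLE_odp (v : ℕ) (hv : 2 ≤ v) : Nat.primesLE v = insert 2 (Fc.odp v) := by
  ext p
  rw [mem_insert, Fc.odp, mem_filter, mem_range, Nat.mem_primesLE]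
  constructor
  · rintro ⟨h1, h2⟩
    rcases eq_or_ne p 2 with h | h
    · exact Or.inl h
    · exact Or.inr ⟨by omega, h2, lt_of_le_of_ne h2.two_le (Ne.symm h)⟩
  · rintro (h | h)
    · rw [h]
      exact ⟨hv, Nat.prime_two⟩
    · exact ⟨by omega, h.2.1⟩

theorem two_notMem_odp (v : ℕ) : 2 ∉ Fc.odp v := by
  rw [Fc.odp, mem_filter]
  rintro ⟨_, _, h⟩
  omega

theorem totient_prod (v : ℕ) : ((primorial v).totient : ℝ) = ∏ p ∈ Nat.primesLE v, ((p : ℝ) - 1) := by
  have h := Nat.totient_mul_prod_primeFactors (primorial v)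
  rw [primeFactors_primorial] at h
  have h2 : ∏ p ∈ Nat.primesLE v, p = primorial v := (primorial_eq_prod_primesLE v).symm
  rw [h2] at h
  have h3 : (primorial v).totient = ∏ p ∈ Nat.primesLE v, (p - 1) := by
    rw [mul_comm] at h
    exact Nat.eq_of_mul_eq_mul_left (primorial_pos v) h
  rw [h3]
  push_cast
  refine prod_congr rfl fun p hp => ?_
  have hp1 : 1 ≤ p := (Nat.mem_primesLE.1 hp).2.one_le
  push_cast [Nat.cast_sub hp1]
  rfl

/-- The factor at `p`. -/
noncomputable def lf (d : ℕ) (p : ℕ) (x : ZMod p) : ℝ :=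
  (if x = 0 then 0 else 1) * (if 2 < p then 1 - 1 / ((p : ℝ) - 1) * (if x + d = 0 then 1 else 0) else 1)

theorem lf_sum (d p : ℕ) (hp : p.Prime) (hd : ¬ p ∣ d) : ∑ x ∈ range p, lf d p (x : ZMod p) =
    ((p : ℝ) - 1) * (if 2 < p then 1 - 1 / ((p : ℝ) - 1) ^ 2 else 1) := by
  classical
  have : Fact p.Prime := ⟨hp⟩
  have : NeZero p := ⟨hp.ne_zero⟩
  have h0 : ∑ x ∈ range p, lf d p (x : ZMod p) = ∑ x : ZMod p, lf d p x := by
    refine sum_bij (fun x _ => (x : ZMod p)) (fun _ _ => mem_univ _) ?_ ?_ fun _ _ => rfl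
    · intro x hx y hy h
      rw [mem_range] at hx hy
      have h1 := (ZMod.natCast_eq_natCast_iff' x y p).1 h
      rwa [Nat.mod_eq_of_lt hx, Nat.mod_eq_of_lt hy] at h1
    · intro x _
      exact ⟨x.val, mem_range.2 (ZMod.val_lt x), ZMod.natCast_zmod_val x⟩
  rw [h0]
  have hcard : ∑ x : ZMod p, (if x = 0 then (0 : ℝ) else 1) = (p : ℝ) - 1 := by
    have h1 : ∀ x : ZMod p, (if x = 0 then (0 : ℝ) else 1) = 1 - (if x = 0 then 1 else 0) := by
      intro x
      split_ifs <;> norm_num
    rw [sum_congr rfl fun x _ => h1 x, sum_sub_distrib, sum_ite_eq' univ (0 : ZMod p)]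
    simp [ZMod.card]
  have hp1 : (1 : ℝ) < p := by exact_mod_cast hp.one_lt
  unfold lf
  by_cases h2 : 2 < p
  · simp only [if_pos h2]
    have hd0 : (d : ZMod p) ≠ 0 := by
      rw [Ne, ZMod.natCast_eq_zero_iff]
      exact hd
    have h1 : ∀ x : ZMod p, (if x = 0 then (0 : ℝ) else 1) *
        (1 - 1 / ((p : ℝ) - 1) * (if x + d = 0 then 1 else 0)) =
        (if x = 0 then (0 : ℝ) else 1) - 1 / ((p : ℝ) - 1) * (if x = -(d : ZMod p) then 1 else 0) := by
      intro x
      by_cases hx : x = 0
      · have h3 : ¬ x = -(d : ZMod p) := by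
          rw [hx]
          intro h
          exact hd0 (neg_eq_zero.1 h.symm)
        rw [if_pos hx, if_neg h3]
        ring
      · rw [if_neg hx]
        by_cases h3 : x = -(d : ZMod p)
        · rw [if_pos h3, if_pos (by rw [h3]; ring)]
          ring
        · rw [if_neg h3, if_neg (fun h => h3 (eq_neg_of_add_eq_zero_left h))]
          ring
    rw [sum_congr rfl fun x _ => h1 x, sum_sub_distrib, hcard, ← mul_sum,
      sum_ite_eq' univ (-(d : ZMod p)), if_pos (mem_univ _)]
    have h4 : (p : ℝ) - 1 ≠ 0 := by linarith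
    field_simp
  · simp only [if_neg h2, mul_one]
    exact hcard

theorem loc_sum (v : ℕ) (hv : 2 ≤ v) (d : ℕ) (hd : d.Coprime (primorial v)) :
    ∑ c ∈ range (primorial v), dl (primorial v) c * Fc.tv v (c + d) = twv v := by
  classical
  have hS : ∀ p ∈ Nat.primesLE v, p.Prime := fun p hp => (Nat.mem_primesLE.1 hp).2
  have hW : ∏ p ∈ Nat.primesLE v, p = primorial v := (primorial_eq_prod_primesLE v).symm
  have h1 : ∀ c : ℕ, dl (primorial v) c * Fc.tv v (c + d) =
      (1 / ((primorial v).totient : ℝ)) * ∏ p ∈ Nat.primesLE v, lf d p (c : ZMod p) := by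
    intro c
    have h2 : dl (primorial v) c = (1 / ((primorial v).totient : ℝ)) *
        ∏ p ∈ Nat.primesLE v, (if (c : ZMod p) = 0 then (0 : ℝ) else 1) := by
      unfold dl
      split_ifs with h
      · rw [prod_congr rfl (g := fun _ => (1 : ℝ)), prod_const_one, mul_one]
        intro p hp
        rw [if_neg]
        rw [ZMod.natCast_eq_zero_iff]
        intro h3
        have h4 : p ∣ primorial v := by
          rw [← hW]
          exact dvd_prod_of_mem _ hp
        have h5 := Nat.dvd_gcd h3 h4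
        rw [Nat.Coprime] at h
        rw [h] at h5
        exact (hS p hp).one_lt.ne' (Nat.dvd_one.1 h5)
      · obtain ⟨p, hp, h3, h4⟩ := Nat.Prime.not_coprime_iff_dvd.1 h
        have h5 : p ∈ Nat.primesLE v := by
          rw [← primeFactors_primorial, Nat.mem_primeFactors]
          exact ⟨hp, h4, (primorial_pos v).ne'⟩
        rw [prod_eq_zero h5, mul_zero]
        rw [if_pos]
        rw [ZMod.natCast_eq_zero_iff]
        exact h3
    have h3 : Fc.tv v (c + d) = ∏ p ∈ Nat.primesLE v, (if 2 < p then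
        1 - 1 / ((p : ℝ) - 1) * (if (c : ZMod p) + d = 0 then 1 else 0) else (1 : ℝ)) := by
      rw [primesLE_odp v hv, prod_insert (two_notMem_odp v), if_neg (by norm_num), one_mul]
      unfold Fc.tv
      refine prod_congr rfl fun p hp => ?_
      have hp2 : 2 < p := (mem_filter.1 hp).2.2
      rw [if_pos hp2]
      have h4 : (c : ZMod p) + d = 0 ↔ p ∣ c + d := by
        rw [← ZMod.natCast_eq_zero_iff]
        push_cast
        rfl
      simp only [h4]
    rw [h2, h3, mul_assoc, ← prod_mul_distrib]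
    rfl
  rw [sum_congr rfl fun c _ => h1 c, ← mul_sum]
  have h2 := Col.crt_prod (Nat.primesLE v) hS (fun p x => lf d p x)
  rw [hW] at h2
  rw [h2]
  have h3 : ∀ p ∈ Nat.primesLE v, ∑ x ∈ range p, lf d p (x : ZMod p) =
      ((p : ℝ) - 1) * (if 2 < p then 1 - 1 / ((p : ℝ) - 1) ^ 2 else 1) := by
    intro p hp
    refine lf_sum d p (hS p hp) fun h4 => ?_
    have h5 : p ∣ primorial v := by
      rw [← hW]
      exact dvd_prod_of_mem _ hp
    have h6 := Nat.dvd_gcd h4 h5
    rw [Nat.Coprime] at hd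
    rw [hd] at h6
    exact (hS p hp).one_lt.ne' (Nat.dvd_one.1 h6)
  rw [prod_congr rfl h3, prod_mul_distrib, ← totient_prod, ← mul_assoc,
    one_div_mul_cancel, one_mul, primesLE_odp v hv, prod_insert (two_notMem_odp v),
    if_neg (by norm_num), one_mul]
  · unfold twv
    refine prod_congr rfl fun p hp => ?_
    rw [if_pos (mem_filter.1 hp).2.2]
  · have := Nat.totient_pos.2 (primorial_pos v)
    exact_mod_cast this.ne'

theorem dl_sum (q : ℕ) (hq : 1 ≤ q) : ∑ c ∈ range q, dl q c = 1 := by
  classical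
  unfold dl
  rw [← sum_filter, sum_const, nsmul_eq_mul]
  have h1 : ((range q).filter (fun c => c.Coprime q)).card = q.totient := by
    rw [Nat.totient_eq_card_coprime]
    congr 1
    ext c
    rw [mem_filter, mem_filter, Nat.coprime_comm]
  rw [h1, mul_one_div, div_self]
  have := Nat.totient_pos.2 (show 0 < q by omega)
  exact_mod_cast this.ne'

/-- The double sum over the reduced classes. -/
theorem loc_sum2 (v : ℕ) (hv : 2 ≤ v) : ∑ c ∈ range (primorial v), ∑ d ∈ range (primorial v),
    dl (primorial v) c * dl (primorial v) d * Fc.tv v (c + d) = twv v := by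
  rw [sum_comm]
  have h1 : ∀ d ∈ range (primorial v), ∑ c ∈ range (primorial v),
      dl (primorial v) c * dl (primorial v) d * Fc.tv v (c + d) = dl (primorial v) d * twv v := by
    intro d _
    by_cases hd : d.Coprime (primorial v)
    · rw [← loc_sum v hv d hd, mul_sum]
      exact sum_congr rfl fun c _ => by ring
    · have h2 : dl (primorial v) d = 0 := by
        unfold dl
        rw [if_neg hd]
      rw [h2, zero_mul]
      exact sum_eq_zero fun c _ => by ring
  rw [sum_congr rfl h1, ← sum_mul, dl_sum _ (primorial_pos v), one_mul]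

theorem twv_lim : Tendsto twv atTop (𝓝 En.tw) := by
  have hpos : ∀ p : ℕ, 0 < (if p.Prime ∧ 2 < p then 1 - 1 / ((p : ℝ) - 1) ^ 2 else 1) := by
    intro p
    split_ifs with h
    · have h3 : (3 : ℝ) ≤ p := by exact_mod_cast h.2
      have : 1 / ((p : ℝ) - 1) ^ 2 ≤ 1 / 4 :=
        one_div_le_one_div_of_le (by norm_num) (by nlinarith)
      linarith
    · exact one_pos
  have hs : Summable fun p : ℕ => Real.log (if p.Prime ∧ 2 < p then 1 - 1 / ((p : ℝ) - 1) ^ 2 else 1) := by
    have hs : Summable fun n : ℕ => 8 * (1 / (n : ℝ) ^ 2) :=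
      (Real.summable_one_div_nat_pow.mpr (by norm_num)).mul_left 8
    refine Summable.of_norm_bounded hs fun p => ?_
    split_ifs with h
    · have h3 : (3 : ℝ) ≤ p := by exact_mod_cast h.2
      have hsm : 1 / ((p : ℝ) - 1) ^ 2 ≤ 1 / 4 :=
        one_div_le_one_div_of_le (by norm_num) (by nlinarith)
      obtain ⟨x, hx⟩ : ∃ x : ℝ, x = 1 / ((p : ℝ) - 1) ^ 2 := ⟨_, rfl⟩
      rw [← hx] at hsm ⊢
      have hx0 : 0 < x := by
        rw [hx]
        have : (0 : ℝ) < (p - 1) ^ 2 := by nlinarith
        positivity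
      have h1 : Real.log (1 - x) ≤ 0 := Real.log_nonpos (by linarith) (by linarith)
      have h2 : -(2 * x) ≤ Real.log (1 - x) := by
        have h4 := Real.one_sub_inv_le_log_of_pos (show 0 < 1 - x by linarith)
        have h5 : 1 - (1 - x)⁻¹ = -(x / (1 - x)) := by
          have : 1 - x ≠ 0 := by linarith
          field_simp
          ring
        have h6 : x / (1 - x) ≤ 2 * x := by
          rw [div_le_iff₀ (by linarith)]
          nlinarith
        linarith
      rw [Real.norm_eq_abs, abs_of_nonpos h1]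
      have h7 : x ≤ 4 * (1 / (p : ℝ) ^ 2) := by
        rw [hx, mul_one_div, div_le_div_iff₀ (by nlinarith) (by nlinarith)]
        nlinarith
      linarith
    · rw [Real.log_one, norm_zero]
      positivity
  have hm := Real.multipliable_of_summable_log hpos hs
  have h1 := hm.tendsto_prod_tprod_nat
  have h2 := h1.comp (tendsto_add_atTop_nat 1)
  refine h2.congr fun w => ?_
  simp only [Function.comp]
  unfold twv Fc.odp
  rw [prod_filter]

end Pool.Agent.Lib.MP_629a14_nt.Kp
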