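import Pool.Agent.Lib.MP_629a14_nt.Kp.MeanB

/-! The upper bound for the mean value of the Goldbach counts of two sets of primes with densities
in all reduced residue classes. -/

set_option autoImplicit false

namespace Pool.Agent.Lib.MP_629a14_nt.Kp

open Finset Filter Topology Pool.Agent.Lib.MP_629a14_nt Pool.Agent.Lib.MP_629a14_nt.Rob

open Classical in
/-- The primes of `A` up to `N`. -/
noncomputable def pA (A : Set ℕ) (N : ℕ) : Finset ℕ := (Icc 1 N).filter (fun p => p.Prime ∧ p ∈ A)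

open Classical in
/-- The primes of `A` in a cell and a residue class. -/
noncomputable def cl (A : Set ℕ) (W L N i c : ℕ) : ℝ :=
  (((pA A N).filter (fun p => p * L / (N + 1) = i ∧ p % W = c)).card : ℝ)

theorem cl_nonneg (A : Set ℕ) (W L N i c : ℕ) : 0 ≤ cl A W L N i c := by
  unfold cl
  positivity

theorem cell_lt {L N p : ℕ} (hL : 1 ≤ L) (hp : p ≤ N) : p * L / (N + 1) < L := by
  rw [Nat.div_lt_iff_lt_mul (by omega)]
  nlinarith

theorem fib (A : Set ℕ) (W L N : ℕ) (hW : 1 ≤ W) (hL : 1 ≤ L) (F : ℕ → ℕ → ℝ) :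
    ∑ p ∈ pA A N, F (p * L / (N + 1)) (p % W) =
      ∑ i ∈ range L, ∑ c ∈ range W, cl A W L N i c * F i c := by
  classical
  rw [← sum_product' (range L) (range W) (fun i c => cl A W L N i c * F i c)]
  rw [← sum_fiberwise_of_maps_to (s := pA A N) (t := range L ×ˢ range W)
    (g := fun p => (p * L / (N + 1), p % W)) (fun p hp => by
      rw [pA, mem_filter, mem_Icc] at hp
      rw [mem_product]
      exact ⟨mem_range.2 (cell_lt hL hp.1.2), mem_range.2 (Nat.mod_lt _ (by omega))⟩)]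
  refine sum_congr rfl fun x _ => ?_
  rw [sum_congr rfl (g := fun _ => F x.1 x.2) (fun p hp => by
    have h1 := (mem_filter.1 hp).2
    rw [← h1]), sum_const, nsmul_eq_mul]
  have h2 : (((pA A N).filter (fun p => (p * L / (N + 1), p % W) = x)).card : ℝ) =
      cl A W L N x.1 x.2 := by
    unfold cl
    congr 2
    ext p
    simp only [mem_filter, Prod.ext_iff]
  rw [h2]

/-- The end points of the cells. -/
def xc (L N i : ℕ) : ℕ := (i * (N + 1) - 1) / L

theorem le_xc {L N i p : ℕ} (hL : 1 ≤ L) (hp : 1 ≤ p) : p ≤ xc L N i ↔ p * L / (N + 1) < i := by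
  unfold xc
  rw [Nat.le_div_iff_mul_le (by omega), Nat.div_lt_iff_lt_mul (by omega)]
  have : 0 < p * L := Nat.mul_pos hp hL
  omega

theorem cl_eq (A : Set ℕ) {W L N i c : ℕ} (hL : 1 ≤ L) (hi : i < L) (hc : c < W) :
    cl A W L N i c + primesIn A W c (xc L N i) = primesIn A W c (xc L N (i + 1)) := by
  classical
  have hx : xc L N (i + 1) ≤ N := by
    unfold xc
    have h1 : ((i + 1) * (N + 1) - 1) / L < N + 1 := by
      rw [Nat.div_lt_iff_lt_mul (by omega)]
      have h2 : (i + 1) * (N + 1) ≤ (N + 1) * L := by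
        rw [mul_comm]
        exact Nat.mul_le_mul_left _ (by omega)
      have h3 : 0 < (i + 1) * (N + 1) := Nat.mul_pos (by omega) (by omega)
      omega
    omega
  rw [primesIn_eq, primesIn_eq]
  unfold cl
  rw [← Nat.cast_add, ← card_union_of_disjoint]
  · congr 2
    ext p
    rw [mem_union, mem_filter, pA, mem_filter, mem_filter, mem_filter, mem_Icc, mem_Icc, mem_Icc]
    unfold Nat.ModEq
    rw [Nat.mod_eq_of_lt hc]
    constructor
    · rintro (⟨⟨⟨h1, h2⟩, h3, h4⟩, h5, h6⟩ | ⟨⟨h1, h2⟩, h3, h4, h5⟩)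
      · exact ⟨⟨h1, (le_xc hL h1).2 (by omega)⟩, h3, h4, h6⟩
      · refine ⟨⟨h1, (le_xc hL h1).2 ?_⟩, h3, h4, h5⟩
        have := (le_xc hL h1).1 h2
        omega
    · rintro ⟨⟨h1, h2⟩, h3, h4, h5⟩
      have h6 := (le_xc hL h1).1 h2
      by_cases h7 : p * L / (N + 1) = i
      · exact Or.inl ⟨⟨⟨h1, h2.trans hx⟩, h3, h4⟩, h7, h5⟩
      · exact Or.inr ⟨⟨h1, (le_xc hL h1).2 (by omega)⟩, h3, h4, h5⟩
  · rw [disjoint_left]
    intro p hp hp'
    rw [mem_filter, pA, mem_filter, mem_Icc] at hp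
    rw [mem_filter, mem_Icc] at hp'
    have h1 := (le_xc hL hp'.1.1).1 hp'.1.2
    omega

theorem xc_le {L N i : ℕ} (hL : 1 ≤ L) (hi : i ≤ L) : xc L N i ≤ N := by
  unfold xc
  have h1 : (i * (N + 1) - 1) / L < N + 1 := by
    rw [Nat.div_lt_iff_lt_mul (by omega)]
    have h2 : i * (N + 1) ≤ (N + 1) * L := by
      rw [mul_comm]
      exact Nat.mul_le_mul_left _ (by omega)
    have h3 : 0 < (N + 1) * L := Nat.mul_pos (by omega) (by omega)
    omega
  omega

theorem xc_sub (L N i : ℕ) (hL : 1 ≤ L) :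
    (xc L N (i + 1) : ℝ) - xc L N i ≤ ((N : ℝ) + 1) / L + 1 := by
  have hL' : (0 : ℝ) < L := by exact_mod_cast hL
  have h1 : xc L N (i + 1) * L ≤ (i + 1) * (N + 1) - 1 := by
    unfold xc
    exact Nat.div_mul_le_self _ _
  have h2 : i * (N + 1) - 1 < L * (xc L N i + 1) := by
    unfold xc
    exact Nat.lt_mul_div_succ _ (by omega)
  have h3 : xc L N (i + 1) * L ≤ (i + 1) * (N + 1) := by omega
  have h4 : i * (N + 1) ≤ L * (xc L N i + 1) := by omega
  have h5 : (xc L N (i + 1) : ℝ) * L ≤ ((i : ℝ) + 1) * (N + 1) := by exact_mod_cast h3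
  have h6 : (i : ℝ) * (N + 1) ≤ L * (xc L N i + 1) := by exact_mod_cast h4
  have h7 : ((N : ℝ) + 1) / L + 1 = ((N : ℝ) + 1 + L) / L := by
    field_simp
  rw [h7, le_div_iff₀ hL']
  nlinarith

/-- The number of primes in a cell and a class. -/
theorem cl_le {A : Set ℕ} {α : ℝ} (hA : HasDensity A α) (W L : ℕ) (hW : 1 ≤ W) (hL : 1 ≤ L)
    (ε : ℝ) (hε : 0 < ε) : ∃ N₀ : ℕ, ∀ N : ℕ, N₀ ≤ N → ∀ i < L, ∀ c < W,
      Real.log N * cl A W L N i c ≤ (α * dl W c / L + ε) * N := by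
  obtain ⟨h0, h1⟩ := dens_mem hA
  obtain ⟨N₁, hN₁⟩ := unif_all hA W hW (ε / 4) (by positivity)
  obtain ⟨N₂, hN₂⟩ := exists_nat_ge (8 / ε)
  refine ⟨max N₁ N₂, fun N hN i hi c hc => ?_⟩
  have hL' : (1 : ℝ) ≤ L := by exact_mod_cast hL
  have hN2 : 8 ≤ ε * N := by
    have h2 : (8 : ℝ) / ε ≤ N := hN₂.trans (by exact_mod_cast (le_max_right _ _).trans hN)
    rw [div_le_iff₀ hε] at h2
    linarith
  have e1 := hN₁ N ((le_max_left _ _).trans hN) c hc (xc L N (i + 1)) (xc_le hL (by omega))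
  have e2 := hN₁ N ((le_max_left _ _).trans hN) c hc (xc L N i) (xc_le hL (by omega))
  have e3 := cl_eq A (N := N) hL hi hc
  have e4 := xc_sub L N i hL
  have hd0 := dl_nonneg W c
  have hd1 := dl_le_one W c hW
  have hk0 : 0 ≤ α * dl W c := mul_nonneg h0 hd0
  have hk1 : α * dl W c ≤ 1 := mul_le_one₀ h1 hd0 hd1
  obtain ⟨k, hk⟩ : ∃ k : ℝ, k = α * dl W c := ⟨_, rfl⟩
  rw [← hk] at e1 e2 hk0 hk1 ⊢
  have e5 : cl A W L N i c = primesIn A W c (xc L N (i + 1)) - primesIn A W c (xc L N i) := by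
    linarith
  rw [e5, mul_sub]
  have e6 := (abs_le.1 e1).2
  have e7 := (abs_le.1 e2).1
  have e8 : k * ((xc L N (i + 1) : ℝ) - xc L N i) ≤ k * (((N : ℝ) + 1) / L + 1) :=
    mul_le_mul_of_nonneg_left e4 hk0
  have e9 : k * (((N : ℝ) + 1) / L + 1) ≤ k / L * N + 2 := by
    have e10 : k * (((N : ℝ) + 1) / L + 1) = k / L * N + k / L + k := by
      field_simp
    have e11 : k / L ≤ 1 := by
      rw [div_le_one (by linarith)]
      linarith
    linarith
  nlinarith

/-- The harmonic sum over the pairs of cells. -/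
theorem harm (L : ℕ) (hL : 1 ≤ L) : ∑ i ∈ range L, ∑ j ∈ range L,
    (if i + j < L then (L : ℝ) / ((i + j : ℕ) : ℝ) else 0) ≤
      (L : ℝ) ^ 2 * (1 + (1 + Real.log L) / L) := by
  classical
  have hL' : (1 : ℝ) ≤ L := by exact_mod_cast hL
  have h1 : ∀ i ∈ range L, ∑ j ∈ range L,
      (if i + j < L then (L : ℝ) / ((i + j : ℕ) : ℝ) else 0) =
      ∑ s ∈ range L, (if i ≤ s then (L : ℝ) / (s : ℝ) else 0) := by
    intro i _
    rw [← sum_filter, ← sum_filter]
    refine sum_bij (fun j _ => i + j) ?_ ?_ ?_ ?_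
    · intro j hj
      rw [mem_filter, mem_range] at hj ⊢
      omega
    · intro j _ j' _ h
      omega
    · intro s hs
      rw [mem_filter, mem_range] at hs
      refine ⟨s - i, ?_, by omega⟩
      rw [mem_filter, mem_range]
      omega
    · intro j _
      rfl
  rw [sum_congr rfl h1, sum_comm]
  have h2 : ∀ s ∈ range L, ∑ i ∈ range L, (if i ≤ s then (L : ℝ) / (s : ℝ) else 0) ≤
      L + (L : ℝ) / s := by
    intro s hs
    rw [mem_range] at hs
    rw [← sum_filter, sum_const, nsmul_eq_mul]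
    have h3 : ((range L).filter (fun i => i ≤ s)).card = s + 1 := by
      have : (range L).filter (fun i => i ≤ s) = range (s + 1) := by
        ext i
        rw [mem_filter, mem_range, mem_range]
        omega
      rw [this, card_range]
    rw [h3]
    rcases Nat.eq_zero_or_pos s with h0 | h0
    · rw [h0]
      simp
    · have h4 : (0 : ℝ) < s := by exact_mod_cast h0
      push_cast
      have : ((s : ℝ) + 1) * ((L : ℝ) / s) = L + (L : ℝ) / s := by
        field_simp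
      rw [this]
  refine (sum_le_sum h2).trans ?_
  rw [sum_add_distrib, sum_const, card_range, nsmul_eq_mul]
  have h5 : ∑ s ∈ range L, (L : ℝ) / (s : ℝ) ≤ L * (1 + Real.log L) := by
    have h6 : ∑ s ∈ range L, (L : ℝ) / (s : ℝ) ≤ L * ∑ s ∈ range L, (((s : ℝ) + 1))⁻¹ := by
      obtain ⟨m, rfl⟩ : ∃ m, L = m + 1 := ⟨L - 1, by omega⟩
      rw [sum_range_succ', mul_sum]
      simp only [Nat.cast_zero, div_zero, add_zero]
      rw [sum_range_succ (fun s : ℕ => ((m + 1 : ℕ) : ℝ) * ((s : ℝ) + 1)⁻¹)]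
      have h7 : (0 : ℝ) ≤ ((m + 1 : ℕ) : ℝ) * ((m : ℝ) + 1)⁻¹ := by positivity
      have h8 : ∑ k ∈ range m, ((m + 1 : ℕ) : ℝ) / ((k + 1 : ℕ) : ℝ) =
          ∑ k ∈ range m, ((m + 1 : ℕ) : ℝ) * ((k : ℝ) + 1)⁻¹ := by
        refine sum_congr rfl fun k _ => ?_
        rw [div_eq_mul_inv]
        push_cast
        rfl
      linarith
    have h9 := harmonic_le_one_add_log L
    have h10 : ((harmonic L : ℚ) : ℝ) = ∑ s ∈ range L, (((s : ℝ) + 1))⁻¹ := by
      unfold harmonic
      push_cast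
      rfl
    rw [h10] at h9
    exact h6.trans (mul_le_mul_of_nonneg_left h9 (by linarith))
  have h6 : (L : ℝ) ^ 2 * (1 + (1 + Real.log L) / L) = L * L + L * (1 + Real.log L) := by
    field_simp
  rw [h6]
  linarith

end Pool.Agent.Lib.MP_629a14_nt.Kp
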