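import Pool.Agent.Lib.MP_629a14_nt.Kp.MeanC

/-! The upper bound for the mean value of the Goldbach counts. -/

set_option autoImplicit false

namespace Pool.Agent.Lib.MP_629a14_nt.Kp

open Finset Filter Topology Pool.Agent.Lib.MP_629a14_nt Pool.Agent.Lib.MP_629a14_nt.Rob

/-- `rho` in terms of `tf`. -/
theorem rho_eq (A B : Set ℕ) (n : ℕ) :
    rho A B n = (Sm.repsIn A B n : ℝ) * Fc.tf n * (Real.log n) ^ 2 / (2 * En.tw * n) := by
  have h1 := Fc.sing_tf n
  have h2 := Fc.tf_pos n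
  have h3 := En.tw_pos
  have h4 : En.sing n = 2 * En.tw / Fc.tf n := by
    rw [eq_div_iff h2.ne']
    exact h1
  unfold rho En.HL
  rw [h4]
  rcases eq_or_ne (n : ℝ) 0 with h5 | h5
  · rw [h5]
    simp
  · rcases eq_or_ne (Real.log n) 0 with h6 | h6
    · rw [h6]
      simp
    · field_simp

theorem rho_nonneg (A B : Set ℕ) (n : ℕ) : 0 ≤ rho A B n := by
  rw [rho_eq]
  have := Fc.tf_pos n
  have := En.tw_pos
  positivity

open Classical in
theorem repsIn_eq (A B : Set ℕ) (n : ℕ) : Sm.repsIn A B n =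
    ((range (n + 1)).filter (fun p => p.Prime ∧ (n - p).Prime ∧ p ∈ A ∧ n - p ∈ B)).card := by
  unfold Sm.repsIn
  congr

/-- The counts are bounded (upper bound sieve). -/
theorem rho_le (A B : Set ℕ) (n : ℕ) (hn : 1 ≤ n) : rho A B n ≤ 18480 / En.tw := by
  classical
  have h1 := Fc.RR_le (A := (range (n + 1)).filter (fun p => p.Prime))
    (B := (range (n + 1)).filter (fun p => p.Prime)) (fun p hp => (mem_filter.1 hp).2)
    (fun p hp => (mem_filter.1 hp).2) hn
  refine le_trans ?_ h1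
  rw [Fc.RR_eq, rho_eq]
  have h2 := Fc.tf_pos n
  have h3 := En.tw_pos
  have h4 : (Sm.repsIn A B n : ℝ) ≤ (repAB ((range (n + 1)).filter (fun p => p.Prime))
      ((range (n + 1)).filter (fun p => p.Prime)) n : ℝ) := by
    rw [repsIn_eq]
    unfold repAB
    norm_cast
    refine card_le_card_of_injOn (fun p => (p, n - p)) ?_ ?_
    · intro p hp
      simp only [coe_filter, mem_range, Set.mem_ofPred_eq] at hp
      simp only [coe_filter, mem_product, mem_filter, mem_range, Set.mem_ofPred_eq]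
      exact ⟨⟨⟨hp.1, hp.2.1⟩, by omega, hp.2.2.1⟩, by omega⟩
    · intro p _ p' _ h
      exact (Prod.ext_iff.1 h).1
  gcongr

theorem tf_le_tv (v n : ℕ) (hv : 2 ≤ v) (hn : 1 ≤ n) : Fc.tf n ≤ Fc.tv v n := by
  rw [Fc.tf_eq v n hv hn]
  refine mul_le_of_le_one_right (Fc.tv_nonneg v n) ?_
  refine prod_le_one (fun p hp => ?_) fun p hp => ?_
  · have := (mem_filter.1 hp).2
    exact (Fc.fac_mem (by omega)).1.le
  · have := (mem_filter.1 hp).2
    exact (Fc.fac_mem (by omega)).2

/-- `tv v` depends only on the residue modulo the primorial. -/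
theorem tv_congr (v m n : ℕ) (h : m ≡ n [MOD primorial v]) : Fc.tv v m = Fc.tv v n := by
  unfold Fc.tv
  refine prod_congr rfl fun p hp => ?_
  have h1 : p ∣ primorial v := by
    rw [Fc.odp, mem_filter, mem_range] at hp
    rw [primorial_eq_prod_primesLE]
    exact dvd_prod_of_mem _ (Nat.mem_primesLE.2 ⟨by omega, hp.2.1⟩)
  have h2 : p ∣ m ↔ p ∣ n := (h.of_dvd h1).dvd_iff dvd_rfl
  simp only [h2]

/-- The weight of a pair of primes. -/
noncomputable def GG (v L N p q : ℕ) : ℝ :=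
  if p * L / (N + 1) + q * L / (N + 1) < L then
    (L : ℝ) / ((p * L / (N + 1) + q * L / (N + 1) : ℕ) : ℝ) *
      Fc.tv v (p % primorial v + q % primorial v) else 0

theorem GG_nonneg (v L N p q : ℕ) : 0 ≤ GG v L N p q := by
  unfold GG
  split_ifs
  · exact mul_nonneg (by positivity) (Fc.tv_nonneg _ _)
  · exact le_rfl

/-- The bound for one `n` outside a short initial interval. -/
theorem rho_le_pairs (A B : Set ℕ) (v L N n : ℕ) (hv : 2 ≤ v) (hL : 1 ≤ L) (hn1 : 1 ≤ n)
    (hnN : n ≤ N) (hbig : 2 * (N + 1) ≤ n * L) : rho A B n ≤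
      (Real.log N) ^ 2 / (2 * En.tw * N) * ∑ x ∈ (pA A N ×ˢ pA B N).filter (fun x => x.1 + x.2 = n),
        GG v L N x.1 x.2 := by
  classical
  have htw := En.tw_pos
  have hN : (0 : ℝ) < N := by exact_mod_cast (by omega : 0 < N)
  have hn0 : (0 : ℝ) < n := by exact_mod_cast hn1
  have hlog : Real.log n ≤ Real.log N := Real.log_le_log hn0 (by exact_mod_cast hnN)
  have hlog0 : 0 ≤ Real.log n := Real.log_natCast_nonneg n
  have h1 : (Sm.repsIn A B n : ℝ) * (Fc.tv v n * N / n) ≤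
      ∑ x ∈ (pA A N ×ˢ pA B N).filter (fun x => x.1 + x.2 = n), GG v L N x.1 x.2 := by
    have h2 : Sm.repsIn A B n = ((pA A N ×ˢ pA B N).filter (fun x => x.1 + x.2 = n)).card := by
      rw [repsIn_eq]
      refine card_bij (fun p _ => (p, n - p)) ?_ ?_ ?_
      · intro p hp
        rw [mem_filter, mem_range] at hp
        rw [mem_filter, mem_product, pA, pA, mem_filter, mem_filter, mem_Icc, mem_Icc]
        have := hp.2.1.one_le
        have := hp.2.2.1.one_le
        exact ⟨⟨⟨⟨hp.2.1.one_le, by omega⟩, hp.2.1, hp.2.2.2.1⟩,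
          ⟨hp.2.2.1.one_le, by omega⟩, hp.2.2.1, hp.2.2.2.2⟩, by simp only; omega⟩
      · intro p _ p' _ h
        exact (Prod.ext_iff.1 h).1
      · rintro ⟨p, q⟩ hx
        rw [mem_filter, mem_product, pA, pA, mem_filter, mem_filter, mem_Icc, mem_Icc] at hx
        simp only at hx
        obtain ⟨⟨⟨⟨h1, h2⟩, h3, h4⟩, ⟨h5, h6⟩, h7, h8⟩, h9⟩ := hx
        have h10 : n - p = q := by omega
        refine ⟨p, ?_, by rw [h10]⟩
        rw [mem_filter, mem_range, h10]
        exact ⟨by omega, h3, h7, h4, h8⟩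
    rw [h2, ← nsmul_eq_mul, ← sum_const]
    refine sum_le_sum fun x hx => ?_
    rw [mem_filter, mem_product, pA, pA, mem_filter, mem_filter, mem_Icc, mem_Icc] at hx
    obtain ⟨⟨⟨⟨hp1, hp2⟩, hp3, hp4⟩, ⟨hq1, hq2⟩, hq3, hq4⟩, hsum⟩ := hx
    obtain ⟨i, hi⟩ : ∃ i, i = x.1 * L / (N + 1) := ⟨_, rfl⟩
    obtain ⟨j, hj⟩ : ∃ j, j = x.2 * L / (N + 1) := ⟨_, rfl⟩
    have e1 : i * (N + 1) ≤ x.1 * L := by rw [hi]; exact Nat.div_mul_le_self _ _
    have e2 : j * (N + 1) ≤ x.2 * L := by rw [hj]; exact Nat.div_mul_le_self _ _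
    have e3 : x.1 * L < (N + 1) * (i + 1) := by rw [hi]; exact Nat.lt_mul_div_succ _ (by omega)
    have e4 : x.2 * L < (N + 1) * (j + 1) := by rw [hj]; exact Nat.lt_mul_div_succ _ (by omega)
    have e5 : (i + j) * (N + 1) ≤ n * L := by
      rw [← hsum]
      nlinarith
    have e6 : 1 ≤ i + j := by
      by_contra h
      have hi0 : i = 0 := by omega
      have hj0 : j = 0 := by omega
      rw [hi0] at e3
      rw [hj0] at e4
      rw [← hsum] at hbig
      nlinarith
    have e7 : i + j < L := by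
      by_contra h
      have h1 : L * (N + 1) ≤ (i + j) * (N + 1) := Nat.mul_le_mul_right _ (by omega)
      have h2 : n * L < (N + 1) * L := Nat.mul_lt_mul_of_pos_right (by omega) (by omega)
      nlinarith
    unfold GG
    rw [← hi, ← hj, if_pos e7]
    have e8 : Fc.tv v (x.1 % primorial v + x.2 % primorial v) = Fc.tv v n := by
      refine tv_congr v _ _ ?_
      rw [← hsum]
      exact Nat.ModEq.add (Nat.mod_modEq _ _) (Nat.mod_modEq _ _)
    rw [e8]
    have e9 : (N : ℝ) / n ≤ (L : ℝ) / ((i + j : ℕ) : ℝ) := by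
      have h3 : (0 : ℝ) < ((i + j : ℕ) : ℝ) := by exact_mod_cast e6
      rw [div_le_div_iff₀ hn0 h3]
      have h4 : N * (i + j) ≤ L * n := by nlinarith
      exact_mod_cast h4
    have e10 := Fc.tv_nonneg v n
    calc Fc.tv v n * N / n = (N : ℝ) / n * Fc.tv v n := by ring
      _ ≤ _ := mul_le_mul_of_nonneg_right e9 e10
  have h3 := tf_le_tv v n hv hn1
  have h4 := Fc.tf_pos n
  have h5 : 0 ≤ (Sm.repsIn A B n : ℝ) := by positivity
  have h6 := Fc.tv_nonneg v n
  rw [rho_eq]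
  calc (Sm.repsIn A B n : ℝ) * Fc.tf n * (Real.log n) ^ 2 / (2 * En.tw * n)
      ≤ (Sm.repsIn A B n : ℝ) * Fc.tv v n * (Real.log N) ^ 2 / (2 * En.tw * n) := by gcongr
    _ = (Real.log N) ^ 2 / (2 * En.tw * N) * ((Sm.repsIn A B n : ℝ) * (Fc.tv v n * N / n)) := by
        field_simp
    _ ≤ _ := mul_le_mul_of_nonneg_left h1 (by positivity)

/-- The sum over all pairs. -/
theorem pairs_sum (A B : Set ℕ) (v L N : ℕ) (hL : 1 ≤ L) :
    ∑ n ∈ Icc 1 N, ∑ x ∈ (pA A N ×ˢ pA B N).filter (fun x => x.1 + x.2 = n), GG v L N x.1 x.2 ≤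
      ∑ i ∈ range L, ∑ j ∈ range L, (if i + j < L then (L : ℝ) / ((i + j : ℕ) : ℝ) else 0) *
        ∑ c ∈ range (primorial v), ∑ d ∈ range (primorial v),
          cl A (primorial v) L N i c * cl B (primorial v) L N j d * Fc.tv v (c + d) := by
  classical
  have h1 : ∑ n ∈ Icc 1 N, ∑ x ∈ (pA A N ×ˢ pA B N).filter (fun x => x.1 + x.2 = n),
      GG v L N x.1 x.2 ≤ ∑ x ∈ pA A N ×ˢ pA B N, GG v L N x.1 x.2 := by
    rw [← sum_biUnion]
    · exact sum_le_sum_of_subset_of_nonneg (biUnion_subset.2 fun n _ => filter_subset _ _)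
        fun x _ _ => GG_nonneg v L N x.1 x.2
    · intro m _ n _ hmn
      rw [Function.onFun, disjoint_left]
      intro x hx hx'
      exact hmn ((mem_filter.1 hx).2.symm.trans (mem_filter.1 hx').2)
  refine h1.trans (le_of_eq ?_)
  rw [sum_product]
  have h2 : ∀ p, ∑ q ∈ pA B N, GG v L N p q = ∑ j ∈ range L, ∑ d ∈ range (primorial v),
      cl B (primorial v) L N j d * (if p * L / (N + 1) + j < L then
        (L : ℝ) / ((p * L / (N + 1) + j : ℕ) : ℝ) * Fc.tv v (p % primorial v + d) else 0) := by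
    intro p
    exact fib B (primorial v) L N (primorial_pos v) hL (fun j d => if p * L / (N + 1) + j < L then
        (L : ℝ) / ((p * L / (N + 1) + j : ℕ) : ℝ) * Fc.tv v (p % primorial v + d) else 0)
  rw [sum_congr rfl fun p _ => h2 p]
  have h3 := fib A (primorial v) L N (primorial_pos v) hL (fun i c => ∑ j ∈ range L,
    ∑ d ∈ range (primorial v), cl B (primorial v) L N j d * (if i + j < L then
        (L : ℝ) / ((i + j : ℕ) : ℝ) * Fc.tv v (c + d) else 0))
  rw [h3]
  refine sum_congr rfl fun i _ => ?_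
  have h4 : ∀ c, cl A (primorial v) L N i c * ∑ j ∈ range L, ∑ d ∈ range (primorial v),
      cl B (primorial v) L N j d * (if i + j < L then
        (L : ℝ) / ((i + j : ℕ) : ℝ) * Fc.tv v (c + d) else 0) =
      ∑ j ∈ range L, (if i + j < L then (L : ℝ) / ((i + j : ℕ) : ℝ) else 0) *
        ∑ d ∈ range (primorial v),
          cl A (primorial v) L N i c * cl B (primorial v) L N j d * Fc.tv v (c + d) := by
    intro c
    rw [mul_sum]
    refine sum_congr rfl fun j _ => ?_
    rw [mul_sum, mul_sum]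
    refine sum_congr rfl fun d _ => ?_
    split_ifs <;> ring
  rw [sum_congr rfl fun c _ => h4 c, sum_comm]
  refine sum_congr rfl fun j _ => ?_
  rw [mul_sum]

/-- The sum over the residue classes. -/
theorem class_sum {α β ε : ℝ} (h0 : 0 ≤ α) (h1 : α ≤ 1) (h0' : 0 ≤ β) (h1' : β ≤ 1) (hε : 0 < ε)
    (hε1 : ε ≤ 1) (v L : ℕ) (hv : 2 ≤ v) (hL : 1 ≤ L) :
    ∑ c ∈ range (primorial v), ∑ d ∈ range (primorial v),
      (α * dl (primorial v) c / L + ε) * (β * dl (primorial v) d / L + ε) * Fc.tv v (c + d) ≤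
      α * β * twv v / (L : ℝ) ^ 2 + 3 * ε * (primorial v : ℝ) ^ 2 := by
  have hL' : (1 : ℝ) ≤ L := by exact_mod_cast hL
  have key : ∀ c d : ℕ, (α * dl (primorial v) c / L + ε) * (β * dl (primorial v) d / L + ε) *
      Fc.tv v (c + d) ≤ α * β / (L : ℝ) ^ 2 *
        (dl (primorial v) c * dl (primorial v) d * Fc.tv v (c + d)) + 3 * ε := by
    intro c d
    have a0 := dl_nonneg (primorial v) c
    have a1 := dl_le_one (primorial v) c (primorial_pos v)
    have b0 := dl_nonneg (primorial v) d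
    have b1 := dl_le_one (primorial v) d (primorial_pos v)
    have t0 := Fc.tv_nonneg v (c + d)
    have t1 := Fc.tv_le_one v (c + d)
    obtain ⟨x, hx⟩ : ∃ x : ℝ, x = α * dl (primorial v) c / L := ⟨_, rfl⟩
    obtain ⟨y, hy⟩ : ∃ y : ℝ, y = β * dl (primorial v) d / L := ⟨_, rfl⟩
    have x0 : 0 ≤ x := by rw [hx]; positivity
    have y0 : 0 ≤ y := by rw [hy]; positivity
    have x1 : x ≤ 1 := by
      rw [hx, div_le_one (by linarith)]
      exact (mul_le_one₀ h1 a0 a1).trans hL'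
    have y1 : y ≤ 1 := by
      rw [hy, div_le_one (by linarith)]
      exact (mul_le_one₀ h1' b0 b1).trans hL'
    have e1 : α * β / (L : ℝ) ^ 2 * (dl (primorial v) c * dl (primorial v) d * Fc.tv v (c + d)) =
        x * y * Fc.tv v (c + d) := by
      rw [hx, hy]
      field_simp
    rw [e1, ← hx, ← hy]
    have e2 : ε * (x + y) + ε ^ 2 ≤ 3 * ε := by nlinarith
    have e3 : 0 ≤ ε * (x + y) + ε ^ 2 := by positivity
    have e4 : (ε * (x + y) + ε ^ 2) * Fc.tv v (c + d) ≤ 3 * ε :=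
      (mul_le_of_le_one_right e3 t1).trans e2
    nlinarith
  refine (sum_le_sum fun c _ => sum_le_sum fun d _ => key c d).trans (le_of_eq ?_)
  have h2 := loc_sum2 v hv
  simp only [sum_add_distrib, ← mul_sum, sum_const, card_range, nsmul_eq_mul]
  rw [h2]
  ring

end Pool.Agent.Lib.MP_629a14_nt.Kp
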