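import Pool.Agent.Lib.MP_629a14_nt.Kp.PfDefs
import Pool.Agent.Lib.MP_629a14_nt.Kp.Ext2

/-! Comparison of the means of convex functions, for laws given by a continuous function on
`[0, 1/2]`. -/

set_option autoImplicit false

namespace Pool.Agent.Lib.MP_629a14_nt.Kp

open Finset Filter Topology Pool.Agent.Lib.MP_629a14_nt Pool.Agent.Lib.MP_629a14_nt.Rob

/-- The mean of `φ` with respect to the law of `ψ` on `[0, 1/2]`. -/
noncomputable def lw (ψ φ : ℝ → ℝ) : ℝ := 2 * ∫ x in (0 : ℝ)..(1 / 2), φ (ψ x)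

theorem rearr_eq (W c : ℕ) (al be : ℕ → ℝ) (φ : ℝ → ℝ) :
    rearr W c al be φ = lw (fun x => prs W c al be (fun _ a b => trap a b x)) φ := rfl

/-! ### The functional `lw` -/

section lw

variable {ψ : ℝ → ℝ} (hψ : ContinuousOn ψ (Set.Icc 0 (1 / 2)))

include hψ in
theorem comp_intble {φ : ℝ → ℝ} (hφ : Continuous φ) :
    IntervalIntegrable (fun x => φ (ψ x)) MeasureTheory.volume 0 (1 / 2) :=
  (hφ.comp_continuousOn hψ).intervalIntegrable_of_Icc (by norm_num)

include hψ in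
theorem lw_add {φ χ : ℝ → ℝ} (hφ : Continuous φ) (hχ : Continuous χ) :
    lw ψ (fun x => φ x + χ x) = lw ψ φ + lw ψ χ := by
  unfold lw
  rw [intervalIntegral.integral_add (comp_intble hψ hφ) (comp_intble hψ hχ)]
  ring

theorem lw_mul (ψ φ : ℝ → ℝ) (c : ℝ) : lw ψ (fun x => c * φ x) = c * lw ψ φ := by
  unfold lw
  rw [intervalIntegral.integral_const_mul]
  ring

theorem lw_const (ψ : ℝ → ℝ) (c : ℝ) : lw ψ (fun _ => c) = c := by
  unfold lw
  rw [intervalIntegral.integral_const, smul_eq_mul]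
  ring

include hψ in
theorem lw_sum {ι : Type*} (s : Finset ι) (φ : ι → ℝ → ℝ) (hφ : ∀ i, Continuous (φ i)) :
    lw ψ (fun x => ∑ i ∈ s, φ i x) = ∑ i ∈ s, lw ψ (φ i) := by
  classical
  induction s using Finset.induction_on with
  | empty => simp [lw]
  | insert a s ha ih =>
    simp only [sum_insert ha]
    rw [lw_add hψ (hφ a) (continuous_finsetSum _ fun i _ => hφ i), ih]

include hψ in
theorem lw_mono {φ χ : ℝ → ℝ} (hφ : Continuous φ) (hχ : Continuous χ)
    (h : ∀ x, 0 ≤ x → x ≤ 1 / 2 → φ (ψ x) ≤ χ (ψ x)) : lw ψ φ ≤ lw ψ χ := by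
  unfold lw
  refine mul_le_mul_of_nonneg_left ?_ (by norm_num)
  exact intervalIntegral.integral_mono_on (by norm_num) (comp_intble hψ hφ) (comp_intble hψ hχ)
    fun x hx => h x hx.1 hx.2

include hψ in
theorem lw_comb {D : ℝ} (hD : ∀ x, 0 ≤ x → x ≤ 1 / 2 → ψ x ≤ D)
    (a s : ℝ) (n : ℕ) (c t : ℕ → ℝ) :
    lw ψ (fun x => a + s * min x D - ∑ k ∈ range n, c k * min x (t k)) =
      a + s * lw ψ (fun x => x) - ∑ k ∈ range n, c k * lw ψ (fun x => min x (t k)) := by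
  have h1 : (fun x : ℝ => a + s * min x D - ∑ k ∈ range n, c k * min x (t k)) =
      fun x => (a + s * min x D) + (-1) * ∑ k ∈ range n, c k * min x (t k) := by
    funext x
    ring
  have h2 : Continuous (fun x : ℝ => ∑ k ∈ range n, c k * min x (t k)) :=
    continuous_finsetSum _ fun k _ => by fun_prop
  have h4 : lw ψ (fun x => min x D) = lw ψ (fun x => x) := by
    unfold lw
    congr 1
    refine intervalIntegral.integral_congr fun x hx => ?_
    rw [Set.uIcc_of_le (by norm_num)] at hx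
    exact min_eq_left (hD x hx.1 hx.2)
  rw [h1, lw_add hψ (by fun_prop) (by fun_prop), lw_mul, lw_add hψ (by fun_prop)
    (by fun_prop), lw_const, lw_mul, h4, lw_sum hψ _ _ (fun k => by fun_prop)]
  have h3 : ∀ k ∈ range n, lw ψ (fun x => c k * min x (t k)) =
      c k * lw ψ (fun x => min x (t k)) := fun k _ => lw_mul _ _ _
  rw [sum_congr rfl h3]
  ring

/-- Dominated convergence. -/
theorem lw_tendsto {F : ℕ → ℝ → ℝ} {φ : ℝ → ℝ} {B : ℝ}
    (hm : ∀ n, MeasureTheory.AEStronglyMeasurable (fun x => F n (ψ x))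
      (MeasureTheory.volume.restrict (Set.Ioc 0 (1 / 2))))
    (hb : ∀ n x, 0 ≤ x → x ≤ 1 / 2 → |F n (ψ x)| ≤ B)
    (hl : ∀ x, 0 ≤ x → x ≤ 1 / 2 → Tendsto (fun n => F n (ψ x)) atTop (𝓝 (φ (ψ x)))) :
    Tendsto (fun n => lw ψ (F n)) atTop (𝓝 (lw ψ φ)) := by
  unfold lw
  refine Tendsto.const_mul _ ?_
  have hI : Set.uIoc (0 : ℝ) (1 / 2) = Set.Ioc 0 (1 / 2) := Set.uIoc_of_le (by norm_num)
  refine intervalIntegral.tendsto_integral_filter_of_dominated_convergence (fun _ => B) ?_ ?_ ?_ ?_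
  · refine Eventually.of_forall fun n => ?_
    rw [hI]
    exact hm n
  · refine Eventually.of_forall fun n => ?_
    rw [hI]
    refine Eventually.of_forall fun x hx => ?_
    rw [Real.norm_eq_abs]
    exact hb n x hx.1.le hx.2
  · exact intervalIntegrable_const
  · rw [hI]
    exact Eventually.of_forall fun x hx => hl x hx.1.le hx.2

end lw

/-! ### The averages `avgc` -/

theorem avgc_mono (W c N : ℕ) {f g : ℕ → ℝ} (h : ∀ n, f n ≤ g n) :
    avgc W c N f ≤ avgc W c N g := by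
  unfold avgc
  exact mul_le_mul_of_nonneg_left (sum_le_sum fun n _ => h n) (by positivity)

theorem avgc_add (W c N : ℕ) (f g : ℕ → ℝ) :
    avgc W c N (fun n => f n + g n) = avgc W c N f + avgc W c N g := by
  unfold avgc
  rw [sum_add_distrib, mul_add]

theorem avgc_sub (W c N : ℕ) (f g : ℕ → ℝ) :
    avgc W c N (fun n => f n - g n) = avgc W c N f - avgc W c N g := by
  unfold avgc
  rw [sum_sub_distrib, mul_sub]

theorem avgc_mul (W c N : ℕ) (a : ℝ) (f : ℕ → ℝ) :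
    avgc W c N (fun n => a * f n) = a * avgc W c N f := by
  unfold avgc
  rw [← mul_sum]
  ring

theorem avgc_sum {ι : Type*} (W c N : ℕ) (s : Finset ι) (f : ι → ℕ → ℝ) :
    avgc W c N (fun n => ∑ i ∈ s, f i n) = ∑ i ∈ s, avgc W c N (f i) := by
  unfold avgc
  rw [sum_comm, mul_sum]

theorem avgc_one {W : ℕ} (hW : 1 ≤ W) (c N : ℕ) (hN : 1 ≤ N) :
    |avgc W c N (fun _ => 1) - 1| ≤ W / N := by
  have hNr : (0 : ℝ) < N := by exact_mod_cast hN
  have hWr : (0 : ℝ) < W := by exact_mod_cast hW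
  have hcard : |(((Icc 1 N).filter (fun n => n ≡ c [MOD W])).card : ℝ) - N / W| ≤ 1 := by
    have e : (Icc 1 N).filter (fun n => n ≡ c [MOD W]) =
        (Ioc 0 N).filter (fun n => n ≡ c [MOD W]) := by
      congr 1
    have h := Nat.Ioc_filter_modEq_card 0 N (r := W) (by omega) c
    rw [← e] at h
    have h1 : (((Icc 1 N).filter (fun n => n ≡ c [MOD W])).card : ℤ) =
        ⌊((N : ℚ) - c) / W⌋ - ⌊((0 : ℚ) - c) / W⌋ := by
      rw [h]
      push_cast
      rw [max_eq_left]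
      rw [sub_nonneg]
      refine Int.floor_le_floor ?_
      gcongr
      simp
    have h2 := Int.floor_le (((N : ℚ) - c) / W)
    have h3 := Int.lt_floor_add_one (((N : ℚ) - c) / W)
    have h4 := Int.floor_le (((0 : ℚ) - c) / W)
    have h5 := Int.lt_floor_add_one (((0 : ℚ) - c) / W)
    have h6 : ((N : ℚ) - c) / W - ((0 : ℚ) - c) / W = N / W := by ring
    have h7 : (((Icc 1 N).filter (fun n => n ≡ c [MOD W])).card : ℚ) =
        (⌊((N : ℚ) - c) / W⌋ : ℚ) - (⌊((0 : ℚ) - c) / W⌋ : ℚ) := by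
      exact_mod_cast h1
    have h8 : |(((Icc 1 N).filter (fun n => n ≡ c [MOD W])).card : ℚ) - N / W| ≤ 1 := by
      rw [h7, abs_le]
      constructor <;> linarith
    have h9 : ((|(((Icc 1 N).filter (fun n => n ≡ c [MOD W])).card : ℚ) - N / W| : ℚ) : ℝ) ≤
        ((1 : ℚ) : ℝ) := Rat.cast_le.2 h8
    push_cast at h9
    exact h9
  unfold avgc
  rw [sum_const, nsmul_eq_mul, mul_one]
  have h3 : (W : ℝ) / N * (((Icc 1 N).filter (fun n => n ≡ c [MOD W])).card : ℝ) - 1 =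
      (W / N) * ((((Icc 1 N).filter (fun n => n ≡ c [MOD W])).card : ℝ) - N / W) := by
    field_simp
  rw [h3, abs_mul, abs_of_pos (by positivity : (0 : ℝ) < (W : ℝ) / N)]
  calc (W : ℝ) / N * |(((Icc 1 N).filter (fun n => n ≡ c [MOD W])).card : ℝ) - N / W|
      ≤ W / N * 1 := mul_le_mul_of_nonneg_left hcard (by positivity)
    _ = W / N := mul_one _

theorem avgc_one_ev {W : ℕ} (hW : 1 ≤ W) (c : ℕ) (η : ℝ) (hη : 0 < η) :
    ∀ᶠ N : ℕ in atTop, |avgc W c N (fun _ => 1) - 1| ≤ η := by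
  obtain ⟨N₀, hN₀⟩ := exists_nat_gt ((W : ℝ) / η)
  filter_upwards [eventually_ge_atTop (max N₀ 1)] with N hN
  have hN1 : 1 ≤ N := le_trans (le_max_right _ _) hN
  have hNr : (0 : ℝ) < N := by exact_mod_cast hN1
  refine (avgc_one hW c N hN1).trans ?_
  rw [div_le_iff₀ hNr]
  rw [div_lt_iff₀ hη] at hN₀
  have : (N₀ : ℝ) ≤ N := by exact_mod_cast (le_trans (le_max_left _ _) hN)
  nlinarith

theorem avgc_comb (W cl N : ℕ) (ρ : ℕ → ℝ) (a s D : ℝ) (n : ℕ) (c t : ℕ → ℝ) :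
    avgc W cl N (fun m => a + s * min (ρ m) D - ∑ k ∈ range n, c k * min (ρ m) (t k)) =
      a * avgc W cl N (fun _ => 1) + s * avgc W cl N (fun m => min (ρ m) D) -
        ∑ k ∈ range n, c k * avgc W cl N (fun m => min (ρ m) (t k)) := by
  rw [avgc_sub, avgc_add, avgc_mul, avgc_sum]
  congr 1
  · congr 1
    rw [← avgc_mul]
    simp
  · exact sum_congr rfl fun k _ => avgc_mul W cl N _ _

/-! ### The bounds for convex functions on the real line -/

theorem psi_bdd {ψ : ℝ → ℝ} (hψ : ContinuousOn ψ (Set.Icc 0 (1 / 2))) :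
    ∃ D : ℝ, 1 ≤ D ∧ ∀ x, 0 ≤ x → x ≤ 1 / 2 → ψ x ≤ D := by
  obtain ⟨D, hD⟩ := (isCompact_Icc.image_of_continuousOn hψ).bddAbove
  refine ⟨max D 1, le_max_right _ _, fun x h0 h1 => le_max_of_le_left ?_⟩
  exact hD ⟨x, ⟨h0, h1⟩, rfl⟩

section main

variable {W cl : ℕ} (hW : 1 ≤ W) {ρ : ℕ → ℝ} {C : ℝ} (h0 : ∀ n, 0 ≤ ρ n) (hC : ∀ n, ρ n ≤ C)
  {ψ : ℝ → ℝ} (hψ : ContinuousOn ψ (Set.Icc 0 (1 / 2))) (hψ0 : ∀ x, 0 ≤ x → x ≤ 1 / 2 → 0 ≤ ψ x)

include hW h0 hC hψ hψ0 in
theorem pf_upper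
    (hmean : ∀ ε : ℝ, 0 < ε → ∀ᶠ N : ℕ in atTop, avgc W cl N ρ ≤ lw ψ (fun x => x) + ε)
    (htr : ∀ t : ℝ, 0 ≤ t → ∀ ε : ℝ, 0 < ε → ∀ᶠ N : ℕ in atTop,
      lw ψ (fun x => min x t) - ε ≤ avgc W cl N (fun n => min (ρ n) t))
    (φ : ℝ → ℝ) (hφ : ConvexOn ℝ Set.univ φ) (ε : ℝ) (hε : 0 < ε) :
    ∀ᶠ N : ℕ in atTop, avgc W cl N (fun n => φ (ρ n)) ≤ lw ψ φ + ε := by
  obtain ⟨D₀, hD₀1, hD₀⟩ := psi_bdd hψ
  obtain ⟨n, s, D, c, t, hD1, hCD, hc, ht, happ⟩ := approx (max C D₀) hφ (ε := ε / 2)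
    (by positivity)
  have hψD : ∀ x, 0 ≤ x → x ≤ 1 / 2 → ψ x ≤ D := fun x hx0 hx1 =>
    (hD₀ x hx0 hx1).trans ((le_max_right _ _).trans hCD)
  have hCD' : C ≤ D := (le_max_left _ _).trans hCD
  have hcont : Continuous φ := by
    rw [← continuousOn_univ]
    exact hφ.continuousOn isOpen_univ
  set B : ℝ := |φ 0| + |s| + ∑ k ∈ range n, c k + 1 with hB
  have hsum0 : 0 ≤ ∑ k ∈ range n, c k := sum_nonneg fun k _ => hc k
  have hB0 : 0 < B := by
    have := abs_nonneg (φ 0)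
    have := abs_nonneg s
    linarith
  set η : ℝ := ε / (2 * B) with hη'
  have hη : 0 < η := by positivity
  have hηB : η * B = ε / 2 := by rw [hη']; field_simp
  have hkk : ∀ᶠ N : ℕ in atTop, ∀ k ∈ range n,
      lw ψ (fun x => min x (t k)) - η ≤ avgc W cl N (fun m => min (ρ m) (t k)) :=
    (Filter.eventually_all_finset (range n)).2 fun k _ => htr (t k) (ht k) η hη
  have h4 : lw ψ (fun x => min x D) = lw ψ (fun x => x) := by
    unfold lw
    congr 1
    refine intervalIntegral.integral_congr fun x hx => ?_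
    rw [Set.uIcc_of_le (by norm_num)] at hx
    exact min_eq_left (hψD x hx.1 hx.2)
  filter_upwards [avgc_one_ev hW cl η hη, hkk, htr D (by linarith) η hη, hmean η hη]
    with N g1 g2 g3 g4
  rw [h4] at g3
  have g5 : avgc W cl N (fun m => min (ρ m) D) ≤ lw ψ (fun x => x) + η :=
    (avgc_mono W cl N fun m => min_le_left _ _).trans g4
  have e1 : avgc W cl N (fun m => φ (ρ m)) ≤
      avgc W cl N (fun m => φ 0 + s * min (ρ m) D - ∑ k ∈ range n, c k * min (ρ m) (t k)) :=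
    avgc_mono W cl N fun m => (happ (ρ m) (h0 m) ((hC m).trans hCD')).1
  rw [avgc_comb] at e1
  have e2 : φ 0 * avgc W cl N (fun _ => 1) ≤ φ 0 + |φ 0| * η := by
    have : φ 0 * (avgc W cl N (fun _ => 1) - 1) ≤ |φ 0| * η := by
      refine (le_abs_self _).trans ?_
      rw [abs_mul]
      exact mul_le_mul_of_nonneg_left g1 (abs_nonneg _)
    linarith
  have e3 : s * avgc W cl N (fun m => min (ρ m) D) ≤ s * lw ψ (fun x => x) + |s| * η := by
    have : s * (avgc W cl N (fun m => min (ρ m) D) - lw ψ (fun x => x)) ≤ |s| * η := by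
      refine (le_abs_self _).trans ?_
      rw [abs_mul]
      refine mul_le_mul_of_nonneg_left ?_ (abs_nonneg _)
      rw [abs_le]
      constructor <;> linarith
    linarith
  have e4 : ∑ k ∈ range n, c k * lw ψ (fun x => min x (t k)) - (∑ k ∈ range n, c k) * η ≤
      ∑ k ∈ range n, c k * avgc W cl N (fun m => min (ρ m) (t k)) := by
    rw [sum_mul, ← sum_sub_distrib]
    refine sum_le_sum fun k hk => ?_
    have := mul_le_mul_of_nonneg_left (g2 k hk) (hc k)
    linarith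
  have e5 := lw_comb hψ hψD (φ 0) s n c t
  have e6 : lw ψ (fun x => φ 0 + s * min x D - ∑ k ∈ range n, c k * min x (t k)) ≤
      lw ψ (fun x => φ x + ε / 2) := by
    have h2 : Continuous (fun x : ℝ => ∑ k ∈ range n, c k * min x (t k)) :=
      continuous_finsetSum _ fun k _ => by fun_prop
    refine lw_mono hψ (by fun_prop) (by fun_prop) fun x hx0 hx1 => ?_
    exact (happ (ψ x) (hψ0 x hx0 hx1) (hψD x hx0 hx1)).2
  have e7 : lw ψ (fun x => φ x + ε / 2) = lw ψ φ + ε / 2 := by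
    rw [lw_add hψ hcont continuous_const, lw_const]
  rw [e5, e7] at e6
  have e8 : |φ 0| * η + |s| * η + (∑ k ∈ range n, c k) * η ≤ ε / 2 := by
    rw [← hηB, hB]
    nlinarith
  linarith

include hW h0 hC hψ hψ0 in
theorem pf_lower
    (hmean : ∀ ε : ℝ, 0 < ε → ∀ᶠ N : ℕ in atTop, |avgc W cl N ρ - lw ψ (fun x => x)| ≤ ε)
    (htr : ∀ t : ℝ, 0 ≤ t → ∀ ε : ℝ, 0 < ε → ∀ᶠ N : ℕ in atTop,
      avgc W cl N (fun n => min (ρ n) t) ≤ lw ψ (fun x => min x t) + ε)
    (φ : ℝ → ℝ) (hφ : ConvexOn ℝ Set.univ φ) (ε : ℝ) (hε : 0 < ε) :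
    ∀ᶠ N : ℕ in atTop, lw ψ φ - ε ≤ avgc W cl N (fun n => φ (ρ n)) := by
  obtain ⟨D₀, hD₀1, hD₀⟩ := psi_bdd hψ
  obtain ⟨n, s, D, c, t, hD1, hCD, hc, ht, happ⟩ := approx (max C D₀) hφ (ε := ε / 4)
    (by positivity)
  have hψD : ∀ x, 0 ≤ x → x ≤ 1 / 2 → ψ x ≤ D := fun x hx0 hx1 =>
    (hD₀ x hx0 hx1).trans ((le_max_right _ _).trans hCD)
  have hCD' : C ≤ D := (le_max_left _ _).trans hCD
  have hcont : Continuous φ := by
    rw [← continuousOn_univ]
    exact hφ.continuousOn isOpen_univ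
  set B : ℝ := |φ 0| + |s| + ∑ k ∈ range n, c k + 1 with hB
  have hsum0 : 0 ≤ ∑ k ∈ range n, c k := sum_nonneg fun k _ => hc k
  have hB0 : 0 < B := by
    have := abs_nonneg (φ 0)
    have := abs_nonneg s
    linarith
  set η : ℝ := ε / (4 * B) with hη'
  have hη : 0 < η := by positivity
  have hηB : η * B = ε / 4 := by rw [hη']; field_simp
  have hkk : ∀ᶠ N : ℕ in atTop, ∀ k ∈ range n,
      avgc W cl N (fun m => min (ρ m) (t k)) ≤ lw ψ (fun x => min x (t k)) + η :=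
    (Filter.eventually_all_finset (range n)).2 fun k _ => htr (t k) (ht k) η hη
  filter_upwards [avgc_one_ev hW cl η hη, avgc_one_ev hW cl 1 one_pos, hkk, hmean η hη]
    with N g1 g1' g2 g4
  have hDρ : avgc W cl N (fun m => min (ρ m) D) = avgc W cl N ρ := by
    congr 1
    funext m
    exact min_eq_left ((hC m).trans hCD')
  have e1 : avgc W cl N (fun m => φ 0 + s * min (ρ m) D - ∑ k ∈ range n, c k * min (ρ m) (t k)) ≤
      avgc W cl N (fun m => φ (ρ m) + ε / 4) :=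
    avgc_mono W cl N fun m => (happ (ρ m) (h0 m) ((hC m).trans hCD')).2
  rw [avgc_comb] at e1
  have e1' : avgc W cl N (fun m => φ (ρ m) + ε / 4) ≤ avgc W cl N (fun m => φ (ρ m)) + ε / 2 := by
    rw [avgc_add]
    have h1 : avgc W cl N (fun _ => ε / 4) = ε / 4 * avgc W cl N (fun _ => 1) := by
      rw [← avgc_mul]
      simp
    rw [h1]
    have h2 := (abs_le.1 g1').2
    nlinarith
  have e2 : φ 0 - |φ 0| * η ≤ φ 0 * avgc W cl N (fun _ => 1) := by
    have : -(|φ 0| * η) ≤ φ 0 * (avgc W cl N (fun _ => 1) - 1) := by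
      refine le_trans ?_ (neg_abs_le _)
      rw [abs_mul, neg_le_neg_iff]
      exact mul_le_mul_of_nonneg_left g1 (abs_nonneg _)
    linarith
  have e3 : s * lw ψ (fun x => x) - |s| * η ≤ s * avgc W cl N (fun m => min (ρ m) D) := by
    rw [hDρ]
    have : -(|s| * η) ≤ s * (avgc W cl N ρ - lw ψ (fun x => x)) := by
      refine le_trans ?_ (neg_abs_le _)
      rw [abs_mul, neg_le_neg_iff]
      exact mul_le_mul_of_nonneg_left g4 (abs_nonneg _)
    linarith
  have e4 : ∑ k ∈ range n, c k * avgc W cl N (fun m => min (ρ m) (t k)) ≤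
      ∑ k ∈ range n, c k * lw ψ (fun x => min x (t k)) + (∑ k ∈ range n, c k) * η := by
    rw [sum_mul, ← sum_add_distrib]
    refine sum_le_sum fun k hk => ?_
    have := mul_le_mul_of_nonneg_left (g2 k hk) (hc k)
    linarith
  have e5 := lw_comb hψ hψD (φ 0) s n c t
  have e6 : lw ψ φ ≤
      lw ψ (fun x => φ 0 + s * min x D - ∑ k ∈ range n, c k * min x (t k)) := by
    have h2 : Continuous (fun x : ℝ => ∑ k ∈ range n, c k * min x (t k)) :=
      continuous_finsetSum _ fun k _ => by fun_prop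
    refine lw_mono hψ (by fun_prop) (by fun_prop) fun x hx0 hx1 => ?_
    exact (happ (ψ x) (hψ0 x hx0 hx1) (hψD x hx0 hx1)).1
  rw [e5] at e6
  have e8 : |φ 0| * η + |s| * η + (∑ k ∈ range n, c k) * η ≤ ε / 4 := by
    rw [← hηB, hB]
    nlinarith
  linarith

end main

/-! ### Convex functions on `[0, ∞)` -/

theorem convex_bdd' {φ : ℝ → ℝ} (hφ : ConvexOn ℝ (Set.Ici 0) φ) {D : ℝ} (hD : 0 < D) :
    ∃ M : ℝ, 0 ≤ M ∧ ∀ x, 0 ≤ x → x ≤ D → |φ x| ≤ M := by
  have h : ConvexOn ℝ (Set.Ici 0) (fun x => φ (D * x)) := by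
    refine ⟨convex_Ici 0, fun x hx y hy a b ha hb hab => ?_⟩
    have := hφ.2 (Set.mem_Ici.2 (mul_nonneg hD.le hx)) (Set.mem_Ici.2 (mul_nonneg hD.le hy))
      ha hb hab
    simp only [smul_eq_mul] at this ⊢
    have e : D * (a * x + b * y) = a * (D * x) + b * (D * y) := by ring
    rw [e]
    exact this
  obtain ⟨M, hM0, hM⟩ := convex_bdd h
  refine ⟨M, hM0, fun x hx0 hx1 => ?_⟩
  have := hM (x / D) (by positivity) ((div_le_one hD).2 hx1)
  have e : D * (x / D) = x := by field_simp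
  rw [e] at this
  exact this

/-- The sequence of the `δ`. -/
noncomputable def pfdl (n : ℕ) : ℝ := 1 / ((n : ℝ) + 2)

theorem pfdl_pos (n : ℕ) : 0 < pfdl n := by
  unfold pfdl
  positivity

theorem pfdl_half (n : ℕ) : pfdl n ≤ 1 / 2 := by
  unfold pfdl
  exact one_div_le_one_div_of_le (by norm_num) (by linarith [(Nat.cast_nonneg n : (0 : ℝ) ≤ n)])

theorem pfdl_ev {y : ℝ} (hy : 0 < y) : ∀ᶠ n in atTop, pfdl n ≤ y := by
  obtain ⟨n₀, hn₀⟩ := exists_nat_gt (1 / y)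
  filter_upwards [eventually_ge_atTop n₀] with n hn
  unfold pfdl
  have h1 : (n₀ : ℝ) ≤ n := by exact_mod_cast hn
  have h2 : 1 / y < (n : ℝ) + 2 := by linarith
  rw [div_lt_iff₀ hy] at h2
  rw [div_le_iff₀ (by positivity)]
  linarith

theorem psi_meas {ψ : ℝ → ℝ} (hψ : ContinuousOn ψ (Set.Icc 0 (1 / 2))) {φ : ℝ → ℝ}
    (hφ : Measurable φ) : MeasureTheory.AEStronglyMeasurable (fun x => φ (ψ x))
      (MeasureTheory.volume.restrict (Set.Ioc 0 (1 / 2))) := by
  have h1 : AEMeasurable ψ (MeasureTheory.volume.restrict (Set.Ioc 0 (1 / 2))) :=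
    (hψ.mono Set.Ioc_subset_Icc_self).aemeasurable measurableSet_Ioc
  exact (hφ.comp_aemeasurable h1).aestronglyMeasurable

theorem z0_meas : Measurable z0 := by
  unfold z0
  exact Measurable.ite (measurableSet_eq_fun measurable_id measurable_const) measurable_const
    measurable_const

theorem z0_mem (x : ℝ) : 0 ≤ z0 x ∧ z0 x ≤ 1 := by
  unfold z0
  split_ifs <;> norm_num

theorem z0_zero : z0 0 = 1 := by simp [z0]

theorem z0_ne {x : ℝ} (hx : x ≠ 0) : z0 x = 0 := by simp [z0, hx]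

theorem lw_add_z0 {ψ : ℝ → ℝ} (hψ : ContinuousOn ψ (Set.Icc 0 (1 / 2))) {φ : ℝ → ℝ}
    (hφ : Continuous φ) (J : ℝ) :
    lw ψ (fun x => φ x + J * z0 x) = lw ψ φ + J * lw ψ z0 := by
  have i2 : IntervalIntegrable (fun x => z0 (ψ x)) MeasureTheory.volume 0 (1 / 2) := by
    rw [intervalIntegrable_iff_integrableOn_Ioc_of_le (by norm_num)]
    have hfin : MeasureTheory.IsFiniteMeasure
        (MeasureTheory.volume.restrict (Set.Ioc (0 : ℝ) (1 / 2))) := ⟨by simp⟩
    refine MeasureTheory.Integrable.of_bound (psi_meas hψ z0_meas) 1 ?_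
    refine Filter.Eventually.of_forall fun x => ?_
    rw [Real.norm_eq_abs, abs_le]
    have := z0_mem (ψ x)
    constructor <;> linarith
  unfold lw
  rw [intervalIntegral.integral_add (comp_intble hψ hφ) (i2.const_mul J),
    intervalIntegral.integral_const_mul]
  ring

section main0

variable {W cl : ℕ} (hW : 1 ≤ W) {ρ : ℕ → ℝ} {C : ℝ} (h0 : ∀ n, 0 ≤ ρ n) (hC : ∀ n, ρ n ≤ C)
  {ψ : ℝ → ℝ} (hψ : ContinuousOn ψ (Set.Icc 0 (1 / 2))) (hψ0 : ∀ x, 0 ≤ x → x ≤ 1 / 2 → 0 ≤ ψ x)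

include hW h0 hC hψ hψ0 in
/-- If the mean of `ρ` is asymptotically at most the mean of `ψ`, and every truncated mean of `ρ`
at least that of `ψ`, then the mean of every convex function of `ρ` is at most that of `ψ`. -/
theorem pf_upper0
    (hmean : ∀ ε : ℝ, 0 < ε → ∀ᶠ N : ℕ in atTop, avgc W cl N ρ ≤ lw ψ (fun x => x) + ε)
    (htr : ∀ t : ℝ, 0 ≤ t → ∀ ε : ℝ, 0 < ε → ∀ᶠ N : ℕ in atTop,
      lw ψ (fun x => min x t) - ε ≤ avgc W cl N (fun n => min (ρ n) t))
    (φ : ℝ → ℝ) (hφ : ConvexOn ℝ (Set.Ici 0) φ) (ε : ℝ) (hε : 0 < ε) :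
    ∀ᶠ N : ℕ in atTop, avgc W cl N (fun n => φ (ρ n)) ≤ lw ψ φ + ε := by
  obtain ⟨D, hD1, hD⟩ := psi_bdd hψ
  obtain ⟨M, hM0, hM⟩ := convex_bdd' hφ (D := D) (by linarith)
  set F : ℕ → ℝ → ℝ := fun n => glue φ (pfdl n) ((φ (pfdl n) - φ 0) / pfdl n) with hF
  have hch := fun n => chord_spec hφ (pfdl_pos n)
  have hcont : ∀ n, Continuous (F n) := fun n => glue_contOn hφ (pfdl_pos n) (hch n).1
  have hlim : Tendsto (fun n => lw ψ (F n)) atTop (𝓝 (lw ψ φ)) := by
    refine lw_tendsto (B := M) (fun n => psi_meas hψ (hcont n).measurable) ?_ ?_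
    · intro n x hx0 hx1
      have hy0 := hψ0 x hx0 hx1
      have hy1 := hD x hx0 hx1
      have hδ := pfdl_pos n
      have hδ1 := pfdl_half n
      rcases le_total (pfdl n) (ψ x) with h | h
      · simp only [hF]
        rw [glue_right φ h]
        exact hM _ hy0 hy1
      · simp only [hF]
        rw [glue_left φ h]
        have e : φ (pfdl n) + (φ (pfdl n) - φ 0) / pfdl n * (ψ x - pfdl n) =
            (1 - ψ x / pfdl n) * φ 0 + ψ x / pfdl n * φ (pfdl n) := by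
          field_simp
          ring
        have hxd0 : 0 ≤ ψ x / pfdl n := by positivity
        have hxd1 : ψ x / pfdl n ≤ 1 := (div_le_one hδ).2 h
        have b0 := abs_le.1 (hM 0 le_rfl (by linarith))
        have b1 := abs_le.1 (hM (pfdl n) hδ.le (by linarith))
        rw [e, abs_le]
        constructor <;> nlinarith
    · intro x hx0 hx1
      rcases eq_or_lt_of_le (hψ0 x hx0 hx1) with h | h
      · rw [← h]
        refine tendsto_const_nhds.congr fun n => ?_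
        exact ((hch n).2.2).symm
      · refine tendsto_const_nhds.congr' ?_
        filter_upwards [pfdl_ev h] with n hn
        exact (glue_right φ hn).symm
  obtain ⟨n, hn⟩ := ((hlim.eventually_lt_const
    (show lw ψ φ < lw ψ φ + ε / 2 by linarith))).exists
  filter_upwards [pf_upper hW h0 hC hψ hψ0 hmean htr (F n) (glue_convex hφ (pfdl_pos n) (hch n).1)
    (ε / 2) (by positivity)] with N hN
  have h2 : avgc W cl N (fun m => φ (ρ m)) ≤ avgc W cl N (fun m => F n (ρ m)) :=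
    avgc_mono W cl N fun m => (hch n).2.1 _ (h0 m)
  linarith

include hW h0 hC hψ hψ0 in
theorem pf_lower0
    (hmean : ∀ ε : ℝ, 0 < ε → ∀ᶠ N : ℕ in atTop, |avgc W cl N ρ - lw ψ (fun x => x)| ≤ ε)
    (htr : ∀ t : ℝ, 0 ≤ t → ∀ ε : ℝ, 0 < ε → ∀ᶠ N : ℕ in atTop,
      avgc W cl N (fun n => min (ρ n) t) ≤ lw ψ (fun x => min x t) + ε)
    (hz : ∀ ε : ℝ, 0 < ε → ∀ᶠ N : ℕ in atTop, lw ψ z0 - ε ≤ avgc W cl N (fun n => z0 (ρ n)))
    (φ : ℝ → ℝ) (hφ : ConvexOn ℝ (Set.Ici 0) φ) (ε : ℝ) (hε : 0 < ε) :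
    ∀ᶠ N : ℕ in atTop, lw ψ φ - ε ≤ avgc W cl N (fun n => φ (ρ n)) := by
  obtain ⟨D, hD1, hD⟩ := psi_bdd hψ
  obtain ⟨M, hM0, hM⟩ := convex_bdd' hφ (D := D) (by linarith)
  choose s hs using fun n => tangent hφ (pfdl_pos n)
  have hs' : ∀ n y, pfdl n ≤ y → φ (pfdl n) + s n * (y - pfdl n) ≤ φ y := fun n y hy =>
    hs n y ((pfdl_pos n).le.trans hy)
  set G : ℕ → ℝ → ℝ := fun n => glue φ (pfdl n) (s n) with hG
  set J : ℕ → ℝ := fun n => φ 0 - G n 0 with hJ
  have hg0 : ∀ n, G n 0 = φ (pfdl n) + s n * (0 - pfdl n) := fun n => glue_left φ (pfdl_pos n).le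
  have hJ0 : ∀ n, 0 ≤ J n := by
    intro n
    simp only [hJ]
    rw [hg0]
    linarith [hs n 0 le_rfl]
  have hs2 : ∀ n, s n ≤ 4 * M := by
    intro n
    have hδ1 := pfdl_half n
    have hδ := pfdl_pos n
    have h1 := hs n 1 zero_le_one
    have b0 := abs_le.1 (hM 1 zero_le_one hD1)
    have b1 := abs_le.1 (hM (pfdl n) hδ.le (by linarith))
    by_contra hcon
    push Not at hcon
    nlinarith
  have hcont : ∀ n, Continuous (G n) := fun n => glue_contOn hφ (pfdl_pos n) (hs' n)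
  have hgM : ∀ n x, 0 ≤ x → x ≤ D → |G n x| ≤ 3 * M := by
    intro n x hx0 hx1
    have hδ1 := pfdl_half n
    have hδ := pfdl_pos n
    simp only [hG]
    rcases le_total (pfdl n) x with h | h
    · rw [glue_right φ h]
      linarith [hM x hx0 hx1]
    · rw [glue_left φ h]
      have b0 := abs_le.1 (hM x hx0 hx1)
      have b1 := abs_le.1 (hM (pfdl n) hδ.le (by linarith))
      have h1 := hs n x hx0
      rw [abs_le]
      constructor
      · have : s n * (pfdl n - x) ≤ 4 * M * (pfdl n - x) :=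
          mul_le_mul_of_nonneg_right (hs2 n) (by linarith)
        nlinarith
      · linarith
  have hJM : ∀ n, J n ≤ 4 * M := by
    intro n
    have b0 := abs_le.1 (hM 0 le_rfl (by linarith))
    have b1 := abs_le.1 (hgM n 0 le_rfl (by linarith))
    simp only [hJ]
    linarith
  set F : ℕ → ℝ → ℝ := fun n x => G n x + J n * z0 x with hF
  have hlim : Tendsto (fun n => lw ψ (F n)) atTop (𝓝 (lw ψ φ)) := by
    refine lw_tendsto (B := 7 * M) (fun n => psi_meas hψ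
      ((hcont n).measurable.add (z0_meas.const_mul _))) ?_ ?_
    · intro n x hx0 hx1
      have b1 := abs_le.1 (hgM n _ (hψ0 x hx0 hx1) (hD x hx0 hx1))
      have b2 := z0_mem (ψ x)
      have b3 : 0 ≤ J n * z0 (ψ x) := mul_nonneg (hJ0 n) b2.1
      have b4 : J n * z0 (ψ x) ≤ 4 * M := by nlinarith [hJ0 n, hJM n]
      simp only [hF]
      rw [abs_le]
      constructor <;> linarith
    · intro x hx0 hx1
      rcases eq_or_lt_of_le (hψ0 x hx0 hx1) with h | h
      · rw [← h]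
        refine tendsto_const_nhds.congr fun n => ?_
        simp only [hF, hJ]
        rw [z0_zero]
        ring
      · refine tendsto_const_nhds.congr' ?_
        filter_upwards [pfdl_ev h] with n hn
        simp only [hF, hG]
        rw [glue_right φ hn, z0_ne (ne_of_gt h), mul_zero, add_zero]
  obtain ⟨n, hn⟩ := ((hlim.eventually_const_lt
    (show lw ψ φ - ε / 4 < lw ψ φ by linarith))).exists
  have hadd : lw ψ (F n) = lw ψ (G n) + J n * lw ψ z0 := lw_add_z0 hψ (hcont n) (J n)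
  filter_upwards [pf_lower hW h0 hC hψ hψ0 hmean htr (G n) (glue_convex hφ (pfdl_pos n) (hs' n))
    (ε / 4) (by positivity), hz (ε / (4 * (4 * M + 1))) (by positivity)] with N h1 h2
  have h3 : avgc W cl N (fun m => G n (ρ m)) + J n * avgc W cl N (fun m => z0 (ρ m)) ≤
      avgc W cl N (fun m => φ (ρ m)) := by
    rw [← avgc_mul, ← avgc_add]
    refine avgc_mono W cl N fun m => ?_
    rcases eq_or_lt_of_le (h0 m) with h | h
    · rw [← h, z0_zero]
      simp only [hJ]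
      linarith
    · rw [z0_ne (ne_of_gt h), mul_zero, add_zero]
      simp only [hG]
      rcases le_total (pfdl n) (ρ m) with h' | h'
      · rw [glue_right φ h']
      · rw [glue_left φ h']
        exact hs n _ (h0 m)
  have h5 : J n * (lw ψ z0 - ε / (4 * (4 * M + 1))) ≤ J n * avgc W cl N (fun m => z0 (ρ m)) :=
    mul_le_mul_of_nonneg_left h2 (hJ0 n)
  have h6 : J n * (ε / (4 * (4 * M + 1))) ≤ ε / 4 := by
    have h7 : J n * (ε / (4 * (4 * M + 1))) ≤ (4 * M + 1) * (ε / (4 * (4 * M + 1))) :=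
      mul_le_mul_of_nonneg_right (by linarith [hJM n]) (by positivity)
    have h8 : (4 * M + 1) * (ε / (4 * (4 * M + 1))) = ε / 4 := by
      have : (4 * M + 1) ≠ 0 := by positivity
      field_simp
    linarith
  linarith

include hW h0 hC hψ hψ0 in
/-- The limit of the mean of every convex function of `ρ`. -/
theorem pf_limit
    (hmean : ∀ ε : ℝ, 0 < ε → ∀ᶠ N : ℕ in atTop, |avgc W cl N ρ - lw ψ (fun x => x)| ≤ ε)
    (htr : ∀ t : ℝ, 0 ≤ t → ∀ ε : ℝ, 0 < ε → ∀ᶠ N : ℕ in atTop,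
      lw ψ (fun x => min x t) - ε ≤ avgc W cl N (fun n => min (ρ n) t))
    (htr' : ∀ t : ℝ, 0 ≤ t → ∀ ε : ℝ, 0 < ε → ∀ᶠ N : ℕ in atTop,
      avgc W cl N (fun n => min (ρ n) t) ≤ lw ψ (fun x => min x t) + ε)
    (hz : ∀ ε : ℝ, 0 < ε → ∀ᶠ N : ℕ in atTop, lw ψ z0 - ε ≤ avgc W cl N (fun n => z0 (ρ n)))
    (φ : ℝ → ℝ) (hφ : ConvexOn ℝ (Set.Ici 0) φ) :
    Tendsto (fun N => avgc W cl N (fun n => φ (ρ n))) atTop (𝓝 (lw ψ φ)) := by
  rw [Metric.tendsto_nhds]
  intro ε hε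
  have h1 := pf_upper0 hW h0 hC hψ hψ0 (fun ε hε => by
    filter_upwards [hmean ε hε] with N hN
    have := (abs_le.1 hN).2
    linarith) htr φ hφ (ε / 2) (by positivity)
  filter_upwards [h1, pf_lower0 hW h0 hC hψ hψ0 hmean htr' hz φ hφ (ε / 2) (by positivity)]
    with N g1 g2
  rw [Real.dist_eq, abs_lt]
  constructor <;> linarith

end main0

end Pool.Agent.Lib.MP_629a14_nt.Kp
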