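import Pool.Agent.Lib.MP_629a14_nt.Kp.PfExt

/-! The trapezoids: truncated means of the law of `trap`, and the choice of the thresholds. -/

set_option autoImplicit false

namespace Pool.Agent.Lib.MP_629a14_nt.Kp

open Finset Filter Topology Pool.Agent.Lib.MP_629a14_nt Pool.Agent.Lib.MP_629a14_nt.Rob

/-! ### One trapezoid -/

theorem trap_cont (a b : ℝ) : Continuous (trap a b) := by
  unfold trap
  fun_prop

theorem trap_anti (a b : ℝ) : Antitone (trap a b) := by
  intro x y hxy
  unfold trap
  exact min_le_min_left _ (max_le_max_left _ (by linarith))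

theorem trap_lo {a b : ℝ} (ha0 : 0 ≤ a) (ha1 : a ≤ 1) (hb0 : 0 ≤ b) (hb1 : b ≤ 1) (x : ℝ) :
    max 0 (a + b - 1) ≤ trap a b x :=
  le_min (lo_le_hi ha0 ha1 hb0 hb1) (le_max_left _ _)

theorem trap_nonneg {a b : ℝ} (ha0 : 0 ≤ a) (hb0 : 0 ≤ b) (x : ℝ) : 0 ≤ trap a b x :=
  le_min (le_min ha0 hb0) ((le_max_left _ _).trans (le_max_left _ _))

theorem trap_hi (a b x : ℝ) : trap a b x ≤ min a b := min_le_left _ _

theorem trap_zero {a b : ℝ} : trap a b 0 = min a b := by
  unfold trap
  refine min_eq_left ?_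
  refine le_max_of_le_right ?_
  rcases le_total a b with h | h
  · rw [min_eq_left h]
    linarith
  · rw [min_eq_right h]
    linarith

theorem trap_half {a b : ℝ} (ha0 : 0 ≤ a) (ha1 : a ≤ 1) (hb0 : 0 ≤ b) (hb1 : b ≤ 1) :
    trap a b (1 / 2) = max 0 (a + b - 1) := by
  unfold trap
  have h1 : (a + b) / 2 - 1 / 2 ≤ max 0 (a + b - 1) := by
    rcases le_total (a + b) 1 with h | h
    · exact le_max_of_le_left (by linarith)
    · exact le_max_of_le_right (by linarith)
  rw [max_eq_left h1]
  exact min_eq_right (lo_le_hi ha0 ha1 hb0 hb1)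

theorem lw_trap {a b : ℝ} (ha0 : 0 ≤ a) (ha1 : a ≤ 1) (hb0 : 0 ≤ b) (hb1 : b ≤ 1)
    {φ : ℝ → ℝ} (hφ : Continuous φ) : lw (trap a b) φ = extremal φ a b := by
  have hlh := lo_le_hi ha0 ha1 hb0 hb1
  have hm : 2 * ((a + b) / 2 - min a b) = |a - b| := by
    rcases le_total a b with h | h
    · rw [min_eq_left h, abs_of_nonpos (by linarith)]
      ring
    · rw [min_eq_right h, abs_of_nonneg (by linarith)]
      ring
  have hl : 2 * (1 / 2 - ((a + b) / 2 - max 0 (a + b - 1))) = |1 - a - b| := by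
    rcases le_total (a + b) 1 with h | h
    · rw [max_eq_left (by linarith), abs_of_nonneg (by linarith)]
      ring
    · rw [max_eq_right (by linarith), abs_of_nonpos (by linarith)]
      ring
  have htr : ∀ x, trap a b x = min (min a b) (max (max 0 (a + b - 1)) ((a + b) / 2 - x)) :=
    fun x => rfl
  unfold lw extremal
  set l : ℝ := max 0 (a + b - 1) with hl'
  set m : ℝ := min a b with hm'
  have h1 : 0 ≤ (a + b) / 2 - m := by
    have := abs_nonneg (a - b)
    linarith
  have h2 : (a + b) / 2 - m ≤ (a + b) / 2 - l := by linarith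
  have h3 : (a + b) / 2 - l ≤ 1 / 2 := by
    have := abs_nonneg (1 - a - b)
    linarith
  have hc : Continuous (fun x => φ (trap a b x)) := hφ.comp (trap_cont a b)
  rw [← intervalIntegral.integral_add_adjacent_intervals (b := (a + b) / 2 - m)
      (hc.intervalIntegrable _ _) (hc.intervalIntegrable _ _),
    ← intervalIntegral.integral_add_adjacent_intervals (a := (a + b) / 2 - m)
      (b := (a + b) / 2 - l) (c := 1 / 2) (hc.intervalIntegrable _ _) (hc.intervalIntegrable _ _)]
  have i1 : ∫ x in (0 : ℝ)..((a + b) / 2 - m), φ (trap a b x) = ((a + b) / 2 - m) * φ m := by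
    have : ∫ x in (0 : ℝ)..((a + b) / 2 - m), φ (trap a b x) =
        ∫ _ in (0 : ℝ)..((a + b) / 2 - m), φ m := by
      refine intervalIntegral.integral_congr fun x hx => ?_
      rw [Set.uIcc_of_le h1] at hx
      have : trap a b x = m := by
        rw [htr]
        exact min_eq_left (le_max_of_le_right (by linarith [hx.2]))
      simp only [this]
    rw [this, intervalIntegral.integral_const, smul_eq_mul, sub_zero]
  have i2 : ∫ x in ((a + b) / 2 - m)..((a + b) / 2 - l), φ (trap a b x) = ∫ x in l..m, φ x := by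
    have : ∫ x in ((a + b) / 2 - m)..((a + b) / 2 - l), φ (trap a b x) =
        ∫ x in ((a + b) / 2 - m)..((a + b) / 2 - l), φ ((a + b) / 2 - x) := by
      refine intervalIntegral.integral_congr fun x hx => ?_
      rw [Set.uIcc_of_le h2] at hx
      have : trap a b x = (a + b) / 2 - x := by
        rw [htr, max_eq_right (by linarith [hx.2]), min_eq_right (by linarith [hx.1])]
      simp only [this]
    rw [this, intervalIntegral.integral_comp_sub_left (fun y => φ y)]
    congr 1 <;> ring
  have i3 : ∫ x in ((a + b) / 2 - l)..(1 / 2), φ (trap a b x) =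
      (1 / 2 - ((a + b) / 2 - l)) * φ l := by
    have : ∫ x in ((a + b) / 2 - l)..(1 / 2), φ (trap a b x) =
        ∫ _ in ((a + b) / 2 - l)..(1 / 2), φ l := by
      refine intervalIntegral.integral_congr fun x hx => ?_
      rw [Set.uIcc_of_le h3] at hx
      have : trap a b x = l := by
        rw [htr, max_eq_left (by linarith [hx.1])]
        exact min_eq_right hlh
      simp only [this]
    rw [this, intervalIntegral.integral_const, smul_eq_mul]
  rw [i1, i2, i3, ← hm, ← hl]
  ring

theorem lw_trap_min {a b : ℝ} (ha0 : 0 ≤ a) (ha1 : a ≤ 1) (hb0 : 0 ≤ b) (hb1 : b ≤ 1)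
    {t : ℝ} (ht : 0 ≤ t) : lw (trap a b) (fun x => min x t) = TT a b t := by
  rw [lw_trap ha0 ha1 hb0 hb1 (by fun_prop), extremal_min ha0 ha1 hb0 hb1 ht]

theorem lw_trap_id {a b : ℝ} (ha0 : 0 ≤ a) (ha1 : a ≤ 1) (hb0 : 0 ≤ b) (hb1 : b ≤ 1) :
    lw (trap a b) (fun x => x) = a * b := by
  have h : lw (trap a b) (fun x => x) = lw (trap a b) (fun x => min x 1) := by
    unfold lw
    congr 1
    refine intervalIntegral.integral_congr fun x _ => ?_
    exact (min_eq_left (((trap_hi a b x).trans (min_le_left _ _)).trans ha1)).symm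
  rw [h, lw_trap_min ha0 ha1 hb0 hb1 zero_le_one, TT_large ha1 hb1 ((min_le_left _ _).trans ha1)]

theorem TT_small {a b τ : ℝ} (ha0 : 0 ≤ a) (ha1 : a ≤ 1) (hb0 : 0 ≤ b) (hb1 : b ≤ 1)
    (hτ0 : 0 ≤ τ) (hτ : τ ≤ max 0 (a + b - 1)) : TT a b τ = τ := by
  unfold TT
  rw [min_eq_left (hτ.trans (lo_le_hi ha0 ha1 hb0 hb1))]
  rcases le_total (a + b) 1 with h | h
  · rw [max_eq_left (by linarith)] at hτ
    have : τ = 0 := le_antisymm hτ hτ0
    rw [this]
    ring
  · rw [max_eq_right (by linarith)] at hτ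
    rw [min_eq_left (by linarith)]
    ring

/-! ### The mean of the trapezoids -/

section mean

variable {W c : ℕ} {al be : ℕ → ℝ}

/-- The function whose law is the law of the counts. -/
noncomputable def tm (W c : ℕ) (al be : ℕ → ℝ) (x : ℝ) : ℝ :=
  prs W c al be (fun _ a b => trap a b x)

theorem rearr_tm (φ : ℝ → ℝ) : rearr W c al be φ = lw (tm W c al be) φ := rfl

theorem tm_cont : Continuous (tm W c al be) := by
  unfold tm prs
  refine Continuous.div_const (continuous_finsetSum _ fun r _ => ?_) _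
  exact trap_cont _ _

theorem tm_anti : Antitone (tm W c al be) := by
  intro x y hxy
  unfold tm prs
  refine div_le_div_of_nonneg_right (sum_le_sum fun r _ => ?_) (Nat.cast_nonneg _)
  exact trap_anti _ _ hxy

theorem adm_co {r : ℕ} (hr : r ∈ adm W c) :
    (r < W ∧ r.Coprime W) ∧ ((c + W - r) % W < W ∧ ((c + W - r) % W).Coprime W) := by
  unfold adm at hr
  rw [mem_filter, mem_range] at hr
  obtain ⟨h1, h2, h3⟩ := hr
  refine ⟨⟨h1, h2⟩, Nat.mod_lt _ (by omega), ?_⟩
  have := (Nat.mod_modEq (c + W - r) W).gcd_eq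
  unfold Nat.Coprime at h3 ⊢
  rw [this]
  exact h3

/-- The mean of a function of the residue and of the point. -/
theorem prs_lw (f : ℕ → ℝ → ℝ → ℝ → ℝ) (hf : ∀ r a b, Continuous (f r a b)) :
    2 * ∫ x in (0 : ℝ)..(1 / 2), prs W c al be (fun r a b => f r a b x) =
      prs W c al be (fun r a b => 2 * ∫ x in (0 : ℝ)..(1 / 2), f r a b x) := by
  unfold prs
  rw [intervalIntegral.integral_div, intervalIntegral.integral_finsetSum]
  · rw [← mul_sum]
    ring
  · intro r _
    exact (hf _ _ _).intervalIntegrable _ _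

variable (hal : ∀ r, r < W → r.Coprime W → 0 ≤ al r ∧ al r ≤ 1)
  (hbe : ∀ r, r < W → r.Coprime W → 0 ≤ be r ∧ be r ≤ 1)

include hal hbe in
theorem adm_val {r : ℕ} (hr : r ∈ adm W c) :
    (0 ≤ al r ∧ al r ≤ 1) ∧ (0 ≤ be ((c + W - r) % W) ∧ be ((c + W - r) % W) ≤ 1) :=
  ⟨hal _ (adm_co hr).1.1 (adm_co hr).1.2, hbe _ (adm_co hr).2.1 (adm_co hr).2.2⟩

include hal hbe in
theorem prs_congr {F G : ℕ → ℝ → ℝ → ℝ}
    (h : ∀ r a b, 0 ≤ a → a ≤ 1 → 0 ≤ b → b ≤ 1 → F r a b = G r a b) :
    prs W c al be F = prs W c al be G := by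
  unfold prs
  congr 1
  refine sum_congr rfl fun r hr => ?_
  obtain ⟨⟨h1, h2⟩, h3, h4⟩ := adm_val hal hbe hr
  exact h r _ _ h1 h2 h3 h4

include hal hbe in
theorem tm_nonneg (x : ℝ) : 0 ≤ tm W c al be x := by
  unfold tm prs
  refine div_nonneg (sum_nonneg fun r hr => ?_) (Nat.cast_nonneg _)
  obtain ⟨⟨h1, h2⟩, h3, h4⟩ := adm_val hal hbe hr
  exact trap_nonneg h1 h3 x

include hal hbe in
theorem rearr_id : rearr W c al be (fun y => y) = prs W c al be (fun _ a b => a * b) := by
  unfold rearr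
  rw [prs_lw (fun _ a b x => trap a b x) (fun r a b => trap_cont a b)]
  exact prs_congr hal hbe fun r a b h1 h2 h3 h4 => lw_trap_id h1 h2 h3 h4

include hal hbe in
/-- Choice of the thresholds. -/
theorem prs_low {t : ℝ} (ht : 0 ≤ t) :
    ∃ τ : ℕ → ℝ, (∀ r ∈ adm W c, 0 ≤ τ r) ∧ prs W c al be (fun r _ _ => τ r) ≤ t ∧
      rearr W c al be (fun y => min y t) = prs W c al be (fun r a b => TT a b (τ r)) := by
  -- the thresholds are of the form `F a b`
  suffices h : ∃ F : ℝ → ℝ → ℝ, (∀ a b, 0 ≤ a → a ≤ 1 → 0 ≤ b → b ≤ 1 → 0 ≤ F a b) ∧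
      prs W c al be (fun _ a b => F a b) ≤ t ∧
      rearr W c al be (fun y => min y t) = prs W c al be (fun _ a b => TT a b (F a b)) by
    obtain ⟨F, h1, h2, h3⟩ := h
    refine ⟨fun r => F (al r) (be ((c + W - r) % W)), fun r hr => ?_, h2, h3⟩
    obtain ⟨⟨g1, g2⟩, g3, g4⟩ := adm_val hal hbe hr
    exact h1 _ _ g1 g2 g3 g4
  rcases le_total (tm W c al be 0) t with h1 | h1
  · -- `t` is large
    refine ⟨fun a b => trap a b 0, fun a b ha _ hb _ => trap_nonneg ha hb 0, h1, ?_⟩
    have e1 : rearr W c al be (fun y => min y t) = rearr W c al be (fun y => y) := by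
      unfold rearr
      congr 1
      refine intervalIntegral.integral_congr fun x hx => ?_
      rw [Set.uIcc_of_le (by norm_num)] at hx
      exact min_eq_left ((tm_anti hx.1).trans h1)
    rw [e1, rearr_id hal hbe]
    refine prs_congr hal hbe fun r a b ha0 ha1 hb0 hb1 => ?_
    beta_reduce
    rw [trap_zero, TT_large ha1 hb1 le_rfl]
  rcases le_total (tm W c al be (1 / 2)) t with h2 | h2
  · -- intermediate value theorem
    obtain ⟨z, hz, hzt⟩ : t ∈ tm W c al be '' Set.Icc 0 (1 / 2) :=
      intermediate_value_Icc' (by norm_num) tm_cont.continuousOn ⟨h2, h1⟩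
    refine ⟨fun a b => trap a b z, fun a b ha _ hb _ => trap_nonneg ha hb z, hzt.le, ?_⟩
    have e1 : rearr W c al be (fun y => min y t) =
        2 * ∫ x in (0 : ℝ)..(1 / 2), prs W c al be
          (fun _ a b => min (trap a b x) (trap a b z)) := by
      unfold rearr
      congr 1
      refine intervalIntegral.integral_congr fun x _ => ?_
      have e2 : ∀ a b, min (trap a b x) (trap a b z) = trap a b (max x z) := fun a b =>
        ((trap_anti a b).map_max).symm
      simp only [e2]
      rw [← hzt]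
      exact ((tm_anti (W := W) (c := c) (al := al) (be := be)).map_max).symm
    rw [e1, prs_lw (fun _ a b x => min (trap a b x) (trap a b z))
      (fun r a b => (trap_cont a b).min continuous_const)]
    refine prs_congr hal hbe fun r a b ha0 ha1 hb0 hb1 => ?_
    exact lw_trap_min ha0 ha1 hb0 hb1 (trap_nonneg ha0 hb0 z)
  · -- `t` is small
    have h3 : 0 ≤ tm W c al be (1 / 2) := tm_nonneg hal hbe _
    set lam : ℝ := t / tm W c al be (1 / 2) with hlam
    have hl0 : 0 ≤ lam := div_nonneg ht h3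
    have hl1 : lam ≤ 1 := div_le_one_of_le₀ h2 h3
    have hlt : lam * tm W c al be (1 / 2) = t := by
      rcases eq_or_lt_of_le h3 with h | h
      · rw [← h] at h2 ⊢
        have : t = 0 := le_antisymm h2 ht
        rw [this]
        ring
      · rw [hlam]
        field_simp
    have e0 : prs W c al be (fun _ a b => lam * trap a b (1 / 2)) = t := by
      rw [← hlt]
      unfold tm prs
      rw [← mul_sum]
      ring
    refine ⟨fun a b => lam * trap a b (1 / 2),
      fun a b ha _ hb _ => mul_nonneg hl0 (trap_nonneg ha hb _), e0.le, ?_⟩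
    have e1 : rearr W c al be (fun y => min y t) = t := by
      have : rearr W c al be (fun y => min y t) = rearr W c al be (fun _ => t) := by
        unfold rearr
        congr 1
        refine intervalIntegral.integral_congr fun x hx => ?_
        rw [Set.uIcc_of_le (by norm_num)] at hx
        exact min_eq_right (h2.trans (tm_anti hx.2))
      rw [this, rearr_tm, lw_const]
    rw [e1]
    conv_lhs => rw [← e0]
    refine prs_congr hal hbe fun r a b ha0 ha1 hb0 hb1 => ?_
    beta_reduce
    rw [trap_half ha0 ha1 hb0 hb1]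
    refine (TT_small ha0 ha1 hb0 hb1 (mul_nonneg hl0 (le_max_left _ _)) ?_).symm
    nlinarith [le_max_left (0 : ℝ) (a + b - 1)]

end mean

end Pool.Agent.Lib.MP_629a14_nt.Kp
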