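import Pool.Agent.Lib.MP_629a14_nt.Kp.PfTrunc
import Pool.Agent.Lib.MP_629a14_nt.Kp.PfExt
import Pool.Agent.Lib.MP_629a14_nt.Kp.PfRL

/-! Assembly of the rearrangement inequality. -/

set_option autoImplicit false

namespace Pool.Agent.Lib.MP_629a14_nt.Kp

open Finset Filter Topology Pool.Agent.Lib.MP_629a14_nt Pool.Agent.Lib.MP_629a14_nt.Rob

/-- The values of a profile lie in `[0, 1]`. -/
theorem profile_mem {A : Set ℕ} {W : ℕ} {al : ℕ → ℝ} (hW1 : 1 ≤ W) (hA : HasProfile A W al) :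
    ∀ r, r < W → r.Coprime W → 0 ≤ al r ∧ al r ≤ 1 := by
  intro r hr hc
  have h1 := hA W r hW1 dvd_rfl hc
  rw [Nat.mod_eq_of_lt hr] at h1
  refine ⟨ge_of_tendsto' h1 fun x => by positivity, le_of_tendsto' h1 fun x => ?_⟩
  refine div_le_one_of_le₀ ?_ (Nat.cast_nonneg _)
  have h2 : primesIn A W r x ≤ primesIn Set.univ W r x := by
    unfold primesIn
    refine Set.ncard_le_ncard ?_ ((Set.finite_Iic x).subset fun p hp => hp.1)
    intro p hp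
    exact ⟨hp.1, hp.2.1, trivial, hp.2.2.2⟩
  exact_mod_cast h2

variable {A B : Set ℕ} {W c : ℕ} {al be : ℕ → ℝ}

theorem asm_low (hW1 : 1 ≤ W) (hW2 : 2 ∣ W) (hc2 : 2 ∣ c)
    (hA : HasProfile A W al) (hB : HasProfile B W be)
    (hst : ∀ ε : ℝ, 0 < ε → ∃ v : ℕ, 2 ≤ v ∧ W ≤ v ∧ 1 / ε ≤ v ∧ ∃ N₀ : ℕ, ∀ N : ℕ, N₀ ≤ N →
      StrucP W v N A B al be ε) (t : ℝ) (ht : 0 ≤ t) (ε : ℝ) (hε : 0 < ε) :
    ∀ᶠ N : ℕ in atTop, lw (tm W c al be) (fun x => min x t) - ε ≤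
      avgc W c N (fun n => min (rho A B n) t) := by
  have hal := profile_mem hW1 hA
  have hbe := profile_mem hW1 hB
  obtain ⟨τ, h1, h2, h3⟩ := prs_low (c := c) hal hbe ht
  obtain ⟨N₀, h⟩ := trunc_pf_of hW1 hW2 hc2 hst hal hbe h1 h2 ε hε
  filter_upwards [eventually_ge_atTop N₀] with N hN
  rw [← rearr_tm, h3]
  exact h N hN

theorem asm_mean (hW1 : 1 ≤ W) (hA : HasProfile A W al) (hB : HasProfile B W be)
    (hmean : Tendsto (fun N => avgc W c N (rho A B)) atTop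
      (𝓝 (prs W c al be (fun _ a b => a * b)))) (ε : ℝ) (hε : 0 < ε) :
    ∀ᶠ N : ℕ in atTop, |avgc W c N (rho A B) - lw (tm W c al be) (fun x => x)| ≤ ε := by
  have h1 : lw (tm W c al be) (fun x => x) = prs W c al be (fun _ a b => a * b) := by
    rw [← rearr_tm, rearr_id (profile_mem hW1 hA) (profile_mem hW1 hB)]
  rw [h1]
  filter_upwards [Metric.tendsto_nhds.1 hmean ε hε] with N hN
  rw [Real.dist_eq] at hN
  exact hN.le

theorem asm_upper (hW1 : 1 ≤ W) (hW2 : 2 ∣ W) (hc2 : 2 ∣ c)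
    (hA : HasProfile A W al) (hB : HasProfile B W be)
    (hst : ∀ ε : ℝ, 0 < ε → ∃ v : ℕ, 2 ≤ v ∧ W ≤ v ∧ 1 / ε ≤ v ∧ ∃ N₀ : ℕ, ∀ N : ℕ, N₀ ≤ N →
      StrucP W v N A B al be ε)
    (hmean : Tendsto (fun N => avgc W c N (rho A B)) atTop
      (𝓝 (prs W c al be (fun _ a b => a * b))))
    (φ : ℝ → ℝ) (hφ : ConvexOn ℝ (Set.Ici 0) φ) (ε : ℝ) (hε : 0 < ε) :
    ∀ᶠ N : ℕ in atTop, avgc W c N (fun n => φ (rho A B n)) ≤ rearr W c al be φ + ε := by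
  obtain ⟨C, _, hC⟩ := rho_le'
  rw [rearr_tm]
  refine pf_upper0 hW1 (rho_nonneg A B) (hC A B) tm_cont.continuousOn
    (fun x _ _ => tm_nonneg (profile_mem hW1 hA) (profile_mem hW1 hB) x) ?_
    (asm_low hW1 hW2 hc2 hA hB hst) φ hφ ε hε
  intro ε hε
  filter_upwards [asm_mean hW1 hA hB hmean ε hε] with N hN
  have := (abs_le.1 hN).2
  linarith

theorem asm_limit (hW1 : 1 ≤ W) (hW2 : 2 ∣ W) (hc2 : 2 ∣ c)
    (hA : HasProfile A W al) (hB : HasProfile B W be)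
    (hst : ∀ ε : ℝ, 0 < ε → ∃ v : ℕ, 2 ≤ v ∧ W ≤ v ∧ 1 / ε ≤ v ∧ ∃ N₀ : ℕ, ∀ N : ℕ, N₀ ≤ N →
      StrucP W v N A B al be ε)
    (hmean : Tendsto (fun N => avgc W c N (rho A B)) atTop
      (𝓝 (prs W c al be (fun _ a b => a * b))))
    (hsharp : ∀ t : ℝ, 0 ≤ t → ∀ ε : ℝ, 0 < ε → ∀ᶠ N : ℕ in atTop,
      avgc W c N (fun n => min (rho A B n) t) ≤ rearr W c al be (fun y => min y t) + ε)
    (hzero : ∀ ε : ℝ, 0 < ε → ∀ᶠ N : ℕ in atTop,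
      rearr W c al be z0 - ε ≤ avgc W c N (fun n => z0 (rho A B n)))
    (φ : ℝ → ℝ) (hφ : ConvexOn ℝ (Set.Ici 0) φ) :
    Tendsto (fun N => avgc W c N (fun n => φ (rho A B n))) atTop (𝓝 (rearr W c al be φ)) := by
  obtain ⟨C, _, hC⟩ := rho_le'
  rw [rearr_tm]
  exact pf_limit hW1 (rho_nonneg A B) (hC A B) tm_cont.continuousOn
    (fun x _ _ => tm_nonneg (profile_mem hW1 hA) (profile_mem hW1 hB) x)
    (asm_mean hW1 hA hB hmean) (asm_low hW1 hW2 hc2 hA hB hst) hsharp hzero φ hφ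

end Pool.Agent.Lib.MP_629a14_nt.Kp
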