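import Pool.Agent.Lib.MP_629a14_nt.Kp.Coset
import Pool.Agent.Lib.MP_629a14_nt.Kp.PfDefs

/-! Pollard's theorem on a fibre, with different thresholds for the pairs of classes. -/

set_option autoImplicit false

namespace Pool.Agent.Lib.MP_629a14_nt.Kp

open Finset

theorem min_avg' {ι : Type} (s : Finset ι) (w z τ : ι → ℝ) (t : ℝ)
    (hw : ∀ i ∈ s, 0 ≤ w i) (hw1 : ∑ i ∈ s, w i * τ i ≤ t) :
    ∑ i ∈ s, w i * min (z i) (τ i) ≤ min (∑ i ∈ s, w i * z i) t := by
  refine le_min (sum_le_sum fun i hi => mul_le_mul_of_nonneg_left (min_le_left _ _) (hw i hi)) ?_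
  exact (sum_le_sum fun i hi => mul_le_mul_of_nonneg_left (min_le_right _ _) (hw i hi)).trans hw1

theorem class_trunc' {H : Type} [AddCommGroup H] [Fintype H] {K : ℝ} (hK0 : 0 ≤ K)
    (hK : ∀ S : AddSubgroup H, S ≠ ⊤ → (Nat.card S : ℝ) ≤ K) {Q : ℝ}
    (hQ : Q = (Fintype.card H : ℝ)) (f g : H → ℝ) {ε α β t : ℝ} (hε : 0 ≤ ε)
    (hf0 : ∀ x, 0 ≤ f x) (hf1 : ∀ x, f x ≤ 1 + ε) (hg0 : ∀ x, 0 ≤ g x) (hg1 : ∀ x, g x ≤ 1 + ε)
    (hfm : |∑ x, f x - α * Q| ≤ ε * Q) (hgm : |∑ x, g x - β * Q| ≤ ε * Q)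
    (hα0 : 0 ≤ α) (hα1 : α ≤ 1) (hβ0 : 0 ≤ β) (hβ1 : β ≤ 1) (ht : 0 ≤ t) :
    Q * (TT α β t - 6 * ε) - K ≤ ∑ x, min ((∑ y, f y * g (x - y)) / Q) t := by
  have h := class_trunc hK0 hK hQ f g (t := min t (min α β)) hε hf0 hf1 hg0 hg1 hfm hgm hα1 hβ1
    (le_min ht (le_min hα0 hβ0)) ((min_le_right _ _).trans (min_le_left _ _))
    ((min_le_right _ _).trans (min_le_right _ _))
  refine h.trans (sum_le_sum fun x _ => ?_)
  exact min_le_min_left _ (min_le_left _ _)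

/-- The truncated convolution on one class. -/
theorem pf_coset {Γ C : Type} [AddCommGroup Γ] [Fintype Γ] [AddCommGroup C] [Fintype C]
    [DecidableEq C] (π : Γ →+ C) (hπ : Function.Surjective π) {K : ℝ} (hK0 : 0 ≤ K)
    (hK : ∀ S : AddSubgroup π.ker, S ≠ ⊤ → (Nat.card S : ℝ) ≤ K) {Q : ℝ}
    (hQ : Q = (Nat.card π.ker : ℝ)) (φ ψ : Γ → ℝ) (U : Finset C) {ε t : ℝ} (hε : 0 ≤ ε)
    (α β τ : C → ℝ)
    (hf0 : ∀ x, 0 ≤ φ x) (hf1 : ∀ x, φ x ≤ 1 + ε) (hg0 : ∀ x, 0 ≤ ψ x) (hg1 : ∀ x, ψ x ≤ 1 + ε)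
    (hfs : ∀ x, π x ∉ U → φ x = 0) (hgs : ∀ x, π x ∉ U → ψ x = 0)
    (hfm : ∀ b ∈ U, |∑ y ∈ univ.filter (fun y => π y = b), φ y - α b * Q| ≤ ε * Q)
    (hgm : ∀ b ∈ U, |∑ y ∈ univ.filter (fun y => π y = b), ψ y - β b * Q| ≤ ε * Q)
    (hα : ∀ b ∈ U, 0 ≤ α b ∧ α b ≤ 1) (hβ : ∀ b ∈ U, 0 ≤ β b ∧ β b ≤ 1) (κ : C)
    (hτ : ∀ b ∈ U, κ - b ∈ U → 0 ≤ τ b)
    (hτ1 : ∑ b ∈ U.filter (fun b => κ - b ∈ U), τ b ≤
      (U.filter (fun b => κ - b ∈ U)).card * t)
    (hU : 0 < (U.filter (fun b => κ - b ∈ U)).card) :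
    Q * ((∑ b ∈ U.filter (fun b => κ - b ∈ U), TT (α b) (β (κ - b)) (τ b)) /
        (U.filter (fun b => κ - b ∈ U)).card - 6 * ε) - K ≤
      ∑ k ∈ univ.filter (fun k => π k = κ),
      min ((∑ y, φ y * ψ (k - y)) / ((U.filter (fun b => κ - b ∈ U)).card * Q)) t := by
  classical
  have hQ' : Q = (Fintype.card π.ker : ℝ) := by rw [hQ, Nat.card_eq_fintype_card]
  have hQ0 : 0 < Q := by
    rw [hQ']
    exact_mod_cast Fintype.card_pos
  set UK : Finset C := U.filter (fun b => κ - b ∈ U) with hUK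
  have hc0 : (0 : ℝ) < (UK.card : ℝ) := by exact_mod_cast hU
  choose lift hlift using hπ
  -- the convolution as a sum over the classes
  have hconv : ∀ k, π k = κ → ∑ y, φ y * ψ (k - y) =
      ∑ b ∈ UK, ∑ h : π.ker, φ (lift b + h) * ψ (k - (lift b + h)) := by
    intro k hk
    rw [sum_fibres (fun y => π y), ← sum_subset (subset_univ UK)]
    · refine sum_congr rfl fun b _ => ?_
      have := fibre_sum π (lift b) (fun y => φ y * ψ (k - y))
      rw [hlift] at this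
      exact this
    · intro b _ hb
      refine sum_eq_zero fun y hy => ?_
      rw [mem_filter] at hy
      rw [hUK, mem_filter] at hb
      push Not at hb
      by_cases hbU : b ∈ U
      · have h3 := hb hbU
        rw [hgs (k - y), mul_zero]
        rw [map_sub, hk, hy.2]
        exact h3
      · rw [hfs y, zero_mul]
        rw [hy.2]
        exact hbU
  have hmain : ∀ b ∈ UK, Q * (TT (α b) (β (κ - b)) (τ b) - 6 * ε) - K ≤
      ∑ x : π.ker, min ((∑ h : π.ker, φ (lift b + h) * ψ (lift κ + x - (lift b + h))) / Q)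
        (τ b) := by
    intro b hb
    rw [hUK, mem_filter] at hb
    have e1 : ∀ x h : π.ker, ψ (lift κ + x - (lift b + h)) =
        (fun z : π.ker => ψ (lift κ - lift b + z)) (x - h) := by
      intro x h
      simp only [AddSubgroup.coe_sub]
      congr 1
      abel
    simp_rw [e1]
    refine class_trunc' hK0 hK hQ' (fun h : π.ker => φ (lift b + h))
      (fun z : π.ker => ψ (lift κ - lift b + z)) hε (fun _ => hf0 _) (fun _ => hf1 _)
      (fun _ => hg0 _) (fun _ => hg1 _) ?_ ?_ (hα b hb.1).1 (hα b hb.1).2 (hβ _ hb.2).1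
      (hβ _ hb.2).2 (hτ b hb.1 hb.2)
    · rw [← fibre_sum, hlift]
      exact hfm b hb.1
    · rw [← fibre_sum π (lift κ - lift b) ψ, map_sub, hlift, hlift]
      exact hgm _ hb.2
  have e2 : ∑ k ∈ univ.filter (fun k => π k = κ),
      min ((∑ y, φ y * ψ (k - y)) / (UK.card * Q)) t =
      ∑ x : π.ker, min ((∑ y, φ y * ψ (lift κ + x - y)) / (UK.card * Q)) t := by
    have := fibre_sum π (lift κ) (fun k => min ((∑ y, φ y * ψ (k - y)) / (UK.card * Q)) t)
    rw [hlift] at this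
    exact this
  rw [e2]
  calc Q * ((∑ b ∈ UK, TT (α b) (β (κ - b)) (τ b)) / UK.card - 6 * ε) - K
      = ∑ b ∈ UK, (1 / (UK.card : ℝ)) * (Q * (TT (α b) (β (κ - b)) (τ b) - 6 * ε) - K) := by
        rw [← mul_sum, sum_sub_distrib, ← mul_sum, sum_sub_distrib, sum_const, sum_const,
          nsmul_eq_mul, nsmul_eq_mul]
        field_simp
    _ ≤ ∑ b ∈ UK, (1 / (UK.card : ℝ)) * ∑ x : π.ker,
          min ((∑ h : π.ker, φ (lift b + h) * ψ (lift κ + x - (lift b + h))) / Q) (τ b) :=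
        sum_le_sum fun b hb => mul_le_mul_of_nonneg_left (hmain b hb) (by positivity)
    _ = ∑ x : π.ker, ∑ b ∈ UK, (1 / (UK.card : ℝ)) *
          min ((∑ h : π.ker, φ (lift b + h) * ψ (lift κ + x - (lift b + h))) / Q) (τ b) := by
        simp_rw [mul_sum]
        rw [sum_comm]
    _ ≤ _ := by
        refine sum_le_sum fun x _ => ?_
        have h3 := min_avg' UK (fun _ => 1 / (UK.card : ℝ))
          (fun b => (∑ h : π.ker, φ (lift b + h) * ψ (lift κ + x - (lift b + h))) / Q) τ t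
          (fun _ _ => by positivity) (by
            rw [← mul_sum, one_div, inv_mul_le_iff₀ hc0]
            exact hτ1)
        refine h3.trans (le_of_eq ?_)
        congr 1
        have hk : π (lift κ + x) = κ := by
          have := x.2
          rw [AddMonoidHom.mem_ker] at this
          rw [map_add, this, add_zero, hlift]
        rw [hconv _ hk, sum_div]
        refine sum_congr rfl fun b _ => ?_
        field_simp

end Pool.Agent.Lib.MP_629a14_nt.Kp
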