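import Pool.Agent.Lib.MP_629a14_nt.Kp.Block
import Pool.Agent.Lib.MP_629a14_nt.Kp.PfDefs

/-! The admissible classes modulo `W` have equally many lifts modulo `R`. -/

set_option autoImplicit false

namespace Pool.Agent.Lib.MP_629a14_nt.Kp

open Finset Pool.Agent.Lib.MP_629a14_nt Pool.Agent.Lib.MP_629a14_nt.Rob

theorem prim_dvd_primorial {p v : ℕ} (hp : p.Prime) (h : p ≤ v) : p ∣ primorial v := by
  rw [primorial]
  exact dvd_prod_of_mem _ (mem_filter.2 ⟨mem_range.2 (by omega), hp⟩)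

theorem dvd_primorial_le {p v : ℕ} (hp : p.Prime) (h : p ∣ primorial v) : p ≤ v := by
  rw [primorial, hp.prime.dvd_finset_prod_iff] at h
  obtain ⟨q, hq, hpq⟩ := h
  rw [mem_filter, mem_range] at hq
  have := (Nat.prime_dvd_prime_iff_eq hp hq.2).1 hpq
  omega

theorem cop_primorial (v x : ℕ) : x.Coprime (primorial v) ↔ ∀ p : ℕ, p.Prime → p ≤ v → ¬ p ∣ x := by
  constructor
  · intro h p hp hpv hpx
    exact Nat.Prime.not_coprime_iff_dvd.2 ⟨p, hp, hpx, prim_dvd_primorial hp hpv⟩ h
  · intro h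
    by_contra hcon
    obtain ⟨p, hp, hpx, hpv⟩ := Nat.Prime.not_coprime_iff_dvd.1 hcon
    exact h p hp (dvd_primorial_le hp hpv) hpx

theorem cop_of_primorial {v W x : ℕ} (hW : 1 ≤ W) (hv : W ≤ v) (h : x.Coprime (primorial v)) :
    x.Coprime W := by
  by_contra hcon
  obtain ⟨p, hp, hpx, hpW⟩ := Nat.Prime.not_coprime_iff_dvd.1 hcon
  exact (cop_primorial v x).1 h p hp ((Nat.le_of_dvd hW hpW).trans hv) hpx

section

variable {R : ℕ} [NeZero R]

theorem val_add_mod {d : ℕ} (hd : d ∣ R) (a b : ZMod R) :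
    (a + b).val ≡ a.val + b.val [MOD d] := by
  rw [ZMod.val_add]
  exact (Nat.mod_modEq _ R).of_dvd hd

theorem val_sub_mod {d : ℕ} (hd : d ∣ R) (a b : ZMod R) :
    (a - b).val + b.val ≡ a.val [MOD d] := by
  have := val_add_mod hd (a - b) b
  rw [sub_add_cancel] at this
  exact this.symm

theorem val_natCast_mod {d : ℕ} (hd : d ∣ R) (n : ℕ) : ((n : ZMod R)).val ≡ n [MOD d] := by
  rw [ZMod.val_natCast]
  exact (Nat.mod_modEq _ R).of_dvd hd

variable {W v c : ℕ}

/-- The class of `κ - b`. -/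
theorem sub_class (hW1 : 1 ≤ W) (hWR : W ∣ R) {κ b : ZMod R} (hκ : κ.val ≡ c [MOD W]) :
    (κ - b).val % W = (c + W - b.val % W) % W := by
  have h1 := val_sub_mod hWR κ b
  have hb : b.val % W < W := Nat.mod_lt _ hW1
  have h2 : (c + W - b.val % W) + b.val ≡ c [MOD W] := by
    have h3 : (c + W - b.val % W) + b.val ≡ (c + W - b.val % W) + b.val % W [MOD W] :=
      Nat.ModEq.add_left _ (Nat.mod_modEq _ _).symm
    have h4 : (c + W - b.val % W) + b.val % W = c + W := by omega
    rw [h4] at h3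
    exact h3.trans (by simp [Nat.ModEq])
  have h5 : (κ - b).val + b.val ≡ (c + W - b.val % W) + b.val [MOD W] :=
    (h1.trans hκ).trans h2.symm
  exact Nat.ModEq.add_right_cancel' _ h5

theorem mem_Uk' {κ b : ZMod R} : b ∈ Uk (primorial v) R κ ↔
    b.val.Coprime (primorial v) ∧ (κ - b).val.Coprime (primorial v) := by
  unfold Uk Uc
  rw [mem_filter, mem_filter, mem_filter]
  simp

theorem mod_mem_adm (hW1 : 1 ≤ W) (hWR : W ∣ R) (hv : W ≤ v) {κ b : ZMod R}
    (hκ : κ.val ≡ c [MOD W]) (hb : b ∈ Uk (primorial v) R κ) : b.val % W ∈ adm W c := by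
  rw [mem_Uk'] at hb
  have h1 := cop_of_primorial hW1 hv hb.1
  have h2 := cop_of_primorial hW1 hv hb.2
  unfold adm
  rw [mem_filter, mem_range]
  refine ⟨Nat.mod_lt _ hW1, ?_, ?_⟩
  · unfold Nat.Coprime
    rw [(Nat.mod_modEq b.val W).gcd_eq]
    exact h1
  · unfold Nat.Coprime
    have h3 : (c + W - b.val % W) ≡ (κ - b).val [MOD W] := (sub_class hW1 hWR hκ).symm
    rw [h3.gcd_eq]
    exact h2

/-- The translation between two fibres. -/
theorem fibre_le (hW1 : 1 ≤ W) (hWR : W ∣ R) (hVR : primorial v ∣ R) (hv : W ≤ v) {κ : ZMod R}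
    (hκ : κ.val ≡ c [MOD W]) {r r' : ℕ} (hr : r ∈ adm W c) (hr' : r' ∈ adm W c) :
    ((Uk (primorial v) R κ).filter (fun b => b.val % W = r)).card ≤
      ((Uk (primorial v) R κ).filter (fun b => b.val % W = r')).card := by
  classical
  unfold adm at hr hr'
  rw [mem_filter, mem_range] at hr hr'
  obtain ⟨hr1, hr2, hr3⟩ := hr
  obtain ⟨hr1', hr2', hr3'⟩ := hr'
  -- the product of the other primes
  obtain ⟨P, hP⟩ : ∃ P : ℕ, P = ∏ p ∈ (range (v + 1)).filter (fun p => p.Prime ∧ ¬ p ∣ W), p :=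
    ⟨_, rfl⟩
  have hPW : P.Coprime W := by
    rw [hP]
    refine Nat.Coprime.prod_left fun p hp => ?_
    rw [mem_filter] at hp
    exact (Nat.Prime.coprime_iff_not_dvd hp.2.1).2 hp.2.2
  obtain ⟨e, he1, he2⟩ := Nat.chineseRemainder hPW.symm (r' + (W - r)) 0
  have hpP : ∀ p : ℕ, p.Prime → p ≤ v → ¬ p ∣ W → p ∣ P := by
    intro p hp hpv hpW
    rw [hP]
    exact dvd_prod_of_mem _ (mem_filter.2 ⟨mem_range.2 (by omega), hp, hpW⟩)
  have hpR : ∀ p : ℕ, p.Prime → p ≤ v → p ∣ R := fun p hp hpv =>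
    (prim_dvd_primorial hp hpv).trans hVR
  -- the values after the translation
  have key : ∀ b : ZMod R, b.val % W = r → (b + (e : ZMod R)).val ≡ r' [MOD W] := by
    intro b hb
    have h1 := val_add_mod hWR b (e : ZMod R)
    have h2 : (e : ZMod R).val ≡ r' + (W - r) [MOD W] := (val_natCast_mod hWR e).trans he1
    have h3 : b.val ≡ r [MOD W] := by
      rw [← hb]
      exact (Nat.mod_modEq _ _).symm
    have h4 : b.val + (e : ZMod R).val ≡ r + (r' + (W - r)) [MOD W] := h3.add h2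
    have h5 : r + (r' + (W - r)) = r' + W := by omega
    rw [h5] at h4
    exact (h1.trans h4).trans (by simp [Nat.ModEq])
  refine card_le_card_of_injOn (fun b => b + (e : ZMod R)) ?_ ?_
  · intro b hb
    rw [mem_coe, mem_filter, mem_Uk', cop_primorial, cop_primorial] at hb
    rw [mem_coe, mem_filter, mem_Uk', cop_primorial, cop_primorial]
    obtain ⟨⟨hb1, hb2⟩, hb3⟩ := hb
    have hk := key b hb3
    refine ⟨⟨fun p hp hpv hpd => ?_, fun p hp hpv hpd => ?_⟩, ?_⟩
    · by_cases hpW : p ∣ W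
      · have h1 : p ∣ r' := ((hk.of_dvd hpW).dvd_iff dvd_rfl).1 hpd
        exact Nat.Prime.not_coprime_iff_dvd.2 ⟨p, hp, h1, hpW⟩ hr2'
      · have h1 := val_add_mod (hpR p hp hpv) b (e : ZMod R)
        have h2 : (e : ZMod R).val ≡ 0 [MOD p] := (val_natCast_mod (hpR p hp hpv) e).trans
          (he2.of_dvd (hpP p hp hpv hpW))
        have h3 : b.val + (e : ZMod R).val ≡ b.val + 0 [MOD p] := Nat.ModEq.add_left _ h2
        rw [add_zero] at h3
        exact hb1 p hp hpv (((h1.trans h3).dvd_iff dvd_rfl).1 hpd)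
    · by_cases hpW : p ∣ W
      · have h0 : (c + W - r') + r' ≡ c [MOD W] := by
          have h4 : (c + W - r') + r' = c + W := by omega
          rw [h4]
          simp [Nat.ModEq]
        have h1 := val_sub_mod hWR κ (b + (e : ZMod R))
        have h2 : (κ - (b + (e : ZMod R))).val + r' ≡ (c + W - r') + r' [MOD W] :=
          ((Nat.ModEq.add_left _ hk).symm.trans (h1.trans hκ)).trans h0.symm
        have h3 := Nat.ModEq.add_right_cancel' _ h2
        have h4 : p ∣ c + W - r' := ((h3.of_dvd hpW).dvd_iff dvd_rfl).1 hpd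
        exact Nat.Prime.not_coprime_iff_dvd.2 ⟨p, hp, h4, hpW⟩ hr3'
      · have hpR' := hpR p hp hpv
        have h1 := val_sub_mod hpR' κ (b + (e : ZMod R))
        have h2 := val_sub_mod hpR' κ b
        have h3 := val_add_mod hpR' b (e : ZMod R)
        have h4 : (e : ZMod R).val ≡ 0 [MOD p] := (val_natCast_mod hpR' e).trans
          (he2.of_dvd (hpP p hp hpv hpW))
        have h5 : (b + (e : ZMod R)).val ≡ b.val [MOD p] := by
          have := h3.trans (Nat.ModEq.add_left _ h4)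
          rwa [add_zero] at this
        have h6 : (κ - (b + (e : ZMod R))).val + b.val ≡ (κ - b).val + b.val [MOD p] :=
          ((Nat.ModEq.add_left _ h5).symm.trans h1).trans h2.symm
        have h7 := Nat.ModEq.add_right_cancel' _ h6
        exact hb2 p hp hpv ((h7.dvd_iff dvd_rfl).1 hpd)
    · have : (b + (e : ZMod R)).val % W = r' % W := hk
      rw [this, Nat.mod_eq_of_lt hr1']
  · intro b _ b' _ h
    exact add_right_cancel h

/-- Averages over the lifts are averages over the admissible classes. -/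
theorem sum_lift (hW1 : 1 ≤ W) (hWR : W ∣ R) (hVR : primorial v ∣ R) (hv : W ≤ v) {κ : ZMod R}
    (hκ : κ.val ≡ c [MOD W]) (h : ℕ → ℝ) :
    ((adm W c).card : ℝ) * ∑ b ∈ Uk (primorial v) R κ, h (b.val % W) =
      (Uk (primorial v) R κ).card * ∑ r ∈ adm W c, h r := by
  classical
  rcases (adm W c).eq_empty_or_nonempty with h0 | ⟨r₀, hr₀⟩
  · rw [h0]
    have : Uk (primorial v) R κ = ∅ := by
      rw [eq_empty_iff_forall_notMem]
      intro b hb
      have := mod_mem_adm hW1 hWR hv hκ hb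
      rw [h0] at this
      exact absurd this (notMem_empty _)
    rw [this]
    simp
  · obtain ⟨L, hL⟩ : ∃ L : ℕ, L =
        ((Uk (primorial v) R κ).filter (fun b => b.val % W = r₀)).card := ⟨_, rfl⟩
    have hcard : ∀ r ∈ adm W c,
        ((Uk (primorial v) R κ).filter (fun b => b.val % W = r)).card = L := by
      intro r hr
      rw [hL]
      exact le_antisymm (fibre_le hW1 hWR hVR hv hκ hr hr₀) (fibre_le hW1 hWR hVR hv hκ hr₀ hr)
    have hmaps : ∀ b ∈ Uk (primorial v) R κ, b.val % W ∈ adm W c := fun b hb =>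
      mod_mem_adm hW1 hWR hv hκ hb
    have h1 : ∑ b ∈ Uk (primorial v) R κ, h (b.val % W) = L * ∑ r ∈ adm W c, h r := by
      rw [← sum_fiberwise_of_maps_to hmaps, mul_sum]
      refine sum_congr rfl fun r hr => ?_
      rw [← hcard r hr, ← nsmul_eq_mul, ← sum_const]
      refine sum_congr rfl fun b hb => ?_
      rw [(mem_filter.1 hb).2]
    have h2 : (Uk (primorial v) R κ).card = (adm W c).card * L := by
      rw [card_eq_sum_card_fiberwise (s := Uk (primorial v) R κ) (f := fun b => b.val % W)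
        (t := adm W c) (fun b hb => mem_coe.2 (hmaps b (mem_coe.1 hb))), sum_congr rfl hcard,
        sum_const, smul_eq_mul]
    rw [h1, h2]
    push_cast
    ring

end

end Pool.Agent.Lib.MP_629a14_nt.Kp
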