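import Pool.Agent.Lib.MP_629a14_nt.Kp.BlockSum
import Pool.Agent.Lib.MP_629a14_nt.Kp.PfCoset
import Pool.Agent.Lib.MP_629a14_nt.Kp.PfUnif

/-! Truncated sums of the local model over the numbers of one residue class in a block. -/

set_option autoImplicit false

namespace Pool.Agent.Lib.MP_629a14_nt.Kp

open Finset Pool.Agent.Lib.MP_629a14_nt Pool.Agent.Lib.MP_629a14_nt.Rob

/-- Averages over the lifts of `G r (al r) (be (c - r))`. -/
theorem prs_lift {R : ℕ} [NeZero R] {W v c : ℕ} (hW1 : 1 ≤ W) (hWR : W ∣ R)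
    (hVR : primorial v ∣ R) (hv : W ≤ v) {κ : ZMod R} (hκ : κ.val ≡ c [MOD W])
    (hU : 0 < (Uk (primorial v) R κ).card) (al be : ℕ → ℝ) (G : ℕ → ℝ → ℝ → ℝ) :
    (∑ b ∈ Uk (primorial v) R κ,
      G (b.val % W) (al (b.val % W)) (be ((κ - b).val % W))) / (Uk (primorial v) R κ).card =
      prs W c al be G := by
  have h1 := sum_lift hW1 hWR hVR hv hκ (fun r => G r (al r) (be ((c + W - r) % W)))
  have h2 : ∑ b ∈ Uk (primorial v) R κ,
      G (b.val % W) (al (b.val % W)) (be ((κ - b).val % W)) =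
      ∑ b ∈ Uk (primorial v) R κ,
        G (b.val % W) (al (b.val % W)) (be ((c + W - b.val % W) % W)) := by
    refine sum_congr rfl fun b _ => ?_
    rw [sub_class hW1 hWR hκ]
  rw [h2]
  unfold prs
  have hA : 0 < (adm W c).card := by
    obtain ⟨b, hb⟩ := card_pos.1 hU
    exact card_pos.2 ⟨_, mod_mem_adm hW1 hWR hv hκ hb⟩
  have hA' : (0 : ℝ) < (adm W c).card := by exact_mod_cast hA
  have hU' : (0 : ℝ) < (Uk (primorial v) R κ).card := by exact_mod_cast hU
  rw [div_eq_div_iff hU'.ne' hA'.ne']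
  linarith

section

variable (R Q : ℕ) [NeZero R] [NeZero Q]

/-- A local model satisfies the conditions of `Loc` which do not concern the means. -/
theorem LocP.loc {W V N : ℕ} {al : ℕ → ℝ} {ε α : ℝ} {f : ℕ → ℝ} (h : LocP W V R Q N al ε f) :
    Loc V R Q 0 α ε f := by
  refine ⟨h.nonneg, h.le, h.supp, h.per, fun x₀ b h1 h2 _ => ?_⟩
  exfalso
  have hR0 : (0 : ℝ) < R := by exact_mod_cast Nat.pos_of_ne_zero (NeZero.ne R)
  have hQ0 : (0 : ℝ) < Q := by exact_mod_cast Nat.pos_of_ne_zero (NeZero.ne Q)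
  have h3 : (0 : ℝ) < R * Q := by positivity
  have h4 : (0 : ℝ) ≤ x₀ := Nat.cast_nonneg _
  simp only [Nat.cast_zero, mul_zero] at h2
  linarith

/-- The classes modulo `R` in the class `c` modulo `W`. -/
def Ec (W c : ℕ) : Finset (ZMod R) := by
  classical
  exact univ.filter (fun b => b.val ≡ c [MOD W])

theorem mem_Ec {W c : ℕ} {b : ZMod R} : b ∈ Ec R W c ↔ b.val ≡ c [MOD W] := by
  unfold Ec
  simp

theorem card_range_mod (W c k : ℕ) (hW : 1 ≤ W) :
    ((range (W * k)).filter (fun n => n ≡ c [MOD W])).card = k := by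
  have h := Nat.count_modEq_card_eq_ceil (W * k) (by omega : 0 < W) c
  have h2 := Nat.count_eq_card_filter_range (fun n => n ≡ c [MOD W]) (W * k)
  rw [← h2]
  have h3 : ((Nat.count (fun n => n ≡ c [MOD W]) (W * k) : ℕ) : ℤ) = k := by
    rw [h]
    push_cast
    have hW' : ((W : ℕ) : ℚ) ≠ 0 := by
      have : (0 : ℚ) < (W : ℕ) := by exact_mod_cast hW
      exact this.ne'
    have e1 : ((W : ℚ) * k - ((c % W : ℕ) : ℚ)) / W = k - ((c % W : ℕ) : ℚ) / W := by
      field_simp
    rw [e1]
    rw [Int.ceil_eq_iff]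
    have h4 : (0 : ℚ) ≤ ((c % W : ℕ) : ℚ) / W := by positivity
    have h5 : ((c % W : ℕ) : ℚ) / W < 1 := by
      rw [div_lt_one (by exact_mod_cast hW)]
      exact_mod_cast Nat.mod_lt _ hW
    constructor
    · push_cast
      linarith
    · push_cast
      linarith
  exact_mod_cast h3

theorem card_Ec {W : ℕ} (c : ℕ) (hW1 : 1 ≤ W) (hWR : W ∣ R) : (W : ℝ) * ((Ec R W c).card : ℝ) = R := by
  obtain ⟨k, hk⟩ := hWR
  have h1 : (Ec R W c).card = ((range R).filter (fun n => n ≡ c [MOD W])).card := by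
    refine card_bij (fun b _ => b.val) ?_ ?_ ?_
    · intro b hb
      rw [mem_Ec] at hb
      rw [mem_filter]
      exact ⟨mem_range.2 (ZMod.val_lt b), hb⟩
    · intro b _ b' _ h
      exact ZMod.val_injective _ h
    · intro n hn
      rw [mem_filter, mem_range] at hn
      refine ⟨(n : ZMod R), ?_, ?_⟩
      · rw [mem_Ec, ZMod.val_natCast, Nat.mod_eq_of_lt hn.1]
        exact hn.2
      · rw [ZMod.val_natCast, Nat.mod_eq_of_lt hn.1]
  have h2 : W * (Ec R W c).card = R := by
    rw [h1]
    conv_lhs => rw [hk]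
    rw [card_range_mod W c k hW1, hk]
  exact_mod_cast h2

theorem mod_red {W : ℕ} (c : ℕ) (hWR : W ∣ R) (y : ZMod (R * Q)) :
    y.val ≡ c [MOD W] ↔ (red R Q y).val ≡ c [MOD W] := by
  rw [red_val]
  have h : y.val % R ≡ y.val [MOD W] := (Nat.mod_modEq _ _).of_dvd hWR
  exact ⟨fun h' => h.trans h', fun h' => h.symm.trans h'⟩

theorem sum_mod {W : ℕ} (c : ℕ) (hWR : W ∣ R) (F : ZMod (R * Q) → ℝ) :
    ∑ y ∈ univ.filter (fun y : ZMod (R * Q) => y.val ≡ c [MOD W]), F y =
      ∑ κ ∈ Ec R W c, ∑ y ∈ univ.filter (fun y : ZMod (R * Q) => red R Q y = κ), F y := by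
  classical
  rw [← sum_fiberwise_of_maps_to (s := univ.filter (fun y : ZMod (R * Q) => y.val ≡ c [MOD W]))
    (t := Ec R W c) (g := fun y => red R Q y) (fun y hy => by
      rw [mem_Ec]
      exact (mod_red R Q c hWR y).1 (mem_filter.1 hy).2)]
  refine sum_congr rfl fun κ hκ => ?_
  refine sum_congr ?_ fun _ _ => rfl
  ext y
  simp only [mem_filter, mem_univ, true_and]
  constructor
  · exact fun h => h.2
  · intro h
    refine ⟨(mod_red R Q c hWR y).2 ?_, h⟩
    rw [h]
    exact (mem_Ec R).1 hκ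

/-- The truncated sum over a class in a block. -/
theorem pf_block {W v N c : ℕ} {al be τ : ℕ → ℝ} {ε t : ℝ} {f g : ℕ → ℝ} (hW1 : 1 ≤ W)
    (hW2 : 2 ∣ W) (hc2 : 2 ∣ c) (hv : 2 ≤ v) (hvW : W ≤ v) (hvε : 1 / ε ≤ v)
    (hR : primorial v ∣ R) (hWR : W ∣ R) (hQ : ∀ p : ℕ, p.Prime → p ∣ Q → v < p)
    (hε : 0 < ε) (hε1 : ε ≤ 1) (hf : LocP W (primorial v) R Q N al ε f)
    (hg : LocP W (primorial v) R Q N be ε g)
    (hal : ∀ r, r < W → r.Coprime W → 0 ≤ al r ∧ al r ≤ 1)
    (hbe : ∀ r, r < W → r.Coprime W → 0 ≤ be r ∧ be r ≤ 1)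
    (hτ : ∀ r ∈ adm W c, 0 ≤ τ r) (hτ1 : prs W c al be (fun r _ _ => τ r) ≤ t) (ht : 0 ≤ t)
    {m i₀ i₁ : ℕ} (hi : i₀ ≤ i₁) (hi1 : i₁ ≤ m) (hm : 1 ≤ m)
    (hb0 : ∀ i ∈ Ico i₀ i₁, ε * N ≤ (i : ℝ) * (R * Q) ∧
      (i : ℝ) * (R * Q) + R * Q ≤ (1 - ε) * N)
    (hb1 : ∀ i ∈ Ico i₀ i₁, ε * N ≤ ((m : ℝ) - i) * (R * Q) ∧
      ((m : ℝ) - i) * (R * Q) + R * Q ≤ (1 - ε) * N) :
    (R * Q : ℝ) / W * (((i₁ : ℝ) - i₀) / (m + 1) *
        (prs W c al be (fun r a b => TT a b (τ r)) - 7 * ε) - 2 * ε) ≤
      ∑ n ∈ (Ico (m * (R * Q)) (m * (R * Q) + R * Q)).filter (fun n => n ≡ c [MOD W]),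
        min (model v f g n) t := by
  classical
  have hR0 : (0 : ℝ) < R := by exact_mod_cast Nat.pos_of_ne_zero (NeZero.ne R)
  have hQ0 : (0 : ℝ) < Q := by exact_mod_cast Nat.pos_of_ne_zero (NeZero.ne Q)
  have hW0 : (0 : ℝ) < W := by exact_mod_cast hW1
  have hv0 : (0 : ℝ) < v := by
    have : (2 : ℝ) ≤ v := by exact_mod_cast hv
    linarith
  have hWs : ∀ m : ℕ, W ∣ m * (R * Q) := fun m => (hWR.mul_right Q).mul_left m
  have hQv : (Q : ℝ) / v ≤ ε * Q := by
    rw [div_le_iff₀ hv0]
    rw [div_le_iff₀ hε] at hvε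
    nlinarith
  have hcastmod : ∀ b : ZMod R, b.val.Coprime (primorial v) →
      b.val % W < W ∧ (b.val % W).Coprime W := by
    intro b hb
    refine ⟨Nat.mod_lt _ hW1, ?_⟩
    unfold Nat.Coprime
    rw [(Nat.mod_modEq b.val W).gcd_eq]
    exact cop_of_primorial hW1 hvW hb
  -- the classes of the block
  have hUpos : ∀ κ ∈ Ec R W c, 0 < (Uk (primorial v) R κ).card := by
    intro κ hκ
    rw [mem_Ec] at hκ
    have hcs := cnt_sig v R κ.val hv hR (((hκ.of_dvd hW2).dvd_iff dvd_rfl).2 hc2)
    rw [cnt_eq, ZMod.natCast_zmod_val] at hcs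
    have h3 : 0 < ((Uk (primorial v) R κ).card : ℝ) * En.kap v ^ 2 := by
      rw [hcs]
      exact mul_pos hR0 (sig_pos' _ _)
    have h4 := pos_of_mul_pos_left h3 (sq_nonneg _)
    exact_mod_cast h4
  -- one convolution
  have hconv : ∀ i ∈ Ico i₀ i₁, (R * Q : ℝ) / W *
      (prs W c al be (fun r a b => TT a b (τ r)) - 7 * ε) ≤
      ∑ k ∈ univ.filter (fun y : ZMod (R * Q) => y.val ≡ c [MOD W]),
        min (cvb R Q f g i (m - i) k / ((Uk (primorial v) R (red R Q k)).card * Q)) t := by
    intro i hi'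
    rw [sum_mod R Q c hWR]
    have him : i < m := by
      rw [mem_Ico] at hi'
      omega
    have hmi : ((m - i : ℕ) : ℝ) = (m : ℝ) - i := by
      rw [Nat.cast_sub him.le]
    calc (R * Q : ℝ) / W * (prs W c al be (fun r a b => TT a b (τ r)) - 7 * ε)
        = ∑ _κ ∈ Ec R W c, ((Q : ℝ) * (prs W c al be (fun r a b => TT a b (τ r)) - 7 * ε)) := by
          rw [sum_const, nsmul_eq_mul, ← card_Ec R c hW1 hWR]
          field_simp
      _ ≤ _ := by
          refine sum_le_sum fun κ hκ => ?_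
          have hU := hUpos κ hκ
          have hU' : (0 : ℝ) < (Uk (primorial v) R κ).card := by exact_mod_cast hU
          rw [mem_Ec] at hκ
          have e1 := prs_lift hW1 hWR hR hvW hκ hU al be (fun r _ _ => τ r)
          have e2 := prs_lift hW1 hWR hR hvW hκ hU al be (fun r a b => TT a b (τ r))
          have h3 := pf_coset (red R Q) (red_surj R Q) (K := (Q : ℝ) / v) (by positivity)
            (fun S hS => ker_sub R Q (by omega) hQ S hS) (Q := (Q : ℝ))
            (by rw [card_ker]) (fun y => f (i * (R * Q) + y.val))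
            (fun y => g ((m - i) * (R * Q) + y.val)) (Uc (primorial v) R) (ε := ε) (t := t) hε.le
            (fun b => al (b.val % W)) (fun b => be (b.val % W)) (fun b => τ (b.val % W))
            (fun _ => hf.nonneg _) (fun _ => hf.le _)
            (fun _ => hg.nonneg _) (fun _ => hg.le _)
            (fun y hy => hf.supp _ fun h => hy (by
              unfold Uc
              rw [mem_filter]
              exact ⟨mem_univ _, (cop_iff R Q hR i y).1 h⟩))
            (fun y hy => hg.supp _ fun h => hy (by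
              unfold Uc
              rw [mem_filter]
              exact ⟨mem_univ _, (cop_iff R Q hR (m - i) y).1 h⟩))
            (fun b hb => by
              rw [sum_class R Q f i b]
              unfold Uc at hb
              refine hf.mean _ _ ?_ ?_ (mem_filter.1 hb).2
                (cop_of_primorial hW1 hvW (mem_filter.1 hb).2)
              · push_cast
                exact (hb0 i hi').1
              · push_cast
                exact (hb0 i hi').2)
            (fun b hb => by
              rw [sum_class R Q g (m - i) b]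
              unfold Uc at hb
              refine hg.mean _ _ ?_ ?_ (mem_filter.1 hb).2
                (cop_of_primorial hW1 hvW (mem_filter.1 hb).2)
              · rw [Nat.cast_mul, hmi]
                push_cast
                exact (hb1 i hi').1
              · rw [Nat.cast_mul, hmi]
                push_cast
                exact (hb1 i hi').2)
            (fun b hb => by
              unfold Uc at hb
              have := hcastmod b (mem_filter.1 hb).2
              exact hal _ this.1 this.2)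
            (fun b hb => by
              unfold Uc at hb
              have := hcastmod b (mem_filter.1 hb).2
              exact hbe _ this.1 this.2) κ
            (fun b hb hb' => hτ _ (mod_mem_adm (v := v) hW1 hWR hvW hκ (by
              unfold Uk
              exact mem_filter.2 ⟨hb, hb'⟩)))
            (by
              have h5 : (∑ b ∈ Uk (primorial v) R κ, τ (b.val % W)) /
                  (Uk (primorial v) R κ).card ≤ t := by
                rw [e1]
                exact hτ1
              rw [div_le_iff₀ hU'] at h5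
              rw [mul_comm]
              exact h5) hU
          have h4 : (Q : ℝ) * (prs W c al be (fun r a b => TT a b (τ r)) - 7 * ε) ≤
              (Q : ℝ) * ((∑ b ∈ Uk (primorial v) R κ,
                TT (al (b.val % W)) (be ((κ - b).val % W)) (τ (b.val % W))) /
                (Uk (primorial v) R κ).card - 6 * ε) - (Q : ℝ) / v := by
            rw [e2]
            nlinarith
          refine (h4.trans h3).trans (le_of_eq ?_)
          refine sum_congr rfl fun k hk => ?_
          rw [mem_filter] at hk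
          rw [hk.2]
          rfl
  have hterm : ∀ k ∈ univ.filter (fun y : ZMod (R * Q) => y.val ≡ c [MOD W]),
      ∑ i ∈ Ico i₀ i₁, 1 / ((m : ℝ) + 1) * min (cvb R Q f g i (m - i) k /
        ((Uk (primorial v) R (red R Q k)).card * Q)) t - 2 * ε ≤
      min (model v f g (m * (R * Q) + k.val)) t := by
    intro k hk
    have h2k : 2 ∣ k.val := ((((mem_filter.1 hk).2).of_dvd hW2).dvd_iff dvd_rfl).2 hc2
    have h3 := min_model_ge R Q hv hR hε.le hε1 (hf.loc R Q (α := 0)) (hg.loc R Q (α := 0))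
      ht hi hi1 hm (ZMod.val_lt k)
      (Nat.dvd_add (hW2.trans (hWs m)) h2k)
    rw [ZMod.natCast_zmod_val] at h3
    exact h3
  have hblock : ∑ n ∈ (Ico (m * (R * Q)) (m * (R * Q) + R * Q)).filter (fun n => n ≡ c [MOD W]),
        min (model v f g n) t =
      ∑ k ∈ univ.filter (fun y : ZMod (R * Q) => y.val ≡ c [MOD W]),
        min (model v f g (m * (R * Q) + k.val)) t := by
    rw [sum_filter, sum_filter,
      sum_block R Q (fun n => if n ≡ c [MOD W] then min (model v f g n) t else 0)]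
    refine sum_congr rfl fun y _ => ?_
    have h0 : m * (R * Q) + y.val ≡ y.val [MOD W] := by
      obtain ⟨d, hd⟩ := hWs m
      rw [hd]
      simp [Nat.ModEq]
    have : m * (R * Q) + y.val ≡ c [MOD W] ↔ y.val ≡ c [MOD W] :=
      ⟨fun h => h0.symm.trans h, fun h => h0.trans h⟩
    by_cases h : y.val ≡ c [MOD W]
    · rw [if_pos h, if_pos (this.2 h)]
    · rw [if_neg h, if_neg fun h' => h (this.1 h')]
  have hcard : ((univ.filter (fun y : ZMod (R * Q) => y.val ≡ c [MOD W])).card : ℝ) =
      (R * Q : ℝ) / W := by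
    have h3 := sum_mod R Q c hWR (fun _ => (1 : ℝ))
    simp only [sum_const, nsmul_eq_mul, mul_one] at h3
    rw [h3]
    have h4 : ∀ κ ∈ Ec R W c,
        ((univ.filter (fun y : ZMod (R * Q) => red R Q y = κ)).card : ℝ) = Q :=
      fun κ _ => by exact_mod_cast card_fibre R Q κ
    rw [sum_congr rfl h4, sum_const, nsmul_eq_mul, ← card_Ec R c hW1 hWR]
    field_simp
  rw [hblock]
  refine le_trans ?_ (sum_le_sum hterm)
  rw [sum_sub_distrib, sum_const, nsmul_eq_mul, hcard, sum_comm]
  have h5 : (R * Q : ℝ) / W * (((i₁ : ℝ) - i₀) / (m + 1) *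
      (prs W c al be (fun r a b => TT a b (τ r)) - 7 * ε)) ≤
      ∑ i ∈ Ico i₀ i₁, ∑ k ∈ univ.filter (fun y : ZMod (R * Q) => y.val ≡ c [MOD W]),
        1 / ((m : ℝ) + 1) * min (cvb R Q f g i (m - i) k /
          ((Uk (primorial v) R (red R Q k)).card * Q)) t := by
    calc (R * Q : ℝ) / W * (((i₁ : ℝ) - i₀) / (m + 1) *
          (prs W c al be (fun r a b => TT a b (τ r)) - 7 * ε))
        = ∑ _i ∈ Ico i₀ i₁, 1 / ((m : ℝ) + 1) *
            ((R * Q : ℝ) / W * (prs W c al be (fun r a b => TT a b (τ r)) - 7 * ε)) := by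
          rw [sum_const, nsmul_eq_mul, Nat.card_Ico, Nat.cast_sub hi]
          field_simp
      _ ≤ _ := by
          refine sum_le_sum fun i hi' => ?_
          rw [← mul_sum]
          exact mul_le_mul_of_nonneg_left (hconv i hi') (by positivity)
  linarith

end

end Pool.Agent.Lib.MP_629a14_nt.Kp
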