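import Pool.Agent.Lib.MP_629a14_nt.Kp.PfExt
import Pool.Agent.Lib.MP_629a14_nt.Kp.Weyl
import Pool.Agent.Lib.MP_629a14_nt.Fourier

/-! Equidistribution of `β n` modulo one for the `n` in a residue class and irrational `β`; the
numbers `q + p` with `q` bounded and `p` prime are rare. -/

set_option autoImplicit false

namespace Pool.Agent.Lib.MP_629a14_nt.Kp

open Finset Filter Topology Pool.Agent.Lib.MP_629a14_nt

theorem tele_sum {W : ℕ} {ζ : ℂ} {a : ℕ → ℂ} (h : ∀ n, a (n + W) = ζ * a n) (N : ℕ) :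
    (ζ - 1) * ∑ n ∈ range N, a n = ∑ n ∈ range W, (a (N + n) - a n) := by
  induction N with
  | zero => simp
  | succ N ih =>
    rw [sum_range_succ, mul_add, ih]
    have h1 : ∑ n ∈ range W, a (N + 1 + n) = ∑ n ∈ range W, a (N + n) + a (N + W) - a N := by
      have h2 := Finset.sum_range_succ (fun n => a (N + n)) W
      have h3 := Finset.sum_range_succ' (fun n => a (N + n)) W
      have h4 : ∑ n ∈ range W, a (N + 1 + n) = ∑ n ∈ range W, a (N + (n + 1)) :=
        sum_congr rfl fun n _ => by congr 1; ring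
      rw [h4]
      rw [h2] at h3
      simp only [add_zero] at h3
      rw [h3]
      ring
    rw [sum_sub_distrib, sum_sub_distrib, h1, h]
    ring

theorem class_sum_le {W : ℕ} (hW : 1 ≤ W) (c : ℕ) (β : ℝ) (hβ : Irrational β) (n : ℤ)
    (hn : n ≠ 0) : ∃ C : ℝ, 0 ≤ C ∧ ∀ N : ℕ,
    ‖∑ m ∈ (Icc 1 N).filter (fun m => m ≡ c [MOD W]), ee (m * (n * β))‖ ≤ C := by
  set ζ : ℂ := ee (W * (n * β)) with hζ
  have hirr : Irrational (W * (n * β)) := by
    have h1 : Irrational ((n : ℝ) * β) := hβ.intCast_mul hn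
    exact_mod_cast h1.natCast_mul (by omega : W ≠ 0)
  have h1 : ζ ≠ 1 := by
    rw [hζ]
    intro h
    obtain ⟨k, hk⟩ := (ee_eq_one_iff _).1 h
    exact hirr.ne_int k hk
  have h1' : 0 < ‖ζ - 1‖ := norm_pos_iff.2 (sub_ne_zero.2 h1)
  set a : ℕ → ℂ := fun m => if m ≡ c [MOD W] then ee (m * (n * β)) else 0 with ha
  have ha1 : ∀ m, a (m + W) = ζ * a m := by
    intro m
    simp only [ha]
    have e1 : (m + W ≡ c [MOD W]) ↔ (m ≡ c [MOD W]) := by
      unfold Nat.ModEq
      rw [Nat.add_mod_right]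
    by_cases hm : m ≡ c [MOD W]
    · rw [if_pos hm, if_pos (e1.2 hm), hζ, ← ee_add]
      congr 1
      push_cast
      ring
    · rw [if_neg hm, if_neg (fun h => hm (e1.1 h)), mul_zero]
  have ha2 : ∀ m, ‖a m‖ ≤ 1 := by
    intro m
    simp only [ha]
    split_ifs
    · rw [norm_ee]
    · simp
  refine ⟨2 * W / ‖ζ - 1‖ + 1, by positivity, fun N => ?_⟩
  have h2 : ∑ m ∈ (Icc 1 N).filter (fun m => m ≡ c [MOD W]), ee (m * (n * β)) =
      ∑ m ∈ range (N + 1), a m - a 0 := by
    rw [sum_filter, sum_range_succ', add_sub_cancel_right]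
    rw [show Icc 1 N = (range N).map ⟨fun m => m + 1, fun x y h => by simpa using h⟩ from ?_,
      sum_map]
    · rfl
    · ext m
      simp only [mem_Icc, Finset.mem_map, mem_range, Function.Embedding.coeFn_mk]
      constructor
      · rintro ⟨h3, h4⟩
        exact ⟨m - 1, by omega, by omega⟩
      · rintro ⟨k, h3, rfl⟩
        omega
  have h3 : ‖∑ m ∈ range (N + 1), a m‖ ≤ 2 * W / ‖ζ - 1‖ := by
    rw [le_div_iff₀ h1', mul_comm, ← norm_mul, tele_sum ha1]
    refine (norm_sum_le _ _).trans ?_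
    have : ∀ m ∈ range W, ‖a (N + 1 + m) - a m‖ ≤ 2 := fun m _ =>
      (norm_sub_le _ _).trans (by linarith [ha2 (N + 1 + m), ha2 m])
    refine (sum_le_sum this).trans ?_
    rw [sum_const, card_range, nsmul_eq_mul, mul_comm]
  rw [h2]
  refine (norm_sub_le _ _).trans ?_
  linarith [ha2 0]

theorem class_card {W : ℕ} (hW : 1 ≤ W) (c : ℕ) :
    Tendsto (fun N : ℕ => (W : ℝ) / N * ((Icc 1 N).filter (fun m => m ≡ c [MOD W])).card) atTop
      (𝓝 1) := by
  rw [Metric.tendsto_atTop]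
  intro ε hε
  obtain ⟨N₀, h⟩ := eventually_atTop.1 (avgc_one_ev hW c (ε / 2) (by positivity))
  refine ⟨N₀, fun N hN => ?_⟩
  have h1 := h N hN
  unfold avgc at h1
  rw [Real.dist_eq]
  rw [sum_const, nsmul_eq_mul, mul_one] at h1
  linarith

theorem class_arc {W : ℕ} (hW : 1 ≤ W) (c : ℕ) (β : ℝ) (hβ : Irrational β) (a b : ℝ) (ha : 0 ≤ a)
    (hab : a ≤ b) (hb : b ≤ 1) :
    Tendsto (fun N : ℕ => (W : ℝ) / N * ((Icc 1 N).filter (fun m : ℕ => m ≡ c [MOD W] ∧
      a ≤ Int.fract (β * m) ∧ Int.fract (β * m) < b)).card) atTop (𝓝 (b - a)) := by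
  have hcard := class_card hW c
  have hpos : ∀ᶠ N : ℕ in atTop, 0 < ((Icc 1 N).filter (fun m => m ≡ c [MOD W])).card := by
    have h1 := hcard.eventually (lt_mem_nhds (show (0 : ℝ) < 1 by norm_num))
    filter_upwards [h1] with N hN
    rcases Nat.eq_zero_or_pos ((Icc 1 N).filter (fun m => m ≡ c [MOD W])).card with h2 | h2
    · rw [h2] at hN
      simp at hN
    · exact h2
  have h0 : ∀ᶠ N : ℕ in atTop, ((Icc 1 N).filter (fun m => m ≡ c [MOD W])).Nonempty := by
    filter_upwards [hpos] with N hN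
    exact card_pos.1 hN
  have hweyl : ∀ n : ℤ, n ≠ 0 → Tendsto (fun N => wavg ((Icc 1 N).filter
      (fun m => m ≡ c [MOD W])) (fun p => β * p) (fourier n)) atTop (𝓝 0) := by
    intro n hn
    obtain ⟨C, hC0, hC⟩ := class_sum_le hW c β hβ n hn
    have h1 : Tendsto (fun N : ℕ => (C * (W / (N : ℝ))) /
        ((W : ℝ) / N * ((Icc 1 N).filter (fun m => m ≡ c [MOD W])).card)) atTop
        (𝓝 ((C * 0) / 1)) :=
      ((tendsto_const_div_atTop_nhds_zero_nat (W : ℝ)).const_mul C).div hcard (by norm_num)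
    rw [mul_zero, zero_div] at h1
    rw [tendsto_zero_iff_norm_tendsto_zero]
    refine squeeze_zero' (Eventually.of_forall fun N => norm_nonneg _) ?_ h1
    filter_upwards [hpos, eventually_ge_atTop 1] with N hN hN1
    have hN2 : (0 : ℝ) < ((Icc 1 N).filter (fun m => m ≡ c [MOD W])).card := by exact_mod_cast hN
    have hNr : (0 : ℝ) < N := by exact_mod_cast hN1
    have hWr : (0 : ℝ) < W := by exact_mod_cast hW
    unfold wavg
    rw [norm_div, Complex.norm_natCast]
    have h2 : ∑ p ∈ (Icc 1 N).filter (fun m => m ≡ c [MOD W]),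
        (fourier n) (((β * p : ℝ)) : UnitAddCircle) =
        ∑ p ∈ (Icc 1 N).filter (fun m => m ≡ c [MOD W]), ee (p * (n * β)) := by
      refine Finset.sum_congr rfl fun p _ => ?_
      rw [fourier_coe_apply]
      unfold ee
      congr 1
      push_cast
      ring
    rw [h2]
    have h3 : (C * (W / (N : ℝ))) / ((W : ℝ) / N *
        ((Icc 1 N).filter (fun m => m ≡ c [MOD W])).card) =
        C / ((Icc 1 N).filter (fun m => m ≡ c [MOD W])).card := by
      field_simp
    rw [h3]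
    exact div_le_div_of_nonneg_right (hC N) hN2.le
  have h1 := arc (fun N => (Icc 1 N).filter (fun m => m ≡ c [MOD W])) (fun p => β * p) h0
    hweyl ha hab hb
  have h2 := h1.mul hcard
  rw [mul_one] at h2
  refine h2.congr' ?_
  filter_upwards [hpos] with N hN
  have hN2 : (0 : ℝ) < ((Icc 1 N).filter (fun m => m ≡ c [MOD W])).card := by exact_mod_cast hN
  rw [Finset.filter_filter]
  field_simp

/-- The `n ≤ N` which are the sum of a prime and a number `≤ K` are rare. -/
theorem rare (K : ℕ) (ε : ℝ) (hε : 0 < ε) : ∀ᶠ N : ℕ in atTop,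
    (((Icc 1 N).filter (fun n => ∃ q ≤ K, q ≤ n ∧ (n - q).Prime)).card : ℝ) ≤ ε * N := by
  have h1 := Chebyshev.eventually_primeCounting_le (ε := 1) one_pos
  have h2 : Tendsto (fun N : ℕ => Real.log (N : ℝ)) atTop atTop :=
    Real.tendsto_log_atTop.comp tendsto_natCast_atTop_atTop
  have h3 := h2.eventually_ge_atTop ((K + 1) * (Real.log 4 + 1) / ε)
  filter_upwards [tendsto_natCast_atTop_atTop.eventually h1, h3, eventually_ge_atTop 2] with N h4 h5
    h6
  rw [Nat.floor_natCast] at h4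
  have hN : (0 : ℝ) < N := by
    have : 0 < N := by omega
    exact_mod_cast this
  have hlog : 0 < Real.log N := Real.log_pos (by
    have : (2 : ℝ) ≤ N := by exact_mod_cast h6
    linarith)
  have h7 : ((Icc 1 N).filter (fun n => ∃ q ≤ K, q ≤ n ∧ (n - q).Prime)).card ≤
      (K + 1) * Nat.primeCounting N := by
    have h8 : (Icc 1 N).filter (fun n => ∃ q ≤ K, q ≤ n ∧ (n - q).Prime) ⊆
        (range (K + 1) ×ˢ Nat.primesLE N).image (fun z => z.1 + z.2) := by
      intro n hn
      rw [mem_filter, mem_Icc] at hn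
      obtain ⟨⟨h9, h10⟩, q, h11, h12, h13⟩ := hn
      rw [mem_image]
      refine ⟨(q, n - q), ?_, by simp; omega⟩
      rw [mem_product, mem_range, Nat.mem_primesLE]
      exact ⟨by simp; omega, by simp; omega, h13⟩
    refine (card_le_card h8).trans (card_image_le.trans ?_)
    rw [card_product, card_range, Nat.primesLE_card_eq_primeCounting]
  have h8 : (((Icc 1 N).filter (fun n => ∃ q ≤ K, q ≤ n ∧ (n - q).Prime)).card : ℝ) ≤
      (K + 1) * Nat.primeCounting N := by exact_mod_cast h7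
  refine h8.trans ?_
  have h9 : (K + 1 : ℝ) * Nat.primeCounting N ≤ (K + 1) * ((Real.log 4 + 1) * N / Real.log N) :=
    mul_le_mul_of_nonneg_left h4 (by positivity)
  refine h9.trans ?_
  rw [div_le_iff₀ hε] at h5
  rw [← mul_div_assoc, div_le_iff₀ hlog]
  nlinarith

end Pool.Agent.Lib.MP_629a14_nt.Kp
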