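import Pool.Agent.Lib.MP_629a14_nt.Kp.GDefs
import Pool.Agent.Lib.MP_629a14_nt.Rob.PiAP

/-! Sets of primes with given densities in the residue classes: counts in intervals. -/

set_option autoImplicit false

namespace Pool.Agent.Lib.MP_629a14_nt.Kp

open Finset Filter Topology Pool.Agent.Lib.MP_629a14_nt Pool.Agent.Lib.MP_629a14_nt.Rob
open Pool.Agent.Lib.MP_629a14_nt.Ml

private theorem pdens_primesIn (A : Set ℕ) (R b x : ℕ) :
    primesIn A R b x = cntA A R b x := by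
  classical
  unfold primesIn cntA
  rw [← Set.ncard_coe_finset]
  congr 1
  ext p
  simp only [Set.mem_ofPred_eq, coe_filter, mem_Icc]
  constructor
  · rintro ⟨h1, h2, h3, h4⟩
    exact ⟨⟨h2.one_le, h1⟩, h2, h3, h4⟩
  · rintro ⟨⟨h0, h1⟩, h2, h3, h4⟩
    exact ⟨h1, h2, h3, h4⟩

private theorem pdens_univ (R b x : ℕ) :
    cntA Set.univ R b x = ((Icc 1 x).filter (fun n => n.Prime ∧ n ≡ b [MOD R])).card := by
  classical
  unfold cntA
  congr 1
  ext p
  simp only [mem_filter, Set.mem_univ, true_and]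

private theorem pdens_le (A : Set ℕ) (R b x : ℕ) : cntA A R b x ≤ cntA Set.univ R b x := by
  classical
  unfold cntA
  refine card_le_card fun p hp => ?_
  simp only [mem_filter, Set.mem_univ, true_and] at hp ⊢
  exact ⟨hp.1, hp.2.1, hp.2.2.2⟩

private theorem pdens_card (A : Set ℕ) (R b x : ℕ) : cntA A R b x ≤ x := by
  classical
  unfold cntA
  refine (card_filter_le _ _).trans ?_
  rw [Nat.card_Icc, Nat.add_sub_cancel]

/-- `pi_unif` for the number of all primes, and the density of the class for `x ≥ x₁`; for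
`x ≤ x₁` both terms are at most `ε X` for large `X`. -/
theorem dens_at {A : Set ℕ} {α : ℝ} (R b : ℕ) (hR : 1 ≤ R)
    (hb : b.Coprime R)
    (hA : Tendsto (fun x : ℕ => (primesIn A R b x : ℝ) / primesIn Set.univ R b x) atTop (𝓝 α))
    (ε : ℝ) (hε : 0 < ε) : ∃ X₀ : ℕ, ∀ X : ℕ, X₀ ≤ X → ∀ x : ℕ, x ≤ X →
      |Real.log X * (cntA A R b x : ℝ) - α * x / R.totient| ≤ ε * X := by
  classical
  have hφ : (1 : ℝ) ≤ R.totient := by
    have := Nat.totient_pos.2 (show 0 < R by omega)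
    exact_mod_cast this
  have hφ0 : (0 : ℝ) < R.totient := by linarith
  -- the density
  have h1 := hA
  rw [Metric.tendsto_atTop] at h1
  obtain ⟨x₁, hx₁⟩ := h1 (ε / 8) (by positivity)
  have hden : ∀ x : ℕ, x₁ ≤ x → |(cntA A R b x : ℝ) - α * (cntA Set.univ R b x : ℝ)| ≤
      ε / 8 * (cntA Set.univ R b x : ℝ) := by
    intro x hx
    rcases Nat.eq_zero_or_pos (cntA Set.univ R b x) with h0 | hpos
    · have h2 : cntA A R b x = 0 := by
        have := pdens_le A R b x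
        omega
      rw [h0, h2]
      simp
    · have h2 := hx₁ x hx
      rw [pdens_primesIn, pdens_primesIn, Real.dist_eq] at h2
      have hpos' : (0 : ℝ) < (cntA Set.univ R b x : ℝ) := by exact_mod_cast hpos
      have h3 : (cntA A R b x : ℝ) - α * (cntA Set.univ R b x : ℝ) =
          ((cntA A R b x : ℝ) / (cntA Set.univ R b x : ℝ) - α) * (cntA Set.univ R b x : ℝ) := by
        field_simp
      rw [h3, abs_mul, abs_of_pos hpos']
      exact mul_le_mul_of_nonneg_right h2.le hpos'.le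
  -- all primes
  obtain ⟨ε', hε'⟩ : ∃ ε' : ℝ, ε' = min 1 (ε / (4 * (|α| + 1))) := ⟨_, rfl⟩
  have hα0 : 0 ≤ |α| := abs_nonneg α
  have hε'0 : 0 < ε' := by
    rw [hε']
    exact lt_min one_pos (by positivity)
  have hε'1 : ε' ≤ 1 := by
    rw [hε']
    exact min_le_left _ _
  have hε'2 : |α| * ε' ≤ ε / 4 := by
    have h2 : ε' ≤ ε / (4 * (|α| + 1)) := by
      rw [hε']
      exact min_le_right _ _
    rw [le_div_iff₀ (by positivity)] at h2
    nlinarith
  obtain ⟨N₀, hN₀⟩ := pi_unif R b hR hb ε' hε'0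
  -- small x
  have hlog := PiAP.log_pow_div 1
  rw [Metric.tendsto_atTop] at hlog
  obtain ⟨N₁, hN₁⟩ := hlog (ε / (2 * (x₁ + 1))) (by positivity)
  obtain ⟨N₂, hN₂⟩ := exists_nat_gt (2 * (|α| * x₁) / ε)
  refine ⟨max (max N₀ N₁) (max N₂ 1), fun X hX x hxX => ?_⟩
  have hX0 : N₀ ≤ X := (le_max_left _ _).trans ((le_max_left _ _).trans hX)
  have hX1 : N₁ ≤ X := (le_max_right _ _).trans ((le_max_left _ _).trans hX)
  have hX2 : N₂ ≤ X := (le_max_left _ _).trans ((le_max_right _ _).trans hX)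
  have hX3 : 1 ≤ X := (le_max_right _ _).trans ((le_max_right _ _).trans hX)
  have hXpos : (0 : ℝ) < X := by exact_mod_cast hX3
  have hlog0 : 0 ≤ Real.log X := Real.log_natCast_nonneg X
  have hxX' : (x : ℝ) ≤ X := by exact_mod_cast hxX
  have hx0 : (0 : ℝ) ≤ x := Nat.cast_nonneg x
  have hxφ : (x : ℝ) / R.totient ≤ x := by
    rw [div_le_iff₀ hφ0]
    nlinarith
  have hxφ0 : 0 ≤ (x : ℝ) / R.totient := by positivity
  rcases le_or_gt x₁ x with hx | hx
  · have h2 := hN₀ X hX0 x hxX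
    rw [← pdens_univ] at h2
    have h3 := hden x hx
    have h4 : (Real.log X * (cntA A R b x : ℝ) - α * x / R.totient) =
        Real.log X * ((cntA A R b x : ℝ) - α * (cntA Set.univ R b x : ℝ)) +
          α * (Real.log X * (cntA Set.univ R b x : ℝ) - (x : ℝ) / R.totient) := by ring
    have h5 : Real.log X * (cntA Set.univ R b x : ℝ) ≤ 2 * X := by
      have h6 := (abs_le.1 h2).2
      nlinarith
    rw [h4]
    refine (abs_add_le _ _).trans ?_
    rw [abs_mul, abs_mul, abs_of_nonneg hlog0]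
    have h6 : Real.log X * |(cntA A R b x : ℝ) - α * (cntA Set.univ R b x : ℝ)| ≤
        ε / 8 * (Real.log X * (cntA Set.univ R b x : ℝ)) := by
      have := mul_le_mul_of_nonneg_left h3 hlog0
      linarith
    have h7 : ε / 8 * (Real.log X * (cntA Set.univ R b x : ℝ)) ≤ ε / 8 * (2 * X) :=
      mul_le_mul_of_nonneg_left h5 (by positivity)
    have h8 : |α| * |Real.log X * (cntA Set.univ R b x : ℝ) - (x : ℝ) / R.totient| ≤
        |α| * (ε' * X) := mul_le_mul_of_nonneg_left h2 hα0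
    have h9 : |α| * (ε' * X) ≤ ε / 4 * X := by
      have := mul_le_mul_of_nonneg_right hε'2 hXpos.le
      linarith
    have h10 : 0 < ε * X := by positivity
    linarith
  · have hx1 : (x : ℝ) ≤ x₁ := by exact_mod_cast hx.le
    have h2 := hN₁ X hX1
    rw [Real.dist_eq, sub_zero, pow_one, abs_of_nonneg (div_nonneg hlog0 hXpos.le),
      div_lt_div_iff₀ hXpos (by positivity)] at h2
    have hx10 : (0 : ℝ) ≤ x₁ := Nat.cast_nonneg x₁
    have hc : (cntA A R b x : ℝ) ≤ x₁ := by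
      have : (cntA A R b x : ℝ) ≤ x := by exact_mod_cast pdens_card A R b x
      linarith
    have hc0 : (0 : ℝ) ≤ (cntA A R b x : ℝ) := Nat.cast_nonneg _
    have h3 : Real.log X * (cntA A R b x : ℝ) ≤ ε / 2 * X := by
      have h4 : Real.log X * (cntA A R b x : ℝ) ≤ Real.log X * x₁ :=
        mul_le_mul_of_nonneg_left hc hlog0
      nlinarith
    have h4 : |α * x / R.totient| ≤ ε / 2 * X := by
      rw [mul_div_assoc, abs_mul, abs_of_nonneg hxφ0]
      have h5 : |α| * ((x : ℝ) / R.totient) ≤ |α| * x₁ :=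
        mul_le_mul_of_nonneg_left (by linarith) hα0
      rw [div_lt_iff₀ hε] at hN₂
      have h6 : (N₂ : ℝ) ≤ X := by exact_mod_cast hX2
      nlinarith
    refine (abs_sub _ _).trans ?_
    rw [abs_of_nonneg (mul_nonneg hlog0 hc0)]
    linarith

private theorem pdens_congr (A : Set ℕ) (R b b' x : ℕ) (h : b ≡ b' [MOD R]) :
    cntA A R b x = cntA A R b' x := by
  classical
  unfold cntA
  congr 1
  refine filter_congr fun p _ => ?_
  constructor
  · rintro ⟨h1, h2, h3⟩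
    exact ⟨h1, h2, h3.trans h⟩
  · rintro ⟨h1, h2, h3⟩
    exact ⟨h1, h2, h3.trans h.symm⟩

/-- One threshold for all classes. -/
theorem prof_unif {A : Set ℕ} {W : ℕ} {al : ℕ → ℝ} (hA : HasProfile A W al) (R : ℕ) (hR : 1 ≤ R)
    (hWR : W ∣ R) (ε : ℝ) (hε : 0 < ε) : ∃ X₀ : ℕ, ∀ X : ℕ, X₀ ≤ X → ∀ b : ℕ, b.Coprime R →
      ∀ x : ℕ, x ≤ X → |Real.log X * (cntA A R b x : ℝ) - al (b % W) * x / R.totient| ≤ ε * X := by
  classical
  have h1 : ∀ b : ℕ, ∃ X₁ : ℕ, b.Coprime R → ∀ X : ℕ, X₁ ≤ X → ∀ x : ℕ, x ≤ X →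
      |Real.log X * (cntA A R b x : ℝ) - al (b % W) * x / R.totient| ≤ ε * X := by
    intro b
    by_cases hb : b.Coprime R
    · obtain ⟨X₁, h⟩ := dens_at R b hR hb (hA R b hR hWR hb) ε hε
      exact ⟨X₁, fun _ => h⟩
    · exact ⟨0, fun h => absurd h hb⟩
  choose X₁ hX₁ using h1
  refine ⟨(range R).sup X₁, fun X hX b hb x hx => ?_⟩
  have hbm : (b % R) ≡ b [MOD R] := Nat.mod_modEq b R
  have hbc : (b % R).Coprime R := by
    have := hbm.gcd_eq
    unfold Nat.Coprime at hb ⊢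
    rw [this, hb]
  have h2 := hX₁ (b % R) hbc X ((le_sup (mem_range.2 (Nat.mod_lt b (by omega)))).trans hX) x hx
  rw [pdens_congr A R _ _ x hbm, Nat.mod_mod_of_dvd b hWR] at h2
  exact h2

/-- The number of elements of a class in an interval as a difference. -/
theorem cntI_eq (A : Set ℕ) (R : ℕ) (x y b : ℤ) (b' : ℕ) (hb : (b' : ℤ) ≡ b [ZMOD R])
    (h1 : 1 ≤ x) (h2 : x ≤ y) : (cntI A R x y b : ℝ) =
      (cntA A R b' (y.toNat - 1) : ℝ) - cntA A R b' (x.toNat - 1) := by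
  classical
  have hmod : ∀ p : ℕ, (p : ℤ) ≡ b [ZMOD R] ↔ p ≡ b' [MOD R] := by
    intro p
    rw [← Int.natCast_modEq_iff]
    exact ⟨fun h => h.trans hb.symm, fun h => h.trans hb⟩
  have h3 : ((Icc 1 (y.toNat - 1)).filter (fun p => p.Prime ∧ p ∈ A ∧ p ≡ b' [MOD R])) =
      ((range y.toNat).filter (fun p : ℕ => p.Prime ∧ p ∈ A ∧ x ≤ (p : ℤ) ∧
        (p : ℤ) ≡ b [ZMOD R])) ∪
        ((Icc 1 (x.toNat - 1)).filter (fun p => p.Prime ∧ p ∈ A ∧ p ≡ b' [MOD R])) := by
    ext p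
    simp only [mem_union, mem_filter, mem_Icc, mem_range, hmod]
    constructor
    · rintro ⟨⟨h5, h6⟩, h7⟩
      by_cases h8 : x ≤ (p : ℤ)
      · exact Or.inl ⟨by omega, h7.1, h7.2.1, h8, h7.2.2⟩
      · exact Or.inr ⟨⟨h5, by omega⟩, h7⟩
    · rintro (⟨h5, h6, h7, h8, h9⟩ | ⟨⟨h5, h6⟩, h7⟩)
      · have := h6.one_lt
        exact ⟨⟨by omega, by omega⟩, h6, h7, h9⟩
      · exact ⟨⟨h5, by omega⟩, h7⟩
  have h4 : Disjoint ((range y.toNat).filter (fun p : ℕ => p.Prime ∧ p ∈ A ∧ x ≤ (p : ℤ) ∧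
        (p : ℤ) ≡ b [ZMOD R]))
      ((Icc 1 (x.toNat - 1)).filter (fun p => p.Prime ∧ p ∈ A ∧ p ≡ b' [MOD R])) := by
    rw [disjoint_left]
    intro p hp hp'
    simp only [mem_filter, mem_Icc, mem_range] at hp hp'
    omega
  unfold cntI cntA
  rw [h3, card_union_of_disjoint h4]
  push_cast
  ring

/-- The normalised number of elements of a class in an interval. -/
theorem cntI_close {A : Set ℕ} {R N : ℕ} {a ε : ℝ} (x y b : ℤ) (b' : ℕ)
    (hb : (b' : ℤ) ≡ b [ZMOD R]) (h1 : 1 ≤ x) (h2 : x ≤ y) (h3 : y ≤ N + 1)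
    (h : ∀ z : ℕ, z ≤ N → |Real.log N * (cntA A R b' z : ℝ) - a * z / R.totient| ≤ ε * N) :
    |Real.log N * (cntI A R x y b : ℝ) - a * ((y : ℝ) - x) / R.totient| ≤ 2 * (ε * N) := by
  rw [cntI_eq A R x y b b' hb h1 h2]
  have g1 := h (y.toNat - 1) (by omega)
  have g2 := h (x.toNat - 1) (by omega)
  have e1 : ((y.toNat - 1 : ℕ) : ℝ) = (y : ℝ) - 1 := by
    rw [Nat.cast_sub (by omega)]
    have : ((y.toNat : ℤ) : ℝ) = (y : ℝ) := by rw [Int.toNat_of_nonneg (by omega)]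
    rw [← this]
    push_cast
    ring
  have e2 : ((x.toNat - 1 : ℕ) : ℝ) = (x : ℝ) - 1 := by
    rw [Nat.cast_sub (by omega)]
    have : ((x.toNat : ℤ) : ℝ) = (x : ℝ) := by rw [Int.toNat_of_nonneg (by omega)]
    rw [← this]
    push_cast
    ring
  rw [e1] at g1
  rw [e2] at g2
  have e : Real.log N * ((cntA A R b' (y.toNat - 1) : ℝ) - cntA A R b' (x.toNat - 1)) -
      a * ((y : ℝ) - x) / R.totient =
      (Real.log N * (cntA A R b' (y.toNat - 1) : ℝ) - a * ((y : ℝ) - 1) / R.totient) -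
      (Real.log N * (cntA A R b' (x.toNat - 1) : ℝ) - a * ((x : ℝ) - 1) / R.totient) := by ring
  rw [e]
  refine (abs_sub _ _).trans ?_
  linarith

end Pool.Agent.Lib.MP_629a14_nt.Kp
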