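import Pool.Agent.Lib.MP_629a14_nt.Kp.PfTrunc
import Pool.Agent.Lib.MP_629a14_nt.Kp.PfRL

/-! The lower bound for the truncated means in terms of the rearranged profile. -/

set_option autoImplicit false

namespace Pool.Agent.Lib.MP_629a14_nt.Kp

open Finset Filter Topology Pool.Agent.Lib.MP_629a14_nt Pool.Agent.Lib.MP_629a14_nt.Rob

/-- The truncated means of `rho A B` on the class `c` modulo `W` are at least the rearranged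
value, up to `ε`. -/
theorem low_pf_of {A B : Set ℕ} {W c : ℕ} {al be : ℕ → ℝ} (hW1 : 1 ≤ W)
    (hW2 : 2 ∣ W) (hc2 : 2 ∣ c)
    (hst : ∀ ε : ℝ, 0 < ε → ∃ v : ℕ, 2 ≤ v ∧ W ≤ v ∧ 1 / ε ≤ v ∧ ∃ N₀ : ℕ, ∀ N : ℕ, N₀ ≤ N →
      StrucP W v N A B al be ε)
    (hal : ∀ r, r < W → r.Coprime W → 0 ≤ al r ∧ al r ≤ 1)
    (hbe : ∀ r, r < W → r.Coprime W → 0 ≤ be r ∧ be r ≤ 1)
    {t : ℝ} (ht : 0 ≤ t) (ε : ℝ) (hε : 0 < ε) : ∃ N₀ : ℕ, ∀ N : ℕ, N₀ ≤ N →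
      rearr W c al be (fun y => min y t) - ε ≤ avgc W c N (fun n => min (rho A B n) t) := by
  obtain ⟨τ, h1, h2, h3⟩ := prs_low (W := W) (c := c) hal hbe ht
  rw [h3]
  exact trunc_pf_of hW1 hW2 hc2 hst hal hbe h1 h2 ε hε

end Pool.Agent.Lib.MP_629a14_nt.Kp
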