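import Pool.Agent.Lib.MP_629a14_nt.Kp.PfBlock
import Pool.Agent.Lib.MP_629a14_nt.Kp.All

/-! Lower bounds for the truncated means on a residue class. -/

set_option autoImplicit false

namespace Pool.Agent.Lib.MP_629a14_nt.Kp

open Finset Filter Topology Pool.Agent.Lib.MP_629a14_nt Pool.Agent.Lib.MP_629a14_nt.Rob

theorem TT_mem {a b t : ℝ} (ha0 : 0 ≤ a) (ha1 : a ≤ 1) (hb0 : 0 ≤ b) (ht : 0 ≤ t) :
    0 ≤ TT a b t ∧ TT a b t ≤ 1 := by
  unfold TT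
  have h1 : 0 ≤ min t (min a b) := le_min ht (le_min ha0 hb0)
  have h2 : min t (min a b) ≤ a := (min_le_right _ _).trans (min_le_left _ _)
  have h3 : min t (min a b) ≤ b := (min_le_right _ _).trans (min_le_right _ _)
  have h4 : 0 ≤ min 1 (a + b - min t (min a b)) := le_min zero_le_one (by linarith)
  have h5 : min 1 (a + b - min t (min a b)) ≤ 1 := min_le_left _ _
  refine ⟨mul_nonneg h1 h4, ?_⟩
  calc min t (min a b) * min 1 (a + b - min t (min a b)) ≤ 1 * 1 :=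
        mul_le_mul (h2.trans ha1) h5 h4 zero_le_one
    _ = 1 := one_mul 1

theorem adm_mem1 {W c r : ℕ} (hW1 : 1 ≤ W) (h : r ∈ adm W c) :
    (r < W ∧ r.Coprime W) ∧ (c + W - r) % W < W ∧ ((c + W - r) % W).Coprime W := by
  unfold adm at h
  rw [mem_filter, mem_range] at h
  refine ⟨⟨h.1, h.2.1⟩, Nat.mod_lt _ hW1, ?_⟩
  unfold Nat.Coprime
  rw [(Nat.mod_modEq (c + W - r) W).gcd_eq]
  exact h.2.2

theorem prs_mem {W c : ℕ} {al be τ : ℕ → ℝ} (hW1 : 1 ≤ W)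
    (hal : ∀ r, r < W → r.Coprime W → 0 ≤ al r ∧ al r ≤ 1)
    (hbe : ∀ r, r < W → r.Coprime W → 0 ≤ be r ∧ be r ≤ 1)
    (hτ : ∀ r ∈ adm W c, 0 ≤ τ r) :
    0 ≤ prs W c al be (fun r a b => TT a b (τ r)) ∧
      prs W c al be (fun r a b => TT a b (τ r)) ≤ 1 := by
  have h : ∀ r ∈ adm W c, 0 ≤ TT (al r) (be ((c + W - r) % W)) (τ r) ∧
      TT (al r) (be ((c + W - r) % W)) (τ r) ≤ 1 := by
    intro r hr
    have h1 := adm_mem1 hW1 hr
    exact TT_mem (hal r h1.1.1 h1.1.2).1 (hal r h1.1.1 h1.1.2).2 (hbe _ h1.2.1 h1.2.2).1 (hτ r hr)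
  unfold prs
  refine ⟨div_nonneg (sum_nonneg fun r hr => (h r hr).1) (Nat.cast_nonneg _), ?_⟩
  refine div_le_one_of_le₀ ?_ (Nat.cast_nonneg _)
  calc ∑ r ∈ adm W c, TT (al r) (be ((c + W - r) % W)) (τ r) ≤ ∑ _r ∈ adm W c, (1 : ℝ) :=
        sum_le_sum fun r hr => (h r hr).2
    _ = (adm W c).card := by simp

/-- The contribution of one block. -/
theorem pf_one_block {R Q : ℕ} [NeZero R] [NeZero Q] {W v N c : ℕ} {al be τ : ℕ → ℝ} {δ t : ℝ}
    {f g : ℕ → ℝ} (hW1 : 1 ≤ W) (hW2 : 2 ∣ W) (hc2 : 2 ∣ c)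
    (hv : 2 ≤ v) (hvW : W ≤ v) (hvε : 1 / δ ^ 2 ≤ v)
    (hR : primorial v ∣ R) (hWR : W ∣ R) (hQ : ∀ p : ℕ, p.Prime → p ∣ Q → v < p)
    (hδ : 0 < δ) (hδ1 : δ ≤ 1 / 4) (hs : (R : ℝ) * Q ≤ δ ^ 2 * N)
    (hf : LocP W (primorial v) R Q N al (δ ^ 2) f)
    (hg : LocP W (primorial v) R Q N be (δ ^ 2) g)
    (hal : ∀ r, r < W → r.Coprime W → 0 ≤ al r ∧ al r ≤ 1)
    (hbe : ∀ r, r < W → r.Coprime W → 0 ≤ be r ∧ be r ≤ 1)
    (hτ : ∀ r ∈ adm W c, 0 ≤ τ r) (hτ1 : prs W c al be (fun r _ _ => τ r) ≤ t) (ht : 0 ≤ t)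
    {m : ℕ} (hm : δ * N ≤ m * (R * Q : ℝ))
    (hm2 : ((m : ℝ) + 1) * (R * Q : ℝ) ≤ (1 - δ ^ 2) * N) :
    (R * Q : ℝ) / W * (prs W c al be (fun r a b => TT a b (τ r)) - 7 * δ) ≤
      ∑ n ∈ (Ico (m * (R * Q)) (m * (R * Q) + R * Q)).filter (fun n => n ≡ c [MOD W]),
        min (model v f g n) t := by
  have hR0 : (0 : ℝ) < R := by exact_mod_cast Nat.pos_of_ne_zero (NeZero.ne R)
  have hQ0 : (0 : ℝ) < Q := by exact_mod_cast Nat.pos_of_ne_zero (NeZero.ne Q)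
  have hW0 : (0 : ℝ) < W := by exact_mod_cast hW1
  obtain ⟨s, hs'⟩ : ∃ s : ℝ, s = (R : ℝ) * Q := ⟨_, rfl⟩
  have hs0 : 0 < s := by rw [hs']; positivity
  obtain ⟨e, he⟩ : ∃ e : ℝ, e = δ ^ 2 := ⟨_, rfl⟩
  have he0 : 0 < e := by rw [he]; positivity
  have he1 : 4 * e ≤ δ := by rw [he]; nlinarith
  obtain ⟨M, hM⟩ : ∃ M : ℝ, M = prs W c al be (fun r a b => TT a b (τ r)) := ⟨_, rfl⟩
  have hMm := prs_mem hW1 hal hbe hτ
  rw [← hM] at hMm
  obtain ⟨hM0, hM1⟩ := hMm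
  rw [← he] at hvε hs hf hg hm2
  rw [← hs'] at hs hm hm2
  obtain ⟨i₀, hi₀⟩ : ∃ i₀ : ℕ, i₀ = ⌈e * N / s⌉₊ := ⟨_, rfl⟩
  have hx1 : 1 ≤ e * N / s := by rw [le_div_iff₀ hs0]; linarith
  have hi0 : e * N / s ≤ i₀ := by rw [hi₀]; exact Nat.le_ceil _
  have hi1 : (i₀ : ℝ) < e * N / s + 1 := by rw [hi₀]; exact Nat.ceil_lt_add_one (by linarith)
  have hi2 : 1 ≤ i₀ := by
    have : (1 : ℝ) ≤ i₀ := hx1.trans hi0
    exact_mod_cast this
  have hmm : δ * N / s ≤ m := by rw [div_le_iff₀ hs0]; exact hm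
  have hN0 : (0 : ℝ) ≤ N := Nat.cast_nonneg N
  have h4e : 4 * (e * N / s) ≤ δ * N / s := by
    rw [← mul_div_assoc]
    refine div_le_div_of_nonneg_right ?_ hs0.le
    nlinarith
  have hi3 : (2 : ℝ) * i₀ ≤ m := by linarith
  have hi4 : 2 * i₀ ≤ m := by exact_mod_cast hi3
  have hm1 : 1 ≤ m := by omega
  have hcast : ((m + 1 - i₀ : ℕ) : ℝ) = (m : ℝ) + 1 - i₀ := by
    rw [Nat.cast_sub (by omega)]
    push_cast
    ring
  have hb : ∀ j : ℝ, e * N / s ≤ j → e * N ≤ j * (R * Q) := by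
    intro j hj
    rw [← hs']
    rwa [div_le_iff₀ hs0] at hj
  have hkey := pf_block R Q (i₀ := i₀) (i₁ := m + 1 - i₀) (m := m) hW1 hW2 hc2 hv hvW hvε hR hWR
    hQ he0 (by linarith) hf hg hal hbe hτ hτ1 ht (by omega) (by omega) hm1
    (by
      intro i hi
      rw [mem_Ico] at hi
      have h3 : (i₀ : ℝ) ≤ i := by exact_mod_cast hi.1
      have h4 : (i : ℝ) + 1 ≤ (m : ℝ) + 1 := by
        have : (i : ℝ) ≤ m := by exact_mod_cast (by omega : i ≤ m)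
        linarith
      refine ⟨hb i (hi0.trans h3), ?_⟩
      rw [← hs']
      have h5 := mul_le_mul_of_nonneg_right h4 hs0.le
      linarith)
    (by
      intro i hi
      rw [mem_Ico] at hi
      have h3 : (i₀ : ℝ) ≤ (m : ℝ) - i := by
        have : ((i + i₀ : ℕ) : ℝ) ≤ m := by exact_mod_cast (by omega : i + i₀ ≤ m)
        push_cast at this
        linarith
      have h4 : (m : ℝ) - i + 1 ≤ (m : ℝ) + 1 := by
        have : (0 : ℝ) ≤ i := Nat.cast_nonneg _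
        linarith
      refine ⟨hb _ (hi0.trans h3), ?_⟩
      rw [← hs']
      have h5 := mul_le_mul_of_nonneg_right h4 hs0.le
      linarith)
  rw [← hs', ← hM, hcast] at hkey
  rw [← hs', ← hM]
  refine le_trans ?_ hkey
  refine mul_le_mul_of_nonneg_left ?_ (by positivity)
  have hm0 : (0 : ℝ) < (m : ℝ) + 1 := by positivity
  obtain ⟨r, hr⟩ : ∃ r : ℝ, r = ((m : ℝ) + 1 - i₀ - i₀) / (m + 1) := ⟨_, rfl⟩
  rw [← hr]
  have hr1 : r ≤ 1 := by
    rw [hr, div_le_one hm0]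
    have : (0 : ℝ) ≤ i₀ := Nat.cast_nonneg _
    linarith
  have hr2 : 1 - 4 * δ ≤ r := by
    rw [hr, le_div_iff₀ hm0]
    have h3 : 2 * (i₀ : ℝ) ≤ 4 * (e * N / s) := by linarith
    have h4 : 4 * (e * N / s) = 4 * δ * (δ * N / s) := by rw [he]; ring
    have h5 : 4 * δ * (δ * N / s) ≤ 4 * δ * (m + 1) :=
      mul_le_mul_of_nonneg_left (by linarith) (by linarith)
    linarith
  nlinarith [mul_le_mul_of_nonneg_right hr2 hM0, mul_le_mul_of_nonneg_right hr1 he0.le]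

/-- Many blocks. -/
theorem pf_many {R Q : ℕ} [NeZero R] [NeZero Q] {W c N : ℕ} (hW1 : 1 ≤ W) {δ X : ℝ} {h : ℕ → ℝ}
    (hδ : 0 < δ) (hδ1 : δ ≤ 1 / 4) (hs : (R : ℝ) * Q ≤ δ ^ 2 * N)
    (h0 : ∀ n, 0 ≤ h n) (hX : X ≤ 1)
    (hb : ∀ m : ℕ, δ * N ≤ m * (R * Q : ℝ) → ((m : ℝ) + 1) * (R * Q : ℝ) ≤ (1 - δ ^ 2) * N →
      (R * Q : ℝ) / W * X ≤
        ∑ n ∈ (Ico (m * (R * Q)) (m * (R * Q) + R * Q)).filter (fun n => n ≡ c [MOD W]), h n) :
    (N : ℝ) / W * (X - 2 * δ) ≤ ∑ n ∈ (Icc 1 N).filter (fun n => n ≡ c [MOD W]), h n := by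
  have hR0 : (0 : ℝ) < R := by exact_mod_cast Nat.pos_of_ne_zero (NeZero.ne R)
  have hQ0 : (0 : ℝ) < Q := by exact_mod_cast Nat.pos_of_ne_zero (NeZero.ne Q)
  have hW0 : (0 : ℝ) < W := by exact_mod_cast hW1
  have hS0 : 0 ≤ ∑ n ∈ (Icc 1 N).filter (fun n => n ≡ c [MOD W]), h n :=
    sum_nonneg fun n _ => h0 n
  have hN0 : (0 : ℝ) ≤ N := Nat.cast_nonneg N
  rcases le_or_gt X 0 with hX0 | hX0
  · refine le_trans ?_ hS0
    exact mul_nonpos_of_nonneg_of_nonpos (by positivity) (by linarith)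
  obtain ⟨s, hs'⟩ : ∃ s : ℝ, s = (R : ℝ) * Q := ⟨_, rfl⟩
  have hs0 : 0 < s := by rw [hs']; positivity
  obtain ⟨e, he⟩ : ∃ e : ℝ, e = δ ^ 2 := ⟨_, rfl⟩
  have he0 : 0 < e := by rw [he]; positivity
  have he1 : 4 * e ≤ δ := by rw [he]; nlinarith
  rw [← hs', ← he] at hb
  rw [← he, ← hs'] at hs
  obtain ⟨m₀, hm₀⟩ : ∃ m₀ : ℕ, m₀ = ⌈δ * N / s⌉₊ := ⟨_, rfl⟩
  obtain ⟨m₁, hm₁⟩ : ∃ m₁ : ℕ, m₁ = ⌊(1 - e) * N / s⌋₊ := ⟨_, rfl⟩
  have hx1 : 1 ≤ e * N / s := by rw [le_div_iff₀ hs0]; linarith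
  have hy : 0 ≤ N / s := by positivity
  have hx2 : e * N / s = e * (N / s) := by ring
  rw [hx2] at hx1
  have hm0 : (m₀ : ℝ) < δ * (N / s) + 1 := by
    have : δ * N / s = δ * (N / s) := by ring
    rw [hm₀, this]
    exact Nat.ceil_lt_add_one (by positivity)
  have hm0' : δ * N ≤ m₀ * s := by
    have : δ * N / s ≤ m₀ := by rw [hm₀]; exact Nat.le_ceil _
    rwa [div_le_iff₀ hs0] at this
  have hm1 : (1 - e) * (N / s) - 1 < m₁ := by
    have : (1 - e) * N / s = (1 - e) * (N / s) := by ring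
    rw [hm₁, this]
    exact Nat.sub_one_lt_floor _
  have hm1' : (m₁ : ℝ) * s ≤ (1 - e) * N := by
    have : (m₁ : ℝ) ≤ (1 - e) * N / s := by
      rw [hm₁]
      exact Nat.floor_le (div_nonneg (mul_nonneg (by linarith) hN0) hs0.le)
    rwa [le_div_iff₀ hs0] at this
  have hcount : (N / s) * (1 - 2 * δ) ≤ (m₁ : ℝ) - m₀ := by
    nlinarith
  have hle : m₀ ≤ m₁ := by
    have h3 : (0 : ℝ) ≤ (m₁ : ℝ) - m₀ := (mul_nonneg hy (by linarith)).trans hcount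
    have : (m₀ : ℝ) ≤ m₁ := by linarith
    exact_mod_cast this
  have hm00 : 1 ≤ m₀ := by
    have h3 : 0 < δ * N / s := by
      have : 0 < (N : ℝ) := by
        by_contra hcon
        have : (N : ℝ) = 0 := le_antisymm (not_lt.1 hcon) hN0
        rw [this] at hs
        linarith
      positivity
    rw [hm₀]
    exact Nat.ceil_pos.2 h3
  have hsum : ∑ m ∈ Ico m₀ m₁, s / W * X ≤
      ∑ n ∈ (Icc 1 N).filter (fun n => n ≡ c [MOD W]), h n := by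
    calc ∑ m ∈ Ico m₀ m₁, s / W * X
        ≤ ∑ m ∈ Ico m₀ m₁, ∑ n ∈ (Ico (m * (R * Q)) (m * (R * Q) + R * Q)).filter
            (fun n => n ≡ c [MOD W]), h n := by
          refine sum_le_sum fun m hm => ?_
          rw [mem_Ico] at hm
          refine hb m ?_ ?_
          · refine hm0'.trans (mul_le_mul_of_nonneg_right ?_ hs0.le)
            exact_mod_cast hm.1
          · refine le_trans (mul_le_mul_of_nonneg_right ?_ hs0.le) hm1'
            exact_mod_cast hm.2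
      _ = ∑ m ∈ Ico m₀ m₁, ∑ n ∈ Ico (m * (R * Q)) (m * (R * Q) + R * Q),
            if n ≡ c [MOD W] then h n else 0 := by simp_rw [sum_filter]
      _ = ∑ n ∈ Ico (m₀ * (R * Q)) (m₁ * (R * Q)), if n ≡ c [MOD W] then h n else 0 :=
          sum_blocks (fun n => if n ≡ c [MOD W] then h n else 0) (R * Q) m₀ m₁ hle
      _ = ∑ n ∈ (Ico (m₀ * (R * Q)) (m₁ * (R * Q))).filter (fun n => n ≡ c [MOD W]), h n := by
          rw [sum_filter]
      _ ≤ _ := by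
          refine sum_le_sum_of_subset_of_nonneg ?_ fun n _ _ => h0 n
          intro n hn
          rw [mem_filter, mem_Ico] at hn
          rw [mem_filter, mem_Icc]
          have hRQ : 0 < R * Q := Nat.pos_of_ne_zero (NeZero.ne _)
          have h3 : 1 ≤ m₀ * (R * Q) := Nat.mul_pos hm00 hRQ
          have h4 : m₁ * (R * Q) ≤ N := by
            have : ((m₁ * (R * Q) : ℕ) : ℝ) ≤ N := by
              push_cast
              rw [← hs']
              nlinarith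
            exact_mod_cast this
          exact ⟨⟨by omega, by omega⟩, hn.2⟩
  refine le_trans ?_ hsum
  rw [sum_const, nsmul_eq_mul, Nat.card_Ico, Nat.cast_sub hle]
  have h5 : (N / s) * (1 - 2 * δ) * (s / W * X) ≤ ((m₁ : ℝ) - m₀) * (s / W * X) :=
    mul_le_mul_of_nonneg_right hcount (by positivity)
  refine le_trans ?_ h5
  have h6 : (N / s) * (1 - 2 * δ) * (s / W * X) = N / W * ((1 - 2 * δ) * X) := by
    field_simp
  rw [h6]
  refine mul_le_mul_of_nonneg_left ?_ (by positivity)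
  nlinarith

theorem pf_low {A B : Set ℕ} {W v N c : ℕ} {al be τ : ℕ → ℝ} {δ t : ℝ} (hW1 : 1 ≤ W)
    (hW2 : 2 ∣ W) (hc2 : 2 ∣ c) (hN : 1 ≤ N) (hv : 2 ≤ v) (hvW : W ≤ v)
    (hvε : 1 / δ ^ 2 ≤ v) (hδ : 0 < δ) (hδ1 : δ ≤ 1 / 4) (hS : StrucP W v N A B al be (δ ^ 2))
    (hal : ∀ r, r < W → r.Coprime W → 0 ≤ al r ∧ al r ≤ 1)
    (hbe : ∀ r, r < W → r.Coprime W → 0 ≤ be r ∧ be r ≤ 1)
    (hτ : ∀ r ∈ adm W c, 0 ≤ τ r) (hτ1 : prs W c al be (fun r _ _ => τ r) ≤ t) (ht : 0 ≤ t) :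
    prs W c al be (fun r a b => TT a b (τ r)) - 9 * δ - W * (1 + t + δ ^ 2) * δ ^ 2 ≤
      avgc W c N (fun n => min (rho A B n) t) := by
  classical
  obtain ⟨R, Q, hR, hWR, hR1, hQ1, hQ, hs, f, g, hf, hg, hexc⟩ := hS
  haveI : NeZero R := ⟨by omega⟩
  haveI : NeZero Q := ⟨by omega⟩
  have hN0 : (0 : ℝ) < N := by exact_mod_cast hN
  have hW0 : (0 : ℝ) < W := by exact_mod_cast hW1
  have hPm := prs_mem hW1 hal hbe hτ
  have hmb := pf_many (R := R) (Q := Q) (N := N) (c := c) hW1 (δ := δ)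
    (X := prs W c al be (fun r a b => TT a b (τ r)) - 7 * δ)
    (h := fun n => min (model v f g n) t) hδ hδ1 hs
    (fun n => le_min (by
      unfold model
      exact mul_nonneg (div_nonneg (sq_nonneg _) (mul_nonneg (Nat.cast_nonneg _) (sig_pos' v n).le))
        (sum_nonneg fun x _ => mul_nonneg (hf.nonneg _) (hg.nonneg _))) ht) (by linarith [hPm.2])
    (fun m hm hm2 => pf_one_block hW1 hW2 hc2 hv hvW hvε hR hWR hQ hδ hδ1 hs hf hg hal hbe hτ hτ1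
      ht hm hm2)
  have heven : ∀ n ∈ (Icc 1 N).filter (fun n => n ≡ c [MOD W]), Even n := by
    intro n hn
    exact even_iff_two_dvd.2 ((((mem_filter.1 hn).2.of_dvd hW2).dvd_iff dvd_rfl).2 hc2)
  have hcmp : ∑ n ∈ (Icc 1 N).filter (fun n => n ≡ c [MOD W]), min (model v f g n) t ≤
      ∑ n ∈ (Icc 1 N).filter (fun n => n ≡ c [MOD W]), (min (rho A B n) t + δ ^ 2 +
        (if δ ^ 2 < |rho A B n - model v f g n| then t else 0)) := by
    refine sum_le_sum fun n _ => ?_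
    have hr := rho_nonneg A B n
    have hr' : 0 ≤ min (rho A B n) t := le_min hr ht
    split_ifs with h
    · have : min (model v f g n) t ≤ t := min_le_right _ _
      have := sq_nonneg δ
      linarith
    · have h3 := (abs_le.1 (not_lt.1 h)).1
      rw [add_zero, ← min_add_add_right]
      refine le_min ?_ ?_
      · exact (min_le_left _ _).trans (by linarith)
      · exact (min_le_right _ _).trans (by have := sq_nonneg δ; linarith)
  have hcard : (((Icc 1 N).filter (fun n => n ≡ c [MOD W])).card : ℝ) ≤ N := by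
    have := card_filter_le (Icc 1 N) (fun n => n ≡ c [MOD W])
    rw [Nat.card_Icc] at this
    exact_mod_cast this
  have hexc' : ∑ n ∈ (Icc 1 N).filter (fun n => n ≡ c [MOD W]),
      (if δ ^ 2 < |rho A B n - model v f g n| then t else 0) ≤ t * (δ ^ 2 * N) := by
    rw [← sum_filter, filter_filter, sum_const, nsmul_eq_mul, mul_comm]
    refine mul_le_mul_of_nonneg_left ?_ ht
    refine le_trans ?_ hexc
    have hsub : (Icc 1 N).filter (fun n => n ≡ c [MOD W] ∧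
        δ ^ 2 < |rho A B n - model v f g n|) ⊆
        (Icc 1 N).filter (fun n => Even n ∧ δ ^ 2 < |rho A B n - model v f g n|) := by
      intro n hn
      rw [mem_filter] at hn ⊢
      exact ⟨hn.1, heven n (mem_filter.2 ⟨hn.1, hn.2.1⟩), hn.2.2⟩
    exact_mod_cast card_le_card hsub
  rw [sum_add_distrib, sum_add_distrib, sum_const, nsmul_eq_mul] at hcmp
  have h6 : (((Icc 1 N).filter (fun n => n ≡ c [MOD W])).card : ℝ) * δ ^ 2 ≤ N * δ ^ 2 :=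
    mul_le_mul_of_nonneg_right hcard (sq_nonneg δ)
  unfold avgc
  have h7 : (N : ℝ) / W * (prs W c al be (fun r a b => TT a b (τ r)) - 9 * δ) -
      N * δ ^ 2 - t * (δ ^ 2 * N) ≤
      ∑ n ∈ (Icc 1 N).filter (fun n => n ≡ c [MOD W]), min (rho A B n) t := by
    have h8 : (N : ℝ) / W * (prs W c al be (fun r a b => TT a b (τ r)) - 7 * δ - 2 * δ) =
      (N : ℝ) / W * (prs W c al be (fun r a b => TT a b (τ r)) - 9 * δ) := by ring
    rw [h8] at hmb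
    linarith
  have h9 := mul_le_mul_of_nonneg_left h7 (show 0 ≤ (W : ℝ) / N by positivity)
  refine le_trans (le_of_eq_of_le (b := (W : ℝ) / N * ((N : ℝ) / W *
    (prs W c al be (fun r a b => TT a b (τ r)) - 9 * δ) -
      N * δ ^ 2 - t * (δ ^ 2 * N)) - W * δ ^ 4) ?_ ?_) h9
  · field_simp
    ring
  · have : 0 ≤ (W : ℝ) * δ ^ 4 := by positivity
    linarith

/-- The lower bound for the truncated means, from the structure theorem `hst`. -/
theorem trunc_pf_of {A B : Set ℕ} {W c : ℕ} {al be τ : ℕ → ℝ} (hW1 : 1 ≤ W)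
    (hW2 : 2 ∣ W) (hc2 : 2 ∣ c)
    (hst : ∀ ε : ℝ, 0 < ε → ∃ v : ℕ, 2 ≤ v ∧ W ≤ v ∧ 1 / ε ≤ v ∧ ∃ N₀ : ℕ, ∀ N : ℕ, N₀ ≤ N →
      StrucP W v N A B al be ε)
    (hal : ∀ r, r < W → r.Coprime W → 0 ≤ al r ∧ al r ≤ 1)
    (hbe : ∀ r, r < W → r.Coprime W → 0 ≤ be r ∧ be r ≤ 1)
    (hτ : ∀ r ∈ adm W c, 0 ≤ τ r) {t : ℝ} (hτ1 : prs W c al be (fun r _ _ => τ r) ≤ t)
    (ε : ℝ) (hε : 0 < ε) : ∃ N₀ : ℕ, ∀ N : ℕ, N₀ ≤ N →
      prs W c al be (fun r a b => TT a b (τ r)) - ε ≤ avgc W c N (fun n => min (rho A B n) t) := by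
  have ht : 0 ≤ t := by
    refine le_trans ?_ hτ1
    unfold prs
    exact div_nonneg (sum_nonneg fun r hr => hτ r hr) (Nat.cast_nonneg _)
  have hW0 : (0 : ℝ) < W := by exact_mod_cast hW1
  obtain ⟨C, hC⟩ : ∃ C : ℝ, C = 9 + W * (2 + t) := ⟨_, rfl⟩
  have hC0 : 0 < C := by rw [hC]; positivity
  obtain ⟨δ, hδ⟩ : ∃ δ : ℝ, δ = min (1 / 4) (ε / C) := ⟨_, rfl⟩
  have hδ0 : 0 < δ := by rw [hδ]; exact lt_min (by norm_num) (by positivity)
  have hδ1 : δ ≤ 1 / 4 := by rw [hδ]; exact min_le_left _ _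
  have hδ2 : C * δ ≤ ε := by
    have : δ ≤ ε / C := by rw [hδ]; exact min_le_right _ _
    rwa [le_div_iff₀ hC0, mul_comm] at this
  obtain ⟨v, hv, hvW, hvε, N₀, hN⟩ := hst (δ ^ 2) (by positivity)
  refine ⟨max N₀ 1, fun N hN' => ?_⟩
  have h3 := pf_low (t := t) hW1 hW2 hc2 (le_trans (le_max_right _ _) hN') hv hvW hvε hδ0 hδ1
    (hN N (le_trans (le_max_left _ _) hN')) hal hbe hτ hτ1 ht
  have h4 : (W : ℝ) * (1 + t + δ ^ 2) * δ ^ 2 ≤ W * (2 + t) * δ := by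
    have h5 : δ ^ 2 ≤ δ := by nlinarith
    have h6 : 1 + t + δ ^ 2 ≤ 2 + t := by linarith
    calc (W : ℝ) * (1 + t + δ ^ 2) * δ ^ 2 ≤ W * (2 + t) * δ ^ 2 :=
          mul_le_mul_of_nonneg_right (mul_le_mul_of_nonneg_left h6 hW0.le) (sq_nonneg _)
      _ ≤ W * (2 + t) * δ := mul_le_mul_of_nonneg_left h5 (by positivity)
  rw [hC] at hδ2
  nlinarith

end Pool.Agent.Lib.MP_629a14_nt.Kp
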