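import Pool.Agent.Lib.MP_629a14_nt.Kp.Mean
import Pool.Agent.Lib.MP_629a14_nt.Kp.PfTrunc

/-! The mean value of the Goldbach counts on a residue class, for sets of primes with given relative
densities in the residue classes. -/

set_option autoImplicit false

namespace Pool.Agent.Lib.MP_629a14_nt.Kp

open Finset Filter Topology Pool.Agent.Lib.MP_629a14_nt Pool.Agent.Lib.MP_629a14_nt.Rob

/-- The values of a profile are in `[0, 1]`. -/
theorem pf_mem {A : Set ℕ} {W : ℕ} {al : ℕ → ℝ} (hW1 : 1 ≤ W) (hA : HasProfile A W al) :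
    ∀ r, r < W → r.Coprime W → 0 ≤ al r ∧ al r ≤ 1 := by
  intro r hr hc
  have h := hA W r hW1 dvd_rfl hc
  rw [Nat.mod_eq_of_lt hr] at h
  constructor
  · exact ge_of_tendsto' h fun x => by positivity
  · refine le_of_tendsto' h fun x => ?_
    have h1 : (primesIn A W r x : ℝ) ≤ primesIn Set.univ W r x := by
      exact_mod_cast primesIn_mono (Set.subset_univ A) W r x
    exact div_le_one_of_le₀ h1 (Nat.cast_nonneg _)

theorem pf_univ (W : ℕ) : HasProfile Set.univ W (fun _ => 1) := by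
  intro q a hq _ ha
  exact dens_univ q a hq ha

theorem pf_compl {A : Set ℕ} {W : ℕ} {al : ℕ → ℝ} (hA : HasProfile A W al) :
    HasProfile Aᶜ W (fun r => 1 - al r) := by
  intro q a hq hWq ha
  refine ((hA q a hq hWq ha).const_sub 1).congr' ?_
  filter_upwards [univ_pos q a hq ha] with x hx
  rw [primesIn_compl, sub_div, div_self hx]

theorem adm_card_pos {W c : ℕ} (hW1 : 1 ≤ W) (hW2 : 2 ∣ W) (hc2 : 2 ∣ c) :
    0 < (adm W c).card := by
  obtain ⟨v, hv⟩ : ∃ v : ℕ, v = W + 1 := ⟨_, rfl⟩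
  obtain ⟨R, hR⟩ : ∃ R : ℕ, R = primorial v * W := ⟨_, rfl⟩
  have hR0 : 0 < R := by
    rw [hR]
    exact Nat.mul_pos (primorial_pos v) (by omega)
  have : NeZero R := ⟨by omega⟩
  have hWR : W ∣ R := by
    rw [hR]
    exact dvd_mul_left _ _
  have hVR : primorial v ∣ R := by
    rw [hR]
    exact dvd_mul_right _ _
  have hκ : ((c : ZMod R)).val ≡ c [MOD W] := val_natCast_mod hWR c
  have hcs := cnt_sig v R c (by omega) hVR hc2
  rw [cnt_eq] at hcs
  have h3 : 0 < ((Uk (primorial v) R (c : ZMod R)).card : ℝ) * En.kap v ^ 2 := by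
    rw [hcs]
    exact mul_pos (by exact_mod_cast hR0) (sig_pos' _ _)
  have h4 := pos_of_mul_pos_left h3 (sq_nonneg _)
  have h5 : 0 < (Uk (primorial v) R (c : ZMod R)).card := by exact_mod_cast h4
  obtain ⟨b, hb⟩ := card_pos.1 h5
  exact card_pos.2 ⟨_, mod_mem_adm hW1 hWR (by omega) hκ hb⟩

/-- For almost all even `n` the count for the set of all primes is at most `1 + ε`. -/
theorem univ_bad {ε : ℝ} (hε : 0 < ε) : ∃ N₀ : ℕ, ∀ N : ℕ, N₀ ≤ N →
    (((Icc 1 N).filter (fun n => Even n ∧ 1 + ε < rho Set.univ Set.univ n)).card : ℝ) ≤ ε * N := by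
  classical
  obtain ⟨N₁, hN₁⟩ := En.main 1 le_rfl 3 ε (by norm_num) hε
  refine ⟨max 3 N₁, fun N hN => ?_⟩
  have a1 : 3 ≤ N := (le_max_left _ _).trans hN
  have a2 : N₁ ≤ N := (le_max_right _ _).trans hN
  obtain ⟨k, hk⟩ : ∃ k : ℕ, k = N / 2 := ⟨_, rfl⟩
  have hkN : 2 * k ≤ N := by omega
  have hkN' : N ≤ 2 * k + 1 := by omega
  have hfam : En.Fam 1 3 N k (fun i : Fin k => 2 * ((i : ℕ) + 1)) := by
    refine ⟨fun i => ⟨?_, ?_⟩, ?_⟩
    · show 1 ≤ 2 * ((i : ℕ) + 1)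
      omega
    · show 2 * ((i : ℕ) + 1) ≤ N
      have := i.2
      omega
    have e1 : En.energy (fun i : Fin k => 2 * ((i : ℕ) + 1)) 1 ≤ k := by
      unfold En.energy
      have e2 : ((univ : Finset ((Fin 1 → Fin k) × (Fin 1 → Fin k))).filter
          (fun xy => ∑ j, 2 * (((xy.1 j : Fin k) : ℕ) + 1) =
            ∑ j, 2 * (((xy.2 j : Fin k) : ℕ) + 1))).card ≤ (univ : Finset (Fin k)).card := by
        refine card_le_card_of_injOn (fun xy => xy.1 0) (fun _ _ => mem_coe.2 (mem_univ _)) ?_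
        rintro ⟨x, y⟩ hx ⟨x', y'⟩ hx' h
        simp only [coe_filter, mem_univ, true_and, Set.mem_ofPred_eq, Fin.sum_univ_one] at hx hx'
        simp only at h
        have e3 : x 0 = y 0 := by
          apply Fin.ext
          omega
        have e4 : x' 0 = y' 0 := by
          apply Fin.ext
          omega
        have e5 : x = x' := by
          funext j
          rw [Subsingleton.elim j 0]
          exact h
        have e6 : y = y' := by
          funext j
          rw [Subsingleton.elim j 0, ← e3, ← e4]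
          exact h
        rw [e5, e6]
      rw [card_univ, Fintype.card_fin] at e2
      exact e2
    have e7 : (En.energy (fun i : Fin k => 2 * ((i : ℕ) + 1)) 1 : ℝ) ≤ k := by exact_mod_cast e1
    have e8 : (N : ℝ) ≤ 3 * k := by
      have : N ≤ 3 * k := by omega
      exact_mod_cast this
    have e9 : (0 : ℝ) ≤ k := Nat.cast_nonneg k
    calc (N : ℝ) * (En.energy (fun i : Fin k => 2 * ((i : ℕ) + 1)) 1 : ℝ) ≤ (3 * k) * k := by
          gcongr
      _ = 3 * (k : ℝ) ^ (2 * 1) := by ring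
  have hmain := hN₁ N a2 k _ hfam (fun i => even_two_mul _)
  obtain ⟨Bd, hBd⟩ : ∃ Bd : Finset (Fin k), Bd = (univ : Finset (Fin k)).filter
    (fun i : Fin k => ε * En.HL (2 * ((i : ℕ) + 1)) <
      |(En.r2 (2 * ((i : ℕ) + 1)) : ℝ) - En.HL (2 * ((i : ℕ) + 1))|) := ⟨_, rfl⟩
  rw [← hBd] at hmain
  have hsub : (Icc 1 N).filter (fun n => Even n ∧ 1 + ε < rho Set.univ Set.univ n) ⊆
      Bd.image (fun i : Fin k => 2 * ((i : ℕ) + 1)) := by
    intro n hn
    rw [mem_filter, mem_Icc] at hn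
    obtain ⟨⟨hn1, hn2⟩, hn3, hn4⟩ := hn
    obtain ⟨m, hm⟩ := hn3
    have hm1 : m - 1 < k := by omega
    have hm2 : 2 * ((m - 1) + 1) = n := by omega
    refine mem_image.2 ⟨⟨m - 1, hm1⟩, ?_, hm2⟩
    rw [hBd, mem_filter]
    refine ⟨mem_univ _, ?_⟩
    show ε * En.HL (2 * ((m - 1) + 1)) <
      |(En.r2 (2 * ((m - 1) + 1)) : ℝ) - En.HL (2 * ((m - 1) + 1))|
    rw [hm2]
    have e2 : Sm.repsIn Set.univ Set.univ n = En.r2 n := by
      rw [repsIn_eq]
      unfold En.r2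
      congr 1
      ext p
      simp
    have hpos : 0 < En.HL n := by
      have h2 := En.sing_ge n
      have h3 := En.tw_pos
      have h4 : (1 : ℝ) < (n : ℝ) := by
        exact_mod_cast (by omega : 1 < n)
      have h5 := Real.log_pos h4
      unfold En.HL
      have h6 : 0 < En.sing n := by linarith
      positivity
    unfold rho at hn4
    rw [e2, lt_div_iff₀ hpos] at hn4
    refine lt_of_lt_of_le ?_ (le_abs_self _)
    linarith
  have h1 : (((Icc 1 N).filter (fun n => Even n ∧ 1 + ε < rho Set.univ Set.univ n)).card : ℝ) ≤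
      Bd.card := by
    exact_mod_cast (card_le_card hsub).trans card_image_le
  have h2 : (k : ℝ) ≤ N := by
    have : k ≤ N := by omega
    exact_mod_cast this
  have h3 : ε * k ≤ ε * N := mul_le_mul_of_nonneg_left h2 hε.le
  linarith

theorem card_class_le (W c N : ℕ) (hW1 : 1 ≤ W) :
    (((Icc 1 N).filter (fun n => n ≡ c [MOD W])).card : ℝ) ≤ N / W + 1 := by
  have h1 : (Icc 1 N).filter (fun n => n ≡ c [MOD W]) ⊆
      (range (W * (N / W + 1))).filter (fun n => n ≡ c [MOD W]) := by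
    intro n hn
    rw [mem_filter, mem_Icc] at hn
    rw [mem_filter, mem_range]
    exact ⟨lt_of_le_of_lt hn.1.2 (Nat.lt_mul_div_succ N hW1), hn.2⟩
  have h2 := card_le_card h1
  rw [card_range_mod W c _ hW1] at h2
  have h3 : (((Icc 1 N).filter (fun n => n ≡ c [MOD W])).card : ℝ) ≤ ((N / W + 1 : ℕ) : ℝ) := by
    exact_mod_cast h2
  have h4 : ((N / W : ℕ) : ℝ) ≤ (N : ℝ) / W := Nat.cast_div_le
  push_cast at h3
  linarith

/-- The upper bound for the mean value for the set of all primes. -/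
theorem univ_upper {W c : ℕ} (hW1 : 1 ≤ W) (hW2 : 2 ∣ W) (hc2 : 2 ∣ c) {ε : ℝ} (hε : 0 < ε) :
    ∃ N₀ : ℕ, ∀ N : ℕ, N₀ ≤ N → avgc W c N (rho Set.univ Set.univ) ≤ 1 + ε := by
  classical
  have htw := En.tw_pos
  obtain ⟨C, hC⟩ : ∃ C : ℝ, C = 18480 / En.tw := ⟨_, rfl⟩
  have hC0 : 0 < C := by rw [hC]; positivity
  have hW0 : (0 : ℝ) < W := by exact_mod_cast hW1
  obtain ⟨δ, hδ⟩ : ∃ δ : ℝ, δ = min 1 (ε / (3 + C * W)) := ⟨_, rfl⟩
  have hδ0 : 0 < δ := by rw [hδ]; exact lt_min one_pos (by positivity)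
  have hδ1 : δ ≤ 1 := by rw [hδ]; exact min_le_left _ _
  have hδ2 : (3 + C * W) * δ ≤ ε := by
    have : δ ≤ ε / (3 + C * W) := by rw [hδ]; exact min_le_right _ _
    rwa [le_div_iff₀ (by positivity), mul_comm] at this
  obtain ⟨N₁, hN₁⟩ := univ_bad hδ0
  obtain ⟨N₂, hN₂⟩ := exists_nat_ge ((W : ℝ) / δ)
  refine ⟨max 1 (max N₁ N₂), fun N hN => ?_⟩
  have a1 : 1 ≤ N := (le_max_left _ _).trans hN
  have a2 : N₁ ≤ N := ((le_max_left _ _).trans (le_max_right _ _)).trans hN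
  have a3 : N₂ ≤ N := ((le_max_right _ _).trans (le_max_right _ _)).trans hN
  have hN0 : (0 : ℝ) < N := by exact_mod_cast a1
  have hWN : (W : ℝ) / N ≤ δ := by
    have h1 : (W : ℝ) / δ ≤ N := hN₂.trans (by exact_mod_cast a3)
    rw [div_le_iff₀ hδ0] at h1
    rw [div_le_iff₀ hN0]
    linarith
  have hbad := hN₁ N a2
  have hcl := card_class_le W c N hW1
  obtain ⟨F, hF⟩ : ∃ F : Finset ℕ, F = (Icc 1 N).filter (fun n => n ≡ c [MOD W]) := ⟨_, rfl⟩
  have heven : ∀ n ∈ F, Even n := by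
    intro n hn
    rw [hF, mem_filter] at hn
    exact even_iff_two_dvd.2 (((hn.2.of_dvd hW2).dvd_iff dvd_rfl).2 hc2)
  have h1 : ∀ n ∈ F, rho Set.univ Set.univ n ≤ (1 + δ) +
      (if 1 + δ < rho Set.univ Set.univ n then C else 0) := by
    intro n hn
    split_ifs with h
    · have hn1 : 1 ≤ n := by
        rw [hF, mem_filter, mem_Icc] at hn
        exact hn.1.1
      have := rho_le Set.univ Set.univ n hn1
      rw [← hC] at this
      linarith
    · linarith
  have h2 := sum_le_sum h1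
  rw [sum_add_distrib, sum_const, nsmul_eq_mul, ← sum_filter, sum_const, nsmul_eq_mul] at h2
  have h3 : (((F.filter (fun n => 1 + δ < rho Set.univ Set.univ n))).card : ℝ) ≤ δ * N := by
    refine le_trans ?_ hbad
    have hsub : F.filter (fun n => 1 + δ < rho Set.univ Set.univ n) ⊆
        (Icc 1 N).filter (fun n => Even n ∧ 1 + δ < rho Set.univ Set.univ n) := by
      intro n hn
      rw [mem_filter] at hn
      rw [mem_filter]
      refine ⟨?_, heven n hn.1, hn.2⟩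
      have := hn.1
      rw [hF, mem_filter] at this
      exact this.1
    exact_mod_cast card_le_card hsub
  unfold avgc
  rw [← hF] at hcl ⊢
  have h4 : ∑ n ∈ F, rho Set.univ Set.univ n ≤ ((N : ℝ) / W + 1) * (1 + δ) + δ * N * C := by
    have e1 : (F.card : ℝ) * (1 + δ) ≤ ((N : ℝ) / W + 1) * (1 + δ) :=
      mul_le_mul_of_nonneg_right hcl (by linarith)
    have e2 := mul_le_mul_of_nonneg_right h3 hC0.le
    linarith
  have h5 := mul_le_mul_of_nonneg_left h4 (show 0 ≤ (W : ℝ) / N by positivity)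
  refine h5.trans ?_
  have h6 : (W : ℝ) / N * (((N : ℝ) / W + 1) * (1 + δ) + δ * N * C) =
      (1 + δ) + (W : ℝ) / N * (1 + δ) + C * W * δ := by
    field_simp
  rw [h6]
  have h7 : (W : ℝ) / N * (1 + δ) ≤ δ * 2 := mul_le_mul hWN (by linarith) (by linarith) hδ0.le
  nlinarith

theorem TT_one {a b : ℝ} (ha1 : a ≤ 1) (hb1 : b ≤ 1) :
    TT a b 1 = a * b := by
  unfold TT
  rcases le_total a b with h | h
  · rw [min_eq_left h, min_eq_right ha1, add_sub_cancel_left, min_eq_right hb1]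
  · rw [min_eq_right h, min_eq_right hb1, add_sub_cancel_right, min_eq_right ha1, mul_comm]

theorem prs_one {W c : ℕ} {al be : ℕ → ℝ} (hcard : 0 < (adm W c).card) :
    prs W c al be (fun _ _ _ => 1) = 1 := by
  unfold prs
  have : ((adm W c).card : ℝ) ≠ 0 := by exact_mod_cast hcard.ne'
  rw [sum_const, nsmul_eq_mul, mul_one, div_self this]

theorem prs_TT_one {W c : ℕ} {al be : ℕ → ℝ} (hW1 : 1 ≤ W)
    (hal : ∀ r, r < W → r.Coprime W → 0 ≤ al r ∧ al r ≤ 1)
    (hbe : ∀ r, r < W → r.Coprime W → 0 ≤ be r ∧ be r ≤ 1) :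
    prs W c al be (fun _ a b => TT a b 1) = prs W c al be (fun _ a b => a * b) := by
  unfold prs
  congr 1
  refine sum_congr rfl fun r hr => ?_
  have h1 := adm_mem1 hW1 hr
  have h2 := hal r h1.1.1 h1.1.2
  have h3 := hbe _ h1.2.1 h1.2.2
  exact TT_one h2.2 h3.2

/-- The lower bound for the mean value. -/
theorem mean_low_pf {W c : ℕ} (hW1 : 1 ≤ W) (hW2 : 2 ∣ W) (hc2 : 2 ∣ c)
    (hst : ∀ (A B : Set ℕ) (al be : ℕ → ℝ), HasProfile A W al → HasProfile B W be →
      ∀ ε : ℝ, 0 < ε → ∃ v : ℕ, 2 ≤ v ∧ W ≤ v ∧ 1 / ε ≤ v ∧ ∃ N₀ : ℕ, ∀ N : ℕ, N₀ ≤ N →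
      StrucP W v N A B al be ε)
    {A B : Set ℕ} {al be : ℕ → ℝ} (hA : HasProfile A W al) (hB : HasProfile B W be)
    {ε : ℝ} (hε : 0 < ε) : ∃ N₀ : ℕ, ∀ N : ℕ, N₀ ≤ N →
      prs W c al be (fun _ a b => a * b) - ε ≤ avgc W c N (rho A B) := by
  have hal := pf_mem hW1 hA
  have hbe := pf_mem hW1 hB
  obtain ⟨N₀, hN₀⟩ := trunc_pf_of (τ := fun _ => 1) (t := 1) hW1 hW2 hc2 (hst A B al be hA hB)
    hal hbe (fun _ _ => zero_le_one) (prs_one (adm_card_pos hW1 hW2 hc2)).le ε hε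
  refine ⟨N₀, fun N hN => ?_⟩
  have h1 := hN₀ N hN
  rw [prs_TT_one hW1 hal hbe] at h1
  refine h1.trans ?_
  unfold avgc
  refine mul_le_mul_of_nonneg_left (sum_le_sum fun n _ => min_le_left _ _) (by positivity)

theorem avgc_split (W c N : ℕ) (A B : Set ℕ) : avgc W c N (rho Set.univ Set.univ) =
    avgc W c N (rho A B) + avgc W c N (rho Aᶜ Set.univ) + avgc W c N (rho A Bᶜ) := by
  unfold avgc
  rw [← mul_add, ← mul_add, ← sum_add_distrib, ← sum_add_distrib]
  congr 1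
  exact sum_congr rfl fun n _ => rho_split A B n

/-- The mean value of the counts on a residue class, from the structure theorem `hst`. -/
theorem mean_pf_of {W c : ℕ} (hW1 : 1 ≤ W) (hW2 : 2 ∣ W) (hc2 : 2 ∣ c)
    (hst : ∀ (A B : Set ℕ) (al be : ℕ → ℝ), HasProfile A W al → HasProfile B W be →
      ∀ ε : ℝ, 0 < ε → ∃ v : ℕ, 2 ≤ v ∧ W ≤ v ∧ 1 / ε ≤ v ∧ ∃ N₀ : ℕ, ∀ N : ℕ, N₀ ≤ N →
      StrucP W v N A B al be ε)
    {A B : Set ℕ} {al be : ℕ → ℝ} (hA : HasProfile A W al) (hB : HasProfile B W be) :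
    Tendsto (fun N : ℕ => avgc W c N (rho A B)) atTop
      (𝓝 (prs W c al be (fun _ a b => a * b))) := by
  have hcard := adm_card_pos hW1 hW2 hc2
  have hcard' : ((adm W c).card : ℝ) ≠ 0 := by exact_mod_cast hcard.ne'
  have hsum : prs W c al be (fun _ a b => a * b) +
      prs W c (fun r => 1 - al r) (fun _ => 1) (fun _ a b => a * b) +
      prs W c al (fun r => 1 - be r) (fun _ a b => a * b) = 1 := by
    unfold prs
    rw [← add_div, ← add_div, ← sum_add_distrib, ← sum_add_distrib, div_eq_one_iff_eq hcard']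
    rw [sum_congr rfl (g := fun _ => (1 : ℝ)) (fun r _ => by ring)]
    simp
  rw [Metric.tendsto_atTop]
  intro ε hε
  obtain ⟨N₁, hN₁⟩ := mean_low_pf hW1 hW2 hc2 hst hA hB (ε := ε / 4) (by positivity)
  obtain ⟨N₂, hN₂⟩ := mean_low_pf hW1 hW2 hc2 hst (pf_compl hA) (pf_univ W) (ε := ε / 4)
    (by positivity)
  obtain ⟨N₃, hN₃⟩ := mean_low_pf hW1 hW2 hc2 hst hA (pf_compl hB) (ε := ε / 4) (by positivity)
  obtain ⟨N₄, hN₄⟩ := univ_upper hW1 hW2 hc2 (ε := ε / 4) (by positivity)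
  refine ⟨N₁ + N₂ + N₃ + N₄, fun N hN => ?_⟩
  have c1 := hN₁ N (by omega)
  have c2 := hN₂ N (by omega)
  have c3 := hN₃ N (by omega)
  have c4 := hN₄ N (by omega)
  rw [avgc_split W c N A B] at c4
  rw [Real.dist_eq, abs_lt]
  constructor
  · linarith
  · linarith

end Pool.Agent.Lib.MP_629a14_nt.Kp
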