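import Pool.Agent.Lib.MP_629a14_nt.Kp.PfStar
import Pool.Agent.Lib.MP_629a14_nt.Kp.PfRL
import Pool.Agent.Lib.MP_629a14_nt.Kp.PfMean
import Pool.Agent.Lib.MP_629a14_nt.Kp.PfClass
import Pool.Agent.Lib.MP_629a14_nt.Kp.Sharp
import Pool.Agent.Lib.MP_629a14_nt.Kr.ArcP

/-! The truncated means of the counts for the sets `star W al`, `star W be`: the upper bound. -/

set_option autoImplicit false

namespace Pool.Agent.Lib.MP_629a14_nt.Kp

open Finset Filter Topology Pool.Agent.Lib.MP_629a14_nt Pool.Agent.Lib.MP_629a14_nt.Rob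

theorem ni_add (x : ℝ) (k : ℤ) : |x + k - round (x + k)| = |x - round x| := by
  rw [round_add_intCast]
  push_cast
  congr 1
  ring

theorem ni_fract (x : ℝ) : |Int.fract x - round (Int.fract x)| = |x - round x| := by
  have h := ni_add (Int.fract x) ⌊x⌋
  rw [Int.fract_add_floor] at h
  exact h.symm

theorem ni_fract_add (x y z : ℝ) (h : x + y = z) :
    |Int.fract x + Int.fract y - round (Int.fract x + Int.fract y)| = |z - round z| := by
  have h1 := ni_add (Int.fract x + Int.fract y) (⌊x⌋ + ⌊y⌋)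
  have h2 : Int.fract x + Int.fract y + ((⌊x⌋ + ⌊y⌋ : ℤ) : ℝ) = z := by
    push_cast
    have h3 := Int.fract_add_floor x
    have h4 := Int.fract_add_floor y
    linarith
  rw [h2] at h1
  exact h1.symm

/-- The truncated integral of a monotone function. -/
theorem lw_split {F : ℝ → ℝ} (hF : Continuous F) (hF' : Antitone F) {t : ℝ} :
    ∃ x : ℝ, 0 ≤ x ∧ x ≤ 1 / 2 ∧
      lw F (fun y => min y t) = 2 * x * t + 2 * ∫ z in x..(1 / 2), F z := by
  unfold lw
  rcases le_or_gt (F 0) t with h0 | h0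
  · refine ⟨0, le_rfl, by norm_num, ?_⟩
    rw [mul_zero, zero_mul, zero_add]
    congr 1
    refine intervalIntegral.integral_congr fun x hx => ?_
    rw [Set.uIcc_of_le (by norm_num)] at hx
    exact min_eq_left ((hF' hx.1).trans h0)
  · rcases le_or_gt t (F (1 / 2)) with h1 | h1
    · refine ⟨1 / 2, by norm_num, le_rfl, ?_⟩
      rw [intervalIntegral.integral_same]
      have : ∫ x in (0 : ℝ)..(1 / 2), min (F x) t = ∫ x in (0 : ℝ)..(1 / 2), t := by
        refine intervalIntegral.integral_congr fun x hx => ?_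
        rw [Set.uIcc_of_le (by norm_num)] at hx
        exact min_eq_right (h1.trans (hF' hx.2))
      rw [this, intervalIntegral.integral_const, smul_eq_mul]
      ring
    · obtain ⟨x, hx, hx1⟩ : t ∈ F '' Set.Icc 0 (1 / 2) :=
        intermediate_value_Icc' (by norm_num) hF.continuousOn ⟨h1.le, h0.le⟩
      refine ⟨x, hx.1, hx.2, ?_⟩
      have hc : Continuous (fun x => min (F x) t) := hF.min continuous_const
      rw [← intervalIntegral.integral_add_adjacent_intervals (hc.intervalIntegrable 0 x)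
        (hc.intervalIntegrable x (1 / 2))]
      have e1 : ∫ y in (0 : ℝ)..x, min (F y) t = ∫ y in (0 : ℝ)..x, t := by
        refine intervalIntegral.integral_congr fun y hy => ?_
        rw [Set.uIcc_of_le hx.1] at hy
        exact min_eq_right (hx1.symm.le.trans (hF' hy.2))
      have e2 : ∫ y in x..(1 / 2), min (F y) t = ∫ y in x..(1 / 2), F y := by
        refine intervalIntegral.integral_congr fun y hy => ?_
        rw [Set.uIcc_of_le hx.2] at hy
        exact min_eq_left ((hF' hy.1).trans hx1.le)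
      rw [e1, e2, intervalIntegral.integral_const, smul_eq_mul]
      ring

/-- The part of a small arc in a residue class. -/
def cellC (W J r i : ℕ) : Set ℕ :=
  {p : ℕ | p % W = r ∧ p ∈ arcS ((i : ℝ) / J) (((i : ℝ) + 1) / J)}

theorem cellC_profile {W J r i : ℕ} (hi : i < J) :
    HasProfile (cellC W J r i) W (fun s => if s = r then 1 / (J : ℝ) else 0) := by
  classical
  have hJ : (0 : ℝ) < J := by
    have : 0 < J := by omega
    exact_mod_cast this
  have hd : HasDensity (arcS ((i : ℝ) / J) (((i : ℝ) + 1) / J)) (1 / J) := by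
    have h1 := arc_density ((i : ℝ) / J) (((i : ℝ) + 1) / J) (by positivity)
      (by gcongr; linarith) (by
        rw [div_le_one hJ]
        exact_mod_cast hi)
    have e : ((i : ℝ) + 1) / J - i / J = 1 / J := by ring
    rw [e] at h1
    exact h1
  intro q a hq hWq ha
  have key : ∀ x p : ℕ, p ∈ PC q a x → p % W = a % W := by
    intro x p hp
    have hp1 : p ≡ a [MOD q] := (Finset.mem_filter.1 hp).2.2
    exact hp1.of_dvd hWq
  by_cases har : a % W = r
  · simp only [har, if_true]
    refine (hd q a hq ha).congr fun x => ?_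
    congr 2
    rw [arc_primesIn_eq, arc_primesIn_eq]
    congr 1
    refine Finset.filter_congr fun p hp => ?_
    have := key x p hp
    unfold cellC
    simp only [Set.mem_ofPred_eq, this, har, true_and]
  · simp only [har, if_false]
    refine tendsto_const_nhds.congr fun x => ?_
    have : primesIn (cellC W J r i) q a x = 0 := by
      rw [arc_primesIn_eq, Finset.card_eq_zero, Finset.filter_eq_empty_iff]
      intro p hp h
      exact har ((key x p hp).symm.trans h.1)
    rw [this]
    simp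

/-- The hypothesis on the means. -/
def MeanH (W c : ℕ) : Prop := ∀ (A B : Set ℕ) (al be : ℕ → ℝ), HasProfile A W al →
  HasProfile B W be → Tendsto (fun N : ℕ => avgc W c N (rho A B)) atTop
    (𝓝 (prs W c al be (fun _ a b => a * b)))

theorem cell_mean {W c J r i j : ℕ} (hmean : MeanH W c) (hi : i < J) (hj : j < J) :
    Tendsto (fun N : ℕ => avgc W c N (rho (cellC W J r i) (cellC W J ((c + W - r) % W) j))) atTop
      (𝓝 (if r ∈ adm W c then 1 / ((J : ℝ) ^ 2 * (adm W c).card) else 0)) := by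
  have h := hmean _ _ _ _ (cellC_profile (W := W) (r := r) hi)
    (cellC_profile (W := W) (r := (c + W - r) % W) hj)
  convert h using 2
  unfold prs
  have h1 : ∀ s ∈ adm W c, (if s = r then 1 / (J : ℝ) else 0) *
      (if (c + W - s) % W = (c + W - r) % W then 1 / (J : ℝ) else 0) =
      if s = r then 1 / (J : ℝ) ^ 2 else 0 := by
    intro s _
    by_cases hs : s = r
    · subst hs
      simp only [if_true]
      rw [← pow_two, div_pow, one_pow]
    · simp [hs]
  rw [sum_congr rfl h1, Finset.sum_ite_eq']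
  split_ifs with h2
  · rw [div_div]
  · rw [zero_div]

theorem rho_le_prs2 {W c J : ℕ} {al be : ℕ → ℝ} (hW1 : 1 ≤ W) (hJ : 1 ≤ J) {z : ℝ} {n : ℕ}
    (hn : n ≡ c [MOD W]) (hz : z ≤ |Real.sqrt 2 * n - round (Real.sqrt 2 * n)|) :
    rho (star W al) (star W be) n ≤
      ∑ r ∈ range W, ∑ ij ∈ R.prs2 J (al r) (be ((c + W - r) % W)) z,
        rho (cellC W J r ij.1) (cellC W J ((c + W - r) % W) ij.2) n := by
  classical
  unfold rho
  simp_rw [← Finset.sum_div]
  apply div_le_div_of_nonneg_right _ (shHL_nonneg n)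
  have h : Sm.repsIn (star W al) (star W be) n ≤
      ∑ r ∈ range W, ∑ ij ∈ R.prs2 J (al r) (be ((c + W - r) % W)) z,
        Sm.repsIn (cellC W J r ij.1) (cellC W J ((c + W - r) % W) ij.2) n := by
    unfold Sm.repsIn
    refine le_trans (Finset.card_le_card (t := (range W).biUnion fun r =>
      (R.prs2 J (al r) (be ((c + W - r) % W)) z).biUnion fun ij =>
        (range (n + 1)).filter (fun p => p.Prime ∧ (n - p).Prime ∧ p ∈ cellC W J r ij.1 ∧
          n - p ∈ cellC W J ((c + W - r) % W) ij.2)) ?_)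
      (Finset.card_biUnion_le.trans (Finset.sum_le_sum fun r _ => Finset.card_biUnion_le))
    intro p hp
    rw [Finset.mem_filter, Finset.mem_range] at hp
    obtain ⟨hpn, hp1, hp2, hpA, hpB⟩ := hp
    rw [Finset.mem_biUnion]
    obtain ⟨i, hiM, hi1, hi2, hi3⟩ := mem_arc (show 0 < J by omega) p
    obtain ⟨j, hjM, hj1, hj2, hj3⟩ := mem_arc (show 0 < J by omega) (n - p)
    have hpW : p % W < W := Nat.mod_lt _ (by omega)
    have hmod : (n - p) % W = (c + W - p % W) % W := by
      have h1 : n - p ≡ c + W - p % W [MOD W] := by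
        have h2 : n - p + p ≡ (c + W - p % W) + p [MOD W] := by
          have h3 : n - p + p = n := by omega
          rw [h3]
          refine hn.trans ?_
          have h4 : c + W - p % W + p = c + W * (p / W + 1) := by
            have := Nat.div_add_mod p W
            have h5 : W * (p / W + 1) = W * (p / W) + W := by ring
            omega
          rw [h4]
          unfold Nat.ModEq
          rw [Nat.add_mul_mod_self_left]
        exact Nat.ModEq.add_right_cancel' p h2
      exact h1
    refine ⟨p % W, Finset.mem_range.2 hpW, ?_⟩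
    rw [Finset.mem_biUnion]
    refine ⟨(i, j), ?_, ?_⟩
    · unfold R.prs2
      rw [Finset.mem_filter, Finset.mem_product, Finset.mem_range, Finset.mem_range]
      refine ⟨⟨hiM, hjM⟩, Int.fract (Real.sqrt 2 * (p : ℕ)),
        Int.fract (Real.sqrt 2 * ((n - p : ℕ) : ℝ)), hi1.1, hi1.2, hj1.1, hj1.2, ?_, ?_, ?_⟩
      · rw [ni_fract]
        exact hpA
      · rw [ni_fract, ← hmod]
        exact hpB
      · rw [ni_fract_add _ _ (Real.sqrt 2 * n)]
        · exact hz
        · rw [Nat.cast_sub (by omega)]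
          ring
    · rw [Finset.mem_filter, Finset.mem_range]
      exact ⟨hpn, hp1, hp2, ⟨rfl, hi1⟩, ⟨hmod, hj1⟩⟩
  exact_mod_cast h

theorem cells_limit {W c J : ℕ} {al be : ℕ → ℝ} (hmean : MeanH W c) (z : ℝ) :
    Tendsto (fun N : ℕ => ∑ r ∈ range W, ∑ ij ∈ R.prs2 J (al r) (be ((c + W - r) % W)) z,
      avgc W c N (rho (cellC W J r ij.1) (cellC W J ((c + W - r) % W) ij.2))) atTop
      (𝓝 (∑ r ∈ range W, ∑ _ij ∈ R.prs2 J (al r) (be ((c + W - r) % W)) z,
        if r ∈ adm W c then 1 / ((J : ℝ) ^ 2 * (adm W c).card) else 0)) := by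
  classical
  refine tendsto_finsetSum _ fun r _ => tendsto_finsetSum _ fun ij hij => ?_
  have h1 : ij.1 < J ∧ ij.2 < J := by
    unfold R.prs2 at hij
    rw [Finset.mem_filter, Finset.mem_product, Finset.mem_range, Finset.mem_range] at hij
    exact hij.1
  exact cell_mean hmean h1.1 h1.2

variable {W c : ℕ} {al be : ℕ → ℝ}

theorem cells_value {J : ℕ} (hJ : 1 ≤ J) (hcard : 0 < (adm W c).card)
    (hal : ∀ r, r < W → r.Coprime W → 0 ≤ al r ∧ al r ≤ 1)
    (hbe : ∀ r, r < W → r.Coprime W → 0 ≤ be r ∧ be r ≤ 1) {z : ℝ} (hz : 0 ≤ z) (hz1 : z ≤ 1 / 2) :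
    (∑ r ∈ range W, ∑ _ij ∈ R.prs2 J (al r) (be ((c + W - r) % W)) z,
        if r ∈ adm W c then 1 / ((J : ℝ) ^ 2 * (adm W c).card) else 0) ≤
      (2 * ∫ y in z..(1 / 2), tm W c al be y) + 100 / J := by
  have hJr : (0 : ℝ) < J := by exact_mod_cast hJ
  have hcr : (0 : ℝ) < (adm W c).card := by exact_mod_cast hcard
  have h1 : (∑ r ∈ range W, ∑ _ij ∈ R.prs2 J (al r) (be ((c + W - r) % W)) z,
      if r ∈ adm W c then 1 / ((J : ℝ) ^ 2 * (adm W c).card) else 0) =
      ∑ r ∈ adm W c, ((R.prs2 J (al r) (be ((c + W - r) % W)) z).card : ℝ) *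
        (1 / ((J : ℝ) ^ 2 * (adm W c).card)) := by
    symm
    have hsub : adm W c ⊆ range W := Finset.filter_subset _ _
    rw [Finset.sum_subset_zero_on_sdiff hsub (f := fun r =>
      ((R.prs2 J (al r) (be ((c + W - r) % W)) z).card : ℝ) *
        (1 / ((J : ℝ) ^ 2 * (adm W c).card))) (g := fun r => ∑ _ij ∈ R.prs2 J (al r)
          (be ((c + W - r) % W)) z,
      if r ∈ adm W c then 1 / ((J : ℝ) ^ 2 * (adm W c).card) else 0)]
    · intro r hr
      rw [Finset.mem_sdiff] at hr
      simp [hr.2]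
    · intro r hr
      simp only [hr, if_true, sum_const, nsmul_eq_mul]
  rw [h1]
  have h2 : ∀ r ∈ adm W c, ((R.prs2 J (al r) (be ((c + W - r) % W)) z).card : ℝ) *
      (1 / ((J : ℝ) ^ 2 * (adm W c).card)) ≤
      (2 * (∫ y in z..(1 / 2), trap (al r) (be ((c + W - r) % W)) y)) / (adm W c).card +
        100 / J / (adm W c).card := by
    intro r hr
    obtain ⟨⟨h3, h4⟩, h5, h6⟩ := adm_val hal hbe hr
    have h7 := R.card_prs2 hJ h3 h4 h5 h6 hz hz1
    calc _ ≤ (J ^ 2 * (2 * ∫ y in z..(1 / 2), trap (al r) (be ((c + W - r) % W)) y) + 100 * J) *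
          (1 / ((J : ℝ) ^ 2 * (adm W c).card)) := by
            exact mul_le_mul_of_nonneg_right h7 (by positivity)
      _ = _ := by
        field_simp
  refine (sum_le_sum h2).trans (le_of_eq ?_)
  rw [sum_add_distrib, sum_const, nsmul_eq_mul]
  have h3 : (∫ y in z..(1 / 2), tm W c al be y) =
      (∑ r ∈ adm W c, ∫ y in z..(1 / 2), trap (al r) (be ((c + W - r) % W)) y) /
        (adm W c).card := by
    unfold tm prs
    rw [intervalIntegral.integral_div, intervalIntegral.integral_finsetSum]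
    intro r _
    exact (trap_cont _ _).intervalIntegrable _ _
  rw [h3, ← sum_div, ← mul_sum]
  field_simp

/-- The numbers `n` of a class with `√2 n` close to an integer. -/
theorem near_card (hW1 : 1 ≤ W) {z : ℝ} (hz : 0 ≤ z) (hz1 : z ≤ 1 / 2) {ε : ℝ} (hε : 0 < ε) :
    ∀ᶠ N : ℕ in atTop, (W : ℝ) / N * (((Icc 1 N).filter (fun n => n ≡ c [MOD W])).filter
      (fun n : ℕ => |Real.sqrt 2 * n - round (Real.sqrt 2 * n)| < z)).card ≤ 2 * z + ε := by
  classical
  have h1 := class_arc hW1 c (Real.sqrt 2) irrational_sqrt_two 0 z le_rfl hz (by linarith)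
  have h2 := class_arc hW1 c (Real.sqrt 2) irrational_sqrt_two (1 - z) 1 (by linarith)
    (by linarith) le_rfl
  have h3 := (h1.add h2).eventually (gt_mem_nhds (show z - 0 + (1 - (1 - z)) < 2 * z + ε by
    linarith))
  filter_upwards [h3] with N hN
  refine le_trans ?_ hN.le
  rw [← mul_add]
  refine mul_le_mul_of_nonneg_left ?_ (by positivity)
  rw [← Nat.cast_add]
  refine Nat.cast_le.2 (le_trans (Finset.card_le_card ?_) (Finset.card_union_le _ _))
  intro n hn
  rw [Finset.filter_filter, Finset.mem_filter] at hn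
  obtain ⟨hn1, hn2, hn3⟩ := hn
  rw [abs_sub_round_eq_min, min_lt_iff] at hn3
  rw [Finset.mem_union, Finset.mem_filter, Finset.mem_filter]
  rcases hn3 with h4 | h4
  · exact Or.inl ⟨hn1, hn2, Int.fract_nonneg _, h4⟩
  · exact Or.inr ⟨hn1, hn2, by linarith, Int.fract_lt_one _⟩

/-- The truncated means of the counts for the sets `star W al`, `star W be`. -/
theorem sharp_pf_of (hW1 : 1 ≤ W) (hW2 : 2 ∣ W) (hc2 : 2 ∣ c) (hmean : MeanH W c)
    (hal : ∀ r, r < W → r.Coprime W → 0 ≤ al r ∧ al r ≤ 1)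
    (hbe : ∀ r, r < W → r.Coprime W → 0 ≤ be r ∧ be r ≤ 1) (t : ℝ) (ht : 0 ≤ t) (ε : ℝ)
    (hε : 0 < ε) : ∀ᶠ N : ℕ in atTop,
      avgc W c N (fun n => min (rho (star W al) (star W be) n) t) ≤
        rearr W c al be (fun y => min y t) + ε := by
  classical
  obtain ⟨z, hz, hz1, hzt⟩ := lw_split (F := tm W c al be) tm_cont tm_anti (t := t)
  obtain ⟨J, hJ⟩ := exists_nat_gt (400 / ε)
  have hJr : (0 : ℝ) < J := lt_of_le_of_lt (by positivity) hJ
  have hJ1 : 1 ≤ J := by exact_mod_cast hJr
  have hJε : 100 / (J : ℝ) ≤ ε / 4 := by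
    rw [div_lt_iff₀ hε] at hJ
    rw [div_le_iff₀ hJr]
    linarith
  have h1 := (cells_limit (J := J) (al := al) (be := be) hmean z).eventually (gt_mem_nhds
    (lt_add_of_le_of_pos (cells_value hJ1 (adm_card_pos hW1 hW2 hc2) hal hbe hz hz1)
      (by positivity : (0 : ℝ) < ε / 4)))
  have h2 := near_card (c := c) hW1 hz hz1 (ε := ε / (4 * (t + 1))) (by positivity)
  filter_upwards [h1, h2] with N hN1 hN2
  rw [rearr_tm, hzt]
  unfold avgc
  rw [← Finset.sum_filter_add_sum_filter_not _
    (fun n : ℕ => |Real.sqrt 2 * n - round (Real.sqrt 2 * n)| < z), mul_add]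
  have h3 : (W : ℝ) / N * ∑ n ∈ ((Icc 1 N).filter (fun n => n ≡ c [MOD W])).filter
      (fun n : ℕ => |Real.sqrt 2 * n - round (Real.sqrt 2 * n)| < z),
      min (rho (star W al) (star W be) n) t ≤ (2 * z + ε / (4 * (t + 1))) * t := by
    refine le_trans ?_ (mul_le_mul_of_nonneg_right hN2 ht)
    rw [mul_assoc]
    refine mul_le_mul_of_nonneg_left ?_ (by positivity)
    rw [← nsmul_eq_mul, ← Finset.sum_const]
    exact Finset.sum_le_sum fun n _ => min_le_right _ _
  have h4 : (W : ℝ) / N * ∑ n ∈ ((Icc 1 N).filter (fun n => n ≡ c [MOD W])).filter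
      (fun n : ℕ => ¬ |Real.sqrt 2 * n - round (Real.sqrt 2 * n)| < z),
      min (rho (star W al) (star W be) n) t ≤
      ∑ r ∈ range W, ∑ ij ∈ R.prs2 J (al r) (be ((c + W - r) % W)) z,
        avgc W c N (rho (cellC W J r ij.1) (cellC W J ((c + W - r) % W) ij.2)) := by
    have h5 : ∑ r ∈ range W, ∑ ij ∈ R.prs2 J (al r) (be ((c + W - r) % W)) z,
        avgc W c N (rho (cellC W J r ij.1) (cellC W J ((c + W - r) % W) ij.2)) =
        avgc W c N (fun n => ∑ r ∈ range W, ∑ ij ∈ R.prs2 J (al r) (be ((c + W - r) % W)) z,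
          rho (cellC W J r ij.1) (cellC W J ((c + W - r) % W) ij.2) n) := by
      rw [avgc_sum]
      refine sum_congr rfl fun r _ => ?_
      rw [avgc_sum]
    rw [h5]
    unfold avgc
    refine mul_le_mul_of_nonneg_left ?_ (by positivity)
    refine le_trans (Finset.sum_le_sum fun n hn => ?_)
      (Finset.sum_le_sum_of_subset_of_nonneg (Finset.filter_subset _ _) fun n _ _ =>
        Finset.sum_nonneg fun r _ => Finset.sum_nonneg fun ij _ => shrho_nonneg _ _ _)
    rw [Finset.mem_filter, Finset.mem_filter] at hn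
    exact (min_le_left _ _).trans (rho_le_prs2 hW1 hJ1 hn.1.2 (not_lt.1 hn.2))
  have h6 : ε / (4 * (t + 1)) * t ≤ ε / 4 := by
    rw [div_mul_eq_mul_div, div_le_iff₀ (by positivity)]
    nlinarith
  nlinarith

end Pool.Agent.Lib.MP_629a14_nt.Kp
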