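import Pool.Agent.Lib.MP_629a14_nt.Kp.PfDefs
import Pool.Agent.Lib.MP_629a14_nt.Kp.Arc

/-! The sets `star W al` have the profile `al`. -/

set_option autoImplicit false

namespace Pool.Agent.Lib.MP_629a14_nt.Kp

open Finset Filter Topology Pool.Agent.Lib.MP_629a14_nt Pool.Agent.Lib.MP_629a14_nt.Rob

theorem PC_weyl_shift (q c : ℕ) (hq : 1 ≤ q) (hc : c.Coprime q) (β : ℝ) (hβ : Irrational β)
    (γ : ℝ) (n : ℤ) (hn : n ≠ 0) :
    Tendsto (fun N => wavg (PC q c N) (fun p => β * p + γ) (fourier n)) atTop (𝓝 0) := by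
  have h := (PC_weyl q c hq hc β hβ n hn).const_mul ((fourier n) ((γ : ℝ) : UnitAddCircle))
  rw [mul_zero] at h
  refine h.congr fun N => ?_
  unfold wavg
  rw [mul_div_assoc', Finset.mul_sum]
  congr 1
  refine Finset.sum_congr rfl fun p _ => ?_
  rw [fourier_coe_apply, fourier_coe_apply, fourier_coe_apply, ← Complex.exp_add]
  congr 1
  push_cast
  ring

/-- Centred arcs in terms of fractional parts. -/
theorem sym_iff {t : ℝ} (ht1 : t ≤ 1) (x : ℝ) :
    |x - round x| < t / 2 ↔ 0 < Int.fract (x + t / 2) ∧ Int.fract (x + t / 2) < t := by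
  constructor
  · intro h
    have h1 := abs_lt.1 h
    have h2 : Int.fract (x + t / 2) = x - round x + t / 2 := by
      rw [Int.fract_eq_iff]
      refine ⟨by linarith, by linarith, round x, by ring⟩
    rw [h2]
    constructor <;> linarith
  · rintro ⟨h1, h2⟩
    refine (round_le x ⌊x + t / 2⌋).trans_lt ?_
    have h3 : x - (⌊x + t / 2⌋ : ℝ) = Int.fract (x + t / 2) - t / 2 := by
      rw [Int.fract]
      ring
    rw [h3, abs_lt]
    constructor <;> linarith

theorem sym_arc (q c : ℕ) (hq : 1 ≤ q) (hc : c.Coprime q) (β : ℝ) (hβ : Irrational β)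
    {t : ℝ} (ht0 : 0 ≤ t) (ht1 : t ≤ 1) :
    Tendsto (fun N => (((PC q c N).filter (fun p : ℕ => |β * p - round (β * p)| < t / 2)).card : ℝ) /
      (PC q c N).card) atTop (𝓝 t) := by
  have key : ∀ a, 0 ≤ a → a ≤ t → Tendsto (fun N => (((PC q c N).filter
      (fun p : ℕ => a ≤ Int.fract (β * p + t / 2) ∧ Int.fract (β * p + t / 2) < t)).card : ℝ) /
      (PC q c N).card) atTop (𝓝 (t - a)) := fun a ha hat =>
    arc (PC q c) (fun p => β * p + t / 2) (PC_nonempty q c hq hc)
      (fun n hn => PC_weyl_shift q c hq hc β hβ (t / 2) n hn) ha hat ht1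
  rw [tendsto_order]
  constructor
  · intro u hu
    rcases eq_or_lt_of_le ht0 with h0 | h0
    · refine Eventually.of_forall fun N => ?_
      have : (0 : ℝ) ≤ (((PC q c N).filter (fun p : ℕ => |β * p - round (β * p)| < t / 2)).card : ℝ) /
        (PC q c N).card := by positivity
      linarith
    · have hm : min t ((t - u) / 2) ≤ t := min_le_left _ _
      have hm0 : 0 < min t ((t - u) / 2) := lt_min h0 (by linarith)
      have h1 := key (min t ((t - u) / 2)) hm0.le hm
      have h2 : u < t - min t ((t - u) / 2) := by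
        have := min_le_right t ((t - u) / 2)
        linarith
      filter_upwards [(tendsto_order.1 h1).1 _ h2] with N hN
      refine hN.trans_le (div_le_div_of_nonneg_right ?_ (Nat.cast_nonneg _))
      exact_mod_cast Finset.card_le_card (fun p hp => by
        rw [Finset.mem_filter] at hp ⊢
        exact ⟨hp.1, (sym_iff ht1 _).2 ⟨hm0.trans_le hp.2.1, hp.2.2⟩⟩)
  · intro u hu
    have h1 := key 0 le_rfl ht0
    rw [sub_zero] at h1
    filter_upwards [(tendsto_order.1 h1).2 _ hu] with N hN
    refine (div_le_div_of_nonneg_right ?_ (Nat.cast_nonneg _)).trans_lt hN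
    exact_mod_cast Finset.card_le_card (fun p hp => by
      rw [Finset.mem_filter] at hp ⊢
      have h2 := (sym_iff ht1 _).1 hp.2
      exact ⟨hp.1, h2.1.le, h2.2⟩)

/-- The set `star W al` has relative density `al (a % W)` in every reduced residue class `a` modulo
every multiple of `W`. -/
theorem star_profile {W : ℕ} {al : ℕ → ℝ} (hW1 : 1 ≤ W)
    (hal : ∀ r, r < W → r.Coprime W → 0 ≤ al r ∧ al r ≤ 1) : HasProfile (star W al) W al := by
  classical
  intro q a hq hWq ha
  have hr : a % W < W := Nat.mod_lt _ hW1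
  have haW : a.Coprime W := Nat.Coprime.coprime_dvd_right hWq ha
  have hrW : (a % W).Coprime W := by
    rw [Nat.Coprime, (Nat.mod_modEq a W).gcd_eq]
    exact haW
  obtain ⟨h0, h1⟩ := hal _ hr hrW
  have h2 := sym_arc q a hq ha (Real.sqrt 2) irrational_sqrt_two h0 h1
  refine h2.congr fun N => ?_
  rw [arc_primesIn_eq (star W al), arc_primesIn_eq Set.univ]
  congr 2
  · congr 1
    refine Finset.filter_congr fun p hp => ?_
    have hp1 : p ≡ a [MOD q] := (Finset.mem_filter.1 hp).2.2
    have hp2 : p % W = a % W := hp1.of_dvd hWq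
    simp only [star, Set.mem_ofPred_eq, hp2]
  · rw [Finset.filter_true_of_mem (fun p _ => Set.mem_univ p)]

end Pool.Agent.Lib.MP_629a14_nt.Kp
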