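import Pool.Agent.Lib.MP_629a14_nt.Kp.GStruct
import Pool.Agent.Lib.MP_629a14_nt.Kp.PfDens

/-! The structure theorem for sets of primes with given densities in the residue classes. -/

set_option autoImplicit false

namespace Pool.Agent.Lib.MP_629a14_nt.Kp

open Finset Filter Topology Pool.Agent.Lib.MP_629a14_nt Pool.Agent.Lib.MP_629a14_nt.Rob
open Pool.Agent.Lib.MP_629a14_nt.Ml

/-- The densities are in `[0, 1]`. -/
theorem HasProfile.bounds {A : Set ℕ} {W : ℕ} {al : ℕ → ℝ} (hA : HasProfile A W al) (hW : 1 ≤ W)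
    (b : ℕ) (hb : b.Coprime W) : 0 ≤ al (b % W) ∧ al (b % W) ≤ 1 := by
  have h := hA W b hW dvd_rfl hb
  constructor
  · exact ge_of_tendsto' h fun x => by positivity
  · refine le_of_tendsto' h fun x => ?_
    refine div_le_one_of_le₀ ?_ (by positivity)
    unfold primesIn
    have : Set.ncard {p : ℕ | p ≤ x ∧ p.Prime ∧ p ∈ A ∧ p ≡ b [MOD W]} ≤
        Set.ncard {p : ℕ | p ≤ x ∧ p.Prime ∧ p ∈ Set.univ ∧ p ≡ b [MOD W]} := by
      refine Set.ncard_le_ncard ?_ ?_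
      · rintro p ⟨h1, h2, -, h3⟩
        exact ⟨h1, h2, Set.mem_univ _, h3⟩
      · exact (Set.finite_Iic x).subset fun p hp => hp.1
    exact_mod_cast this

/-- From `LocG` to `LocP`. -/
theorem locP_of_locG {A : Set ℕ} {W v R Q N : ℕ} {al : ℕ → ℝ} {ε δ c : ℝ} {T : Finset ℕ}
    {κ : ℕ → ℝ} {τ : ℕ → ℤ} {f : ℕ → ℝ} (hA : HasProfile A W al) (hW : 1 ≤ W) (hε : 0 < ε)
    (hRV : primorial v ∣ R) (hRW : W ∣ R) (hR : 1 ≤ R)
    (hRp : ∀ p : ℕ, p.Prime → p ∣ R → p ≤ v) (hQ : c * N ≤ Q) (hN : 1 / ε < N)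
    (hT : ∀ t ∈ T, (W : ℤ) ∣ τ t ∧ (primorial v : ℤ) ∣ τ t ∧ |(τ t : ℝ)| ≤ ε / 4 * N ∧ 0 ≤ κ t)
    (h1 : ∑ t ∈ T, κ t ≤ 1) (h2 : 1 - ε / 4 ≤ ∑ t ∈ T, κ t) (hδ : 2 * δ ≤ ε / 2 * c)
    (hδ0 : 0 < δ)
    (hu : ∀ b : ℕ, b.Coprime R → ∀ x : ℕ, x ≤ N →
      |Real.log N * (cntA A R b x : ℝ) - al (b % W) * x / R.totient| ≤ δ * N)
    (hf : LocG (primorial v) R Q N T κ τ A (En.kap v) (ε / 4) f) :
    LocP W (primorial v) R Q N al ε f := by
  have hRr : (1 : ℝ) ≤ R := by exact_mod_cast hR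
  have hN0 : (0 : ℝ) < N := lt_trans (by positivity) hN
  have hQ0 : (0 : ℝ) ≤ Q := Nat.cast_nonneg Q
  have hkap := one_le_kap v
  have hRtot := totient_ratio v R hR hRV hRp
  have hφ : (0 : ℝ) < R.totient := by exact_mod_cast Nat.totient_pos.2 (by omega)
  refine ⟨hf.nonneg, fun x => (hf.le x).trans (by linarith), hf.supp,
    fun x => (hf.per x).trans (by linarith), fun x₀ b hx hx' hb hbW => ?_⟩
  have h3 := hf.mean x₀ b (le_trans (by nlinarith) hx) (hx'.trans (by nlinarith)) hb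
  obtain ⟨ha0, ha1⟩ := hA.bounds hW b hbW
  -- one shift
  have hone : ∀ t ∈ T, |Real.log N * (cntI A R (x₀ + τ t) (x₀ + τ t + R * Q) (b + τ t) : ℝ) -
      al (b % W) * En.kap v * Q| ≤ 2 * (δ * N) := by
    intro t ht
    obtain ⟨ht1, ht2, ht3, -⟩ := hT t ht
    set b' : ℕ := ((b + τ t) % (R : ℤ)).toNat with hb'
    have hR0 : (R : ℤ) ≠ 0 := by exact_mod_cast (by omega : R ≠ 0)
    have hb'' : ((b' : ℕ) : ℤ) = (b + τ t) % (R : ℤ) := by
      rw [hb', Int.toNat_of_nonneg (Int.emod_nonneg _ hR0)]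
    have hbm : (b' : ℤ) ≡ b + τ t [ZMOD R] := by
      rw [hb'']
      exact Int.mod_modEq _ _
    have hbW' : b' % W = b % W := by
      have g1 : (b' : ℤ) ≡ b + τ t [ZMOD W] := hbm.of_dvd (by exact_mod_cast hRW)
      have g2 : (b : ℤ) + τ t ≡ b + 0 [ZMOD W] :=
        Int.ModEq.add_left _ ((Int.modEq_zero_iff_dvd).2 ht1)
      rw [add_zero] at g2
      exact (Int.natCast_modEq_iff).1 (g1.trans g2)
    have hbR : b'.Coprime R := by
      have g1 : (b' : ℤ) ≡ b + τ t [ZMOD (primorial v : ℕ)] := hbm.of_dvd (by exact_mod_cast hRV)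
      have g2 : (b : ℤ) + τ t ≡ b + 0 [ZMOD (primorial v : ℕ)] :=
        Int.ModEq.add_left _ ((Int.modEq_zero_iff_dvd).2 ht2)
      rw [add_zero] at g2
      have g3 : b' ≡ b [MOD primorial v] := (Int.natCast_modEq_iff).1 (g1.trans g2)
      have g4 : b'.Coprime (primorial v) := by
        have := g3.gcd_eq
        unfold Nat.Coprime at hb ⊢
        rw [this, hb]
      by_contra h
      obtain ⟨p, hp, h2, h3⟩ := Nat.Prime.not_coprime_iff_dvd.1 h
      have h5 : p ∣ primorial v := hp.dvd_primorial_iff.2 (hRp p hp h3)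
      exact hp.one_lt.ne' (Nat.dvd_one.1 (g4 ▸ Nat.dvd_gcd h2 h5))
    have g5 := (abs_le.1 ht3)
    have g6 : (1 : ℝ) ≤ (x₀ : ℝ) + τ t := by
      have : 1 < ε * N := by
        rw [div_lt_iff₀ hε] at hN
        linarith
      have hh : (0 : ℝ) < (x₀ : ℝ) + τ t := by nlinarith
      have hh' : (0 : ℤ) < (x₀ : ℤ) + τ t := by exact_mod_cast hh
      have hh'' : (1 : ℤ) ≤ (x₀ : ℤ) + τ t := hh'
      exact_mod_cast hh''
    have g7 : (x₀ : ℝ) + τ t + R * Q ≤ N + 1 := by nlinarith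
    have g8 := cntI_close (A := A) (R := R) (N := N) (a := al (b % W)) (ε := δ) (x₀ + τ t)
      (x₀ + τ t + R * Q) (b + τ t) b' hbm (by exact_mod_cast g6) (by
        have : (0 : ℤ) ≤ (R : ℤ) * Q := by positivity
        linarith) (by exact_mod_cast g7) (fun z hz => by
        have := hu b' hbR z hz
        rwa [hbW'] at this)
    refine le_trans (le_of_eq ?_) g8
    congr 2
    rw [← hRtot]
    push_cast
    field_simp
    ring
  have h4 : |Real.log N / En.kap v * ∑ t ∈ T, κ t *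
      (cntI A R (x₀ + τ t) (x₀ + τ t + R * Q) (b + τ t) : ℝ) -
      al (b % W) * Q * ∑ t ∈ T, κ t| ≤ 2 * (δ * N) := by
    have e : Real.log N / En.kap v * ∑ t ∈ T, κ t *
        (cntI A R (x₀ + τ t) (x₀ + τ t + R * Q) (b + τ t) : ℝ) -
        al (b % W) * Q * ∑ t ∈ T, κ t = ∑ t ∈ T, κ t * ((Real.log N *
        (cntI A R (x₀ + τ t) (x₀ + τ t + R * Q) (b + τ t) : ℝ) -
        al (b % W) * En.kap v * Q) / En.kap v) := by
      rw [mul_sum, mul_sum, ← sum_sub_distrib]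
      refine sum_congr rfl fun t _ => ?_
      field_simp
    rw [e]
    refine (abs_sum_le_sum_abs _ _).trans ?_
    calc ∑ t ∈ T, |κ t * ((Real.log N *
          (cntI A R (x₀ + τ t) (x₀ + τ t + R * Q) (b + τ t) : ℝ) -
          al (b % W) * En.kap v * Q) / En.kap v)| ≤ ∑ t ∈ T, κ t * (2 * (δ * N)) := by
          refine sum_le_sum fun t ht => ?_
          rw [abs_mul, abs_of_nonneg (hT t ht).2.2.2, abs_div,
            abs_of_pos (show 0 < En.kap v by linarith)]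
          refine mul_le_mul_of_nonneg_left ?_ (hT t ht).2.2.2
          exact (div_le_self (abs_nonneg _) hkap).trans (hone t ht)
      _ = (∑ t ∈ T, κ t) * (2 * (δ * N)) := by rw [sum_mul]
      _ ≤ 1 * (2 * (δ * N)) := mul_le_mul_of_nonneg_right h1 (by positivity)
      _ = _ := one_mul _
  have h5 : |al (b % W) * Q * ∑ t ∈ T, κ t - al (b % W) * Q| ≤ ε / 4 * Q := by
    have e : al (b % W) * Q * ∑ t ∈ T, κ t - al (b % W) * Q =
      -(al (b % W) * Q * (1 - ∑ t ∈ T, κ t)) := by ring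
    rw [e, abs_neg, abs_of_nonneg (mul_nonneg (mul_nonneg ha0 hQ0) (by linarith))]
    calc al (b % W) * Q * (1 - ∑ t ∈ T, κ t) ≤ 1 * Q * (ε / 4) := by
          refine mul_le_mul (mul_le_mul_of_nonneg_right ha1 hQ0) (by linarith) (by linarith)
            (by positivity)
      _ = _ := by ring
  have h6 : 2 * (δ * N) ≤ ε / 2 * Q := by
    calc 2 * (δ * N) = (2 * δ) * N := by ring
      _ ≤ (ε / 2 * c) * N := mul_le_mul_of_nonneg_right hδ hN0.le
      _ = ε / 2 * (c * N) := by ring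
      _ ≤ ε / 2 * Q := mul_le_mul_of_nonneg_left hQ (by positivity)
  have h7 := abs_sub_le (∑ x ∈ (Ico x₀ (x₀ + R * Q)).filter (fun x => x ≡ b [MOD R]), f x)
    (Real.log N / En.kap v * ∑ t ∈ T, κ t *
      (cntI A R (x₀ + τ t) (x₀ + τ t + R * Q) (b + τ t) : ℝ)) (al (b % W) * Q)
  have h8 := abs_sub_le (Real.log N / En.kap v * ∑ t ∈ T, κ t *
      (cntI A R (x₀ + τ t) (x₀ + τ t + R * Q) (b + τ t) : ℝ))
      (al (b % W) * Q * ∑ t ∈ T, κ t) (al (b % W) * Q)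
  linarith

theorem struct_pf {A B : Set ℕ} {W : ℕ} {al be : ℕ → ℝ} (hW1 : 1 ≤ W)
    (hA : HasProfile A W al) (hB : HasProfile B W be) {ε : ℝ} (hε : 0 < ε) :
    ∃ v : ℕ, 2 ≤ v ∧ W ≤ v ∧ 1 / ε ≤ v ∧ ∃ N₀ : ℕ, ∀ N : ℕ, N₀ ≤ N →
      StrucP W v N A B al be ε := by
  classical
  obtain ⟨v, hv2, hvW, hvε, R₀, c, hc, N₀, h0⟩ := struct_gen W hW1 (ε := ε / 4) (by positivity)
  obtain ⟨δ, hδ⟩ : ∃ δ : ℝ, δ = ε / 4 * c := ⟨_, rfl⟩
  have hδ0 : 0 < δ := by rw [hδ]; positivity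
  have hu : ∀ (D : Set ℕ) (ga : ℕ → ℝ), HasProfile D W ga → ∀ R : ℕ, ∃ X₀ : ℕ, 1 ≤ R → W ∣ R →
      ∀ X : ℕ, X₀ ≤ X → ∀ b : ℕ, b.Coprime R → ∀ x : ℕ, x ≤ X →
      |Real.log X * (cntA D R b x : ℝ) - ga (b % W) * x / R.totient| ≤ δ * X := by
    intro D ga hD R
    by_cases h : 1 ≤ R ∧ W ∣ R
    · obtain ⟨X₀, hX₀⟩ := prof_unif hD R h.1 h.2 δ hδ0
      exact ⟨X₀, fun _ _ => hX₀⟩
    · exact ⟨0, fun h1 h2 => absurd ⟨h1, h2⟩ h⟩
  choose XA hXA using hu A al hA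
  choose XB hXB using hu B be hB
  obtain ⟨N₁, hN₁⟩ := exists_nat_gt (1 / ε)
  refine ⟨v, hv2, hvW, le_trans ?_ hvε, max (max N₀ N₁)
    (max ((range (R₀ + 1)).sup XA) ((range (R₀ + 1)).sup XB)), fun N hN => ?_⟩
  · exact one_div_le_one_div_of_le (by positivity) (by linarith)
  have g0 : N₀ ≤ N := (le_max_left _ _).trans ((le_max_left _ _).trans hN)
  have g1 : N₁ ≤ N := (le_max_right _ _).trans ((le_max_left _ _).trans hN)
  have g2 : (range (R₀ + 1)).sup XA ≤ N :=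
    (le_max_left _ _).trans ((le_max_right _ _).trans hN)
  have g3 : (range (R₀ + 1)).sup XB ≤ N :=
    (le_max_right _ _).trans ((le_max_right _ _).trans hN)
  have hNε : 1 / ε < N := hN₁.trans_le (by exact_mod_cast g1)
  have hNr : (0 : ℝ) ≤ N := Nat.cast_nonneg N
  obtain ⟨R, Q, hRV, hRW, hR, hRR, hRp, hQ1, hQp, hRQ, hQc, T, κ, τ, hT, hT1, hT2, f, g, hf, hg,
    hexc⟩ := h0 N g0 A B
  have hRr : R ∈ range (R₀ + 1) := mem_range.2 (by omega)
  refine ⟨R, Q, hRV, hRW, hR, hQ1, hQp, hRQ.trans (by nlinarith), f, g, ?_, ?_, ?_⟩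
  · exact locP_of_locG hA hW1 hε hRV hRW hR hRp hQc hNε hT hT1 hT2 (by rw [hδ]; linarith) hδ0
      (hXA R hR hRW N ((le_sup hRr).trans g2)) hf
  · exact locP_of_locG hB hW1 hε hRV hRW hR hRp hQc hNε hT hT1 hT2 (by rw [hδ]; linarith) hδ0
      (hXB R hR hRW N ((le_sup hRr).trans g3)) hg
  · refine le_trans ?_ (hexc.trans (by nlinarith))
    have : (Icc 1 N).filter (fun n => Even n ∧ ε < |rho A B n - model v f g n|) ⊆
        (Icc 1 N).filter (fun n => Even n ∧ ε / 4 < |rho A B n - model v f g n|) := by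
      intro n hn
      rw [mem_filter] at hn ⊢
      exact ⟨hn.1, hn.2.1, lt_trans (by linarith) hn.2.2⟩
    exact_mod_cast card_le_card this

end Pool.Agent.Lib.MP_629a14_nt.Kp
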