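import Pool.Agent.Lib.MP_629a14_nt.Kp.PfClass
import Pool.Agent.Lib.MP_629a14_nt.Kp.PfRL
import Pool.Agent.Lib.MP_629a14_nt.Kp.PfMean
import Pool.Agent.Lib.MP_629a14_nt.Kp.Zero

/-! The numbers without representations by the extremal pair of sets. -/

set_option autoImplicit false

namespace Pool.Agent.Lib.MP_629a14_nt.Kp

open Finset Filter Topology Pool.Agent.Lib.MP_629a14_nt Pool.Agent.Lib.MP_629a14_nt.Rob

variable {W c : ℕ} {al be : ℕ → ℝ}

/-- The class of the first prime in a representation. -/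
theorem adm_of_rep (hW1 : 1 ≤ W) {n p : ℕ} (hn : n ≡ c [MOD W]) (hp : p ≤ n) (hp1 : p.Prime)
    (hp2 : (n - p).Prime) (hpW : W < p) (hqW : W < n - p) :
    p % W ∈ adm W c ∧ (c + W - p % W) % W = (n - p) % W := by
  have h1 : p % W < W := Nat.mod_lt _ hW1
  have hco : ∀ q : ℕ, q.Prime → W < q → q.Coprime W := by
    intro q hq hlt
    rw [Nat.Prime.coprime_iff_not_dvd hq]
    intro hd
    exact absurd (Nat.le_of_dvd (by omega) hd) (by omega)
  have h2 : (c + W - p % W) ≡ (n - p) [MOD W] := by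
    have h3 : (c + W - p % W) + p % W ≡ (n - p) + p % W [MOD W] := by
      have h4 : (c + W - p % W) + p % W = c + W := by omega
      rw [h4]
      have h5 : (n - p) + p % W ≡ (n - p) + p [MOD W] := Nat.ModEq.add_left _ (Nat.mod_modEq p W)
      have h6 : (n - p) + p = n := by omega
      rw [h6] at h5
      have h7 : c + W ≡ c [MOD W] := by
        unfold Nat.ModEq
        rw [Nat.add_mod_right]
      exact h7.trans (hn.symm.trans h5.symm)
    exact Nat.ModEq.add_right_cancel' _ h3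
  refine ⟨?_, h2⟩
  unfold adm
  rw [mem_filter, mem_range]
  refine ⟨h1, ?_, ?_⟩
  · unfold Nat.Coprime
    rw [(Nat.mod_modEq p W).gcd_eq]
    exact hco p hp1 hpW
  · unfold Nat.Coprime
    rw [h2.gcd_eq]
    exact hco _ hp2 hqW

theorem no_rep (hW1 : 1 ≤ W) (hal : ∀ r, r < W → r.Coprime W → 0 ≤ al r ∧ al r ≤ 1)
    (hbe : ∀ r, r < W → r.Coprime W → 0 ≤ be r ∧ be r ≤ 1) {n : ℕ} (hn : n ≡ c [MOD W])
    (hr : ¬ ∃ q ≤ W, q ≤ n ∧ (n - q).Prime)
    (hz : tm W c al be |Real.sqrt 2 * n - round (Real.sqrt 2 * n)| = 0) :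
    rho (star W al) (star W be) n = 0 := by
  classical
  unfold rho
  have h0 : Sm.repsIn (star W al) (star W be) n = 0 := by
    unfold Sm.repsIn
    rw [card_eq_zero, filter_eq_empty_iff]
    intro p hp
    rw [mem_range] at hp
    rintro ⟨h1, h2, h3, h4⟩
    have hpn : p ≤ n := by omega
    have hpW : W < p := by
      by_contra h
      exact hr ⟨p, not_lt.1 h, hpn, h2⟩
    have hqW : W < n - p := by
      by_contra h
      refine hr ⟨n - p, not_lt.1 h, Nat.sub_le _ _, ?_⟩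
      rw [Nat.sub_sub_self hpn]
      exact h1
    obtain ⟨h5, h6⟩ := adm_of_rep hW1 hn hpn h1 h2 hpW hqW
    have h7 : |Real.sqrt 2 * p - round (Real.sqrt 2 * p)| < al (p % W) / 2 := h3
    have h8 : |Real.sqrt 2 * ((n - p : ℕ) : ℝ) - round (Real.sqrt 2 * ((n - p : ℕ) : ℝ))| <
      be ((n - p) % W) / 2 := h4
    set x := |Real.sqrt 2 * n - round (Real.sqrt 2 * n)| with hx
    have h9 : x < (al (p % W) + be ((n - p) % W)) / 2 := by
      have e1 := round_le (Real.sqrt 2 * n)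
        (round (Real.sqrt 2 * p) + round (Real.sqrt 2 * ((n - p : ℕ) : ℝ)))
      have e2 : Real.sqrt 2 * (n : ℝ) = Real.sqrt 2 * p + Real.sqrt 2 * ((n - p : ℕ) : ℝ) := by
        rw [Nat.cast_sub hpn]
        ring
      rw [← hx] at e1
      push_cast at e1
      have e3 := abs_add_le (Real.sqrt 2 * p - round (Real.sqrt 2 * p))
        (Real.sqrt 2 * ((n - p : ℕ) : ℝ) - round (Real.sqrt 2 * ((n - p : ℕ) : ℝ)))
      have e4 : Real.sqrt 2 * (n : ℝ) - (round (Real.sqrt 2 * p) +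
          round (Real.sqrt 2 * ((n - p : ℕ) : ℝ))) = (Real.sqrt 2 * p - round (Real.sqrt 2 * p)) +
          (Real.sqrt 2 * ((n - p : ℕ) : ℝ) - round (Real.sqrt 2 * ((n - p : ℕ) : ℝ))) := by
        rw [e2]
        ring
      rw [e4] at e1
      linarith
    have hpos : 0 < al (p % W) := by
      have := abs_nonneg (Real.sqrt 2 * p - round (Real.sqrt 2 * p))
      linarith
    have hpos' : 0 < be ((n - p) % W) := by
      have := abs_nonneg (Real.sqrt 2 * ((n - p : ℕ) : ℝ) - round (Real.sqrt 2 * ((n - p : ℕ) : ℝ)))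
      linarith
    have h10 : 0 < tm W c al be x := by
      unfold tm prs
      refine div_pos ?_ (by exact_mod_cast card_pos.2 ⟨_, h5⟩)
      refine sum_pos' (fun r hr' => ?_) ⟨p % W, h5, ?_⟩
      · obtain ⟨⟨g1, g2⟩, g3, g4⟩ := adm_val hal hbe hr'
        exact trap_nonneg g1 g3 x
      · rw [h6]
        unfold trap
        refine lt_min (lt_min hpos hpos') (lt_max_of_lt_right ?_)
        linarith
    rw [hz] at h10
    exact lt_irrefl _ h10
  rw [h0]
  simp

theorem zero_pf (hW1 : 1 ≤ W) (hal : ∀ r, r < W → r.Coprime W → 0 ≤ al r ∧ al r ≤ 1)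
    (hbe : ∀ r, r < W → r.Coprime W → 0 ≤ be r ∧ be r ≤ 1) (ε : ℝ) (hε : 0 < ε) :
    ∀ᶠ N : ℕ in atTop, rearr W c al be z0 - ε ≤
      avgc W c N (fun n => z0 (rho (star W al) (star W be) n)) := by
  classical
  rw [rearr_tm]
  have hnn : ∀ N : ℕ, 0 ≤ avgc W c N (fun n => z0 (rho (star W al) (star W be) n)) := by
    intro N
    unfold avgc
    exact mul_nonneg (by positivity) (sum_nonneg fun n _ => z0_nonneg _)
  set F := tm W c al be with hF
  have hFc : Continuous F := tm_cont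
  have hFa : Antitone F := tm_anti
  have hF0 : ∀ x, 0 ≤ F x := tm_nonneg hal hbe
  by_cases hz : ∃ x : ℝ, 0 ≤ x ∧ x ≤ 1 / 2 ∧ F x = 0
  swap
  · push Not at hz
    have h1 : lw F z0 = 0 := by
      unfold lw
      rw [intervalIntegral.integral_congr (g := fun _ => (0 : ℝ))]
      · simp
      · intro x hx
        rw [Set.uIcc_of_le (by norm_num)] at hx
        exact z0_ne (hz x hx.1 hx.2)
    rw [h1]
    exact Eventually.of_forall fun N => by linarith [hnn N]
  set Z : Set ℝ := {x : ℝ | 0 ≤ x ∧ x ≤ 1 / 2 ∧ F x = 0} with hZ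
  have hZne : Z.Nonempty := hz
  have hZbd : BddBelow Z := ⟨0, fun x hx => hx.1⟩
  have hZcl : IsClosed Z := by
    have : Z = Set.Icc 0 (1 / 2) ∩ F ⁻¹' {0} := by
      ext x
      simp only [hZ, Set.mem_ofPred_eq, Set.mem_inter_iff, Set.mem_Icc, Set.mem_preimage,
        Set.mem_singleton_iff]
      tauto
    rw [this]
    exact isClosed_Icc.inter (isClosed_singleton.preimage hFc)
  set x₀ := sInf Z with hx0
  have hx0Z : x₀ ∈ Z := hZcl.csInf_mem hZne hZbd
  have hlow : ∀ x, 0 ≤ x → x < x₀ → F x ≠ 0 := by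
    intro x h1 h2 h3
    exact absurd (csInf_le hZbd (show x ∈ Z from ⟨h1, by linarith [hx0Z.2.1], h3⟩)) (not_le.2 h2)
  have hhigh : ∀ x, x₀ ≤ x → F x = 0 := by
    intro x h1
    exact le_antisymm ((hFa h1).trans hx0Z.2.2.le) (hF0 x)
  have h1 : lw F z0 ≤ 1 - 2 * x₀ := by
    unfold lw
    have hint : ∀ a b : ℝ, 0 ≤ a → a ≤ b → b ≤ 1 / 2 →
        IntervalIntegrable (fun x => z0 (F x)) MeasureTheory.volume a b := by
      intro a b _ hab _
      rw [intervalIntegrable_iff_integrableOn_Ioc_of_le hab]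
      refine MeasureTheory.Measure.integrableOn_of_bounded (M := 1) (by simp) ?_ ?_
      · exact (z0_meas.comp hFc.measurable).aestronglyMeasurable
      · exact MeasureTheory.ae_of_all _ fun x => by
          rw [Real.norm_eq_abs, abs_of_nonneg (z0_mem _).1]
          exact (z0_mem _).2
    rw [← intervalIntegral.integral_add_adjacent_intervals
      (hint 0 x₀ le_rfl hx0Z.1 hx0Z.2.1) (hint x₀ (1 / 2) hx0Z.1 hx0Z.2.1 le_rfl)]
    have h2 : ∫ x in (0 : ℝ)..x₀, z0 (F x) = 0 := by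
      rw [intervalIntegral.integral_of_le hx0Z.1]
      have h3 : ∀ᵐ x : ℝ ∂MeasureTheory.volume, x ≠ x₀ := by
        have : MeasureTheory.volume ({x₀} : Set ℝ) = 0 := Real.volume_singleton
        rw [MeasureTheory.ae_iff]
        simpa using this
      have h4 : ∫ x in Set.Ioc 0 x₀, z0 (F x) = ∫ x in Set.Ioc 0 x₀, (0 : ℝ) := by
        refine MeasureTheory.setIntegral_congr_ae measurableSet_Ioc ?_
        filter_upwards [h3] with x hx hx'
        exact z0_ne (hlow x hx'.1.le (lt_of_le_of_ne hx'.2 hx))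
      rw [h4]
      simp
    have h3 : ∫ x in x₀..(1 / 2 : ℝ), z0 (F x) ≤ 1 / 2 - x₀ := by
      have h4 : ∫ x in x₀..(1 / 2 : ℝ), z0 (F x) ≤ ∫ x in x₀..(1 / 2 : ℝ), (1 : ℝ) :=
        intervalIntegral.integral_mono_on hx0Z.2.1 (hint x₀ (1 / 2) hx0Z.1 hx0Z.2.1 le_rfl)
          (by simp) fun x _ => (z0_mem _).2
      simpa using h4
    rw [h2]
    linarith
  have h2 := class_arc hW1 c (Real.sqrt 2) irrational_sqrt_two x₀ (1 - x₀) hx0Z.1
    (by linarith [hx0Z.2.1]) (by linarith [hx0Z.1])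
  have hWr : (0 : ℝ) < W := by exact_mod_cast hW1
  have h3 := rare W (ε / (2 * W)) (by positivity)
  obtain ⟨N₁, h4⟩ := Metric.tendsto_atTop.1 h2 (ε / 2) (by positivity)
  filter_upwards [h3, eventually_ge_atTop N₁, eventually_ge_atTop 1] with N h5 h6 h7
  have hN : (0 : ℝ) < N := by exact_mod_cast h7
  have h8 := h4 N h6
  rw [Real.dist_eq] at h8
  have h9 := (abs_lt.1 h8).1
  set S := (Icc 1 N).filter (fun m : ℕ => m ≡ c [MOD W] ∧
      x₀ ≤ Int.fract (Real.sqrt 2 * m) ∧ Int.fract (Real.sqrt 2 * m) < 1 - x₀) with hS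
  set T := (Icc 1 N).filter (fun n => ∃ q ≤ W, q ≤ n ∧ (n - q).Prime) with hT
  have h10 : ((S \ T).card : ℝ) ≤ ∑ n ∈ (Icc 1 N).filter (fun n => n ≡ c [MOD W]),
      z0 (rho (star W al) (star W be) n) := by
    have h11 : S \ T ⊆ (Icc 1 N).filter (fun n => n ≡ c [MOD W]) := by
      intro n hn
      rw [hS, Finset.mem_sdiff, mem_filter] at hn
      rw [mem_filter]
      exact ⟨hn.1.1, hn.1.2.1⟩
    refine le_trans ?_ (sum_le_sum_of_subset_of_nonneg h11 fun n _ _ => z0_nonneg _)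
    rw [card_eq_sum_ones, Nat.cast_sum]
    refine sum_le_sum fun n hn => ?_
    rw [hS, hT, Finset.mem_sdiff, mem_filter, mem_filter] at hn
    obtain ⟨⟨g1, g2, g3, g4⟩, g5⟩ := hn
    have g6 : ¬ ∃ q ≤ W, q ≤ n ∧ (n - q).Prime := fun h => g5 ⟨g1, h⟩
    rw [no_rep hW1 hal hbe g2 g6]
    · simp [z0]
    · refine hhigh _ ?_
      rw [abs_sub_round_eq_min]
      exact le_min g3 (by linarith)
  have h11 : (S.card : ℝ) ≤ (S \ T).card + T.card := by
    have : S.card ≤ (S \ T).card + T.card := by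
      have h12 := card_le_card_sdiff_add_card (s := S) (t := T)
      exact h12
    exact_mod_cast this
  unfold avgc
  have h12 : (W : ℝ) / N * (S.card - T.card) ≤ W / N *
      ∑ n ∈ (Icc 1 N).filter (fun n => n ≡ c [MOD W]), z0 (rho (star W al) (star W be) n) :=
    mul_le_mul_of_nonneg_left (by linarith) (by positivity)
  refine le_trans ?_ h12
  have h13 : (W : ℝ) / N * T.card ≤ ε / 2 := by
    calc (W : ℝ) / N * T.card ≤ W / N * (ε / (2 * W) * N) :=
          mul_le_mul_of_nonneg_left h5 (by positivity)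
      _ = ε / 2 := by field_simp
  rw [mul_sub]
  linarith

end Pool.Agent.Lib.MP_629a14_nt.Kp
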