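import Pool.Agent.Lib.MP_629a14_nt.Kp.PfAsm
import Pool.Agent.Lib.MP_629a14_nt.Kp.PfStruct
import Pool.Agent.Lib.MP_629a14_nt.Kp.PfMean
import Pool.Agent.Lib.MP_629a14_nt.Kp.PfStar
import Pool.Agent.Lib.MP_629a14_nt.Kp.PfZero
import Pool.Agent.Lib.MP_629a14_nt.Kp.PfSharp

/-! The rearrangement inequality for Goldbach counts. -/

set_option autoImplicit false

namespace Pool.Agent.Lib.MP_629a14_nt.Kp

open Finset Filter Topology Pool.Agent.Lib.MP_629a14_nt Pool.Agent.Lib.MP_629a14_nt.Rob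

variable {A B : Set ℕ} {W c : ℕ} {al be : ℕ → ℝ}

theorem final_mean (hW1 : 1 ≤ W) (hW2 : 2 ∣ W) (hc2 : 2 ∣ c)
    (hA : HasProfile A W al) (hB : HasProfile B W be) :
    Tendsto (fun N => avgc W c N (rho A B)) atTop (𝓝 (prs W c al be (fun _ a b => a * b))) :=
  mean_pf_of hW1 hW2 hc2 (fun _ _ _ _ hA hB _ hε => struct_pf hW1 hA hB hε) hA hB

theorem final_upper (hW1 : 1 ≤ W) (hW2 : 2 ∣ W) (hc2 : 2 ∣ c)
    (hA : HasProfile A W al) (hB : HasProfile B W be)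
    (φ : ℝ → ℝ) (hφ : ConvexOn ℝ (Set.Ici 0) φ) (ε : ℝ) (hε : 0 < ε) :
    ∀ᶠ N : ℕ in atTop, avgc W c N (fun n => φ (rho A B n)) ≤ rearr W c al be φ + ε :=
  asm_upper hW1 hW2 hc2 hA hB (fun _ hε => struct_pf hW1 hA hB hε)
    (final_mean hW1 hW2 hc2 hA hB) φ hφ ε hε

theorem final_limit (hW1 : 1 ≤ W) (hW2 : 2 ∣ W) (hc2 : 2 ∣ c)
    (hal : ∀ r, r < W → r.Coprime W → 0 ≤ al r ∧ al r ≤ 1)
    (hbe : ∀ r, r < W → r.Coprime W → 0 ≤ be r ∧ be r ≤ 1)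
    (φ : ℝ → ℝ) (hφ : ConvexOn ℝ (Set.Ici 0) φ) :
    Tendsto (fun N => avgc W c N (fun n => φ (rho (star W al) (star W be) n))) atTop
      (𝓝 (rearr W c al be φ)) := by
  have hA := star_profile hW1 hal
  have hB := star_profile hW1 hbe
  exact asm_limit hW1 hW2 hc2 hA hB (fun _ hε => struct_pf hW1 hA hB hε)
    (final_mean hW1 hW2 hc2 hA hB)
    (fun t ht ε hε => sharp_pf_of hW1 hW2 hc2
      (fun _ _ _ _ hA hB => final_mean hW1 hW2 hc2 hA hB) hal hbe t ht ε hε)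
    (fun ε hε => zero_pf hW1 hal hbe ε hε) φ hφ

end Pool.Agent.Lib.MP_629a14_nt.Kp
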