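import Pool.Agent.Lib.MP_629a14_nt.Kp.Conv

/-! Pollard's theorem for functions with values in `[0, 1]` on a finite abelian group all of whose
proper subgroups are small. -/

set_option autoImplicit false

namespace Pool.Agent.Lib.MP_629a14_nt.Kp

open Finset

variable {G : Type} [AddCommGroup G] [Fintype G]

/-- The deficiency. -/
noncomputable def dfc (f g : G → ℝ) (t : ℝ) : ℝ := t * (sm f + sm g - t) - tr f g t

/-- The admissible triples. -/
def Adm (G : Type) [AddCommGroup G] [Fintype G] : Set ((G → ℝ) × (G → ℝ) × ℝ) :=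
  {p | ((∀ x, 0 ≤ p.1 x) ∧ (∀ x, p.1 x ≤ 1)) ∧ ((∀ x, 0 ≤ p.2.1 x) ∧ (∀ x, p.2.1 x ≤ 1)) ∧
    0 ≤ p.2.2 ∧ p.2.2 ≤ sm p.1 ∧ p.2.2 ≤ sm p.2.1 ∧
    sm p.1 + sm p.2.1 - p.2.2 ≤ (Fintype.card G : ℝ)}

theorem sm_nonneg {f : G → ℝ} (hf : ∀ x, 0 ≤ f x) : 0 ≤ sm f := sum_nonneg fun x _ => hf x

theorem sm_le_card {f : G → ℝ} (hf : ∀ x, f x ≤ 1) : sm f ≤ (Fintype.card G : ℝ) := by
  unfold sm
  calc ∑ x, f x ≤ ∑ _x : G, (1 : ℝ) := sum_le_sum fun x _ => hf x
    _ = (Fintype.card G : ℝ) := by simp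

theorem continuous_sm : Continuous (fun f : G → ℝ => sm f) := by
  unfold sm
  fun_prop

theorem adm_compact : IsCompact (Adm G) := by
  classical
  have h1 : IsCompact ((Set.Icc (0 : G → ℝ) 1) ×ˢ ((Set.Icc (0 : G → ℝ) 1) ×ˢ
      (Set.Icc (0 : ℝ) (Fintype.card G)))) :=
    isCompact_Icc.prod (isCompact_Icc.prod isCompact_Icc)
  refine h1.of_isClosed_subset ?_ ?_
  · have c1 : Continuous (fun p : (G → ℝ) × (G → ℝ) × ℝ => sm p.1) :=
      continuous_sm.comp continuous_fst
    have c2 : Continuous (fun p : (G → ℝ) × (G → ℝ) × ℝ => sm p.2.1) :=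
      continuous_sm.comp (continuous_fst.comp continuous_snd)
    have c3 : Continuous (fun p : (G → ℝ) × (G → ℝ) × ℝ => p.2.2) :=
      continuous_snd.comp continuous_snd
    have e : Adm G = ((({p | ∀ x, 0 ≤ p.1 x} ∩ {p | ∀ x, p.1 x ≤ 1}) ∩
        ({p | ∀ x, 0 ≤ p.2.1 x} ∩ {p | ∀ x, p.2.1 x ≤ 1})) ∩
        (({p | 0 ≤ p.2.2} ∩ {p | p.2.2 ≤ sm p.1}) ∩ ({p | p.2.2 ≤ sm p.2.1} ∩
        {p | sm p.1 + sm p.2.1 - p.2.2 ≤ (Fintype.card G : ℝ)})) :
          Set ((G → ℝ) × (G → ℝ) × ℝ)) := by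
      ext p
      simp only [Adm, Set.mem_ofPred_eq, Set.mem_inter_iff]
      tauto
    rw [e]
    refine IsClosed.inter (IsClosed.inter (IsClosed.inter ?_ ?_) (IsClosed.inter ?_ ?_))
      (IsClosed.inter (IsClosed.inter ?_ ?_) (IsClosed.inter ?_ ?_))
    · have : {p : (G → ℝ) × (G → ℝ) × ℝ | ∀ x, 0 ≤ p.1 x} = ⋂ x, {p | 0 ≤ p.1 x} := by
        ext p; simp
      rw [this]
      exact isClosed_iInter fun x => isClosed_le continuous_const
        ((continuous_apply x).comp continuous_fst)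
    · have : {p : (G → ℝ) × (G → ℝ) × ℝ | ∀ x, p.1 x ≤ 1} = ⋂ x, {p | p.1 x ≤ 1} := by
        ext p; simp
      rw [this]
      exact isClosed_iInter fun x => isClosed_le
        ((continuous_apply x).comp continuous_fst) continuous_const
    · have : {p : (G → ℝ) × (G → ℝ) × ℝ | ∀ x, 0 ≤ p.2.1 x} = ⋂ x, {p | 0 ≤ p.2.1 x} := by
        ext p; simp
      rw [this]
      exact isClosed_iInter fun x => isClosed_le continuous_const
        ((continuous_apply x).comp (continuous_fst.comp continuous_snd))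
    · have : {p : (G → ℝ) × (G → ℝ) × ℝ | ∀ x, p.2.1 x ≤ 1} = ⋂ x, {p | p.2.1 x ≤ 1} := by
        ext p; simp
      rw [this]
      exact isClosed_iInter fun x => isClosed_le
        ((continuous_apply x).comp (continuous_fst.comp continuous_snd)) continuous_const
    · exact isClosed_le continuous_const c3
    · exact isClosed_le c3 c1
    · exact isClosed_le c3 c2
    · exact isClosed_le ((c1.add c2).sub c3) continuous_const
  · intro p hp
    obtain ⟨⟨a1, a2⟩, ⟨b1, b2⟩, c1, c2, c3, c4⟩ := hp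
    refine ⟨⟨a1, a2⟩, ⟨b1, b2⟩, c1, c2.trans (sm_le_card a2)⟩

theorem continuous_dfc : Continuous (fun p : (G → ℝ) × (G → ℝ) × ℝ => dfc p.1 p.2.1 p.2.2) := by
  unfold dfc tr cv sm
  fun_prop

theorem zero_mem : ((0 : G → ℝ), (0 : G → ℝ), (0 : ℝ)) ∈ Adm G := by
  refine ⟨⟨fun x => le_rfl, fun x => zero_le_one⟩, ⟨fun x => le_rfl, fun x => zero_le_one⟩,
    le_rfl, ?_, ?_, ?_⟩ <;> simp [sm]

theorem swap_mem {f g : G → ℝ} {t : ℝ} (h : (f, g, t) ∈ Adm G) : (g, f, t) ∈ Adm G := by
  obtain ⟨a, b, c1, c2, c3, c4⟩ := h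
  refine ⟨b, a, c1, c3, c2, ?_⟩
  simp only at c4 ⊢
  linarith

theorem dfc_comm (f g : G → ℝ) (t : ℝ) : dfc f g t = dfc g f t := by
  unfold dfc
  rw [tr_comm, add_comm (sm f)]

theorem sh_mem {f g : G → ℝ} {t : ℝ} (e : G) (h : (f, g, t) ∈ Adm G) :
    (f, sh e g, t) ∈ Adm G := by
  obtain ⟨a, b, c1, c2, c3, c4⟩ := h
  simp only at a b c1 c2 c3 c4
  exact ⟨a, ⟨fun x => b.1 _, fun x => b.2 _⟩, c1, c2, by simpa [sm_sh] using c3,
    by simpa [sm_sh] using c4⟩

theorem dfc_sh (e : G) (f g : G → ℝ) (t : ℝ) : dfc f (sh e g) t = dfc f g t := by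
  unfold dfc
  rw [tr_sh, sm_sh]

/-- The first reduction: subtract the common part. -/
theorem red_one {f h : G → ℝ} {t : ℝ} (hp : (f, h, t) ∈ Adm G)
    (hI : sm (fun y => min (f y) (h y)) < t) :
    ((fun y => f y - min (f y) (h y)), (fun y => h y - min (f y) (h y)),
      t - sm (fun y => min (f y) (h y))) ∈ Adm G ∧
    dfc f h t ≤ dfc (fun y => f y - min (f y) (h y)) (fun y => h y - min (f y) (h y))
      (t - sm (fun y => min (f y) (h y))) := by
  obtain ⟨⟨a1, a2⟩, ⟨b1, b2⟩, c1, c2, c3, c4⟩ := hp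
  simp only at a1 a2 b1 b2 c1 c2 c3 c4
  set I : G → ℝ := fun y => min (f y) (h y) with hIdef
  have hI0 : ∀ y, 0 ≤ I y := fun y => le_min (a1 y) (b1 y)
  have hIs : 0 ≤ sm I := sm_nonneg hI0
  have e1 : sm (fun y => f y - I y) = sm f - sm I := by
    unfold sm
    rw [sum_sub_distrib]
  have e2 : sm (fun y => h y - I y) = sm h - sm I := by
    unfold sm
    rw [sum_sub_distrib]
  have e3 : sm (fun y => max (f y) (h y)) = sm f + sm h - sm I := by
    unfold sm
    rw [← sum_add_distrib, ← sum_sub_distrib]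
    refine sum_congr rfl fun y _ => ?_
    have := min_add_max (f y) (h y)
    simp only [hIdef]
    linarith
  refine ⟨⟨⟨fun y => sub_nonneg.2 (min_le_left _ _), fun y => ?_⟩,
    ⟨fun y => sub_nonneg.2 (min_le_right _ _), fun y => ?_⟩, ?_, ?_, ?_, ?_⟩, ?_⟩
  · have := a2 y
    have := hI0 y
    simp only [hIdef] at this ⊢
    linarith
  · have := b2 y
    have := hI0 y
    simp only [hIdef] at this ⊢
    linarith
  · simp only
    linarith
  · simp only
    rw [e1]
    linarith
  · simp only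
    rw [e2]
    linarith
  · simp only
    rw [e1, e2]
    linarith
  · have key : sm I * (sm f + sm h - sm I) +
        tr (fun y => f y - I y) (fun y => h y - I y) (t - sm I) ≤ tr f h t := by
      rw [← e3, ← sum_cv]
      unfold tr
      rw [← sum_add_distrib]
      refine sum_le_sum fun x _ => ?_
      rw [cv_split f h x]
      have k1 : cv I (fun y => max (f y) (h y)) x ≤ sm I :=
        cv_le_sm_left hI0 (fun y => max_le (a2 y) (b2 y)) x
      simp only [hIdef] at k1 ⊢
      rcases le_total (cv (fun y => f y - min (f y) (h y)) (fun y => h y - min (f y) (h y)) x)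
        (t - sm (fun y => min (f y) (h y))) with hc | hc
      · rw [min_eq_left hc]
        refine le_min le_rfl ?_
        linarith
      · rw [min_eq_right hc]
        refine le_min ?_ ?_ <;> linarith
    unfold dfc
    rw [e1, e2]
    nlinarith [key]

/-- The second reduction. -/
theorem red_two {f h : G → ℝ} {t : ℝ} (hp : (f, h, t) ∈ Adm G)
    (hI : t ≤ sm (fun y => min (f y) (h y))) :
    ((fun y => max (f y) (h y)), (fun y => min (f y) (h y)), t) ∈ Adm G ∧
    sm (fun y => max (f y) (h y)) + sm (fun y => min (f y) (h y)) = sm f + sm h ∧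
    dfc f h t ≤ dfc (fun y => max (f y) (h y)) (fun y => min (f y) (h y)) t := by
  obtain ⟨⟨a1, a2⟩, ⟨b1, b2⟩, c1, c2, c3, c4⟩ := hp
  simp only at a1 a2 b1 b2 c1 c2 c3 c4
  have e3 : sm (fun y => max (f y) (h y)) + sm (fun y => min (f y) (h y)) = sm f + sm h := by
    unfold sm
    rw [← sum_add_distrib, ← sum_add_distrib]
    exact sum_congr rfl fun y _ => max_add_min (f y) (h y)
  refine ⟨⟨⟨fun y => (a1 y).trans (le_max_left _ _), fun y => max_le (a2 y) (b2 y)⟩,
    ⟨fun y => le_min (a1 y) (b1 y), fun y => (min_le_left _ _).trans (a2 y)⟩, c1, ?_, hI, ?_⟩,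
    e3, ?_⟩
  · simp only
    refine c2.trans ?_
    unfold sm
    exact sum_le_sum fun y _ => le_max_left _ _
  · simp only
    rw [e3]
    exact c4
  · unfold dfc
    rw [e3]
    have : tr (fun y => max (f y) (h y)) (fun y => min (f y) (h y)) t ≤ tr f h t := by
      unfold tr
      exact sum_le_sum fun x _ => min_le_min (cv_trans_le f h x) le_rfl
    linarith

/-- The capped form follows from the uncapped one. -/
theorem cap_of {M : ℝ} (hM : ∀ p ∈ Adm G, dfc p.1 p.2.1 p.2.2 ≤ M) {f g : G → ℝ} {t : ℝ}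
    (hf : (∀ x, 0 ≤ f x) ∧ ∀ x, f x ≤ 1) (hg : (∀ x, 0 ≤ g x) ∧ ∀ x, g x ≤ 1) (ht : 0 ≤ t)
    (h1 : t ≤ sm f) (h2 : t ≤ sm g) :
    t * min (Fintype.card G : ℝ) (sm f + sm g - t) - tr f g t ≤ M := by
  rcases le_total (sm f + sm g - t) (Fintype.card G : ℝ) with h | h
  · rw [min_eq_right h]
    exact hM (f, g, t) ⟨hf, hg, ht, h1, h2, h⟩
  · rw [min_eq_left h]
    have hg1 := sm_le_card hg.2
    have hs : t ≤ Fintype.card G + t - sm g := by linarith
    rcases eq_or_lt_of_le (h1.trans' ht) with h0 | h0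
    · have : t = 0 := le_antisymm (by linarith) ht
      have h4 := sm_nonneg hg.1
      have h5 := hM _ (zero_mem (G := G))
      have h6 : dfc (0 : G → ℝ) 0 0 = 0 := by
        unfold dfc tr cv sm
        simp
      simp only at h5
      rw [h6] at h5
      rw [this]
      have h7 : 0 ≤ tr f g 0 := by
        unfold tr
        exact sum_nonneg fun x _ => le_min (cv_nonneg hf.1 hg.1 x) le_rfl
      linarith
    · set c : ℝ := (Fintype.card G + t - sm g) / sm f with hc
      have hc0 : 0 ≤ c := div_nonneg (by linarith) h0.le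
      have hc1 : c ≤ 1 := by
        rw [hc, div_le_one h0]
        linarith
      have e : sm (fun y => c * f y) = Fintype.card G + t - sm g := by
        unfold sm
        rw [← mul_sum]
        change c * sm f = _
        rw [hc]
        field_simp
        rfl
      have hmem : ((fun y => c * f y), g, t) ∈ Adm G := by
        refine ⟨⟨fun y => mul_nonneg hc0 (hf.1 y), fun y => mul_le_one₀ hc1 (hf.1 y) (hf.2 y)⟩,
          hg, ht, ?_, h2, ?_⟩
        · simp only
          rw [e]
          exact hs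
        · simp only
          rw [e]
          linarith
      have h8 := hM _ hmem
      simp only at h8
      unfold dfc at h8
      rw [e] at h8
      have h9 : tr (fun y => c * f y) g t ≤ tr f g t :=
        tr_mono hf.1 hg.1 (fun y => mul_le_of_le_one_left (hf.1 y) hc1) (fun _ => le_rfl) t
      have e2 : (Fintype.card G : ℝ) + t - sm g + sm g - t = Fintype.card G := by ring
      rw [e2] at h8
      linarith

end Pool.Agent.Lib.MP_629a14_nt.Kp
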