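import Pool.Agent.Lib.MP_629a14_nt.Kp.Pollard

/-! Pollard's theorem for functions: end of the proof. -/

set_option autoImplicit false

namespace Pool.Agent.Lib.MP_629a14_nt.Kp

open Finset

variable {G : Type} [AddCommGroup G] [Fintype G]

/-- The terminal case: every value of `f` is at least the maximum `g x0` of `g`. -/
theorem red_three {M : ℝ} (hM : ∀ p ∈ Adm G, dfc p.1 p.2.1 p.2.2 ≤ M) (hM0 : 0 < M)
    {f g : G → ℝ} {t : ℝ} (hp : (f, g, t) ∈ Adm G) (x0 : G) (hx0 : ∀ x, g x ≤ g x0)
    (hfg : ∀ x, g x0 ≤ f x) (hg0 : 0 < g x0) : dfc f g t < M := by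
  obtain ⟨⟨a1, a2⟩, ⟨b1, b2⟩, c1, c2, c3, c4⟩ := hp
  simp only at a1 a2 b1 b2 c1 c2 c3 c4
  set n : ℝ := (Fintype.card G : ℝ) with hn
  have hn0 : 0 ≤ n := Nat.cast_nonneg _
  obtain ⟨c, hc⟩ : ∃ c : ℝ, c = g x0 := ⟨_, rfl⟩
  rw [← hc] at hx0 hfg hg0
  have hc1 : c ≤ 1 := by rw [hc]; exact b2 x0
  rcases eq_or_lt_of_le hc1 with h1 | h1
  · have hf1 : f = fun _ => (1 : ℝ) := by
      funext x
      exact le_antisymm (a2 x) (by rw [← h1]; exact hfg x)
    have hsf : sm f = n := by
      rw [hf1]
      simp [sm, hn]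
    have htg : t = sm g := le_antisymm c3 (by rw [hsf] at c4; linarith)
    have htr : tr f g t = n * t := by
      unfold tr
      rw [hf1]
      simp_rw [cv_const_left, one_mul, ← htg, min_self]
      simp [hn]
    unfold dfc
    rw [htr, hsf, ← htg]
    have : t * (n + t - t) - n * t = 0 := by ring
    rw [this]
    exact hM0
  · have h1c : 0 < 1 - c := by linarith
    set f1 : G → ℝ := fun y => (f y - c) / (1 - c) with hf1
    set g1 : G → ℝ := fun y => g y / c with hg1
    have ef : f = fun y => c + (1 - c) * f1 y := by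
      funext y
      simp only [hf1]
      field_simp
      ring
    have eg : g = fun y => c * g1 y := by
      funext y
      simp only [hg1]
      field_simp
    have hf10 : (∀ x, 0 ≤ f1 x) ∧ ∀ x, f1 x ≤ 1 := by
      refine ⟨fun x => div_nonneg (sub_nonneg.2 (hfg x)) h1c.le, fun x => ?_⟩
      simp only [hf1]
      rw [div_le_one h1c]
      have := a2 x
      linarith
    have hg10 : (∀ x, 0 ≤ g1 x) ∧ ∀ x, g1 x ≤ 1 := by
      refine ⟨fun x => div_nonneg (b1 x) hg0.le, fun x => ?_⟩
      simp only [hg1]
      rw [div_le_one hg0]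
      exact hx0 x
    obtain ⟨A, hA⟩ : ∃ A : ℝ, A = sm f1 := ⟨_, rfl⟩
    obtain ⟨B, hB⟩ : ∃ B : ℝ, B = sm g1 := ⟨_, rfl⟩
    have hA0 : 0 ≤ A := by rw [hA]; exact sm_nonneg hf10.1
    have hB0 : 0 ≤ B := by rw [hB]; exact sm_nonneg hg10.1
    have hsg : sm g = c * B := by
      rw [hB]
      conv_lhs => rw [eg]
      unfold sm
      rw [mul_sum]
    have hsf : sm f = c * n + (1 - c) * A := by
      rw [hA]
      conv_lhs => rw [ef]
      unfold sm
      rw [sum_add_distrib, mul_sum, sum_const, card_univ, nsmul_eq_mul, hn]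
      ring
    have hcv : ∀ x, cv f g x = c ^ 2 * B + c * (1 - c) * cv f1 g1 x := by
      intro x
      have h2 : cv f g x = cv (fun y => c + (1 - c) * f1 y) (fun y => c * g1 y) x := by
        rw [← ef, ← eg]
      rw [h2, cv_add_left (fun _ => c), cv_const_left, cv_mul_left, cv_mul_right, ← eg, hsg]
      ring
    have hcc : 0 < c * (1 - c) := mul_pos hg0 h1c
    have hcv0 : ∀ x, 0 ≤ cv f1 g1 x := cv_nonneg hf10.1 hg10.1
    rcases le_or_gt t (c ^ 2 * B) with ht | ht
    · have htr : n * t ≤ tr f g t := by
        unfold tr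
        calc n * t = ∑ _x : G, t := by simp [hn]
          _ ≤ _ := sum_le_sum fun x _ => le_min (by
              rw [hcv]
              have := mul_nonneg hcc.le (hcv0 x)
              linarith) le_rfl
      unfold dfc
      have : t * (sm f + sm g - t) ≤ t * n := mul_le_mul_of_nonneg_left c4 c1
      linarith
    · obtain ⟨T, hT⟩ : ∃ T : ℝ, T = (t - c ^ 2 * B) / (c * (1 - c)) := ⟨_, rfl⟩
      have hT0 : 0 ≤ T := by rw [hT]; exact div_nonneg (by linarith) hcc.le
      have et : t = c ^ 2 * B + c * (1 - c) * T := by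
        rw [hT]
        field_simp
        ring
      have hTB : T ≤ B := by
        rw [hsg] at c3
        have h3 : c * (1 - c) * T ≤ c * (1 - c) * B := by nlinarith
        exact le_of_mul_le_mul_left h3 hcc
      rcases lt_or_ge A T with hAT | hAT
      · have htr : tr f g t = sm f * sm g := by
          rw [← sum_cv]
          unfold tr
          refine sum_congr rfl fun x _ => min_eq_left ?_
          rw [hcv, et]
          have h4 : cv f1 g1 x ≤ A := by
            rw [hA]
            exact cv_le_sm_left hf10.1 hg10.2 x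
          have h5 : c * (1 - c) * cv f1 g1 x ≤ c * (1 - c) * T :=
            mul_le_mul_of_nonneg_left (h4.trans hAT.le) hcc.le
          linarith
        unfold dfc
        rw [htr]
        have h6 : t * (sm f + sm g - t) - sm f * sm g = - ((sm f - t) * (sm g - t)) := by ring
        rw [h6]
        have h7 : 0 ≤ (sm f - t) * (sm g - t) := mul_nonneg (by linarith) (by linarith)
        linarith
      · have hcap := cap_of hM hf10 hg10 hT0 (by rw [← hA]; exact hAT) (by rw [← hB]; exact hTB)
        rw [← hA, ← hB, ← hn] at hcap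
        have htr : tr f g t = n * (c ^ 2 * B) + c * (1 - c) * tr f1 g1 T := by
          unfold tr
          rw [mul_sum]
          have h8 : n * (c ^ 2 * B) = ∑ _x : G, c ^ 2 * B := by simp [hn]
          rw [h8, ← sum_add_distrib]
          refine sum_congr rfl fun x _ => ?_
          rw [hcv, et, mul_min_of_nonneg _ _ hcc.le, min_add_add_left]
        have hsmall : c * (1 - c) * M < M := by
          have : c * (1 - c) < 1 := by nlinarith
          calc c * (1 - c) * M < 1 * M := mul_lt_mul_of_pos_right this hM0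
            _ = M := one_mul _
        unfold dfc
        rw [htr, hsf, hsg]
        rw [hsf, hsg] at c4
        rcases le_total n (A + B - T) with hu | hu
        · rw [min_eq_left hu] at hcap
          have h9 : t * (c * n + (1 - c) * A + c * B - t) ≤ t * n :=
            mul_le_mul_of_nonneg_left c4 c1
          have h10 : c * (1 - c) * (T * n - tr f1 g1 T) ≤ c * (1 - c) * M :=
            mul_le_mul_of_nonneg_left hcap hcc.le
          have h11 : t * n = n * (c ^ 2 * B) + c * (1 - c) * (T * n) := by
            rw [et]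
            ring
          nlinarith
        · rw [min_eq_right hu] at hcap
          have h10 : c * (1 - c) * (T * (A + B - T) - tr f1 g1 T) ≤ c * (1 - c) * M :=
            mul_le_mul_of_nonneg_left hcap hcc.le
          have h12 : t * (c * n + (1 - c) * A + c * B - t) ≤
              n * (c ^ 2 * B) + c * (1 - c) * (T * (A + B - T)) := by
            obtain ⟨u, hu2⟩ : ∃ u : ℝ, u = n - (A + B - T) := ⟨_, rfl⟩
            have hu0 : 0 ≤ u := by rw [hu2]; linarith
            have eA : A = n - u - B + T := by rw [hu2]; ring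
            have h13 : n * (c ^ 2 * B) + c * (1 - c) * (T * (A + B - T)) -
                t * (c * n + (1 - c) * A + c * B - t) =
                c * ((1 - c) * u * (c * (B - T)) +
                  (1 - c) ^ 2 * (B - T) * (c * B + (1 - c) * T)) := by
              rw [et, eA]
              ring
            have h14 : 0 ≤ c * ((1 - c) * u * (c * (B - T)) +
                (1 - c) ^ 2 * (B - T) * (c * B + (1 - c) * T)) := by
              have h15 : 0 ≤ B - T := by linarith
              have h16 : 0 ≤ c * B + (1 - c) * T :=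
                add_nonneg (mul_nonneg hg0.le hB0) (mul_nonneg h1c.le hT0)
              have h17 : 0 ≤ (1 - c) * u * (c * (B - T)) :=
                mul_nonneg (mul_nonneg h1c.le hu0) (mul_nonneg hg0.le h15)
              have h18 : 0 ≤ (1 - c) ^ 2 * (B - T) * (c * B + (1 - c) * T) :=
                mul_nonneg (mul_nonneg (sq_nonneg _) h15) h16
              exact mul_nonneg hg0.le (by linarith)
            linarith
          linarith

/-- Pollard's theorem for functions. All proper subgroups have at most `K` elements. -/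
theorem pollard_aux (K : ℝ) (hK0 : 0 ≤ K)
    (hK : ∀ H : AddSubgroup G, H ≠ ⊤ → (Nat.card H : ℝ) ≤ K) :
    ∀ p ∈ Adm G, dfc p.1 p.2.1 p.2.2 ≤ K * (Fintype.card G : ℝ) := by
  classical
  obtain ⟨p0, hp0, hmax⟩ := (adm_compact (G := G)).exists_isMaxOn ⟨_, zero_mem⟩
    continuous_dfc.continuousOn
  obtain ⟨M, hMdef⟩ : ∃ M : ℝ, M = dfc p0.1 p0.2.1 p0.2.2 := ⟨_, rfl⟩
  have hM : ∀ p ∈ Adm G, dfc p.1 p.2.1 p.2.2 ≤ M := by
    intro p hp
    rw [hMdef]
    exact hmax hp
  suffices hfin : M ≤ K * (Fintype.card G : ℝ) by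
    intro p hp
    exact (hM p hp).trans hfin
  by_contra hcon
  push Not at hcon
  have hM0 : 0 < M := lt_of_le_of_lt (mul_nonneg hK0 (Nat.cast_nonneg _)) hcon
  -- the maximisers with the smallest total sum
  have hc1 : IsCompact (Adm G ∩ {p | dfc p.1 p.2.1 p.2.2 = M}) :=
    adm_compact.inter_right (isClosed_eq continuous_dfc continuous_const)
  have cs : Continuous (fun p : (G → ℝ) × (G → ℝ) × ℝ => sm p.1 + sm p.2.1) :=
    (continuous_sm.comp continuous_fst).add
      (continuous_sm.comp (continuous_fst.comp continuous_snd))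
  obtain ⟨p1, hp1, hmin⟩ := hc1.exists_isMinOn ⟨p0, hp0, hMdef.symm⟩ cs.continuousOn
  obtain ⟨σ, hσ⟩ : ∃ σ : ℝ, σ = sm p1.1 + sm p1.2.1 := ⟨_, rfl⟩
  have hσmin : ∀ p ∈ Adm G, dfc p.1 p.2.1 p.2.2 = M → σ ≤ sm p.1 + sm p.2.1 := by
    intro p hp h
    rw [hσ]
    exact hmin ⟨hp, h⟩
  have hc2 : IsCompact ((Adm G ∩ {p | dfc p.1 p.2.1 p.2.2 = M}) ∩ {p | sm p.1 + sm p.2.1 = σ}) :=
    hc1.inter_right (isClosed_eq cs continuous_const)
  obtain ⟨p2, hp2, hmax2⟩ := hc2.exists_isMaxOn ⟨p1, hp1, hσ.symm⟩
    (continuous_sm.comp continuous_fst).continuousOn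
  obtain ⟨⟨hadm, hdf⟩, hsum⟩ := hp2
  obtain ⟨f, g, t⟩ := p2
  simp only [Set.mem_ofPred_eq] at hdf hsum
  have hfmax : ∀ p ∈ Adm G, dfc p.1 p.2.1 p.2.2 = M → sm p.1 + sm p.2.1 = σ → sm p.1 ≤ sm f := by
    intro p hp h1 h2
    exact hmax2 ⟨⟨hp, h1⟩, h2⟩
  have hgf : sm g ≤ sm f := by
    have := hfmax (g, f, t) (swap_mem hadm) (by simpa [dfc_comm] using hdf)
      (by simp only; linarith)
    exact this
  have hadm' := hadm
  obtain ⟨⟨a1, a2⟩, ⟨b1, b2⟩, c1, c2, c3, c4⟩ := hadm'
  simp only at a1 a2 b1 b2 c1 c2 c3 c4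
  -- every translate of `g` is below `f` or disjoint from it
  have key : ∀ e x : G, 0 < min (f x) (sh e g x) → ∀ y, sh e g y ≤ f y := by
    intro e x hx y
    have he := sh_mem e hadm
    have hIpos : 0 < sm (fun y => min (f y) (sh e g y)) := by
      unfold sm
      refine sum_pos' (fun y _ => le_min (a1 y) (b1 _)) ⟨x, mem_univ _, hx⟩
    rcases lt_or_ge (sm (fun y => min (f y) (sh e g y))) t with hlt | hge
    · exfalso
      obtain ⟨r1, r2⟩ := red_one he hlt
      rw [dfc_sh, hdf] at r2
      have r3 := le_antisymm (hM _ r1) r2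
      have r4 := hσmin _ r1 r3
      simp only at r4
      have e1 : sm (fun y => f y - min (f y) (sh e g y)) =
          sm f - sm (fun y => min (f y) (sh e g y)) := by
        unfold sm
        rw [sum_sub_distrib]
      have e2 : sm (fun y => sh e g y - min (f y) (sh e g y)) =
          sm g - sm (fun y => min (f y) (sh e g y)) := by
        rw [← sm_sh e g]
        unfold sm
        rw [sum_sub_distrib]
      rw [e1, e2] at r4
      linarith
    · obtain ⟨r1, r2, r3⟩ := red_two he hge
      rw [dfc_sh, hdf] at r3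
      have r4 := le_antisymm (hM _ r1) r3
      rw [sm_sh] at r2
      have r5 := hfmax _ r1 r4 (by simp only; rw [r2, hsum])
      simp only at r5
      by_contra hy
      push Not at hy
      have r6 : sm f < sm (fun y => max (f y) (sh e g y)) := by
        unfold sm
        refine sum_lt_sum (fun z _ => le_max_left _ _) ⟨y, mem_univ _, ?_⟩
        rw [max_eq_right hy.le]
        exact hy
      linarith
  -- `f` and `g` are not zero
  have hg0 : ∃ x, 0 < g x := by
    by_contra hcg
    push Not at hcg
    have hz : sm g ≤ 0 := sum_nonpos fun x _ => hcg x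
    have ht0 : t = 0 := le_antisymm (c3.trans hz) c1
    have : dfc f g t ≤ 0 := by
      unfold dfc
      rw [ht0, zero_mul, zero_sub]
      have : 0 ≤ tr f g 0 := by
        unfold tr
        exact sum_nonneg fun x _ => le_min (cv_nonneg a1 b1 x) le_rfl
      linarith
    linarith
  obtain ⟨y0, hy0⟩ := hg0
  have hf0 : ∃ x, 0 < f x := by
    by_contra hcf
    push Not at hcf
    have hz : sm f ≤ 0 := sum_nonpos fun x _ => hcf x
    have h2 : 0 < sm g := by
      unfold sm
      exact sum_pos' (fun x _ => b1 x) ⟨y0, mem_univ _, hy0⟩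
    linarith
  obtain ⟨z0, hz0⟩ := hf0
  -- the set of `e` with `sh e g ≤ f` is stable under the differences of the support of `g`
  have hE1 : ∀ x y, 0 < f x → 0 < g y → ∀ z, sh (x - y) g z ≤ f z := by
    intro x y hx hy
    refine key (x - y) x ?_
    unfold sh
    rw [sub_sub_cancel]
    exact lt_min hx hy
  have hE2 : ∀ e, (∀ z, sh e g z ≤ f z) → ∀ y, 0 < g y → 0 < f (y + e) := by
    intro e he y hy
    have := he (y + e)
    unfold sh at this
    rw [add_sub_cancel_right] at this
    linarith
  have hE3 : ∀ e, (∀ z, sh e g z ≤ f z) → ∀ y y', 0 < g y → 0 < g y' →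
      ∀ z, sh (e + (y - y')) g z ≤ f z := by
    intro e he y y' hy hy'
    have h1 := hE1 (y + e) y' (hE2 e he y hy) hy'
    have h2 : y + e - y' = e + (y - y') := by abel
    rw [h2] at h1
    exact h1
  set D : Set G := {d | ∃ y y', 0 < g y ∧ 0 < g y' ∧ d = y - y'} with hD
  have hE4 : ∀ h ∈ AddSubgroup.closure D, ∀ e, (∀ z, sh e g z ≤ f z) →
      ∀ z, sh (e + h) g z ≤ f z := by
    intro h hh
    induction hh using AddSubgroup.closure_induction with
    | mem x hx =>
      obtain ⟨y, y', hy, hy', rfl⟩ := hx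
      intro e he
      exact hE3 e he y y' hy hy'
    | zero =>
      intro e he
      rw [add_zero]
      exact he
    | add x y _ _ hx hy =>
      intro e he
      rw [← add_assoc]
      exact hy _ (hx e he)
    | neg x _ hx =>
      intro e he
      -- the translation by `x` is a bijection of a finite set into itself
      have hfin : ∀ e, (∀ z, sh e g z ≤ f z) → ∀ k : ℕ, ∀ z, sh (e + k • x) g z ≤ f z := by
        intro e he k
        induction k with
        | zero => simpa using he
        | succ k ih =>
          rw [succ_nsmul, ← add_assoc]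
          exact hx _ ih
      have h3 := hfin e he (addOrderOf x - 1)
      have hpos : 0 < addOrderOf x := (isOfFinAddOrder_of_finite x).addOrderOf_pos
      have h4 : (addOrderOf x - 1) • x = -x := by
        rw [eq_neg_iff_add_eq_zero, ← succ_nsmul, Nat.sub_add_cancel hpos]
        exact addOrderOf_nsmul_eq_zero x
      rw [h4] at h3
      exact h3
  by_cases htop : AddSubgroup.closure D = ⊤
  · -- terminal case
    have hall : ∀ e z, sh e g z ≤ f z := by
      intro e
      have h1 := hE1 z0 y0 hz0 hy0
      have h2 := hE4 (e - (z0 - y0)) (by rw [htop]; trivial) _ h1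
      rw [add_sub_cancel] at h2
      exact h2
    obtain ⟨x0, _, hx0⟩ := exists_max_image (univ : Finset G) g ⟨y0, mem_univ _⟩
    have h3 := red_three hM hM0 hadm x0 (fun x => hx0 x (mem_univ _)) (fun x => by
      have := hall (x - x0) x
      unfold sh at this
      rw [sub_sub_cancel] at this
      exact this) (lt_of_lt_of_le hy0 (hx0 y0 (mem_univ _)))
    linarith
  · -- small support
    have h1 := hK _ htop
    have h2 : sm g ≤ K := by
      refine le_trans ?_ h1
      have h3 : sm g ≤ ((univ.filter (fun x => 0 < g x)).card : ℝ) := by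
        unfold sm
        calc ∑ x, g x ≤ ∑ x, (if 0 < g x then (1 : ℝ) else 0) := by
              refine sum_le_sum fun x _ => ?_
              split_ifs with h
              · exact b2 x
              · exact not_lt.1 h
          _ = _ := by simp
      refine h3.trans ?_
      have h4 : (univ.filter (fun x => 0 < g x)).card ≤ Nat.card (AddSubgroup.closure D) := by
        rw [← SetLike.coe_sort_coe, Nat.card_coe_set_eq, ← Set.ncard_coe_finset]
        refine Set.ncard_le_ncard_of_injOn (fun x => x - y0) ?_ ?_ (Set.toFinite _)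
        · intro x hx
          simp only [coe_filter, mem_univ, true_and, Set.mem_ofPred_eq] at hx
          exact AddSubgroup.subset_closure ⟨x, y0, hx, hy0, rfl⟩
        · intro x _ x' _ h
          exact sub_left_injective h
      exact_mod_cast h4
    have h5 : dfc f g t ≤ K * (Fintype.card G : ℝ) := by
      unfold dfc
      have h6 : 0 ≤ tr f g t := by
        unfold tr
        exact sum_nonneg fun x _ => le_min (cv_nonneg a1 b1 x) c1
      have h7 : t * (sm f + sm g - t) ≤ t * (Fintype.card G : ℝ) :=
        mul_le_mul_of_nonneg_left c4 c1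
      have h8 : t * (Fintype.card G : ℝ) ≤ K * (Fintype.card G : ℝ) :=
        mul_le_mul_of_nonneg_right (c3.trans h2) (Nat.cast_nonneg _)
      linarith
    linarith

/-- Pollard's theorem for functions with values in `[0, 1]` on a finite abelian group all of whose
proper subgroups have at most `K` elements. -/
theorem pollard (K : ℝ) (hK0 : 0 ≤ K)
    (hK : ∀ H : AddSubgroup G, H ≠ ⊤ → (Nat.card H : ℝ) ≤ K) {f g : G → ℝ} {t : ℝ}
    (hf : (∀ x, 0 ≤ f x) ∧ ∀ x, f x ≤ 1) (hg : (∀ x, 0 ≤ g x) ∧ ∀ x, g x ≤ 1) (ht : 0 ≤ t)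
    (h1 : t ≤ ∑ x, f x) (h2 : t ≤ ∑ x, g x) :
    t * min (Fintype.card G : ℝ) (∑ x, f x + ∑ x, g x - t) - K * (Fintype.card G : ℝ) ≤
      ∑ x, min (∑ y, f y * g (x - y)) t := by
  have := cap_of (pollard_aux K hK0 hK) hf hg ht h1 h2
  unfold sm tr cv at this
  linarith

end Pool.Agent.Lib.MP_629a14_nt.Kp
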