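import Pool.Agent.Lib.MP_629a14_nt.Kp.SInt

/-! Basic properties of the smoothed function. -/

set_option autoImplicit false

namespace Pool.Agent.Lib.MP_629a14_nt.Kp

open Finset Pool.Agent.Lib.MP_629a14_nt Pool.Agent.Lib.MP_629a14_nt.Ml

theorem uA_nonneg (v X N : ℕ) (A : Set ℕ) (x : ℕ) : 0 ≤ uA v X N A x := by
  unfold uA
  split_ifs
  · refine mul_nonneg ?_ (Real.log_natCast_nonneg X)
    unfold den
    positivity
  · exact le_rfl

theorem Ft_nonneg (v w M V N : ℕ) [NeZero M] {J : ℕ} (a : Fin J → Gp (mo v w M)) (lam : ℝ)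
    (A : Set ℕ) (x : ℕ) : 0 ≤ Ft v w M V N a lam A x := by
  unfold Ft av
  refine sum_nonneg fun s _ => mul_nonneg (ka_nonneg a lam _ s) ?_
  unfold push
  exact sum_nonneg fun y _ => uA_nonneg _ _ _ _ _

/-- By `Ft_int` and `ka_dvd`: a prime `p ≤ V` dividing `x` divides `(x + t) % XX w M` for all `t` with
`ka ≠ 0`, so this number is not a prime larger than `X ^ (1/4) ≥ V`. -/
theorem Ft_zero (v w M V N : ℕ) [NeZero M] (hvV : v ≤ V) (hVw : V ≤ w)
    (hM : M.Coprime (primorial w)) (hN : N < XX w M)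
    (hV : V ≤ ⌊(XX w M : ℝ) ^ (1 / 4 : ℝ)⌋₊) {J : ℕ} (a : Fin J → Gp (mo v w M)) (lam : ℝ)
    (A : Set ℕ) (x : ℕ) (hx : ¬ x.Coprime (primorial V)) : Ft v w M V N a lam A x = 0 := by
  rw [Ft_int v w M V N (hvV.trans hVw) hM hN a lam A x]
  refine sum_eq_zero fun t ht => ?_
  obtain ⟨p, hp, hpx, hpV⟩ := Nat.Prime.not_coprime_iff_dvd.1 hx
  have hpV' : p ≤ V := hp.dvd_primorial_iff.1 hpV
  by_cases hk : ka a lam (svE v w V) (red v w M t) = 0
  · rw [hk, zero_mul]
  · have htv : primorial v ∣ t := by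
      unfold fib at ht
      exact (Nat.modEq_zero_iff_dvd).1 (mem_filter.1 ht).2
    have htV : primorial V ∣ t := ka_dvd v w M V hvV hVw a lam t htv hk
    have hpX : p ∣ XX w M := by
      unfold XX
      exact (hpV.trans (primorial_dvd_primorial hVw)).mul_right M
    have hpxt : p ∣ (x + t) % XX w M :=
      (Nat.dvd_mod_iff hpX).2 (dvd_add hpx (hpV.trans htV))
    have h0 : uA v (XX w M) N A ((x + t) % XX w M) = 0 := by
      unfold uA
      rw [if_neg]
      rintro ⟨hq, hq2, _⟩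
      have he := (Nat.prime_dvd_prime_iff_eq hp hq).1 hpxt
      omega
    rw [h0, mul_zero]

private theorem re_psi_shift {ι : Type} [Fintype ι] [DecidableEq ι] {n : ι → ℕ}
    [∀ i, NeZero (n i)] (b s z : Gp n) :
    |(psi (b * z)).re - (psi (b * (z - s))).re| ≤ ‖psi (b * s) - 1‖ := by
  have h1 : psi (b * z) = psi (b * (z - s)) * psi (b * s) := by
    rw [← psi_add]
    congr 1
    ring
  have h2 : (psi (b * z)).re - (psi (b * (z - s))).re =
      (psi (b * (z - s)) * (psi (b * s) - 1)).re := by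
    have h3 : psi (b * (z - s)) * (psi (b * s) - 1) = psi (b * z) - psi (b * (z - s)) := by
      rw [h1]
      ring
    rw [h3, Complex.sub_re]
  rw [h2]
  refine (Complex.abs_re_le_norm _).trans ?_
  rw [norm_mul, norm_psi, one_mul]

private theorem exp_diff {l q q' d : ℝ} (hl : 0 ≤ l) (h : |q' - q| ≤ d) :
    |Real.exp (-(l * q')) - Real.exp (-(l * q))| ≤ (Real.exp (l * d) - 1) * Real.exp (-(l * q)) := by
  obtain ⟨h1, h2⟩ := abs_le.1 h
  have e1 : Real.exp (-(l * q')) = Real.exp (l * (q - q')) * Real.exp (-(l * q)) := by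
    rw [← Real.exp_add]
    congr 1
    ring
  have e2 : Real.exp (-(l * q')) - Real.exp (-(l * q)) =
      (Real.exp (l * (q - q')) - 1) * Real.exp (-(l * q)) := by
    rw [e1]
    ring
  rw [e2, abs_mul, abs_of_pos (Real.exp_pos _)]
  refine mul_le_mul_of_nonneg_right ?_ (Real.exp_pos _).le
  have h3 : l * (q - q') ≤ l * d := mul_le_mul_of_nonneg_left (by linarith) hl
  have h4 : -(l * d) ≤ l * (q - q') := by nlinarith
  rw [abs_le]
  constructor
  · have h5 : Real.exp (-(l * d)) ≤ Real.exp (l * (q - q')) := Real.exp_le_exp.2 h4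
    have h6 : 2 ≤ Real.exp (l * d) + Real.exp (-(l * d)) := by
      have := Real.add_one_le_exp (l * d)
      have := Real.add_one_le_exp (-(l * d))
      linarith
    linarith
  · have := Real.exp_le_exp.2 h3
    linarith

/-- `|Re psi (a j * (z - s)) - Re psi (a j * z)| ≤ ‖psi (a j * s) - 1‖ ≤ δ`, so
`|QQ a (z - s) - QQ a z| ≤ J δ`. -/
theorem ka_shift {ι : Type} [Fintype ι] [DecidableEq ι] {n : ι → ℕ} [∀ i, NeZero (n i)] {J : ℕ}
    (a : Fin J → Gp n) (lam : ℝ) (hlam : 0 ≤ lam) (E : Finset ι) (s : Gp n)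
    (hs : s ∈ (HS E : Finset (Gp n))) (δ : ℝ) (hδ : ∀ j, ‖psi (a j * s) - 1‖ ≤ δ) (z : Gp n) :
    |ka a lam E (z - s) - ka a lam E z| ≤ (Real.exp (lam * (J * δ)) - 1) * ka a lam E z := by
  by_cases hz : z ∈ (HS E : Finset (Gp n))
  · have hz' : z - s ∈ (HS E : Finset (Gp n)) := by
      rw [sub_eq_add_neg]
      exact add_mem_HS hz (neg_mem_HS hs)
    have hQ : |QQ a (z - s) - QQ a z| ≤ J * δ := by
      unfold QQ
      rw [← sum_sub_distrib]
      refine (abs_sum_le_sum_abs _ _).trans ?_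
      calc ∑ j, |1 - (psi (a j * (z - s))).re - (1 - (psi (a j * z)).re)|
          ≤ ∑ _j : Fin J, δ := by
            refine sum_le_sum fun j _ => ?_
            have := re_psi_shift (a j) s z
            rw [show 1 - (psi (a j * (z - s))).re - (1 - (psi (a j * z)).re) =
              (psi (a j * z)).re - (psi (a j * (z - s))).re by ring]
            exact this.trans (hδ j)
        _ = J * δ := by simp
    have hD : 0 < ZZ a lam E * ((HS E : Finset (Gp n)).card : ℝ) :=
      mul_pos (ZZ_pos a lam E) (card_HS_pos E)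
    unfold ka
    rw [if_pos hz, if_pos hz', ← sub_div, abs_div, abs_of_pos hD, ← mul_div_assoc]
    exact div_le_div_of_nonneg_right (exp_diff hlam hQ) hD.le
  · have hz' : z - s ∉ (HS E : Finset (Gp n)) := by
      intro h
      apply hz
      have := add_mem_HS h hs
      rwa [sub_add_cancel] at this
    rw [ka_of_not_mem a lam E hz, ka_of_not_mem a lam E hz']
    simp

private theorem red_add (v w M x y : ℕ) : red v w M (x + y) = red v w M x + red v w M y := by
  funext i
  unfold red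
  rw [Pi.add_apply]
  push_cast
  rfl

private theorem red_mem_HS (v w M V : ℕ) [NeZero M] (s : ℕ) (hs : primorial V ∣ s) :
    red v w M s ∈ (HS (svE v w V) : Finset (Gp (mo v w M))) := by
  rw [mem_HS]
  intro i hi
  unfold svE at hi
  rw [mem_filter] at hi
  obtain ⟨_, p, rfl, hpV⟩ := hi
  have hp := p.2
  unfold PR at hp
  rw [mem_filter] at hp
  have h1 : p.1 ∣ s := (hp.2.dvd_primorial_iff.2 hpV).trans hs
  exact (ZMod.natCast_eq_zero_iff s p.1).2 h1

/-- `Ft (x + s) = ∑ z, ka (z - red s) * push v w M x u (red x + z)` (as `primorial v ∣ primorial V ∣ s`)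
and `ka_shift`. -/
theorem Ft_per (v w M V N : ℕ) [NeZero M] (hvV : v ≤ V) (hVw : V ≤ w) {J : ℕ}
    (a : Fin J → Gp (mo v w M)) (lam : ℝ) (hlam : 0 ≤ lam) (A : Set ℕ) (s : ℕ)
    (hs : primorial V ∣ s) (δ : ℝ) (hδ : ∀ j, ‖psi (a j * red v w M s) - 1‖ ≤ δ) (x : ℕ) :
    |Ft v w M V N a lam A (x + s) - Ft v w M V N a lam A x| ≤
      (Real.exp (lam * (J * δ)) - 1) * Ft v w M V N a lam A x := by
  have hmod : x + s ≡ x [MOD primorial v] := by
    have h1 : primorial v ∣ s := (primorial_dvd_primorial hvV).trans hs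
    have h2 : s ≡ 0 [MOD primorial v] := (Nat.modEq_zero_iff_dvd).2 h1
    simpa using (Nat.ModEq.refl x).add h2
  have e1 : Ft v w M V N a lam A (x + s) = ∑ z, ka a lam (svE v w V) (z - red v w M s) *
      push v w M x (uA v (XX w M) N A) (red v w M x + z) := by
    unfold Ft av
    rw [push_congr v w M hmod, red_add]
    rw [← Equiv.sum_comp (Equiv.subRight (red v w M s))]
    refine sum_congr rfl fun z _ => ?_
    rw [Equiv.subRight_apply]
    congr 2
    abel
  rw [e1]
  unfold Ft av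
  rw [← sum_sub_distrib, mul_sum]
  refine (abs_sum_le_sum_abs _ _).trans (sum_le_sum fun z _ => ?_)
  have hP : 0 ≤ push v w M x (uA v (XX w M) N A) (red v w M x + z) := by
    unfold push
    exact sum_nonneg fun y _ => uA_nonneg _ _ _ _ _
  rw [← sub_mul, abs_mul, abs_of_nonneg hP, ← mul_assoc]
  exact mul_le_mul_of_nonneg_right
    (ka_shift a lam hlam (svE v w V) (red v w M s) (red_mem_HS v w M V s hs) δ hδ z) hP

end Pool.Agent.Lib.MP_629a14_nt.Kp
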