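import Pool.Agent.Lib.MP_629a14_nt.Kp.Defs
import Pool.Agent.Lib.MP_629a14_nt.En.Sing

/-! The comparison of `rho` and the local model for one `n`. -/

set_option autoImplicit false

namespace Pool.Agent.Lib.MP_629a14_nt.Kp

open Finset Pool.Agent.Lib.MP_629a14_nt Pool.Agent.Lib.MP_629a14_nt.Rob

private theorem close_real {ε ρ s1 s2 l L r r' n y m R : ℝ} (hε : 0 < ε) (hρ : ρ = ε / 40)
    (hε1 : ε ≤ 1) (hs1 : 0 < s1) (hs : |s2 - s1| ≤ ρ * s1) (hl : 0 < l) (hlL : l ≤ L)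
    (hlL2 : (1 - ρ) * L ^ 2 ≤ l ^ 2) (hn : 0 < n) (hr' : 0 ≤ r') (hr : r' ≤ r)
    (hrr : (r - r') * L ^ 2 ≤ ε / 8 * (n * s1)) (hy : y = r' * L ^ 2 / (n * s2))
    (hR : R = r / (s1 * (n / l ^ 2))) (hym : |y - m| ≤ ε / 4) (hm : m ≤ 8) : |R - m| ≤ ε := by
  have hρ0 : 0 < ρ := by rw [hρ]; positivity
  have hρ1 : ρ ≤ 1 / 40 := by rw [hρ]; linarith
  have hs' := abs_le.1 hs
  have hs2 : 0 < s2 := by nlinarith
  have hL : 0 < L := lt_of_lt_of_le hl hlL
  have hL2 : 0 < L ^ 2 := by positivity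
  have hl2 : l ^ 2 ≤ L ^ 2 := pow_le_pow_left₀ hl.le hlL 2
  have hy0 : 0 ≤ y := by rw [hy]; positivity
  have hy9 : y ≤ 9 := by
    have := (abs_le.1 hym).2
    linarith
  have e1 : R - y = (r - r') * l ^ 2 / (n * s1) + y * (l ^ 2 * s2 / (L ^ 2 * s1) - 1) := by
    rw [hR, hy]
    field_simp
    ring
  have h1 : 0 ≤ (r - r') * l ^ 2 / (n * s1) := by
    have : 0 ≤ r - r' := by linarith
    positivity
  have h2 : (r - r') * l ^ 2 / (n * s1) ≤ ε / 8 := by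
    rw [div_le_iff₀ (by positivity)]
    refine le_trans ?_ hrr
    exact mul_le_mul_of_nonneg_left hl2 (by linarith)
  have h3 : |l ^ 2 * s2 / (L ^ 2 * s1) - 1| ≤ 2 * ρ := by
    rw [abs_le]
    constructor
    · rw [neg_le_sub_iff_le_add, ← sub_le_iff_le_add, le_div_iff₀ (by positivity)]
      have e2 : (1 - ρ) * s1 ≤ s2 := by linarith
      have e3 : (1 - ρ) * L ^ 2 * ((1 - ρ) * s1) ≤ l ^ 2 * s2 :=
        mul_le_mul hlL2 e2 (by nlinarith) (by positivity)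
      have e4 : (1 - 2 * ρ) * (L ^ 2 * s1) ≤ (1 - ρ) * L ^ 2 * ((1 - ρ) * s1) := by
        have : 0 ≤ ρ ^ 2 * (L ^ 2 * s1) := by positivity
        nlinarith
      linarith
    · rw [sub_le_iff_le_add, div_le_iff₀ (by positivity)]
      have e2 : s2 ≤ (1 + ρ) * s1 := by linarith
      have e3 : l ^ 2 * s2 ≤ L ^ 2 * ((1 + ρ) * s1) := mul_le_mul hl2 e2 hs2.le hL2.le
      have : 0 ≤ ρ * (L ^ 2 * s1) := by positivity
      nlinarith
  have h4 : |y * (l ^ 2 * s2 / (L ^ 2 * s1) - 1)| ≤ 9 * (2 * ρ) := by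
    rw [abs_mul, abs_of_nonneg hy0]
    exact mul_le_mul hy9 h3 (abs_nonneg _) (by norm_num)
  have e5 : R - m = (r - r') * l ^ 2 / (n * s1) + y * (l ^ 2 * s2 / (L ^ 2 * s1) - 1) + (y - m) := by
    rw [← e1]
    ring
  rw [e5]
  have h5 := abs_add_le ((r - r') * l ^ 2 / (n * s1) + y * (l ^ 2 * s2 / (L ^ 2 * s1) - 1)) (y - m)
  have h6 := abs_add_le ((r - r') * l ^ 2 / (n * s1)) (y * (l ^ 2 * s2 / (L ^ 2 * s1) - 1))
  rw [abs_of_nonneg h1] at h6
  rw [hρ] at h4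
  linarith

/-- The comparison of `rho` and the local model for one `n`: `cD` is the error of the smoothing,
`W` the contribution of the pairs `(x, y)` with `x + y = n + X`, `F = κ f`, `G = κ g`. -/
theorem close_n {V n : ℕ} {A B : Set ℕ} {F G : ℕ → ℝ} {ε ρ d L cD W r' κ : ℝ} (hε : 0 < ε)
    (hρ : ρ = ε / 40) (hε1 : ε ≤ 1) (hn : 2 ≤ n)
    (hs : |sig V n - En.sing n| ≤ ρ * En.sing n) (hL : Real.log n ≤ L)
    (hL2 : (1 - ρ) * L ^ 2 ≤ Real.log n ^ 2) (hr' : 0 ≤ r') (hr : r' ≤ (Sm.repsIn A B n : ℝ))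
    (hrr : ((Sm.repsIn A B n : ℝ) - r') * L ^ 2 ≤ ε / 8 * (n * En.sing n)) (hd : 0 < d)
    (hκ : κ = d * En.kap V)
    (hG0 : G 0 = 0) (hF0 : F 0 = 0)
    (hid : cD + (∑ x ∈ Ico 1 n, F x * G (n - x) + W) = (d * L) ^ 2 * r')
    (hD : |cD| ≤ ε / 8 * (d ^ 2 * (n * sig V n))) (hW : |W| ≤ ε / 8 * (d ^ 2 * (n * sig V n)))
    (hm : model V (fun x => F x / κ) (fun x => G x / κ) n ≤ 8) :
    |rho A B n - model V (fun x => F x / κ) (fun x => G x / κ) n| ≤ ε := by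
  have hsing : 0 < En.sing n := lt_of_lt_of_le (by have := En.tw_pos; linarith) (En.sing_ge n)
  have hn0 : (0 : ℝ) < n := by exact_mod_cast (by omega : 0 < n)
  have hn2 : (2 : ℝ) ≤ n := by exact_mod_cast hn
  have hlog : 0 < Real.log n := Real.log_pos (by linarith)
  have hρ0 : 0 < ρ := by rw [hρ]; positivity
  have hρ1 : ρ ≤ 1 / 40 := by rw [hρ]; linarith
  have hs' := abs_le.1 hs
  have hsig : 0 < sig V n := by nlinarith
  have hkap : 0 < En.kap V := by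
    unfold En.kap
    have h1 : (0 : ℝ) < (primorial V : ℝ) := by exact_mod_cast primorial_pos V
    have h2 : (0 : ℝ) < ((primorial V).totient : ℝ) := by
      exact_mod_cast Nat.totient_pos.2 (primorial_pos V)
    positivity
  have hκ0 : 0 < κ := by rw [hκ]; positivity
  have hsum : ∑ x ∈ range (n + 1), F x / κ * (G (n - x) / κ) =
      (∑ x ∈ Ico 1 n, F x * G (n - x)) / κ ^ 2 := by
    rw [sum_range_succ, Nat.sub_self, hG0, zero_div, mul_zero, add_zero, range_eq_Ico,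
      sum_eq_sum_Ico_succ_bot (by omega), hF0, zero_div, zero_mul, zero_add, sum_div]
    refine sum_congr rfl fun x _ => ?_
    field_simp
  refine close_real (r := (Sm.repsIn A B n : ℝ)) (r' := r')
    (y := r' * L ^ 2 / ((n : ℝ) * sig V n)) hε hρ hε1 hsing hs hlog hL hL2 hn0 hr' hr hrr rfl
    ?_ ?_ hm
  · unfold rho En.HL
    rfl
  · have e1 : r' * L ^ 2 / ((n : ℝ) * sig V n) -
        model V (fun x => F x / κ) (fun x => G x / κ) n = (cD + W) / (d ^ 2 * (n * sig V n)) := by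
      unfold model
      rw [hsum, hκ]
      have e2 : r' * L ^ 2 = (cD + (∑ x ∈ Ico 1 n, F x * G (n - x) + W)) / d ^ 2 := by
        rw [hid]
        field_simp
      rw [e2]
      field_simp
      ring
    rw [e1, abs_div, abs_of_pos (by positivity : 0 < d ^ 2 * (n * sig V n)),
      div_le_iff₀ (by positivity)]
    have := abs_add_le cD W
    linarith

/-- Chebyshev's inequality. -/
theorem count_sq {N : ℕ} (F : ℕ → ℝ) {S θ : ℝ} (hθ : 0 < θ) (h : ∑ n ∈ Icc 1 N, F n ^ 2 ≤ S) :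
    (((Icc 1 N).filter (fun n => θ < |F n|)).card : ℝ) ≤ S / θ ^ 2 := by
  rw [le_div_iff₀ (by positivity), ← nsmul_eq_mul]
  refine le_trans (card_nsmul_le_sum _ (fun n => F n ^ 2) _ ?_) (le_trans ?_ h)
  · intro n hn
    have h1 := (mem_filter.1 hn).2
    have h2 := pow_le_pow_left₀ hθ.le h1.le 2
    rwa [sq_abs] at h2
  · exact sum_le_sum_of_subset_of_nonneg (filter_subset _ _) fun _ _ _ => sq_nonneg _

/-- Markov's inequality. -/
theorem count_one {N : ℕ} (F : ℕ → ℝ) (hF : ∀ n, 0 ≤ F n) {S θ : ℝ} (hθ : 0 < θ)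
    (h : ∑ n ∈ Icc 1 N, F n ≤ S) :
    (((Icc 1 N).filter (fun n => θ < F n)).card : ℝ) ≤ S / θ := by
  rw [le_div_iff₀ hθ, ← nsmul_eq_mul]
  refine le_trans (card_nsmul_le_sum _ F _ ?_) (le_trans ?_ h)
  · intro n hn
    exact (mem_filter.1 hn).2.le
  · exact sum_le_sum_of_subset_of_nonneg (filter_subset _ _) fun _ _ _ => hF _

theorem count_small {N : ℕ} {θ : ℝ} (hθ : 0 ≤ θ) :
    (((Icc 1 N).filter (fun n : ℕ => (n : ℝ) < θ * N)).card : ℝ) ≤ θ * N := by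
  have h1 : (Icc 1 N).filter (fun n : ℕ => (n : ℝ) < θ * N) ⊆ Icc 1 ⌊θ * N⌋₊ := by
    intro n hn
    rw [mem_filter, mem_Icc] at hn
    rw [mem_Icc]
    exact ⟨hn.1.1, Nat.le_floor hn.2.le⟩
  have h2 := card_le_card h1
  rw [Nat.card_Icc, Nat.add_sub_cancel] at h2
  have h3 : (((Icc 1 N).filter (fun n : ℕ => (n : ℝ) < θ * N)).card : ℝ) ≤ (⌊θ * N⌋₊ : ℝ) := by
    exact_mod_cast h2
  exact h3.trans (Nat.floor_le (by positivity))

end Pool.Agent.Lib.MP_629a14_nt.Kp
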