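import Pool.Agent.Lib.MP_629a14_nt.Kp.Defs
import Pool.Agent.Lib.MP_629a14_nt.Ml.TFin

/-! Definitions for the structure theorem. -/

set_option autoImplicit false

namespace Pool.Agent.Lib.MP_629a14_nt.Kp

open Finset Filter Topology Pool.Agent.Lib.MP_629a14_nt Pool.Agent.Lib.MP_629a14_nt.Rob
open Pool.Agent.Lib.MP_629a14_nt.Ml

open Classical in
/-- The normalised indicator function of the primes `p ∈ A` with `X ^ (1/4) < p ≤ N`. -/
noncomputable def uA (v X N : ℕ) (A : Set ℕ) (x : ℕ) : ℝ :=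
  if x.Prime ∧ ⌊(X : ℝ) ^ (1 / 4 : ℝ)⌋₊ < x ∧ x ≤ N ∧ x ∈ A then den v * Real.log X else 0

/-- The smoothed function. -/
noncomputable def Ft (v w M V N : ℕ) {J : ℕ} (a : Fin J → Gp (mo v w M)) [NeZero M] (lam : ℝ)
    (A : Set ℕ) (x : ℕ) : ℝ :=
  av (ka a lam (svE v w V)) (push v w M x (uA v (XX w M) N A)) (red v w M x)

open Classical in
/-- The number of primes `p ≤ x` in `A` in a residue class. -/
noncomputable def cntA (A : Set ℕ) (R b x : ℕ) : ℕ :=
  ((Icc 1 x).filter (fun p => p.Prime ∧ p ∈ A ∧ p ≡ b [MOD R])).card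

end Pool.Agent.Lib.MP_629a14_nt.Kp
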