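import Pool.Agent.Lib.MP_629a14_nt.Kp.SDefs
import Pool.Agent.Lib.MP_629a14_nt.Rob.PiAP

/-! Sets of primes of given density in intervals and residue classes. -/

set_option autoImplicit false

namespace Pool.Agent.Lib.MP_629a14_nt.Kp

open Finset Filter Topology Pool.Agent.Lib.MP_629a14_nt Pool.Agent.Lib.MP_629a14_nt.Rob
open Pool.Agent.Lib.MP_629a14_nt.Ml

private theorem sdens_primesIn (A : Set ℕ) (R b x : ℕ) :
    primesIn A R b x = cntA A R b x := by
  classical
  unfold primesIn cntA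
  rw [← Set.ncard_coe_finset]
  congr 1
  ext p
  simp only [Set.mem_ofPred_eq, coe_filter, mem_Icc]
  constructor
  · rintro ⟨h1, h2, h3, h4⟩
    exact ⟨⟨h2.one_le, h1⟩, h2, h3, h4⟩
  · rintro ⟨⟨h0, h1⟩, h2, h3, h4⟩
    exact ⟨h1, h2, h3, h4⟩

private theorem sdens_univ (R b x : ℕ) :
    cntA Set.univ R b x = ((Icc 1 x).filter (fun n => n.Prime ∧ n ≡ b [MOD R])).card := by
  classical
  unfold cntA
  congr 1
  ext p
  simp only [mem_filter, Set.mem_univ, true_and]

private theorem sdens_le (A : Set ℕ) (R b x : ℕ) : cntA A R b x ≤ cntA Set.univ R b x := by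
  classical
  unfold cntA
  refine card_le_card fun p hp => ?_
  simp only [mem_filter, Set.mem_univ, true_and] at hp ⊢
  exact ⟨hp.1, hp.2.1, hp.2.2.2⟩

private theorem sdens_card (A : Set ℕ) (R b x : ℕ) : cntA A R b x ≤ x := by
  classical
  unfold cntA
  refine (card_filter_le _ _).trans ?_
  rw [Nat.card_Icc, Nat.add_sub_cancel]

/-- `pi_unif` for the number of all primes, and the definition of `HasDensity` for `x ≥ x₁`; for
`x ≤ x₁` both terms are at most `ε X` for large `X`. -/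
theorem dens_unif {A : Set ℕ} {α : ℝ} (hA : HasDensity A α) (R b : ℕ) (hR : 1 ≤ R)
    (hb : b.Coprime R) (ε : ℝ) (hε : 0 < ε) : ∃ X₀ : ℕ, ∀ X : ℕ, X₀ ≤ X → ∀ x : ℕ, x ≤ X →
      |Real.log X * (cntA A R b x : ℝ) - α * x / R.totient| ≤ ε * X := by
  classical
  have hφ : (1 : ℝ) ≤ R.totient := by
    have := Nat.totient_pos.2 (show 0 < R by omega)
    exact_mod_cast this
  have hφ0 : (0 : ℝ) < R.totient := by linarith
  -- the density
  have h1 := hA R b hR hb
  rw [Metric.tendsto_atTop] at h1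
  obtain ⟨x₁, hx₁⟩ := h1 (ε / 8) (by positivity)
  have hden : ∀ x : ℕ, x₁ ≤ x → |(cntA A R b x : ℝ) - α * (cntA Set.univ R b x : ℝ)| ≤
      ε / 8 * (cntA Set.univ R b x : ℝ) := by
    intro x hx
    rcases Nat.eq_zero_or_pos (cntA Set.univ R b x) with h0 | hpos
    · have h2 : cntA A R b x = 0 := by
        have := sdens_le A R b x
        omega
      rw [h0, h2]
      simp
    · have h2 := hx₁ x hx
      rw [sdens_primesIn, sdens_primesIn, Real.dist_eq] at h2
      have hpos' : (0 : ℝ) < (cntA Set.univ R b x : ℝ) := by exact_mod_cast hpos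
      have h3 : (cntA A R b x : ℝ) - α * (cntA Set.univ R b x : ℝ) =
          ((cntA A R b x : ℝ) / (cntA Set.univ R b x : ℝ) - α) * (cntA Set.univ R b x : ℝ) := by
        field_simp
      rw [h3, abs_mul, abs_of_pos hpos']
      exact mul_le_mul_of_nonneg_right h2.le hpos'.le
  -- all primes
  obtain ⟨ε', hε'⟩ : ∃ ε' : ℝ, ε' = min 1 (ε / (4 * (|α| + 1))) := ⟨_, rfl⟩
  have hα0 : 0 ≤ |α| := abs_nonneg α
  have hε'0 : 0 < ε' := by
    rw [hε']
    exact lt_min one_pos (by positivity)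
  have hε'1 : ε' ≤ 1 := by
    rw [hε']
    exact min_le_left _ _
  have hε'2 : |α| * ε' ≤ ε / 4 := by
    have h2 : ε' ≤ ε / (4 * (|α| + 1)) := by
      rw [hε']
      exact min_le_right _ _
    rw [le_div_iff₀ (by positivity)] at h2
    nlinarith
  obtain ⟨N₀, hN₀⟩ := pi_unif R b hR hb ε' hε'0
  -- small x
  have hlog := PiAP.log_pow_div 1
  rw [Metric.tendsto_atTop] at hlog
  obtain ⟨N₁, hN₁⟩ := hlog (ε / (2 * (x₁ + 1))) (by positivity)
  obtain ⟨N₂, hN₂⟩ := exists_nat_gt (2 * (|α| * x₁) / ε)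
  refine ⟨max (max N₀ N₁) (max N₂ 1), fun X hX x hxX => ?_⟩
  have hX0 : N₀ ≤ X := (le_max_left _ _).trans ((le_max_left _ _).trans hX)
  have hX1 : N₁ ≤ X := (le_max_right _ _).trans ((le_max_left _ _).trans hX)
  have hX2 : N₂ ≤ X := (le_max_left _ _).trans ((le_max_right _ _).trans hX)
  have hX3 : 1 ≤ X := (le_max_right _ _).trans ((le_max_right _ _).trans hX)
  have hXpos : (0 : ℝ) < X := by exact_mod_cast hX3
  have hlog0 : 0 ≤ Real.log X := Real.log_natCast_nonneg X
  have hxX' : (x : ℝ) ≤ X := by exact_mod_cast hxX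
  have hx0 : (0 : ℝ) ≤ x := Nat.cast_nonneg x
  have hxφ : (x : ℝ) / R.totient ≤ x := by
    rw [div_le_iff₀ hφ0]
    nlinarith
  have hxφ0 : 0 ≤ (x : ℝ) / R.totient := by positivity
  rcases le_or_gt x₁ x with hx | hx
  · have h2 := hN₀ X hX0 x hxX
    rw [← sdens_univ] at h2
    have h3 := hden x hx
    have h4 : (Real.log X * (cntA A R b x : ℝ) - α * x / R.totient) =
        Real.log X * ((cntA A R b x : ℝ) - α * (cntA Set.univ R b x : ℝ)) +
          α * (Real.log X * (cntA Set.univ R b x : ℝ) - (x : ℝ) / R.totient) := by ring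
    have h5 : Real.log X * (cntA Set.univ R b x : ℝ) ≤ 2 * X := by
      have h6 := (abs_le.1 h2).2
      nlinarith
    rw [h4]
    refine (abs_add_le _ _).trans ?_
    rw [abs_mul, abs_mul, abs_of_nonneg hlog0]
    have h6 : Real.log X * |(cntA A R b x : ℝ) - α * (cntA Set.univ R b x : ℝ)| ≤
        ε / 8 * (Real.log X * (cntA Set.univ R b x : ℝ)) := by
      have := mul_le_mul_of_nonneg_left h3 hlog0
      linarith
    have h7 : ε / 8 * (Real.log X * (cntA Set.univ R b x : ℝ)) ≤ ε / 8 * (2 * X) :=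
      mul_le_mul_of_nonneg_left h5 (by positivity)
    have h8 : |α| * |Real.log X * (cntA Set.univ R b x : ℝ) - (x : ℝ) / R.totient| ≤
        |α| * (ε' * X) := mul_le_mul_of_nonneg_left h2 hα0
    have h9 : |α| * (ε' * X) ≤ ε / 4 * X := by
      have := mul_le_mul_of_nonneg_right hε'2 hXpos.le
      linarith
    have h10 : 0 < ε * X := by positivity
    linarith
  · have hx1 : (x : ℝ) ≤ x₁ := by exact_mod_cast hx.le
    have h2 := hN₁ X hX1
    rw [Real.dist_eq, sub_zero, pow_one, abs_of_nonneg (div_nonneg hlog0 hXpos.le),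
      div_lt_div_iff₀ hXpos (by positivity)] at h2
    have hx10 : (0 : ℝ) ≤ x₁ := Nat.cast_nonneg x₁
    have hc : (cntA A R b x : ℝ) ≤ x₁ := by
      have : (cntA A R b x : ℝ) ≤ x := by exact_mod_cast sdens_card A R b x
      linarith
    have hc0 : (0 : ℝ) ≤ (cntA A R b x : ℝ) := Nat.cast_nonneg _
    have h3 : Real.log X * (cntA A R b x : ℝ) ≤ ε / 2 * X := by
      have h4 : Real.log X * (cntA A R b x : ℝ) ≤ Real.log X * x₁ :=
        mul_le_mul_of_nonneg_left hc hlog0
      nlinarith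
    have h4 : |α * x / R.totient| ≤ ε / 2 * X := by
      rw [mul_div_assoc, abs_mul, abs_of_nonneg hxφ0]
      have h5 : |α| * ((x : ℝ) / R.totient) ≤ |α| * x₁ :=
        mul_le_mul_of_nonneg_left (by linarith) hα0
      rw [div_lt_iff₀ hε] at hN₂
      have h6 : (N₂ : ℝ) ≤ X := by exact_mod_cast hX2
      nlinarith
    refine (abs_sub _ _).trans ?_
    rw [abs_of_nonneg (mul_nonneg hlog0 hc0)]
    linarith

end Pool.Agent.Lib.MP_629a14_nt.Kp
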