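import Pool.Agent.Lib.MP_629a14_nt.Kp.Defs
import Pool.Agent.Lib.MP_629a14_nt.Rob.NuNu
import Pool.Agent.Lib.MP_629a14_nt.Rob.SigLow
import Pool.Agent.Lib.MP_629a14_nt.En.Sing

/-! Upper bound for the local model, and the numbers with many large prime factors. -/

set_option autoImplicit false

namespace Pool.Agent.Lib.MP_629a14_nt.Kp

open Finset Pool.Agent.Lib.MP_629a14_nt Pool.Agent.Lib.MP_629a14_nt.Rob

private theorem kapf_le (V : ℕ) (f : ℕ → ℝ) (h2 : ∀ x, f x ≤ 2)
    (hs : ∀ x, ¬ x.Coprime (primorial V) → f x = 0) (x : ℕ) :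
    En.kap V * f x ≤ 2 * nu V x := by
  unfold En.kap nu
  split_ifs with h
  · have : (0 : ℝ) ≤ (primorial V : ℝ) / (primorial V).totient := by positivity
    nlinarith [h2 x]
  · rw [hs x h]
    simp

/-- If `f, g ≤ 2` are supported on the integers coprime to `primorial V`, then
`kap V ^ 2 * ∑ f x g (n - x) ≤ 4 ∑ nu x nu (n - x) ≤ 4 (n sig V n + C)` (`nunu`) and `sig V n` is bounded
below for even `n`. -/
theorem model_le (V : ℕ) (hV : 2 ≤ V) : ∃ n₀ : ℕ, ∀ n : ℕ, n₀ ≤ n → Even n → ∀ f g : ℕ → ℝ,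
    (∀ x, 0 ≤ f x) → (∀ x, 0 ≤ g x) → (∀ x, f x ≤ 2) → (∀ x, g x ≤ 2) →
    (∀ x, ¬ x.Coprime (primorial V) → f x = 0) → (∀ x, ¬ x.Coprime (primorial V) → g x = 0) →
    model V f g n ≤ 8 := by
  obtain ⟨C, hC, hnn⟩ := nunu V hV
  refine ⟨⌈C⌉₊ + 1, fun n hn he f g hf hg hf2 hg2 hfs hgs => ?_⟩
  have hn1 : C + 1 ≤ (n : ℝ) := by
    have h1 : ((⌈C⌉₊ + 1 : ℕ) : ℝ) ≤ n := by exact_mod_cast hn
    have h2 := Nat.le_ceil C
    push_cast at h1
    linarith
  have hn0 : (0 : ℝ) < n := by linarith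
  have hn0' : 1 ≤ n := by omega
  have hs := one_le_sig V n hV
  have hkap : 0 ≤ En.kap V := by unfold En.kap; positivity
  have hW2 : 2 ∣ primorial V := Nat.prime_two.dvd_primorial_iff.mpr hV
  have hc0 : ¬ (0 : ℕ).Coprime (primorial V) := by
    intro h
    rw [Nat.coprime_zero_left] at h
    rw [h] at hW2
    omega
  have hsum : ∑ x ∈ range (n + 1), f x * g (n - x) = ∑ x ∈ Ico 1 n, f x * g (n - x) := by
    symm
    refine sum_subset ?_ ?_
    · intro x hx
      rw [mem_Ico] at hx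
      rw [mem_range]
      omega
    · intro x hx hx'
      rw [mem_range] at hx
      rw [mem_Ico] at hx'
      rcases Nat.eq_zero_or_pos x with h | h
      · rw [h, hfs 0 hc0, zero_mul]
      · have : n - x = 0 := by omega
        rw [this, hgs 0 hc0, mul_zero]
  have hle : En.kap V ^ 2 * ∑ x ∈ Ico 1 n, f x * g (n - x) ≤
      4 * ∑ x ∈ Ico 1 n, nu V x * nu V (n - x) := by
    rw [mul_sum, mul_sum]
    refine sum_le_sum fun x _ => ?_
    have h1 := kapf_le V f hf2 hfs x
    have h2 := kapf_le V g hg2 hgs (n - x)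
    have h3 : 0 ≤ En.kap V * g (n - x) := mul_nonneg hkap (hg _)
    have h4 : 0 ≤ nu V x := nu_nonneg V x
    calc En.kap V ^ 2 * (f x * g (n - x)) = (En.kap V * f x) * (En.kap V * g (n - x)) := by ring
      _ ≤ (2 * nu V x) * (2 * nu V (n - x)) := by
          apply mul_le_mul h1 h2 h3
          linarith
      _ = 4 * (nu V x * nu V (n - x)) := by ring
  have hnu := (abs_le.mp (hnn n he.two_dvd)).2
  have hns : 0 < (n : ℝ) * sig V n := by
    apply mul_pos hn0
    linarith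
  unfold model
  rw [hsum, div_mul_eq_mul_div, div_le_iff₀ hns]
  have h5 : (n : ℝ) ≤ n * sig V n := by nlinarith
  nlinarith

/-- `∑_{n ≤ N} ∑_{p ∣ n, p > V} 1 / p ≤ ∑_{p > V} N / p ^ 2 ≤ N / V` and Markov's inequality. -/
theorem large_factors (V N : ℕ) (hV : 1 ≤ V) (τ : ℝ) (hτ : 0 < τ) :
    (((Icc 1 N).filter (fun n : ℕ =>
      τ < ∑ p ∈ n.primeFactors.filter (fun p => V < p), 1 / (p : ℝ))).card : ℝ) ≤
      N / (V * τ) := by
  set F : ℕ → ℝ := fun n => ∑ p ∈ n.primeFactors.filter (fun p => V < p), 1 / (p : ℝ) with hF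
  have hF0 : ∀ n, 0 ≤ F n := by
    intro n
    refine sum_nonneg fun p hp => ?_
    positivity
  have hv0 : (0 : ℝ) < V := by exact_mod_cast (by omega : 0 < V)
  -- Markov
  have hM : (((Icc 1 N).filter (fun n => τ < F n)).card : ℝ) * τ ≤
      ∑ n ∈ Icc 1 N, F n := by
    calc (((Icc 1 N).filter (fun n => τ < F n)).card : ℝ) * τ
        = ∑ n ∈ (Icc 1 N).filter (fun n => τ < F n), τ := by
          rw [sum_const, nsmul_eq_mul]
      _ ≤ ∑ n ∈ (Icc 1 N).filter (fun n => τ < F n), F n :=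
          sum_le_sum fun n hn => (mem_filter.mp hn).2.le
      _ ≤ ∑ n ∈ Icc 1 N, F n :=
          sum_le_sum_of_subset_of_nonneg (filter_subset _ _) fun n _ _ => hF0 n
  have hS : ∑ n ∈ Icc 1 N, F n ≤ ∑ k ∈ Ioc V N, (N : ℝ) / ((k : ℝ) * ((k : ℝ) - 1)) := by
    calc ∑ n ∈ Icc 1 N, F n
        ≤ ∑ n ∈ Icc 1 N, ∑ k ∈ Ioc V N, (if k ∣ n then 1 / (k : ℝ) else 0) := by
          refine sum_le_sum fun n hn => ?_
          rw [← sum_filter]
          refine sum_le_sum_of_subset_of_nonneg ?_ ?_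
          · intro p hp
            rw [mem_filter] at hp
            rw [mem_filter, mem_Ioc]
            have hd := Nat.dvd_of_mem_primeFactors hp.1
            have hn' := mem_Icc.mp hn
            exact ⟨⟨hp.2, (Nat.le_of_dvd (by omega) hd).trans hn'.2⟩, hd⟩
          · intro k hk _
            positivity
      _ = ∑ k ∈ Ioc V N, ∑ n ∈ Icc 1 N, (if k ∣ n then 1 / (k : ℝ) else 0) := sum_comm
      _ ≤ ∑ k ∈ Ioc V N, (N : ℝ) / ((k : ℝ) * ((k : ℝ) - 1)) := by
          refine sum_le_sum fun k hk => ?_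
          rw [mem_Ioc] at hk
          have hk2 : (2 : ℝ) ≤ k := by exact_mod_cast (by omega : 2 ≤ k)
          rw [← sum_filter, sum_const, nsmul_eq_mul]
          have hc : ((Icc 1 N).filter (fun n => k ∣ n)).card = N / k := by
            have := Nat.Ioc_filter_dvd_card_eq_div N k
            rw [← this]
            congr 1
          rw [hc]
          have h1 : ((N / k : ℕ) : ℝ) ≤ (N : ℝ) / k := Nat.cast_div_le
          have h2 : (0 : ℝ) < (k : ℝ) - 1 := by linarith
          have h3 : 1 / (k : ℝ) ≤ 1 / ((k : ℝ) - 1) := one_div_le_one_div_of_le h2 (by linarith)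
          calc ((N / k : ℕ) : ℝ) * (1 / (k : ℝ)) ≤ (N : ℝ) / k * (1 / ((k : ℝ) - 1)) :=
                mul_le_mul h1 h3 (by positivity) (by positivity)
            _ = (N : ℝ) / ((k : ℝ) * ((k : ℝ) - 1)) := by
                rw [div_mul_div_comm, mul_one]
  have hT : ∀ M : ℕ, V ≤ M → ∑ k ∈ Ioc V M, 1 / ((k : ℝ) * ((k : ℝ) - 1)) = 1 / V - 1 / M := by
    intro M hM
    induction M, hM using Nat.le_induction with
    | base => simp
    | succ M hM ih =>
      rw [sum_Ioc_succ_top hM, ih]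
      have h1 : (0 : ℝ) < M := by exact_mod_cast (by omega : 0 < M)
      push_cast
      have e2 : (M : ℝ) + 1 - 1 = M := by ring
      rw [e2]
      field_simp
      ring
  have hS2 : ∑ k ∈ Ioc V N, (N : ℝ) / ((k : ℝ) * ((k : ℝ) - 1)) ≤ N / V := by
    rcases Nat.lt_or_ge N V with h | h
    · rw [Ioc_eq_empty (by omega)]
      simp only [sum_empty]
      positivity
    · have : ∑ k ∈ Ioc V N, (N : ℝ) / ((k : ℝ) * ((k : ℝ) - 1))
          = N * ∑ k ∈ Ioc V N, 1 / ((k : ℝ) * ((k : ℝ) - 1)) := by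
        rw [mul_sum]
        exact sum_congr rfl fun k _ => by rw [mul_one_div]
      rw [this, hT N h]
      have h3 : (0 : ℝ) ≤ 1 / N := by positivity
      have h4 : (0 : ℝ) ≤ N := by positivity
      calc (N : ℝ) * (1 / V - 1 / N) ≤ N * (1 / V) := mul_le_mul_of_nonneg_left (by linarith) h4
        _ = N / V := by ring
  have := hM.trans (hS.trans hS2)
  rw [← div_div, le_div_iff₀ hτ]
  exact this

end Pool.Agent.Lib.MP_629a14_nt.Kp
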