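import Pool.Agent.Lib.MP_629a14_nt.Kp.SClose
import Pool.Agent.Lib.MP_629a14_nt.Kp.SMod

/-! The number of exceptions. -/

set_option autoImplicit false

namespace Pool.Agent.Lib.MP_629a14_nt.Kp

open Finset Pool.Agent.Lib.MP_629a14_nt Pool.Agent.Lib.MP_629a14_nt.Rob

theorem exc_one {V N n₀ : ℕ} {A B : Set ℕ} {F G cD W r' : ℕ → ℝ} {ε ρ d L κ τ θ S1 S2 : ℝ}
    (hε : 0 < ε) (hρ : ρ = ε / 40) (hε1 : ε ≤ 1) (hd : 0 < d) (hτ : 0 < τ)
    (hκ : κ = d * En.kap V) (hV : 2 ≤ V) (hN : 2 ≤ N)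
    (hsig : ∀ n : ℕ, 1 ≤ n → ∑ p ∈ n.primeFactors.filter (fun p => V < p), 1 / (p : ℝ) ≤ τ →
      |sig V n - En.sing n| ≤ ρ * En.sing n)
    (hVτ : 8 / (τ * ε) ≤ V) (hn₀ : (n₀ : ℝ) ≤ ε / 8 * N)
    (hm : ∀ n : ℕ, n₀ ≤ n → Even n →
      model V (fun x => F x / κ) (fun x => G x / κ) n ≤ 8)
    (hF0 : F 0 = 0) (hG0 : G 0 = 0) (hW : ∀ n, 0 ≤ W n)
    (hLn : ∀ n : ℕ, 1 ≤ n → n ≤ N → Real.log n ≤ L)
    (hL2 : ∀ n : ℕ, ε / 8 * N ≤ n → (1 - ρ) * L ^ 2 ≤ Real.log n ^ 2)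
    (hr0 : ∀ n, 1 ≤ n → n ≤ N → 0 ≤ r' n)
    (hr : ∀ n, 1 ≤ n → n ≤ N → r' n ≤ (Sm.repsIn A B n : ℝ))
    (hrr : ∀ n, 1 ≤ n → n ≤ N → ((Sm.repsIn A B n : ℝ) - r' n) * L ^ 2 ≤
      (ε / 8) ^ 2 * (2 * En.tw) * N)
    (hid : ∀ n, 1 ≤ n → n ≤ N →
      cD n + (∑ x ∈ Ico 1 n, F x * G (n - x) + W n) = (d * L) ^ 2 * r' n)
    (hθ : θ = (ε / 8) ^ 2 * d ^ 2 * En.tw)
    (hS2 : ∑ n ∈ Icc 1 N, cD n ^ 2 ≤ S2) (hS1 : ∑ n ∈ Icc 1 N, W n ≤ S1)
    (hS2' : S2 / (θ * N) ^ 2 ≤ ε / 8 * N) (hS1' : S1 / (θ * N) ≤ ε / 8 * N) :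
    (((Icc 1 N).filter (fun n => Even n ∧
      ε < |rho A B n - model V (fun x => F x / κ) (fun x => G x / κ) n|)).card : ℝ) ≤ ε * N := by
  classical
  have htw := En.tw_pos
  have hN0 : (0 : ℝ) < N := by exact_mod_cast (by omega : 0 < N)
  have hρ1 : ρ ≤ 1 / 40 := by rw [hρ]; linarith
  have hρ0 : 0 < ρ := by rw [hρ]; positivity
  have hθ0 : 0 < θ := by rw [hθ]; positivity
  set B1 := (Icc 1 N).filter (fun n : ℕ => (n : ℝ) < ε / 8 * N) with hB1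
  set B2 := (Icc 1 N).filter (fun n : ℕ =>
      τ < ∑ p ∈ n.primeFactors.filter (fun p => V < p), 1 / (p : ℝ)) with hB2
  set B3 := (Icc 1 N).filter (fun n : ℕ => θ * N < |cD n|) with hB3
  set B4 := (Icc 1 N).filter (fun n : ℕ => θ * N < W n) with hB4
  have c1 : (B1.card : ℝ) ≤ ε / 8 * N := count_small (by positivity)
  have c2 : (B2.card : ℝ) ≤ ε / 8 * N := by
    refine (large_factors V N (by omega) τ hτ).trans ?_
    have hV0 : (0 : ℝ) < V := by exact_mod_cast (by omega : 0 < V)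
    rw [div_le_iff₀ (by positivity)]
    rw [div_le_iff₀ (by positivity)] at hVτ
    have h1 : 1 ≤ ε / 8 * (V * τ) := by linarith
    calc (N : ℝ) = 1 * N := (one_mul _).symm
      _ ≤ (ε / 8 * (V * τ)) * N := mul_le_mul_of_nonneg_right h1 hN0.le
      _ = _ := by ring
  have c3 : (B3.card : ℝ) ≤ ε / 8 * N := (count_sq cD (by positivity) hS2).trans hS2'
  have c4 : (B4.card : ℝ) ≤ ε / 8 * N := (count_one W hW (by positivity) hS1).trans hS1'
  have hsub : (Icc 1 N).filter (fun n => Even n ∧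
      ε < |rho A B n - model V (fun x => F x / κ) (fun x => G x / κ) n|) ⊆
      (B1 ∪ B2) ∪ (B3 ∪ B4) := by
    intro n hn
    rw [mem_filter, mem_Icc] at hn
    obtain ⟨⟨hn1, hnN⟩, hev, hbig⟩ := hn
    by_contra hcon
    rw [mem_union, mem_union, mem_union] at hcon
    push Not at hcon
    obtain ⟨⟨b1, b2⟩, b3, b4⟩ := hcon
    have hmem : n ∈ Icc 1 N := mem_Icc.2 ⟨hn1, hnN⟩
    have g1 : ε / 8 * N ≤ n := by
      by_contra h
      exact b1 (mem_filter.2 ⟨hmem, not_le.1 h⟩)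
    have g2 : ∑ p ∈ n.primeFactors.filter (fun p => V < p), 1 / (p : ℝ) ≤ τ := by
      by_contra h
      exact b2 (mem_filter.2 ⟨hmem, not_le.1 h⟩)
    have g3 : |cD n| ≤ θ * N := by
      by_contra h
      exact b3 (mem_filter.2 ⟨hmem, not_le.1 h⟩)
    have g4 : W n ≤ θ * N := by
      by_contra h
      exact b4 (mem_filter.2 ⟨hmem, not_le.1 h⟩)
    have hs := hsig n hn1 g2
    have hsing : 2 * En.tw ≤ En.sing n := En.sing_ge n
    have hs' := abs_le.1 hs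
    have hsig1 : En.tw ≤ sig V n := by nlinarith
    have hn0 : (0 : ℝ) < n := by exact_mod_cast hn1
    have hlow : θ * N ≤ ε / 8 * (d ^ 2 * (n * sig V n)) := by
      rw [hθ]
      calc (ε / 8) ^ 2 * d ^ 2 * En.tw * N = ε / 8 * (d ^ 2 * ((ε / 8 * N) * En.tw)) := by ring
        _ ≤ ε / 8 * (d ^ 2 * (n * sig V n)) := by
          refine mul_le_mul_of_nonneg_left ?_ (by positivity)
          refine mul_le_mul_of_nonneg_left ?_ (by positivity)
          exact mul_le_mul g1 hsig1 htw.le hn0.le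
    have hn2 : 2 ≤ n := by
      rcases hev with ⟨k, hk⟩
      omega
    have hn0' : n₀ ≤ n := by
      have : (n₀ : ℝ) ≤ n := hn₀.trans g1
      exact_mod_cast this
    refine absurd (close_n (V := V) (n := n) (A := A) (B := B) (F := F) (G := G) (ε := ε)
      (ρ := ρ) (d := d) (L := L) (cD := cD n) (W := W n) (r' := r' n) (κ := κ) hε hρ hε1 hn2 hs
      (hLn n hn1 hnN) (hL2 n g1) (hr0 n hn1 hnN) (hr n hn1 hnN) ?_ hd hκ hG0 hF0
      (hid n hn1 hnN) (g3.trans hlow) ?_ (hm n hn0' hev)) (not_le.2 hbig)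
    · refine (hrr n hn1 hnN).trans ?_
      calc (ε / 8) ^ 2 * (2 * En.tw) * N = ε / 8 * ((ε / 8 * N) * (2 * En.tw)) := by ring
        _ ≤ ε / 8 * (n * En.sing n) := by
          refine mul_le_mul_of_nonneg_left ?_ (by positivity)
          exact mul_le_mul g1 hsing (by positivity) hn0.le
    · rw [abs_of_nonneg (hW n)]
      exact g4.trans hlow
  have hcard := card_le_card hsub
  have u1 := card_union_le (B1 ∪ B2) (B3 ∪ B4)
  have u2 := card_union_le B1 B2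
  have u3 := card_union_le B3 B4
  have h5 : (((Icc 1 N).filter (fun n => Even n ∧
      ε < |rho A B n - model V (fun x => F x / κ) (fun x => G x / κ) n|)).card : ℝ) ≤
      ((B1.card : ℝ) + B2.card) + (B3.card + B4.card) := by
    exact_mod_cast hcard.trans (u1.trans (Nat.add_le_add u2 u3))
  have : 0 ≤ ε * N := by positivity
  linarith

end Pool.Agent.Lib.MP_629a14_nt.Kp
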