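import Pool.Agent.Lib.MP_629a14_nt.Kp.SDefs

/-! The smoothed function as a sum over the integers. -/

set_option autoImplicit false

namespace Pool.Agent.Lib.MP_629a14_nt.Kp

open Finset Pool.Agent.Lib.MP_629a14_nt Pool.Agent.Lib.MP_629a14_nt.Ml

/-- `push v w M x` depends only on `x` modulo `primorial v` (`fib`). -/
theorem push_congr (v w M : ℕ) {x y : ℕ} (h : x ≡ y [MOD primorial v]) (u : ℕ → ℝ) :
    push v w M x u = push v w M y u := by
  have h1 : fib v w M x = fib v w M y := by
    unfold fib
    refine filter_congr fun z _ => ?_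
    exact ⟨fun hz => hz.trans h, fun hz => hz.trans h.symm⟩
  funext g
  unfold push
  rw [h1]

/-- `uA` vanishes at `0` and at `X` when `N < X`. -/
theorem uA_zero (v X N : ℕ) (A : Set ℕ) : uA v X N A 0 = 0 := by
  unfold uA
  rw [if_neg]
  exact fun h => Nat.not_prime_zero h.1

private theorem SInt_dvd (v w M : ℕ) (i : Ix v w) : mo v w M i ∣ XX w M := by
  cases i with
  | none => exact dvd_mul_left _ _
  | some p =>
    obtain ⟨p, hp⟩ := p
    change p ∣ primorial w * M
    apply Dvd.dvd.mul_right
    unfold PR at hp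
    rw [mem_filter, mem_Ioc] at hp
    unfold primorial
    apply dvd_prod_of_mem
    rw [mem_filter, mem_range]
    exact ⟨by omega, hp.2⟩

private theorem SInt_red (v w M : ℕ) {a b : ℕ} (h : a ≡ b [MOD XX w M]) :
    red v w M a = red v w M b := by
  funext i
  unfold red
  rw [ZMod.natCast_eq_natCast_iff]
  exact h.of_dvd (SInt_dvd v w M i)

/-- `x + t` is congruent to an element of `fib v w M x` modulo `XX w M`, namely `(x + t) % XX w M`, or
`XX w M` if this is `0` (where `uA` vanishes, as `N < XX w M`); use `push_red`. -/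
theorem push_shift (v w M N : ℕ) [NeZero M] (hvw : v ≤ w) (hM : M.Coprime (primorial w))
    (hN : N < XX w M) (A : Set ℕ) (x t : ℕ) (ht : primorial v ∣ t) :
    push v w M x (uA v (XX w M) N A) (red v w M x + red v w M t) =
      uA v (XX w M) N A ((x + t) % XX w M) := by
  classical
  set X := XX w M with hX
  have hX0 : 0 < X := by omega
  have hPX : primorial v ∣ X := by
    rw [hX]
    unfold XX
    rw [primorial_split v w hvw, mul_assoc]
    exact dvd_mul_right _ _
  have hadd : red v w M x + red v w M t = red v w M (x + t) := by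
    funext i
    rw [Pi.add_apply]
    unfold red
    rw [Nat.cast_add]
  have key : ∀ z : ℕ, 1 ≤ z → z ≤ X → z ≡ x + t [MOD X] →
      push v w M x (uA v X N A) (red v w M x + red v w M t) = uA v X N A z := by
    intro z hz1 hz2 hz3
    rw [hadd, ← SInt_red v w M (a := z) (b := x + t) hz3]
    refine push_red v w M x hvw hM _ ?_
    unfold fib
    rw [mem_filter, mem_Icc]
    refine ⟨⟨hz1, hz2⟩, ?_⟩
    have h1 : z ≡ x + t [MOD primorial v] := hz3.of_dvd hPX
    have h2 : x + t ≡ x + 0 [MOD primorial v] :=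
      Nat.ModEq.add_left x ((Nat.modEq_zero_iff_dvd).2 ht)
    rw [add_zero] at h2
    exact h1.trans h2
  by_cases h0 : (x + t) % X = 0
  · rw [h0, uA_zero, key X (by omega) le_rfl]
    · unfold uA
      rw [if_neg]
      rintro ⟨-, -, h, -⟩
      omega
    · exact ((Nat.modEq_zero_iff_dvd).2 (dvd_refl X)).trans
        ((Nat.modEq_zero_iff_dvd).2 (Nat.dvd_of_mod_eq_zero h0)).symm
  · exact key _ (by omega) (Nat.mod_lt _ hX0).le (Nat.mod_modEq _ _)

/-- `av`, `sum_fib` with `r = 0` and `push_shift`. -/
theorem Ft_int (v w M V N : ℕ) [NeZero M] (hvw : v ≤ w) (hM : M.Coprime (primorial w))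
    (hN : N < XX w M) {J : ℕ} (a : Fin J → Gp (mo v w M)) (lam : ℝ) (A : Set ℕ) (x : ℕ) :
    Ft v w M V N a lam A x = ∑ t ∈ fib v w M 0,
      ka a lam (svE v w V) (red v w M t) * uA v (XX w M) N A ((x + t) % XX w M) := by
  have h := sum_fib v w M 0 hvw hM (fun g => ((ka a lam (svE v w V) g *
    push v w M x (uA v (XX w M) N A) (red v w M x + g) : ℝ) : ℂ))
  rw [← Complex.ofReal_sum, ← Complex.ofReal_sum] at h
  have h' := Complex.ofReal_injective h
  unfold Ft av
  rw [← h']
  refine sum_congr rfl fun t ht => ?_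
  unfold fib at ht
  rw [mem_filter] at ht
  rw [push_shift v w M N hvw hM hN A x t ((Nat.modEq_zero_iff_dvd).1 ht.2)]

/-- The kernel is supported on the multiples of `primorial V`. -/
theorem ka_dvd (v w M V : ℕ) [NeZero M] (hvV : v ≤ V) (hVw : V ≤ w)
    {J : ℕ} (a : Fin J → Gp (mo v w M)) (lam : ℝ) (t : ℕ)
    (ht : primorial v ∣ t) (h : ka a lam (svE v w V) (red v w M t) ≠ 0) : primorial V ∣ t := by
  classical
  have h1 : red v w M t ∈ (HS (svE v w V) : Finset (Gp (mo v w M))) := by
    by_contra hn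
    apply h
    unfold ka
    rw [if_neg hn]
  unfold HS at h1
  rw [mem_filter] at h1
  unfold primorial
  apply Finset.prod_primes_dvd
  · intro p hp
    rw [mem_filter] at hp
    exact hp.2.prime
  · intro p hp
    rw [mem_filter, mem_range] at hp
    by_cases hpv : p < v + 1
    · refine dvd_trans ?_ ht
      unfold primorial
      exact dvd_prod_of_mem _ (by rw [mem_filter, mem_range]; exact ⟨hpv, hp.2⟩)
    · have hmem : p ∈ PR v w := by
        unfold PR
        rw [mem_filter, mem_Ioc]
        exact ⟨⟨by omega, by omega⟩, hp.2⟩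
      have h2 : (some ⟨p, hmem⟩ : Ix v w) ∈ svE v w V := by
        unfold svE
        rw [mem_filter]
        exact ⟨mem_univ _, ⟨p, hmem⟩, rfl, by change p ≤ V; omega⟩
      have h3 := h1.2 _ h2
      have h4 : ((t : ℕ) : ZMod p) = 0 := h3
      exact (ZMod.natCast_eq_zero_iff _ _).1 h4

end Pool.Agent.Lib.MP_629a14_nt.Kp
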