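import Pool.Agent.Lib.MP_629a14_nt.Ml.LTwo

/-! Smoothing two families of functions changes their convolutions by little in mean square. -/

set_option autoImplicit false

namespace Pool.Agent.Lib.MP_629a14_nt.Kp

open Finset Pool.Agent.Lib.MP_629a14_nt.Ml

variable {ι : Type} [Fintype ι] [DecidableEq ι] {n : ι → ℕ} [∀ i, NeZero (n i)]

private theorem SL_orth_fun (F : Gp n → ℂ) (t : Gp n) :
    ∑ b, ∑ y, F y * psi (b * (y - t)) = (Fintype.card (Gp n) : ℂ) * F t := by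
  have four_orth : ∀ c : Gp n,
      ∑ b : Gp n, psi (b * c) = if c = 0 then (Fintype.card (Gp n) : ℂ) else 0 := by
    intro c
    rw [← sum_psi_univ c]
    exact sum_congr rfl fun b _ => by rw [mul_comm]
  rw [sum_comm]
  have h1 : ∀ y : Gp n, ∑ b, F y * psi (b * (y - t)) =
      if y = t then (Fintype.card (Gp n) : ℂ) * F t else 0 := by
    intro y
    rw [← mul_sum, four_orth]
    by_cases hy : y = t
    · subst hy
      simp [mul_comm]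
    · rw [if_neg hy, if_neg (sub_ne_zero.2 hy), mul_zero]
  rw [sum_congr rfl fun y _ => h1 y]
  simp

private theorem SL_pars (F : Gp n → ℂ) :
    ∑ b, ‖∑ x, F x * psi (b * x)‖ ^ 2 = (Fintype.card (Gp n) : ℝ) * ∑ x, ‖F x‖ ^ 2 := by
  have h1 : ∀ b : Gp n, (((‖∑ x, F x * psi (b * x)‖ ^ 2 : ℝ)) : ℂ) =
      ∑ x, (starRingEnd ℂ) (F x) * ∑ y, F y * psi (b * (y - x)) := by
    intro b
    rw [Complex.ofReal_pow, ← Complex.conj_mul', map_sum, sum_mul]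
    refine sum_congr rfl fun x _ => ?_
    rw [map_mul, mul_assoc, ← psi_neg, mul_sum, mul_sum, mul_sum]
    refine sum_congr rfl fun y _ => ?_
    have : b * (y - x) = -(b * x) + b * y := by ring
    rw [this, psi_add]
    ring
  have h2 : ((∑ b : Gp n, ‖∑ x, F x * psi (b * x)‖ ^ 2 : ℝ) : ℂ) =
      (((Fintype.card (Gp n) : ℝ) * ∑ x, ‖F x‖ ^ 2 : ℝ) : ℂ) := by
    rw [Complex.ofReal_sum, sum_congr rfl fun b _ => h1 b, sum_comm]
    push_cast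
    rw [mul_sum]
    refine sum_congr rfl fun x _ => ?_
    rw [← mul_sum, SL_orth_fun, ← Complex.conj_mul']
    ring
  exact_mod_cast h2

private theorem SL_parseval (hodd : ∀ i, Odd (n i)) {k : ℕ} (f f' g g' : Fin k → Gp n → ℝ) :
    (∑ m, (∑ i, (cvm (f i) (f' i) m - cvm (g i) (g' i) m)) ^ 2) / (Fintype.card (Gp n) : ℝ) =
      ∑ b, ‖∑ i, (ft (f i) b * ft (f' i) b - ft (g i) b * ft (g' i) b)‖ ^ 2 := by
  have hN : (Fintype.card (Gp n) : ℝ) ≠ 0 := by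
    have : 0 < Fintype.card (Gp n) := Fintype.card_pos_iff.2 ⟨0⟩
    exact_mod_cast this.ne'
  set F : Gp n → ℂ := fun b => ∑ i, (ft (f i) b * ft (f' i) b - ft (g i) b * ft (g' i) b) with hF
  have h1 : ∀ m : Gp n, ((∑ i, (cvm (f i) (f' i) m - cvm (g i) (g' i) m) : ℝ) : ℂ) =
      ∑ b, F b * psi (-(m + m) * b) := by
    intro m
    push_cast
    simp only [cvm_ft]
    simp only [← sum_sub_distrib]
    rw [sum_comm]
    refine sum_congr rfl fun b _ => ?_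
    rw [hF]
    simp only
    rw [sum_mul]
    refine sum_congr rfl fun i _ => ?_
    rw [show -(m + m) * b = -(b * (m + m)) by ring]
    ring
  have h2 : ∀ m : Gp n, (∑ i, (cvm (f i) (f' i) m - cvm (g i) (g' i) m)) ^ 2 =
      ‖∑ b, F b * psi (-(m + m) * b)‖ ^ 2 := by
    intro m
    rw [← h1, Complex.norm_real, Real.norm_eq_abs, sq_abs]
  have hbij : Function.Bijective (fun m : Gp n => -(m + m)) := by
    have hinj : Function.Injective (fun m : Gp n => -(m + m)) := by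
      intro s t hst
      have h3 : s + s = t + t := neg_injective hst
      have h4 := half_add_half hodd s
      have h5 := half_add_half hodd t
      rw [← h4, ← h5, ← mul_add, ← mul_add, h3]
    exact Finite.injective_iff_bijective.1 hinj
  have h3 : ∑ m : Gp n, ‖∑ b, F b * psi (-(m + m) * b)‖ ^ 2 =
      ∑ t : Gp n, ‖∑ b, F b * psi (t * b)‖ ^ 2 :=
    Fintype.sum_bijective _ hbij _ _ fun m => rfl
  rw [sum_congr rfl fun m _ => h2 m, h3, SL_pars, mul_div_assoc, mul_comm, div_mul_cancel₀ _ hN]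

private theorem SL_log {J : ℕ} (a : Fin J → Gp n) (lam : ℝ) (hlam : 1 ≤ lam) (E : Finset ι) :
    Real.log (1 / ZZ a lam E) ≤ J * (20 + Real.sqrt lam) := by
  have h1 := ZZ_lower a lam hlam E
  have h2 := ZZ_pos a lam E
  have hs : 1 ≤ Real.sqrt lam := by
    rw [Real.one_le_sqrt]
    exact hlam
  have hM : (0 : ℝ) < (⌈Real.sqrt lam⌉₊ : ℝ) := by
    have := Nat.le_ceil (Real.sqrt lam)
    linarith
  have hM2 : Real.log (⌈Real.sqrt lam⌉₊ : ℝ) ≤ Real.sqrt lam := by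
    have e1 := (Nat.ceil_lt_add_one (by linarith : 0 ≤ Real.sqrt lam)).le
    have e2 := Real.log_le_sub_one_of_pos hM
    linarith
  have h3 : 0 < (1 / (⌈Real.sqrt lam⌉₊ : ℝ)) ^ J * Real.exp (-(20 * (J : ℝ))) := by positivity
  have h4 := Real.log_le_log h3 h1
  rw [Real.log_mul (by positivity) (by positivity), Real.log_pow, Real.log_exp, one_div,
    Real.log_inv] at h4
  rw [one_div, Real.log_inv]
  have h5 : (J : ℝ) * Real.log (⌈Real.sqrt lam⌉₊ : ℝ) ≤ J * Real.sqrt lam :=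
    mul_le_mul_of_nonneg_left hM2 (by positivity)
  linarith

/-- The estimate for one function. -/
private theorem SL_one (K : ℝ) (hK : 1 ≤ K) (A : Gp n → ℝ)
    (hyp : ∀ R : Finset (Gp n), ∑ b ∈ R, ‖ft A b‖ ^ 2 ≤ K ^ 2 * (R.card : ℝ) ^ (1 / 3 : ℝ))
    (j0 : ℕ) (δ : ℝ) (Ξ : Finset (Gp n)) (hΞ : ∀ b, (1 / 2) ^ j0 ≤ ‖ft A b‖ → b ∈ Ξ)
    (w : Gp n → ℝ) (hw : ∀ b, 0 ≤ w b) (hfar : ∀ b, w b ≤ 2) (hnear : ∀ b ∈ Ξ, w b ≤ 2 * δ) :
    ∑ b, ‖ft A b‖ ^ 4 * w b ^ 2 ≤ 64 * K ^ 3 * (1 / 2) ^ j0 + 68 * K ^ 7 * δ ^ 2 := by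
  classical
  rw [← sum_filter_add_sum_filter_not univ (fun b => b ∈ Ξ)]
  have hT0 : ∀ b, 0 ≤ ‖ft A b‖ := fun b => norm_nonneg _
  have g1 : ∑ b ∈ univ.filter (fun b => b ∈ Ξ), ‖ft A b‖ ^ 4 * w b ^ 2 ≤ 68 * K ^ 7 * δ ^ 2 := by
    have h1 : ∀ b ∈ univ.filter (fun b => b ∈ Ξ), ‖ft A b‖ ^ 4 * w b ^ 2 ≤
        ‖ft A b‖ ^ 4 * (4 * δ ^ 2) := by
      intro b hb
      have hb' := (mem_filter.1 hb).2
      have h3 := pow_le_pow_left₀ (hw b) (hnear b hb') 2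
      have h4 : (2 * δ) ^ 2 = 4 * δ ^ 2 := by ring
      rw [h4] at h3
      exact mul_le_mul_of_nonneg_left h3 (by have := hT0 b; positivity)
    refine (sum_le_sum h1).trans ?_
    rw [← sum_mul]
    have h5 := fourth_total (univ : Finset (Gp n)) (fun b => ‖ft A b‖) hK (fun b _ => hT0 b)
      (fun R _ => hyp R)
    have h6 : ∑ b ∈ univ.filter (fun b => b ∈ Ξ), ‖ft A b‖ ^ 4 ≤ 17 * K ^ 7 := by
      refine le_trans ?_ h5
      apply sum_le_sum_of_subset_of_nonneg (filter_subset _ _)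
      intro b _ _
      have := hT0 b
      positivity
    calc (∑ b ∈ univ.filter (fun b => b ∈ Ξ), ‖ft A b‖ ^ 4) * (4 * δ ^ 2)
        ≤ (17 * K ^ 7) * (4 * δ ^ 2) := mul_le_mul_of_nonneg_right h6 (by positivity)
      _ = _ := by ring
  have g2 : ∑ b ∈ univ.filter (fun b => ¬ b ∈ Ξ), ‖ft A b‖ ^ 4 * w b ^ 2 ≤
      64 * K ^ 3 * (1 / 2) ^ j0 := by
    have h1 : ∀ b ∈ univ.filter (fun b => ¬ b ∈ Ξ), ‖ft A b‖ ^ 4 * w b ^ 2 ≤
        ‖ft A b‖ ^ 4 * 4 := by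
      intro b _
      have h3 := pow_le_pow_left₀ (hw b) (hfar b) 2
      have h4 : (2 : ℝ) ^ 2 = 4 := by norm_num
      rw [h4] at h3
      exact mul_le_mul_of_nonneg_left h3 (by have := hT0 b; positivity)
    refine (sum_le_sum h1).trans ?_
    rw [← sum_mul]
    have h5 := fourth_tail (univ : Finset (Gp n)) (fun b => ‖ft A b‖) hK (fun b _ => hT0 b)
      (fun R _ => hyp R) j0
    have h6 : ∑ b ∈ univ.filter (fun b => ¬ b ∈ Ξ), ‖ft A b‖ ^ 4 ≤ 16 * K ^ 3 * (1 / 2) ^ j0 := by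
      refine le_trans ?_ h5
      apply sum_le_sum_of_subset_of_nonneg
      · intro b hb
        have hb' := (mem_filter.1 hb).2
        rw [mem_filter]
        refine ⟨mem_univ _, ?_⟩
        by_contra h
        exact hb' (hΞ b (not_le.1 h).le)
      · intro b _ _
        have := hT0 b
        positivity
    linarith
  linarith

/-- The size of one spectrum. -/
private theorem SL_spec (K : ℝ) (hK : 1 ≤ K) (A : Gp n → ℝ)
    (hyp : ∀ R : Finset (Gp n), ∑ b ∈ R, ‖ft A b‖ ^ 2 ≤ K ^ 2 * (R.card : ℝ) ^ (1 / 3 : ℝ))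
    (j0 : ℕ) :
    (univ.filter (fun b => ((1 : ℝ) / 2) ^ j0 ≤ ‖ft A b‖)).card ≤ ⌈(K * 2 ^ j0) ^ 3⌉₊ := by
  have h3 := level_count (univ : Finset (Gp n)) (fun b => ‖ft A b‖) hK (fun R _ => hyp R)
    (show (0 : ℝ) < (1 / 2) ^ j0 by positivity)
  have h4 : (K / ((1 : ℝ) / 2) ^ j0) ^ 3 = (K * 2 ^ j0) ^ 3 := by
    rw [one_div, inv_pow, div_inv_eq_mul]
  rw [h4] at h3
  have h5 := h3.trans (Nat.le_ceil _)
  exact_mod_cast h5

private theorem SL_core (hodd : ∀ i, Odd (n i)) (k : ℕ) (K : ℝ) (hK : 1 ≤ K)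
    (A B : Fin k → Gp n → ℝ)
    (hA : ∀ i, ∀ R : Finset (Gp n), ∑ b ∈ R, ‖ft (A i) b‖ ^ 2 ≤
        K ^ 2 * (R.card : ℝ) ^ (1 / 3 : ℝ))
    (hB : ∀ i, ∀ R : Finset (Gp n), ∑ b ∈ R, ‖ft (B i) b‖ ^ 2 ≤
        K ^ 2 * (R.card : ℝ) ^ (1 / 3 : ℝ)) (b1 : Gp n) (j0 J : ℕ) (lam δ : ℝ) (hlam : 1 ≤ lam)
    (hJ : J = 2 * k * ⌈(K * 2 ^ j0) ^ 3⌉₊ + 1) (hδ : J * (20 + Real.sqrt lam) / lam ≤ δ) :
    ∃ a : Fin J → Gp n, (∃ j, a j = b1) ∧ ∀ E : Finset ι,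
      Real.log (1 / ZZ a lam E) / lam ≤ δ ∧ ∀ σ : Fin k → Fin k,
        (∑ m, (∑ i, (cvm (A i) (B (σ i)) m -
          cvm (av (ka a lam E) (A i)) (av (ka a lam E) (B (σ i))) m)) ^ 2) /
            (Fintype.card (Gp n) : ℝ) ≤
        64 * k ^ 2 * K ^ 3 * (1 / 2) ^ j0 + 68 * k ^ 2 * K ^ 7 * δ ^ 2 := by
  classical
  set SA : Fin k → Finset (Gp n) := fun i => univ.filter (fun b => ((1 : ℝ) / 2) ^ j0 ≤ ‖ft (A i) b‖)
    with hSA
  set SB : Fin k → Finset (Gp n) := fun i => univ.filter (fun b => ((1 : ℝ) / 2) ^ j0 ≤ ‖ft (B i) b‖)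
    with hSB
  set Ξ : Finset (Gp n) := (univ.biUnion SA ∪ univ.biUnion SB) ∪ {b1} with hΞ
  have hcard : ∀ S : Fin k → Finset (Gp n), (∀ i, (S i).card ≤ ⌈(K * 2 ^ j0) ^ 3⌉₊) →
      (univ.biUnion S).card ≤ k * ⌈(K * 2 ^ j0) ^ 3⌉₊ := by
    intro S hS
    have h1 : (univ.biUnion S).card ≤ ∑ i : Fin k, (S i).card := card_biUnion_le
    have h3 := sum_le_card_nsmul (univ : Finset (Fin k)) (fun i => (S i).card) _ fun i _ => hS i
    rw [card_univ, Fintype.card_fin, smul_eq_mul] at h3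
    exact h1.trans h3
  have hΞc : Ξ.card ≤ J := by
    have h1 : Ξ.card ≤ (univ.biUnion SA ∪ univ.biUnion SB).card + ({b1} : Finset (Gp n)).card :=
      card_union_le _ _
    have h2 := card_union_le (univ.biUnion SA) (univ.biUnion SB)
    have h3 := hcard SA fun i => SL_spec K hK (A i) (hA i) j0
    have h4 := hcard SB fun i => SL_spec K hK (B i) (hB i) j0
    rw [card_singleton] at h1
    have h5 : 2 * k * ⌈(K * 2 ^ j0) ^ 3⌉₊ =
      k * ⌈(K * 2 ^ j0) ^ 3⌉₊ + k * ⌈(K * 2 ^ j0) ^ 3⌉₊ := by ring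
    omega
  obtain ⟨a, ha⟩ : ∃ a : Fin J → Gp n, ∀ b ∈ Ξ, ∃ j, a j = b := by
    refine ⟨fun j => if h : (j : ℕ) < Ξ.card then (Ξ.equivFin.symm ⟨j, h⟩ : Gp n) else 0, ?_⟩
    intro b hb
    refine ⟨⟨(Ξ.equivFin ⟨b, hb⟩ : ℕ), lt_of_lt_of_le (Ξ.equivFin ⟨b, hb⟩).2 hΞc⟩, ?_⟩
    simp
  have hXA : ∀ i b, ((1 : ℝ) / 2) ^ j0 ≤ ‖ft (A i) b‖ → b ∈ Ξ := by
    intro i b hb
    rw [hΞ]
    refine mem_union_left _ (mem_union_left _ (mem_biUnion.2 ⟨i, mem_univ _, ?_⟩))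
    exact mem_filter.2 ⟨mem_univ _, hb⟩
  have hXB : ∀ i b, ((1 : ℝ) / 2) ^ j0 ≤ ‖ft (B i) b‖ → b ∈ Ξ := by
    intro i b hb
    rw [hΞ]
    refine mem_union_left _ (mem_union_right _ (mem_biUnion.2 ⟨i, mem_univ _, ?_⟩))
    exact mem_filter.2 ⟨mem_univ _, hb⟩
  refine ⟨a, ha b1 (mem_union_right _ (mem_singleton_self _)), fun E => ?_⟩
  have hlog := SL_log a lam hlam E
  have hlog2 : Real.log (1 / ZZ a lam E) / lam ≤ δ :=
    (div_le_div_of_nonneg_right hlog (by linarith)).trans hδ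
  refine ⟨hlog2, fun σ => ?_⟩
  set κh : Gp n → ℂ := fun b => ∑ s, (ka a lam E s : ℂ) * psi (-(b * s)) with hκh
  have hκ1 : ∀ b, ‖κh b‖ ≤ 1 := by
    intro b
    have := ka_hat_le a lam E (-b)
    simp only [hκh]
    simpa only [neg_mul] using this
  have hfac : ∀ b, ‖1 - κh b ^ 2‖ ≤ 2 * ‖1 - κh b‖ := by
    intro b
    have e : 1 - κh b ^ 2 = (1 + κh b) * (1 - κh b) := by ring
    rw [e, norm_mul]
    have h1 : ‖1 + κh b‖ ≤ 2 := by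
      refine (norm_add_le _ _).trans ?_
      rw [norm_one]
      linarith [hκ1 b]
    exact mul_le_mul_of_nonneg_right h1 (norm_nonneg _)
  have hfar : ∀ b, ‖1 - κh b ^ 2‖ ≤ 2 := by
    intro b
    refine (norm_sub_le _ _).trans ?_
    rw [norm_one, norm_pow]
    have := pow_le_one₀ (n := 2) (norm_nonneg _) (hκ1 b)
    linarith
  have hnear : ∀ b ∈ Ξ, ‖1 - κh b ^ 2‖ ≤ 2 * δ := by
    intro b hb
    obtain ⟨j, hj⟩ := ha b hb
    have h1 := ka_hat_near a lam (by linarith) E j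
    rw [hj] at h1
    exact (hfac b).trans (mul_le_mul_of_nonneg_left (h1.trans hlog2) (by norm_num))
  rw [SL_parseval hodd (fun i => A i) (fun i => B (σ i)) (fun i => av (ka a lam E) (A i))
    (fun i => av (ka a lam E) (B (σ i)))]
  have hin : ∀ b ∈ (univ : Finset (Gp n)),
      ‖∑ i, (ft (A i) b * ft (B (σ i)) b -
        ft (av (ka a lam E) (A i)) b * ft (av (ka a lam E) (B (σ i))) b)‖ ^ 2 ≤
      k * ∑ i, ((‖ft (A i) b‖ ^ 4 * ‖1 - κh b ^ 2‖ ^ 2 +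
        ‖ft (B (σ i)) b‖ ^ 4 * ‖1 - κh b ^ 2‖ ^ 2) / 2) := by
    intro b _
    have e1 : ∑ i, (ft (A i) b * ft (B (σ i)) b -
        ft (av (ka a lam E) (A i)) b * ft (av (ka a lam E) (B (σ i))) b) =
        ∑ i, ft (A i) b * ft (B (σ i)) b * (1 - κh b ^ 2) := by
      refine sum_congr rfl fun i _ => ?_
      rw [ft_av, ft_av]
      simp only [hκh]
      ring
    rw [e1]
    have h1 : ‖∑ i, ft (A i) b * ft (B (σ i)) b * (1 - κh b ^ 2)‖ ≤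
        ∑ i, ‖ft (A i) b‖ * ‖ft (B (σ i)) b‖ * ‖1 - κh b ^ 2‖ := by
      refine (norm_sum_le _ _).trans (le_of_eq ?_)
      refine sum_congr rfl fun i _ => ?_
      rw [norm_mul, norm_mul]
    have h2 := pow_le_pow_left₀ (norm_nonneg _) h1 2
    refine h2.trans ?_
    have h3 := sq_sum_le_card_mul_sum_sq (s := (univ : Finset (Fin k)))
      (f := fun i => ‖ft (A i) b‖ * ‖ft (B (σ i)) b‖ * ‖1 - κh b ^ 2‖)
    rw [card_univ, Fintype.card_fin] at h3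
    refine h3.trans (mul_le_mul_of_nonneg_left (sum_le_sum fun i _ => ?_) (by positivity))
    have h4 : ‖ft (A i) b‖ ^ 2 * ‖ft (B (σ i)) b‖ ^ 2 ≤
        (‖ft (A i) b‖ ^ 4 + ‖ft (B (σ i)) b‖ ^ 4) / 2 := by
      nlinarith [sq_nonneg (‖ft (A i) b‖ ^ 2 - ‖ft (B (σ i)) b‖ ^ 2)]
    have h5 := mul_le_mul_of_nonneg_right h4 (sq_nonneg ‖1 - κh b ^ 2‖)
    calc (‖ft (A i) b‖ * ‖ft (B (σ i)) b‖ * ‖1 - κh b ^ 2‖) ^ 2 =
        ‖ft (A i) b‖ ^ 2 * ‖ft (B (σ i)) b‖ ^ 2 * ‖1 - κh b ^ 2‖ ^ 2 := by ring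
      _ ≤ _ := h5
      _ = _ := by ring
  refine (sum_le_sum hin).trans ?_
  rw [← mul_sum, sum_comm]
  have hi : ∀ i ∈ (univ : Finset (Fin k)), ∑ b, (‖ft (A i) b‖ ^ 4 * ‖1 - κh b ^ 2‖ ^ 2 +
        ‖ft (B (σ i)) b‖ ^ 4 * ‖1 - κh b ^ 2‖ ^ 2) / 2 ≤
      64 * K ^ 3 * (1 / 2) ^ j0 + 68 * K ^ 7 * δ ^ 2 := by
    intro i _
    have g1 := SL_one K hK (A i) (hA i) j0 δ Ξ (hXA i) (fun b => ‖1 - κh b ^ 2‖)
      (fun b => norm_nonneg _) hfar hnear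
    have g2 := SL_one K hK (B (σ i)) (hB (σ i)) j0 δ Ξ (hXB (σ i)) (fun b => ‖1 - κh b ^ 2‖)
      (fun b => norm_nonneg _) hfar hnear
    rw [← sum_div, sum_add_distrib]
    linarith
  have hsum := sum_le_sum hi
  rw [sum_const, card_univ, Fintype.card_fin, nsmul_eq_mul] at hsum
  calc (k : ℝ) * ∑ i, ∑ b, (‖ft (A i) b‖ ^ 4 * ‖1 - κh b ^ 2‖ ^ 2 +
        ‖ft (B (σ i)) b‖ ^ 4 * ‖1 - κh b ^ 2‖ ^ 2) / 2
      ≤ (k : ℝ) * (k * (64 * K ^ 3 * (1 / 2) ^ j0 + 68 * K ^ 7 * δ ^ 2)) :=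
        mul_le_mul_of_nonneg_left hsum (by positivity)
    _ = _ := by ring

/-- Variant of `l_two` (`Ml/LTwo.lean`) with two families `A`, `B`, with one prescribed
frequency `b1` and with the bound `log (1 / ZZ) / lam ≤ η`. The set `Ξ` is the union of the large
spectra (threshold `(1/2) ^ j0`) of all `A i` and all `B i` and `{b1}`; the range of `a` contains `Ξ`. -/
theorem kp_two (k : ℕ) (K η : ℝ) (hK : 1 ≤ K) (hη : 0 < η) : ∃ (J : ℕ) (lam : ℝ), 1 ≤ lam ∧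
    ∀ (ι : Type) [Fintype ι] [DecidableEq ι] (n : ι → ℕ) [∀ i, NeZero (n i)],
      (∀ i, Odd (n i)) → ∀ A B : Fin k → Gp n → ℝ,
      (∀ i, ∀ R : Finset (Gp n), ∑ b ∈ R, ‖ft (A i) b‖ ^ 2 ≤
        K ^ 2 * (R.card : ℝ) ^ (1 / 3 : ℝ)) →
      (∀ i, ∀ R : Finset (Gp n), ∑ b ∈ R, ‖ft (B i) b‖ ^ 2 ≤
        K ^ 2 * (R.card : ℝ) ^ (1 / 3 : ℝ)) →
      ∀ b1 : Gp n, ∃ a : Fin J → Gp n, (∃ j, a j = b1) ∧ ∀ E : Finset ι,
        Real.log (1 / ZZ a lam E) / lam ≤ η ∧ ∀ σ : Fin k → Fin k,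
        (∑ m, (∑ i, (cvm (A i) (B (σ i)) m -
          cvm (av (ka a lam E) (A i)) (av (ka a lam E) (B (σ i))) m)) ^ 2) /
            (Fintype.card (Gp n) : ℝ) ≤ η := by
  have hK0 : (0 : ℝ) < K := by linarith
  obtain ⟨j0, hj0⟩ := exists_pow_lt_of_lt_one
    (show (0 : ℝ) < η / (2 * (64 * k ^ 2 * K ^ 3 + 1)) by positivity)
    (show (1 : ℝ) / 2 < 1 by norm_num)
  obtain ⟨J, hJ⟩ : ∃ J, J = 2 * k * ⌈(K * 2 ^ j0) ^ 3⌉₊ + 1 := ⟨_, rfl⟩
  set δ1 : ℝ := Real.sqrt (η / (2 * (68 * k ^ 2 * K ^ 7 + 1))) with hδ1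
  have hδ10 : 0 < δ1 := Real.sqrt_pos.2 (by positivity)
  have hδ2 : δ1 ^ 2 = η / (2 * (68 * k ^ 2 * K ^ 7 + 1)) := Real.sq_sqrt (by positivity)
  set δ : ℝ := min δ1 η with hδ
  have hδ0 : 0 < δ := lt_min hδ10 hη
  have hδη : δ ≤ η := min_le_right _ _
  have hδs : δ ^ 2 ≤ η / (2 * (68 * k ^ 2 * K ^ 7 + 1)) := by
    rw [← hδ2]
    exact pow_le_pow_left₀ hδ0.le (min_le_left _ _) 2
  set s : ℝ := max 1 (21 * J / δ) with hs
  have hs1 : 1 ≤ s := le_max_left _ _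
  have hs2 : 21 * J / δ ≤ s := le_max_right _ _
  refine ⟨J, s ^ 2, one_le_pow₀ hs1, ?_⟩
  intro ι _ _ n _ hodd A B hA hB b1
  have hd : J * (20 + Real.sqrt (s ^ 2)) / s ^ 2 ≤ δ := by
    rw [Real.sqrt_sq (by linarith), div_le_iff₀ (by positivity)]
    rw [div_le_iff₀ hδ0] at hs2
    have hJ0 : (0 : ℝ) ≤ J := by positivity
    calc (J : ℝ) * (20 + s) ≤ J * (21 * s) := mul_le_mul_of_nonneg_left (by linarith) hJ0
      _ = (21 * J) * s := by ring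
      _ ≤ (s * δ) * s := mul_le_mul_of_nonneg_right hs2 (by linarith)
      _ = δ * s ^ 2 := by ring
  obtain ⟨a, ha1, ha⟩ := SL_core hodd k K hK A B hA hB b1 j0 J (s ^ 2) δ (one_le_pow₀ hs1) hJ hd
  refine ⟨a, ha1, fun E => ⟨(ha E).1.trans hδη, fun σ => ((ha E).2 σ).trans ?_⟩⟩
  have h1 : 64 * (k : ℝ) ^ 2 * K ^ 3 * (1 / 2) ^ j0 ≤ η / 2 := by
    calc 64 * (k : ℝ) ^ 2 * K ^ 3 * (1 / 2) ^ j0
        ≤ (64 * (k : ℝ) ^ 2 * K ^ 3 + 1) * (η / (2 * (64 * k ^ 2 * K ^ 3 + 1))) :=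
          mul_le_mul (by linarith) hj0.le (by positivity) (by positivity)
      _ = η / 2 := by field_simp
  have h2 : 68 * (k : ℝ) ^ 2 * K ^ 7 * δ ^ 2 ≤ η / 2 := by
    calc 68 * (k : ℝ) ^ 2 * K ^ 7 * δ ^ 2
        ≤ (68 * (k : ℝ) ^ 2 * K ^ 7 + 1) * (η / (2 * (68 * k ^ 2 * K ^ 7 + 1))) :=
          mul_le_mul (by linarith) hδs (by positivity) (by positivity)
      _ = η / 2 := by field_simp
  linarith

end Pool.Agent.Lib.MP_629a14_nt.Kp
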