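import Pool.Agent.Lib.MP_629a14_nt.Kp.SBas
import Pool.Agent.Lib.MP_629a14_nt.Kp.SDens

/-! Sums of `uA` over intervals and residue classes. -/

set_option autoImplicit false

namespace Pool.Agent.Lib.MP_629a14_nt.Kp

open Finset Filter Topology Pool.Agent.Lib.MP_629a14_nt Pool.Agent.Lib.MP_629a14_nt.Rob
open Pool.Agent.Lib.MP_629a14_nt.Ml

private theorem SSum_den_le (v : ℕ) : den v ≤ 1 := by
  unfold den
  have h : (0 : ℝ) < (primorial v : ℝ) := by exact_mod_cast primorial_pos v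
  rw [div_le_one h]
  exact_mod_cast Nat.totient_le _

private theorem SSum_den_nonneg (v : ℕ) : 0 ≤ den v := by
  unfold den
  positivity

open Classical in
/-- The number of elements of a class in an interval. -/
private theorem SSum_cnt (A : Set ℕ) (R b x₁ x₂ : ℕ) (h : x₁ ≤ x₂) :
    ((((Ico x₁ x₂).filter (fun p => p.Prime ∧ p ∈ A ∧ p ≡ b [MOD R])).card : ℕ) : ℝ) =
      (cntA A R b (x₂ - 1) : ℝ) - cntA A R b (x₁ - 1) := by
  classical
  have h1 : ((Icc 1 (x₂ - 1)).filter (fun p => p.Prime ∧ p ∈ A ∧ p ≡ b [MOD R])) =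
      ((Ico x₁ x₂).filter (fun p => p.Prime ∧ p ∈ A ∧ p ≡ b [MOD R])) ∪
        ((Icc 1 (x₁ - 1)).filter (fun p => p.Prime ∧ p ∈ A ∧ p ≡ b [MOD R])) := by
    ext p
    simp only [mem_union, mem_filter, mem_Icc, mem_Ico]
    constructor
    · rintro ⟨⟨h2, h3⟩, h4⟩
      have h5 := h4.1.one_lt
      by_cases h6 : x₁ ≤ p
      · exact Or.inl ⟨⟨h6, by omega⟩, h4⟩
      · exact Or.inr ⟨⟨h2, by omega⟩, h4⟩
    · rintro (⟨⟨h2, h3⟩, h4⟩ | ⟨⟨h2, h3⟩, h4⟩)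
      · have h5 := h4.1.one_lt
        exact ⟨⟨by omega, by omega⟩, h4⟩
      · exact ⟨⟨by omega, by omega⟩, h4⟩
  have h2 : Disjoint ((Ico x₁ x₂).filter (fun p => p.Prime ∧ p ∈ A ∧ p ≡ b [MOD R]))
      ((Icc 1 (x₁ - 1)).filter (fun p => p.Prime ∧ p ∈ A ∧ p ≡ b [MOD R])) := by
    rw [disjoint_left]
    intro p hp hp'
    simp only [mem_filter, mem_Icc, mem_Ico] at hp hp'
    omega
  unfold cntA
  rw [h1, card_union_of_disjoint h2]
  push_cast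
  ring

open Classical in
/-- The sum of `uA` over a class in an interval. -/
private theorem SSum_sum (v X N : ℕ) (A : Set ℕ) (R b x₁ x₂ : ℕ) (hN : N ≤ X) (hX : 1 ≤ X)
    (h2 : x₂ ≤ N + 1) :
    |∑ x ∈ (Ico x₁ x₂).filter (fun x => x ≡ b [MOD R]), uA v X N A x -
      den v * (Real.log X *
        (((Ico x₁ x₂).filter (fun p => p.Prime ∧ p ∈ A ∧ p ≡ b [MOD R])).card : ℕ))| ≤
      Real.log X * ((X : ℝ) ^ (1 / 4 : ℝ) + 1) := by
  classical
  have hlog : 0 ≤ Real.log X := Real.log_natCast_nonneg X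
  set y : ℕ := ⌊(X : ℝ) ^ (1 / 4 : ℝ)⌋₊ with hy
  have e1 : ∑ x ∈ (Ico x₁ x₂).filter (fun x => x ≡ b [MOD R]), uA v X N A x =
      den v * Real.log X *
        (((Ico x₁ x₂).filter (fun p => y < p ∧ p.Prime ∧ p ∈ A ∧ p ≡ b [MOD R])).card : ℕ) := by
    unfold uA
    rw [← hy, ← sum_filter, filter_filter, sum_const, nsmul_eq_mul, mul_comm]
    congr 2
    congr 1
    ext p
    simp only [mem_filter, mem_Ico]
    constructor
    · rintro ⟨h3, h4, h5, h6, h7, h8⟩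
      exact ⟨h3, h6, h5, h8, h4⟩
    · rintro ⟨h3, h4, h5, h6, h7⟩
      exact ⟨h3, h7, h5, h4, by omega, h6⟩
  have e2 : ((Ico x₁ x₂).filter (fun p => p.Prime ∧ p ∈ A ∧ p ≡ b [MOD R])) ⊆
      ((Ico x₁ x₂).filter (fun p => y < p ∧ p.Prime ∧ p ∈ A ∧ p ≡ b [MOD R])) ∪
        range (y + 1) := by
    intro p hp
    simp only [mem_union, mem_filter, mem_Ico, mem_range] at hp ⊢
    by_cases h3 : y < p
    · exact Or.inl ⟨hp.1, h3, hp.2⟩
    · exact Or.inr (by omega)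
  have e3 : ((Ico x₁ x₂).filter (fun p => y < p ∧ p.Prime ∧ p ∈ A ∧ p ≡ b [MOD R])) ⊆
      ((Ico x₁ x₂).filter (fun p => p.Prime ∧ p ∈ A ∧ p ≡ b [MOD R])) := by
    intro p hp
    simp only [mem_filter, mem_Ico] at hp ⊢
    exact ⟨hp.1, hp.2.2⟩
  have c1 := (card_le_card e2).trans (card_union_le _ _)
  have c2 := card_le_card e3
  rw [card_range] at c1
  have c1' : (((Ico x₁ x₂).filter (fun p => p.Prime ∧ p ∈ A ∧ p ≡ b [MOD R])).card : ℝ) ≤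
      (((Ico x₁ x₂).filter (fun p => y < p ∧ p.Prime ∧ p ∈ A ∧ p ≡ b [MOD R])).card : ℝ) +
        (y + 1) := by exact_mod_cast c1
  have c2' : (((Ico x₁ x₂).filter (fun p => y < p ∧ p.Prime ∧ p ∈ A ∧ p ≡ b [MOD R])).card : ℝ) ≤
    (((Ico x₁ x₂).filter (fun p => p.Prime ∧ p ∈ A ∧ p ≡ b [MOD R])).card : ℝ) := by
    exact_mod_cast c2
  have hyle : (y : ℝ) ≤ (X : ℝ) ^ (1 / 4 : ℝ) := Nat.floor_le (by positivity)
  rw [e1]
  set C1 : ℝ := (((Ico x₁ x₂).filter (fun p => p.Prime ∧ p ∈ A ∧ p ≡ b [MOD R])).card : ℝ)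
  set C2 : ℝ :=
    (((Ico x₁ x₂).filter (fun p => y < p ∧ p.Prime ∧ p ∈ A ∧ p ≡ b [MOD R])).card : ℝ)
  rw [show den v * Real.log X * C2 - den v * (Real.log X * C1) =
    -(den v * (Real.log X * (C1 - C2))) by ring, abs_neg,
    abs_of_nonneg (mul_nonneg (SSum_den_nonneg v) (mul_nonneg hlog (by linarith)))]
  calc den v * (Real.log X * (C1 - C2)) ≤ 1 * (Real.log X * (C1 - C2)) :=
        mul_le_mul_of_nonneg_right (SSum_den_le v) (mul_nonneg hlog (by linarith))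
    _ = Real.log X * (C1 - C2) := one_mul _
    _ ≤ Real.log X * ((X : ℝ) ^ (1 / 4 : ℝ) + 1) :=
        mul_le_mul_of_nonneg_left (by linarith) hlog

private theorem SSum_small (ε : ℝ) (hε : 0 < ε) : ∃ X₀ : ℕ, ∀ X : ℕ, X₀ ≤ X →
    Real.log X * ((X : ℝ) ^ (1 / 4 : ℝ) + 1) ≤ ε * X := by
  have h1 : Tendsto (fun x : ℝ => Real.log x / x ^ (1 / 4 : ℝ)) atTop (𝓝 0) :=
    (isLittleO_log_rpow_atTop (by norm_num : (0 : ℝ) < 1 / 4)).tendsto_div_nhds_zero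
  have h2 := (h1.comp tendsto_natCast_atTop_atTop).eventually (gt_mem_nhds (half_pos hε))
  obtain ⟨X₀, hX₀⟩ := eventually_atTop.1 h2
  refine ⟨max X₀ 1, fun X hX => ?_⟩
  have h3 := hX₀ X (le_trans (le_max_left _ _) hX)
  simp only [Function.comp_apply] at h3
  have hX1 : (1 : ℝ) ≤ (X : ℝ) := by exact_mod_cast (le_trans (le_max_right _ _) hX)
  have hX0 : (0 : ℝ) < (X : ℝ) := by linarith
  have hp : (0 : ℝ) < (X : ℝ) ^ (1 / 4 : ℝ) := Real.rpow_pos_of_pos hX0 _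
  rw [div_lt_iff₀ hp] at h3
  have hp1 : (1 : ℝ) ≤ (X : ℝ) ^ (1 / 4 : ℝ) := Real.one_le_rpow hX1 (by norm_num)
  have hlog : 0 ≤ Real.log X := Real.log_natCast_nonneg X
  have h4 : (X : ℝ) ^ (1 / 4 : ℝ) * (X : ℝ) ^ (1 / 4 : ℝ) ≤ X := by
    rw [← Real.rpow_add hX0]
    calc (X : ℝ) ^ ((1 / 4 : ℝ) + 1 / 4) ≤ (X : ℝ) ^ (1 : ℝ) :=
          Real.rpow_le_rpow_of_exponent_le hX1 (by norm_num)
      _ = X := Real.rpow_one _
  calc Real.log X * ((X : ℝ) ^ (1 / 4 : ℝ) + 1) ≤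
        (ε / 2 * (X : ℝ) ^ (1 / 4 : ℝ)) * (2 * (X : ℝ) ^ (1 / 4 : ℝ)) := by
        apply mul_le_mul h3.le (by linarith) (by positivity) (by positivity)
    _ = ε * ((X : ℝ) ^ (1 / 4 : ℝ) * (X : ℝ) ^ (1 / 4 : ℝ)) := by ring
    _ ≤ ε * X := mul_le_mul_of_nonneg_left h4 hε.le

/-- From `dens_unif` for the finitely many `b < R`; the primes up to `X ^ (1/4)` contribute at most
`X ^ (1/4) log X`. -/
theorem uA_class {A : Set ℕ} {α : ℝ} (hA : HasDensity A α) (v R : ℕ) (hR : 1 ≤ R) (ε : ℝ)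
    (hε : 0 < ε) : ∃ X₀ : ℕ, ∀ X : ℕ, X₀ ≤ X → ∀ N : ℕ, N ≤ X → ∀ b : ℕ, b.Coprime R →
      ∀ x₁ x₂ : ℕ, x₁ ≤ x₂ → x₂ ≤ N + 1 →
      |∑ x ∈ (Ico x₁ x₂).filter (fun x => x ≡ b [MOD R]), uA v X N A x -
        den v * α * ((x₂ : ℝ) - x₁) / R.totient| ≤ ε * X := by
  classical
  have hε4 : 0 < ε / 4 := by linarith
  -- one threshold for all residues
  have hall : ∃ X₁ : ℕ, ∀ b : ℕ, b < R → b.Coprime R → ∀ X : ℕ, X₁ ≤ X → ∀ x : ℕ, x ≤ X →
      |Real.log X * (cntA A R b x : ℝ) - α * x / R.totient| ≤ ε / 4 * X := by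
    have h1 : ∀ b : ℕ, ∃ X₁ : ℕ, b.Coprime R → ∀ X : ℕ, X₁ ≤ X → ∀ x : ℕ, x ≤ X →
        |Real.log X * (cntA A R b x : ℝ) - α * x / R.totient| ≤ ε / 4 * X := by
      intro b
      by_cases hb : b.Coprime R
      · obtain ⟨X₁, h⟩ := dens_unif hA R b hR hb (ε / 4) hε4
        exact ⟨X₁, fun _ => h⟩
      · exact ⟨0, fun h => absurd h hb⟩
    choose X₁ hX₁ using h1
    refine ⟨(range R).sup X₁, fun b hb hbR X hX x hx => ?_⟩
    exact hX₁ b hbR X ((le_sup (mem_range.2 hb)).trans hX) x hx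
  obtain ⟨X₁, hX₁⟩ := hall
  obtain ⟨X₂, hX₂⟩ := SSum_small (ε / 4) hε4
  obtain ⟨X₃, hX₃⟩ := exists_nat_ge (|α| / (ε / 4))
  refine ⟨max (max X₁ X₂) (max X₃ 1), fun X hX N hN b hb x₁ x₂ h12 hx₂ => ?_⟩
  have g1 : X₁ ≤ X := (le_max_left _ _).trans ((le_max_left _ _).trans hX)
  have g2 : X₂ ≤ X := (le_max_right _ _).trans ((le_max_left _ _).trans hX)
  have g3 : X₃ ≤ X := (le_max_left _ _).trans ((le_max_right _ _).trans hX)
  have g4 : 1 ≤ X := (le_max_right _ _).trans ((le_max_right _ _).trans hX)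
  have hαX : |α| ≤ ε / 4 * X := by
    have h3 : |α| / (ε / 4) ≤ X := hX₃.trans (by exact_mod_cast g3)
    rw [div_le_iff₀ hε4] at h3
    linarith
  have hbm : (b % R) ≡ b [MOD R] := Nat.mod_modEq b R
  have hbc : (b % R).Coprime R := by
    have := hbm.gcd_eq
    unfold Nat.Coprime at hb ⊢
    rw [this, hb]
  have hcnt : ∀ x : ℕ, cntA A R b x = cntA A R (b % R) x := by
    intro x
    unfold cntA
    congr 1
    refine filter_congr fun p _ => ?_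
    constructor
    · rintro ⟨h1, h2, h3⟩
      exact ⟨h1, h2, h3.trans hbm.symm⟩
    · rintro ⟨h1, h2, h3⟩
      exact ⟨h1, h2, h3.trans hbm⟩
  have k1 := hX₁ (b % R) (Nat.mod_lt b (by omega)) hbc X g1 (x₂ - 1) (by omega)
  have k2 := hX₁ (b % R) (Nat.mod_lt b (by omega)) hbc X g1 (x₁ - 1) (by omega)
  rw [← hcnt] at k1 k2
  have k3 := SSum_sum v X N A R b x₁ x₂ hN g4 hx₂
  rw [SSum_cnt A R b x₁ x₂ h12] at k3
  have k4 := hX₂ X g2
  have hφ : (1 : ℝ) ≤ (R.totient : ℝ) := by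
    have : 0 < R.totient := Nat.totient_pos.2 (by omega)
    exact_mod_cast this
  have hφ0 : (0 : ℝ) < (R.totient : ℝ) := by linarith
  -- the difference of the two main terms
  have k5 : |α * ((x₂ - 1 : ℕ) : ℝ) / R.totient - α * ((x₁ - 1 : ℕ) : ℝ) / R.totient -
      α * ((x₂ : ℝ) - x₁) / R.totient| ≤ ε / 4 * X := by
    have e : α * ((x₂ - 1 : ℕ) : ℝ) / R.totient - α * ((x₁ - 1 : ℕ) : ℝ) / R.totient -
      α * ((x₂ : ℝ) - x₁) / R.totient =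
      α * ((((x₂ - 1 : ℕ) : ℝ) - ((x₁ - 1 : ℕ) : ℝ)) - ((x₂ : ℝ) - x₁)) / R.totient := by ring
    rw [e, abs_div, abs_mul, abs_of_pos hφ0]
    have e2 : |((((x₂ - 1 : ℕ) : ℝ) - ((x₁ - 1 : ℕ) : ℝ)) - ((x₂ : ℝ) - x₁))| ≤ 1 := by
      rcases Nat.eq_zero_or_pos x₁ with h | h
      · rcases Nat.eq_zero_or_pos x₂ with h' | h'
        · subst h; subst h'; norm_num
        · subst h
          rw [Nat.cast_sub h']
          norm_num
      · rw [Nat.cast_sub h, Nat.cast_sub (le_trans h h12)]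
        push_cast
        rw [show ((x₂ : ℝ) - 1 - ((x₁ : ℝ) - 1) - ((x₂ : ℝ) - x₁)) = 0 by ring]
        norm_num
    rw [div_le_iff₀ hφ0]
    calc |α| * |((((x₂ - 1 : ℕ) : ℝ) - ((x₁ - 1 : ℕ) : ℝ)) - ((x₂ : ℝ) - x₁))| ≤ |α| * 1 :=
          mul_le_mul_of_nonneg_left e2 (abs_nonneg _)
      _ = |α| := mul_one _
      _ ≤ ε / 4 * X := hαX
      _ ≤ ε / 4 * X * R.totient := by
          have : 0 ≤ ε / 4 * X := by positivity
          nlinarith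
  have hd0 := SSum_den_nonneg v
  have hd1 := SSum_den_le v
  set S : ℝ := ∑ x ∈ (Ico x₁ x₂).filter (fun x => x ≡ b [MOD R]), uA v X N A x
  set c2 : ℝ := (cntA A R b (x₂ - 1) : ℝ)
  set c1 : ℝ := (cntA A R b (x₁ - 1) : ℝ)
  set m2 : ℝ := α * ((x₂ - 1 : ℕ) : ℝ) / R.totient
  set m1 : ℝ := α * ((x₁ - 1 : ℕ) : ℝ) / R.totient
  set m : ℝ := α * ((x₂ : ℝ) - x₁) / R.totient with hm
  have k6 : |Real.log X * (c2 - c1) - m| ≤ 3 * (ε / 4 * X) := by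
    have e : Real.log X * (c2 - c1) - m =
      (Real.log X * c2 - m2) - (Real.log X * c1 - m1) + (m2 - m1 - m) := by ring
    rw [e]
    refine (abs_add_le _ _).trans ?_
    have := abs_sub (Real.log X * c2 - m2) (Real.log X * c1 - m1)
    linarith
  have k7 : |den v * (Real.log X * (c2 - c1) - m)| ≤ 3 * (ε / 4 * X) := by
    rw [abs_mul, abs_of_nonneg hd0]
    calc den v * |Real.log X * (c2 - c1) - m| ≤ 1 * |Real.log X * (c2 - c1) - m| :=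
          mul_le_mul_of_nonneg_right hd1 (abs_nonneg _)
      _ ≤ 3 * (ε / 4 * X) := by rw [one_mul]; exact k6
  have e : S - den v * α * ((x₂ : ℝ) - x₁) / R.totient =
      (S - den v * (Real.log X * (c2 - c1))) + den v * (Real.log X * (c2 - c1) - m) := by
    rw [hm]
    ring
  rw [e]
  refine (abs_add_le _ _).trans ?_
  linarith

/-- The set of all primes has relative density `1` in every class (the quotient is eventually
`1` by Dirichlet's theorem or `pi_unif`). -/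
theorem hasDensity_univ : HasDensity Set.univ 1 := by
  intro q a hq ha
  have hne : NeZero q := ⟨by omega⟩
  have hunit : IsUnit ((a : ZMod q)) := (ZMod.isUnit_iff_coprime a q).2 ha
  obtain ⟨p, -, hp, hpa⟩ := Nat.forall_exists_prime_gt_and_eq_mod hunit 0
  refine tendsto_const_nhds.congr' ?_
  filter_upwards [eventually_ge_atTop p] with x hx
  have hfin : Set.Finite {p : ℕ | p ≤ x ∧ p.Prime ∧ p ∈ (Set.univ : Set ℕ) ∧ p ≡ a [MOD q]} :=
    (Set.finite_Iic x).subset fun y hy => hy.1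
  have hpos : 0 < primesIn Set.univ q a x := by
    unfold primesIn
    rw [Set.ncard_pos hfin]
    refine ⟨p, hx, hp, Set.mem_univ _, ?_⟩
    rw [← ZMod.natCast_eq_natCast_iff]
    exact hpa
  have h : ((primesIn Set.univ q a x : ℕ) : ℝ) ≠ 0 := by
    exact_mod_cast hpos.ne'
  rw [div_self h]

/-- `uA_class` for `Set.univ` and `R = 1`, `den v ≤ 1`, `uA v X N A x ≤ uA v X N univ x`. -/
theorem uA_sum (v : ℕ) (ε : ℝ) (hε : 0 < ε) : ∃ X₀ : ℕ, ∀ X : ℕ, X₀ ≤ X → ∀ N : ℕ, N ≤ X →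
    ∀ A : Set ℕ, ∀ x₁ x₂ : ℕ, x₁ ≤ x₂ → x₂ ≤ N + 1 →
      ∑ x ∈ Ico x₁ x₂, uA v X N A x ≤ ((x₂ : ℝ) - x₁) + ε * X := by
  obtain ⟨X₀, h0⟩ := uA_class hasDensity_univ v 1 le_rfl ε hε
  refine ⟨X₀, fun X hX N hN A x₁ x₂ h12 hx₂ => ?_⟩
  have h1 := h0 X hX N hN 0 (Nat.coprime_one_right 0) x₁ x₂ h12 hx₂
  have hf : (Ico x₁ x₂).filter (fun x => x ≡ 0 [MOD 1]) = Ico x₁ x₂ :=
    filter_true_of_mem fun x _ => Nat.modEq_one
  rw [hf, Nat.totient_one, Nat.cast_one, div_one, mul_one] at h1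
  have hlog : 0 ≤ Real.log X := Real.log_natCast_nonneg X
  have hd0 := SSum_den_nonneg v
  have hle : ∑ x ∈ Ico x₁ x₂, uA v X N A x ≤ ∑ x ∈ Ico x₁ x₂, uA v X N Set.univ x := by
    refine sum_le_sum fun x _ => ?_
    unfold uA
    by_cases h : x.Prime ∧ ⌊(X : ℝ) ^ (1 / 4 : ℝ)⌋₊ < x ∧ x ≤ N ∧ x ∈ A
    · rw [if_pos h, if_pos ⟨h.1, h.2.1, h.2.2.1, Set.mem_univ _⟩]
    · rw [if_neg h]
      split_ifs
      · exact mul_nonneg hd0 hlog
      · exact le_rfl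
  have h2 := (abs_le.1 h1).2
  have h3 : den v * ((x₂ : ℝ) - x₁) ≤ 1 * ((x₂ : ℝ) - x₁) := by
    refine mul_le_mul_of_nonneg_right (SSum_den_le v) ?_
    have : (x₁ : ℝ) ≤ x₂ := by exact_mod_cast h12
    linarith
  linarith

end Pool.Agent.Lib.MP_629a14_nt.Kp
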