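import Pool.Agent.Lib.MP_629a14_nt.Kp.Struct
import Pool.Agent.Lib.MP_629a14_nt.Kp.All
import Pool.Agent.Lib.MP_629a14_nt.Kp.Ext
import Pool.Agent.Lib.MP_629a14_nt.Kp.BlockSum

/-! Lower bounds for the truncated means. -/

set_option autoImplicit false

namespace Pool.Agent.Lib.MP_629a14_nt.Kp

open Finset Filter Topology Pool.Agent.Lib.MP_629a14_nt Pool.Agent.Lib.MP_629a14_nt.Rob

theorem model_nonneg {v : ℕ} {f g : ℕ → ℝ} (hf0 : ∀ x, 0 ≤ f x) (hg0 : ∀ x, 0 ≤ g x) (n : ℕ) :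
    0 ≤ model v f g n := by
  unfold model
  exact mul_nonneg (div_nonneg (sq_nonneg _) (mul_nonneg (Nat.cast_nonneg _) (sig_pos' v n).le))
    (sum_nonneg fun x _ => mul_nonneg (hf0 _) (hg0 _))

/-- The contribution of one block. -/
theorem one_block {R Q : ℕ} [NeZero R] [NeZero Q] {v N : ℕ} {α β δ t : ℝ} {f g : ℕ → ℝ}
    (hv : 2 ≤ v) (hvε : 1 / δ ^ 2 ≤ v)
    (hR : primorial v ∣ R) (hQ : ∀ p : ℕ, p.Prime → p ∣ Q → v < p)
    (hδ : 0 < δ) (hδ1 : δ ≤ 1 / 4) (hs : (R : ℝ) * Q ≤ δ ^ 2 * N)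
    (hf : Loc (primorial v) R Q N α (δ ^ 2) f)
    (hg : Loc (primorial v) R Q N β (δ ^ 2) g) (hα1 : α ≤ 1) (hβ1 : β ≤ 1) (ht : 0 ≤ t)
    (h1 : t ≤ α) (h2 : t ≤ β) {m : ℕ} (hm : δ * N ≤ m * (R * Q : ℝ))
    (hm2 : ((m : ℝ) + 1) * (R * Q : ℝ) ≤ (1 - δ ^ 2) * N) :
    (R * Q : ℝ) / 2 * (t * min 1 (α + β - t) - 7 * δ) ≤
      ∑ n ∈ (Ico (m * (R * Q)) (m * (R * Q) + R * Q)).filter (fun n => Even n),
        min (model v f g n) t := by
  have hR0 : (0 : ℝ) < R := by exact_mod_cast Nat.pos_of_ne_zero (NeZero.ne R)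
  have hQ0 : (0 : ℝ) < Q := by exact_mod_cast Nat.pos_of_ne_zero (NeZero.ne Q)
  obtain ⟨s, hs'⟩ : ∃ s : ℝ, s = (R : ℝ) * Q := ⟨_, rfl⟩
  have hs0 : 0 < s := by rw [hs']; positivity
  obtain ⟨e, he⟩ : ∃ e : ℝ, e = δ ^ 2 := ⟨_, rfl⟩
  have he0 : 0 < e := by rw [he]; positivity
  have he1 : 4 * e ≤ δ := by rw [he]; nlinarith
  obtain ⟨M, hM⟩ : ∃ M : ℝ, M = t * min 1 (α + β - t) := ⟨_, rfl⟩
  have ht1 : t ≤ 1 := h1.trans hα1
  have hM0 : 0 ≤ M := by
    rw [hM]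
    exact mul_nonneg ht (le_min zero_le_one (by linarith))
  have hM1 : M ≤ 1 := by
    rw [hM]
    calc t * min 1 (α + β - t) ≤ t * 1 := mul_le_mul_of_nonneg_left (min_le_left _ _) ht
      _ ≤ 1 := by linarith
  rw [← he] at hvε hs hf hg hm2
  rw [← hs'] at hs hm hm2
  obtain ⟨i₀, hi₀⟩ : ∃ i₀ : ℕ, i₀ = ⌈e * N / s⌉₊ := ⟨_, rfl⟩
  have hx1 : 1 ≤ e * N / s := by rw [le_div_iff₀ hs0]; linarith
  have hi0 : e * N / s ≤ i₀ := by rw [hi₀]; exact Nat.le_ceil _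
  have hi1 : (i₀ : ℝ) < e * N / s + 1 := by rw [hi₀]; exact Nat.ceil_lt_add_one (by linarith)
  have hi2 : 1 ≤ i₀ := by
    have : (1 : ℝ) ≤ i₀ := hx1.trans hi0
    exact_mod_cast this
  have hmm : δ * N / s ≤ m := by rw [div_le_iff₀ hs0]; exact hm
  have hN0 : (0 : ℝ) ≤ N := Nat.cast_nonneg N
  have h4e : 4 * (e * N / s) ≤ δ * N / s := by
    rw [← mul_div_assoc]
    refine div_le_div_of_nonneg_right ?_ hs0.le
    nlinarith
  have hi3 : (2 : ℝ) * i₀ ≤ m := by linarith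
  have hi4 : 2 * i₀ ≤ m := by exact_mod_cast hi3
  have hm1 : 1 ≤ m := by omega
  have hcast : ((m + 1 - i₀ : ℕ) : ℝ) = (m : ℝ) + 1 - i₀ := by
    rw [Nat.cast_sub (by omega)]
    push_cast
    ring
  have hb : ∀ j : ℝ, e * N / s ≤ j → e * N ≤ j * (R * Q) := by
    intro j hj
    rw [← hs']
    rwa [div_le_iff₀ hs0] at hj
  have hkey := block_sum R Q (i₀ := i₀) (i₁ := m + 1 - i₀) (m := m) hv hvε hR hQ he0
    (by linarith) hf hg hα1 hβ1 ht h1 h2 (by omega) (by omega) hm1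
    (by
      intro i hi
      rw [mem_Ico] at hi
      have h3 : (i₀ : ℝ) ≤ i := by exact_mod_cast hi.1
      have h4 : (i : ℝ) + 1 ≤ (m : ℝ) + 1 := by
        have : (i : ℝ) ≤ m := by exact_mod_cast (by omega : i ≤ m)
        linarith
      refine ⟨hb i (hi0.trans h3), ?_⟩
      rw [← hs']
      have h5 := mul_le_mul_of_nonneg_right h4 hs0.le
      linarith)
    (by
      intro i hi
      rw [mem_Ico] at hi
      have h3 : (i₀ : ℝ) ≤ (m : ℝ) - i := by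
        have : ((i + i₀ : ℕ) : ℝ) ≤ m := by exact_mod_cast (by omega : i + i₀ ≤ m)
        push_cast at this
        linarith
      have h4 : (m : ℝ) - i + 1 ≤ (m : ℝ) + 1 := by
        have : (0 : ℝ) ≤ i := Nat.cast_nonneg _
        linarith
      refine ⟨hb _ (hi0.trans h3), ?_⟩
      rw [← hs']
      have h5 := mul_le_mul_of_nonneg_right h4 hs0.le
      linarith)
  rw [← hs', ← hM, hcast] at hkey
  rw [← hs', ← hM]
  refine le_trans ?_ hkey
  refine mul_le_mul_of_nonneg_left ?_ (by positivity)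
  have hm0 : (0 : ℝ) < (m : ℝ) + 1 := by positivity
  obtain ⟨r, hr⟩ : ∃ r : ℝ, r = ((m : ℝ) + 1 - i₀ - i₀) / (m + 1) := ⟨_, rfl⟩
  rw [← hr]
  have hr1 : r ≤ 1 := by
    rw [hr, div_le_one hm0]
    have : (0 : ℝ) ≤ i₀ := Nat.cast_nonneg _
    linarith
  have hr2 : 1 - 4 * δ ≤ r := by
    rw [hr, le_div_iff₀ hm0]
    have h3 : 2 * (i₀ : ℝ) ≤ 4 * (e * N / s) := by linarith
    have h4 : 4 * (e * N / s) = 4 * δ * (δ * N / s) := by rw [he]; ring
    have h5 : 4 * δ * (δ * N / s) ≤ 4 * δ * (m + 1) :=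
      mul_le_mul_of_nonneg_left (by linarith) (by linarith)
    linarith
  have hr0 : 0 ≤ r := by linarith
  nlinarith [mul_le_mul_of_nonneg_right hr2 hM0, mul_le_mul_of_nonneg_right hr1 he0.le]

/-- Many blocks. -/
theorem many_blocks {R Q : ℕ} [NeZero R] [NeZero Q] {N : ℕ} {δ X : ℝ} {h : ℕ → ℝ}
    (hδ : 0 < δ) (hδ1 : δ ≤ 1 / 4) (hs : (R : ℝ) * Q ≤ δ ^ 2 * N)
    (h0 : ∀ n, 0 ≤ h n) (hX : X ≤ 1)
    (hb : ∀ m : ℕ, δ * N ≤ m * (R * Q : ℝ) → ((m : ℝ) + 1) * (R * Q : ℝ) ≤ (1 - δ ^ 2) * N →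
      (R * Q : ℝ) / 2 * X ≤
        ∑ n ∈ (Ico (m * (R * Q)) (m * (R * Q) + R * Q)).filter (fun n => Even n), h n) :
    (N : ℝ) / 2 * (X - 2 * δ) ≤ ∑ n ∈ (Icc 1 N).filter (fun n => Even n), h n := by
  have hR0 : (0 : ℝ) < R := by exact_mod_cast Nat.pos_of_ne_zero (NeZero.ne R)
  have hQ0 : (0 : ℝ) < Q := by exact_mod_cast Nat.pos_of_ne_zero (NeZero.ne Q)
  have hS0 : 0 ≤ ∑ n ∈ (Icc 1 N).filter (fun n => Even n), h n := sum_nonneg fun n _ => h0 n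
  have hN0 : (0 : ℝ) ≤ N := Nat.cast_nonneg N
  rcases le_or_gt X 0 with hX0 | hX0
  · refine le_trans ?_ hS0
    exact mul_nonpos_of_nonneg_of_nonpos (by positivity) (by linarith)
  obtain ⟨s, hs'⟩ : ∃ s : ℝ, s = (R : ℝ) * Q := ⟨_, rfl⟩
  have hs0 : 0 < s := by rw [hs']; positivity
  obtain ⟨e, he⟩ : ∃ e : ℝ, e = δ ^ 2 := ⟨_, rfl⟩
  have he0 : 0 < e := by rw [he]; positivity
  have he1 : 4 * e ≤ δ := by rw [he]; nlinarith
  rw [← hs', ← he] at hb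
  rw [← he, ← hs'] at hs
  obtain ⟨m₀, hm₀⟩ : ∃ m₀ : ℕ, m₀ = ⌈δ * N / s⌉₊ := ⟨_, rfl⟩
  obtain ⟨m₁, hm₁⟩ : ∃ m₁ : ℕ, m₁ = ⌊(1 - e) * N / s⌋₊ := ⟨_, rfl⟩
  have hx1 : 1 ≤ e * N / s := by rw [le_div_iff₀ hs0]; linarith
  have hy : 0 ≤ N / s := by positivity
  have hx2 : e * N / s = e * (N / s) := by ring
  rw [hx2] at hx1
  have hm0 : (m₀ : ℝ) < δ * (N / s) + 1 := by
    have : δ * N / s = δ * (N / s) := by ring
    rw [hm₀, this]
    exact Nat.ceil_lt_add_one (by positivity)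
  have hm0' : δ * N ≤ m₀ * s := by
    have : δ * N / s ≤ m₀ := by rw [hm₀]; exact Nat.le_ceil _
    rwa [div_le_iff₀ hs0] at this
  have hm1 : (1 - e) * (N / s) - 1 < m₁ := by
    have : (1 - e) * N / s = (1 - e) * (N / s) := by ring
    rw [hm₁, this]
    exact Nat.sub_one_lt_floor _
  have hm1' : (m₁ : ℝ) * s ≤ (1 - e) * N := by
    have : (m₁ : ℝ) ≤ (1 - e) * N / s := by
      rw [hm₁]
      exact Nat.floor_le (div_nonneg (mul_nonneg (by linarith) hN0) hs0.le)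
    rwa [le_div_iff₀ hs0] at this
  have hcount : (N / s) * (1 - 2 * δ) ≤ (m₁ : ℝ) - m₀ := by
    nlinarith
  have hle : m₀ ≤ m₁ := by
    have h3 : (0 : ℝ) ≤ (m₁ : ℝ) - m₀ := (mul_nonneg hy (by linarith)).trans hcount
    have : (m₀ : ℝ) ≤ m₁ := by linarith
    exact_mod_cast this
  have hm00 : 1 ≤ m₀ := by
    have h3 : 0 < δ * N / s := by
      have : 0 < (N : ℝ) := by
        by_contra hcon
        have : (N : ℝ) = 0 := le_antisymm (not_lt.1 hcon) hN0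
        rw [this] at hs
        linarith
      positivity
    rw [hm₀]
    exact Nat.ceil_pos.2 h3
  have hsum : ∑ m ∈ Ico m₀ m₁, s / 2 * X ≤ ∑ n ∈ (Icc 1 N).filter (fun n => Even n), h n := by
    calc ∑ m ∈ Ico m₀ m₁, s / 2 * X
        ≤ ∑ m ∈ Ico m₀ m₁, ∑ n ∈ (Ico (m * (R * Q)) (m * (R * Q) + R * Q)).filter
            (fun n => Even n), h n := by
          refine sum_le_sum fun m hm => ?_
          rw [mem_Ico] at hm
          refine hb m ?_ ?_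
          · refine hm0'.trans (mul_le_mul_of_nonneg_right ?_ hs0.le)
            exact_mod_cast hm.1
          · refine le_trans (mul_le_mul_of_nonneg_right ?_ hs0.le) hm1'
            exact_mod_cast hm.2
      _ = ∑ m ∈ Ico m₀ m₁, ∑ n ∈ Ico (m * (R * Q)) (m * (R * Q) + R * Q),
            if Even n then h n else 0 := by simp_rw [sum_filter]
      _ = ∑ n ∈ Ico (m₀ * (R * Q)) (m₁ * (R * Q)), if Even n then h n else 0 :=
          sum_blocks (fun n => if Even n then h n else 0) (R * Q) m₀ m₁ hle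
      _ = ∑ n ∈ (Ico (m₀ * (R * Q)) (m₁ * (R * Q))).filter (fun n => Even n), h n := by
          rw [sum_filter]
      _ ≤ _ := by
          refine sum_le_sum_of_subset_of_nonneg ?_ fun n _ _ => h0 n
          intro n hn
          rw [mem_filter, mem_Ico] at hn
          rw [mem_filter, mem_Icc]
          have hRQ : 0 < R * Q := Nat.pos_of_ne_zero (NeZero.ne _)
          have h3 : 1 ≤ m₀ * (R * Q) := Nat.mul_pos hm00 hRQ
          have h4 : m₁ * (R * Q) ≤ N := by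
            have : ((m₁ * (R * Q) : ℕ) : ℝ) ≤ N := by
              push_cast
              rw [← hs']
              nlinarith
            exact_mod_cast this
          exact ⟨⟨by omega, by omega⟩, hn.2⟩
  refine le_trans ?_ hsum
  rw [sum_const, nsmul_eq_mul, Nat.card_Ico, Nat.cast_sub hle]
  have h5 : (N / s) * (1 - 2 * δ) * (s / 2 * X) ≤ ((m₁ : ℝ) - m₀) * (s / 2 * X) :=
    mul_le_mul_of_nonneg_right hcount (by positivity)
  refine le_trans ?_ h5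
  have h6 : (N / s) * (1 - 2 * δ) * (s / 2 * X) = N / 2 * ((1 - 2 * δ) * X) := by
    field_simp
  rw [h6]
  refine mul_le_mul_of_nonneg_left ?_ (by positivity)
  nlinarith

theorem low_of_struc {A B : Set ℕ} {v N : ℕ} {α β δ t : ℝ} (hN : 1 ≤ N) (hv : 2 ≤ v)
    (hvε : 1 / δ ^ 2 ≤ v) (hδ : 0 < δ) (hδ1 : δ ≤ 1 / 4) (hS : Struc v N A B α β (δ ^ 2))
    (hα1 : α ≤ 1) (hβ1 : β ≤ 1) (ht : 0 ≤ t) (h1 : t ≤ α) (h2 : t ≤ β) :
    t * min 1 (α + β - t) - 10 * δ ≤ avg N (fun n => min (rho A B n) t) := by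
  classical
  obtain ⟨R, Q, hR, hR1, hQ1, hQ, hs, f, g, hf, hg, hexc⟩ := hS
  haveI : NeZero R := ⟨by omega⟩
  haveI : NeZero Q := ⟨by omega⟩
  have hN0 : (0 : ℝ) < N := by exact_mod_cast hN
  have ht1 : t ≤ 1 := h1.trans hα1
  have hM1 : t * min 1 (α + β - t) ≤ 1 := by
    calc t * min 1 (α + β - t) ≤ t * 1 := mul_le_mul_of_nonneg_left (min_le_left _ _) ht
      _ ≤ 1 := by linarith
  have hmb := many_blocks (R := R) (Q := Q) (N := N) (δ := δ)
    (X := t * min 1 (α + β - t) - 7 * δ) (h := fun n => min (model v f g n) t) hδ hδ1 hs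
    (fun n => le_min (model_nonneg hf.nonneg hg.nonneg n) ht) (by linarith)
    (fun m hm hm2 => one_block hv hvε hR hQ hδ hδ1 hs hf hg hα1 hβ1 ht h1 h2 hm hm2)
  have hcmp : ∑ n ∈ (Icc 1 N).filter (fun n => Even n), min (model v f g n) t ≤
      ∑ n ∈ (Icc 1 N).filter (fun n => Even n), (min (rho A B n) t + δ ^ 2 +
        if δ ^ 2 < |rho A B n - model v f g n| then 1 else 0) := by
    refine sum_le_sum fun n _ => ?_
    have hr := rho_nonneg A B n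
    have hr' : 0 ≤ min (rho A B n) t := le_min hr ht
    split_ifs with h
    · have : min (model v f g n) t ≤ t := min_le_right _ _
      have := sq_nonneg δ
      linarith
    · have h3 := (abs_le.1 (not_lt.1 h)).1
      rw [add_zero, ← min_add_add_right]
      refine le_min ?_ ?_
      · exact (min_le_left _ _).trans (by linarith)
      · exact (min_le_right _ _).trans (by have := sq_nonneg δ; linarith)
  have hcard : (((Icc 1 N).filter (fun n => Even n)).card : ℝ) ≤ N := by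
    have := card_filter_le (Icc 1 N) (fun n => Even n)
    rw [Nat.card_Icc] at this
    exact_mod_cast this
  have hexc' : ∑ n ∈ (Icc 1 N).filter (fun n => Even n),
      (if δ ^ 2 < |rho A B n - model v f g n| then (1 : ℝ) else 0) ≤ δ ^ 2 * N := by
    rw [← sum_filter, filter_filter, sum_const, nsmul_eq_mul, mul_one]
    exact hexc
  rw [sum_add_distrib, sum_add_distrib, sum_const, nsmul_eq_mul] at hcmp
  have hδ2 : 4 * δ ^ 2 ≤ δ := by nlinarith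
  have h6 : (((Icc 1 N).filter (fun n => Even n)).card : ℝ) * δ ^ 2 ≤ N * δ ^ 2 :=
    mul_le_mul_of_nonneg_right hcard (sq_nonneg δ)
  unfold avg
  rw [div_mul_eq_mul_div, le_div_iff₀ hN0]
  nlinarith

theorem trunc_low {A B : Set ℕ} {α β : ℝ} (hα1 : α ≤ 1)
    (hβ1 : β ≤ 1) (hA : HasDensity A α) (hB : HasDensity B β) {t : ℝ} (ht : 0 ≤ t) (h1 : t ≤ α)
    (h2 : t ≤ β) (ε : ℝ) (hε : 0 < ε) : ∃ N₀ : ℕ, ∀ N : ℕ, N₀ ≤ N →
      t * min 1 (α + β - t) - ε ≤ avg N (fun n => min (rho A B n) t) := by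
  obtain ⟨δ, hδ⟩ : ∃ δ : ℝ, δ = min (1 / 4) (ε / 10) := ⟨_, rfl⟩
  have hδ0 : 0 < δ := by rw [hδ]; exact lt_min (by norm_num) (by positivity)
  have hδ1 : δ ≤ 1 / 4 := by rw [hδ]; exact min_le_left _ _
  have hδ2 : δ ≤ ε / 10 := by rw [hδ]; exact min_le_right _ _
  obtain ⟨v, hv, hvε, N₀, hN⟩ := struct hA hB (ε := δ ^ 2) (by positivity)
  refine ⟨max N₀ 1, fun N hN' => ?_⟩
  have h3 := low_of_struc (le_trans (le_max_right _ _) hN') hv hvε hδ0 hδ1
    (hN N (le_trans (le_max_left _ _) hN')) hα1 hβ1 ht h1 h2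
  linarith

end Pool.Agent.Lib.MP_629a14_nt.Kp
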